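import Pool.Agent.Lib.MP_d175a7_gt.Simp

/-! # The noncommutative product of differences -/

set_option autoImplicit false
set_option linter.unusedVariables false

namespace Pool.Agent.MP_d175a7_gt

/-- `(θ_m - θ_(m-1)) ⋯ (θ_1 - θ_0)`. -/
def Phi {E : Type} [Ring E] : ∀ m : ℕ, (Fin (m + 1) → E) → E
  | 0, _ => 1
  | m + 1, θ => Phi m (fun i => θ i.succ) * (θ 1 - θ 0)

/-- The cocycle identity.  Proof: induction on `m`.  `m = 0`: both terms are `1`.  Step
`m → m + 1`, `θ : Fin (m + 3) → E`; put `θ' i = θ i.succ`, `θ'' i = θ i.succ.succ`.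
For `j ≥ 2`: `Phi (m+1) (θ ∘ del (m+1) j) = Phi m (θ' ∘ del m (j-1)) * (θ 1 - θ 0)`;
`j = 1`: `Phi m θ'' * (θ 2 - θ 0)`; `j = 0`: `Phi m θ'' * (θ 2 - θ 1)`; and
`θ' ∘ del m 0 = θ''`.  So the sum is `- (∑ j' ∈ range (m+2), (-1)^j' * Phi m (θ' ∘ del m j')) *
(θ 1 - θ 0) = 0`. -/
theorem Phi_coc {E : Type} [Ring E] (m : ℕ) (θ : Fin (m + 1 + 1) → E) :
    ∑ j ∈ Finset.range (m + 2), (-1 : E) ^ j * Phi m (fun l => θ (del m j l)) = 0 := by
  induction m with
  | zero =>
    rw [Finset.sum_range_succ, Finset.sum_range_one]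
    change (-1 : E) ^ 0 * 1 + (-1 : E) ^ 1 * 1 = 0
    simp
  | succ m ih =>
    have h := ih (fun l => θ l.succ)
    rw [Finset.sum_range_succ'] at h
    rw [Finset.sum_range_succ', Finset.sum_range_succ']
    have e2 : ∀ j ∈ Finset.range (m + 1),
        (-1 : E) ^ (j + 1 + 1) * Phi (m + 1) (fun l => θ (del (m + 1) (j + 1 + 1) l)) =
        -((-1 : E) ^ (j + 1) * Phi m (fun l => θ (del m (j + 1) l).succ) * (θ 1 - θ 0)) := by
      intro j _
      change (-1 : E) ^ (j + 1 + 1) * (Phi m (fun l => θ (del (m + 1) (j + 1 + 1) l.succ)) *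
        (θ (del (m + 1) (j + 1 + 1) 1) - θ (del (m + 1) (j + 1 + 1) 0))) = _
      have a1 : (fun l : Fin (m + 1) => θ (del (m + 1) (j + 1 + 1) l.succ)) =
          fun l => θ (del m (j + 1) l).succ := by
        funext l
        congr 1
        apply Fin.ext
        change (if l.1 + 1 < j + 1 + 1 then l.1 + 1 else l.1 + 1 + 1) =
          (if l.1 < j + 1 then l.1 else l.1 + 1) + 1
        split_ifs <;> omega
      have a2 : del (m + 1) (j + 1 + 1) 1 = 1 := by
        apply Fin.ext
        change (if 1 < j + 1 + 1 then 1 else 1 + 1) = 1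
        split_ifs <;> omega
      have a3 : del (m + 1) (j + 1 + 1) 0 = 0 := by
        apply Fin.ext
        change (if 0 < j + 1 + 1 then 0 else 0 + 1) = 0
        split_ifs <;> omega
      rw [a1, a2, a3, pow_succ (-1 : E) (j + 1)]
      noncomm_ring
    have e1 : (-1 : E) ^ (0 + 1) * Phi (m + 1) (fun l => θ (del (m + 1) (0 + 1) l)) =
        -(Phi m (fun l => θ (del m 0 l).succ) * (θ 2 - θ 0)) := by
      change (-1 : E) ^ (0 + 1) * (Phi m (fun l => θ (del (m + 1) (0 + 1) l.succ)) *
        (θ (del (m + 1) (0 + 1) 1) - θ (del (m + 1) (0 + 1) 0))) = _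
      have a1 : (fun l : Fin (m + 1) => θ (del (m + 1) (0 + 1) l.succ)) =
          fun l => θ (del m 0 l).succ := by
        funext l
        congr 1
      have a2 : del (m + 1) (0 + 1) 1 = 2 := by
        apply Fin.ext
        change (if 1 < 0 + 1 then 1 else 1 + 1) = 2
        split_ifs <;> omega
      have a3 : del (m + 1) (0 + 1) 0 = 0 := by
        apply Fin.ext
        change (if 0 < 0 + 1 then 0 else 0 + 1) = 0
        split_ifs <;> omega
      rw [a1, a2, a3, zero_add, pow_one, neg_one_mul]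
    have e0 : (-1 : E) ^ 0 * Phi (m + 1) (fun l => θ (del (m + 1) 0 l)) =
        Phi m (fun l => θ (del m 0 l).succ) * (θ 2 - θ 1) := by
      change (-1 : E) ^ 0 * (Phi m (fun l => θ (del (m + 1) 0 l.succ)) *
        (θ (del (m + 1) 0 1) - θ (del (m + 1) 0 0))) = _
      have a1 : (fun l : Fin (m + 1) => θ (del (m + 1) 0 l.succ)) =
          fun l => θ (del m 0 l).succ := by
        funext l
        congr 1
      have a2 : del (m + 1) 0 1 = 2 := by
        apply Fin.ext
        change (if 1 < 0 then 1 else 1 + 1) = 2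
        split_ifs <;> omega
      have a3 : del (m + 1) 0 0 = 1 := by
        apply Fin.ext
        change (if 0 < 0 then 0 else 0 + 1) = 1
        split_ifs <;> omega
      rw [a1, a2, a3, pow_zero, one_mul]
    rw [Finset.sum_congr rfl e2, e1, e0, Finset.sum_neg_distrib, ← Finset.sum_mul]
    rw [pow_zero, one_mul] at h
    rw [eq_neg_of_add_eq_zero_left h]
    noncomm_ring

private theorem Alg_deg {E : Type} [Ring E] : ∀ (m : ℕ) (θ : Fin (m + 1) → E) (a : Fin m),
    θ a.castSucc = θ a.succ → Phi m θ = 0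
  | 0, _, a, _ => a.elim0
  | m + 1, θ, a, h => by
    change Phi m (fun i => θ i.succ) * (θ 1 - θ 0) = 0
    rcases Fin.eq_zero_or_eq_succ a with rfl | ⟨a', rfl⟩
    · have h1 : θ 0 = θ 1 := h
      rw [h1, sub_self, mul_zero]
    · rw [Alg_deg m (fun i => θ i.succ) a' h, zero_mul]

/-- Degenerate families give `0` (two consecutive entries are equal).  Proof: show by induction
on `m` that `θ a.castSucc = θ a.succ` for some `a : Fin m` implies `Phi m θ = 0`
(`a = 0`: the factor `θ 1 - θ 0` vanishes; `a = a'.succ`: induction hypothesis for `θ'`); for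
`θ ∘ sig m i` take `a = min i m`. -/
theorem Phi_nrm {E : Type} [Ring E] (m i : ℕ) (θ : Fin (m + 1) → E) :
    Phi (m + 1) (fun l => θ (sig m i l)) = 0 := by
  refine Alg_deg (m + 1) _ ⟨min i m, by omega⟩ ?_
  congr 1
  apply Fin.ext
  change (if min i m ≤ i then min (min i m) m else min i m - 1) =
    (if min i m + 1 ≤ i then min (min i m + 1) m else min i m + 1 - 1)
  split_ifs <;> omega

theorem Phi_sub {E : Type} [Ring E] (m : ℕ) (θ : Fin (m + 1) → E) (c : E) :
    Phi m (fun i => θ i - c) = Phi m θ := by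
  induction m with
  | zero => rfl
  | succ m ih =>
    change Phi m (fun i => θ i.succ - c) * ((θ 1 - c) - (θ 0 - c)) =
      Phi m (fun i => θ i.succ) * (θ 1 - θ 0)
    rw [ih (fun i => θ i.succ)]
    congr 1
    abel

theorem Phi_map {E E' : Type} [Ring E] [Ring E'] (f : E →+* E') (m : ℕ) (θ : Fin (m + 1) → E) :
    Phi m (fun i => f (θ i)) = f (Phi m θ) := by
  induction m with
  | zero => exact (map_one f).symm
  | succ m ih =>
    change Phi m (fun i => f (θ i.succ)) * (f (θ 1) - f (θ 0)) =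
      f (Phi m (fun i => θ i.succ) * (θ 1 - θ 0))
    rw [ih (fun i => θ i.succ), map_mul, map_sub]

end Pool.Agent.MP_d175a7_gt
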