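import Mathlib

/-! # Alternating products in groups -/

set_option autoImplicit false
set_option linter.unusedVariables false

namespace Pool.Agent.MP_d175a7_gt

/-- The alternating product over `{0,1}^m`: `alt (m+1) f = alt f(0, .) * (alt f(1, .))⁻¹`. -/
def alt {G : Type 1} [Group G] : ∀ m : ℕ, ((Fin m → Bool) → G) → G
  | 0, f => f (fun i => i.elim0)
  | m + 1, f => alt m (fun ω => f (Fin.cons false ω)) * (alt m (fun ω => f (Fin.cons true ω)))⁻¹

/-- If `f` does not depend on one coordinate, `alt f = 1`.  Proof: induction on `m`; if `i = 0` the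
two factors are inverse to each other; if `i = i'.succ` both functions
`ω ↦ f (Fin.cons b ω)` do not depend on the coordinate `i'`, both factors are `1`. -/
theorem alt_indep {G : Type 1} [Group G] (m : ℕ) (f : (Fin m → Bool) → G) (i : Fin m)
    (h : ∀ ω ω', (∀ j, j ≠ i → ω j = ω' j) → f ω = f ω') : alt m f = 1 := by
  induction m with
  | zero => exact i.elim0
  | succ m ih =>
    change alt m (fun ω => f (Fin.cons false ω)) * (alt m (fun ω => f (Fin.cons true ω)))⁻¹ = 1
    refine Fin.cases (motive := fun i => (∀ ω ω', (∀ j, j ≠ i → ω j = ω' j) → f ω = f ω') →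
      alt m (fun ω => f (Fin.cons false ω)) * (alt m (fun ω => f (Fin.cons true ω)))⁻¹ = 1)
      ?_ ?_ i h
    · intro h
      have h1 : (fun ω : Fin m → Bool => f (Fin.cons false ω)) =
          fun ω => f (Fin.cons true ω) := by
        funext ω
        refine h _ _ fun j hj => ?_
        obtain ⟨j', rfl⟩ := Fin.exists_succ_eq.2 hj
        rfl
      rw [h1, mul_inv_cancel]
    · intro i h
      have h1 : ∀ b : Bool, alt m (fun ω => f (Fin.cons b ω)) = 1 := by
        intro b
        refine ih (fun ω => f (Fin.cons b ω)) i fun ω ω' hω => ?_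
        refine h _ _ fun j hj => ?_
        rcases Fin.eq_zero_or_eq_succ j with rfl | ⟨j', rfl⟩
        · rfl
        · exact hω j' fun h2 => hj (congrArg Fin.succ h2)
      rw [h1, h1, inv_one, mul_one]

theorem alt_map {G G' : Type 1} [Group G] [Group G'] (φ : G →* G') (m : ℕ)
    (f : (Fin m → Bool) → G) : φ (alt m f) = alt m (fun ω => φ (f ω)) := by
  induction m with
  | zero => rfl
  | succ m ih =>
    change φ (alt m (fun ω => f (Fin.cons false ω)) * (alt m (fun ω => f (Fin.cons true ω)))⁻¹) =
      alt m (fun ω => φ (f (Fin.cons false ω))) * (alt m (fun ω => φ (f (Fin.cons true ω))))⁻¹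
    rw [map_mul, map_inv, ih, ih]

/-- If an additive function vanishes on all `f ω` except for `ω = (1, ..., 1)`.  Proof: induction
on `m`; the first factor gives `0` (induction with the value at `(0, 1, ..., 1)` equal to `0`),
the second `- (-1)^m ...`. -/
theorem alt_val {G : Type 1} [Group G] {A : Type} [CommRing A] (v : G → A)
    (hmul : ∀ x y, v (x * y) = v x + v y) (hinv : ∀ x, v x⁻¹ = - v x) (m : ℕ)
    (f : (Fin m → Bool) → G) (h : ∀ ω, (∃ i, ω i = false) → v (f ω) = 0) :
    v (alt m f) = (-1) ^ m * v (f fun _ => true) := by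
  induction m with
  | zero =>
    change v (f fun i => i.elim0) = (-1) ^ 0 * v (f fun _ => true)
    rw [pow_zero, one_mul]
    congr 2
    funext i
    exact i.elim0
  | succ m ih =>
    change v (alt m (fun ω => f (Fin.cons false ω)) *
      (alt m (fun ω => f (Fin.cons true ω)))⁻¹) = _
    have h1 : v (alt m (fun ω => f (Fin.cons false ω))) = 0 := by
      rw [ih (fun ω => f (Fin.cons false ω)) fun ω hω => ?_]
      · rw [h _ ⟨0, rfl⟩, mul_zero]
      · obtain ⟨i, hi⟩ := hω
        exact h _ ⟨i.succ, hi⟩
    have h2 : v (alt m (fun ω => f (Fin.cons true ω))) = (-1) ^ m * v (f fun _ => true) := by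
      rw [ih (fun ω => f (Fin.cons true ω)) fun ω hω => ?_]
      · congr 3
        funext i
        refine Fin.cases ?_ (fun i => ?_) i
        · rfl
        · rfl
      · obtain ⟨i, hi⟩ := hω
        exact h _ ⟨i.succ, hi⟩
    rw [hmul, hinv, h1, h2, pow_succ]
    ring

/-- `x_0 x_1⁻¹ x_2 ⋯`, `n` factors. -/
def altp {G : Type 1} [Group G] : ℕ → (ℕ → G) → G
  | 0, _ => 1
  | n + 1, x => altp n x * (x n) ^ ((-1 : ℤ) ^ n)

/-- If two consecutive factors `x (a-1)`, `x a` agree and all others are `1`, or the only
nontrivial index is out of range, then the product is `1`.  Proof: induction on `n`. -/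
theorem altp_cancel {G : Type 1} [Group G] (n a : ℕ) (x : ℕ → G)
    (h : ∀ i, i < n → i + 1 ≠ a → i ≠ a → x i = 1)
    (h0 : a = 0 → 0 < n → x 0 = 1) (hn : a = n → 0 < n → x (n - 1) = 1)
    (ha : 0 < a → a < n → x (a - 1) = x a) : altp n x = 1 := by
  have hall : ∀ m : ℕ, (∀ i, i < m → x i = 1) → altp m x = 1 := by
    intro m
    induction m with
    | zero => intro _; rfl
    | succ m ih =>
      intro h1
      change altp m x * (x m) ^ ((-1 : ℤ) ^ m) = 1
      rw [ih fun i hi => h1 i (by omega), h1 m (by omega), one_zpow, mul_one]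
  induction n with
  | zero => rfl
  | succ n ih =>
    change altp n x * (x n) ^ ((-1 : ℤ) ^ n) = 1
    rcases lt_trichotomy a n with h1 | h1 | h1
    · rw [h n (by omega) (by omega) (by omega), one_zpow, mul_one]
      exact ih (fun i hi => h i (by omega)) (fun e _ => h0 e (by omega)) (fun e _ => by omega)
        (fun e e' => ha e (by omega))
    · subst h1
      rcases Nat.eq_zero_or_pos a with h2 | h2
      · subst h2
        rw [h0 rfl (by omega), one_zpow, mul_one]
        rfl
      · obtain ⟨b, rfl⟩ : ∃ b, a = b + 1 := ⟨a - 1, by omega⟩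
        have h3 : x b = x (b + 1) := ha h2 (by omega)
        change altp b x * (x b) ^ ((-1 : ℤ) ^ b) * (x (b + 1)) ^ ((-1 : ℤ) ^ (b + 1)) = 1
        rw [hall b fun i hi => h i (by omega) (by omega) (by omega), one_mul, ← h3, ← zpow_add,
          pow_succ, mul_neg_one, add_neg_cancel, zpow_zero]
    · have h2 : x n = 1 := by
        rcases Nat.lt_or_ge (n + 1) a with h3 | h3
        · exact h n (by omega) (by omega) (by omega)
        · have h4 : a = n + 1 := by omega
          exact hn h4 (by omega)
      rw [h2, one_zpow, mul_one]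
      exact hall n fun i hi => h i (by omega) (by omega) (by omega)

theorem altp_map {G G' : Type 1} [Group G] [Group G'] (φ : G →* G') (n : ℕ) (x : ℕ → G) :
    φ (altp n x) = altp n (fun i => φ (x i)) := by
  induction n with
  | zero => exact map_one φ
  | succ n ih =>
    change φ (altp n x * (x n) ^ ((-1 : ℤ) ^ n)) =
      altp n (fun i => φ (x i)) * (φ (x n)) ^ ((-1 : ℤ) ^ n)
    rw [map_mul, ih, map_zpow]

/-- The value of an additive function.  Proof: induction on `n`; `v (x ^ ((-1)^n))` is `v x` or
`- v x` according to the parity of `n` (`zpow` with exponent `1` or `-1`). -/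
theorem altp_val {G : Type 1} [Group G] {A : Type} [CommRing A] (v : G → A)
    (hone : v 1 = 0) (hmul : ∀ x y, v (x * y) = v x + v y) (hinv : ∀ x, v x⁻¹ = - v x) (n : ℕ)
    (x : ℕ → G) : v (altp n x) = ∑ i ∈ Finset.range n, (-1) ^ i * v (x i) := by
  induction n with
  | zero =>
    rw [Finset.range_zero, Finset.sum_empty]
    exact hone
  | succ n ih =>
    change v (altp n x * (x n) ^ ((-1 : ℤ) ^ n)) = _
    rw [hmul, ih, Finset.sum_range_succ]
    congr 1
    rcases Nat.even_or_odd n with h | h
    · rw [h.neg_one_pow, h.neg_one_pow, zpow_one, one_mul]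
    · rw [h.neg_one_pow, h.neg_one_pow, zpow_neg_one, hinv, neg_one_mul]

end Pool.Agent.MP_d175a7_gt
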