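import Pool.Agent.Lib.MP_d175a7_gt.Cat

/-! # Associativity -/

set_option autoImplicit false
set_option linter.unusedVariables false

namespace Pool.Agent.MP_d175a7_gt

open CategoryTheory

variable {R : RSp}

/-- the homomorphism of an equality of lists -/
private noncomputable def as_eq {L L' : FC R} (h : L = L') : MHom (PiL L) (PiL L') :=
  (eqToHom h : L ⟶ L').1

private theorem as_cons (a : FreeObj R) {L L' : List (FreeObj R)} (h : L = L')
    (h' : (List.cons a L : List (FreeObj R)) = List.cons a L') :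
    as_eq (R := R) (L := List.cons a L) (L' := List.cons a L') h' =
      MHom.pair (MHom.fst a.P (PiL L))
        ((MHom.snd a.P (PiL L)).comp (as_eq (R := R) (L := L) (L' := L') h)) := by
  subst h
  exact MHom.ext fun n x => rfl

private theorem as_inv {L L' : FC R} (h : L = L') (n : ℕ) (x : (PiL L).X n) :
    (as_eq h.symm).f n ((as_eq h).f n x) = x := by
  subst h
  rfl

/-- The identification of the two products. -/
private noncomputable def as_e (L₁ L₂ L₃ : List (FreeObj R)) :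
    MHom (PiL ((L₁ ++ L₂) ++ L₃)) (PiL (L₁ ++ (L₂ ++ L₃))) :=
  as_eq (R := R) (L := (L₁ ++ L₂) ++ L₃) (L' := L₁ ++ (L₂ ++ L₃)) (List.append_assoc L₁ L₂ L₃)

private theorem as_e_cons (a : FreeObj R) (L₁ L₂ L₃ : List (FreeObj R)) :
    as_e (R := R) (a :: L₁) L₂ L₃ =
      MHom.pair (MHom.fst a.P (PiL ((L₁ ++ L₂) ++ L₃)))
        ((MHom.snd a.P (PiL ((L₁ ++ L₂) ++ L₃))).comp (as_e L₁ L₂ L₃)) :=
  as_cons a (List.append_assoc L₁ L₂ L₃) (List.append_assoc (a :: L₁) L₂ L₃)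

private theorem as_1 (L₁ L₂ L₃ : List (FreeObj R)) (n : ℕ) (x : (PiL ((L₁ ++ L₂) ++ L₃)).X n) :
    (sp1 L₁ (L₂ ++ L₃)).f n ((as_e L₁ L₂ L₃).f n x) =
      (sp1 L₁ L₂).f n ((sp1 (L₁ ++ L₂) L₃).f n x) := by
  induction L₁ with
  | nil => rfl
  | cons a L ih =>
    rw [as_e_cons]
    exact Prod.ext rfl (ih x.2)

private theorem as_2 (L₁ L₂ L₃ : List (FreeObj R)) (n : ℕ) (x : (PiL ((L₁ ++ L₂) ++ L₃)).X n) :
    (sp1 L₂ L₃).f n ((sp2 L₁ (L₂ ++ L₃)).f n ((as_e L₁ L₂ L₃).f n x)) =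
      (sp2 L₁ L₂).f n ((sp1 (L₁ ++ L₂) L₃).f n x) := by
  induction L₁ with
  | nil => rfl
  | cons a L ih =>
    rw [as_e_cons]
    exact ih x.2

private theorem as_3 (L₁ L₂ L₃ : List (FreeObj R)) (n : ℕ) (x : (PiL ((L₁ ++ L₂) ++ L₃)).X n) :
    (sp2 L₂ L₃).f n ((sp2 L₁ (L₂ ++ L₃)).f n ((as_e L₁ L₂ L₃).f n x)) =
      (sp2 (L₁ ++ L₂) L₃).f n x := by
  induction L₁ with
  | nil => rfl
  | cons a L ih =>
    rw [as_e_cons]
    exact ih x.2

private theorem as_ext (L₁ L₂ : List (FreeObj R)) (n : ℕ) (z w : (PiL (L₁ ++ L₂)).X n)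
    (h1 : (sp1 L₁ L₂).f n z = (sp1 L₁ L₂).f n w)
    (h2 : (sp2 L₁ L₂).f n z = (sp2 L₁ L₂).f n w) : z = w := by
  rw [← jn_sp L₁ L₂ n z, ← jn_sp L₁ L₂ n w, h1, h2]

private theorem as_tmap1 {L₁ L₁' L₂ L₂' : List (FreeObj R)} (f : MHom (PiL L₁) (PiL L₁'))
    (g : MHom (PiL L₂) (PiL L₂')) (n : ℕ) (x : (PiL (L₁ ++ L₂)).X n) :
    (sp1 L₁' L₂').f n ((tmap f g).f n x) = f.f n ((sp1 L₁ L₂).f n x) :=
  sp1_jn L₁' L₂' n _ _

private theorem as_tmap2 {L₁ L₁' L₂ L₂' : List (FreeObj R)} (f : MHom (PiL L₁) (PiL L₁'))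
    (g : MHom (PiL L₂) (PiL L₂')) (n : ℕ) (x : (PiL (L₁ ++ L₂)).X n) :
    (sp2 L₁' L₂').f n ((tmap f g).f n x) = g.f n ((sp2 L₁ L₂).f n x) :=
  sp2_jn L₁' L₂' n _ _

private theorem as_nat {L₁ L₂ L₃ M₁ M₂ M₃ : List (FreeObj R)} (f : MHom (PiL L₁) (PiL M₁))
    (g : MHom (PiL L₂) (PiL M₂)) (h : MHom (PiL L₃) (PiL M₃)) (n : ℕ)
    (x : (PiL ((L₁ ++ L₂) ++ L₃)).X n) :
    (as_e M₁ M₂ M₃).f n ((tmap (tmap f g) h).f n x) =
      (tmap f (tmap g h)).f n ((as_e L₁ L₂ L₃).f n x) := by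
  refine as_ext _ _ n _ _ ?_ (as_ext _ _ n _ _ ?_ ?_)
  · rw [as_1, as_tmap1, as_tmap1, as_tmap1, as_1]
  · rw [as_2, as_tmap1, as_tmap2, as_tmap2, as_tmap1, as_2]
  · rw [as_3, as_tmap2, as_tmap2, as_tmap2, as_3]

/-- Associativity.  Proof: `CategoryTheory.Functor.ext (fun X => List.append_assoc _ _ _)`;
for the maps: for `h : L = L'` the homomorphism underlying `eqToHom h` is the transport of the
identity; show by induction on `L₁` that for `h : (L₁ ++ L₂) ++ L₃ = L₁ ++ (L₂ ++ L₃)` it is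
compatible with the projections: `sp1 L₁ (L₂ ++ L₃) (eqToHom h x) = sp1 L₁ L₂ (sp1 (L₁ ++ L₂) L₃ x)`,
`sp1 L₂ L₃ (sp2 L₁ (L₂ ++ L₃) (eqToHom h x)) = sp2 L₁ L₂ (sp1 (L₁ ++ L₂) L₃ x)` and
`sp2 L₂ L₃ (sp2 L₁ (L₂ ++ L₃) (eqToHom h x)) = sp2 (L₁ ++ L₂) L₃ x`; a point of a product module
is determined by its projections (`jn_sp`). -/
theorem tens_as {J : Type} [Category.{0} J] (F G H : J ⥤ FC R) :
    (((F.prod' G) ⋙ tens R).prod' H) ⋙ tens R = (F.prod' ((G.prod' H) ⋙ tens R)) ⋙ tens R := by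
  refine CategoryTheory.Functor.ext
    (fun X => List.append_assoc (F.obj X) (G.obj X) (H.obj X)) ?_
  intro X Y f
  refine Subtype.ext (MHom.ext fun n x => ?_)
  have h1 := as_nat (F.map f).1 (G.map f).1 (H.map f).1 n x
  have h0 : List.append (List.append (F.obj Y) (G.obj Y)) (H.obj Y) =
      List.append (F.obj Y) (List.append (G.obj Y) (H.obj Y)) :=
    List.append_assoc (F.obj Y) (G.obj Y) (H.obj Y)
  have h2 := as_inv (R := R) (L := List.append (List.append (F.obj Y) (G.obj Y)) (H.obj Y))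
    (L' := List.append (F.obj Y) (List.append (G.obj Y) (H.obj Y))) h0 n
    ((tmap (tmap (F.map f).1 (G.map f).1) (H.map f).1).f n x)
  refine Eq.trans h2.symm ?_
  exact congrArg ((as_eq (R := R) (L := List.append (F.obj Y) (List.append (G.obj Y) (H.obj Y)))
    (L' := List.append (List.append (F.obj Y) (G.obj Y)) (H.obj Y)) h0.symm).f n) h1

end Pool.Agent.MP_d175a7_gt
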