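import Pool.Agent.Lib.MP_d175a7_gt.BarL

/-! # The loop group of the classifying space as a pointed simplicial set -/

set_option autoImplicit false

namespace Pool.Agent.MP_d175a7_gt

open CategoryTheory

variable {C : Type 1} [Category.{0} C]

theorem KG.op_id {S : SMon C} {n : ℕ} (z : KG S n) : KG.op OrderHom.id z = z := KG.map_id z

theorem KG.op_comp {S : SMon C} {l m n : ℕ} (α : Fin (m + 1) →o Fin (n + 1))
    (β : Fin (l + 1) →o Fin (m + 1)) (z : KG S n) : KG.op (α.comp β) z = KG.op β (KG.op α z) :=
  KG.map_comp α β z

theorem KG.op_one {S : SMon C} {m n : ℕ} (α : Fin (m + 1) →o Fin (n + 1)) :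
    KG.op α (1 : KG S n) = 1 := (KG.map α).map_one

/-- The loop group of the classifying space, as a pointed simplicial set. -/
noncomputable def KGps (S : SMon C) : PS.{1} where
  X := KG S
  map := KG.op
  map_id := KG.op_id
  map_comp := KG.op_comp
  pt n := 1
  map_pt := KG.op_one

end Pool.Agent.MP_d175a7_gt
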