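import Mathlib

/-!
# Pointed simplicial sets, the classifying space of a strict monoidal category and its loop group
-/

set_option autoImplicit false
set_option linter.unusedVariables false

namespace Pool.Agent.MP_d175a7_gt

open CategoryTheory

universe u v

/-! ### Pointed simplicial sets -/

/-- A pointed simplicial set. -/
structure PS : Type (u + 1) where
  /-- the set of `n`-simplices -/
  X : ℕ → Type u
  /-- the simplicial operators -/
  map : ∀ {m n : ℕ}, (Fin (m + 1) →o Fin (n + 1)) → X n → X m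
  map_id : ∀ {n : ℕ} (x : X n), map OrderHom.id x = x
  map_comp : ∀ {l m n : ℕ} (α : Fin (m + 1) →o Fin (n + 1)) (β : Fin (l + 1) →o Fin (m + 1))
    (x : X n), map (α.comp β) x = map β (map α x)
  /-- the base point -/
  pt : ∀ n, X n
  map_pt : ∀ {m n : ℕ} (α : Fin (m + 1) →o Fin (n + 1)), map α (pt n) = pt m

/-! ### Strict monoidal categories -/

/-- A strict monoidal category; the laws are stated for functors with values in `C`. -/
structure SMon (C : Type 1) [Category.{0} C] where
  /-- the product -/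
  T : C × C ⥤ C
  /-- the unit -/
  u : C
  lu : ∀ {J : Type} [Category.{0} J] (F : J ⥤ C),
    (((Functor.const J).obj u).prod' F) ⋙ T = F
  ru : ∀ {J : Type} [Category.{0} J] (F : J ⥤ C),
    (F.prod' ((Functor.const J).obj u)) ⋙ T = F
  as : ∀ {J : Type} [Category.{0} J] (F G H : J ⥤ C),
    (((F.prod' G) ⋙ T).prod' H) ⋙ T = (F.prod' ((G.prod' H) ⋙ T)) ⋙ T

variable {C : Type 1} [Category.{0} C]

/-- The product of two functors with values in `C`: the multiplication of the simplicial monoid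
`n ↦ {functors [n] ⥤ C}` (the nerve of `C`). -/
def SMon.mul (S : SMon C) {J : Type} [Category.{0} J] (F G : J ⥤ C) : J ⥤ C :=
  (F.prod' G) ⋙ S.T

/-- The unit of the product. -/
def SMon.one (S : SMon C) (J : Type) [Category.{0} J] : J ⥤ C := (Functor.const J).obj S.u

/-! ### The classifying space `Wbar` -/

/-- The poset `{l : j ≤ l ≤ n}`. -/
abbrev Above (n : ℕ) (j : Fin (n + 1)) : Type := {l : Fin (n + 1) // j ≤ l}

/-- The inclusion `{l : k ≤ l} → {l : j ≤ l}` for `j ≤ k`. -/
def inc {n : ℕ} {j k : Fin (n + 1)} (h : j ≤ k) : Above n k ⥤ Above n j :=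
  Monotone.functor (f := fun l : Above n k => (⟨l.1, h.trans l.2⟩ : Above n j))
    (fun _ _ hl => hl)

/-- The map `{l : j ≤ l} → {l : α j ≤ l}` induced by `α`. -/
def alo {m n : ℕ} (α : Fin (m + 1) →o Fin (n + 1)) (j : Fin (m + 1)) :
    Above m j ⥤ Above n (α j) :=
  Monotone.functor (f := fun l : Above m j => (⟨α l.1, α.monotone l.2⟩ : Above n (α j)))
    (fun _ _ hl => α.monotone hl)

/-- The `n`-simplices of the classifying space of the simplicial monoid `N C`: families
`g i j ∈ N_(n-j) C`, `i ≤ j`, with `g i i = 1` and `g i k = g j k * (g i j restricted)`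
(so they are determined by the `g (j-1) j ∈ N_(n-j) C`, which are arbitrary). -/
@[ext] structure Wb (S : SMon C) (n : ℕ) : Type 1 where
  /-- the family -/
  g : ∀ i j : Fin (n + 1), i ≤ j → (Above n j ⥤ C)
  g_self : ∀ (i : Fin (n + 1)) (h : i ≤ i), g i i h = S.one _
  g_comp : ∀ (i j k : Fin (n + 1)) (h : i ≤ j) (h' : j ≤ k),
    g i k (h.trans h') = S.mul (g j k h') (inc h' ⋙ g i j h)

/-- The simplicial operators. -/
def Wb.pull {S : SMon C} {m n : ℕ} (α : Fin (m + 1) →o Fin (n + 1)) (x : Wb S n) : Wb S m where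
  g i j h := alo α j ⋙ x.g (α i) (α j) (α.monotone h)
  g_self i h := by rw [x.g_self]; rfl
  g_comp i j k h h' := by
    rw [x.g_comp (α i) (α j) (α k) (α.monotone h) (α.monotone h')]; rfl

/-! ### The Kan loop group -/

section Lift

variable {α G : Type 1} [Group G]

/-- The value at `r` of the homomorphism from the free group given by `f`. -/
def frl (f : α → G) (r : FreeGroup α) : G := FreeGroup.lift f r

/-- The value at `z` of the homomorphism from the group with generators `α` and relations `rels`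
given by `f`. -/
def pgl {f : α → G} {rels : Set (FreeGroup α)} (h : ∀ r ∈ rels, frl f r = 1)
    (z : PresentedGroup rels) : G := PresentedGroup.toGroup h z

end Lift

/-- The map `[n+1] → [n]` identifying `0` and `1`. -/
def sg0 (n : ℕ) : Fin (n + 1 + 1) →o Fin (n + 1) where
  toFun l := ⟨l.1 - 1, by omega⟩
  monotone' a b h := by
    change a.1 - 1 ≤ b.1 - 1
    have : a.1 ≤ b.1 := h
    omega

/-- `(0, α + 1) : [m+1] → [n+1]`. -/
def lft0 {m n : ℕ} (α : Fin (m + 1) →o Fin (n + 1)) : Fin (m + 1 + 1) →o Fin (n + 1 + 1) where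
  toFun l := Fin.cases (motive := fun _ => Fin (n + 1 + 1)) 0 (fun a => (α a).succ) l
  monotone' a b h := by
    rcases Fin.eq_zero_or_eq_succ a with rfl | ⟨a, rfl⟩
    · exact Fin.zero_le _
    · rcases Fin.eq_zero_or_eq_succ b with rfl | ⟨b, rfl⟩
      · exact absurd h (by simp)
      · exact Fin.succ_le_succ_iff.2 (α.monotone (Fin.succ_le_succ_iff.1 h))

/-- `(1, α + 1) : [m+1] → [n+1]`. -/
def lft1 {m n : ℕ} (α : Fin (m + 1) →o Fin (n + 1)) : Fin (m + 1 + 1) →o Fin (n + 1 + 1) where
  toFun l := Fin.cases (motive := fun _ => Fin (n + 1 + 1)) 1 (fun a => (α a).succ) l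
  monotone' a b h := by
    rcases Fin.eq_zero_or_eq_succ a with rfl | ⟨a, rfl⟩
    · rcases Fin.eq_zero_or_eq_succ b with rfl | ⟨b, rfl⟩
      · exact le_rfl
      · change (1 : Fin (n + 1 + 1)) ≤ (α b).succ
        rw [Fin.le_def]
        simp
    · rcases Fin.eq_zero_or_eq_succ b with rfl | ⟨b, rfl⟩
      · exact absurd h (by simp)
      · exact Fin.succ_le_succ_iff.2 (α.monotone (Fin.succ_le_succ_iff.1 h))

/-- The degenerate simplices `s_0 y`. -/
def KG.rels (S : SMon C) (n : ℕ) : Set (FreeGroup (Wb S (n + 1))) :=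
  {r | ∃ y : Wb S n, FreeGroup.of (y.pull (sg0 n)) = r}

/-- The `n`-simplices of the Kan loop group of `Wbar`: the free group on the `(n+1)`-simplices of
`Wbar` modulo the degenerate simplices `s_0 y`. -/
abbrev KG (S : SMon C) (n : ℕ) : Type 1 := PresentedGroup (KG.rels S n)

/-- The generator `[x]`. -/
def gen {S : SMon C} {n : ℕ} (x : Wb S (n + 1)) : KG S n := PresentedGroup.of x

/-- The image of the generator `[x]` under `α^*`: `[x ∘ (0, α + 1)] [x ∘ (1, α + 1)]⁻¹`. -/
def KG.img {S : SMon C} {m n : ℕ} (α : Fin (m + 1) →o Fin (n + 1)) (x : Wb S (n + 1)) : KG S m :=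
  gen (x.pull (lft0 α)) * (gen (x.pull (lft1 α)))⁻¹

theorem KG.img_rel {S : SMon C} {m n : ℕ} (α : Fin (m + 1) →o Fin (n + 1)) :
    ∀ r ∈ KG.rels S n, frl (KG.img α) r = 1 := by
  rintro _ ⟨y, rfl⟩
  change FreeGroup.lift (KG.img α) (FreeGroup.of (y.pull (sg0 n))) = 1
  rw [FreeGroup.lift_apply_of]
  have h : (sg0 n).comp (lft0 α) = (sg0 n).comp (lft1 α) := by
    ext l
    rcases Fin.eq_zero_or_eq_succ l with rfl | ⟨l, rfl⟩ <;> rfl
  change gen (y.pull ((sg0 n).comp (lft0 α))) * (gen (y.pull ((sg0 n).comp (lft1 α))))⁻¹ = 1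
  rw [h, mul_inv_cancel]

/-- The simplicial operators of the Kan loop group, the homomorphisms with
`α^*[x] = [x ∘ (0, α + 1)] [x ∘ (1, α + 1)]⁻¹` (for `α = δ_0` this is
`d_0 [x] = [d_1 x] [d_0 x]⁻¹`, for `α = δ_i`, `i > 0`, it is `d_i [x] = [d_(i+1) x]`). -/
def KG.op {S : SMon C} {m n : ℕ} (α : Fin (m + 1) →o Fin (n + 1)) (z : KG S n) : KG S m :=
  pgl (KG.img_rel α) z

end Pool.Agent.MP_d175a7_gt
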