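import Pool.Agent.Lib.MP_d175a7_gt.BarD

/-!
# The classifying space and its loop group: lemmas
-/

set_option autoImplicit false
set_option linter.unusedVariables false

namespace Pool.Agent.MP_d175a7_gt

open CategoryTheory

universe u v

variable {C : Type 1} [Category.{0} C]

theorem SMon.one_mul (S : SMon C) {J : Type} [Category.{0} J] (F : J ⥤ C) :
    S.mul (S.one J) F = F := S.lu F

theorem SMon.mul_one (S : SMon C) {J : Type} [Category.{0} J] (F : J ⥤ C) :
    S.mul F (S.one J) = F := S.ru F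

theorem Wb.pull_id {S : SMon C} {n : ℕ} (x : Wb S n) : x.pull OrderHom.id = x := rfl

theorem Wb.pull_comp {S : SMon C} {l m n : ℕ} (α : Fin (m + 1) →o Fin (n + 1))
    (β : Fin (l + 1) →o Fin (m + 1)) (x : Wb S n) :
    x.pull (α.comp β) = (x.pull α).pull β := rfl

/-- The trivial simplex. -/
def Wb.triv (S : SMon C) (n : ℕ) : Wb S n where
  g i j h := S.one _
  g_self i h := rfl
  g_comp i j k h h' := (S.one_mul _).symm

theorem Wb.pull_triv {S : SMon C} {m n : ℕ} (α : Fin (m + 1) →o Fin (n + 1)) :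
    (Wb.triv S n).pull α = Wb.triv S m := rfl

theorem gen_sg0 {S : SMon C} {n : ℕ} (y : Wb S n) : gen (y.pull (sg0 n)) = 1 :=
  PresentedGroup.one_of_mem ⟨y, rfl⟩

/-- The simplicial operators of the Kan loop group, as homomorphisms. -/
def KG.map {S : SMon C} {m n : ℕ} (α : Fin (m + 1) →o Fin (n + 1)) : KG S n →* KG S m :=
  PresentedGroup.toGroup (f := KG.img α) (KG.img_rel α)

theorem KG.map_gen {S : SMon C} {m n : ℕ} (α : Fin (m + 1) →o Fin (n + 1)) (x : Wb S (n + 1)) :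
    KG.map α (gen x) = gen (x.pull (lft0 α)) * (gen (x.pull (lft1 α)))⁻¹ :=
  PresentedGroup.toGroup.of _

theorem lft0_id {n : ℕ} : lft0 (OrderHom.id : Fin (n + 1) →o Fin (n + 1)) = OrderHom.id := by
  ext l
  rcases Fin.eq_zero_or_eq_succ l with rfl | ⟨l, rfl⟩ <;> rfl

/-- `succ : [n] → [n+1]`. -/
def dl0 (n : ℕ) : Fin (n + 1) →o Fin (n + 1 + 1) where
  toFun l := l.succ
  monotone' a b h := Fin.succ_le_succ_iff.2 h

theorem lft1_id {n : ℕ} :
    lft1 (OrderHom.id : Fin (n + 1) →o Fin (n + 1)) = (dl0 n).comp (sg0 n) := by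
  ext l
  rcases Fin.eq_zero_or_eq_succ l with rfl | ⟨l, rfl⟩ <;> rfl

/-- `(a, α + 1)`: the general form of the lifts. -/
theorem lft00 {l m n : ℕ} (α : Fin (m + 1) →o Fin (n + 1)) (β : Fin (l + 1) →o Fin (m + 1)) :
    (lft0 α).comp (lft0 β) = lft0 (α.comp β) := by
  ext l
  rcases Fin.eq_zero_or_eq_succ l with rfl | ⟨l, rfl⟩ <;> rfl

theorem lft10 {l m n : ℕ} (α : Fin (m + 1) →o Fin (n + 1)) (β : Fin (l + 1) →o Fin (m + 1)) :
    (lft1 α).comp (lft0 β) = lft1 (α.comp β) := by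
  ext l
  rcases Fin.eq_zero_or_eq_succ l with rfl | ⟨l, rfl⟩ <;> rfl

theorem lft01 {l m n : ℕ} (α : Fin (m + 1) →o Fin (n + 1)) (β : Fin (l + 1) →o Fin (m + 1)) :
    (lft0 α).comp (lft1 β) = (lft1 α).comp (lft1 β) := by
  ext l
  rcases Fin.eq_zero_or_eq_succ l with rfl | ⟨l, rfl⟩ <;> rfl

theorem KG.map_id {S : SMon C} {n : ℕ} (z : KG S n) :
    KG.map (OrderHom.id : Fin (n + 1) →o Fin (n + 1)) z = z := by
  have h : KG.map (OrderHom.id : Fin (n + 1) →o Fin (n + 1)) = MonoidHom.id (KG S n) := by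
    apply PresentedGroup.ext
    intro x
    change KG.map OrderHom.id (gen x) = gen x
    rw [KG.map_gen, lft0_id, lft1_id, Wb.pull_comp, gen_sg0, inv_one, mul_one]
    rfl
  rw [h]; rfl

theorem KG.map_comp {S : SMon C} {l m n : ℕ} (α : Fin (m + 1) →o Fin (n + 1))
    (β : Fin (l + 1) →o Fin (m + 1)) (z : KG S n) :
    KG.map (α.comp β) z = KG.map β (KG.map α z) := by
  have h : KG.map (α.comp β) = ((KG.map β).comp (KG.map α) : KG S n →* KG S l) := by
    apply PresentedGroup.ext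
    intro x
    change KG.map (α.comp β) (gen x) = KG.map β (KG.map α (gen x))
    rw [KG.map_gen, KG.map_gen, map_mul, map_inv, KG.map_gen, KG.map_gen, ← Wb.pull_comp,
      ← Wb.pull_comp, ← Wb.pull_comp, ← Wb.pull_comp, lft00, lft10, lft01]
    group
  rw [h]; rfl

end Pool.Agent.MP_d175a7_gt
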