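import Pool.Agent.Lib.MP_d175a7_gt.Weq

/-! # Homotopies of loops: tools -/

set_option autoImplicit false
set_option linter.unusedVariables false

namespace Pool.Agent.MP_d175a7_gt

open scoped Topology unitInterval

/-- A homotopy given by a continuous function of two variables. -/
theorem homotopic_of {P : Seq} {a n : ℕ} {x y : Lp P a n} (H : I → (Fin a → I) → P.X n)
    (hc : Continuous fun q : I × (Fin a → I) => H q.1 q.2)
    (h0 : ∀ t, H 0 t = x.1 t) (h1 : ∀ t, H 1 t = y.1 t)
    (hb : ∀ s, ∀ t ∈ Cube.boundary (Fin a), H s t = P.pt n) : GenLoop.Homotopic x y := by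
  refine ⟨{ toFun := fun q => H q.1 q.2, continuous_toFun := hc, map_zero_left := h0,
            map_one_left := h1, prop' := ?_ }⟩
  intro s t ht
  change H s t = x.1 t
  rw [hb s t ht]
  exact (x.2 t ht).symm

/-- Conversely a homotopy gives such a function. -/
theorem exists_of_homotopic {P : Seq} {a n : ℕ} {x y : Lp P a n} (h : GenLoop.Homotopic x y) :
    ∃ H : I → (Fin a → I) → P.X n, (Continuous fun q : I × (Fin a → I) => H q.1 q.2) ∧
      (∀ t, H 0 t = x.1 t) ∧ (∀ t, H 1 t = y.1 t) ∧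
      ∀ s, ∀ t ∈ Cube.boundary (Fin a), H s t = P.pt n := by
  obtain ⟨F⟩ := h
  refine ⟨fun s t => F (s, t), F.continuous, fun t => F.apply_zero t, fun t => F.apply_one t,
    fun s t ht => ?_⟩
  exact (F.eq_fst s ht).trans (x.2 t ht)

/-- `u_s(t) = min ((1 + s) t, 1)`: from the identity to `t ↦ min (2 t, 1)`. -/
noncomputable def uu (s t : I) : I :=
  ⟨min ((1 + (s : ℝ)) * t) 1, le_min (mul_nonneg (by linarith [s.2.1]) t.2.1) zero_le_one,
    min_le_right _ _⟩

/-- `v_s(t) = max ((1 + s) t - s, 0)`: from the identity to `t ↦ max (2 t - 1, 0)`. -/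
noncomputable def vv (s t : I) : I :=
  ⟨max ((1 + (s : ℝ)) * t - s) 0, le_max_right _ _, max_le (by
    have h1 := s.2.1; have h2 := t.2.2; nlinarith) zero_le_one⟩

theorem uu_cont : Continuous fun q : I × I => uu q.1 q.2 := by
  unfold uu
  refine Continuous.subtype_mk ?_ _
  fun_prop

theorem vv_cont : Continuous fun q : I × I => vv q.1 q.2 := by
  unfold vv
  refine Continuous.subtype_mk ?_ _
  fun_prop

theorem uu_zero (t : I) : uu 0 t = t := by
  apply Subtype.ext
  simp [uu, t.2.2]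

theorem vv_zero (t : I) : vv 0 t = t := by
  apply Subtype.ext
  simp [vv, t.2.1]

theorem uu_left (s : I) : uu s 0 = 0 := by
  apply Subtype.ext
  simp [uu]

theorem uu_right (s : I) : uu s 1 = 1 := by
  apply Subtype.ext
  simp [uu, s.2.1]

theorem vv_left (s : I) : vv s 0 = 0 := by
  apply Subtype.ext
  simp [vv, s.2.1]

theorem vv_right (s : I) : vv s 1 = 1 := by
  apply Subtype.ext
  simp [vv]

private theorem homA_transAt {P : Seq} {a n : ℕ} (x y : Lp P (a + 1) n) (t : Fin (a + 1) → I) :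
    (GenLoop.transAt 0 x y).1 t = if (t 0 : ℝ) ≤ 1 / 2
      then x.1 (Function.update t 0 (Set.projIcc 0 1 zero_le_one (2 * (t 0 : ℝ))))
      else y.1 (Function.update t 0 (Set.projIcc 0 1 zero_le_one (2 * (t 0 : ℝ) - 1))) := rfl

private theorem homA_uu (t : I) : Set.projIcc 0 1 zero_le_one (2 * (t : ℝ)) = uu 1 t := by
  apply Subtype.ext
  rw [Set.coe_projIcc]
  change max 0 (min 1 (2 * (t : ℝ))) = min ((1 + 1) * (t : ℝ)) 1
  rw [max_eq_right (le_min zero_le_one (mul_nonneg zero_le_two t.2.1)), min_comm]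
  norm_num

private theorem homA_vv (t : I) : Set.projIcc 0 1 zero_le_one (2 * (t : ℝ) - 1) = vv 1 t := by
  apply Subtype.ext
  rw [Set.coe_projIcc]
  change max 0 (min 1 (2 * (t : ℝ) - 1)) = max ((1 + 1) * (t : ℝ) - 1) 0
  have h : 2 * (t : ℝ) - 1 ≤ 1 := by linarith [t.2.2]
  rw [min_eq_right h, max_comm]
  norm_num

/-- The concatenation `transAt 0`, first half. -/
theorem transAt_left {P : Seq} {a n : ℕ} (x y : Lp P (a + 1) n) (t : Fin (a + 1) → I)
    (ht : (t 0 : ℝ) ≤ 1 / 2) :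
    (GenLoop.transAt 0 x y).1 t = x.1 (Function.update t 0 (uu 1 (t 0))) := by
  rw [homA_transAt, if_pos ht, homA_uu]

/-- The concatenation `transAt 0`, second half. -/
theorem transAt_right {P : Seq} {a n : ℕ} (x y : Lp P (a + 1) n) (t : Fin (a + 1) → I)
    (ht : 1 / 2 ≤ (t 0 : ℝ)) :
    (GenLoop.transAt 0 x y).1 t = y.1 (Function.update t 0 (vv 1 (t 0))) := by
  rw [homA_transAt]
  by_cases h : (t 0 : ℝ) ≤ 1 / 2
  · have h2 : (t 0 : ℝ) = 1 / 2 := le_antisymm h ht
    have h3 : uu 1 (t 0) = 1 := by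
      apply Subtype.ext
      change min ((1 + 1) * (t 0 : ℝ)) 1 = 1
      rw [h2]
      norm_num
    have h4 : vv 1 (t 0) = 0 := by
      apply Subtype.ext
      change max ((1 + 1) * (t 0 : ℝ) - 1) 0 = 0
      rw [h2]
      norm_num
    rw [if_pos h, homA_uu, h3, h4]
    have h5 : x.1 (Function.update t 0 1) = P.pt n :=
      x.2 _ ⟨0, Or.inr (Function.update_self _ _ _)⟩
    have h6 : y.1 (Function.update t 0 0) = P.pt n :=
      y.2 _ ⟨0, Or.inl (Function.update_self _ _ _)⟩
    rw [h5, h6]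
  · rw [if_neg h, homA_vv]

end Pool.Agent.MP_d175a7_gt
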