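import Pool.Agent.Lib.MP_d175a7_gt.LamV

/-!
# The rotation homotopy

For `y : S^v → M_m`, `n + v = m`, the map `S^v ∧ S^v → M_(m+v)`, `(z₁, z₂) ↦ (y z₁) z₂`, is
homotopic to `(z₁, z₂) ↦ (1 ⊕ τ) ((y z₂) z₁)`.
-/

set_option autoImplicit false
set_option linter.unusedVariables false

namespace Pool.Agent.MP_d175a7_gt

open scoped Topology unitInterval

/-- The angle `π θ / 2`. -/
noncomputable def ang (θ : I) : ℝ := Real.pi / 2 * (θ : ℝ)

/-- The rotation `(s, u) ↦ (cos s + sin u, - sin s + cos u)` of `ℝ^v ⊕ ℝ^v`. -/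
noncomputable def rot (v : ℕ) (θ : I) : Ort (v + v) :=
  ⟨Matrix.reindex (sumFin rfl) (sumFin rfl)
    (Matrix.fromBlocks (Real.cos (ang θ) • (1 : Matrix (Fin v) (Fin v) ℝ))
      (Real.sin (ang θ) • (1 : Matrix (Fin v) (Fin v) ℝ))
      (-(Real.sin (ang θ) • (1 : Matrix (Fin v) (Fin v) ℝ)))
      (Real.cos (ang θ) • (1 : Matrix (Fin v) (Fin v) ℝ))), by
    rw [Matrix.mem_orthogonalGroup_iff]
    rw [Matrix.reindex_apply, Matrix.transpose_submatrix, Matrix.fromBlocks_transpose,
      Matrix.submatrix_mul_equiv, Matrix.fromBlocks_multiply]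
    have h1 := Real.cos_sq_add_sin_sq (ang θ)
    have h2 : Real.cos (ang θ) • Real.cos (ang θ) • (1 : Matrix (Fin v) (Fin v) ℝ) +
        Real.sin (ang θ) • Real.sin (ang θ) • (1 : Matrix (Fin v) (Fin v) ℝ) = 1 := by
      rw [smul_smul, smul_smul, ← add_smul, ← pow_two, ← pow_two, h1, one_smul]
    have h3 : Real.cos (ang θ) • Real.sin (ang θ) • (1 : Matrix (Fin v) (Fin v) ℝ) =
        Real.sin (ang θ) • Real.cos (ang θ) • (1 : Matrix (Fin v) (Fin v) ℝ) := by
      rw [smul_comm]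
    simp only [Matrix.transpose_smul, Matrix.transpose_one, Matrix.transpose_neg,
      Matrix.mul_smul, Matrix.mul_one, Matrix.mul_neg, neg_neg, smul_neg]
    rw [h2, h3, neg_add_cancel, add_comm (Real.sin (ang θ) • Real.sin (ang θ) • _), h2,
      Matrix.fromBlocks_one, Matrix.submatrix_one_equiv]⟩

theorem rot_mulVec (v : ℕ) (θ : I) (x y : Fin v → ℝ) :
    (rot v θ).1.mulVec (jv rfl x y) =
      jv rfl (Real.cos (ang θ) • x + Real.sin (ang θ) • y)
        (-(Real.sin (ang θ) • x) + Real.cos (ang θ) • y) := by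
  have h1 : ∀ z : Fin (v + v) → ℝ, (rot v θ).1.mulVec z = fun i =>
      ((Matrix.fromBlocks (Real.cos (ang θ) • (1 : Matrix (Fin v) (Fin v) ℝ))
      (Real.sin (ang θ) • (1 : Matrix (Fin v) (Fin v) ℝ))
      (-(Real.sin (ang θ) • (1 : Matrix (Fin v) (Fin v) ℝ)))
      (Real.cos (ang θ) • (1 : Matrix (Fin v) (Fin v) ℝ))).mulVec (z ∘ sumFin rfl))
        ((sumFin rfl).symm i) := by
    intro z
    exact Matrix.submatrix_mulVec_equiv _ z (sumFin rfl).symm (sumFin rfl).symm
  rw [h1]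
  have h2 : jv rfl x y ∘ sumFin rfl = Sum.elim x y := by
    funext i
    rcases i with i | i
    · exact jv_inl rfl x y i
    · exact jv_inr rfl x y i
  rw [h2, Matrix.fromBlocks_mulVec]
  simp only [Matrix.smul_mulVec, Matrix.one_mulVec, Matrix.neg_mulVec]
  rfl

theorem rot_cont (v : ℕ) : Continuous (rot v) := by
  have h1 : Continuous ang := continuous_const.mul continuous_subtype_val
  have hc : Continuous fun θ => Real.cos (ang θ) • (1 : Matrix (Fin v) (Fin v) ℝ) :=
    (Real.continuous_cos.comp h1).smul continuous_const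
  have hs : Continuous fun θ => Real.sin (ang θ) • (1 : Matrix (Fin v) (Fin v) ℝ) :=
    (Real.continuous_sin.comp h1).smul continuous_const
  refine Continuous.subtype_mk ?_ _
  exact Continuous.matrix_reindex (Continuous.matrix_fromBlocks hc hs hs.neg hc) _ _

theorem ang_zero : ang 0 = 0 := by simp [ang]

theorem ang_one : ang 1 = Real.pi / 2 := by simp [ang]

theorem rot_zero (v : ℕ) : rot v 0 = 1 := by
  refine ort_ext_jv rfl fun x y => ?_
  rw [rot_mulVec, ang_zero, Real.cos_zero, Real.sin_zero, ort_one_mulVec]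
  simp

/-- The matrix `-1`. -/
def neg1 (v : ℕ) : Ort v := ⟨-1, by
  rw [Matrix.mem_orthogonalGroup_iff]
  simp⟩

theorem neg1_mulVec (v : ℕ) (x : Fin v → ℝ) : (neg1 v).1.mulVec x = -x := by
  change (-1 : Matrix (Fin v) (Fin v) ℝ).mulVec x = -x
  rw [Matrix.neg_mulVec, Matrix.one_mulVec]

theorem rot_one_mulVec (v : ℕ) (x y : Fin v → ℝ) :
    (rot v 1).1.mulVec (jv rfl x y) = jv rfl y (-x) := by
  rw [rot_mulVec, ang_one, Real.cos_pi_div_two, Real.sin_pi_div_two]
  simp

theorem rot_one (v : ℕ) : rot v 1 = blk rfl 1 (neg1 v) * swp rfl rfl := by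
  refine ort_ext_jv rfl fun x y => ?_
  rw [rot_one_mulVec, ort_mul_mulVec, swp_mulVec, blk_mulVec, neg1_mulVec, ort_one_mulVec]

theorem rot_one_sm (v : ℕ) (z w : Sph v) :
    sact (rot v 1) (sm rfl z w) = sm rfl w (sact (neg1 v) z) := by
  rw [rot_one, sact_mul, ← sm_comm, ← sm_act, sact_one]

theorem rot_one_inv (v : ℕ) : (rot v 1)⁻¹ * blk rfl 1 (neg1 v) = swp rfl rfl := by
  rw [rot_one, mul_inv_rev, mul_assoc, inv_mul_cancel, mul_one, swp_inv]

variable {R : RSp}

/-- The map `S^(v+v) → M_(m+v)` given by `(z₁, z₂) ↦ (y z₁) z₂`. -/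
noncomputable def Fh (M : MSp R) {m v : ℕ} (y : Sph v → M.X m) :
    Sph (v + v) → M.X (m + v)
  | OnePoint.some z => rm M rfl (y (OnePoint.some (jl rfl z))) (OnePoint.some (jr rfl z))
  | OnePoint.infty => M.pt (m + v)

theorem Fh_sm (M : MSp R) {m v : ℕ} (y : Sph v → M.X m)
    (hy : y OnePoint.infty = M.pt m) (z w : Sph v) :
    Fh M y (sm rfl z w) = rm M rfl (y z) w := by
  induction z using OnePoint.rec with
  | infty => rw [hy, rm_pt]; rfl
  | coe z =>
    induction w using OnePoint.rec with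
    | infty => rw [rm_infty, sm_infty]; rfl
    | coe w =>
      rw [sm_some]
      change rm M rfl (y (OnePoint.some (jl rfl (jv rfl z w))))
        (OnePoint.some (jr rfl (jv rfl z w))) = _
      rw [jl_jv, jr_jv]

theorem map_Fh {M N : MSp R} (f : MHom M N) {m v : ℕ} (y : Sph v → M.X m)
    (z : Sph (v + v)) :
    f.f (m + v) (Fh M y z) = Fh N (fun u => f.f m (y u)) z := by
  induction z using OnePoint.rec with
  | infty => exact f.pt _
  | coe z => exact map_rm f rfl _ _

theorem Fh_rm (M : MSp R) {n m v : ℕ} (hn : n + v = m) (y : Sph v → M.X m) (c : M.X n)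
    (hy : ∀ u, y u = rm M hn c u) (h : n + (v + v) = m + v) (z : Sph (v + v)) :
    Fh M y z = rm M h c z := by
  induction z using OnePoint.rec with
  | infty => exact (rm_infty M h c).symm
  | coe z =>
    change rm M rfl (y (OnePoint.some (jl rfl z))) (OnePoint.some (jr rfl z)) = _
    rw [hy, rm_rm M hn rfl rfl h, sm_some, jv_jl_jr]

/-- Continuity over compact parameter spaces: `T × S^v × S^v → T × S^(v+v)` is a closed
surjection. -/
theorem Fh_cont (M : MSp R) {m v : ℕ} {T : Type} [TopologicalSpace T] [CompactSpace T]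
    [T2Space T] (y : T → C(Sph v, M.X m)) (hy : Continuous y)
    (h0 : ∀ t, y t OnePoint.infty = M.pt m) :
    Continuous fun q : T × Sph (v + v) => Fh M (y q.1) q.2 := by
  let π : T × (Sph v × Sph v) → T × Sph (v + v) := fun q => (q.1, sm rfl q.2.1 q.2.2)
  have hπ : Continuous π := continuous_fst.prodMk ((sm_cont rfl).comp continuous_snd)
  have hs : Function.Surjective π := by
    rintro ⟨t, z⟩
    obtain ⟨q, hq⟩ := sm_surj rfl z
    exact ⟨(t, q), Prod.ext rfl hq⟩
  have hq : Topology.IsQuotientMap π := hπ.isClosedMap.isQuotientMap hπ hs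
  rw [hq.continuous_iff]
  have h1 : (fun q : T × Sph (v + v) => Fh M (y q.1) q.2) ∘ π =
      fun q => rm M rfl (y q.1 q.2.1) q.2.2 := by
    funext q
    exact Fh_sm M (y q.1) (h0 q.1) q.2.1 q.2.2
  rw [h1]
  exact rm_cont M rfl (T × (Sph v × Sph v)) (fun q => y q.1 q.2.1) (fun q => q.2.2)
    ((uncurry_cont y hy).comp (continuous_fst.prodMk (continuous_fst.comp continuous_snd)))
    (continuous_snd.comp continuous_snd)

theorem hvv {n v m : ℕ} (hn : n + v = m) : n + (v + v) = m + v := by omega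

/-- The rotation homotopy. -/
noncomputable def Gr (M : MSp R) {n v m : ℕ} (hn : n + v = m) (θ : I) (y : Sph v → M.X m)
    (z : Sph (v + v)) : M.X (m + v) :=
  M.act (m + v) (blk (hvv hn) 1 (rot v θ)⁻¹) (Fh M y (sact (rot v θ) z))

theorem Gr_infty (M : MSp R) {n v m : ℕ} (hn : n + v = m) (θ : I) (y : Sph v → M.X m) :
    Gr M hn θ y OnePoint.infty = M.pt (m + v) := by
  rw [Gr, sact_infty]
  exact M.act_pt _ _

theorem Gr_zero (M : MSp R) {n v m : ℕ} (hn : n + v = m) (y : Sph v → M.X m)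
    (hy : y OnePoint.infty = M.pt m) (z w : Sph v) :
    Gr M hn 0 y (sm rfl z w) = rm M rfl (y z) w := by
  rw [Gr, rot_zero, inv_one, blk_one, M.act_one, sact_one, Fh_sm M y hy]

theorem Gr_one (M : MSp R) {n v m : ℕ} (hn : n + v = m) (y : Sph v → M.X m)
    (hy : y OnePoint.infty = M.pt m) (z w : Sph v) :
    Gr M hn 1 y (sm rfl z w) =
      M.act (m + v) (blk (hvv hn) 1 (swp rfl rfl)) (rm M rfl (y w) z) := by
  rw [Gr, rot_one_sm, Fh_sm M y hy, rm_act_right, ← M.act_mul]
  congr 1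
  have h1 : blk (rfl : m + v = m + v) (1 : Ort m) (neg1 v) =
      blk (hvv hn) 1 (blk rfl 1 (neg1 v)) := by
    rw [← blk_assoc hn rfl rfl (hvv hn), blk_one]
  rw [h1, ← blk_mul, rot_one_inv, mul_one]

theorem Gr_rm (M : MSp R) {n v m : ℕ} (hn : n + v = m) (θ : I) (y : Sph v → M.X m) (c : M.X n)
    (hy : ∀ u, y u = rm M hn c u) (z : Sph (v + v)) :
    Gr M hn θ y z = rm M (hvv hn) c z := by
  rw [Gr, Fh_rm M hn y c hy (hvv hn), rm_act_right, ← M.act_mul, ← blk_mul,
    inv_mul_cancel, mul_one, blk_one, M.act_one]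

theorem map_Gr {M N : MSp R} (f : MHom M N) {n v m : ℕ} (hn : n + v = m) (θ : I)
    (y : Sph v → M.X m) (z : Sph (v + v)) :
    f.f (m + v) (Gr M hn θ y z) = Gr N hn θ (fun u => f.f m (y u)) z := by
  rw [Gr, f.act, map_Fh, Gr]

theorem Gr_cont (M : MSp R) {n v m : ℕ} (hn : n + v = m) {T : Type} [TopologicalSpace T]
    [CompactSpace T] [T2Space T] (θ : T → I) (hθ : Continuous θ) (y : T → C(Sph v, M.X m))
    (hy : Continuous y) (h0 : ∀ t, y t OnePoint.infty = M.pt m) (z : T → Sph (v + v))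
    (hz : Continuous z) : Continuous fun t => Gr M hn (θ t) (y t) (z t) := by
  have hr : Continuous fun t => rot v (θ t) := (rot_cont v).comp hθ
  have hz' : Continuous fun t => (t, z t) := continuous_id.prodMk hz
  have hw := sact_cont (fun t => rot v (θ t)) hr
  have h1 := hw.comp hz'
  rw [Function.comp_def] at h1
  dsimp only at h1
  have h2 : Continuous fun t => (t, sact (rot v (θ t)) (z t)) := continuous_id.prodMk h1
  have h3 := (Fh_cont M y hy h0).comp h2
  rw [Function.comp_def] at h3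
  dsimp only at h3
  have h4 : Continuous fun t => ((1 : Ort n), (rot v (θ t))⁻¹) :=
    continuous_const.prodMk hr.inv
  have h5 : Continuous fun t => blk (hvv hn) (1 : Ort n) (rot v (θ t))⁻¹ :=
    (blk_cont (hvv hn)).comp h4
  exact M.act_cont (m + v) T (fun t => blk (hvv hn) 1 (rot v (θ t))⁻¹)
    (fun t => Fh M (y t) (sact (rot v (θ t)) (z t))) h5 h3

end Pool.Agent.MP_d175a7_gt
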