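import Pool.Agent.Lib.MP_d175a7_gt.Zb
import Pool.Agent.Lib.MP_d175a7_gt.Rot
import Pool.Agent.Lib.MP_d175a7_gt.HomA

/-!
# `Pb κ ρ → Zb v κ ρ` is a weak equivalence

The inverse on homotopy groups sends `z = (c, y)` to `(t, x) ↦ (λ(t) c(x), τ y(x)(λ(t)))`.
-/

set_option autoImplicit false
set_option linter.unusedVariables false

namespace Pool.Agent.MP_d175a7_gt

open scoped Topology unitInterval

variable {R : RSp} {C M N : MSp R} {v : ℕ} {κ : MHom C N} {ρ : MHom M N}

/-- `(c, y), u ↦ (u c, τ y(u))`. -/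
def hpt {n : ℕ} (w : (Zb v κ ρ).X n) (u : Sph v) : (Pb κ ρ).X (n + v) :=
  ⟨(C.smul (Nat.add_comm v n) (R.unit v u) w.1.1,
    M.act (n + v) (swp rfl (Nat.add_comm v n)) (w.1.2 u)), by
    change κ.f (n + v) (C.smul (Nat.add_comm v n) (R.unit v u) w.1.1) =
      ρ.f (n + v) (M.act (n + v) (swp rfl (Nat.add_comm v n)) (w.1.2 u))
    rw [κ.smul, ρ.act, smul_unit N (Nat.add_comm v n) rfl, w.2.2]⟩

theorem hpt_cont {n : ℕ} {T : Type} [TopologicalSpace T] [CompactSpace T] [T2Space T]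
    (w : T → (Zb v κ ρ).X n) (hw : Continuous w) (u : T → Sph v) (hu : Continuous u) :
    Continuous fun t => hpt (w t) (u t) := by
  have h1 : Continuous fun t => (w t).1.1 := continuous_fst.comp (continuous_subtype_val.comp hw)
  have h2 : Continuous fun t => (w t).1.2 := continuous_snd.comp (continuous_subtype_val.comp hw)
  have h3 : Continuous fun t => (t, u t) := continuous_id.prodMk hu
  have h4 := (uncurry_cont (fun t => (w t).1.2) h2).comp h3
  rw [Function.comp_def] at h4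
  dsimp only at h4
  exact Continuous.subtype_mk ((C.smul_cont (Nat.add_comm v n) T (fun t => R.unit v (u t))
    (fun t => (w t).1.1) ((R.unit_cont v).comp hu) h1).prodMk
    (M.act_cont (n + v) T (fun _ => swp rfl (Nat.add_comm v n)) (fun t => (w t).1.2 (u t))
      continuous_const h4)) _

theorem hpt_infty {n : ℕ} (w : (Zb v κ ρ).X n) :
    hpt w OnePoint.infty = (Pb κ ρ).pt (n + v) := by
  refine Subtype.ext (Prod.ext ?_ ?_)
  · change C.smul (Nat.add_comm v n) (R.unit v OnePoint.infty) w.1.1 = C.pt (n + v)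
    rw [R.unit_pt, C.pt_smul]
  · change M.act (n + v) _ (w.1.2 OnePoint.infty) = M.pt (n + v)
    rw [w.2.1, M.act_pt]

theorem hpt_pt {n : ℕ} (u : Sph v) :
    hpt ((Zb v κ ρ).pt n) u = (Pb κ ρ).pt (n + v) :=
  Subtype.ext (Prod.ext (C.smul_pt _ _) (M.act_pt _ _))

theorem hpt_iota {n : ℕ} (x : (Pb κ ρ).X n) (u : Sph v) :
    hpt ((ziota v κ ρ).f n x) u = (Pb κ ρ).smul (Nat.add_comm v n) (R.unit v u) x := by
  refine Subtype.ext (Prod.ext rfl ?_)
  change M.act (n + v) (swp rfl (Nat.add_comm v n)) (rm M rfl x.1.2 u) =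
    M.smul (Nat.add_comm v n) (R.unit v u) x.1.2
  rw [smul_unit M (Nat.add_comm v n) rfl]

/-- The inverse on loops. -/
noncomputable def hL {a n : ℕ} (z : Lp (Zb v κ ρ).seq a n) : Lp (Pb κ ρ).seq (a + v) (n + v) :=
  ⟨⟨fun t => hpt (z.1 (tl t)) (lamv v (hd t)),
    hpt_cont (fun t : Fin (a + v) → I => z.1 (tl t)) (z.1.continuous.comp tl_cont)
      (fun t => lamv v (hd t)) ((lamv_cont v).comp hd_cont)⟩, by
    intro t ht
    change hpt (z.1 (tl t)) (lamv v (hd t)) = (Pb κ ρ).pt (n + v)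
    rcases boundary_split t ht with h | h
    · rw [lamv_boundary v _ h, hpt_infty]
    · have h1 : z.1 (tl t) = (Zb v κ ρ).pt n := z.2 _ h
      rw [h1, hpt_pt]⟩

theorem hL_iota {a n : ℕ} (x : Lp (Pb κ ρ).seq a n) :
    hL ((ziota v κ ρ).sh.lp x) = stn v x := by
  apply Subtype.ext
  apply ContinuousMap.ext
  intro t
  rw [stn_apply]
  exact hpt_iota _ _

theorem hL_homotopic {a n : ℕ} {z z' : Lp (Zb v κ ρ).seq a n} (h : GenLoop.Homotopic z z') :
    GenLoop.Homotopic (hL z) (hL z') := by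
  obtain ⟨H, hc, h0, h1, hb⟩ := exists_of_homotopic h
  refine homotopic_of (P := (Pb κ ρ).seq) (fun s t => hpt (H s (tl t)) (lamv v (hd t)))
    ?_ ?_ ?_ ?_
  · have h2 : Continuous fun q : I × (Fin (a + v) → I) => (q.1, tl q.2) :=
      continuous_fst.prodMk (tl_cont.comp continuous_snd)
    have h3 : Continuous fun q : I × (Fin (a + v) → I) => H q.1 (tl q.2) := hc.comp h2
    exact hpt_cont (fun q : I × (Fin (a + v) → I) => H q.1 (tl q.2)) h3
      (fun q => lamv v (hd q.2)) ((lamv_cont v).comp (hd_cont.comp continuous_snd))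
  · intro t
    change hpt (H 0 (tl t)) (lamv v (hd t)) = hpt (z.1 (tl t)) (lamv v (hd t))
    rw [h0]
  · intro t
    change hpt (H 1 (tl t)) (lamv v (hd t)) = hpt (z'.1 (tl t)) (lamv v (hd t))
    rw [h1]
  · intro s t ht
    change hpt (H s (tl t)) (lamv v (hd t)) = (Pb κ ρ).pt (n + v)
    rcases boundary_split t ht with h | h
    · rw [lamv_boundary v _ h, hpt_infty]
    · have h4 : H s (tl t) = (Zb v κ ρ).pt n := hb s _ h
      rw [h4, hpt_pt]

/-- The homotopy on points. -/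
noncomputable def Hpt {n : ℕ} (θ : I) (w : (Zb v κ ρ).X n) (u : Sph v) :
    (Zb v κ ρ).X (n + v) :=
  ⟨(C.smul (Nat.add_comm v n) (R.unit v u) w.1.1,
    ⟨fun u' => M.act (n + v + v) (blk rfl (swp rfl (Nat.add_comm v n)) 1)
      (Gr M rfl θ w.1.2 (sm rfl u u')), by
      have h1 := Gr_cont M rfl (T := Sph v) (fun _ => θ) continuous_const (fun _ => w.1.2)
        continuous_const (fun _ => w.2.1) (fun u' => sm rfl u u') (by
          have h2 : Continuous fun u' : Sph v => (u, u') := continuous_const.prodMk continuous_id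
          have h3 := (sm_cont (rfl : v + v = v + v)).comp h2
          exact h3)
      exact M.act_cont (n + v + v) (Sph v)
        (fun _ => blk rfl (swp rfl (Nat.add_comm v n)) 1) _ continuous_const h1⟩), by
    change M.act (n + v + v) _ (Gr M rfl θ w.1.2 (sm rfl u OnePoint.infty)) = M.pt (n + v + v)
    rw [sm_infty, Gr_infty, M.act_pt], by
    intro u'
    change rm N rfl (κ.f (n + v) (C.smul (Nat.add_comm v n) (R.unit v u) w.1.1)) u' =
      ρ.f (n + v + v) (M.act (n + v + v) _ (Gr M rfl θ w.1.2 (sm rfl u u')))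
    rw [ρ.act, map_Gr, Gr_rm N rfl θ _ (κ.f n w.1.1) (fun u => (w.2.2 u).symm), κ.smul,
      smul_unit N (Nat.add_comm v n) rfl, rm_act_left, rm_rm N rfl rfl rfl]⟩

theorem Hpt_cont {n : ℕ} {T : Type} [TopologicalSpace T] [CompactSpace T] [T2Space T]
    (θ : T → I) (hθ : Continuous θ)
    (w : T → (Zb v κ ρ).X n) (hw : Continuous w) (u : T → Sph v) (hu : Continuous u) :
    Continuous fun t => Hpt (θ t) (w t) (u t) := by
  have h1 : Continuous fun t => (w t).1.1 := continuous_fst.comp (continuous_subtype_val.comp hw)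
  have h2 : Continuous fun t => (w t).1.2 := continuous_snd.comp (continuous_subtype_val.comp hw)
  refine Continuous.subtype_mk ((C.smul_cont (Nat.add_comm v n) T (fun t => R.unit v (u t))
    (fun t => (w t).1.1) ((R.unit_cont v).comp hu) h1).prodMk ?_) _
  refine curry_cont _ ?_
  have h3 : Continuous fun q : T × Sph v => (u q.1, q.2) :=
    (hu.comp continuous_fst).prodMk continuous_snd
  have h4 : Continuous fun q : T × Sph v => sm (rfl : v + v = v + v) (u q.1) q.2 :=
    (sm_cont (rfl : v + v = v + v)).comp h3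
  have h5 := Gr_cont M rfl (T := T × Sph v) (fun q => θ q.1) (hθ.comp continuous_fst)
    (fun q => (w q.1).1.2) (h2.comp continuous_fst) (fun q => (w q.1).2.1)
    (fun q => sm rfl (u q.1) q.2) h4
  exact M.act_cont (n + v + v) (T × Sph v)
    (fun _ => blk rfl (swp rfl (Nat.add_comm v n)) 1) _ continuous_const h5

theorem Hpt_infty {n : ℕ} (θ : I) (w : (Zb v κ ρ).X n) :
    Hpt θ w OnePoint.infty = (Zb v κ ρ).pt (n + v) := by
  refine Subtype.ext (Prod.ext ?_ (ContinuousMap.ext fun u' => ?_))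
  · change C.smul (Nat.add_comm v n) (R.unit v OnePoint.infty) w.1.1 = C.pt (n + v)
    rw [R.unit_pt, C.pt_smul]
  · change M.act (n + v + v) _ (Gr M rfl θ w.1.2 (sm rfl OnePoint.infty u')) = M.pt (n + v + v)
    rw [infty_sm, Gr_infty, M.act_pt]

theorem Hpt_pt {n : ℕ} (θ : I) (u : Sph v) :
    Hpt θ ((Zb v κ ρ).pt n) u = (Zb v κ ρ).pt (n + v) := by
  refine Subtype.ext (Prod.ext ?_ (ContinuousMap.ext fun u' => ?_))
  · exact C.smul_pt _ _
  · change M.act (n + v + v) _ (Gr M rfl θ (fun _ => M.pt (n + v)) (sm rfl u u')) = M.pt (n + v + v)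
    rw [Gr_rm M rfl θ _ (M.pt n) (fun u => (rm_pt M rfl u).symm), rm_pt, M.act_pt]

theorem Hpt_zero {n : ℕ} (w : (Zb v κ ρ).X n) (u : Sph v) :
    Hpt 0 w u = (ziota v κ ρ).f (n + v) (hpt w u) := by
  refine Subtype.ext (Prod.ext rfl (ContinuousMap.ext fun u' => ?_))
  change M.act (n + v + v) (blk rfl (swp rfl (Nat.add_comm v n)) 1)
      (Gr M rfl 0 w.1.2 (sm rfl u u')) =
    rm M rfl (M.act (n + v) (swp rfl (Nat.add_comm v n)) (w.1.2 u)) u'
  rw [Gr_zero M rfl w.1.2 w.2.1, rm_act_left]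

theorem Hpt_one {n : ℕ} (w : (Zb v κ ρ).X n) (u : Sph v) :
    Hpt 1 w u = (Zb v κ ρ).smul (Nat.add_comm v n) (R.unit v u) w := by
  refine Subtype.ext (Prod.ext rfl (ContinuousMap.ext fun u' => ?_))
  change M.act (n + v + v) (blk rfl (swp rfl (Nat.add_comm v n)) 1)
      (Gr M rfl 1 w.1.2 (sm rfl u u')) =
    M.smul (addv (Nat.add_comm v n) v) (R.unit v u) (w.1.2 u')
  rw [Gr_one M rfl w.1.2 w.2.1, smul_unit M (addv (Nat.add_comm v n) v) rfl, ← M.act_mul]
  congr 1
  refine ort_ext_jv rfl fun z y => ?_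
  rw [swp_mulVec rfl (addv (Nat.add_comm v n) v), ← jv_jl_jr rfl z, ort_mul_mulVec,
    jv_assoc rfl rfl rfl (Nat.add_assoc n v v).symm,
    blk_mulVec, swp_mulVec, ort_one_mulVec,
    ← jv_assoc rfl rfl rfl (Nat.add_assoc n v v).symm, blk_mulVec, swp_mulVec, ort_one_mulVec,
    jv_assoc (Nat.add_comm v n) rfl rfl (addv (Nat.add_comm v n) v), jv_jl_jr]

theorem iota_hL {a n : ℕ} (z : Lp (Zb v κ ρ).seq a n) :
    GenLoop.Homotopic ((ziota v κ ρ).sh.lp (hL z)) (stn v z) := by
  refine homotopic_of (P := (Zb v κ ρ).seq)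
    (fun s t => Hpt s (z.1 (tl t)) (lamv v (hd t))) ?_ ?_ ?_ ?_
  · exact Hpt_cont (fun q : I × (Fin (a + v) → I) => q.1) continuous_fst
      (fun q => z.1 (tl q.2)) (z.1.continuous.comp (tl_cont.comp continuous_snd))
      (fun q => lamv v (hd q.2)) ((lamv_cont v).comp (hd_cont.comp continuous_snd))
  · intro t
    exact Hpt_zero _ _
  · intro t
    rw [stn_apply]
    exact Hpt_one _ _
  · intro s t ht
    change Hpt s (z.1 (tl t)) (lamv v (hd t)) = (Zb v κ ρ).pt (n + v)
    rcases boundary_split t ht with h | h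
    · rw [lamv_boundary v _ h, Hpt_infty]
    · have h4 : z.1 (tl t) = (Zb v κ ρ).pt n := z.2 _ h
      rw [h4, Hpt_pt]

theorem stn_stn_homotopic {P : Seq} {a n : ℕ} (j v : ℕ) (x y : Lp P a n) :
    GenLoop.Homotopic (stn v (stn j x)) (stn v (stn j y)) =
      GenLoop.Homotopic (stn (j + v) x) (stn (j + v) y) := by
  have h1 : ∀ (v : ℕ), a + j + v = a + (j + v) := fun v => Nat.add_assoc a j v
  have h2 : ∀ (v : ℕ), n + j + v = n + (j + v) := fun v => Nat.add_assoc n j v
  have h3 : ∀ (v : ℕ) (x : Lp P a n), HEq (stn v (stn j x)) (stn (j + v) x) := by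
    intro v x
    induction v with
    | zero => rfl
    | succ v ih =>
      have h4 : ∀ {b m b' m' : ℕ} (hb : b = b') (hm : m = m') (s : Lp P b m)
          (s' : Lp P b' m'), HEq s s' → HEq (st s) (st s') := by
        intro b m b' m' hb hm s s' hs
        subst hb; subst hm
        rw [eq_of_heq hs]
      exact h4 (h1 v) (h2 v) _ _ ih
  have h5 : ∀ {b m b' m' : ℕ} (hb : b = b') (hm : m = m') (s r : Lp P b m)
      (s' r' : Lp P b' m'), HEq s s' → HEq r r' →
      GenLoop.Homotopic s r = GenLoop.Homotopic s' r' := by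
    intro b m b' m' hb hm s r s' r' hs hr
    subst hb; subst hm
    rw [eq_of_heq hs, eq_of_heq hr]
  exact h5 (h1 v) (h2 v) _ _ _ _ (h3 v x) (h3 v y)

/-- Loops whose iterated suspensions are homotopic are stably homotopic. -/
theorem StEq.of_stn {P : Seq} {a n : ℕ} (j v : ℕ) {x y : Lp P a n}
    (h : GenLoop.Homotopic (stn v (stn j x)) (stn v (stn j y))) : StEq x y := by
  refine ⟨j + v, ?_⟩
  rw [← stn_stn_homotopic]
  exact h

/-- `Pb κ ρ → Zb v κ ρ` is a weak equivalence. -/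
theorem ziota_isWeq (v : ℕ) (κ : MHom C N) (ρ : MHom M N) : (ziota v κ ρ).IsWeq := by
  constructor
  · intro a n x x' hx
    obtain ⟨j, hj⟩ := hx
    change GenLoop.Homotopic (stn j ((ziota v κ ρ).sh.lp x)) (stn j ((ziota v κ ρ).sh.lp x')) at hj
    rw [← SHom.lp_stn, ← SHom.lp_stn] at hj
    have h1 := hL_homotopic hj
    rw [hL_iota, hL_iota] at h1
    exact StEq.of_stn j v h1
  · intro a n y
    exact ⟨v, hL y, 0, iota_hL y⟩

end Pool.Agent.MP_d175a7_gt
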