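import Pool.Agent.Lib.MP_d175a7_gt.Res
import Pool.Agent.Lib.MP_d175a7_gt.ZbW

/-!
# The ring `B = e ×_H e ×_H ⋯ ×_H e` and its modules

`Bf e H ρ f` is the strict fibre product of `f` copies of `e` along `ρ : e → H`.  For a slot
`β` the module `Zf β` has the same slots, except that the slot `β` is replaced by
`Ω^v e_(n+v)`.  For `g : S^v → e_v` with `ρ g` trivial, `alf β a : Zf β → Zf a` multiplies the slot
`a` by `g` and forgets the other slots.
-/

set_option autoImplicit false
set_option linter.unusedVariables false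

namespace Pool.Agent.MP_d175a7_gt

open scoped Topology unitInterval

section BfDef

variable {e H : RSp} (ρ : RHom e H) (f : ℕ)

/-- The points of level `n` of the fibre product. -/
abbrev BfX (n : ℕ) : Type := {w : Fin f → e.X n // ∀ i j, ρ.f n (w i) = ρ.f n (w j)}

/-- The base point. -/
abbrev BfPt (n : ℕ) : BfX ρ f n := ⟨fun _ => e.pt n, fun _ _ => rfl⟩

theorem Bf_cong_act {n : ℕ} (A : Ort n) (x : BfX ρ f n) (i j : Fin f) :
    ρ.f n (e.act n A (x.1 i)) = ρ.f n (e.act n A (x.1 j)) := by
  rw [ρ.act, ρ.act, x.2 i j]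

/-- The action of `O(n)`. -/
abbrev BfAct (n : ℕ) (A : Ort n) (x : BfX ρ f n) : BfX ρ f n :=
  ⟨fun i => e.act n A (x.1 i), Bf_cong_act ρ f A x⟩

theorem Bf_cong_mul {m n k : ℕ} (h : m + n = k) (x : BfX ρ f m) (y : BfX ρ f n) (i j : Fin f) :
    ρ.f k (e.mul h (x.1 i) (y.1 i)) = ρ.f k (e.mul h (x.1 j) (y.1 j)) := by
  rw [ρ.mul, ρ.mul, x.2 i j, y.2 i j]

/-- The multiplication. -/
abbrev BfMul {m n k : ℕ} (h : m + n = k) (x : BfX ρ f m) (y : BfX ρ f n) : BfX ρ f k :=
  ⟨fun i => e.mul h (x.1 i) (y.1 i), Bf_cong_mul ρ f h x y⟩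

/-- The unit. -/
abbrev BfUnit (n : ℕ) (v : Sph n) : BfX ρ f n := ⟨fun _ => e.unit n v, fun _ _ => rfl⟩

theorem Bf_closed (n : ℕ) : IsClosed ({BfPt ρ f n} : Set (BfX ρ f n)) := by
  have h : ({⟨fun _ => e.pt n, fun _ _ => rfl⟩} :
      Set {w : Fin f → e.X n // ∀ i j, ρ.f n (w i) = ρ.f n (w j)}) =
      ⋂ i, {x | x.1 i = e.pt n} := by
    ext x; simp [Subtype.ext_iff, funext_iff]
  change IsClosed ({⟨fun _ => e.pt n, fun _ _ => rfl⟩} :
      Set {w : Fin f → e.X n // ∀ i j, ρ.f n (w i) = ρ.f n (w j)})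
  rw [h]
  exact isClosed_iInter fun i => IsClosed.preimage
    (f := fun x : {w : Fin f → e.X n // ∀ i j, ρ.f n (w i) = ρ.f n (w j)} => x.1 i)
    ((continuous_apply i).comp continuous_subtype_val) (e.closed n)

theorem Bf_act_cont (n : ℕ) : KCont₂ (BfAct ρ f n) := fun T _ _ _ g h hg hh =>
  Continuous.subtype_mk (continuous_pi fun i =>
    e.act_cont n T g (fun t => (h t).1 i) hg
      ((continuous_apply i).comp (continuous_subtype_val.comp hh))) _

theorem Bf_act_one (n : ℕ) (x : BfX ρ f n) : BfAct ρ f n 1 x = x :=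
  Subtype.ext (funext fun i => e.act_one n _)

theorem Bf_act_mul (n : ℕ) (A B : Ort n) (x : BfX ρ f n) :
    BfAct ρ f n (A * B) x = BfAct ρ f n A (BfAct ρ f n B x) :=
  Subtype.ext (funext fun i => e.act_mul n _ _ _)

theorem Bf_act_pt (n : ℕ) (A : Ort n) : BfAct ρ f n A (BfPt ρ f n) = BfPt ρ f n :=
  Subtype.ext (funext fun i => e.act_pt n _)

theorem Bf_mul_cont {m n k : ℕ} (h : m + n = k) : KCont₂ (BfMul ρ f h) :=
  fun T _ _ _ g l hg hl => Continuous.subtype_mk (continuous_pi fun i =>
    e.mul_cont h T (fun t => (g t).1 i) (fun t => (l t).1 i)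
      ((continuous_apply i).comp (continuous_subtype_val.comp hg))
      ((continuous_apply i).comp (continuous_subtype_val.comp hl))) _

theorem Bf_mul_pt {m n k : ℕ} (h : m + n = k) (x : BfX ρ f m) :
    BfMul ρ f h x (BfPt ρ f n) = BfPt ρ f k := Subtype.ext (funext fun i => e.mul_pt h _)

theorem Bf_pt_mul {m n k : ℕ} (h : m + n = k) (y : BfX ρ f n) :
    BfMul ρ f h (BfPt ρ f m) y = BfPt ρ f k := Subtype.ext (funext fun i => e.pt_mul h _)

theorem Bf_mul_assoc {a b c ab bc abc : ℕ} (h₁ : a + b = ab) (h₂ : ab + c = abc)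
    (h₃ : b + c = bc) (h₄ : a + bc = abc) (x : BfX ρ f a) (y : BfX ρ f b) (z : BfX ρ f c) :
    BfMul ρ f h₂ (BfMul ρ f h₁ x y) z = BfMul ρ f h₄ x (BfMul ρ f h₃ y z) :=
  Subtype.ext (funext fun i => e.mul_assoc h₁ h₂ h₃ h₄ _ _ _)

theorem Bf_mul_act {m n k : ℕ} (h : m + n = k) (A : Ort m) (B : Ort n) (x : BfX ρ f m)
    (y : BfX ρ f n) :
    BfMul ρ f h (BfAct ρ f m A x) (BfAct ρ f n B y) =
      BfAct ρ f k (blk h A B) (BfMul ρ f h x y) :=
  Subtype.ext (funext fun i => e.mul_act h A B _ _)

theorem Bf_mul_comm {m n k : ℕ} (h : m + n = k) (h' : n + m = k) (x : BfX ρ f m)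
    (y : BfX ρ f n) : BfMul ρ f h' y x = BfAct ρ f k (swp h h') (BfMul ρ f h x y) :=
  Subtype.ext (funext fun i => e.mul_comm h h' _ _)

theorem Bf_unit_cont (n : ℕ) : Continuous (BfUnit ρ f n) :=
  Continuous.subtype_mk (continuous_pi fun i => e.unit_cont n) _

theorem Bf_unit_pt (n : ℕ) : BfUnit ρ f n OnePoint.infty = BfPt ρ f n :=
  Subtype.ext (funext fun i => e.unit_pt n)

theorem Bf_unit_act (n : ℕ) (A : Ort n) (v : Sph n) :
    BfUnit ρ f n (sact A v) = BfAct ρ f n A (BfUnit ρ f n v) :=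
  Subtype.ext (funext fun i => e.unit_act n A v)

theorem Bf_unit_mul {m n k : ℕ} (h : m + n = k) (v : Sph m) (w : Sph n) :
    BfMul ρ f h (BfUnit ρ f m v) (BfUnit ρ f n w) = BfUnit ρ f k (sm h v w) :=
  Subtype.ext (funext fun i => e.unit_mul h v w)

theorem Bf_one_mul {n : ℕ} (h : 0 + n = n) (x : BfX ρ f n) :
    BfMul ρ f h (BfUnit ρ f 0 (OnePoint.some 0)) x = x :=
  Subtype.ext (funext fun i => e.one_mul h _)

theorem Bf_mul_one {n : ℕ} (h : n + 0 = n) (x : BfX ρ f n) :
    BfMul ρ f h x (BfUnit ρ f 0 (OnePoint.some 0)) = x :=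
  Subtype.ext (funext fun i => e.mul_one h _)

end BfDef

/-- The fibre product of `f` copies of `e` along `ρ : e → H`. -/
def Bf (e H : RSp) (ρ : RHom e H) (f : ℕ) : RSp where
  X := BfX ρ f
  pt := BfPt ρ f
  closed := Bf_closed ρ f
  act := BfAct ρ f
  act_cont := Bf_act_cont ρ f
  act_one := Bf_act_one ρ f
  act_mul := Bf_act_mul ρ f
  act_pt := Bf_act_pt ρ f
  mul := BfMul ρ f
  mul_cont := Bf_mul_cont ρ f
  mul_pt := Bf_mul_pt ρ f
  pt_mul := Bf_pt_mul ρ f
  mul_assoc := Bf_mul_assoc ρ f
  mul_act := Bf_mul_act ρ f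
  mul_comm := Bf_mul_comm ρ f
  unit := BfUnit ρ f
  unit_cont := Bf_unit_cont ρ f
  unit_pt := Bf_unit_pt ρ f
  unit_act := Bf_unit_act ρ f
  unit_mul := Bf_unit_mul ρ f
  one_mul := Bf_one_mul ρ f
  mul_one := Bf_mul_one ρ f

variable {e H : RSp} (ρ : RHom e H) {f : ℕ}

/-- The projections. -/
def Bf.pr (i : Fin f) : RHom (Bf e H ρ f) e where
  f n x := x.1 i
  cont n T _ _ _ g hg := (continuous_apply i).comp (continuous_subtype_val.comp hg)
  pt n := rfl
  act n A x := rfl
  mul h x y := rfl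
  unit n v := rfl

/-- The composite `B → e → H` of the slot `o` (the same for all slots). -/
def Bf.aug (o : Fin f) : RHom (Bf e H ρ f) H where
  f n x := ρ.f n (x.1 o)
  cont n T _ _ _ g hg := ρ.cont n T (fun t => (g t).1 o)
    ((continuous_apply o).comp (continuous_subtype_val.comp hg))
  pt n := ρ.pt n
  act n A x := ρ.act n A _
  mul h x y := ρ.mul h _ _
  unit n v := ρ.unit n v

/-- The slots different from `β`. -/
def Cb (β : Fin f) : MSp (Bf e H ρ f) where
  X n := {w : Fin f → e.X n // w β = e.pt n ∧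
    ∀ i j, i ≠ β → j ≠ β → ρ.f n (w i) = ρ.f n (w j)}
  pt n := ⟨fun _ => e.pt n, rfl, fun _ _ _ _ => rfl⟩
  closed n := by
    have h : ({⟨fun _ => e.pt n, rfl, fun _ _ _ _ => rfl⟩} :
        Set {w : Fin f → e.X n // w β = e.pt n ∧
          ∀ i j, i ≠ β → j ≠ β → ρ.f n (w i) = ρ.f n (w j)}) =
        ⋂ i, {x | x.1 i = e.pt n} := by
      ext x; simp [Subtype.ext_iff, funext_iff]
    rw [h]
    exact isClosed_iInter fun i => IsClosed.preimage
      (f := fun x : {w : Fin f → e.X n // w β = e.pt n ∧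
        ∀ i j, i ≠ β → j ≠ β → ρ.f n (w i) = ρ.f n (w j)} => x.1 i)
      ((continuous_apply i).comp continuous_subtype_val) (e.closed n)
  act n A x := ⟨fun i => e.act n A (x.1 i), by
    beta_reduce; rw [x.2.1, e.act_pt], fun i j hi hj => by
    beta_reduce; rw [ρ.act, ρ.act, x.2.2 i j hi hj]⟩
  act_cont n T _ _ _ g h hg hh := Continuous.subtype_mk (continuous_pi fun i =>
    e.act_cont n T g (fun t => (h t).1 i) hg
      ((continuous_apply i).comp (continuous_subtype_val.comp hh))) _
  act_one n x := Subtype.ext (funext fun i => e.act_one n _)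
  act_mul n A B x := Subtype.ext (funext fun i => e.act_mul n _ _ _)
  act_pt n A := Subtype.ext (funext fun i => e.act_pt n _)
  smul h x y := ⟨fun i => e.mul h (x.1 i) (y.1 i), by
    beta_reduce; rw [y.2.1, e.mul_pt], fun i j hi hj => by
    beta_reduce; rw [ρ.mul, ρ.mul, x.2 i j, y.2.2 i j hi hj]⟩
  smul_cont h T _ _ _ g k hg hk := Continuous.subtype_mk (continuous_pi fun i =>
    e.mul_cont h T (fun t => (g t).1 i) (fun t => (k t).1 i)
      ((continuous_apply i).comp (continuous_subtype_val.comp hg))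
      ((continuous_apply i).comp (continuous_subtype_val.comp hk))) _
  smul_pt h x := Subtype.ext (funext fun i => e.mul_pt h _)
  pt_smul h y := Subtype.ext (funext fun i => e.pt_mul h _)
  smul_assoc h₁ h₂ h₃ h₄ x y z := Subtype.ext (funext fun i => e.mul_assoc h₁ h₂ h₃ h₄ _ _ _)
  smul_act h A B x y := Subtype.ext (funext fun i => e.mul_act h A B _ _)
  one_smul h x := Subtype.ext (funext fun i => e.one_mul h _)

/-- `Cb β → H`, through the slot `o`. -/
def kap (β o : Fin f) : MHom (Cb ρ β) (H.self.res (Bf.aug ρ o)) where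
  f n x := ρ.f n (x.1 o)
  cont n T _ _ _ g hg := ρ.cont n T (fun t => (g t).1 o)
    ((continuous_apply o).comp (continuous_subtype_val.comp hg))
  pt n := ρ.pt n
  act n A x := ρ.act n A _
  smul h x y := ρ.mul h _ _

/-- `e → H` as a homomorphism of `B`-modules, `B` acting through the slot `β` on `e` and through
the slot `o` on `H`. -/
def rhb (β o : Fin f) : MHom (e.self.res (Bf.pr ρ β)) (H.self.res (Bf.aug ρ o)) where
  f n x := ρ.f n x
  cont n := ρ.cont n
  pt n := ρ.pt n
  act n A x := ρ.act n A _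
  smul {m n k} h x y := by
    change ρ.f k (e.mul h (x.1 β) y) = H.mul h (ρ.f m (x.1 o)) (ρ.f n y)
    rw [ρ.mul, x.2 β o]

/-- The module `Zf β`. -/
def Zf (v : ℕ) (β o : Fin f) : MSp (Bf e H ρ f) := Zb v (kap ρ β o) (rhb ρ β o)

/-- `B → Cb β ×_H e`. -/
def bsplit (β o : Fin f) (ho : o ≠ β) :
    MHom (Bf e H ρ f).self (Pb (kap ρ β o) (rhb ρ β o)) where
  f n x := ⟨(⟨Function.update x.1 β (e.pt n), Function.update_self _ _ _, fun i j hi hj => by
      rw [Function.update_of_ne hi, Function.update_of_ne hj, x.2 i j]⟩, x.1 β), by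
    change ρ.f n (Function.update x.1 β (e.pt n) o) = ρ.f n (x.1 β)
    rw [Function.update_of_ne ho, x.2 o β]⟩
  cont n T _ _ _ g hg := by
    have h1 : ∀ i, Continuous fun t => (g t).1 i := fun i =>
      (continuous_apply i).comp (continuous_subtype_val.comp hg)
    refine Continuous.subtype_mk (Continuous.prodMk (Continuous.subtype_mk
      (continuous_pi fun i => ?_) _) (h1 β)) _
    by_cases hi : i = β
    · subst hi
      simp only [Function.update_self]
      exact continuous_const
    · simp only [Function.update_of_ne hi]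
      exact h1 i
  pt n := Subtype.ext (Prod.ext (Subtype.ext (funext fun i => by
    change Function.update (fun _ => e.pt n) β (e.pt n) i = e.pt n
    by_cases hi : i = β
    · subst hi; rw [Function.update_self]
    · rw [Function.update_of_ne hi])) rfl)
  act n A x := Subtype.ext (Prod.ext (Subtype.ext (funext fun i => by
    change Function.update (fun i => e.act n A (x.1 i)) β (e.pt n) i =
      e.act n A (Function.update x.1 β (e.pt n) i)
    by_cases hi : i = β
    · subst hi; rw [Function.update_self, Function.update_self, e.act_pt]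
    · rw [Function.update_of_ne hi, Function.update_of_ne hi])) rfl)
  smul {m n k} h r x := Subtype.ext (Prod.ext (Subtype.ext (funext fun i => by
    change Function.update (fun i => e.mul h (r.1 i) (x.1 i)) β (e.pt k) i =
      e.mul h (r.1 i) (Function.update x.1 β (e.pt n) i)
    by_cases hi : i = β
    · subst hi; rw [Function.update_self, Function.update_self, e.mul_pt]
    · rw [Function.update_of_ne hi, Function.update_of_ne hi])) rfl)

/-- The inverse of `bsplit`. -/
def bjoin (β o : Fin f) (ho : o ≠ β) :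
    MHom (Pb (kap ρ β o) (rhb ρ β o)) (Bf e H ρ f).self where
  f n z := ⟨Function.update z.1.1.1 β z.1.2, by
    have h1 : ∀ i, ρ.f n (Function.update z.1.1.1 β z.1.2 i) = ρ.f n z.1.2 := by
      intro i
      by_cases hi : i = β
      · subst hi; rw [Function.update_self]
      · rw [Function.update_of_ne hi, z.1.1.2.2 i o hi ho]
        exact z.2
    intro i j
    rw [h1, h1]⟩
  cont n T _ _ _ g hg := by
    have h1 : ∀ i, Continuous fun t => (g t).1.1.1 i := fun i =>
      (continuous_apply i).comp (continuous_subtype_val.comp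
        (continuous_fst.comp (continuous_subtype_val.comp hg)))
    have h2 : Continuous fun t => (g t).1.2 :=
      continuous_snd.comp (continuous_subtype_val.comp hg)
    refine Continuous.subtype_mk (continuous_pi fun i => ?_) _
    by_cases hi : i = β
    · subst hi
      simp only [Function.update_self]
      exact h2
    · simp only [Function.update_of_ne hi]
      exact h1 i
  pt n := Subtype.ext (funext fun i => by
    change Function.update (fun _ => e.pt n) β (e.pt n) i = e.pt n
    by_cases hi : i = β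
    · subst hi; rw [Function.update_self]
    · rw [Function.update_of_ne hi])
  act n A z := Subtype.ext (funext fun i => by
    change Function.update (fun i => e.act n A (z.1.1.1 i)) β (e.act n A z.1.2) i =
      e.act n A (Function.update z.1.1.1 β z.1.2 i)
    by_cases hi : i = β
    · subst hi; rw [Function.update_self, Function.update_self]
    · rw [Function.update_of_ne hi, Function.update_of_ne hi])
  smul {m n k} h r z := Subtype.ext (funext fun i => by
    change Function.update (fun i => e.mul h (r.1 i) (z.1.1.1 i)) β (e.mul h (r.1 β) z.1.2) i =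
      e.mul h (r.1 i) (Function.update z.1.1.1 β z.1.2 i)
    by_cases hi : i = β
    · subst hi; rw [Function.update_self, Function.update_self]
    · rw [Function.update_of_ne hi, Function.update_of_ne hi])

theorem bsplit_isWeq (β o : Fin f) (ho : o ≠ β) : (bsplit ρ β o ho).IsWeq := by
  refine isWeq_of_inv _ (bjoin ρ β o ho).sh (fun n x => ?_) (fun n z => ?_)
  · refine Subtype.ext (funext fun i => ?_)
    change Function.update (Function.update x.1 β (e.pt n)) β (x.1 β) i = x.1 i
    rw [Function.update_idem, Function.update_eq_self]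
  · refine Subtype.ext (Prod.ext (Subtype.ext (funext fun i => ?_)) ?_)
    · change Function.update (Function.update z.1.1.1 β z.1.2) β (e.pt n) i = z.1.1.1 i
      rw [Function.update_idem]
      by_cases hi : i = β
      · subst hi
        rw [Function.update_self]
        exact z.1.1.2.1.symm
      · rw [Function.update_of_ne hi]
    · change Function.update z.1.1.1 β z.1.2 β = z.1.2
      rw [Function.update_self]

/-- `B → Zf β`. -/
def zin (v : ℕ) (β o : Fin f) (ho : o ≠ β) : MHom (Bf e H ρ f).self (Zf ρ v β o) :=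
  (bsplit ρ β o ho).comp (ziota v (kap ρ β o) (rhb ρ β o))

theorem zin_isWeq (v : ℕ) (β o : Fin f) (ho : o ≠ β) : (zin ρ v β o ho).IsWeq :=
  MHom.isWeq_comp (bsplit_isWeq ρ β o ho) (ziota_isWeq v (kap ρ β o) (rhb ρ β o))

/-- The free object `Zf β`. -/
def Zfree (v : ℕ) (β o : Fin f) (ho : o ≠ β) : FreeObj (Bf e H ρ f) :=
  FreeObj.ofWeq (Zf ρ v β o) (zin ρ v β o ho) (zin_isWeq ρ v β o ho)

/-- Multiplication by `g` on the slot `a`. -/
def alf {v : ℕ} (g : C(Sph v, e.X v)) (hg : g OnePoint.infty = e.pt v)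
    (hρ : ∀ u, ρ.f v (g u) = H.pt v) (β a o : Fin f) : MHom (Zf ρ v β o) (Zf ρ v a o) where
  f n z := ⟨((Cb ρ a).pt n, ⟨fun u => e.mul rfl (z.1.1.1 a) (g u),
      e.mul_cont rfl (Sph v) (fun _ => z.1.1.1 a) (fun u => g u) continuous_const
        g.continuous⟩), by
    change e.mul rfl (z.1.1.1 a) (g OnePoint.infty) = e.pt (n + v)
    rw [hg, e.mul_pt], fun u => by
    change rm _ rfl ((kap ρ a o).f n ((Cb ρ a).pt n)) u =
      ρ.f (n + v) (e.mul rfl (z.1.1.1 a) (g u))
    rw [(kap ρ a o).pt, rm_pt, ρ.mul, hρ, H.mul_pt]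
    rfl⟩
  cont n T _ _ _ k hk := by
    refine Continuous.subtype_mk (continuous_const.prodMk ?_) _
    refine curry_cont _ ?_
    exact e.mul_cont rfl (T × Sph v) (fun q => (k q.1).1.1.1 a) (fun q => g q.2)
      ((continuous_apply a).comp (continuous_subtype_val.comp
        (continuous_fst.comp (continuous_subtype_val.comp (hk.comp continuous_fst)))))
      (g.continuous.comp continuous_snd)
  pt n := Subtype.ext (Prod.ext rfl (ContinuousMap.ext fun u => e.pt_mul rfl _))
  act n A z := Subtype.ext (Prod.ext ((Cb ρ a).act_pt n A).symm (ContinuousMap.ext fun u => by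
    change e.mul rfl (e.act n A (z.1.1.1 a)) (g u) =
      e.act (n + v) (blk rfl A 1) (e.mul rfl (z.1.1.1 a) (g u))
    rw [← e.mul_act, e.act_one]))
  smul {m n k} h r z := Subtype.ext (Prod.ext ((Cb ρ a).smul_pt h r).symm
    (ContinuousMap.ext fun u => by
      change e.mul rfl (e.mul h (r.1 a) (z.1.1.1 a)) (g u) =
        e.mul (addv h v) (r.1 a) (e.mul rfl (z.1.1.1 a) (g u))
      exact e.mul_assoc h rfl rfl (addv h v) _ _ _))

/-- The composites are trivial. -/
theorem alf_alf {v : ℕ} (g : C(Sph v, e.X v)) (hg : g OnePoint.infty = e.pt v)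
    (hρ : ∀ u, ρ.f v (g u) = H.pt v) (β a b o : Fin f) (n : ℕ) (z : (Zf ρ v β o).X n) :
    (alf ρ g hg hρ a b o).f n ((alf ρ g hg hρ β a o).f n z) = (Zf ρ v b o).pt n :=
  Subtype.ext (Prod.ext rfl (ContinuousMap.ext fun u => e.pt_mul rfl _))

end Pool.Agent.MP_d175a7_gt
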