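import Pool.Agent.Lib.MP_d175a7_gt.Shift

/-! # A proper colouring of the cycle -/

set_option autoImplicit false
set_option linter.unusedVariables false

namespace Pool.Agent.MP_d175a7_gt

/-- The colouring `a, b, c, b, c, ...` of the cycle `Fin m`. -/
def bet {f : ℕ} (a b c : Fin f) {m : ℕ} (i : Fin m) : Fin f :=
  if i.1 = 0 then a else if i.1 % 2 = 1 then b else c

theorem bet_nxt {f : ℕ} {a b c : Fin f} (hab : a ≠ b) (hac : a ≠ c) (hbc : b ≠ c) {m : ℕ}
    (hm : 2 ≤ m) (i : Fin m) : bet a b c (nxt i) ≠ bet a b c i := by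
  obtain ⟨n, rfl⟩ : ∃ n, m = n + 1 := ⟨m - 1, by omega⟩
  have h1 : (nxt i).1 = if i.1 = n then 0 else i.1 + 1 := by
    change (finRotate (n + 1) i).1 = _
    rw [finRotate_apply]
    by_cases hi : i.1 = n
    · have h2 : i = Fin.last n := Fin.ext hi
      rw [if_pos hi, h2, Fin.last_add_one]
      rfl
    · rw [if_neg hi, Fin.val_add_one_of_lt (by
        rw [Fin.lt_def]
        have h3 := i.2
        change i.1 < n
        omega)]
  unfold bet
  rw [h1]
  have hi := i.2
  by_cases hn : i.1 = n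
  · rw [if_pos hn, if_pos rfl, if_neg (by omega)]
    split_ifs
    · exact hab
    · exact hac
  · rw [if_neg hn, if_neg (by omega)]
    by_cases h0 : i.1 = 0
    · rw [if_pos (by omega), if_pos h0]
      exact hab.symm
    · rw [if_neg h0]
      by_cases h2 : i.1 % 2 = 1
      · rw [if_neg (by omega), if_pos h2]
        exact hbc.symm
      · rw [if_pos (by omega), if_neg h2]
        exact hbc

theorem bet_mem {f : ℕ} (a b c : Fin f) {m : ℕ} (i : Fin m) :
    bet a b c i = a ∨ bet a b c i = b ∨ bet a b c i = c := by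
  unfold bet
  split_ifs
  · exact Or.inl rfl
  · exact Or.inr (Or.inl rfl)
  · exact Or.inr (Or.inr rfl)

theorem bet_a {f : ℕ} (a b c : Fin f) {m : ℕ} (hm : 3 ≤ m) : ∃ i : Fin m, bet a b c i = a :=
  ⟨⟨0, by omega⟩, rfl⟩

theorem bet_b {f : ℕ} (a b c : Fin f) {m : ℕ} (hm : 3 ≤ m) : ∃ i : Fin m, bet a b c i = b :=
  ⟨⟨1, by omega⟩, rfl⟩

theorem bet_c {f : ℕ} (a b c : Fin f) {m : ℕ} (hm : 3 ≤ m) : ∃ i : Fin m, bet a b c i = c :=
  ⟨⟨2, by omega⟩, by simp [bet]⟩

end Pool.Agent.MP_d175a7_gt
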