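import Pool.Agent.Lib.MP_d175a7_gt.CatL

/-!
# The category of free modules and weak equivalences

Objects are lists of free objects (modules with a zigzag of weak equivalences to some `R^r`),
morphisms are the weak equivalences between the product modules, the monoidal product is
concatenation.
-/

set_option autoImplicit false
set_option linter.unusedVariables false

namespace Pool.Agent.MP_d175a7_gt

open CategoryTheory

/-- Objects: lists of free objects. -/
def FC (R : RSp) : Type 1 := List (FreeObj R)

/-- Morphisms: weak equivalences between the product modules. -/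
abbrev FCh (R : RSp) (L L' : FC R) : Type := {f : MHom (PiL L) (PiL L') // f.IsWeq}

/-- The identity. -/
abbrev FCid (R : RSp) (L : FC R) : FCh R L L := ⟨MHom.id _, MHom.isWeq_id _⟩

/-- Composition: first `f`, then `g`. -/
abbrev FCcomp {R : RSp} {L L' L'' : FC R} (f : FCh R L L') (g : FCh R L' L'') : FCh R L L'' :=
  ⟨f.1.comp g.1, MHom.isWeq_comp f.2 g.2⟩

theorem FC_id_comp (R : RSp) {L L' : FC R} (f : FCh R L L') : FCcomp (FCid R L) f = f := rfl

theorem FC_comp_id (R : RSp) {L L' : FC R} (f : FCh R L L') : FCcomp f (FCid R L') = f := rfl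

theorem FC_assoc (R : RSp) {L₁ L₂ L₃ L₄ : FC R} (f : FCh R L₁ L₂) (g : FCh R L₂ L₃)
    (h : FCh R L₃ L₄) : FCcomp (FCcomp f g) h = FCcomp f (FCcomp g h) := rfl

noncomputable instance FC.category (R : RSp) : Category.{0} (FC R) where
  Hom := FCh R
  id := FCid R
  comp := FCcomp
  id_comp := FC_id_comp R
  comp_id := FC_comp_id R
  assoc := FC_assoc R

/-- The unit: the empty list. -/
def FC.nil (R : RSp) : FC R := ([] : List (FreeObj R))

/-- The product of two objects. -/
abbrev FCten (R : RSp) (X Y : FC R) : FC R := List.append X Y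

/-- The product of two morphisms. -/
noncomputable abbrev FCmap (R : RSp) {X X' Y Y' : FC R} (f : FCh R X X') (g : FCh R Y Y') :
    FCh R (FCten R X Y) (FCten R X' Y') := ⟨tmap f.1 g.1, isWeq_tmap f.2 g.2⟩

/-- Pairs of objects. -/
abbrev FP (R : RSp) : Type 1 := FC R × FC R

/-- Pairs of morphisms. -/
abbrev FPh (R : RSp) (X Y : FP R) : Type := FCh R X.1 Y.1 × FCh R X.2 Y.2

/-- The product of two objects. -/
abbrev FPten (R : RSp) (X : FP R) : FC R := FCten R X.1 X.2

/-- The product of two morphisms. -/
noncomputable abbrev FPmap (R : RSp) {X Y : FP R} (f : FPh R X Y) : FCh R (FPten R X) (FPten R Y) :=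
  FCmap R f.1 f.2

/-- The identity. -/
abbrev FPid (R : RSp) (X : FP R) : FPh R X X := (FCid R X.1, FCid R X.2)

/-- The composition. -/
abbrev FPcomp {R : RSp} {X Y Z : FP R} (f : FPh R X Y) (g : FPh R Y Z) : FPh R X Z :=
  (FCcomp f.1 g.1, FCcomp f.2 g.2)

theorem FPmap_id (R : RSp) (X : FP R) : FPmap R (FPid R X) = FCid R (FPten R X) :=
  Subtype.ext (tmap_id X.1 X.2)

theorem FPmap_comp (R : RSp) {X Y Z : FP R} (f : FPh R X Y) (g : FPh R Y Z) :
    FPmap R (FPcomp f g) = FCcomp (FPmap R f) (FPmap R g) :=
  Subtype.ext (tmap_comp f.1.1 g.1.1 f.2.1 g.2.1)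

/-- The monoidal product: concatenation. -/
noncomputable def tens (R : RSp) : FC R × FC R ⥤ FC R where
  obj := FPten R
  map := FPmap R
  map_id := FPmap_id R
  map_comp := FPmap_comp R

end Pool.Agent.MP_d175a7_gt
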