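import Pool.Agent.Lib.MP_d175a7_gt.Mod

/-!
# Homotopy groups of ring spectra: products, units, ring homomorphisms `π_0 R → Λ`
-/

set_option autoImplicit false
set_option linter.unusedVariables false

namespace Pool.Agent.MP_d175a7_gt

open scoped Topology unitInterval

/-- The first coordinates. -/
def fstI {a b : ℕ} (t : Fin (a + b) → I) : Fin a → I := fun i => t (Fin.castAdd b i)

/-- The last coordinates. -/
def sndI {a b : ℕ} (t : Fin (a + b) → I) : Fin b → I := fun i => t (Fin.natAdd a i)

variable {R : RSp}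

/-- The external product of loops, as a map. -/
noncomputable abbrev extf {P : MSp R} {a n b m : ℕ} (x : Lp R.self.seq a n) (y : Lp P.seq b m)
    (t : Fin (a + b) → I) : P.X (n + m) := P.smul rfl (lpap x (fstI t)) (lpap y (sndI t))

theorem extf_cont {P : MSp R} {a n b m : ℕ} (x : Lp R.self.seq a n) (y : Lp P.seq b m) :
    Continuous (extf x y) :=
  P.smul_cont rfl (Fin (a + b) → I) (fun t => x.1 (fstI t)) (fun t => y.1 (sndI t))
    (x.1.continuous.comp (continuous_pi fun i => continuous_apply _))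
    (y.1.continuous.comp (continuous_pi fun i => continuous_apply _))

theorem extf_bd {P : MSp R} {a n b m : ℕ} (x : Lp R.self.seq a n) (y : Lp P.seq b m) :
    ∀ t ∈ Cube.boundary (Fin (a + b)), extf x y t = P.pt (n + m) := by
  rintro t ⟨i, hi⟩
  change P.smul rfl (x.1 (fstI t)) (y.1 (sndI t)) = P.pt (n + m)
  induction i using Fin.addCases with
  | left i =>
    have h : x.1 (fstI t) = R.pt n := x.2 (fstI t) ⟨i, hi⟩
    rw [h]; exact P.pt_smul _ _
  | right i =>
    have h : y.1 (sndI t) = P.pt m := y.2 (sndI t) ⟨i, hi⟩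
    rw [h]; exact P.smul_pt _ _

/-- The external product of loops `x ∈ Ω^a R_n`, `y ∈ Ω^b P_m`:
`(s, t) ↦ x(s) y(t) ∈ P_(n+m)`. -/
noncomputable def ext {P : MSp R} {a n b m : ℕ} (x : Lp R.self.seq a n) (y : Lp P.seq b m) :
    Lp P.seq (a + b) (n + m) := mkLp (P := P.seq) (extf x y) (extf_cont x y) (extf_bd x y)

/-- The unit of `π_0 R`, as a map. -/
noncomputable abbrev onef (R : RSp) (_ : Fin 0 → I) : R.X 0 := R.unit 0 (OnePoint.some 0)

theorem onef_cont (R : RSp) : Continuous (onef R) := continuous_const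

theorem onef_bd (R : RSp) : ∀ t ∈ Cube.boundary (Fin 0), onef R t = R.pt 0 := by
  rintro y ⟨i, _⟩; exact i.elim0

/-- The unit of `π_0 R`, as a loop in `Ω^0 R_0`. -/
noncomputable def oneLp (R : RSp) : Lp R.self.seq 0 0 :=
  mkLp (P := R.self.seq) (onef R) (onef_cont R) (onef_bd R)

/-- The unit of `π_0 R`, as a loop in `Ω^a R_a`. -/
noncomputable def oneN (R : RSp) (a : ℕ) : Lp R.self.seq a a :=
  Nat.rec (motive := fun a => Lp R.self.seq a a) (oneLp R) (fun _ x => st x) a

/-- The `k`-fold sum of the unit in `π_0 R`. -/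
noncomputable def nsm (R : RSp) (k : ℕ) : Lp R.self.seq 1 1 :=
  Nat.rec (motive := fun _ => Lp R.self.seq 1 1) (cstLp R.self.seq 1 1)
    (fun _ x => GenLoop.transAt 0 x (st (oneLp R))) k

/-- A ring homomorphism `π_0 R → Λ`, given on representatives: a function on loops
`Ω^a R_a`, `a ≥ 0`, which is invariant under homotopies and suspensions, additive (for the
concatenation of loops), multiplicative (for the external product) and unital. -/
structure RCh (R : RSp) (Λ : Type) [CommRing Λ] where
  /-- the function on representatives -/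
  Q : ∀ a, Lp R.self.seq a a → Λ
  hty : ∀ {a : ℕ} {x y : Lp R.self.seq a a}, GenLoop.Homotopic x y → Q a x = Q a y
  st : ∀ {a : ℕ} (x : Lp R.self.seq a a), Q (a + 1) (st x) = Q a x
  add : ∀ {a : ℕ} (x y : Lp R.self.seq (a + 1) (a + 1)),
    Q (a + 1) (GenLoop.transAt 0 x y) = Q (a + 1) x + Q (a + 1) y
  mul : ∀ {a b : ℕ} (x : Lp R.self.seq a a) (y : Lp R.self.seq b b),
    Q (a + b) (ext x y) = Q a x * Q b y
  one : Q 0 (oneLp R) = 1

/-- The residue ring `Λ/p`. -/
abbrev ResP (p : ℕ) (Λ : Type) [CommRing Λ] : Type := Λ ⧸ Ideal.span ({(p : Λ)} : Set Λ)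

/-- The ring `π_0 R` has only the idempotents `0` and `1`. -/
def Conn (R : RSp) : Prop :=
  ∀ (a : ℕ) (x : Lp R.self.seq a a), StEq (ext x x) (stn a x) →
    StEq x (cstLp R.self.seq a a) ∨ StEq x (oneN R a)

/-- The homotopy groups of `R` in positive degrees vanish. -/
def PosZero (R : RSp) : Prop :=
  ∀ (a n : ℕ), n < a → ∀ x : Lp R.self.seq a n, StEq x (cstLp R.self.seq a n)

/-- The ring spectrum `R` is connective: the homotopy groups in negative degrees vanish. -/
def Connective (R : RSp) : Prop :=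
  ∀ (a n : ℕ), a < n → ∀ x : Lp R.self.seq a n, StEq x (cstLp R.self.seq a n)

end Pool.Agent.MP_d175a7_gt
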