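import Pool.Agent.Lib.MP_d175a7_gt.Spl
import Pool.Agent.Lib.MP_d175a7_gt.Cat
import Pool.Agent.Lib.MP_d175a7_gt.ExtD

/-!
# Detection data: ring homomorphisms from `π_0` to the dual numbers

Everything is written for functions on representatives (loops): a function on
`⨆ a, Ω^a P_a` which is invariant under homotopies and suspensions is a function on
`π_0 P = colim_a π_a (P_a)`.
-/

set_option autoImplicit false
set_option linter.unusedVariables false

namespace Pool.Agent.MP_d175a7_gt

open scoped Topology unitInterval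

variable {R : RSp}

/-- The external product on the right: for a loop `y ∈ Ω^a P_n` of a module and a loop
`x ∈ Ω^b R_m` of the ring the loop `(s, t) ↦ y(s) x(t) ∈ P_(n+m)`, where `y x` is `x y` with the two
blocks of coordinates exchanged. -/
noncomputable def extr {P : MSp R} {a n b m c l : ℕ} (hc : a + b = c) (hl : n + m = l)
    (y : Lp P.seq a n) (x : Lp R.self.seq b m) : Lp P.seq c l :=
  ⟨⟨fun t => P.act l (swp ((Nat.add_comm m n).trans hl) hl)
      (P.smul ((Nat.add_comm m n).trans hl) (x.1 (fun i => t ⟨a + i.1, by omega⟩))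
        (y.1 (fun i => t ⟨i.1, by omega⟩))),
    P.act_cont l (Fin c → I) (fun _ => swp ((Nat.add_comm m n).trans hl) hl) _ continuous_const
      (P.smul_cont _ (Fin c → I) (fun t => x.1 (fun i => t ⟨a + i.1, by omega⟩))
        (fun t => y.1 (fun i => t ⟨i.1, by omega⟩))
        (x.1.continuous.comp (continuous_pi fun i => continuous_apply _))
        (y.1.continuous.comp (continuous_pi fun i => continuous_apply _)))⟩, by
    rintro t ⟨i, hi⟩
    change P.act l _ (P.smul _ (x.1 _) (y.1 _)) = P.pt l
    by_cases h : i.1 < a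
    · have h1 : y.1 (fun i : Fin a => t ⟨i.1, by omega⟩) = P.pt n :=
        y.2 (fun i : Fin a => t ⟨i.1, by omega⟩) ⟨⟨i.1, h⟩, hi⟩
      rw [h1, P.smul_pt, P.act_pt]
    · have h1 : x.1 (fun i : Fin b => t ⟨a + i.1, by omega⟩) = R.pt m := by
        refine x.2 (fun i : Fin b => t ⟨a + i.1, by omega⟩) ⟨⟨i.1 - a, by omega⟩, ?_⟩
        have h2 : (⟨a + (i.1 - a), by omega⟩ : Fin c) = i := Fin.ext (by simp; omega)
        beta_reduce
        rw [h2]
        exact hi
      rw [h1, P.pt_smul, P.act_pt]⟩

/-- A ring homomorphism `π_0 R → k[ε]`: a function on loops which is invariant under homotopies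
and suspensions, additive, multiplicative and unital. -/
structure Det (R : RSp) (k : Type) [CommRing k] where
  /-- the function on representatives -/
  D : ∀ a, Lp R.self.seq a a → DualNumber k
  hty : ∀ {a : ℕ} {x y : Lp R.self.seq a a}, GenLoop.Homotopic x y → D a x = D a y
  st : ∀ {a : ℕ} (x : Lp R.self.seq a a), D (a + 1) (st x) = D a x
  add : ∀ {a : ℕ} (x y : Lp R.self.seq (a + 1) (a + 1)),
    D (a + 1) (GenLoop.transAt 0 x y) = D (a + 1) x + D (a + 1) y
  mul : ∀ {a b : ℕ} (x : Lp R.self.seq a a) (y : Lp R.self.seq b b),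
    D (a + b) (ext x y) = D a x * D b y
  one : D 0 (oneLp R) = 1

variable {k : Type} [CommRing k]

/-- The module `Hom_(π_0 R) (π_0 P, k[ε])`, as functions on representatives.  (The action of `R` is
put on the right, opposite to the suspensions.) -/
noncomputable def VV (D : Det R k) (P : MSp R) :
    Submodule (DualNumber k) (∀ a, Lp P.seq a a → DualNumber k) where
  carrier := {f | (∀ (a : ℕ) (x y : Lp P.seq a a), GenLoop.Homotopic x y → f a x = f a y) ∧
    (∀ (a : ℕ) (x : Lp P.seq a a), f (a + 1) (st x) = f a x) ∧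
    (∀ (a : ℕ) (x y : Lp P.seq (a + 1) (a + 1)),
      f (a + 1) (GenLoop.transAt 0 x y) = f (a + 1) x + f (a + 1) y) ∧
    ∀ (a b c : ℕ) (h : a + b = c) (y : Lp P.seq a a) (x : Lp R.self.seq b b),
      f c (extr h h y x) = f a y * D.D b x}
  add_mem' {f g} hf hg := by
    refine ⟨fun a x y h => ?_, fun a x => ?_, fun a x y => ?_, fun a b c h y x => ?_⟩
    · change f a x + g a x = f a y + g a y
      rw [hf.1 a x y h, hg.1 a x y h]
    · change f (a + 1) (Pool.Agent.MP_d175a7_gt.st x) +
        g (a + 1) (Pool.Agent.MP_d175a7_gt.st x) = f a x + g a x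
      rw [hf.2.1 a x, hg.2.1 a x]
    · change f (a + 1) (GenLoop.transAt 0 x y) + g (a + 1) (GenLoop.transAt 0 x y) =
        f (a + 1) x + g (a + 1) x + (f (a + 1) y + g (a + 1) y)
      rw [hf.2.2.1 a x y, hg.2.2.1 a x y]; abel
    · change f c (extr h h y x) + g c (extr h h y x) = (f a y + g a y) * D.D b x
      rw [hf.2.2.2 a b c h y x, hg.2.2.2 a b c h y x]; ring
  zero_mem' := by
    refine ⟨fun a x y h => rfl, fun a x => rfl, fun a x y => ?_, fun a b c h y x => ?_⟩
    · exact (add_zero (0 : DualNumber k)).symm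
    · exact (zero_mul (D.D b x)).symm
  smul_mem' c f hf := by
    refine ⟨fun a x y h => ?_, fun a x => ?_, fun a x y => ?_, fun a b e h y x => ?_⟩
    · change c * f a x = c * f a y
      rw [hf.1 a x y h]
    · change c * f (a + 1) (Pool.Agent.MP_d175a7_gt.st x) = c * f a x
      rw [hf.2.1 a x]
    · change c * f (a + 1) (GenLoop.transAt 0 x y) = c * f (a + 1) x + c * f (a + 1) y
      rw [hf.2.2.1 a x y]; ring
    · change c * f e (extr h h y x) = c * f a y * D.D b x
      rw [hf.2.2.2 a b e h y x]; ring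

/-- The value of an element of `VV D P` on a loop. -/
def vev {D : Det R k} {P : MSp R} (f : VV D P) {a : ℕ} (x : Lp P.seq a a) : DualNumber k :=
  f.1 a x

theorem vev_hty {D : Det R k} {P : MSp R} (f : VV D P) {a : ℕ} {x y : Lp P.seq a a}
    (h : GenLoop.Homotopic x y) : vev f x = vev f y := f.2.1 a x y h

theorem vev_st {D : Det R k} {P : MSp R} (f : VV D P) {a : ℕ} (x : Lp P.seq a a) :
    vev f (st x) = vev f x := f.2.2.1 a x

theorem vev_stn {D : Det R k} {P : MSp R} (f : VV D P) {a : ℕ} (x : Lp P.seq a a) (j : ℕ) :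
    vev f (stn j x) = vev f x := by
  induction j with
  | zero => rfl
  | succ j ih => exact (vev_st f (stn j x)).trans ih

theorem vev_transAt {D : Det R k} {P : MSp R} (f : VV D P) {a : ℕ}
    (x y : Lp P.seq (a + 1) (a + 1)) :
    vev f (GenLoop.transAt 0 x y) = vev f x + vev f y := f.2.2.2.1 a x y

theorem vev_extr {D : Det R k} {P : MSp R} (f : VV D P) {a b c : ℕ} (h : a + b = c)
    (y : Lp P.seq a a) (x : Lp R.self.seq b b) :
    vev f (extr h h y x) = vev f y * D.D b x := f.2.2.2.2 a b c h y x

theorem VV_ext {D : Det R k} {P : MSp R} {f g : VV D P}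
    (h : ∀ a (x : Lp P.seq a a), vev f x = vev g x) : f = g :=
  Subtype.ext (funext fun a => funext fun x => h a x)

theorem vev_add {D : Det R k} {P : MSp R} (f g : VV D P) {a : ℕ} (x : Lp P.seq a a) :
    vev (f + g) x = vev f x + vev g x := rfl

theorem vev_zero {D : Det R k} {P : MSp R} {a : ℕ} (x : Lp P.seq a a) :
    vev (0 : VV D P) x = 0 := rfl

theorem vev_smul {D : Det R k} {P : MSp R} (c : DualNumber k) (f : VV D P) {a : ℕ}
    (x : Lp P.seq a a) : vev (c • f) x = c * vev f x := rfl

theorem lp_extr {P Q : MSp R} (F : MHom P Q) {a n b m c l : ℕ} (hc : a + b = c)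
    (hl : n + m = l) (y : Lp P.seq a n) (x : Lp R.self.seq b m) :
    F.sh.lp (extr hc hl y x) = extr hc hl (F.sh.lp y) x := by
  apply Subtype.ext
  apply ContinuousMap.ext
  intro t
  change F.f l (P.act l _ (P.smul _ _ _)) = Q.act l _ (Q.smul _ _ (F.f n _))
  rw [F.act, F.smul]

/-- For the ring itself the right product is the product `(s, t) ↦ y(s) x(t)`. -/
theorem extr_self {a n b m : ℕ} (y : Lp R.self.seq a n) (x : Lp R.self.seq b m) :
    extr rfl rfl y x = ext y x := by
  apply Subtype.ext
  apply ContinuousMap.ext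
  intro t
  exact (R.mul_comm _ rfl _ _).symm

/-- The map `VV D Q → VV D P` induced by a homomorphism `P → Q`. -/
noncomputable def vmap (D : Det R k) {P Q : MSp R} (F : MHom P Q) :
    VV D Q →ₗ[DualNumber k] VV D P where
  toFun f := ⟨fun a x => f.1 a (F.sh.lp x), by
    refine ⟨fun a x y h => ?_, fun a x => ?_, fun a x y => ?_, fun a b c h y x => ?_⟩
    · exact f.2.1 a _ _ (lp_homotopic F.sh h)
    · beta_reduce
      rw [SHom.lp_st]; exact f.2.2.1 a _
    · beta_reduce
      rw [lp_transAt]; exact f.2.2.2.1 a _ _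
    · beta_reduce
      rw [lp_extr]; exact f.2.2.2.2 a b c h _ x⟩
  map_add' f g := rfl
  map_smul' c f := rfl

theorem vev_vmap {D : Det R k} {P Q : MSp R} (F : MHom P Q) (f : VV D Q) {a : ℕ}
    (x : Lp P.seq a a) : vev (vmap D F f) x = vev f (F.sh.lp x) := rfl

theorem vmap_id (D : Det R k) (P : MSp R) (f : VV D P) : vmap D (MHom.id P) f = f := rfl

theorem vmap_comp (D : Det R k) {P Q S : MSp R} (F : MHom P Q) (G : MHom Q S) (f : VV D S) :
    vmap D (F.comp G) f = vmap D F (vmap D G f) := rfl

end Pool.Agent.MP_d175a7_gt
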