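import Pool.Agent.Lib.MP_d175a7_gt.BfH
import Pool.Agent.Lib.MP_d175a7_gt.Det

/-!
# The detection of the ring `B`

For a ring homomorphism `Q : π_0 e → Λ`, `Λ` flat over `Z/p²`, the ring homomorphism
`π_0 B → (Λ/p)[ε]`, `w ↦ Q(w_o) + ε ∑_i (Q(w_i) - Q(w_o)) / p`.
-/

set_option autoImplicit false
set_option linter.unusedVariables false

namespace Pool.Agent.MP_d175a7_gt

open scoped Topology unitInterval

theorem RCh.cst {R : RSp} {Λ : Type} [CommRing Λ] (Q : RCh R Λ) (a : ℕ) :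
    Q.Q a (cstLp R.self.seq a a) = 0 := by
  have h1 : ∀ a, Q.Q (a + 1) (cstLp R.self.seq (a + 1) (a + 1)) = 0 := by
    intro a
    have h2 := Q.add (cstLp R.self.seq (a + 1) (a + 1)) (cstLp R.self.seq (a + 1) (a + 1))
    rw [Q.hty (transAt_cst _)] at h2
    have h3 := h2.symm
    rwa [add_eq_left] at h3
  cases a with
  | succ a => exact h1 a
  | zero =>
    rw [← Q.st, ← h1 0]
    congr 1
    apply Subtype.ext
    apply ContinuousMap.ext
    intro t
    exact R.self.seq.sus_pt 0 _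

section Alg

variable (p : ℕ) (Λ : Type) [CommRing Λ]

/-- `p y ↦ y` from `pΛ` to `Λ/p` (and zero outside of `pΛ`). -/
noncomputable def lamQ (z : Λ) : ResP p Λ :=
  open scoped Classical in
  if h : ∃ y, z = p * y then Ideal.Quotient.mk _ h.choose else 0

variable {p Λ}

theorem lamQ_mul (hf : ∀ x : Λ, (p : Λ) * x = 0 → ∃ y, x = p * y) (y : Λ) :
    lamQ p Λ (p * y) = Ideal.Quotient.mk _ y := by
  have h : ∃ y', (p : Λ) * y = p * y' := ⟨y, rfl⟩
  rw [lamQ, dif_pos h]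
  rw [Ideal.Quotient.eq, Ideal.mem_span_singleton']
  obtain ⟨z, hz⟩ := hf (h.choose - y) (by rw [mul_sub, ← h.choose_spec, sub_self])
  exact ⟨z, by rw [hz, mul_comm]⟩

/-- `(x_i) ↦ x_o + ε ∑_i (x_i - x_o) / p`. -/
noncomputable def psiB {f : ℕ} (o : Fin f) (x : Fin f → Λ) : DualNumber (ResP p Λ) :=
  (Ideal.Quotient.mk _ (x o), ∑ i, lamQ p Λ (x i - x o))

theorem psiB_add (hf : ∀ x : Λ, (p : Λ) * x = 0 → ∃ y, x = p * y) {f : ℕ} (o : Fin f)
    (x x' : Fin f → Λ) (hx : ∀ i, ∃ y, x i - x o = p * y) (hx' : ∀ i, ∃ y, x' i - x' o = p * y) :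
    psiB o (fun i => x i + x' i) = (psiB o x : DualNumber (ResP p Λ)) + psiB o x' := by
  choose y hy using hx
  choose y' hy' using hx'
  refine Prod.ext (map_add _ _ _) ?_
  change ∑ i, lamQ p Λ (x i + x' i - (x o + x' o)) =
    ∑ i, lamQ p Λ (x i - x o) + ∑ i, lamQ p Λ (x' i - x' o)
  rw [← Finset.sum_add_distrib]
  refine Finset.sum_congr rfl fun i _ => ?_
  have h1 : x i + x' i - (x o + x' o) = p * (y i + y' i) := by
    rw [mul_add, ← hy, ← hy']; ring
  rw [h1, hy, hy', lamQ_mul hf, lamQ_mul hf, lamQ_mul hf, map_add]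

theorem psiB_mul (hf : ∀ x : Λ, (p : Λ) * x = 0 → ∃ y, x = p * y) (hp : (p : Λ) ^ 2 = 0)
    {f : ℕ} (o : Fin f)
    (x x' : Fin f → Λ) (hx : ∀ i, ∃ y, x i - x o = p * y) (hx' : ∀ i, ∃ y, x' i - x' o = p * y) :
    psiB o (fun i => x i * x' i) = (psiB o x : DualNumber (ResP p Λ)) * psiB o x' := by
  choose y hy using hx
  choose y' hy' using hx'
  refine Prod.ext (map_mul _ _ _) ?_
  change ∑ i, lamQ p Λ (x i * x' i - x o * x' o) =
    Ideal.Quotient.mk _ (x o) * ∑ i, lamQ p Λ (x' i - x' o) +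
      (∑ i, lamQ p Λ (x i - x o)) * Ideal.Quotient.mk _ (x' o)
  rw [Finset.mul_sum, Finset.sum_mul, ← Finset.sum_add_distrib]
  refine Finset.sum_congr rfl fun i _ => ?_
  have h1 : x i * x' i - x o * x' o = p * (x o * y' i + y i * x' o) := by
    have h2 : x i = x o + p * y i := by rw [← hy]; ring
    have h3 : x' i = x' o + p * y' i := by rw [← hy']; ring
    rw [h2, h3]
    linear_combination (y i * y' i) * hp
  rw [h1, hy, hy', lamQ_mul hf, lamQ_mul hf, lamQ_mul hf, map_add, map_mul, map_mul]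

theorem psiB_one {f : ℕ} (o : Fin f) (hf : ∀ x : Λ, (p : Λ) * x = 0 → ∃ y, x = p * y) :
    psiB o (fun _ => (1 : Λ)) = (1 : DualNumber (ResP p Λ)) := by
  refine Prod.ext (map_one _) ?_
  change ∑ i : Fin f, lamQ p Λ (1 - 1) = 0
  have h1 : lamQ p Λ (1 - 1) = 0 := by
    have h2 := lamQ_mul hf 0
    rwa [mul_zero, map_zero, ← sub_self (1 : Λ)] at h2
  rw [h1, Finset.sum_const_zero]

/-- `(0, .., p, .., 0) ↦ ε`. -/
theorem psiB_single {f : ℕ} (o a : Fin f) (ha : o ≠ a)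
    (hf : ∀ x : Λ, (p : Λ) * x = 0 → ∃ y, x = p * y) :
    psiB o (fun i => open scoped Classical in if i = a then (p : Λ) else 0) =
      (DualNumber.eps : DualNumber (ResP p Λ)) := by
  classical
  have h0 : lamQ p Λ 0 = 0 := by
    have h2 := lamQ_mul hf 0
    rwa [mul_zero, map_zero] at h2
  have h1 : lamQ p Λ p = 1 := by
    have h2 := lamQ_mul hf 1
    rwa [mul_one, map_one] at h2
  refine Prod.ext ?_ ?_
  · change Ideal.Quotient.mk _ (if o = a then (p : Λ) else 0) = 0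
    rw [if_neg ha, map_zero]
  · change ∑ i, lamQ p Λ ((if i = a then (p : Λ) else 0) - (if o = a then (p : Λ) else 0)) = 1
    rw [if_neg ha, Finset.sum_eq_single a, if_pos rfl, sub_zero, h1]
    · intro i _ hi
      rw [if_neg hi, sub_zero, h0]
    · intro h
      exact absurd (Finset.mem_univ a) h

end Alg

variable {e H : RSp} (ρ : RHom e H) {f : ℕ}

/-- The projection to a slot, as a map of sequential spectra. -/
noncomputable def slH (i : Fin f) : SHom (Bf e H ρ f).self.seq e.self.seq where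
  f n x := x.1 i
  cont n T _ _ _ g hg := (continuous_apply i).comp (continuous_subtype_val.comp hg)
  pt n := rfl
  sus n s x := rfl

variable {Λ : Type} [CommRing Λ] {p : ℕ}

/-- The ring homomorphism `π_0 B → (Λ/p)[ε]`. -/
noncomputable def BfDet (Q : RCh e Λ) (o : Fin f)
    (hf : ∀ x : Λ, (p : Λ) * x = 0 → ∃ y, x = p * y) (hp : (p : Λ) ^ 2 = 0)
    (hQ : ∀ (a : ℕ) (x y : Lp e.self.seq a a), (∀ t, ρ.f a (x.1 t) = ρ.f a (y.1 t)) →
      ∃ z, Q.Q a x - Q.Q a y = p * z) : Det (Bf e H ρ f) (ResP p Λ) where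
  D a w := psiB o (fun i => Q.Q a ((slH ρ i).lp w))
  hty {a x y} h := by
    have h1 : ∀ i, Q.Q a ((slH ρ i).lp x) = Q.Q a ((slH ρ i).lp y) := fun i =>
      Q.hty (lp_homotopic (slH ρ i) h)
    simp only [h1]
  st {a} x := by
    have h1 : ∀ i, Q.Q (a + 1) ((slH ρ i).lp (Pool.Agent.MP_d175a7_gt.st x)) =
        Q.Q a ((slH ρ i).lp x) := fun i => by
      rw [SHom.lp_st, Q.st]
    simp only [h1]
  add {a} x y := by
    have h1 : ∀ i, Q.Q (a + 1) ((slH ρ i).lp (GenLoop.transAt 0 x y)) =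
        Q.Q (a + 1) ((slH ρ i).lp x) + Q.Q (a + 1) ((slH ρ i).lp y) := fun i => by
      rw [lp_transAt, Q.add]
    simp only [h1]
    exact psiB_add hf o _ _ (fun i => hQ _ _ _ fun t => (x.1 t).2 i o)
      (fun i => hQ _ _ _ fun t => (y.1 t).2 i o)
  mul {a b} x y := by
    have h1 : ∀ i, Q.Q (a + b) ((slH ρ i).lp (ext x y)) =
        Q.Q a ((slH ρ i).lp x) * Q.Q b ((slH ρ i).lp y) := fun i => by
      rw [← Q.mul]
      rfl
    simp only [h1]
    exact psiB_mul hf hp o _ _ (fun i => hQ _ _ _ fun t => (x.1 t).2 i o)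
      (fun i => hQ _ _ _ fun t => (y.1 t).2 i o)
  one := by
    have h1 : ∀ i, Q.Q 0 ((slH ρ i).lp (oneLp (Bf e H ρ f))) = 1 := fun i => by
      rw [← Q.one]
      rfl
    simp only [h1]
    exact psiB_one o hf

/-- `D(t_a) = ε`. -/
theorem BfDet_tLp (Q : RCh e Λ) (o : Fin f)
    (hf : ∀ x : Λ, (p : Λ) * x = 0 → ∃ y, x = p * y) (hp : (p : Λ) ^ 2 = 0)
    (hQ : ∀ (a : ℕ) (x y : Lp e.self.seq a a), (∀ t, ρ.f a (x.1 t) = ρ.f a (y.1 t)) →
      ∃ z, Q.Q a x - Q.Q a y = p * z) {v : ℕ} (g : C(Sph v, e.X v))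
    (hg : g OnePoint.infty = e.pt v) (hρ : ∀ u, ρ.f v (g u) = H.pt v)
    (hgp : Q.Q v (sphLp e.self g hg) = p) (a : Fin f) (ha : o ≠ a) :
    (BfDet ρ Q o hf hp hQ).D v (tLp ρ g hg hρ a) = DualNumber.eps := by
  have h1 : ∀ i, Q.Q v ((slH ρ i).lp (tLp ρ g hg hρ a)) =
      open scoped Classical in if i = a then (p : Λ) else 0 := by
    intro i
    by_cases hi : i = a
    · rw [if_pos hi, ← hgp]
      congr 1
      apply Subtype.ext
      apply ContinuousMap.ext
      intro t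
      exact if_pos hi
    · rw [if_neg hi, ← Q.cst v]
      congr 1
      apply Subtype.ext
      apply ContinuousMap.ext
      intro t
      exact if_neg hi
  change psiB o (fun i => Q.Q v ((slH ρ i).lp (tLp ρ g hg hρ a))) = _
  simp only [h1]
  exact psiB_single o a ha hf

end Pool.Agent.MP_d175a7_gt
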