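import Pool.Agent.Lib.MP_d175a7_gt.LamV

/-! # Loops given by maps from spheres, the unit loops -/

set_option autoImplicit false
set_option linter.unusedVariables false

namespace Pool.Agent.MP_d175a7_gt

open scoped Topology unitInterval

variable {R : RSp}

/-- The loop given by a based map `S^v → P_n`, as a map. -/
noncomputable abbrev sphf (P : MSp R) {v n : ℕ} (g : C(Sph v, P.X n)) (t : Fin v → I) : P.X n :=
  g (lamv v t)

theorem sphf_cont (P : MSp R) {v n : ℕ} (g : C(Sph v, P.X n)) : Continuous (sphf P g) :=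
  g.continuous.comp (lamv_cont v)

theorem sphf_bd (P : MSp R) {v n : ℕ} (g : C(Sph v, P.X n)) (hg : g OnePoint.infty = P.pt n) :
    ∀ t ∈ Cube.boundary (Fin v), sphf P g t = P.pt n := by
  intro t ht
  change g (lamv v t) = P.pt n
  rw [lamv_boundary v t ht, hg]

/-- The loop `I^v → S^v → P_n` given by a based map `S^v → P_n`. -/
noncomputable def sphLp (P : MSp R) {v n : ℕ} (g : C(Sph v, P.X n))
    (hg : g OnePoint.infty = P.pt n) : Lp P.seq v n :=
  mkLp (P := P.seq) (sphf P g) (sphf_cont P g) (sphf_bd P g hg)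

/-- The `v`-fold suspended unit: the loop `I^v → S^v → R_v`. -/
noncomputable def unitLp (R : RSp) (v : ℕ) : Lp R.self.seq v v :=
  sphLp R.self ⟨R.unit v, R.unit_cont v⟩ (R.unit_pt v)

end Pool.Agent.MP_d175a7_gt
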