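import Pool.Agent.Lib.MP_d175a7_gt.Bf
import Pool.Agent.Lib.MP_d175a7_gt.UnLp

/-!
# The class of the homomorphism `alf` on `π_0`

`alf β a` sends the image of `1` in `Zf β` to the image of `t_a` in `Zf a`, where `t_a` is `g` in
the slot `a` and trivial in the other slots.
-/

set_option autoImplicit false
set_option linter.unusedVariables false

namespace Pool.Agent.MP_d175a7_gt

open scoped Topology unitInterval

variable {e H : RSp} (ρ : RHom e H) {f : ℕ}

/-- `g` in the slot `a`, trivial in the other slots. -/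
noncomputable def tmp1 {v : ℕ} (g : C(Sph v, e.X v)) (hρ : ∀ u, ρ.f v (g u) = H.pt v)
    (a : Fin f) : C(Sph v, (Bf e H ρ f).self.X v) :=
  ⟨fun u => ⟨fun i => open scoped Classical in if i = a then g u else e.pt v, fun i j => by
    have h1 : ∀ i, ρ.f v (open scoped Classical in if i = a then g u else e.pt v) = H.pt v := by
      intro i
      split_ifs
      · exact hρ u
      · exact ρ.pt v
    exact (h1 i).trans (h1 j).symm⟩, by
    refine Continuous.subtype_mk (continuous_pi fun i => ?_) _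
    by_cases hi : i = a
    · simp only [if_pos hi]; exact g.continuous
    · simp only [if_neg hi]; exact continuous_const⟩

/-- The loop `t_a` in `B`. -/
noncomputable def tLp {v : ℕ} (g : C(Sph v, e.X v)) (hg : g OnePoint.infty = e.pt v)
    (hρ : ∀ u, ρ.f v (g u) = H.pt v) (a : Fin f) : Lp (Bf e H ρ f).self.seq v v :=
  sphLp (Bf e H ρ f).self (tmp1 ρ g hρ a) (Subtype.ext (funext fun i => by
    change (open scoped Classical in if i = a then g OnePoint.infty else e.pt v) = e.pt v
    split_ifs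
    · exact hg
    · rfl))

theorem jv_zero {n : ℕ} (h : 0 + n = n) (x : Fin 0 → ℝ) (y : Fin n → ℝ) : jv h x y = y := by
  funext i
  have h1 : i = sumFin h (Sum.inr i) := Fin.ext (by rw [sumFin_inr]; omega)
  conv_lhs => rw [h1]
  exact jv_inr h x y i

theorem blk_zero {n k : ℕ} (h : 0 + n = k) (h' : n = k) (A : Ort n) (B : Ort k)
    (hAB : HEq A B) : blk h 1 A = B := by
  subst h'
  rw [← eq_of_heq hAB]
  refine ort_ext_jv h fun x y => ?_
  rw [blk_mulVec, jv_zero, jv_zero]

variable {v : ℕ} (g : C(Sph v, e.X v)) (hg : g OnePoint.infty = e.pt v)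
  (hρ : ∀ u, ρ.f v (g u) = H.pt v) (a o : Fin f)

include hg in
theorem Hz_cont (T : Type) [TopologicalSpace T] [CompactSpace T] [T2Space T] (θ : T → I)
    (hθ : Continuous θ) (z : T → Sph (v + v)) (hz : Continuous z) :
    Continuous fun t => Gr (e.self.res (Bf.pr ρ a)) (Nat.zero_add v) (θ t) g (z t) :=
  Gr_cont (e.self.res (Bf.pr ρ a)) (Nat.zero_add v) θ hθ (fun _ => g) continuous_const
    (fun _ => hg) z hz

/-- The homotopy `(z, u) ↦ g(z) u ~ z g(u)`. -/
noncomputable def Hz (θ : I) (z : Sph v) : (Zf ρ v a o).X v :=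
  ⟨((Cb ρ a).pt v, ⟨fun u => Gr (e.self.res (Bf.pr ρ a)) (Nat.zero_add v) θ g (sm rfl z u), by
      have h2 : Continuous fun u' : Sph v => (z, u') := continuous_const.prodMk continuous_id
      have h3 := (sm_cont (rfl : v + v = v + v)).comp h2
      exact Hz_cont ρ g hg a (Sph v) (fun _ => θ) continuous_const _ h3⟩), by
    change Gr (e.self.res (Bf.pr ρ a)) (Nat.zero_add v) θ g (sm rfl z OnePoint.infty) = _
    rw [sm_infty, Gr_infty], by
    intro u
    change rm (H.self.res (Bf.aug ρ o)) rfl ((kap ρ a o).f v ((Cb ρ a).pt v)) u =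
      (rhb ρ a o).f (v + v)
        (Gr (e.self.res (Bf.pr ρ a)) (Nat.zero_add v) θ g (sm rfl z u))
    have h5 := Gr_rm (H.self.res (Bf.aug ρ o)) (Nat.zero_add v) θ
      (fun u => (rhb ρ a o).f v (g u)) ((H.self.res (Bf.aug ρ o)).pt 0) (fun u => (hρ u).trans
        (rm_pt (H.self.res (Bf.aug ρ o)) _ u).symm) (sm rfl z u)
    rw [(kap ρ a o).pt, rm_pt, map_Gr]
    exact (h5.trans (rm_pt (H.self.res (Bf.aug ρ o)) _ _)).symm⟩

theorem Hz_infty (θ : I) : Hz ρ g hg hρ a o θ OnePoint.infty = (Zf ρ v a o).pt v := by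
  refine Subtype.ext (Prod.ext rfl (ContinuousMap.ext fun u => ?_))
  change Gr (e.self.res (Bf.pr ρ a)) (Nat.zero_add v) θ g (sm rfl OnePoint.infty u) = e.pt (v + v)
  rw [infty_sm, Gr_infty]
  rfl

theorem zin_tLp (β : Fin f) (ha : o ≠ a) (hβ : o ≠ β) (hab : a ≠ β) :
    GenLoop.Homotopic ((zin ρ v a o ha).sh.lp (tLp ρ g hg hρ a))
      ((alf ρ g hg hρ β a o).sh.lp ((zin ρ v β o hβ).sh.lp (unitLp (Bf e H ρ f) v))) := by
  refine homotopic_of (P := (Zf ρ v a o).seq)
    (fun s t => Hz ρ g hg hρ a o s (lamv v t)) ?_ ?_ ?_ ?_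
  · refine Continuous.subtype_mk (continuous_const.prodMk (curry_cont _ ?_)) _
    have h3 : Continuous fun q : (I × (Fin v → I)) × Sph v => (lamv v q.1.2, q.2) :=
      ((lamv_cont v).comp (continuous_snd.comp continuous_fst)).prodMk continuous_snd
    have h4 := (sm_cont (rfl : v + v = v + v)).comp h3
    exact Hz_cont ρ g hg a ((I × (Fin v → I)) × Sph v) (fun q => q.1.1)
      (continuous_fst.comp continuous_fst) _ h4
  · intro t
    refine Subtype.ext (Prod.ext (Subtype.ext (funext fun i => ?_)) (ContinuousMap.ext fun u => ?_))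
    · change e.pt v = Function.update (fun i => open scoped Classical in
        if i = a then g (lamv v t) else e.pt v) a (e.pt v) i
      by_cases hi : i = a
      · subst hi; rw [Function.update_self]
      · rw [Function.update_of_ne hi, if_neg hi]
    · change Gr (e.self.res (Bf.pr ρ a)) (Nat.zero_add v) 0 g (sm rfl (lamv v t) u) =
        rm (e.self.res (Bf.pr ρ a)) rfl (open scoped Classical in
          if a = a then g (lamv v t) else e.pt v) u
      rw [Gr_zero (e.self.res (Bf.pr ρ a)) (Nat.zero_add v) g hg, if_pos rfl]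
  · intro t
    refine Subtype.ext (Prod.ext rfl (ContinuousMap.ext fun u => ?_))
    change Gr (e.self.res (Bf.pr ρ a)) (Nat.zero_add v) 1 g (sm rfl (lamv v t) u) =
      e.mul rfl (Function.update (fun _ => e.unit v (lamv v t)) β (e.pt v) a) (g u)
    rw [Gr_one (e.self.res (Bf.pr ρ a)) (Nat.zero_add v) g hg, Function.update_of_ne hab,
      blk_zero (hvv (Nat.zero_add v)) rfl (swp rfl rfl) (swp rfl rfl) HEq.rfl]
    exact (smul_unit (e.self.res (Bf.pr ρ a)) rfl rfl (g u) (lamv v t)).symm
  · intro s t ht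
    change Hz ρ g hg hρ a o s (lamv v t) = (Zf ρ v a o).pt v
    rw [lamv_boundary v t ht, Hz_infty]

end Pool.Agent.MP_d175a7_gt
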