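import Pool.Agent.Lib.MP_d175a7_gt.CyF
import Pool.Agent.Lib.MP_d175a7_gt.UnLp

/-! # Cyclic families of modules weakly equivalent to the ring -/

set_option autoImplicit false
set_option linter.unusedVariables false

namespace Pool.Agent.MP_d175a7_gt

open scoped Topology unitInterval

variable {R : RSp} {k : Type} [CommRing k] {m : ℕ}

/-- The unit loops are the suspensions of the unit. -/
theorem st_unitLp (R : RSp) (v : ℕ) : st (unitLp R v) = unitLp R (v + 1) := by
  apply Subtype.ext
  apply ContinuousMap.ext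
  intro t
  exact R.unit_mul (Nat.add_comm 1 v) (lam (t 0)) (lamv v (fun i => t i.succ))

/-- The data for a cyclic family of modules weakly equivalent to the ring: weak equivalences
`io : R → Z_a`, homomorphisms `al : Z_(a-1) → Z_a` with trivial composites, and elements `t_a` of
`π_0 R` with `D t_a = ε` and `al (io 1) = io (t_a)` in `π_0`. -/
structure SelfDat (D : Det R k) (m : ℕ) : Type 1 where
  /-- the modules -/
  Z : Fin m → MSp R
  /-- the weak equivalences -/
  io : ∀ a, MHom R.self (Z a)
  hio : ∀ a, (io a).IsWeq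
  /-- the homomorphisms -/
  al : ∀ a, MHom (Z (prv a)) (Z a)
  comp : ∀ a n x, (al a).f n ((al (prv a)).f n x) = (Z a).pt n
  /-- the level of the loops -/
  v : ℕ
  /-- the loops -/
  t : ∀ a : Fin m, Lp R.self.seq v v
  ht : ∀ a, D.D v (t a) = DualNumber.eps
  hal : ∀ a, StEq ((io a).sh.lp (t a)) ((al a).sh.lp ((io (prv a)).sh.lp (unitLp R v)))

/-- The homomorphism `R^1 → Z` given by `R → Z`. -/
def oneM {Z : MSp R} (f : MHom R.self Z) : MHom (free R 1) Z where
  f n z := f.f n (z 0)
  cont n T _ _ _ g hg := f.cont n T (fun t => g t 0) ((continuous_apply 0).comp hg)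
  pt n := f.pt n
  act n A x := f.act n A _
  smul h r x := f.smul h r _

/-- The projection `R^1 → R`. -/
def oneP (R : RSp) : MHom (free R 1) R.self := oneM (MHom.id R.self)

/-- The inclusion `R → R^1`. -/
def oneQ (R : RSp) : MHom R.self (free R 1) where
  f n z := fun _ => z
  cont n T _ _ _ g hg := continuous_pi fun _ => hg
  pt n := rfl
  act n A x := rfl
  smul h r x := rfl

theorem oneP_isWeq (R : RSp) : (oneP R).IsWeq :=
  isWeq_of_inv _ (oneQ R).sh (fun n x => funext fun i => by
    change x 0 = x i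
    rw [Subsingleton.elim i 0]) (fun n y => rfl)

theorem oneM_isWeq {Z : MSp R} {f : MHom R.self Z} (hf : f.IsWeq) : (oneM f).IsWeq :=
  MHom.isWeq_comp (oneP_isWeq R) hf

theorem vev_unitLp {D : Det R k} (f : VV D R.self) (v : ℕ) :
    vev f (unitLp R v) = vev f (oneLp R) := by
  induction v with
  | zero => rfl
  | succ v ih =>
    rw [← st_unitLp]
    exact (vev_st f (unitLp R v)).trans ih

/-- The cyclic data. -/
noncomputable def SelfDat.cyc {D : Det R k} (Y : SelfDat D m) :
    CycDat D m 1 (fun _ _ => 1) where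
  F a :=
    { P := Y.Z a
      P' := free R 1
      P'' := Y.Z a
      α := MHom.id _
      β := oneM (Y.io a)
      γ := MHom.id _
      hα := MHom.isWeq_id _
      hβ := oneM_isWeq (Y.hio a)
      hγ := MHom.isWeq_id _ }
  al := Y.al
  comp := Y.comp
  b a := (LinearEquiv.funUnique (Fin 1) (DualNumber k) (DualNumber k)).trans
    ((VVself D).symm.trans (veq D (Y.io a) (Y.hio a)).symm)
  rel a j := by
    apply vmap_inj D (Y.io (prv a)) (Y.hio (prv a))
    apply (VVself D).injective
    have hj : j = 0 := Subsingleton.elim j 0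
    subst hj
    have hb : ∀ b : Fin m, vmap D (Y.io b)
        ((veq D (Y.io b) (Y.hio b)).symm ((VVself D).symm 1)) = vgen D := by
      intro b
      rw [← veq_apply D (Y.io b) (Y.hio b), LinearEquiv.apply_symm_apply]
      change (1 : DualNumber k) • vgen D = vgen D
      exact one_smul (DualNumber k) (vgen D)
    have h1 : ∀ b : Fin m, ((LinearEquiv.funUnique (Fin 1) (DualNumber k) (DualNumber k)).trans
        ((VVself D).symm.trans (veq D (Y.io b) (Y.hio b)).symm)) (Pi.single 0 1) =
        (veq D (Y.io b) (Y.hio b)).symm ((VVself D).symm 1) := by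
      intro b
      change (veq D (Y.io b) (Y.hio b)).symm ((VVself D).symm
        ((Pi.single 0 1 : Fin 1 → DualNumber k) default)) = _
      rw [show (default : Fin 1) = 0 from rfl, Pi.single_eq_same]
    rw [h1, h1, map_smul, hb]
    change vev ((veq D (Y.io a) (Y.hio a)).symm ((VVself D).symm 1))
      ((Y.al a).sh.lp ((Y.io (prv a)).sh.lp (oneLp R))) = _
    have h2 : vev (vmap D (Y.io (prv a)) (vmap D (Y.al a)
        ((veq D (Y.io a) (Y.hio a)).symm ((VVself D).symm 1)))) (oneLp R) =
        vev (vmap D (Y.io (prv a)) (vmap D (Y.al a)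
        ((veq D (Y.io a) (Y.hio a)).symm ((VVself D).symm 1)))) (unitLp R Y.v) :=
      (vev_unitLp _ _).symm
    refine h2.trans ?_
    change vev ((veq D (Y.io a) (Y.hio a)).symm ((VVself D).symm 1))
      ((Y.al a).sh.lp ((Y.io (prv a)).sh.lp (unitLp R Y.v))) = _
    rw [← vev_stEq _ (Y.hal a)]
    change vev (vmap D (Y.io a) ((veq D (Y.io a) (Y.hio a)).symm ((VVself D).symm 1))) (Y.t a) = _
    rw [hb]
    change D.D Y.v (Y.t a) = (TrivSqZeroExt.inr (1 : k) : DualNumber k) • VVself D (vgen D)
    rw [Y.ht]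
    change DualNumber.eps = (TrivSqZeroExt.inr (1 : k) : DualNumber k) * D.D 0 (oneLp R)
    rw [D.one, mul_one]
    rfl

end Pool.Agent.MP_d175a7_gt
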