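import Pool.Agent.Lib.MP_d175a7_gt.BfD
import Pool.Agent.Lib.MP_d175a7_gt.BfCol
import Pool.Agent.Lib.MP_d175a7_gt.CySelf

/-! # The cyclic data of the ring `B` -/

set_option autoImplicit false
set_option linter.unusedVariables false

namespace Pool.Agent.MP_d175a7_gt

open scoped Topology unitInterval

variable {e H : RSp} (ρ : RHom e H) {f : ℕ} {Λ : Type} [CommRing Λ] {p : ℕ}

/-- The cyclic data of the ring `B` given by a class `g` of the kernel of `π_0 e → π_0 H` with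
`Q g = p` and a proper colouring of the cycle by slots different from `o`. -/
noncomputable def BfSelf (Q : RCh e Λ) (o : Fin f)
    (hf : ∀ x : Λ, (p : Λ) * x = 0 → ∃ y, x = p * y) (hp : (p : Λ) ^ 2 = 0)
    (hQ : ∀ (a : ℕ) (x y : Lp e.self.seq a a), (∀ t, ρ.f a (x.1 t) = ρ.f a (y.1 t)) →
      ∃ z, Q.Q a x - Q.Q a y = p * z) {v : ℕ} (g : C(Sph v, e.X v))
    (hg : g OnePoint.infty = e.pt v) (hρ : ∀ u, ρ.f v (g u) = H.pt v)
    (hgp : Q.Q v (sphLp e.self g hg) = p) {m : ℕ} (β : Fin m → Fin f) (ho : ∀ i, o ≠ β i)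
    (hβ : ∀ i, β (nxt i) ≠ β i) : SelfDat (BfDet ρ Q o hf hp hQ) m where
  Z a := Zf ρ v (β a) o
  io a := zin ρ v (β a) o (ho a)
  hio a := zin_isWeq ρ v (β a) o (ho a)
  al a := alf ρ g hg hρ (β (prv a)) (β a) o
  comp a n x := alf_alf ρ g hg hρ _ _ _ _ n x
  v := v
  t a := tLp ρ g hg hρ (β a)
  ht a := BfDet_tLp ρ Q o hf hp hQ g hg hρ hgp (β a) (ho a)
  hal a := ⟨0, zin_tLp ρ g hg hρ (β a) o (β (prv a)) (ho a) (ho (prv a)) (by
    have h1 := hβ (prv a)
    rwa [show nxt (prv a) = a from (finRotate m).apply_symm_apply a] at h1)⟩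

end Pool.Agent.MP_d175a7_gt
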