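import Pool.Agent.Lib.MP_d175a7_gt.Spec

/-! # Block sums, block permutations and the smash product of spheres -/

set_option autoImplicit false
set_option linter.unusedVariables false

namespace Pool.Agent.MP_d175a7_gt

open scoped Topology unitInterval

/-! ### The bijections `Fin m ⊕ Fin n = Fin k` -/

theorem sumFin_inl {m n k : ℕ} (h : m + n = k) (i : Fin m) :
    (sumFin h (Sum.inl i)).1 = i.1 := by
  simp [sumFin]

theorem sumFin_inr {m n k : ℕ} (h : m + n = k) (j : Fin n) :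
    (sumFin h (Sum.inr j)).1 = m + j.1 := by
  simp [sumFin]

section Assoc

variable {a b c ab bc abc : ℕ} (h₁ : a + b = ab) (h₂ : ab + c = abc) (h₃ : b + c = bc)
  (h₄ : a + bc = abc)

include h₃ in
theorem sumFin_ll (i : Fin a) :
    sumFin h₂ (Sum.inl (sumFin h₁ (Sum.inl i))) = sumFin h₄ (Sum.inl i) := by
  apply Fin.ext
  rw [sumFin_inl, sumFin_inl, sumFin_inl]

include h₁ h₂ h₃ h₄ in
theorem sumFin_lr (j : Fin b) :
    sumFin h₂ (Sum.inl (sumFin h₁ (Sum.inr j))) = sumFin h₄ (Sum.inr (sumFin h₃ (Sum.inl j))) := by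
  apply Fin.ext
  rw [sumFin_inl, sumFin_inr, sumFin_inr, sumFin_inl]

include h₁ h₂ h₃ h₄ in
theorem sumFin_r (l : Fin c) :
    sumFin h₂ (Sum.inr l) = sumFin h₄ (Sum.inr (sumFin h₃ (Sum.inr l))) := by
  apply Fin.ext
  rw [sumFin_inr, sumFin_inr, sumFin_inr]
  omega

end Assoc

/-! ### Entries -/

theorem ort_ext {n : ℕ} {A B : Ort n} (h : ∀ i j, A.1 i j = B.1 i j) : A = B :=
  Subtype.ext (Matrix.ext h)

theorem blk_ll {m n k : ℕ} (h : m + n = k) (A : Ort m) (B : Ort n) (i j : Fin m) :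
    (blk h A B).1 (sumFin h (Sum.inl i)) (sumFin h (Sum.inl j)) = A.1 i j := by
  simp [blk]

theorem blk_lr {m n k : ℕ} (h : m + n = k) (A : Ort m) (B : Ort n) (i : Fin m) (j : Fin n) :
    (blk h A B).1 (sumFin h (Sum.inl i)) (sumFin h (Sum.inr j)) = 0 := by
  simp [blk]

theorem blk_rl {m n k : ℕ} (h : m + n = k) (A : Ort m) (B : Ort n) (i : Fin n) (j : Fin m) :
    (blk h A B).1 (sumFin h (Sum.inr i)) (sumFin h (Sum.inl j)) = 0 := by
  simp [blk]

theorem blk_rr {m n k : ℕ} (h : m + n = k) (A : Ort m) (B : Ort n) (i j : Fin n) :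
    (blk h A B).1 (sumFin h (Sum.inr i)) (sumFin h (Sum.inr j)) = B.1 i j := by
  simp [blk]

/-- `swp h h'` maps the coordinate `σ(j)` of the source to the same block coordinate of the
target. -/
theorem swp_apply {m n k : ℕ} (h : m + n = k) (h' : n + m = k) (x : Fin n ⊕ Fin m)
    (y : Fin m ⊕ Fin n) :
    (swp h h').1 (sumFin h' x) (sumFin h y) = if x = y.swap then 1 else 0 := by
  rcases x with x | x <;> rcases y with y | y <;>
    simp [swp, Matrix.fromBlocks, Matrix.one_apply]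

/-! ### Algebra of block sums and block permutations -/

theorem blk_mul {m n k : ℕ} (h : m + n = k) (A A' : Ort m) (B B' : Ort n) :
    blk h (A * A') (B * B') = blk h A B * blk h A' B' := by
  apply Subtype.ext
  change Matrix.reindex (sumFin h) (sumFin h) (Matrix.fromBlocks (A.1 * A'.1) 0 0 (B.1 * B'.1)) =
    Matrix.reindex (sumFin h) (sumFin h) (Matrix.fromBlocks A.1 0 0 B.1) *
      Matrix.reindex (sumFin h) (sumFin h) (Matrix.fromBlocks A'.1 0 0 B'.1)
  rw [Matrix.reindex_apply, Matrix.reindex_apply, Matrix.reindex_apply,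
    Matrix.submatrix_mul_equiv, Matrix.fromBlocks_multiply]
  simp

theorem blk_one {m n k : ℕ} (h : m + n = k) : blk h (1 : Ort m) (1 : Ort n) = 1 := by
  apply Subtype.ext
  change Matrix.reindex (sumFin h) (sumFin h) (Matrix.fromBlocks 1 0 0 1) = 1
  rw [Matrix.fromBlocks_one]
  simp

theorem blk_inv {m n k : ℕ} (h : m + n = k) (A : Ort m) (B : Ort n) :
    (blk h A B)⁻¹ = blk h A⁻¹ B⁻¹ := by
  rw [inv_eq_iff_mul_eq_one, ← blk_mul, mul_inv_cancel, mul_inv_cancel, blk_one]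

theorem swp_mul_swp {m n k : ℕ} (h : m + n = k) (h' : n + m = k) :
    swp h' h * swp h h' = 1 := by
  apply Subtype.ext
  change Matrix.reindex (sumFin h) (sumFin h') (Matrix.fromBlocks 0 1 1 0) *
    Matrix.reindex (sumFin h') (sumFin h) (Matrix.fromBlocks 0 1 1 0) = 1
  rw [Matrix.reindex_apply, Matrix.reindex_apply, Matrix.submatrix_mul_equiv,
    Matrix.fromBlocks_multiply]
  simp

theorem swp_inv {m n k : ℕ} (h : m + n = k) (h' : n + m = k) : (swp h h')⁻¹ = swp h' h := by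
  rw [inv_eq_iff_mul_eq_one]
  exact swp_mul_swp h' h

theorem swp_blk {m n k : ℕ} (h : m + n = k) (h' : n + m = k) (A : Ort m) (B : Ort n) :
    swp h h' * blk h A B = blk h' B A * swp h h' := by
  apply Subtype.ext
  change Matrix.reindex (sumFin h') (sumFin h) (Matrix.fromBlocks 0 1 1 0) *
    Matrix.reindex (sumFin h) (sumFin h) (Matrix.fromBlocks A.1 0 0 B.1) =
    Matrix.reindex (sumFin h') (sumFin h') (Matrix.fromBlocks B.1 0 0 A.1) *
    Matrix.reindex (sumFin h') (sumFin h) (Matrix.fromBlocks 0 1 1 0)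
  rw [Matrix.reindex_apply, Matrix.reindex_apply, Matrix.reindex_apply,
    Matrix.submatrix_mul_equiv, Matrix.submatrix_mul_equiv, Matrix.fromBlocks_multiply,
    Matrix.fromBlocks_multiply]
  simp

/-- Conjugating with the block permutation. -/
theorem blk_swp {m n k : ℕ} (h : m + n = k) (h' : n + m = k) (A : Ort m) (B : Ort n) :
    blk h A B * swp h' h = swp h' h * blk h' B A := (swp_blk h' h B A).symm

section Assoc

variable {a b c ab bc abc : ℕ} (h₁ : a + b = ab) (h₂ : ab + c = abc) (h₃ : b + c = bc)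
  (h₄ : a + bc = abc)

theorem blk_assoc (A : Ort a) (B : Ort b) (C : Ort c) :
    blk h₂ (blk h₁ A B) C = blk h₄ A (blk h₃ B C) := by
  apply ort_ext
  intro i j
  obtain ⟨x, rfl⟩ := (sumFin h₂).surjective i
  obtain ⟨y, rfl⟩ := (sumFin h₂).surjective j
  rcases x with x | x
  · obtain ⟨x, rfl⟩ := (sumFin h₁).surjective x
    rcases y with y | y
    · obtain ⟨y, rfl⟩ := (sumFin h₁).surjective y
      rw [blk_ll]
      rcases x with x | x <;> rcases y with y | y
      · rw [blk_ll, sumFin_ll h₁ h₂ h₃ h₄, sumFin_ll h₁ h₂ h₃ h₄, blk_ll]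
      · rw [blk_lr, sumFin_ll h₁ h₂ h₃ h₄, sumFin_lr h₁ h₂ h₃ h₄, blk_lr]
      · rw [blk_rl, sumFin_ll h₁ h₂ h₃ h₄, sumFin_lr h₁ h₂ h₃ h₄, blk_rl]
      · rw [blk_rr, sumFin_lr h₁ h₂ h₃ h₄, sumFin_lr h₁ h₂ h₃ h₄, blk_rr, blk_ll]
    · rw [blk_lr]
      rcases x with x | x
      · rw [sumFin_ll h₁ h₂ h₃ h₄, sumFin_r h₁ h₂ h₃ h₄, blk_lr]
      · rw [sumFin_lr h₁ h₂ h₃ h₄, sumFin_r h₁ h₂ h₃ h₄, blk_rr, blk_lr]
  · rcases y with y | y
    · obtain ⟨y, rfl⟩ := (sumFin h₁).surjective y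
      rw [blk_rl]
      rcases y with y | y
      · rw [sumFin_ll h₁ h₂ h₃ h₄, sumFin_r h₁ h₂ h₃ h₄, blk_rl]
      · rw [sumFin_lr h₁ h₂ h₃ h₄, sumFin_r h₁ h₂ h₃ h₄, blk_rr, blk_rl]
    · rw [blk_rr, sumFin_r h₁ h₂ h₃ h₄, sumFin_r h₁ h₂ h₃ h₄, blk_rr, blk_rr]

end Assoc

/-! ### Vectors in blocks -/

/-- The vector with blocks `x`, `y`. -/
def jv {m n k : ℕ} (h : m + n = k) (x : Fin m → ℝ) (y : Fin n → ℝ) : Fin k → ℝ :=
  fun i => Sum.elim x y ((sumFin h).symm i)

/-- The first block. -/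
def jl {m n k : ℕ} (h : m + n = k) (z : Fin k → ℝ) : Fin m → ℝ :=
  fun i => z (sumFin h (Sum.inl i))

/-- The second block. -/
def jr {m n k : ℕ} (h : m + n = k) (z : Fin k → ℝ) : Fin n → ℝ :=
  fun i => z (sumFin h (Sum.inr i))

theorem jv_inl {m n k : ℕ} (h : m + n = k) (x : Fin m → ℝ) (y : Fin n → ℝ) (i : Fin m) :
    jv h x y (sumFin h (Sum.inl i)) = x i := by
  simp [jv]

theorem jv_inr {m n k : ℕ} (h : m + n = k) (x : Fin m → ℝ) (y : Fin n → ℝ) (i : Fin n) :
    jv h x y (sumFin h (Sum.inr i)) = y i := by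
  simp [jv]

theorem jl_jv {m n k : ℕ} (h : m + n = k) (x : Fin m → ℝ) (y : Fin n → ℝ) :
    jl h (jv h x y) = x := funext fun i => jv_inl h x y i

theorem jr_jv {m n k : ℕ} (h : m + n = k) (x : Fin m → ℝ) (y : Fin n → ℝ) :
    jr h (jv h x y) = y := funext fun i => jv_inr h x y i

theorem jv_jl_jr {m n k : ℕ} (h : m + n = k) (z : Fin k → ℝ) : jv h (jl h z) (jr h z) = z := by
  funext i
  obtain ⟨x, rfl⟩ := (sumFin h).surjective i
  rcases x with x | x
  · rw [jv_inl]; rfl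
  · rw [jv_inr]; rfl

theorem jv_assoc {a b c ab bc abc : ℕ} (h₁ : a + b = ab) (h₂ : ab + c = abc) (h₃ : b + c = bc)
    (h₄ : a + bc = abc) (x : Fin a → ℝ) (y : Fin b → ℝ) (z : Fin c → ℝ) :
    jv h₂ (jv h₁ x y) z = jv h₄ x (jv h₃ y z) := by
  funext i
  obtain ⟨u, rfl⟩ := (sumFin h₂).surjective i
  rcases u with u | u
  · obtain ⟨u, rfl⟩ := (sumFin h₁).surjective u
    rw [jv_inl]
    rcases u with u | u
    · rw [jv_inl, sumFin_ll h₁ h₂ h₃ h₄, jv_inl]
    · rw [jv_inr, sumFin_lr h₁ h₂ h₃ h₄, jv_inr, jv_inl]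
  · rw [jv_inr, sumFin_r h₁ h₂ h₃ h₄, jv_inr, jv_inr]

theorem blk_mulVec {m n k : ℕ} (h : m + n = k) (A : Ort m) (B : Ort n) (x : Fin m → ℝ)
    (y : Fin n → ℝ) :
    (blk h A B).1.mulVec (jv h x y) = jv h (A.1.mulVec x) (B.1.mulVec y) := by
  funext i
  obtain ⟨u, rfl⟩ := (sumFin h).surjective i
  rw [Matrix.mulVec, dotProduct, ← (sumFin h).sum_comp, Fintype.sum_sum_type]
  rcases u with u | u
  · simp only [blk_ll, blk_lr, jv_inl, jv_inr, zero_mul, Finset.sum_const_zero, add_zero]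
    rfl
  · simp only [blk_rl, blk_rr, jv_inl, jv_inr, zero_mul, Finset.sum_const_zero, zero_add]
    rfl

theorem swp_mulVec {m n k : ℕ} (h : m + n = k) (h' : n + m = k) (x : Fin m → ℝ)
    (y : Fin n → ℝ) : (swp h h').1.mulVec (jv h x y) = jv h' y x := by
  funext i
  obtain ⟨u, rfl⟩ := (sumFin h').surjective i
  rw [Matrix.mulVec, dotProduct, ← (sumFin h).sum_comp, Fintype.sum_sum_type]
  simp only [swp_apply]
  rcases u with u | u <;> simp [jv_inl, jv_inr]

theorem ort_ext_mulVec {n : ℕ} {A B : Ort n} (h : ∀ x, A.1.mulVec x = B.1.mulVec x) : A = B :=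
  Subtype.ext (Matrix.mulVec_injective (funext h))

theorem ort_mul_mulVec {n : ℕ} (A B : Ort n) (x : Fin n → ℝ) :
    (A * B).1.mulVec x = A.1.mulVec (B.1.mulVec x) := by
  change (A.1 * B.1).mulVec x = _
  rw [Matrix.mulVec_mulVec]

theorem ort_one_mulVec {n : ℕ} (x : Fin n → ℝ) : (1 : Ort n).1.mulVec x = x :=
  Matrix.one_mulVec x

/-- To check an identity of matrices on vectors in blocks. -/
theorem ort_ext_jv {m n k : ℕ} (h : m + n = k) {A B : Ort k}
    (H : ∀ x y, A.1.mulVec (jv h x y) = B.1.mulVec (jv h x y)) : A = B :=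
  ort_ext_mulVec fun z => by rw [← jv_jl_jr h z, H]

/-- First hexagon: `ℝ^v ⊕ (ℝ^m ⊕ ℝ^n) → (ℝ^m ⊕ ℝ^n) ⊕ ℝ^v` in two steps. -/
theorem swp_hex {v m n mn vm vn k : ℕ} (h₁ : m + n = mn) (h₂ : v + mn = k)
    (h₂' : mn + v = k) (h₃ : v + m = vm) (h₃' : m + v = vm) (h₄ : vm + n = k)
    (h₅ : v + n = vn) (h₅' : n + v = vn) (h₆ : m + vn = k) :
    swp h₂ h₂' = blk h₆ 1 (swp h₅ h₅') * blk h₄ (swp h₃ h₃') 1 := by
  refine ort_ext_jv h₂ fun x w => ?_
  rw [← jv_jl_jr h₁ w, ort_mul_mulVec, swp_mulVec, ← jv_assoc h₃ h₄ h₁ h₂, blk_mulVec,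
    swp_mulVec, ort_one_mulVec, jv_assoc h₃' h₄ h₅ h₆, blk_mulVec, swp_mulVec, ort_one_mulVec,
    jv_assoc h₁ h₂' h₅' h₆]

/-- Second hexagon: `(ℝ^b ⊕ ℝ^c) ⊕ ℝ^a → ℝ^a ⊕ (ℝ^b ⊕ ℝ^c)` in two steps. -/
theorem swp_hex' {a b c bc ca ba k : ℕ} (h₁ : b + c = bc) (h₂ : bc + a = k)
    (h₂' : a + bc = k) (h₃ : c + a = ca) (h₃' : a + c = ca) (h₄ : b + ca = k)
    (h₅ : b + a = ba) (h₅' : a + b = ba) (h₆ : ba + c = k) :
    swp h₂ h₂' = blk h₆ (swp h₅ h₅') 1 * blk h₄ 1 (swp h₃ h₃') := by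
  refine ort_ext_jv h₂ fun w x => ?_
  rw [← jv_jl_jr h₁ w, ort_mul_mulVec, swp_mulVec, jv_assoc h₁ h₂ h₃ h₄, blk_mulVec,
    swp_mulVec, ort_one_mulVec, ← jv_assoc h₅ h₆ h₃' h₄, blk_mulVec, swp_mulVec, ort_one_mulVec,
    jv_assoc h₅' h₆ h₁ h₂']

/-- The block permutation of an empty block is trivial. -/
theorem swp_zero {n : ℕ} (h : 0 + n = n) (h' : n + 0 = n) : swp h h' = 1 := by
  refine ort_ext_jv h fun x y => ?_
  rw [swp_mulVec, ort_one_mulVec]
  funext i
  have h1 : i = sumFin h (Sum.inr i) := Fin.ext (by rw [sumFin_inr]; omega)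
  have h2 : i = sumFin h' (Sum.inl i) := Fin.ext (by rw [sumFin_inl])
  conv_lhs => rw [h2]
  conv_rhs => rw [h1]
  rw [jv_inl, jv_inr]

/-! ### Spheres -/

theorem sact_some {n : ℕ} (A : Ort n) (x : Fin n → ℝ) :
    sact A (OnePoint.some x) = OnePoint.some (A.1.mulVec x) := rfl

theorem sact_infty {n : ℕ} (A : Ort n) : sact A OnePoint.infty = OnePoint.infty := rfl

theorem sact_one {n : ℕ} (v : Sph n) : sact 1 v = v := by
  induction v using OnePoint.rec with
  | infty => rfl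
  | coe x => rw [sact_some, ort_one_mulVec]

theorem sact_mul {n : ℕ} (A B : Ort n) (v : Sph n) : sact (A * B) v = sact A (sact B v) := by
  induction v using OnePoint.rec with
  | infty => rfl
  | coe x => rw [sact_some, sact_some, sact_some, ort_mul_mulVec]

theorem sm_some {m n k : ℕ} (h : m + n = k) (x : Fin m → ℝ) (y : Fin n → ℝ) :
    sm h (OnePoint.some x) (OnePoint.some y) = OnePoint.some (jv h x y) := rfl

theorem infty_sm {m n k : ℕ} (h : m + n = k) (w : Sph n) :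
    sm h OnePoint.infty w = OnePoint.infty := rfl

theorem sm_infty {m n k : ℕ} (h : m + n = k) (v : Sph m) :
    sm h v OnePoint.infty = OnePoint.infty := by
  induction v using OnePoint.rec with
  | infty => rfl
  | coe x => rfl

theorem sm_act {m n k : ℕ} (h : m + n = k) (A : Ort m) (B : Ort n) (v : Sph m) (w : Sph n) :
    sm h (sact A v) (sact B w) = sact (blk h A B) (sm h v w) := by
  induction v using OnePoint.rec with
  | infty => rfl
  | coe x =>
    induction w using OnePoint.rec with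
    | infty => rfl
    | coe y => rw [sact_some, sact_some, sm_some, sm_some, sact_some, blk_mulVec]

theorem sm_comm {m n k : ℕ} (h : m + n = k) (h' : n + m = k) (v : Sph m) (w : Sph n) :
    sm h' w v = sact (swp h h') (sm h v w) := by
  induction v using OnePoint.rec with
  | infty => rw [sm_infty]; rfl
  | coe x =>
    induction w using OnePoint.rec with
    | infty => rfl
    | coe y => rw [sm_some, sm_some, sact_some, swp_mulVec]

theorem sm_assoc {a b c ab bc abc : ℕ} (h₁ : a + b = ab) (h₂ : ab + c = abc) (h₃ : b + c = bc)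
    (h₄ : a + bc = abc) (x : Sph a) (y : Sph b) (z : Sph c) :
    sm h₂ (sm h₁ x y) z = sm h₄ x (sm h₃ y z) := by
  induction x using OnePoint.rec with
  | infty => rfl
  | coe x =>
    induction y using OnePoint.rec with
    | infty => rfl
    | coe y =>
      induction z using OnePoint.rec with
      | infty => rfl
      | coe z => rw [sm_some, sm_some, sm_some, sm_some, jv_assoc h₁ h₂ h₃ h₄]

end Pool.Agent.MP_d175a7_gt
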