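import Pool.Agent.Lib.MP_d175a7_gt.Mod

/-!
# Free objects, products of lists of modules

Objects of the category of free modules are lists of free objects (modules with a zigzag of weak
equivalences to some `R^r`), morphisms are the weak equivalences between the product modules.
-/

set_option autoImplicit false
set_option linter.unusedVariables false

namespace Pool.Agent.MP_d175a7_gt

/-- A free object of rank `r`: a module `P` with weak equivalences
`R^r ← P' → P'' ← P`. -/
structure FreeObj (R : RSp) : Type 1 where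
  /-- the module -/
  P : MSp R
  /-- its rank -/
  r : ℕ
  /-- auxiliary modules -/
  P' : MSp R
  /-- auxiliary modules -/
  P'' : MSp R
  /-- the zigzag -/
  α : MHom P' (free R r)
  /-- the zigzag -/
  β : MHom P' P''
  /-- the zigzag -/
  γ : MHom P P''
  hα : α.IsWeq
  hβ : β.IsWeq
  hγ : γ.IsWeq

variable {R : RSp}

/-- The product of a list of modules. -/
def PiL (L : List (FreeObj R)) : MSp R := L.foldr (fun a P => a.P.prod P) MSp.zero

/-- The product of the identity of `P` and `f`. -/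
abbrev MHom.under (P : MSp R) {Q S : MSp R} (f : MHom Q S) : MHom (P.prod Q) (P.prod S) :=
  MHom.pair (MHom.fst P Q) ((MHom.snd P Q).comp f)

/-- The isomorphism `(P × Q) × S → P × (Q × S)`. -/
abbrev MHom.asc (P Q S : MSp R) : MHom ((P.prod Q).prod S) (P.prod (Q.prod S)) :=
  MHom.pair ((MHom.fst (P.prod Q) S).comp (MHom.fst P Q))
    (MHom.pair ((MHom.fst (P.prod Q) S).comp (MHom.snd P Q)) (MHom.snd (P.prod Q) S))

/-- The projection of `∏ (L₁ ++ L₂)` to `∏ L₁`. -/
noncomputable def sp1 (L₁ L₂ : List (FreeObj R)) : MHom (PiL (L₁ ++ L₂)) (PiL L₁) :=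
  List.rec (motive := fun L => MHom (PiL (L ++ L₂)) (PiL L)) (MHom.zero (PiL L₂) MSp.zero)
    (fun (a : FreeObj R) _ f => MHom.under a.P f) L₁

/-- The projection of `∏ (L₁ ++ L₂)` to `∏ L₂`. -/
noncomputable def sp2 (L₁ L₂ : List (FreeObj R)) : MHom (PiL (L₁ ++ L₂)) (PiL L₂) :=
  List.rec (motive := fun L => MHom (PiL (L ++ L₂)) (PiL L₂)) (MHom.id (PiL L₂))
    (fun (a : FreeObj R) L f => (MHom.snd a.P (PiL (L ++ L₂))).comp f) L₁

/-- The isomorphism `∏ L₁ × ∏ L₂ → ∏ (L₁ ++ L₂)`. -/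
noncomputable def jn (L₁ L₂ : List (FreeObj R)) : MHom ((PiL L₁).prod (PiL L₂)) (PiL (L₁ ++ L₂)) :=
  List.rec (motive := fun L => MHom ((PiL L).prod (PiL L₂)) (PiL (L ++ L₂)))
    (MHom.snd MSp.zero (PiL L₂))
    (fun (a : FreeObj R) L f => (MHom.asc a.P (PiL L) (PiL L₂)).comp (MHom.under a.P f)) L₁

/-- The product `f ⊗ g` of two homomorphisms of product modules. -/
noncomputable def tmap {L₁ L₁' L₂ L₂' : List (FreeObj R)} (f : MHom (PiL L₁) (PiL L₁'))
    (g : MHom (PiL L₂) (PiL L₂')) : MHom (PiL (L₁ ++ L₂)) (PiL (L₁' ++ L₂')) :=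
  (MHom.pair ((sp1 L₁ L₂).comp f) ((sp2 L₁ L₂).comp g)).comp (jn L₁' L₂')

end Pool.Agent.MP_d175a7_gt
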