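import Pool.Agent.Lib.MP_d175a7_gt.WeqB
import Pool.Agent.Lib.MP_d175a7_gt.CatD

/-!
# Projections and joins of products of lists of modules
-/

set_option autoImplicit false
set_option linter.unusedVariables false

namespace Pool.Agent.MP_d175a7_gt

open scoped Topology unitInterval
open CategoryTheory

variable {R : RSp}

theorem sp1_jn (L₁ L₂ : List (FreeObj R)) (n : ℕ) (x : (PiL L₁).X n) (y : (PiL L₂).X n) :
    (sp1 L₁ L₂).f n ((jn L₁ L₂).f n (x, y)) = x := by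
  induction L₁ with
  | nil => rfl
  | cons a L ih =>
      obtain ⟨x₁, x₂⟩ := x
      exact Prod.ext rfl (ih x₂)

theorem sp2_jn (L₁ L₂ : List (FreeObj R)) (n : ℕ) (x : (PiL L₁).X n) (y : (PiL L₂).X n) :
    (sp2 L₁ L₂).f n ((jn L₁ L₂).f n (x, y)) = y := by
  induction L₁ with
  | nil => rfl
  | cons a L ih =>
      obtain ⟨x₁, x₂⟩ := x
      exact ih x₂

theorem jn_sp (L₁ L₂ : List (FreeObj R)) (n : ℕ) (z : (PiL (L₁ ++ L₂)).X n) :
    (jn L₁ L₂).f n ((sp1 L₁ L₂).f n z, (sp2 L₁ L₂).f n z) = z := by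
  induction L₁ with
  | nil => rfl
  | cons a L ih =>
      obtain ⟨z₁, z₂⟩ := z
      exact Prod.ext rfl (ih z₂)

/-- The product of two homomorphisms. -/
def MHom.prod {P Q P' Q' : MSp R} (f : MHom P P') (g : MHom Q Q') :
    MHom (P.prod Q) (P'.prod Q') :=
  MHom.pair ((MHom.fst P Q).comp f) ((MHom.snd P Q).comp g)

theorem MHom.isWeq_prod {P Q P' Q' : MSp R} {f : MHom P P'} {g : MHom Q Q'} (hf : f.IsWeq)
    (hg : g.IsWeq) : (f.prod g).IsWeq :=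
  Pool.Agent.MP_d175a7_gt.isWeq_prod (P := P.seq) (Q := Q.seq) (P' := P'.seq) (Q' := Q'.seq)
    (f := f.sh) (g := g.sh) hf hg

theorem MHom.isWeq_id (P : MSp R) : (MHom.id P).IsWeq :=
  Pool.Agent.MP_d175a7_gt.isWeq_id P.seq

theorem MHom.isWeq_comp {P Q S : MSp R} {f : MHom P Q} {g : MHom Q S} (hf : f.IsWeq)
    (hg : g.IsWeq) : (f.comp g).IsWeq :=
  Pool.Agent.MP_d175a7_gt.isWeq_comp (f := f.sh) (g := g.sh) hf hg

theorem isWeq_tmap {L₁ L₁' L₂ L₂' : List (FreeObj R)} {f : MHom (PiL L₁) (PiL L₁')}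
    {g : MHom (PiL L₂) (PiL L₂')} (hf : f.IsWeq) (hg : g.IsWeq) : (tmap f g).IsWeq := by
  have h1 : (MHom.pair (sp1 L₁ L₂) (sp2 L₁ L₂)).IsWeq :=
    isWeq_of_inv _ (jn L₁ L₂).sh (fun n x => jn_sp L₁ L₂ n x)
      (fun n y => Prod.ext (sp1_jn L₁ L₂ n y.1 y.2) (sp2_jn L₁ L₂ n y.1 y.2))
  have h2 : (jn L₁' L₂').IsWeq :=
    isWeq_of_inv _ (MHom.pair (sp1 L₁' L₂') (sp2 L₁' L₂')).sh
      (fun n y => Prod.ext (sp1_jn L₁' L₂' n y.1 y.2) (sp2_jn L₁' L₂' n y.1 y.2))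
      (fun n x => jn_sp L₁' L₂' n x)
  exact MHom.isWeq_comp (MHom.isWeq_comp h1 (MHom.isWeq_prod hf hg)) h2

theorem tmap_id (X Y : List (FreeObj R)) :
    tmap (MHom.id (PiL X)) (MHom.id (PiL Y)) = MHom.id (PiL (X ++ Y)) :=
  MHom.ext fun n x => jn_sp X Y n x

theorem tmap_comp {X X' X'' Y Y' Y'' : List (FreeObj R)} (f : MHom (PiL X) (PiL X'))
    (f' : MHom (PiL X') (PiL X'')) (g : MHom (PiL Y) (PiL Y')) (g' : MHom (PiL Y') (PiL Y'')) :
    tmap (f.comp f') (g.comp g') = (tmap f g).comp (tmap f' g') :=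
  MHom.ext fun n x => by
    change (jn X'' Y'').f n (f'.f n (f.f n _), g'.f n (g.f n _)) =
      (jn X'' Y'').f n (f'.f n ((sp1 X' Y').f n ((jn X' Y').f n (_, _))),
        g'.f n ((sp2 X' Y').f n ((jn X' Y').f n (_, _))))
    rw [sp1_jn, sp2_jn]
    rfl

end Pool.Agent.MP_d175a7_gt
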