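import Pool.Agent.Lib.MP_d175a7_gt.Weq

/-! # Weak equivalences: closure properties -/

set_option autoImplicit false
set_option linter.unusedVariables false

namespace Pool.Agent.MP_d175a7_gt

open scoped Topology unitInterval

/-! ### stable homotopy of loops -/

private theorem wb_st_heq {P : Seq} {a a' n n' : ℕ} (ha : a = a') (hn : n = n') {x : Lp P a n}
    {x' : Lp P a' n'} (h : HEq x x') : HEq (st x) (st x') := by
  subst ha hn
  rw [eq_of_heq h]

private theorem wb_stn_st {P : Seq} {a n : ℕ} (x : Lp P a n) (j : ℕ) :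
    HEq (stn j (st x)) (st (stn j x)) := by
  induction j with
  | zero => rfl
  | succ j ih =>
    exact wb_st_heq (show a + 1 + j = a + j + 1 by omega) (show n + 1 + j = n + j + 1 by omega)
      ih

private theorem wb_stn_stn {P : Seq} {a n : ℕ} (x : Lp P a n) (i j : ℕ) :
    HEq (stn j (stn i x)) (stn (i + j) x) := by
  induction j with
  | zero => rfl
  | succ j ih =>
    exact wb_st_heq (show a + i + j = a + (i + j) by omega)
      (show n + i + j = n + (i + j) by omega) ih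

private theorem wb_hom {P : Seq} {a a' n n' : ℕ} (ha : a = a') (hn : n = n') {x y : Lp P a n}
    {x' y' : Lp P a' n'} (hx : HEq x x') (hy : HEq y y') (h : GenLoop.Homotopic x' y') :
    GenLoop.Homotopic x y := by
  subst ha hn
  rw [eq_of_heq hx, eq_of_heq hy]
  exact h

private theorem wb_steq_st {P : Seq} {a n : ℕ} {x y : Lp P a n} (h : StEq x y) :
    StEq (st x) (st y) := by
  obtain ⟨j, hj⟩ := h
  exact ⟨j, wb_hom (by omega) (by omega) (wb_stn_st x j) (wb_stn_st y j) (st_homotopic hj)⟩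

private theorem wb_steq_stn {P : Seq} {a n : ℕ} {x y : Lp P a n} (h : StEq x y) (i : ℕ) :
    StEq (stn i x) (stn i y) := by
  induction i with
  | zero => exact h
  | succ i ih => exact wb_steq_st ih

private theorem wb_steq_lp {P Q : Seq} (f : SHom P Q) {a n : ℕ} {x y : Lp P a n}
    (h : StEq x y) : StEq (f.lp x) (f.lp y) := by
  obtain ⟨j, hj⟩ := h
  refine ⟨j, ?_⟩
  rw [← f.lp_stn, ← f.lp_stn]
  exact lp_homotopic f hj

private theorem wb_up {P : Seq} {a n : ℕ} {x y : Lp P a n} {i j : ℕ} (hij : i ≤ j)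
    (h : GenLoop.Homotopic (stn i x) (stn i y)) : GenLoop.Homotopic (stn j x) (stn j y) := by
  induction j, hij using Nat.le_induction with
  | base => exact h
  | succ j _ ih => exact st_homotopic ih

private theorem wb_surj_up {P Q : Seq} (f : SHom P Q) {a n : ℕ} {y : Lp Q a n} {i j : ℕ}
    (hij : i ≤ j) (h : ∃ x : Lp P (a + i) (n + i), StEq (f.lp x) (stn i y)) :
    ∃ x : Lp P (a + j) (n + j), StEq (f.lp x) (stn j y) := by
  induction j, hij using Nat.le_induction with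
  | base => exact h
  | succ j _ ih =>
    obtain ⟨x, hx⟩ := ih
    refine ⟨st x, ?_⟩
    rw [f.lp_st]
    exact wb_steq_st hx

private theorem wb_surj {P Q : Seq} (f : SHom P Q) {a n A N j : ℕ} (y : Lp Q a n)
    (hA : A = a + j) (hN : N = n + j) (x : Lp P A N) (w : Lp Q A N) (hw : HEq w (stn j y))
    (h : StEq (f.lp x) w) : ∃ (j : ℕ) (x : Lp P (a + j) (n + j)), StEq (f.lp x) (stn j y) := by
  subst hA hN
  rw [eq_of_heq hw] at h
  exact ⟨j, x, h⟩

private theorem wb_lp_id {P : Seq} {a n : ℕ} (x : Lp P a n) : (SHom.id P).lp x = x :=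
  Subtype.ext (ContinuousMap.ext fun _ => rfl)

private theorem wb_lp_comp {P Q S : Seq} (f : SHom P Q) (g : SHom Q S) {a n : ℕ}
    (x : Lp P a n) : (f.comp g).lp x = g.lp (f.lp x) :=
  Subtype.ext (ContinuousMap.ext fun _ => rfl)

private theorem wb_lp_inv {P Q : Seq} (f : SHom P Q) (g : SHom Q P)
    (h : ∀ n x, g.f n (f.f n x) = x) {a n : ℕ} (x : Lp P a n) : g.lp (f.lp x) = x :=
  Subtype.ext (ContinuousMap.ext fun _ => h n _)

/-! ### products -/

private def wbFst (P Q : Seq) : SHom (P.prod Q) P where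
  f _ x := x.1
  cont _ _ _ _ _ _ hh := continuous_fst.comp hh
  pt _ := rfl
  sus _ _ _ := rfl

private def wbSnd (P Q : Seq) : SHom (P.prod Q) Q where
  f _ x := x.2
  cont _ _ _ _ _ _ hh := continuous_snd.comp hh
  pt _ := rfl
  sus _ _ _ := rfl

private def wbPair {P Q : Seq} {a n : ℕ} (x : Lp P a n) (y : Lp Q a n) : Lp (P.prod Q) a n :=
  ⟨ContinuousMap.prodMk x.1 y.1, fun t ht => Prod.ext (x.2 t ht) (y.2 t ht)⟩

private theorem wb_pair {P Q : Seq} {a n : ℕ} {z z' : Lp (P.prod Q) a n}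
    (h : GenLoop.Homotopic ((wbFst P Q).lp z) ((wbFst P Q).lp z'))
    (h' : GenLoop.Homotopic ((wbSnd P Q).lp z) ((wbSnd P Q).lp z')) :
    GenLoop.Homotopic z z' := by
  obtain ⟨H⟩ := h
  obtain ⟨H'⟩ := h'
  exact ⟨ContinuousMap.HomotopyRel.prod H H'⟩

private theorem wb_steq_pair {P Q : Seq} {a n : ℕ} {z z' : Lp (P.prod Q) a n}
    (h : StEq ((wbFst P Q).lp z) ((wbFst P Q).lp z'))
    (h' : StEq ((wbSnd P Q).lp z) ((wbSnd P Q).lp z')) : StEq z z' := by
  obtain ⟨i, hi⟩ := h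
  obtain ⟨j, hj⟩ := h'
  refine ⟨max i j, wb_pair ?_ ?_⟩
  · rw [SHom.lp_stn, SHom.lp_stn]
    exact wb_up (le_max_left i j) hi
  · rw [SHom.lp_stn, SHom.lp_stn]
    exact wb_up (le_max_right i j) hj

theorem isWeq_id (P : Seq) : (SHom.id P).IsWeq := by
  refine ⟨fun a n x x' h => ?_, fun a n y => ⟨0, y, ?_⟩⟩
  · rwa [wb_lp_id, wb_lp_id] at h
  · rw [wb_lp_id]
    exact StEq.refl _

theorem isWeq_comp {P Q S : Seq} {f : SHom P Q} {g : SHom Q S} (hf : f.IsWeq) (hg : g.IsWeq) :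
    (f.comp g).IsWeq := by
  refine ⟨fun a n x x' h => ?_, fun a n z => ?_⟩
  · rw [wb_lp_comp, wb_lp_comp] at h
    exact hf.1 a n x x' (hg.1 a n _ _ h)
  · obtain ⟨j, y, hy⟩ := hg.2 a n z
    obtain ⟨i, x, hx⟩ := hf.2 _ _ y
    refine wb_surj (f.comp g) z (add_assoc a j i) (add_assoc n j i) x (stn i (stn j z))
      (wb_stn_stn z j i) ?_
    rw [wb_lp_comp]
    refine (wb_steq_lp g hx).trans ?_
    rw [g.lp_stn]
    exact wb_steq_stn hy i

/-- If `f ≫ g` and `g` are weak equivalences, so is `f`. -/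
theorem isWeq_of_comp {P Q S : Seq} {f : SHom P Q} {g : SHom Q S} (hfg : (f.comp g).IsWeq)
    (hg : g.IsWeq) : f.IsWeq := by
  refine ⟨fun a n x x' h => ?_, fun a n y => ?_⟩
  · refine hfg.1 a n x x' ?_
    rw [wb_lp_comp, wb_lp_comp]
    exact wb_steq_lp g h
  · obtain ⟨j, x, hx⟩ := hfg.2 a n (g.lp y)
    refine ⟨j, x, hg.1 _ _ _ _ ?_⟩
    rw [g.lp_stn, ← wb_lp_comp]
    exact hx

/-- A map with a two-sided inverse is a weak equivalence. -/
theorem isWeq_of_inv {P Q : Seq} (f : SHom P Q) (g : SHom Q P)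
    (h : ∀ n x, g.f n (f.f n x) = x) (h' : ∀ n y, f.f n (g.f n y) = y) : f.IsWeq := by
  refine ⟨fun a n x x' h1 => ?_, fun a n y => ⟨0, g.lp y, ?_⟩⟩
  · have h2 := wb_steq_lp g h1
    rwa [wb_lp_inv f g h, wb_lp_inv f g h] at h2
  · rw [wb_lp_inv g f h']
    exact StEq.refl _

/-- Products of weak equivalences are weak equivalences. -/
theorem isWeq_prod {P Q P' Q' : Seq} {f : SHom P P'} {g : SHom Q Q'} (hf : f.IsWeq)
    (hg : g.IsWeq) : (f.prod g).IsWeq := by
  have e1 : ∀ {a n : ℕ} (z : Lp (P.prod Q) a n), (wbFst P' Q').lp ((f.prod g).lp z) =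
      f.lp ((wbFst P Q).lp z) := fun z => Subtype.ext (ContinuousMap.ext fun _ => rfl)
  have e2 : ∀ {a n : ℕ} (z : Lp (P.prod Q) a n), (wbSnd P' Q').lp ((f.prod g).lp z) =
      g.lp ((wbSnd P Q).lp z) := fun z => Subtype.ext (ContinuousMap.ext fun _ => rfl)
  refine ⟨fun a n x x' h => ?_, fun a n y => ?_⟩
  · have h1 := wb_steq_lp (wbFst P' Q') h
    have h2 := wb_steq_lp (wbSnd P' Q') h
    rw [e1, e1] at h1
    rw [e2, e2] at h2
    exact wb_steq_pair (hf.1 a n _ _ h1) (hg.1 a n _ _ h2)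
  · obtain ⟨i, hi⟩ := hf.2 a n ((wbFst P' Q').lp y)
    obtain ⟨j, hj⟩ := hg.2 a n ((wbSnd P' Q').lp y)
    obtain ⟨x, hx⟩ := wb_surj_up f (le_max_left i j) hi
    obtain ⟨x', hx'⟩ := wb_surj_up g (le_max_right i j) hj
    refine ⟨max i j, wbPair x x', wb_steq_pair ?_ ?_⟩
    · rw [e1, SHom.lp_stn]
      have e3 : (wbFst P Q).lp (wbPair x x') = x :=
        Subtype.ext (ContinuousMap.ext fun _ => rfl)
      rw [e3]
      exact hx
    · rw [e2, SHom.lp_stn]
      have e3 : (wbSnd P Q).lp (wbPair x x') = x' :=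
        Subtype.ext (ContinuousMap.ext fun _ => rfl)
      rw [e3]
      exact hx'

end Pool.Agent.MP_d175a7_gt
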