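import Pool.Agent.Lib.MP_d175a7_gt.HomB
import Pool.Agent.Lib.MP_d175a7_gt.WeqB

/-! # Stable homotopy of loops -/

set_option autoImplicit false
set_option linter.unusedVariables false

namespace Pool.Agent.MP_d175a7_gt

open scoped Topology unitInterval

private theorem ca_st_heq {P : Seq} {a a' n n' : ℕ} (ha : a = a') (hn : n = n') {x : Lp P a n}
    {x' : Lp P a' n'} (h : HEq x x') : HEq (st x) (st x') := by
  subst ha hn
  rw [eq_of_heq h]

private theorem ca_stn_st {P : Seq} {a n : ℕ} (x : Lp P a n) (j : ℕ) :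
    HEq (stn j (st x)) (st (stn j x)) := by
  induction j with
  | zero => rfl
  | succ j ih =>
    exact ca_st_heq (show a + 1 + j = a + j + 1 by omega) (show n + 1 + j = n + j + 1 by omega)
      ih

private theorem ca_hom {P : Seq} {a a' n n' : ℕ} (ha : a = a') (hn : n = n') {x y : Lp P a n}
    {x' y' : Lp P a' n'} (hx : HEq x x') (hy : HEq y y') (h : GenLoop.Homotopic x' y') :
    GenLoop.Homotopic x y := by
  subst ha hn
  rw [eq_of_heq hx, eq_of_heq hy]
  exact h

private theorem ca_up {P : Seq} {a n : ℕ} {x y : Lp P a n} {i j : ℕ} (hij : i ≤ j)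
    (h : GenLoop.Homotopic (stn i x) (stn i y)) : GenLoop.Homotopic (stn j x) (stn j y) := by
  induction j, hij using Nat.le_induction with
  | base => exact h
  | succ j _ ih => exact st_homotopic ih

private theorem ca_tst {P : Seq} {A n : ℕ} (h : 0 < A) (x y : Lp P A n) :
    GenLoop.Homotopic (st (GenLoop.transAt (⟨0, h⟩ : Fin A) x y))
      (GenLoop.transAt (⟨0, Nat.succ_pos A⟩ : Fin (A + 1)) (st x) (st y)) := by
  cases A with
  | zero => exact absurd h (lt_irrefl _)
  | succ A => exact st_transAt x y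

private theorem ca_thom {P : Seq} {A n : ℕ} (h : 0 < A) {x x' y y' : Lp P A n}
    (hx : GenLoop.Homotopic x x') (hy : GenLoop.Homotopic y y') :
    GenLoop.Homotopic (GenLoop.transAt (⟨0, h⟩ : Fin A) x y)
      (GenLoop.transAt (⟨0, h⟩ : Fin A) x' y') := by
  cases A with
  | zero => exact absurd h (lt_irrefl _)
  | succ A => exact transAt_homotopic hx hy

private theorem ca_tcancel {P : Seq} {A n : ℕ} (h : 0 < A) {x x' y y' : Lp P A n}
    (h1 : GenLoop.Homotopic (GenLoop.transAt (⟨0, h⟩ : Fin A) x y)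
      (GenLoop.transAt (⟨0, h⟩ : Fin A) x' y')) (hx : GenLoop.Homotopic x x') :
    GenLoop.Homotopic y y' := by
  cases A with
  | zero => exact absurd h (lt_irrefl _)
  | succ A => exact transAt_cancel h1 hx

private theorem ca_tstn {P : Seq} {A n : ℕ} (h : 0 < A) (x y : Lp P A n) (j : ℕ) :
    GenLoop.Homotopic (stn j (GenLoop.transAt (⟨0, h⟩ : Fin A) x y))
      (GenLoop.transAt (⟨0, Nat.add_pos_left h j⟩ : Fin (A + j)) (stn j x) (stn j y)) := by
  induction j with
  | zero => exact GenLoop.Homotopic.refl _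
  | succ j ih => exact (st_homotopic ih).trans (ca_tst _ _ _)

/-- Suspension respects and reflects stable homotopy.  (Compare the private lemmas `wb_st_heq`,
`wb_stn_st`, `wb_hom` of `WeqB.lean`: `stn j (st x)` and `stn (j + 1) x` are heterogeneously equal.) -/
theorem stEq_st {P : Seq} {a n : ℕ} {x y : Lp P a n} : StEq (st x) (st y) ↔ StEq x y := by
  constructor
  · rintro ⟨j, hj⟩
    exact ⟨j + 1, ca_hom (show a + (j + 1) = a + 1 + j by omega)
      (show n + (j + 1) = n + 1 + j by omega) (ca_stn_st x j).symm (ca_stn_st y j).symm hj⟩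
  · rintro ⟨j, hj⟩
    exact ⟨j, ca_hom (by omega) (by omega) (ca_stn_st x j) (ca_stn_st y j) (st_homotopic hj)⟩

theorem stEq_stn {P : Seq} {a n : ℕ} (j : ℕ) {x y : Lp P a n} :
    StEq (stn j x) (stn j y) ↔ StEq x y := by
  induction j with
  | zero => exact Iff.rfl
  | succ j ih => exact stEq_st.trans ih

theorem stEq_lp {P Q : Seq} (f : SHom P Q) {a n : ℕ} {x y : Lp P a n} (h : StEq x y) :
    StEq (f.lp x) (f.lp y) := by
  obtain ⟨j, hj⟩ := h
  refine ⟨j, ?_⟩
  rw [← f.lp_stn, ← f.lp_stn]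
  exact lp_homotopic f hj

theorem stn_cst (P : Seq) (a n j : ℕ) : stn j (cstLp P a n) = cstLp P (a + j) (n + j) := by
  induction j with
  | zero => rfl
  | succ j ih =>
    have h1 : stn (j + 1) (cstLp P a n) = st (stn j (cstLp P a n)) := rfl
    rw [h1, ih]
    apply Subtype.ext
    apply ContinuousMap.ext
    intro t
    exact P.sus_pt (n + j) (t 0)

theorem stEq_of_homotopic {P : Seq} {a n : ℕ} {x y : Lp P a n} (h : GenLoop.Homotopic x y) :
    StEq x y := ⟨0, h⟩

/-- Stable homotopy of concatenations. -/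
theorem transAt_stEq {P : Seq} {a n : ℕ} {x x' y y' : Lp P (a + 1) n} (hx : StEq x x')
    (hy : StEq y y') : StEq (GenLoop.transAt 0 x y) (GenLoop.transAt 0 x' y') := by
  obtain ⟨i, hi⟩ := hx
  obtain ⟨j, hj⟩ := hy
  have h1 := ca_up (le_max_left i j) hi
  have h2 := ca_up (le_max_right i j) hj
  exact ⟨max i j, (ca_tstn (Nat.succ_pos a) x y _).trans
    ((ca_thom _ h1 h2).trans (ca_tstn (Nat.succ_pos a) x' y' _).symm)⟩

theorem transAt_stEq_cancel {P : Seq} {a n : ℕ} {x x' y y' : Lp P (a + 1) n}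
    (h : StEq (GenLoop.transAt 0 x y) (GenLoop.transAt 0 x' y')) (hx : StEq x x') :
    StEq y y' := by
  obtain ⟨i, hi⟩ := hx
  obtain ⟨j, hj⟩ := h
  have h1 := ca_up (le_max_left i j) hi
  have h2 := ca_up (le_max_right i j) hj
  exact ⟨max i j, ca_tcancel _ (((ca_tstn (Nat.succ_pos a) x y _).symm.trans h2).trans
    (ca_tstn (Nat.succ_pos a) x' y' _)) h1⟩

end Pool.Agent.MP_d175a7_gt
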