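import Pool.Agent.Lib.MP_d175a7_gt.Hpb
import Pool.Agent.Lib.MP_d175a7_gt.ConnA

/-!
# Loops in homotopy pullbacks: the loops coming from `S`
-/

set_option autoImplicit false
set_option linter.unusedVariables false

namespace Pool.Agent.MP_d175a7_gt

open scoped Topology unitInterval

variable {R : RSp} {P Q S : MSp R} (f : MHom P S) (g : MHom Q S)

/-- The projection to `P`. -/
def Hpb.p1 : MHom (Hpb f g) P where
  f n z := z.1.1.1
  cont n T _ _ _ g hg := continuous_fst.comp
    (continuous_fst.comp (continuous_subtype_val.comp hg))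
  pt n := rfl
  act n A x := rfl
  smul h r x := rfl

/-- The projection to `Q`. -/
def Hpb.p2 : MHom (Hpb f g) Q where
  f n z := z.1.1.2
  cont n T _ _ _ g hg := continuous_snd.comp
    (continuous_fst.comp (continuous_subtype_val.comp hg))
  pt n := rfl
  act n A x := rfl
  smul h r x := rfl

/-- Add a last coordinate. -/
def snl {a : ℕ} (t : Fin a → I) (u : I) : Fin (a + 1) → I :=
  fun i => if h : i.1 < a then t ⟨i.1, h⟩ else u

theorem snl_cont {a : ℕ} : Continuous fun q : (Fin a → I) × I => snl q.1 q.2 := by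
  refine continuous_pi fun i => ?_
  by_cases h : i.1 < a
  · have h1 : (fun q : (Fin a → I) × I => snl q.1 q.2 i) = fun q => q.1 ⟨i.1, h⟩ := by
      funext q
      exact dif_pos h
    rw [h1]
    exact (continuous_apply _).comp continuous_fst
  · have h1 : (fun q : (Fin a → I) × I => snl q.1 q.2 i) = fun q => q.2 := by
      funext q
      exact dif_neg h
    rw [h1]
    exact continuous_snd

theorem snl_mem {a : ℕ} (t : Fin a → I) (u : I) (h : t ∈ Cube.boundary (Fin a) ∨ u = 0 ∨ u = 1) :
    snl t u ∈ Cube.boundary (Fin (a + 1)) := by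
  rcases h with ⟨i, hi⟩ | h
  · refine ⟨⟨i.1, by omega⟩, ?_⟩
    have h1 : snl t u ⟨i.1, by omega⟩ = t i := dif_pos i.2
    rw [h1]
    exact hi
  · refine ⟨⟨a, by omega⟩, ?_⟩
    have h1 : snl t u ⟨a, by omega⟩ = u := dif_neg (lt_irrefl a)
    rw [h1]
    exact h

/-- A loop in `Ω^(a+1) S_n` as a loop in `Ω^a` of the homotopy pullback (the last coordinate
becomes the path coordinate). -/
noncomputable def loopIn {a n : ℕ} (l : Lp S.seq (a + 1) n) : Lp (Hpb f g).seq a n :=
  ⟨⟨fun t => ⟨((P.pt n, Q.pt n), ⟨fun u => l.1 (snl t u), l.1.continuous.comp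
      (snl_cont.comp (continuous_const.prodMk continuous_id))⟩), by
        change l.1 (snl t 0) = f.f n (P.pt n)
        rw [f.pt]
        exact l.2 _ (snl_mem t 0 (Or.inr (Or.inl rfl))), by
        change l.1 (snl t 1) = g.f n (Q.pt n)
        rw [g.pt]
        exact l.2 _ (snl_mem t 1 (Or.inr (Or.inr rfl)))⟩, by
      refine Continuous.subtype_mk (continuous_const.prodMk (curry_cont _ ?_)) _
      exact l.1.continuous.comp snl_cont⟩, by
    intro t ht
    refine Subtype.ext (Prod.ext rfl (ContinuousMap.ext fun u => ?_))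
    exact l.2 _ (snl_mem t u (Or.inl ht))⟩

private theorem cb_snl_zero {a : ℕ} (t : Fin (a + 1) → I) (u : I) : snl t u 0 = t 0 :=
  dif_pos (Nat.succ_pos a)

private theorem cb_snl_succ {a : ℕ} (t : Fin (a + 1) → I) (u : I) :
    (fun i : Fin (a + 1) => snl t u i.succ) = snl (fun i : Fin a => t i.succ) u := by
  funext i
  by_cases h : i.1 < a
  · have h1 : snl (fun i : Fin a => t i.succ) u i = t (Fin.succ ⟨i.1, h⟩) := dif_pos h
    have h2 : snl t u i.succ = t ⟨i.1 + 1, Nat.succ_lt_succ h⟩ :=
      dif_pos (show (i.succ).1 < a + 1 from Nat.succ_lt_succ h)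
    rw [h1, h2]
    rfl
  · have h1 : snl (fun i : Fin a => t i.succ) u i = u := dif_neg h
    have h2 : snl t u i.succ = u :=
      dif_neg (show ¬ (i.succ).1 < a + 1 from fun h' => h (Nat.lt_of_succ_lt_succ h'))
    rw [h1, h2]

/-- `loopIn` commutes with suspensions.  (Pointwise: the suspension coordinate is the first one,
the path coordinate the last one; `snl t u ∘ succ = snl (t ∘ succ) u`.) -/
theorem loopIn_st {a n : ℕ} (l : Lp S.seq (a + 1) n) :
    loopIn f g (st l) = st (loopIn f g l) := by
  apply Subtype.ext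
  apply ContinuousMap.ext
  intro t
  refine Subtype.ext (Prod.ext (Prod.ext ?_ ?_) (ContinuousMap.ext fun u => ?_))
  · exact (P.smul_pt (Nat.add_comm 1 n) (R.unit 1 (lam (t 0)))).symm
  · exact (Q.smul_pt (Nat.add_comm 1 n) (R.unit 1 (lam (t 0)))).symm
  · change S.seq.sus n (snl t u 0) (l.1 (fun i => snl t u i.succ)) =
      S.seq.sus n (t 0) (l.1 (snl (fun i => t i.succ) u))
    rw [cb_snl_zero, cb_snl_succ]

theorem loopIn_cst (a n : ℕ) :
    loopIn f g (cstLp S.seq (a + 1) n) = cstLp (Hpb f g).seq a n := by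
  apply Subtype.ext
  apply ContinuousMap.ext
  intro t
  rfl

/-- `loopIn` respects homotopies.  (`exists_of_homotopic`, `homotopic_of`; the homotopy is
`(s, t) ↦ ((pt, pt), u ↦ F s (snl t u))`.) -/
theorem loopIn_homotopic {a n : ℕ} {l l' : Lp S.seq (a + 1) n} (h : GenLoop.Homotopic l l') :
    GenLoop.Homotopic (loopIn f g l) (loopIn f g l') := by
  obtain ⟨H, hc, h0, h1, hb⟩ := exists_of_homotopic h
  have hcu : ∀ (s : I) (t : Fin a → I), Continuous fun u : I => H s (snl t u) := fun s t =>
    hc.comp (continuous_const.prodMk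
      (snl_cont.comp (continuous_const.prodMk continuous_id)))
  have hm0 : ∀ (s : I) (t : Fin a → I), H s (snl t 0) = f.f n (P.pt n) := by
    intro s t
    rw [f.pt]
    exact hb s _ (snl_mem t 0 (Or.inr (Or.inl rfl)))
  have hm1 : ∀ (s : I) (t : Fin a → I), H s (snl t 1) = g.f n (Q.pt n) := by
    intro s t
    rw [g.pt]
    exact hb s _ (snl_mem t 1 (Or.inr (Or.inr rfl)))
  let K : I → (Fin a → I) → HpbX f g n := fun s t =>
    ⟨((P.pt n, Q.pt n), ⟨fun u => H s (snl t u), hcu s t⟩), hm0 s t, hm1 s t⟩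
  have hK : Continuous fun q : I × (Fin a → I) => K q.1 q.2 := by
    refine Continuous.subtype_mk (continuous_const.prodMk (curry_cont _ ?_)) _
    exact hc.comp ((continuous_fst.comp continuous_fst).prodMk
      (snl_cont.comp ((continuous_snd.comp continuous_fst).prodMk continuous_snd)))
  refine homotopic_of (P := (Hpb f g).seq) K hK (fun t => ?_) (fun t => ?_)
    (fun s t ht => ?_)
  · refine Subtype.ext (Prod.ext rfl (ContinuousMap.ext fun u => ?_))
    exact h0 _
  · refine Subtype.ext (Prod.ext rfl (ContinuousMap.ext fun u => ?_))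
    exact h1 _
  · refine Subtype.ext (Prod.ext rfl (ContinuousMap.ext fun u => ?_))
    exact hb s _ (snl_mem t u (Or.inl ht))

private theorem cb_st_heq {P : Seq} {a a' n n' : ℕ} (ha : a = a') (hn : n = n') {x : Lp P a n}
    {x' : Lp P a' n'} (h : HEq x x') : HEq (st x) (st x') := by
  subst ha hn
  rw [eq_of_heq h]

private theorem cb_stn_st {P : Seq} {a n : ℕ} (x : Lp P a n) (j : ℕ) :
    HEq (stn j (st x)) (st (stn j x)) := by
  induction j with
  | zero => rfl
  | succ j ih =>
    exact cb_st_heq (show a + 1 + j = a + j + 1 by omega) (show n + 1 + j = n + j + 1 by omega)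
      ih

private theorem cb_hom {P : Seq} {a a' n n' : ℕ} (ha : a = a') (hn : n = n') {x y : Lp P a n}
    {x' y' : Lp P a' n'} (hx : HEq x x') (hy : HEq y y') (h : GenLoop.Homotopic x' y') :
    GenLoop.Homotopic x y := by
  subst ha hn
  rw [eq_of_heq hx, eq_of_heq hy]
  exact h

private theorem cb_aux (j : ℕ) : ∀ (a n : ℕ) (l : Lp S.seq (a + 1) n),
    GenLoop.Homotopic (stn j l) (stn j (cstLp S.seq (a + 1) n)) →
    StEq (loopIn f g l) (cstLp (Hpb f g).seq a n) := by
  induction j with
  | zero =>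
    intro a n l h
    refine stEq_of_homotopic ?_
    rw [← loopIn_cst f g a n]
    exact loopIn_homotopic f g h
  | succ j ih =>
    intro a n l h
    have h1 : GenLoop.Homotopic (stn j (st l)) (stn j (st (cstLp S.seq (a + 1) n))) :=
      cb_hom (by omega) (by omega) (cb_stn_st l j) (cb_stn_st _ j) h
    have h2 : st (cstLp S.seq (a + 1) n) = cstLp S.seq (a + 1 + 1) (n + 1) :=
      stn_cst S.seq (a + 1) n 1
    rw [h2] at h1
    have h3 := ih (a + 1) (n + 1) (st l) h1
    rw [loopIn_st] at h3
    have h4 : st (cstLp (Hpb f g).seq a n) = cstLp (Hpb f g).seq (a + 1) (n + 1) :=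
      stn_cst (Hpb f g).seq a n 1
    rw [← h4] at h3
    exact stEq_st.1 h3

/-- `loopIn` of a stably trivial loop is stably trivial.  (Induction on the number `j` of
suspensions, for all `a n l`: for `j + 1` apply the induction hypothesis to `st l`, with
`loopIn_st`, `stEq_st`; `stn j (st l)` is heterogeneously equal to `stn (j + 1) l`.) -/
theorem loopIn_stEq {a n : ℕ} {l : Lp S.seq (a + 1) n}
    (h : StEq l (cstLp S.seq (a + 1) n)) :
    StEq (loopIn f g l) (cstLp (Hpb f g).seq a n) := by
  obtain ⟨j, hj⟩ := h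
  exact cb_aux f g j a n l hj

end Pool.Agent.MP_d175a7_gt
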