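import Pool.Agent.Lib.MP_d175a7_gt.ExtSt
import Pool.Agent.Lib.MP_d175a7_gt.WeqB

/-! # Weak equivalences induce bijections on `VV` -/

set_option autoImplicit false
set_option linter.unusedVariables false

namespace Pool.Agent.MP_d175a7_gt

open scoped Topology unitInterval

variable {R : RSp} {k : Type} [CommRing k]

/-- Stably homotopic loops have the same values. -/
theorem vev_stEq {D : Det R k} {P : MSp R} (f : VV D P) {a : ℕ} {x y : Lp P.seq a a}
    (h : StEq x y) : vev f x = vev f y := by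
  obtain ⟨j, hj⟩ := h
  rw [← vev_stn f x j, ← vev_stn f y j]
  exact vev_hty f hj

/-! ### equality in `π_0`, for loops with different indices -/

private theorem vdW_st_heq {P : Seq} {a a' : ℕ} (ha : a = a') {x : Lp P a a} {x' : Lp P a' a'}
    (h : HEq x x') : HEq (st x) (st x') := by
  subst ha
  rw [eq_of_heq h]

private theorem vdW_lp_heq {P Q : Seq} (f : SHom P Q) {a a' : ℕ} (ha : a = a') {x : Lp P a a}
    {x' : Lp P a' a'} (h : HEq x x') : HEq (f.lp x) (f.lp x') := by
  subst ha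
  rw [eq_of_heq h]

private def VdWAt {P : Seq} {a b : ℕ} (N : ℕ) (x : Lp P a a) (y : Lp P b b) : Prop :=
  ∃ (u v : Lp P N N) (i j : ℕ), N = a + i ∧ N = b + j ∧ HEq u (stn i x) ∧ HEq v (stn j y) ∧
    GenLoop.Homotopic u v

private def VdWGer {P : Seq} {a b : ℕ} (x : Lp P a a) (y : Lp P b b) : Prop :=
  ∃ N : ℕ, VdWAt N x y

private theorem vdW_up {P : Seq} {a b : ℕ} {x : Lp P a a} {y : Lp P b b} {N M : ℕ}
    (hNM : N ≤ M) (h : VdWAt N x y) : VdWAt M x y := by
  induction M, hNM using Nat.le_induction with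
  | base => exact h
  | succ M _ ih =>
    obtain ⟨u, v, i, j, hi, hj, hu, hv, H⟩ := ih
    exact ⟨st u, st v, i + 1, j + 1, by omega, by omega, vdW_st_heq hi hu, vdW_st_heq hj hv,
      st_homotopic H⟩

private theorem vdW_symm {P : Seq} {a b : ℕ} {x : Lp P a a} {y : Lp P b b} (h : VdWGer x y) :
    VdWGer y x := by
  obtain ⟨N, u, v, i, j, hi, hj, hu, hv, H⟩ := h
  exact ⟨N, v, u, j, i, hj, hi, hv, hu, H.symm⟩

private theorem vdW_trans {P : Seq} {a b c : ℕ} {x : Lp P a a} {y : Lp P b b} {z : Lp P c c}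
    (h : VdWGer x y) (h' : VdWGer y z) : VdWGer x z := by
  obtain ⟨N, hN⟩ := h
  obtain ⟨M, hM⟩ := h'
  obtain ⟨u, v, i, j, hi, hj, hu, hv, H⟩ := vdW_up (le_max_left N M) hN
  obtain ⟨u', v', i', j', hi', hj', hu', hv', H'⟩ := vdW_up (le_max_right N M) hM
  have e : j = i' := by omega
  subst e
  have e2 : v = u' := eq_of_heq (hv.trans hu'.symm)
  subst e2
  exact ⟨_, u, v', i, j', hi, hj', hu, hv', H.trans H'⟩

private theorem vdW_stEq {P : Seq} {a : ℕ} {x y : Lp P a a} (h : StEq x y) : VdWGer x y := by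
  obtain ⟨i, H⟩ := h
  exact ⟨a + i, stn i x, stn i y, i, i, rfl, rfl, HEq.rfl, HEq.rfl, H⟩

private theorem vdW_hty {P : Seq} {a : ℕ} {x y : Lp P a a} (h : GenLoop.Homotopic x y) :
    VdWGer x y := vdW_stEq ⟨0, h⟩

private theorem vdW_stn {P : Seq} {a : ℕ} (x : Lp P a a) (j : ℕ) : VdWGer (stn j x) x :=
  ⟨a + j, stn j x, stn j x, 0, j, rfl, rfl, HEq.rfl, HEq.rfl, GenLoop.Homotopic.refl _⟩

private theorem vdW_st {P : Seq} {a : ℕ} (x : Lp P a a) : VdWGer (st x) x := vdW_stn x 1

private theorem vdW_heq {P : Seq} {a b : ℕ} (h : a = b) {x : Lp P a a} {y : Lp P b b}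
    (hxy : HEq x y) : VdWGer x y := by
  subst h
  rw [eq_of_heq hxy]
  exact vdW_hty (GenLoop.Homotopic.refl _)

private theorem vdW_inj {P Q : Seq} {f : SHom P Q} (hf : f.IsWeq) {a b : ℕ} {x : Lp P a a}
    {y : Lp P b b} (h : VdWGer (f.lp x) (f.lp y)) : VdWGer x y := by
  obtain ⟨N, u, v, i, j, hi, hj, hu, hv, H⟩ := h
  obtain ⟨X, hX⟩ : ∃ X : Lp P N N, HEq X (stn i x) := by
    subst hi
    exact ⟨_, HEq.rfl⟩
  obtain ⟨Y, hY⟩ : ∃ Y : Lp P N N, HEq Y (stn j y) := by
    subst hj
    exact ⟨_, HEq.rfl⟩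
  have e1 : f.lp X = u := by
    have h1 := vdW_lp_heq f hi hX
    rw [f.lp_stn] at h1
    exact eq_of_heq (h1.trans hu.symm)
  have e2 : f.lp Y = v := by
    have h1 := vdW_lp_heq f hj hY
    rw [f.lp_stn] at h1
    exact eq_of_heq (h1.trans hv.symm)
  rw [← e1, ← e2] at H
  have h1 : StEq X Y := hf.1 N N X Y ⟨0, H⟩
  exact vdW_trans (vdW_symm (vdW_trans (vdW_heq hi hX) (vdW_stn x i)))
    (vdW_trans (vdW_stEq h1) (vdW_trans (vdW_heq hj hY) (vdW_stn y j)))

private theorem vdW_vev {D : Det R k} {P : MSp R} (f : VV D P) {a b : ℕ} {x : Lp P.seq a a}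
    {y : Lp P.seq b b} (h : VdWGer x y) : vev f x = vev f y := by
  obtain ⟨N, u, v, i, j, hi, hj, hu, hv, H⟩ := h
  have h1 : vev f u = vev f x := by
    subst hi
    rw [eq_of_heq hu]
    exact vev_stn f x i
  have h2 : vev f v = vev f y := by
    subst hj
    rw [eq_of_heq hv]
    exact vev_stn f y j
  rw [← h1, ← h2]
  exact vev_hty f H

/-- Preimages of all the high suspensions. -/
private theorem vdW_ex {P Q : Seq} {f : SHom P Q} (hf : f.IsWeq) {a : ℕ} (y : Lp Q a a) :
    ∃ j₀ : ℕ, ∀ j ≥ j₀, ∀ (M : ℕ) (z : Lp Q M M), M = a + j → HEq z (stn j y) →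
      ∃ X : Lp P M M, GenLoop.Homotopic (f.lp X) z := by
  obtain ⟨j, x, i, H⟩ := hf.2 a a y
  have key : ∀ l ≥ j + i, ∃ X : Lp P (a + l) (a + l),
      GenLoop.Homotopic (f.lp X) (stn l y) := by
    intro l hl
    induction l, hl using Nat.le_induction with
    | base =>
      have h1 : ∀ l : ℕ, HEq (stn l (stn j y)) (stn (j + l) y) := by
        intro l
        induction l with
        | zero => exact HEq.rfl
        | succ l ih => exact vdW_st_heq (show a + j + l = a + (j + l) by omega) ih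
      have h2 : ∀ (M : ℕ) (w : Lp Q M M) (w' : Lp Q (a + (j + i)) (a + (j + i)))
          (X : Lp P M M), M = a + (j + i) → HEq w w' → GenLoop.Homotopic (f.lp X) w →
          ∃ X : Lp P (a + (j + i)) (a + (j + i)), GenLoop.Homotopic (f.lp X) w' := by
        intro M w w' X hM hw hX
        subst hM
        rw [eq_of_heq hw] at hX
        exact ⟨X, hX⟩
      refine h2 (a + j + i) (stn i (stn j y)) (stn (j + i) y) (stn i x) (by omega) (h1 i) ?_
      rw [f.lp_stn]
      exact H
    | succ l _ ih =>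
      obtain ⟨X, hX⟩ := ih
      refine ⟨st X, ?_⟩
      rw [f.lp_st]
      exact st_homotopic hX
  refine ⟨j + i, fun l hl M z hM hz => ?_⟩
  subst hM
  rw [eq_of_heq hz]
  exact key l hl

private theorem vdW_ex' {P Q : Seq} {f : SHom P Q} (hf : f.IsWeq) {a : ℕ} (y : Lp Q a a) :
    ∃ (c : ℕ) (X : Lp P c c), VdWGer (f.lp X) y := by
  obtain ⟨j, hj⟩ := vdW_ex hf y
  obtain ⟨X, hX⟩ := hj j le_rfl (a + j) (stn j y) rfl HEq.rfl
  exact ⟨a + j, X, vdW_trans (vdW_hty hX) (vdW_stn y j)⟩

/-- Suspensions and concatenations. -/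
private theorem vdW_tA {P : Seq} {a : ℕ} (y y' : Lp P (a + 1) (a + 1)) (j : ℕ) :
    ∃ z z' : Lp P (a + j + 1) (a + j + 1), HEq z (stn j y) ∧ HEq z' (stn j y') ∧
      VdWGer (GenLoop.transAt 0 z z') (GenLoop.transAt 0 y y') := by
  induction j with
  | zero => exact ⟨y, y', HEq.rfl, HEq.rfl, vdW_hty (GenLoop.Homotopic.refl _)⟩
  | succ j ih =>
    obtain ⟨z, z', hz, hz', H⟩ := ih
    have e : a + j + 1 = a + 1 + j := by omega
    exact ⟨st z, st z', vdW_st_heq e hz, vdW_st_heq e hz',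
      vdW_trans (vdW_hty (st_transAt z z').symm) (vdW_trans (vdW_st _) H)⟩

/-- Injectivity.  Proof: if `vmap D F f = vmap D F g` and `y` is a loop of `Q`, by the second part of
`hF` there are `j` and `x : Lp P.seq (a + j) (a + j)` with `StEq (F.sh.lp x) (stn j y)`, hence
`vev f y = vev f (stn j y) = vev f (F.sh.lp x) = vev (vmap D F f) x`, the same for `g`. -/
theorem vmap_inj (D : Det R k) {P Q : MSp R} (F : MHom P Q) (hF : F.IsWeq) :
    Function.Injective (vmap D F) := by
  intro f g hfg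
  refine VV_ext fun a y => ?_
  obtain ⟨c, X, hX⟩ := vdW_ex' hF y
  rw [← vdW_vev f hX, ← vdW_vev g hX, ← vev_vmap, ← vev_vmap, hfg]

/-- Surjectivity.  Proof: given `g : VV D P`, choose for every loop `y : Lp Q.seq a a` a number `j`
and `x : Lp P.seq (a + j) (a + j)` with `StEq (F.sh.lp x) (stn j y)` (second part of `hF`) and put
`f y := vev g x`.
Independence (*): if `x : Lp P.seq c c`, `c = a + j`, and `x' : Lp P.seq c' c'`, `c' = a + j'`, are
two such loops for `y`, then `vev g x = vev g x'`: suspend both until the indices agree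
(`a + j + j' = a + j' + j`; as in `WeqB.lean` use `HEq` or `subst` lemmas for `stn`): the images under
`F` are stably homotopic, so the loops are by the first part of `hF`; use `vev_stEq`, `vev_stn`.
The properties of `f`, each with (*):
* `GenLoop.Homotopic y y'` gives `stn j y ~ stn j y'`;
* `st y`: if `StEq (F.sh.lp x) (stn j y)` then `StEq (F.sh.lp (st x)) (stn j (st y))` up to the
  index identification `a + j + 1 = a + 1 + j`;
* `transAt 0 y y'`: suspend until both loops have the same `j`; then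
  `StEq (F.sh.lp (transAt 0 x x')) (stn j (transAt 0 y y'))` by `lp_transAt`, `st_transAt`,
  `transAt_homotopic` (the indices `a + 1 + j` are successors: write `a + 1 + j = a + j + 1`);
* `extr h h y b`: `StEq (F.sh.lp (extr _ _ x b)) (stn j (extr h h y b))` by `lp_extr`, `extr_stEq`
  and `stn_extr`, and `vev_extr`.
Finally `vmap D F f = g`: for a loop `x` of `P` take `j = 0`. -/
theorem vmap_surj (D : Det R k) {P Q : MSp R} (F : MHom P Q) (hF : F.IsWeq) :
    Function.Surjective (vmap D F) := by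
  intro g
  have hF' : F.sh.IsWeq := hF
  choose c X hX using fun (a : ℕ) (y : Lp Q.seq a a) => vdW_ex' hF' y
  -- independence of the choice
  have key : ∀ {a b : ℕ} (y : Lp Q.seq a a) (x : Lp P.seq b b), VdWGer (F.sh.lp x) y →
      vev g (X a y) = vev g x := by
    intro a b y x h
    exact vdW_vev g (vdW_inj hF' (vdW_trans (hX a y) (vdW_symm h)))
  refine ⟨⟨fun a y => vev g (X a y), ?_, ?_, ?_, ?_⟩, ?_⟩
  · intro a y y' h
    exact key y (X a y') (vdW_trans (hX a y') (vdW_symm (vdW_hty h)))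
  · intro a y
    exact key (st y) (X a y) (vdW_trans (hX a y) (vdW_symm (vdW_st y)))
  · intro a y y'
    beta_reduce
    obtain ⟨j, hj⟩ := vdW_ex hF' y
    obtain ⟨j', hj'⟩ := vdW_ex hF' y'
    obtain ⟨z, z', hz, hz', H⟩ := vdW_tA y y' (max j j')
    obtain ⟨x, hx⟩ := hj _ (le_max_left j j') _ z (by omega) hz
    obtain ⟨x', hx'⟩ := hj' _ (le_max_right j j') _ z' (by omega) hz'
    have e1 : VdWGer (F.sh.lp x) y :=
      vdW_trans (vdW_hty hx) (vdW_trans (vdW_heq (by omega) hz) (vdW_stn y _))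
    have e2 : VdWGer (F.sh.lp x') y' :=
      vdW_trans (vdW_hty hx') (vdW_trans (vdW_heq (by omega) hz') (vdW_stn y' _))
    have e3 : VdWGer (F.sh.lp (GenLoop.transAt 0 x x')) (GenLoop.transAt 0 y y') := by
      rw [lp_transAt]
      exact vdW_trans (vdW_hty (transAt_homotopic hx hx')) H
    rw [key y x e1, key y' x' e2, key _ _ e3]
    exact vev_transAt g x x'
  · intro a b c' h y r
    beta_reduce
    obtain ⟨j, hj⟩ := vdW_ex hF' y
    obtain ⟨x, hx⟩ := hj j le_rfl (a + j) (stn j y) rfl HEq.rfl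
    have e1 : VdWGer (F.sh.lp x) y := vdW_trans (vdW_hty hx) (vdW_stn y _)
    have hc : a + j + b = c' + j := by omega
    have e2 : VdWGer (F.sh.lp (extr hc hc x r)) (extr h h y r) := by
      rw [lp_extr]
      refine vdW_trans (vdW_hty (extr_homotopic hc hc r hx)) ?_
      rw [← stn_extr h h j hc hc y r]
      exact vdW_stn _ j
    rw [key y x e1, key _ _ e2]
    exact vev_extr g hc x r
  · refine VV_ext fun a x => ?_
    exact key (F.sh.lp x) x (vdW_hty (GenLoop.Homotopic.refl _))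

/-- The isomorphism of a weak equivalence. -/
noncomputable def veq (D : Det R k) {P Q : MSp R} (F : MHom P Q) (hF : F.IsWeq) :
    VV D Q ≃ₗ[DualNumber k] VV D P :=
  LinearEquiv.ofBijective (vmap D F) ⟨vmap_inj D F hF, vmap_surj D F hF⟩

theorem veq_apply (D : Det R k) {P Q : MSp R} (F : MHom P Q) (hF : F.IsWeq) (f : VV D Q) :
    veq D F hF f = vmap D F f := rfl

end Pool.Agent.MP_d175a7_gt
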