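import Pool.Agent.Lib.MP_d175a7_gt.VdSpl
import Pool.Agent.Lib.MP_d175a7_gt.VdW

/-! # `VV` of free modules, products and free objects -/

set_option autoImplicit false
set_option linter.unusedVariables false

namespace Pool.Agent.MP_d175a7_gt

open scoped Topology unitInterval

variable {R : RSp} {k : Type} [CommRing k]

/-- The generator of `VV D R`: the function `D` itself. -/
noncomputable def vgen (D : Det R k) : VV D R.self :=
  ⟨D.D, fun a x y h => D.hty h, fun a x => D.st x, fun a x y => D.add x y, by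
    intro a b c h y x
    subst h
    have h1 : extr (P := R.self) rfl rfl y x = ext y x := extr_self y x
    rw [h1]
    exact D.mul y x⟩

/-- `VV D R` is free of rank one, `f ↦ f(1)`.  Proof of bijectivity: `f x = f (1 x) = f(1) D(x)`
(`extr_one`, `vev_extr` with `0 + a = a`), and `D(1) = 1`. -/
noncomputable def VVself (D : Det R k) : VV D R.self ≃ₗ[DualNumber k] DualNumber k where
  toFun f := vev f (oneLp R)
  map_add' f g := rfl
  map_smul' c f := rfl
  invFun c := c • vgen D
  left_inv f := by
    apply VV_ext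
    intro a x
    have h1 := vev_extr f (Nat.zero_add a) (oneLp R) x
    rw [extr_one] at h1
    exact h1.symm
  right_inv c := by
    change c * D.D 0 (oneLp R) = c
    rw [D.one, mul_one]

/-- The isomorphism between `R^r` and the full product. -/
def freeIn (R : RSp) (r : ℕ) : MHom (free R r) (subM (spT (fun _ : Fin r => R.self))) where
  f n x := ⟨x, trivial⟩
  cont n T _ _ _ g hg := Continuous.subtype_mk hg _
  pt n := rfl
  act n A x := rfl
  smul h r x := rfl

/-- The inverse. -/
def freeOut (R : RSp) (r : ℕ) : MHom (subM (spT (fun _ : Fin r => R.self))) (free R r) where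
  f n x := x.1
  cont n T _ _ _ g hg := continuous_subtype_val.comp hg
  pt n := rfl
  act n A x := rfl
  smul h r x := rfl

theorem freeIn_isWeq (R : RSp) (r : ℕ) : (freeIn R r).IsWeq :=
  isWeq_of_inv _ (freeOut R r).sh (fun n x => rfl) (fun n y => rfl)

theorem freeOut_isWeq (R : RSp) (r : ℕ) : (freeOut R r).IsWeq :=
  isWeq_of_inv _ (freeIn R r).sh (fun n x => rfl) (fun n y => rfl)

/-- `VV D (R^r) ≃ k[ε]^r`. -/
noncomputable def VVfree (D : Det R k) (r : ℕ) :
    VV D (free R r) ≃ₗ[DualNumber k] (Fin r → DualNumber k) :=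
  ((veq D (freeIn R r) (freeIn_isWeq R r)).symm.trans (VVsub D (spT (fun _ : Fin r => R.self)))).trans
    (LinearEquiv.piCongrRight fun _ => VVself D)

/-- The coordinates of a free object. -/
noncomputable def crd (D : Det R k) (a : FreeObj R) :
    VV D a.P ≃ₗ[DualNumber k] (Fin a.r → DualNumber k) :=
  (veq D a.γ a.hγ).symm.trans ((veq D a.β a.hβ).trans
    ((veq D a.α a.hα).symm.trans (VVfree D a.r)))

/-! ### products -/

/-- The constant homomorphism. -/
def cstM (P Q : MSp R) : MHom P Q where
  f n _ := Q.pt n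
  cont _ _ _ _ _ _ _ := continuous_const
  pt _ := rfl
  act n A x := (Q.act_pt n A).symm
  smul h r x := (Q.smul_pt h r).symm

/-- The first inclusion. -/
def inM1 (P Q : MSp R) : MHom P (P.prod Q) := MHom.pair (MHom.id P) (cstM P Q)

/-- The second inclusion. -/
def inM2 (P Q : MSp R) : MHom Q (P.prod Q) := MHom.pair (cstM Q P) (MHom.id Q)

/-- The splitting of a product. -/
noncomputable def splP (P Q : MSp R) : Splt (P.prod Q).seq where
  u := ((MHom.fst P Q).comp (inM1 P Q)).sh
  v := ((MHom.snd P Q).comp (inM2 P Q)).sh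
  S n t t' z := (P.seq.sus n t z.1, Q.seq.sus n t' z.2)
  cont n T _ _ _ g h x hg hh hx := (P.seq.sus_cont n T g (fun t => (x t).1) hg
    (continuous_fst.comp hx)).prodMk (Q.seq.sus_cont n T h (fun t => (x t).2) hh
      (continuous_snd.comp hx))
  diag n t x := rfl
  r0 n t x := by
    change (P.seq.sus n t x.1, Q.seq.sus n 0 x.2) = (P.seq.sus n t x.1, Q.seq.sus n t (Q.pt n))
    have h1 := Q.seq.sus_zero n x.2
    have h2 := Q.seq.sus_pt n t
    exact Prod.ext rfl (h1.trans h2.symm)
  l1 n t x := by
    change (P.seq.sus n 1 x.1, Q.seq.sus n t x.2) = (P.seq.sus n t (P.pt n), Q.seq.sus n t x.2)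
    have h1 := P.seq.sus_one n x.1
    have h2 := P.seq.sus_pt n t
    exact Prod.ext (h1.trans h2.symm) rfl
  base n t t' := Prod.ext (P.seq.sus_pt n t) (Q.seq.sus_pt n t')

/-- `VV D (P × Q) ≃ VV D P × VV D Q`, by restriction. -/
noncomputable def VVprod (D : Det R k) (P Q : MSp R) :
    VV D (P.prod Q) ≃ₗ[DualNumber k] (VV D P × VV D Q) where
  toFun f := (vmap D (inM1 P Q) f, vmap D (inM2 P Q) f)
  map_add' f g := rfl
  map_smul' c f := rfl
  invFun g := vmap D (MHom.fst P Q) g.1 + vmap D (MHom.snd P Q) g.2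
  left_inv f := by
    apply VV_ext
    intro a x
    exact (vev_split (splP P Q) f x).symm
  right_inv g := by
    refine Prod.ext (VV_ext fun a x => ?_) (VV_ext fun a x => ?_)
    · change vev g.1 _ + vev g.2 _ = vev g.1 x
      rw [vev_pt g.2 _ (fun t => rfl), add_zero]
      rfl
    · change vev g.1 _ + vev g.2 _ = vev g.2 x
      rw [vev_pt g.1 _ (fun t => rfl), zero_add]
      rfl

theorem VVprod_symm_apply (D : Det R k) (P Q : MSp R) (g : VV D P × VV D Q) :
    (VVprod D P Q).symm g = vmap D (MHom.fst P Q) g.1 + vmap D (MHom.snd P Q) g.2 := rfl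

/-- `VV` of the zero module is zero. -/
theorem VVzero (D : Det R k) (f : VV D (MSp.zero : MSp R)) : f = 0 := by
  apply VV_ext
  intro a x
  rw [vev_zero]
  exact vev_pt f x fun t => rfl

end Pool.Agent.MP_d175a7_gt
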