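import Pool.Agent.Lib.MP_d175a7_gt.CyV
import Pool.Agent.Lib.MP_d175a7_gt.VdF

/-! # Free objects from cyclic families, and the data for the detection -/

set_option autoImplicit false
set_option linter.unusedVariables false

namespace Pool.Agent.MP_d175a7_gt

open scoped Topology unitInterval

/-- A module with a zigzag of weak equivalences to `R^r`. -/
structure ZF (R : RSp) (r : ℕ) : Type 1 where
  /-- the module -/
  P : MSp R
  /-- auxiliary modules -/
  P' : MSp R
  /-- auxiliary modules -/
  P'' : MSp R
  /-- the zigzag -/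
  α : MHom P' (free R r)
  /-- the zigzag -/
  β : MHom P' P''
  /-- the zigzag -/
  γ : MHom P P''
  hα : α.IsWeq
  hβ : β.IsWeq
  hγ : γ.IsWeq

variable {R : RSp} {k : Type} [CommRing k] {m r : ℕ}

/-- The isomorphism `∏_m R^r → R^(m r)`. -/
def flatM (R : RSp) (m r : ℕ) :
    MHom (subM (spT (fun _ : Fin m => free R r))) (free R (m * r)) where
  f n z := fun i => z.1 (finProdFinEquiv.symm i).1 (finProdFinEquiv.symm i).2
  cont n T _ _ _ g hg := continuous_pi fun i => (continuous_apply _).comp
    ((continuous_apply (finProdFinEquiv.symm i).1).comp (continuous_subtype_val.comp hg))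
  pt n := rfl
  act n A x := rfl
  smul h r x := rfl

/-- The inverse. -/
def unflatM (R : RSp) (m r : ℕ) :
    MHom (free R (m * r)) (subM (spT (fun _ : Fin m => free R r))) where
  f n z := ⟨fun a i => z (finProdFinEquiv (a, i)), trivial⟩
  cont n T _ _ _ g hg := Continuous.subtype_mk (continuous_pi fun a => continuous_pi fun i =>
    (continuous_apply _).comp hg) _
  pt n := rfl
  act n A x := rfl
  smul h r x := rfl

theorem flatM_isWeq (R : RSp) (m r : ℕ) : (flatM R m r).IsWeq :=
  isWeq_of_inv _ (unflatM R m r).sh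
    (fun n x => Subtype.ext (funext fun a => funext fun i => by
      change x.1 (finProdFinEquiv.symm (finProdFinEquiv (a, i))).1
        (finProdFinEquiv.symm (finProdFinEquiv (a, i))).2 = x.1 a i
      rw [Equiv.symm_apply_apply]))
    (fun n y => funext fun i => by
      change y (finProdFinEquiv ((finProdFinEquiv.symm i).1, (finProdFinEquiv.symm i).2)) = y i
      rw [Prod.mk.eta, Equiv.apply_symm_apply])

/-- A submodule of a product of free modules as a free object. -/
noncomputable def ZF.sub (F : Fin m → ZF R r) (S : Sp (fun a => (F a).P)) : FreeObj R where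
  P := subM S
  r := m * r
  P' := subM (spT (fun a => (F a).P'))
  P'' := subM (spT (fun a => (F a).P''))
  α := (dia (spT (fun a => (F a).P')) (fun a => (F a).α)).comp (flatM R m r)
  β := dia (spT (fun a => (F a).P')) (fun a => (F a).β)
  γ := dia S (fun a => (F a).γ)
  hα := MHom.isWeq_comp (dia_isWeq _ _ fun a => (F a).hα) (flatM_isWeq R m r)
  hβ := dia_isWeq _ _ fun a => (F a).hβ
  hγ := dia_isWeq _ _ fun a => (F a).hγ

/-- The data: a cyclic family of free modules `Z_a` of rank `r`, homomorphisms `Z_(a-1) → Z_a` with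
trivial composites, and bases of `VV D Z_a` in which these homomorphisms are given by diagonal
matrices `ε c`. -/
structure CycDat (D : Det R k) (m r : ℕ) (c : Fin m → Fin r → k) : Type 1 where
  /-- the free modules -/
  F : Fin m → ZF R r
  /-- the homomorphisms -/
  al : ∀ a, MHom (F (prv a)).P (F a).P
  comp : ∀ a n x, (al a).f n ((al (prv a)).f n x) = (F a).P.pt n
  /-- the bases -/
  b : ∀ a, (Fin r → DualNumber k) ≃ₗ[DualNumber k] VV D (F a).P
  rel : ∀ a j, vmap D (al a) (b a (Pi.single j 1)) =
    (TrivSqZeroExt.inr (c (prv a) j) : DualNumber k) • b (prv a) (Pi.single j 1)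

variable {D : Det R k} {c : Fin m → Fin r → k}

/-- The cyclic family. -/
def CycDat.cyc (Y : CycDat D m r c) : CycM R m where
  Z a := (Y.F a).P
  al := Y.al
  comp := Y.comp

/-- The free object at the vertex `s`. -/
noncomputable def CycDat.qo (Y : CycDat D m r c) (hm : 2 ≤ m) (s : Fin m → Bool) : FreeObj R :=
  ZF.sub Y.F (Y.cyc.sp hm s)

/-- The isomorphism `VV D P ≃ VV D (P × 0)`. -/
noncomputable def VVsgl (D : Det R k) (P : MSp R) :
    VV D P ≃ₗ[DualNumber k] VV D (P.prod MSp.zero) where
  toFun f := vmap D (MHom.fst P MSp.zero) f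
  map_add' f g := rfl
  map_smul' c f := rfl
  invFun g := vmap D (inM1 P MSp.zero) g
  left_inv f := rfl
  right_inv g := rfl

/-- The homomorphism between one element lists. -/
def sgl {a b : FreeObj R} (f : MHom a.P b.P) : MHom (PiL [a]) (PiL [b]) :=
  f.prod (MHom.id MSp.zero)

theorem sgl_isWeq {a b : FreeObj R} {f : MHom a.P b.P} (hf : f.IsWeq) : (sgl f).IsWeq :=
  MHom.isWeq_prod hf (MHom.isWeq_id _)

/-- The basis of `VV` of the product module given by the bases of the factors. -/
noncomputable def CycDat.bS (Y : CycDat D m r c) (S : Sp (fun a => (Y.F a).P)) :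
    (Fin m × Fin r → DualNumber k) ≃ₗ[DualNumber k] VV D (subM S) :=
  ((LinearEquiv.curry (DualNumber k) (DualNumber k) (Fin m) (Fin r)).trans
    (LinearEquiv.piCongrRight Y.b)).trans (VVsub D S).symm

/-- The basis elements.  Proof: `(VVsub D S).symm g = ∑ i, vmap D (prj S i) (g i)` (`rfl`), and
`g i = Y.b i (fun j => Pi.single (a, j0) 1 (i, j))` is `Y.b a (Pi.single j0 1)` for `i = a` and `0`
otherwise (`Finset.sum_eq_single a`). -/
theorem CycDat.bS_single (Y : CycDat D m r c) (S : Sp (fun a => (Y.F a).P)) (a : Fin m)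
    (j : Fin r) :
    Y.bS S (Pi.single (a, j) 1) = vmap D (prj S a) (Y.b a (Pi.single j 1)) := by
  have h1 : Y.bS S (Pi.single (a, j) 1) = ∑ i, vmap D (prj S i)
      (Y.b i (fun j' => (Pi.single (a, j) 1 : Fin m × Fin r → DualNumber k) (i, j'))) := rfl
  rw [h1, Finset.sum_eq_single a]
  · congr 2
    funext j'
    by_cases h : j' = j
    · subst h
      rw [Pi.single_eq_same, Pi.single_eq_same]
    · rw [Pi.single_eq_of_ne h, Pi.single_eq_of_ne (fun h2 => h (congrArg Prod.snd h2))]
  · intro i _ hi
    have h2 : (fun j' => (Pi.single (a, j) 1 : Fin m × Fin r → DualNumber k) (i, j')) = 0 := by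
      funext j'
      rw [Pi.single_eq_of_ne (fun h2 => hi (congrArg Prod.fst h2))]
      rfl
    rw [h2, map_zero, map_zero]
  · intro h
    exact absurd (Finset.mem_univ a) h

end Pool.Agent.MP_d175a7_gt
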