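import Pool.Agent.Lib.MP_d175a7_gt.Bf

/-!
# The modules `Ω^v sh_v M` and free objects

`Om v M = Ω^v sh_v M`, the weak equivalence `M → Om v M`, functoriality.
-/

set_option autoImplicit false
set_option linter.unusedVariables false

namespace Pool.Agent.MP_d175a7_gt

open scoped Topology unitInterval

theorem stn_homotopic {P : Seq} {a n : ℕ} {x y : Lp P a n} (h : GenLoop.Homotopic x y) (i : ℕ) :
    GenLoop.Homotopic (stn i x) (stn i y) := by
  induction i with
  | zero => exact h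
  | succ i ih => exact st_homotopic ih

theorem StEq.lp {P Q : Seq} (f : SHom P Q) {a n : ℕ} {x y : Lp P a n} (h : StEq x y) :
    StEq (f.lp x) (f.lp y) := by
  obtain ⟨j, hj⟩ := h
  refine ⟨j, ?_⟩
  rw [← f.lp_stn, ← f.lp_stn]
  exact lp_homotopic f hj

theorem StEq.stn {P : Seq} {a n : ℕ} {x y : Lp P a n} (h : StEq x y) (i : ℕ) :
    StEq (stn i x) (stn i y) := by
  obtain ⟨j, hj⟩ := h
  refine ⟨j, ?_⟩
  have h1 := stn_homotopic hj i
  rw [stn_stn_homotopic] at h1 ⊢
  rw [Nat.add_comm i j]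
  exact h1

theorem StEq.of_stn' {P : Seq} {a n : ℕ} {x y : Lp P a n} (j : ℕ)
    (h : StEq (Pool.Agent.MP_d175a7_gt.stn j x) (Pool.Agent.MP_d175a7_gt.stn j y)) :
    StEq x y := by
  obtain ⟨i, hi⟩ := h
  exact StEq.of_stn j i hi

/-- If `f` and `f ≫ g` are weak equivalences, so is `g`. -/
theorem isWeq_of_comp' {P Q S : Seq} {f : SHom P Q} {g : SHom Q S} (hfg : (f.comp g).IsWeq)
    (hf : f.IsWeq) : g.IsWeq := by
  have hcomp : ∀ {a n : ℕ} (x : Lp P a n), (f.comp g).lp x = g.lp (f.lp x) := fun x => rfl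
  constructor
  · intro a n z z' hz
    obtain ⟨j, x, hx⟩ := hf.2 a n z
    obtain ⟨j', x', hx'⟩ := hf.2 (a + j) (n + j) (stn j z')
    have h1 : StEq (f.lp (stn j' x)) (stn j' (stn j z)) := by
      rw [f.lp_stn]
      exact hx.stn j'
    have h2 : StEq (stn j' (stn j (g.lp z))) (stn j' (stn j (g.lp z'))) := (hz.stn j).stn j'
    rw [← g.lp_stn, ← g.lp_stn, ← g.lp_stn, ← g.lp_stn] at h2
    have h3 : StEq ((f.comp g).lp (stn j' x)) ((f.comp g).lp x') :=
      ((h1.lp g).trans h2).trans (hx'.lp g).symm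
    have h4 : StEq (f.lp (stn j' x)) (f.lp x') := (hfg.1 _ _ _ _ h3).lp f
    exact ((h1.symm.trans (h4.trans hx')).of_stn' j').of_stn' j
  · intro a n y
    obtain ⟨j, x, hx⟩ := hfg.2 a n y
    exact ⟨j, f.lp x, hx⟩

variable {R : RSp}

/-- The homomorphism to the zero module. -/
def toZero (M : MSp R) : MHom M MSp.zero where
  f n x := ()
  cont n T _ _ _ g hg := continuous_const
  pt n := rfl
  act n A x := rfl
  smul h r x := rfl

/-- `Ω^v sh_v M`. -/
def Om (v : ℕ) (M : MSp R) : MSp R := Zb v (MHom.id MSp.zero) (toZero M)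

/-- `M = 0 ×_0 M`. -/
def pbz (M : MSp R) : MHom M (Pb (MHom.id MSp.zero) (toZero M)) where
  f n x := ⟨((), x), rfl⟩
  cont n T _ _ _ g hg := Continuous.subtype_mk (continuous_const.prodMk hg) _
  pt n := rfl
  act n A x := rfl
  smul h r x := rfl

/-- The inverse of `pbz`. -/
def pbz' (M : MSp R) : MHom (Pb (MHom.id MSp.zero) (toZero M)) M where
  f n x := x.1.2
  cont n T _ _ _ g hg := continuous_snd.comp (continuous_subtype_val.comp hg)
  pt n := rfl
  act n A x := rfl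
  smul h r x := rfl

theorem pbz_isWeq (M : MSp R) : (pbz M).IsWeq :=
  isWeq_of_inv _ (pbz' M).sh (fun n x => rfl) (fun n y => rfl)

/-- `M → Ω^v sh_v M`. -/
def omin (v : ℕ) (M : MSp R) : MHom M (Om v M) :=
  (pbz M).comp (ziota v (MHom.id MSp.zero) (toZero M))

theorem omin_isWeq (v : ℕ) (M : MSp R) : (omin v M).IsWeq :=
  MHom.isWeq_comp (pbz_isWeq M) (ziota_isWeq v _ _)

/-! ### Restriction of scalars -/

variable {S : RSp} (φ : RHom R S)

theorem rm_res (P : MSp S) {n v k : ℕ} (h : n + v = k) (x : P.X n) (u : Sph v) :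
    rm (P.res φ) h x u = rm P h x u := by
  change P.act k _ (P.smul _ (φ.f v (R.unit v u)) x) = _
  rw [φ.unit]
  rfl

/-- For `κ : C → N`, `ρ : M → N` over `S`, and an `R`-linear map `γ` from `C ×_N M` to a module `L`
over `R`: the map `(c, y) ↦ (u ↦ γ(c u, y(u)))` to `Ω^v sh_v L`. -/
def zOm {C M N : MSp S} (v : ℕ) (κ : MHom C N) (ρ : MHom M N) {L : MSp R}
    (γ : MHom ((Pb κ ρ).res φ) L) : MHom ((Zb v κ ρ).res φ) (Om v L) where
  f n x := ⟨((), ⟨fun u => γ.f (n + v) ⟨(rm C rfl x.1.1 u, x.1.2 u), by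
      change κ.f (n + v) (rm C rfl x.1.1 u) = ρ.f (n + v) (x.1.2 u)
      rw [map_rm, x.2.2]⟩, by
      refine γ.cont (n + v) (Sph v) _ ?_
      exact Continuous.subtype_mk ((rm_cont C rfl (Sph v) (fun _ => x.1.1) (fun u => u)
        continuous_const continuous_id).prodMk x.1.2.continuous) _⟩), by
    constructor
    · change γ.f (n + v) ⟨(rm C rfl x.1.1 OnePoint.infty, x.1.2 OnePoint.infty), _⟩ = L.pt (n + v)
      rw [← γ.pt]
      congr 1
      exact Subtype.ext (Prod.ext (rm_infty C rfl _) x.2.1)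
    · intro u
      rfl⟩
  cont n T _ _ _ g hg := by
    have h1 : Continuous fun t => (g t).1.1 :=
      continuous_fst.comp (continuous_subtype_val.comp hg)
    have h2 : Continuous fun t => (g t).1.2 :=
      continuous_snd.comp (continuous_subtype_val.comp hg)
    refine Continuous.subtype_mk (continuous_const.prodMk (curry_cont _ ?_)) _
    refine γ.cont (n + v) (T × Sph v) _ ?_
    exact Continuous.subtype_mk ((rm_cont C rfl (T × Sph v) (fun q => (g q.1).1.1)
      (fun q => q.2) (h1.comp continuous_fst) continuous_snd).prodMk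
      (uncurry_cont (fun t => (g t).1.2) h2)) _
  pt n := Subtype.ext (Prod.ext rfl (ContinuousMap.ext fun u => by
    change γ.f (n + v) ⟨(rm C rfl (C.pt n) u, M.pt (n + v)), _⟩ = L.pt (n + v)
    rw [← γ.pt]
    congr 1
    exact Subtype.ext (Prod.ext (rm_pt C rfl _) rfl)))
  act n A x := Subtype.ext (Prod.ext rfl (ContinuousMap.ext fun u => by
    change γ.f (n + v) ⟨(rm C rfl (C.act n A x.1.1) u, M.act (n + v) (blk rfl A 1) (x.1.2 u)), _⟩ =
      L.act (n + v) (blk rfl A 1) (γ.f (n + v) ⟨(rm C rfl x.1.1 u, x.1.2 u), _⟩)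
    rw [← γ.act]
    congr 1
    exact Subtype.ext (Prod.ext (rm_act_left C rfl A _ u) rfl)))
  smul {m n k} h r x := Subtype.ext (Prod.ext rfl (ContinuousMap.ext fun u => by
    change γ.f (k + v) ⟨(rm C rfl (C.smul h (φ.f m r) x.1.1) u,
        M.smul (addv h v) (φ.f m r) (x.1.2 u)), _⟩ =
      L.smul (addv h v) r (γ.f (n + v) ⟨(rm C rfl x.1.1 u, x.1.2 u), _⟩)
    rw [← γ.smul]
    congr 1
    exact Subtype.ext (Prod.ext (smul_rm C h rfl rfl (addv h v) _ _ u).symm rfl)))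

/-- `C ×_N M → Zb → Ω^v sh_v L` is `C ×_N M → L → Ω^v sh_v L`. -/
theorem ziota_zOm {C M N : MSp S} (v : ℕ) (κ : MHom C N) (ρ : MHom M N) {L : MSp R}
    (γ : MHom ((Pb κ ρ).res φ) L) :
    ((ziota v κ ρ).res φ).comp (zOm φ v κ ρ γ) = γ.comp (omin v L) := by
  refine MHom.ext fun n x => Subtype.ext (Prod.ext rfl (ContinuousMap.ext fun u => ?_))
  change γ.f (n + v) ⟨(rm C rfl x.1.1 u, rm M rfl x.1.2 u), _⟩ = rm L rfl (γ.f n x) u
  rw [← map_rm, rm_res]
  rfl

theorem zOm_isWeq {C M N : MSp S} (v : ℕ) (κ : MHom C N) (ρ : MHom M N) {L : MSp R}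
    (γ : MHom ((Pb κ ρ).res φ) L) (hγ : γ.IsWeq) : (zOm φ v κ ρ γ).IsWeq := by
  refine isWeq_of_comp' (f := ((ziota v κ ρ).res φ).sh) (g := (zOm φ v κ ρ γ).sh) ?_
    (MHom.res_isWeq φ (ziota_isWeq v κ ρ))
  have h1 : (((ziota v κ ρ).res φ).comp (zOm φ v κ ρ γ)).IsWeq := by
    rw [ziota_zOm]
    exact MHom.isWeq_comp hγ (omin_isWeq v L)
  exact h1

/-- A module `P` is free of rank `r`: there are weak equivalences `R^r ← P' → P'' ← P`. -/
structure FreeMod (R : RSp) (P : MSp R) (r : ℕ) : Type 1 where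
  /-- auxiliary modules -/
  P' : MSp R
  /-- auxiliary modules -/
  P'' : MSp R
  /-- the zigzag -/
  α : MHom P' (free R r)
  /-- the zigzag -/
  β : MHom P' P''
  /-- the zigzag -/
  γ : MHom P P''
  hα : α.IsWeq
  hβ : β.IsWeq
  hγ : γ.IsWeq

/-- The free object given by a free module. -/
def FreeMod.obj {P : MSp R} {r : ℕ} (F : FreeMod R P r) : FreeObj R where
  P := P
  r := r
  P' := F.P'
  P'' := F.P''
  α := F.α
  β := F.β
  γ := F.γ
  hα := F.hα
  hβ := F.hβ
  hγ := F.hγ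

/-- Precomposition with a weak equivalence. -/
def FreeMod.of {P Q : MSp R} {r : ℕ} (F : FreeMod R P r) (i : MHom Q P) (hi : i.IsWeq) :
    FreeMod R Q r where
  P' := F.P'
  P'' := F.P''
  α := F.α
  β := F.β
  γ := i.comp F.γ
  hα := F.hα
  hβ := F.hβ
  hγ := MHom.isWeq_comp hi F.hγ

/-- If `C ×_N M` is free over `R`, so is `Zb v κ ρ`. -/
def FreeMod.zb {C M N : MSp S} (v : ℕ) {κ : MHom C N} {ρ : MHom M N} {r : ℕ}
    (F : FreeMod R ((Pb κ ρ).res φ) r) : FreeMod R ((Zb v κ ρ).res φ) r where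
  P' := F.P'
  P'' := Om v F.P''
  α := F.α
  β := F.β.comp (omin v F.P'')
  γ := zOm φ v κ ρ F.γ
  hα := F.hα
  hβ := MHom.isWeq_comp F.hβ (omin_isWeq v F.P'')
  hγ := zOm_isWeq φ v κ ρ F.γ F.hγ

variable {e H : RSp} (ρ : RHom e H) {f : ℕ} (φ : RHom R (Bf e H ρ f))

/-- If `B` is free as a module over `R`, so is `Zf β`. -/
def FreeMod.zf (v : ℕ) (β o : Fin f) (ho : o ≠ β) {r : ℕ}
    (F : FreeMod R ((Bf e H ρ f).self.res φ) r) : FreeMod R ((Zf ρ v β o).res φ) r :=
  FreeMod.zb φ v (F.of ((bjoin ρ β o ho).res φ) (MHom.res_isWeq φ (by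
    exact isWeq_of_comp' (f := (bsplit ρ β o ho).sh) (g := (bjoin ρ β o ho).sh) (by
      have h1 : (bsplit ρ β o ho).comp (bjoin ρ β o ho) = MHom.id _ := by
        refine MHom.ext fun n x => Subtype.ext (funext fun i => ?_)
        change Function.update (Function.update x.1 β (e.pt n)) β (x.1 β) i = x.1 i
        rw [Function.update_idem, Function.update_eq_self]
      have h2 : ((bsplit ρ β o ho).comp (bjoin ρ β o ho)).IsWeq := by
        rw [h1]
        exact MHom.isWeq_id _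
      exact h2) (bsplit_isWeq ρ β o ho))))

end Pool.Agent.MP_d175a7_gt
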