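import Pool.Agent.Lib.MP_d175a7_gt.V3Psi
import Pool.Agent.Lib.MP_d175a7_gt.ZbO
import Pool.Agent.Lib.MP_d175a7_gt.CyF

/-!
# Detection through the fibre product `Bf`

Let `φ : R → Bf e H ρ f` be a homomorphism of ring spectra and `Q : π_0 e → Λ` a ring homomorphism.
For a ring endomorphism `τ` of `Λ`, a permutation `π` of the slots and weights `c` with sum `0` the
function `w ↦ psiC (τ Q(w_(π s)))_s` is a ring homomorphism `π_0 R → (Λ/p)[ε]`.
-/

set_option autoImplicit false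
set_option linter.unusedVariables false

namespace Pool.Agent.MP_d175a7_gt

open scoped Topology unitInterval

theorem RHom.lp_ext {R S : RSp} (φ : RHom R S) {a n b m : ℕ} (x : Lp R.self.seq a n)
    (y : Lp R.self.seq b m) :
    φ.sh.lp (ext (P := R.self) x y) = ext (P := S.self) (φ.sh.lp x) (φ.sh.lp y) := by
  apply Subtype.ext
  apply ContinuousMap.ext
  intro t
  exact φ.mul rfl _ _

theorem RHom.lp_one {R S : RSp} (φ : RHom R S) : φ.sh.lp (oneLp R) = oneLp S := by
  apply Subtype.ext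
  apply ContinuousMap.ext
  intro t
  exact φ.unit 0 _

/-- Multiplicativity, for a loop which is pointwise a product. -/
theorem RCh.mul_of {R : RSp} {Λ : Type} [CommRing Λ] (Q : RCh R Λ) {a b c : ℕ} (h : a + b = c)
    (x : Lp R.self.seq a a) (y : Lp R.self.seq b b) (z : Lp R.self.seq c c)
    (hz : ∀ t : Fin c → I, z.1 t = R.mul h (x.1 (fun i => t ⟨i.1, by omega⟩))
      (y.1 (fun i => t ⟨a + i.1, by omega⟩))) : Q.Q c z = Q.Q a x * Q.Q b y := by
  subst h
  rw [← Q.mul]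
  congr 1
  apply Subtype.ext
  apply ContinuousMap.ext
  intro t
  exact hz t

/-- The data used for the detection: a ring homomorphism `Q : π_0 e → Λ`, `Λ` flat over `Z/p²`,
compatible with `ρ : e → H` modulo `p`. -/
structure QD {e H : RSp} (ρ : RHom e H) (Λ : Type) [CommRing Λ] (p : ℕ) where
  /-- the ring homomorphism -/
  Q : RCh e Λ
  flat : ∀ x : Λ, (p : Λ) * x = 0 → ∃ y, x = p * y
  sq : (p : Λ) ^ 2 = 0
  cong : ∀ (a : ℕ) (x y : Lp e.self.seq a a), (∀ t, ρ.f a (x.1 t) = ρ.f a (y.1 t)) →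
    ∃ z, Q.Q a x - Q.Q a y = p * z

variable {e H R : RSp} {ρ : RHom e H} {f : ℕ} {Λ : Type} [CommRing Λ] {p : ℕ}

/-- The values `τ Q(w_(π s))` of a loop in `Bf`. -/
noncomputable def QD.fam (K : QD ρ Λ p) (τ : Λ →+* Λ) (π : Fin f → Fin f) {a : ℕ}
    (w : Lp (Bf e H ρ f).self.seq a a) (s : Fin f) : Λ :=
  τ (K.Q.Q a ((slH ρ (π s)).lp w))

theorem QD.fam_cong (K : QD ρ Λ p) (τ : Λ →+* Λ) (π : Fin f → Fin f) {a : ℕ}
    (w : Lp (Bf e H ρ f).self.seq a a) (s s' : Fin f) :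
    ∃ y, K.fam τ π w s - K.fam τ π w s' = p * y := by
  obtain ⟨z, hz⟩ := K.cong a ((slH ρ (π s)).lp w) ((slH ρ (π s')).lp w)
    (fun t => (w.1 t).2 (π s) (π s'))
  refine ⟨τ z, ?_⟩
  unfold QD.fam
  rw [← map_sub, hz, map_mul, map_natCast]

theorem QD.fam_cong' (K : QD ρ Λ p) (τ : Λ →+* Λ) (π : Fin f → Fin f) {a : ℕ}
    (w : Lp (Bf e H ρ f).self.seq a a) (i i' : Fin f) :
    Ideal.Quotient.mk (Ideal.span ({(p : Λ)} : Set Λ)) (τ (K.Q.Q a ((slH ρ i).lp w))) =
      Ideal.Quotient.mk _ (τ (K.Q.Q a ((slH ρ i').lp w))) := by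
  obtain ⟨z, hz⟩ := K.cong a ((slH ρ i).lp w) ((slH ρ i').lp w) (fun t => (w.1 t).2 i i')
  rw [Ideal.Quotient.eq, ← map_sub, hz, map_mul, map_natCast]
  exact Ideal.mul_mem_right _ _ (Ideal.subset_span rfl)

/-- The ring homomorphism `π_0 R → (Λ/p)[ε]`. -/
noncomputable def QD.det (K : QD ρ Λ p) (φ : RHom R (Bf e H ρ f)) (τ : Λ →+* Λ)
    (π : Fin f → Fin f) (c : Fin f → Λ) (hc : ∑ s, c s = 0) (o : Fin f) :
    Det R (ResP p Λ) where
  D a b := psiC p c o (K.fam τ π (φ.sh.lp b))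
  hty {a x y} h := by
    have h1 : K.fam τ π (φ.sh.lp x) = K.fam τ π (φ.sh.lp y) := funext fun s => by
      unfold QD.fam
      rw [K.Q.hty (lp_homotopic (slH ρ (π s)) (lp_homotopic φ.sh h))]
    rw [h1]
  st {a} x := by
    have h1 : K.fam τ π (φ.sh.lp (Pool.Agent.MP_d175a7_gt.st x)) = K.fam τ π (φ.sh.lp x) :=
      funext fun s => by
        unfold QD.fam
        rw [SHom.lp_st, SHom.lp_st, K.Q.st]
    rw [h1]
  add {a} x y := by
    have h1 : K.fam τ π (φ.sh.lp (GenLoop.transAt 0 x y)) =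
        fun s => K.fam τ π (φ.sh.lp x) s + K.fam τ π (φ.sh.lp y) s :=
      funext fun s => by
        unfold QD.fam
        rw [lp_transAt, lp_transAt, K.Q.add, map_add]
    rw [h1]
    exact psiC_add o K.flat hc _ _ (fun i => K.fam_cong τ π _ i o) (fun i => K.fam_cong τ π _ i o)
  mul {a b} x y := by
    have h1 : K.fam τ π (φ.sh.lp (ext x y)) =
        fun s => K.fam τ π (φ.sh.lp x) s * K.fam τ π (φ.sh.lp y) s :=
      funext fun s => by
        unfold QD.fam
        rw [RHom.lp_ext, ← map_mul, ← K.Q.mul]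
        rfl
    rw [h1]
    exact psiC_mul o K.flat K.sq hc _ _ (fun i => K.fam_cong τ π _ i o)
      (fun i => K.fam_cong τ π _ i o)
  one := by
    have h1 : K.fam τ π (φ.sh.lp (oneLp R)) = fun s => 1 :=
      funext fun s => by
        unfold QD.fam
        rw [RHom.lp_one, ← map_one τ, ← K.Q.one]
        rfl
    rw [h1]
    exact psiC_one o K.flat hc

/-- The module `B`, restricted to `R`. -/
abbrev PB (φ : RHom R (Bf e H ρ f)) : MSp R := (Bf e H ρ f).self.res φ

/-- A loop in the restricted module is a loop in `Bf`. -/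
def asB (φ : RHom R (Bf e H ρ f)) {a n : ℕ} (w : Lp (PB φ).seq a n) :
    Lp (Bf e H ρ f).self.seq a n := w

theorem asB_st (φ : RHom R (Bf e H ρ f)) {a n : ℕ} (w : Lp (PB φ).seq a n) :
    asB φ (st w) = st (asB φ w) := by
  apply Subtype.ext
  apply ContinuousMap.ext
  intro t
  change (Bf e H ρ f).mul _ (φ.f 1 (R.unit 1 (lam (t 0)))) _ =
    (Bf e H ρ f).mul _ ((Bf e H ρ f).unit 1 (lam (t 0))) _
  rw [φ.unit]
  rfl

theorem asB_extr (φ : RHom R (Bf e H ρ f)) (i : Fin f) {a b c : ℕ} (h : a + b = c)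
    (y : Lp (PB φ).seq a a) (x : Lp R.self.seq b b) (Q : RCh e Λ) :
    Q.Q c ((slH ρ i).lp (asB φ (extr h h y x))) =
      Q.Q a ((slH ρ i).lp (asB φ y)) * Q.Q b ((slH ρ i).lp (φ.sh.lp x)) := by
  refine Q.mul_of h _ _ _ fun t => ?_
  exact (e.mul_comm _ h _ _).symm

/-- The functional `w ↦ psiC (τ Q(w_(π s)))_s` on the module `B`, linear for a detection `D` given
by the same formula. -/
noncomputable def QD.val (K : QD ρ Λ p) (φ : RHom R (Bf e H ρ f)) (τ : Λ →+* Λ)
    (π : Fin f → Fin f) (c : Fin f → Λ) (hc : ∑ s, c s = 0) (o : Fin f)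
    (D : Det R (ResP p Λ))
    (hD : ∀ (a : ℕ) (b : Lp R.self.seq a a), D.D a b = psiC p c o (K.fam τ π (φ.sh.lp b))) :
    VV D (PB φ) :=
  ⟨fun a w => psiC p c o (K.fam τ π (asB φ w)), by
    refine ⟨fun a x y h => ?_, fun a x => ?_, fun a x y => ?_, fun a b l h y x => ?_⟩
    · have h1 : K.fam τ π (asB φ x) = K.fam τ π (asB φ y) := funext fun s =>
        congrArg τ (K.Q.hty (lp_homotopic (slH ρ (π s)) h))
      beta_reduce
      rw [h1]
    · have h1 : K.fam τ π (asB φ (st x)) = K.fam τ π (asB φ x) := funext fun s => by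
        unfold QD.fam
        rw [asB_st, SHom.lp_st, K.Q.st]
      beta_reduce
      rw [h1]
    · have h1 : K.fam τ π (asB φ (GenLoop.transAt 0 x y)) =
          fun s => K.fam τ π (asB φ x) s + K.fam τ π (asB φ y) s := funext fun s => by
        unfold QD.fam
        rw [← map_add, ← K.Q.add, ← lp_transAt]
        rfl
      beta_reduce
      rw [h1]
      exact psiC_add o K.flat hc _ _ (fun i => K.fam_cong τ π _ i o)
        (fun i => K.fam_cong τ π _ i o)
    · have h1 : K.fam τ π (asB φ (extr h h y x)) =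
          fun s => K.fam τ π (asB φ y) s * K.fam τ π (φ.sh.lp x) s := funext fun s => by
        unfold QD.fam
        rw [asB_extr, map_mul]
      beta_reduce
      rw [h1, hD]
      exact psiC_mul o K.flat K.sq hc _ _ (fun i => K.fam_cong τ π _ i o)
        (fun i => K.fam_cong τ π _ i o)⟩

theorem QD.vev_val (K : QD ρ Λ p) (φ : RHom R (Bf e H ρ f)) (τ : Λ →+* Λ)
    (π : Fin f → Fin f) (c : Fin f → Λ) (hc : ∑ s, c s = 0) (o : Fin f)
    (D : Det R (ResP p Λ))
    (hD : ∀ (a : ℕ) (b : Lp R.self.seq a a), D.D a b = psiC p c o (K.fam τ π (φ.sh.lp b)))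
    {a : ℕ} (w : Lp (PB φ).seq a a) :
    vev (K.val φ τ π c hc o D hD) w = psiC p c o (K.fam τ π (asB φ w)) := rfl

end Pool.Agent.MP_d175a7_gt
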