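import Pool.Agent.Lib.MP_d175a7_gt.ConnB

/-!
# The homotopy fibre product is semi-finite

`Bm ρ f` is the homotopy fibre product `Bh ρ f` as a module over `e`.  `Bm ρ (f + 2)` is
isomorphic to the homotopy pullback of `e → H ← Bm ρ (f + 1)`, and `e → Bm ρ 1` is a weak
equivalence.  So `Bm ρ (f + 1)` is semi-finite if `H` is semi-finite over `e`.
-/

set_option autoImplicit false
set_option linter.unusedVariables false

namespace Pool.Agent.MP_d175a7_gt

open scoped Topology unitInterval

variable {e H : RSp} (ρ : RHom e H)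

/-- The homotopy fibre product as a module over `e`. -/
def Bm (f : ℕ) : MSp e := (Bh ρ f).self.res (Bh.diag ρ f)

/-- `H` as a module over `e`. -/
def Hm : MSp e := H.self.res ρ

/-- `ρ` as a homomorphism of modules. -/
def rhoM : MHom e.self (Hm ρ) where
  f := ρ.f
  cont := ρ.cont
  pt := ρ.pt
  act := ρ.act
  smul h r x := ρ.mul h r x

/-- The augmentation `B → H`. -/
def augM (f : ℕ) : MHom (Bm ρ (f + 1)) (Hm ρ) where
  f n w := (Pth.fib ρ).f n (w.1 0)
  cont n T _ _ _ g hg := (Pth.fib ρ).cont n T (fun t => (g t).1 0)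
    ((continuous_apply 0).comp (continuous_subtype_val.comp hg))
  pt n := rfl
  act n A x := rfl
  smul h r x := rfl

/-- The projections `B → e`. -/
def prM {f : ℕ} (i : Fin f) : MHom (Bm ρ f) e.self where
  f n w := (w.1 i).1.1
  cont n T _ _ _ g hg := continuous_fst.comp (continuous_subtype_val.comp
    ((continuous_apply i).comp (continuous_subtype_val.comp hg)))
  pt n := rfl
  act n A x := rfl
  smul h r x := rfl

/-- Forget the slot `0`. -/
def tailM (f : ℕ) : MHom (Bm ρ (f + 2)) (Bm ρ (f + 1)) where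
  f n w := ⟨fun i => w.1 i.succ, fun i j => w.2 i.succ j.succ⟩
  cont n T _ _ _ g hg := Continuous.subtype_mk (continuous_pi fun (i : Fin (f + 1)) =>
    (continuous_apply i.succ).comp (continuous_subtype_val.comp hg)) _
  pt n := rfl
  act n A x := rfl
  smul h r x := rfl

/-- `B → e ×_H B'`. -/
def bspM (f : ℕ) : MHom (Bm ρ (f + 2)) (Hpb (rhoM ρ) (augM ρ f)) where
  f n w := ⟨(((w.1 0).1.1, (tailM ρ f).f n w), (w.1 0).1.2), (w.1 0).2, w.2 0 1⟩
  cont n T _ _ _ g hg := by
    have h0 : Continuous fun t => (g t).1 0 :=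
      (continuous_apply 0).comp (continuous_subtype_val.comp hg)
    exact Continuous.subtype_mk (((continuous_fst.comp (continuous_subtype_val.comp h0)).prodMk
      ((tailM ρ f).cont n T g hg)).prodMk (continuous_snd.comp
        (continuous_subtype_val.comp h0))) _
  pt n := rfl
  act n A x := rfl
  smul h r x := rfl

/-- The inverse of `bspM`. -/
def bjoM (f : ℕ) : MHom (Hpb (rhoM ρ) (augM ρ f)) (Bm ρ (f + 2)) where
  f n z := ⟨Fin.cons ⟨(z.1.1.1, z.1.2), z.2.1⟩ z.1.1.2.1, by
    have h1 : ∀ i : Fin (f + 2), (Pth.fib ρ).f n ((Fin.cons ⟨(z.1.1.1, z.1.2), z.2.1⟩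
        z.1.1.2.1 : Fin (f + 2) → (Pth ρ).X n) i) = (augM ρ f).f n z.1.1.2 := by
      intro i
      refine Fin.cases ?_ (fun i => ?_) i
      · exact z.2.2
      · exact z.1.1.2.2 i 0
    intro i j
    rw [h1, h1]⟩
  cont n T _ _ _ g hg := by
    refine Continuous.subtype_mk (continuous_pi fun i => ?_) _
    refine Fin.cases ?_ (fun i => ?_) i
    · exact Continuous.subtype_mk ((continuous_fst.comp (continuous_fst.comp
        (continuous_subtype_val.comp hg))).prodMk
          (continuous_snd.comp (continuous_subtype_val.comp hg))) _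
    · exact (continuous_apply i).comp (continuous_subtype_val.comp (continuous_snd.comp
        (continuous_fst.comp (continuous_subtype_val.comp hg))))
  pt n := Subtype.ext (funext fun i => by refine Fin.cases rfl (fun i => rfl) i)
  act n A x := Subtype.ext (funext fun i => by refine Fin.cases rfl (fun i => rfl) i)
  smul h r x := Subtype.ext (funext fun i => by refine Fin.cases rfl (fun i => rfl) i)

theorem bspM_isWeq (f : ℕ) : (bspM ρ f).IsWeq :=
  isWeq_of_inv _ (bjoM ρ f).sh
    (fun n x => Subtype.ext (funext fun i => by refine Fin.cases rfl (fun i => rfl) i))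
    (fun n y => rfl)

theorem p1_bspM (f : ℕ) {n : ℕ} (w : (Bm ρ (f + 2)).X n) :
    (Hpb.p1 (rhoM ρ) (augM ρ f)).f n ((bspM ρ f).f n w) = (prM ρ 0).f n w := rfl

theorem p2_bspM (f : ℕ) {n : ℕ} (w : (Bm ρ (f + 2)).X n) :
    (Hpb.p2 (rhoM ρ) (augM ρ f)).f n ((bspM ρ f).f n w) = (tailM ρ f).f n w := rfl

/-- The diagonal `e → B`. -/
def dgM (f : ℕ) : MHom e.self (Bm ρ f) where
  f := (Bh.diag ρ f).f
  cont := (Bh.diag ρ f).cont
  pt := (Bh.diag ρ f).pt
  act := (Bh.diag ρ f).act
  smul h r x := (Bh.diag ρ f).mul h r x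

/-- `e → Bm 1` is a weak equivalence. -/
theorem dgM_isWeq : (dgM ρ 1).IsWeq := by
  refine ⟨fun a n x x' h => ?_, fun a n y => ⟨0, (prM ρ (0 : Fin 1)).sh.lp y, 0, ?_⟩⟩
  · exact stEq_lp (prM ρ (0 : Fin 1)).sh h
  · change GenLoop.Homotopic ((dgM ρ 1).sh.lp ((prM ρ (0 : Fin 1)).sh.lp y)) y
    refine homotopic_of (P := (Bm ρ 1).seq) (fun s t => ⟨fun _ =>
      ⟨(((y.1 t).1 0).1.1, ⟨fun u => ((y.1 t).1 0).1.2 (s * u), by
        exact ((y.1 t).1 0).1.2.continuous.comp (continuous_const.mul continuous_id)⟩), ?_⟩,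
        fun _ _ => rfl⟩) ?_ ?_ ?_ ?_
    · change ((y.1 t).1 0).1.2 (s * 0) = _
      rw [mul_zero]
      exact ((y.1 t).1 0).2
    · have h0 : Continuous fun t : Fin 0 → I => t := continuous_id
      have h1 : Continuous fun t => (y.1 t).1 0 :=
        (continuous_apply 0).comp (continuous_subtype_val.comp y.1.continuous)
      refine Continuous.subtype_mk (continuous_pi fun _ => Continuous.subtype_mk
        ((continuous_fst.comp (continuous_subtype_val.comp (h1.comp continuous_snd))).prodMk
          (curry_cont _ ?_)) _) _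
      have h2 := uncurry_cont (fun t => ((y.1 t).1 0).1.2)
        (continuous_snd.comp (continuous_subtype_val.comp h1))
      exact h2.comp ((continuous_snd.comp continuous_fst).prodMk
        ((continuous_fst.comp continuous_fst).mul continuous_snd))
    · intro t
      refine Subtype.ext (funext fun i => Subtype.ext (Prod.ext rfl
        (ContinuousMap.ext fun u => ?_)))
      change ((y.1 t).1 0).1.2 (0 * u) = ρ.f n ((y.1 t).1 0).1.1
      rw [zero_mul]
      exact ((y.1 t).1 0).2
    · intro t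
      refine Subtype.ext (funext fun i => ?_)
      have hi : i = 0 := Subsingleton.elim i 0
      subst hi
      refine Subtype.ext (Prod.ext rfl (ContinuousMap.ext fun u => ?_))
      change ((y.1 t).1 0).1.2 (1 * u) = ((y.1 t).1 0).1.2 u
      rw [one_mul]
    · intro s t ht
      have h1 : y.1 t = (Bm ρ 1).pt n := y.2 t ht
      refine Subtype.ext (funext fun i => Subtype.ext (Prod.ext ?_
        (ContinuousMap.ext fun u => ?_)))
      · change ((y.1 t).1 0).1.1 = e.pt n
        rw [h1]
        rfl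
      · change ((y.1 t).1 0).1.2 (s * u) = H.pt n
        rw [h1]
        rfl

/-- The homotopy fibre product of copies of `e` is semi-finite over `e` if `H` is. -/
theorem semiFin_Bm (hH : SemiFin e (Hm ρ)) : ∀ f : ℕ, SemiFin e (Bm ρ (f + 1))
  | 0 => SemiFin.weq (dgM ρ 1) (dgM_isWeq ρ) SemiFin.self
  | f + 1 => SemiFin.weq' (bspM ρ f) (bspM_isWeq ρ f)
      (SemiFin.hpb (rhoM ρ) (augM ρ f) SemiFin.self (semiFin_Bm hH f) hH)

end Pool.Agent.MP_d175a7_gt
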