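import Pool.Agent.Lib.MP_d175a7_gt.ConnK
import Pool.Agent.Lib.MP_d175a7_gt.SemiF
import Pool.Agent.Lib.MP_d175a7_gt.GV
import Pool.Agent.Lib.MP_d175a7_gt.CySelf

/-!
# The homotopy fibre product is connected
-/

set_option autoImplicit false
set_option linter.unusedVariables false

namespace Pool.Agent.MP_d175a7_gt

open scoped Topology unitInterval

theorem oneN_eq (R : RSp) (a : ℕ) : oneN R a = unitLp R a := by
  induction a with
  | zero => rfl
  | succ a ih =>
    rw [← st_unitLp, ← ih]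
    rfl

/-- The idempotents, with the unit loops given by the unit maps. -/
theorem Conn.unit {R : RSp} (h : Conn R) (a : ℕ) (x : Lp R.self.seq a a)
    (hx : StEq (ext x x) (stn a x)) : StEq x (cstLp R.self.seq a a) ∨ StEq x (unitLp R a) := by
  rw [← oneN_eq]
  exact h a x hx

theorem Conn.of_unit {R : RSp} (h : ∀ (a : ℕ) (x : Lp R.self.seq a a),
    StEq (ext x x) (stn a x) → StEq x (cstLp R.self.seq a a) ∨ StEq x (unitLp R a)) :
    Conn R := by
  intro a x hx
  rw [oneN_eq]
  exact h a x hx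

/-- Restriction of scalars does not change the iterated suspensions. -/
theorem stn_resC {R S : RSp} (φ : RHom R S) (P : MSp S) {a n : ℕ} (x : Lp P.seq a n) (j : ℕ) :
    (stn (P := (P.res φ).seq) j x : Lp P.seq (a + j) (n + j)) = stn (P := P.seq) j x := by
  induction j with
  | zero => rfl
  | succ j ih =>
    apply Subtype.ext
    apply ContinuousMap.ext
    intro t
    change P.smul _ (φ.f 1 (R.unit 1 (lam (t 0)))) ((stn (P := (P.res φ).seq) j x).1 _) =
      P.smul _ (S.unit 1 (lam (t 0))) ((stn (P := P.seq) j x).1 _)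
    rw [φ.unit]
    exact congrArg (fun z : Lp P.seq (a + j) (n + j) =>
      P.smul _ (S.unit 1 (lam (t 0))) (z.1 fun i => t i.succ)) ih

theorem stEq_res {R S : RSp} (φ : RHom R S) (P : MSp S) {a n : ℕ} (x y : Lp P.seq a n) :
    StEq (P := (P.res φ).seq) x y ↔ StEq (P := P.seq) x y := by
  constructor
  · rintro ⟨j, hj⟩
    refine ⟨j, ?_⟩
    have h1 := stn_resC φ P x j
    have h2 := stn_resC φ P y j
    rw [← h1, ← h2]
    exact hj
  · rintro ⟨j, hj⟩
    refine ⟨j, ?_⟩
    have h1 := stn_resC φ P x j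
    have h2 := stn_resC φ P y j
    rw [← h1, ← h2] at hj
    exact hj

variable {e H : RSp} (ρ : RHom e H)

/-- Loops of nonnegative degree in the homotopy fibre product with stably homotopic slots are stably
homotopic, if the homotopy groups of `H` in positive degrees vanish. -/
theorem slots_inj (hπ : PosZero H) (f : ℕ) {a n : ℕ} (han : n ≤ a)
    (z z' : Lp (Bm ρ (f + 1)).seq a n)
    (h : ∀ i, StEq ((prM ρ i).sh.lp z) ((prM ρ i).sh.lp z')) : StEq z z' := by
  induction f with
  | zero =>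
    have h1 : ∀ z : Lp (Bm ρ 1).seq a n,
        StEq ((dgM ρ 1).sh.lp ((prM ρ (0 : Fin 1)).sh.lp z)) z := by
      intro z
      obtain ⟨j, x, hx⟩ := (dgM_isWeq ρ).2 a n z
      have h2 := stEq_lp (prM ρ (0 : Fin 1)).sh hx
      rw [SHom.lp_stn] at h2
      have h3 := stEq_lp (dgM ρ 1).sh h2
      rw [SHom.lp_stn] at h3
      exact (stEq_stn j).1 (h3.symm.trans hx)
    exact (h1 z).symm.trans ((stEq_lp (dgM ρ 1).sh (h 0)).trans (h1 z'))
  | succ f ih =>
    refine (bspM_isWeq ρ f).1 a n z z' ?_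
    refine hpb_inj (rhoM ρ) (augM ρ f) (fun j x => ?_) _ _ ?_ ?_
    · exact (stEq_res ρ H.self x _).2 (hπ (a + j + 1) (n + j) (by omega) x)
    · exact h 0
    · exact ih _ _ fun i => h i.succ

theorem unitLp_ne {R : RSp} (h01 : ¬ StEq (unitLp R 0) (cstLp R.self.seq 0 0)) (a : ℕ) :
    ¬ StEq (unitLp R a) (cstLp R.self.seq a a) := by
  induction a with
  | zero => exact h01
  | succ a ih =>
    intro h
    apply ih
    rw [← stEq_st, st_unitLp]
    have h1 := stn_cst R.self.seq a a 1
    change st (cstLp R.self.seq a a) = cstLp R.self.seq (a + 1) (a + 1) at h1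
    rw [h1]
    exact h

/-- The image in `H` of a slot is homotopic to the common end point. -/
theorem slot_aug {f : ℕ} (i : Fin f) {a n : ℕ} (x : Lp (Bh ρ f).self.seq a n) :
    GenLoop.Homotopic (ρ.sh.lp ((Bh.pr ρ i).sh.lp x)) ((Bf.aug (Pth.fib ρ) i).sh.lp x) := by
  refine homotopic_of (P := H.self.seq) (fun s t => ((x.1 t).1 i).1.2 s) ?_ ?_ ?_ ?_
  · have h1 : Continuous fun t => (x.1 t).1 i :=
      (continuous_apply i).comp (continuous_subtype_val.comp x.1.continuous)
    have h2 := uncurry_cont (fun t => ((x.1 t).1 i).1.2)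
      (continuous_snd.comp (continuous_subtype_val.comp h1))
    exact h2.comp (continuous_snd.prodMk continuous_fst)
  · intro t
    exact ((x.1 t).1 i).2
  · intro t
    rfl
  · intro s t ht
    have h1 : x.1 t = (Bh ρ f).pt n := x.2 t ht
    rw [h1]
    rfl

/-- The homotopy groups in nonnegative degrees of the homotopy fibre product are subgroups of the
product of the homotopy groups of the copies of `e`. -/
theorem slots_inj' (hπ : PosZero H) (f : ℕ) {a n : ℕ} (han : n ≤ a)
    (z z' : Lp (Bh ρ (f + 1)).self.seq a n)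
    (h : ∀ i, StEq ((Bh.pr ρ i).sh.lp z) ((Bh.pr ρ i).sh.lp z')) : StEq z z' :=
  (stEq_res (Bh.diag ρ (f + 1)) (Bh ρ (f + 1)).self z z').1
    (slots_inj ρ hπ f han z z' fun i => h i)

/-- The homotopy fibre product has only trivial idempotents in `π_0`, if `e` has, the homotopy
groups of `H` in positive degrees vanish and `0 ≠ 1` in `π_0 H`. -/
theorem conn_Bh (he : Conn e) (hπ : PosZero H)
    (h01 : ¬ StEq (unitLp H 0) (cstLp H.self.seq 0 0)) (f : ℕ) : Conn (Bh ρ (f + 1)) := by
  refine Conn.of_unit fun a x hx => ?_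
  have h1 : ∀ i, StEq ((Bh.pr ρ i).sh.lp x) (cstLp e.self.seq a a) ∨
      StEq ((Bh.pr ρ i).sh.lp x) (unitLp e a) := by
    intro i
    refine he.unit a _ ?_
    have h2 := stEq_lp (Bh.pr ρ i).sh hx
    rw [SHom.lp_stn] at h2
    rw [← RHom.lp_ext]
    exact h2
  have h2 : ∀ i j, StEq ((Bh.pr ρ i).sh.lp x) (cstLp e.self.seq a a) →
      ¬ StEq ((Bh.pr ρ j).sh.lp x) (unitLp e a) := by
    intro i j hi hj
    apply unitLp_ne h01 a
    have h3 : StEq ((Bf.aug (Pth.fib ρ) i).sh.lp x) (cstLp H.self.seq a a) := by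
      refine (stEq_of_homotopic (slot_aug ρ i x)).symm.trans ?_
      have h4 := stEq_lp ρ.sh hi
      have h5 : ρ.sh.lp (cstLp e.self.seq a a) = cstLp H.self.seq a a :=
        Subtype.ext (ContinuousMap.ext fun t => ρ.pt a)
      rwa [h5] at h4
    have h6 : StEq ((Bf.aug (Pth.fib ρ) j).sh.lp x) (unitLp H a) := by
      refine (stEq_of_homotopic (slot_aug ρ j x)).symm.trans ?_
      have h4 := stEq_lp ρ.sh hj
      have h5 : ρ.sh.lp (unitLp e a) = unitLp H a :=
        Subtype.ext (ContinuousMap.ext fun t => ρ.unit a _)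
      rwa [h5] at h4
    have h7 : (Bf.aug (Pth.fib ρ) i).sh.lp x = (Bf.aug (Pth.fib ρ) j).sh.lp x :=
      Subtype.ext (ContinuousMap.ext fun t => (x.1 t).2 i j)
    rw [h7] at h3
    exact h6.symm.trans h3
  by_cases h0 : StEq ((Bh.pr ρ (0 : Fin (f + 1))).sh.lp x) (cstLp e.self.seq a a)
  · left
    refine slots_inj' ρ hπ f le_rfl x (cstLp (Bh ρ (f + 1)).self.seq a a) fun i => ?_
    have h3 : StEq ((Bh.pr ρ i).sh.lp x) (cstLp e.self.seq a a) :=
      (h1 i).resolve_right (h2 0 i h0)
    exact h3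
  · right
    refine slots_inj' ρ hπ f le_rfl x (unitLp (Bh ρ (f + 1)) a) fun i => ?_
    have h3 : StEq ((Bh.pr ρ i).sh.lp x) (unitLp e a) := by
      rcases h1 i with h | h
      · exact absurd ((h1 0).resolve_left h0) (h2 i 0 h)
      · exact h
    exact h3

end Pool.Agent.MP_d175a7_gt
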