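import Pool.Agent.Lib.MP_d175a7_gt.ConnC

/-!
# The homotopy fibre product is connective
-/

set_option autoImplicit false
set_option linter.unusedVariables false

namespace Pool.Agent.MP_d175a7_gt

open scoped Topology unitInterval

private theorem cd_st_heq {P : Seq} {a a' n n' : ℕ} (ha : a = a') (hn : n = n') {x : Lp P a n}
    {x' : Lp P a' n'} (h : HEq x x') : HEq (st x) (st x') := by
  subst ha hn
  rw [eq_of_heq h]

private theorem cd_stn_st {P : Seq} {a n : ℕ} (x : Lp P a n) (j : ℕ) :
    HEq (stn j (st x)) (st (stn j x)) := by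
  induction j with
  | zero => rfl
  | succ j ih =>
    exact cd_st_heq (show a + 1 + j = a + j + 1 by omega) (show n + 1 + j = n + j + 1 by omega)
      ih

private theorem cd_hom {P : Seq} {a a' n n' : ℕ} (ha : a = a') (hn : n = n') {x y : Lp P a n}
    {x' y' : Lp P a' n'} (hx : HEq x x') (hy : HEq y y') (h : GenLoop.Homotopic x' y') :
    GenLoop.Homotopic x y := by
  subst ha hn
  rw [eq_of_heq hx, eq_of_heq hy]
  exact h

private theorem cd_le {P : Seq} {a n : ℕ} {x y : Lp P a n} {i j : ℕ} (hij : i ≤ j)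
    (h : GenLoop.Homotopic (stn i x) (stn i y)) : GenLoop.Homotopic (stn j x) (stn j y) := by
  induction j, hij using Nat.le_induction with
  | base => exact h
  | succ j _ ih => exact st_homotopic ih

private theorem cd_lp_cst {P Q : Seq} (f : SHom P Q) (a n : ℕ) :
    f.lp (cstLp P a n) = cstLp Q a n :=
  Subtype.ext (ContinuousMap.ext fun _ => f.pt n)

private theorem cd_cast {P Q : Seq} (f : SHom P Q) {a n a' n' : ℕ} (ha : a = a') (hn : n = n')
    {y : Lp Q a n} {y' : Lp Q a' n'} (hy : HEq y y') (x : Lp P a n) (h : StEq (f.lp x) y) :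
    ∃ x' : Lp P a' n', StEq (f.lp x') y' := by
  subst ha hn
  rw [← eq_of_heq hy]
  exact ⟨x, h⟩

section Hpb

variable {R : RSp} {P Q S : MSp R} (f : MHom P S) (g : MHom Q S)

/-- The loop of the homotopy pullback given by the image of a loop in `P` is null homotopic.
Homotopy: `(s, t) ↦ ((x (snl t s), pt), u ↦ f (x (snl t (max s u))))`. -/
theorem loopIn_lp {a n : ℕ} (x : Lp P.seq (a + 1) n) :
    GenLoop.Homotopic (loopIn f g (f.sh.lp x)) (cstLp (Hpb f g).seq a n) := by
  have hx : Continuous fun t : Fin (a + 1) → I => (x.1 t : P.X n) := x.1.continuous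
  have hpt : ∀ (t : Fin a → I) (u : I), (t ∈ Cube.boundary (Fin a) ∨ u = 0 ∨ u = 1) →
      (x.1 (snl t u) : P.X n) = P.pt n := fun t u h => x.2 _ (snl_mem t u h)
  have hcu : ∀ (s : I) (t : Fin a → I),
      Continuous fun u : I => f.f n (x.1 (snl t (max s u))) := fun s t =>
    f.cont n I (fun u => x.1 (snl t (max s u))) (hx.comp
      (snl_cont.comp (continuous_const.prodMk (continuous_const.max continuous_id))))
  have e0 : ∀ s : I, max s (0 : I) = s := fun s => max_eq_left unitInterval.nonneg'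
  have e0' : ∀ s : I, max (0 : I) s = s := fun s => max_eq_right unitInterval.nonneg'
  have e1 : ∀ s : I, max s (1 : I) = 1 := fun s => max_eq_right unitInterval.le_one'
  have e1' : ∀ s : I, max (1 : I) s = 1 := fun s => max_eq_left unitInterval.le_one'
  have hf : ∀ (t : Fin a → I) (u : I), (t ∈ Cube.boundary (Fin a) ∨ u = 0 ∨ u = 1) →
      f.f n (x.1 (snl t u)) = S.pt n := fun t u h => (congrArg (f.f n) (hpt t u h)).trans (f.pt n)
  have hm0 : ∀ (s : I) (t : Fin a → I), f.f n (x.1 (snl t (max s 0))) =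
      f.f n (x.1 (snl t s)) := fun s t => congrArg (fun u => f.f n (x.1 (snl t u))) (e0 s)
  have hm1 : ∀ (s : I) (t : Fin a → I), f.f n (x.1 (snl t (max s 1))) =
      g.f n (Q.pt n) := by
    intro s t
    exact (hf t _ (Or.inr (Or.inr (e1 s)))).trans (g.pt n).symm
  let K : I → (Fin a → I) → HpbX f g n := fun s t =>
    ⟨((x.1 (snl t s), Q.pt n), ⟨fun u => f.f n (x.1 (snl t (max s u))), hcu s t⟩), hm0 s t,
      hm1 s t⟩
  have hK : Continuous fun q : I × (Fin a → I) => K q.1 q.2 := by
    refine Continuous.subtype_mk (((hx.comp (snl_cont.comp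
      (continuous_snd.prodMk continuous_fst))).prodMk continuous_const).prodMk
        (curry_cont _ ?_)) _
    exact f.cont n ((I × (Fin a → I)) × I) (fun q => x.1 (snl q.1.2 (max q.1.1 q.2))) (hx.comp
      (snl_cont.comp ((continuous_snd.comp continuous_fst).prodMk
        ((continuous_fst.comp continuous_fst).max continuous_snd))))
  refine homotopic_of (P := (Hpb f g).seq) K hK (fun t => ?_) (fun t => ?_)
    (fun s t ht => ?_)
  · refine Subtype.ext (Prod.ext (Prod.ext ?_ rfl) (ContinuousMap.ext fun u => ?_))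
    · exact hpt t 0 (Or.inr (Or.inl rfl))
    · exact congrArg (fun u => f.f n (x.1 (snl t u))) (e0' u)
  · refine Subtype.ext (Prod.ext (Prod.ext ?_ rfl) (ContinuousMap.ext fun u => ?_))
    · exact hpt t 1 (Or.inr (Or.inr rfl))
    · exact hf t _ (Or.inr (Or.inr (e1' u)))
  · refine Subtype.ext (Prod.ext (Prod.ext ?_ rfl) (ContinuousMap.ext fun u => ?_))
    · exact hpt t s (Or.inl ht)
    · exact hf t _ (Or.inl ht)

private theorem cd_aux (j : ℕ) : ∀ (a n : ℕ) (l l' : Lp S.seq (a + 1) n),
    GenLoop.Homotopic (stn j l) (stn j l') →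
    StEq (loopIn f g l) (loopIn f g l') := by
  induction j with
  | zero =>
    intro a n l l' h
    exact stEq_of_homotopic (loopIn_homotopic f g h)
  | succ j ih =>
    intro a n l l' h
    have h1 : GenLoop.Homotopic (stn j (st l)) (stn j (st l')) :=
      cd_hom (by omega) (by omega) (cd_stn_st l j) (cd_stn_st l' j) h
    have h3 := ih (a + 1) (n + 1) (st l) (st l') h1
    rw [loopIn_st, loopIn_st] at h3
    exact stEq_st.1 h3

/-- `loopIn` respects stable homotopy.  (As `loopIn_stEq` in `ConnB.lean`, by induction on the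
number of suspensions.) -/
theorem loopIn_stEq' {a n : ℕ} {l l' : Lp S.seq (a + 1) n} (h : StEq l l') :
    StEq (loopIn f g l) (loopIn f g l') := by
  obtain ⟨j, hj⟩ := h
  exact cd_aux f g j a n l l' hj

private theorem cd_lift (i : ℕ) : ∀ (a n : ℕ) (l : Lp S.seq (a + 1) n)
    (x : Lp P.seq (a + 1 + i) (n + i)), StEq (f.sh.lp x) (stn i l) →
    StEq (loopIn f g l) (cstLp (Hpb f g).seq a n) := by
  induction i with
  | zero =>
    intro a n l x h
    have h1 : StEq (f.sh.lp (x : Lp P.seq (a + 1) n)) l := h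
    exact (loopIn_stEq' f g h1.symm).trans
      (stEq_of_homotopic (loopIn_lp f g (x : Lp P.seq (a + 1) n)))
  | succ i ih =>
    intro a n l x h
    obtain ⟨x', hx'⟩ := cd_cast f.sh (a' := a + 1 + 1 + i) (n' := n + 1 + i)
      (y' := stn i (st l)) (show a + 1 + (i + 1) = a + 1 + 1 + i by omega)
      (show n + (i + 1) = n + 1 + i by omega) (cd_stn_st l i).symm x h
    have h3 := ih (a + 1) (n + 1) (st l) x' hx'
    rw [loopIn_st] at h3
    have h4 : st (cstLp (Hpb f g).seq a n) = cstLp (Hpb f g).seq (a + 1) (n + 1) :=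
      stn_cst (Hpb f g).seq a n 1
    rw [← h4] at h3
    exact stEq_st.1 h3

/-- `loopIn` of a loop which stably comes from `P` is stably trivial.  (Induction on `i` for all
`a n l`: for `i = 0` this is `loopIn_stEq'`, `loopIn_lp`; for `i + 1` apply the induction
hypothesis to `st l`, with `loopIn_st`, `stEq_st`, and `stn i (st l)` heterogeneously equal to
`stn (i + 1) l`; the loop `x` is transported along `a + 1 + (i + 1) = a + 1 + 1 + i`,
`n + (i + 1) = n + 1 + i`.) -/
theorem loopIn_of_lift {a n : ℕ} (i : ℕ) (l : Lp S.seq (a + 1) n)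
    (x : Lp P.seq (a + 1 + i) (n + i)) (h : StEq (f.sh.lp x) (stn i l)) :
    StEq (loopIn f g l) (cstLp (Hpb f g).seq a n) :=
  cd_lift f g i a n l x h

/-- Homotopy groups of homotopy pullbacks: if they vanish for `P` and `Q` and those of `P` in the
next degree surject onto those of `S`, they vanish for the homotopy pullback.  (Choose a common
number `j` of suspensions which make the components of `z` null homotopic, `exists_loopIn` for
`stn j z`, then `loopIn_of_lift`, `stEq_stn`, `stn_cst`.) -/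
theorem hpb_zero {a n : ℕ} (hP : ∀ x : Lp P.seq a n, StEq x (cstLp P.seq a n))
    (hQ : ∀ x : Lp Q.seq a n, StEq x (cstLp Q.seq a n))
    (hS : ∀ (j : ℕ) (l : Lp S.seq (a + j + 1) (n + j)),
      ∃ (i : ℕ) (x : Lp P.seq (a + j + 1 + i) (n + j + i)), StEq (f.sh.lp x) (stn i l))
    (z : Lp (Hpb f g).seq a n) : StEq z (cstLp (Hpb f g).seq a n) := by
  obtain ⟨j1, hj1⟩ := hP ((Hpb.p1 f g).sh.lp z)
  obtain ⟨j2, hj2⟩ := hQ ((Hpb.p2 f g).sh.lp z)
  have k1 := cd_le (le_max_left j1 j2) hj1
  have k2 := cd_le (le_max_right j1 j2) hj2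
  rw [← SHom.lp_stn, stn_cst] at k1 k2
  obtain ⟨l, hl⟩ := exists_loopIn f g (stn (max j1 j2) z) k1 k2
  obtain ⟨i, x, hx⟩ := hS (max j1 j2) l
  have h3 := (stEq_of_homotopic hl).trans (loopIn_of_lift f g i l x hx)
  rw [← stn_cst] at h3
  exact (stEq_stn _).1 h3

end Hpb

variable {e H : RSp} (ρ : RHom e H)

private theorem cd_surj (hs : ∀ (a : ℕ) (y : Lp H.self.seq a a),
      ∃ (j : ℕ) (x : Lp e.self.seq (a + j) (a + j)), StEq (ρ.sh.lp x) (stn j y))
    {A N : ℕ} (h : N = A) (l : Lp H.self.seq A N) :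
    ∃ (i : ℕ) (x : Lp e.self.seq (A + i) (N + i)), StEq (ρ.sh.lp x) (stn i l) := by
  subst h
  exact hs N l

private theorem cd_Bm (he : Connective e) (hH : Connective H)
    (hs : ∀ (a : ℕ) (y : Lp H.self.seq a a), ∃ (j : ℕ) (x : Lp e.self.seq (a + j) (a + j)),
      StEq (ρ.sh.lp x) (stn j y)) (f : ℕ) : ∀ (a n : ℕ), a < n →
    ∀ z : Lp (Bm ρ (f + 1)).seq a n, StEq z (cstLp (Bm ρ (f + 1)).seq a n) := by
  induction f with
  | zero =>
    intro a n han z
    obtain ⟨j, x, hx⟩ := (dgM_isWeq ρ).2 a n z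
    have h2 := stEq_lp (prM ρ (0 : Fin 1)).sh hx
    rw [SHom.lp_stn] at h2
    have h3 := stEq_lp (dgM ρ 1).sh h2
    rw [SHom.lp_stn] at h3
    have h4 : StEq ((dgM ρ 1).sh.lp ((prM ρ (0 : Fin 1)).sh.lp z)) z :=
      (stEq_stn j).1 (h3.symm.trans hx)
    have h5 := stEq_lp (dgM ρ 1).sh (he a n han ((prM ρ (0 : Fin 1)).sh.lp z))
    rw [cd_lp_cst] at h5
    exact h4.symm.trans h5
  | succ f ih =>
    intro a n han z
    refine (bspM_isWeq ρ f).1 a n z _ ?_
    rw [cd_lp_cst]
    refine hpb_zero (rhoM ρ) (augM ρ f) (he a n han) (ih a n han) (fun j l => ?_) _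
    by_cases h : a + 1 < n
    · refine ⟨0, cstLp e.self.seq (a + j + 1 + 0) (n + j + 0), ?_⟩
      rw [cd_lp_cst]
      have h1 : StEq (P := H.self.seq) l (cstLp H.self.seq (a + j + 1) (n + j)) :=
        hH (a + j + 1) (n + j) (by omega) l
      exact ((stEq_res ρ H.self l (cstLp H.self.seq (a + j + 1) (n + j))).2 h1).symm
    · obtain ⟨i, x, hx⟩ := cd_surj ρ hs (show n + j = a + j + 1 by omega)
        (l : Lp H.self.seq (a + j + 1) (n + j))
      refine ⟨i, x, ?_⟩
      have h1 := stn_resC ρ H.self l i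
      refine (stEq_res ρ H.self (ρ.sh.lp x) (stn (P := (Hm ρ).seq) i l)).2 ?_
      have h2 : (stn (P := (Hm ρ).seq) i l : Lp H.self.seq (a + j + 1 + i) (n + j + i)) =
        stn (P := H.self.seq) i l := h1
      rw [h2]
      exact hx

/-- The homotopy fibre product is connective if `e` and `H` are connective and `π_0 e → π_0 H` is
surjective.  (As `slots_inj`, by induction on `f`: for `f = 0` the weak equivalence `dgM_isWeq`; for
`f + 1` the weak equivalence `bspM_isWeq` and `hpb_zero`, where the condition `hS` is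
`Connective H` if `a + 1 < n` (take `i = 0` and the constant loop) and the surjectivity if
`a + 1 = n`; `stEq_res` for the passage between `Hm ρ` and `H.self`, and between `Bm` and `Bh`.) -/
theorem connective_Bh (he : Connective e) (hH : Connective H)
    (hs : ∀ (a : ℕ) (y : Lp H.self.seq a a), ∃ (j : ℕ) (x : Lp e.self.seq (a + j) (a + j)),
      StEq (ρ.sh.lp x) (stn j y)) (f : ℕ) : Connective (Bh ρ (f + 1)) := by
  intro a n han x
  exact (stEq_res (Bh.diag ρ (f + 1)) (Bh ρ (f + 1)).self x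
    (cstLp (Bh ρ (f + 1)).self.seq a n)).1 (cd_Bm ρ he hH hs f a n han x)

end Pool.Agent.MP_d175a7_gt
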