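import Pool.Agent.Lib.MP_d175a7_gt.ConnB

/-! # Loops in homotopy pullbacks with null homotopic components -/

set_option autoImplicit false
set_option linter.unusedVariables false

namespace Pool.Agent.MP_d175a7_gt

open scoped Topology unitInterval

variable {R : RSp} {P Q S : MSp R} (f : MHom P S) (g : MHom Q S)

private theorem cE_cl {a : ℕ} (h : ℝ → ℝ → ℝ) (hh : Continuous fun q : ℝ × ℝ => h q.1 q.2) :
    Continuous fun q : I × (Fin a → I) × I =>
      Set.projIcc (0 : ℝ) 1 zero_le_one (h (q.1 : ℝ) (q.2.2 : ℝ)) := by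
  have h1 : Continuous fun q : I × (Fin a → I) × I => ((q.1 : ℝ), (q.2.2 : ℝ)) :=
    (continuous_subtype_val.comp continuous_fst).prodMk
      (continuous_subtype_val.comp (continuous_snd.comp continuous_snd))
  exact continuous_projIcc.comp (hh.comp h1)

private theorem cE_proj (s : I) (r : ℝ) (h : r = s) :
    Set.projIcc (0 : ℝ) 1 zero_le_one r = s := by
  subst h
  exact Set.projIcc_val zero_le_one s

/-- A loop whose components are null homotopic comes from a loop in `S`.  Proof: let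
`X : I → (Fin a → I) → P_n` and `Y` be null homotopies of the components
`x, y` of `z` (`X 0 = x`, `X 1 = pt`), and `γ t` the path component.  The homotopy is
`(s, t) ↦ ((X s t, Y s t), W s t)`, where `W s t` is the path `u ↦ w s t ((1 + 2 s) u)`,
`w s t r = f (X (s - r) t)` for `r ≤ s`, `γ t (r - s)` for `s ≤ r ≤ s + 1`,
`g (Y (r - s - 1) t)` for `s + 1 ≤ r ≤ 2 s + 1` (with `Set.projIcc` for the arguments, `f (X 0 t) =
γ t 0`, `γ t 1 = g (Y 0 t)`, `Continuous.if_le`; `f`, `g` are `k`-continuous, all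
sources are compact Hausdorff).  For `s = 0` this is `z`, for `s = 1` it is
`((pt, pt), W 1 t)`, and `l (snl t u) = W 1 t u` defines the loop `l`. -/
theorem exists_loopIn {a n : ℕ} (z : Lp (Hpb f g).seq a n)
    (h1 : GenLoop.Homotopic ((Hpb.p1 f g).sh.lp z) (cstLp P.seq a n))
    (h2 : GenLoop.Homotopic ((Hpb.p2 f g).sh.lp z) (cstLp Q.seq a n)) :
    ∃ l : Lp S.seq (a + 1) n, GenLoop.Homotopic z (loopIn f g l) := by
  obtain ⟨X, hXc, hX0, hX1, hXb⟩ := exists_of_homotopic h1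
  obtain ⟨Y, hYc, hY0, hY1, hYb⟩ := exists_of_homotopic h2
  -- the underlying map into the homotopy pullback
  let ζ : (Fin a → I) → HpbX f g n := z.1
  have hζ : Continuous ζ := z.1.continuous
  have hζb : ∀ t ∈ Cube.boundary (Fin a), ζ t = HpbX.pt f g n := z.2
  have hX0' : ∀ t, X 0 t = (ζ t).1.1.1 := hX0
  have hY0' : ∀ t, Y 0 t = (ζ t).1.1.2 := hY0
  have hX1' : ∀ t, X 1 t = P.pt n := hX1
  have hY1' : ∀ t, Y 1 t = Q.pt n := hY1
  have hXb' : ∀ s, ∀ t ∈ Cube.boundary (Fin a), X s t = P.pt n := hXb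
  have hYb' : ∀ s, ∀ t ∈ Cube.boundary (Fin a), Y s t = Q.pt n := hYb
  let cl : ℝ → I := Set.projIcc (0 : ℝ) 1 zero_le_one
  let A : I × (Fin a → I) × I → S.X n := fun q =>
    f.f n (X (cl ((q.1 : ℝ) - (1 + 2 * (q.1 : ℝ)) * (q.2.2 : ℝ))) q.2.1)
  let B : I × (Fin a → I) × I → S.X n := fun q =>
    (ζ q.2.1).1.2 (cl ((1 + 2 * (q.1 : ℝ)) * (q.2.2 : ℝ) - (q.1 : ℝ)))
  let C : I × (Fin a → I) × I → S.X n := fun q =>
    g.f n (Y (cl ((1 + 2 * (q.1 : ℝ)) * (q.2.2 : ℝ) - (q.1 : ℝ) - 1)) q.2.1)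
  have hA : Continuous A := by
    refine f.cont n (I × (Fin a → I) × I) (fun q =>
      X (cl ((q.1 : ℝ) - (1 + 2 * (q.1 : ℝ)) * (q.2.2 : ℝ))) q.2.1) ?_
    exact hXc.comp ((cE_cl (fun s u => s - (1 + 2 * s) * u) (by fun_prop)).prodMk
      (continuous_fst.comp continuous_snd))
  have hC : Continuous C := by
    refine g.cont n (I × (Fin a → I) × I) (fun q =>
      Y (cl ((1 + 2 * (q.1 : ℝ)) * (q.2.2 : ℝ) - (q.1 : ℝ) - 1)) q.2.1) ?_
    exact hYc.comp ((cE_cl (fun s u => (1 + 2 * s) * u - s - 1) (by fun_prop)).prodMk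
      (continuous_fst.comp continuous_snd))
  have hB : Continuous B := by
    have h3 := uncurry_cont (fun t => (ζ t).1.2)
      (continuous_snd.comp (continuous_subtype_val.comp hζ))
    exact h3.comp ((continuous_fst.comp continuous_snd).prodMk
      (cE_cl (fun s u => (1 + 2 * s) * u - s) (by fun_prop)))
  let W : I × (Fin a → I) × I → S.X n := fun q =>
    if (1 + 2 * (q.1 : ℝ)) * (q.2.2 : ℝ) ≤ (q.1 : ℝ) then A q
    else if (1 + 2 * (q.1 : ℝ)) * (q.2.2 : ℝ) ≤ (q.1 : ℝ) + 1 then B q else C q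
  have hr : Continuous fun q : I × (Fin a → I) × I => (1 + 2 * (q.1 : ℝ)) * (q.2.2 : ℝ) := by
    fun_prop
  have hs : Continuous fun q : I × (Fin a → I) × I => (q.1 : ℝ) := by fun_prop
  have hs1 : Continuous fun q : I × (Fin a → I) × I => (q.1 : ℝ) + 1 := by fun_prop
  have hBC : Continuous fun q : I × (Fin a → I) × I =>
      if (1 + 2 * (q.1 : ℝ)) * (q.2.2 : ℝ) ≤ (q.1 : ℝ) + 1 then B q else C q := by
    refine Continuous.if_le hB hC hr hs1 ?_
    intro q hq
    have e1 : cl ((1 + 2 * (q.1 : ℝ)) * (q.2.2 : ℝ) - (q.1 : ℝ)) = 1 :=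
      cE_proj 1 _ (by rw [hq]; simp)
    have e2 : cl ((1 + 2 * (q.1 : ℝ)) * (q.2.2 : ℝ) - (q.1 : ℝ) - 1) = 0 :=
      cE_proj 0 _ (by rw [hq]; simp)
    change (ζ q.2.1).1.2 (cl _) = g.f n (Y (cl _) q.2.1)
    rw [e1, e2, hY0']
    exact (ζ q.2.1).2.2
  have hW : Continuous W := by
    refine Continuous.if_le hA hBC hr hs ?_
    intro q hq
    have e1 : cl ((q.1 : ℝ) - (1 + 2 * (q.1 : ℝ)) * (q.2.2 : ℝ)) = 0 :=
      cE_proj 0 _ (by rw [hq]; simp)
    have e2 : cl ((1 + 2 * (q.1 : ℝ)) * (q.2.2 : ℝ) - (q.1 : ℝ)) = 0 :=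
      cE_proj 0 _ (by rw [hq]; simp)
    have e3 : (1 + 2 * (q.1 : ℝ)) * (q.2.2 : ℝ) ≤ (q.1 : ℝ) + 1 := by rw [hq]; linarith
    rw [if_pos e3]
    change f.f n (X (cl _) q.2.1) = (ζ q.2.1).1.2 (cl _)
    rw [e1, e2, hX0']
    exact (ζ q.2.1).2.1.symm
  have hW0 : ∀ s t, W (s, t, 0) = f.f n (X s t) := by
    intro s t
    have e1 : (1 + 2 * (s : ℝ)) * ((0 : I) : ℝ) ≤ (s : ℝ) := by
      have := s.2.1
      simpa using this
    have e2 : cl ((s : ℝ) - (1 + 2 * (s : ℝ)) * ((0 : I) : ℝ)) = s := cE_proj s _ (by simp)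
    change (if (1 + 2 * (s : ℝ)) * ((0 : I) : ℝ) ≤ (s : ℝ) then A (s, t, 0) else _) = _
    rw [if_pos e1]
    change f.f n (X (cl _) t) = _
    rw [e2]
  have hW1 : ∀ s t, W (s, t, 1) = g.f n (Y s t) := by
    intro s t
    have h0 := s.2.1
    have e1 : ¬ (1 + 2 * (s : ℝ)) * ((1 : I) : ℝ) ≤ (s : ℝ) := by
      intro h
      have h' : (1 + 2 * (s : ℝ)) * 1 ≤ (s : ℝ) := h
      linarith
    change (if (1 + 2 * (s : ℝ)) * ((1 : I) : ℝ) ≤ (s : ℝ) then A (s, t, 1) else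
      if (1 + 2 * (s : ℝ)) * ((1 : I) : ℝ) ≤ (s : ℝ) + 1 then B (s, t, 1) else C (s, t, 1)) = _
    rw [if_neg e1]
    by_cases e2 : (1 + 2 * (s : ℝ)) * ((1 : I) : ℝ) ≤ (s : ℝ) + 1
    · rw [if_pos e2]
      have e2' : (1 + 2 * (s : ℝ)) * 1 ≤ (s : ℝ) + 1 := e2
      have hs0 : (s : ℝ) = 0 := by linarith
      have hs0' : s = 0 := Subtype.ext hs0
      subst hs0'
      have e3 : cl ((1 + 2 * ((0 : I) : ℝ)) * ((1 : I) : ℝ) - ((0 : I) : ℝ)) = 1 :=
        cE_proj 1 _ (by simp)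
      change (ζ t).1.2 (cl _) = _
      rw [e3, hY0']
      exact (ζ t).2.2
    · rw [if_neg e2]
      have e3 : cl ((1 + 2 * (s : ℝ)) * ((1 : I) : ℝ) - (s : ℝ) - 1) = s := by
        refine cE_proj s _ ?_
        change (1 + 2 * (s : ℝ)) * 1 - (s : ℝ) - 1 = s
        ring
      change g.f n (Y (cl _) t) = _
      rw [e3]
  have hWb : ∀ s, ∀ t ∈ Cube.boundary (Fin a), ∀ u, W (s, t, u) = S.pt n := by
    intro s t ht u
    have hA' : A (s, t, u) = S.pt n := by
      change f.f n (X _ t) = _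
      rw [hXb' _ t ht, f.pt]
    have hB' : B (s, t, u) = S.pt n := by
      change (ζ t).1.2 _ = _
      rw [hζb t ht]
      rfl
    have hC' : C (s, t, u) = S.pt n := by
      change g.f n (Y _ t) = _
      rw [hYb' _ t ht, g.pt]
    change (if _ then A (s, t, u) else if _ then B (s, t, u) else C (s, t, u)) = _
    rw [hA', hB', hC', ite_self, ite_self]
  have hWz : ∀ t u, W (0, t, u) = (ζ t).1.2 u := by
    intro t u
    change (if (1 + 2 * ((0 : I) : ℝ)) * (u : ℝ) ≤ ((0 : I) : ℝ) then A (0, t, u) else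
      if (1 + 2 * ((0 : I) : ℝ)) * (u : ℝ) ≤ ((0 : I) : ℝ) + 1 then B (0, t, u)
      else C (0, t, u)) = _
    by_cases e1 : (1 + 2 * ((0 : I) : ℝ)) * (u : ℝ) ≤ ((0 : I) : ℝ)
    · rw [if_pos e1]
      have e1' : (1 + 2 * (0 : ℝ)) * (u : ℝ) ≤ 0 := e1
      have hu0 : (u : ℝ) = 0 := le_antisymm (by linarith) u.2.1
      have hu0' : u = 0 := Subtype.ext hu0
      subst hu0'
      have e3 : cl (((0 : I) : ℝ) - (1 + 2 * ((0 : I) : ℝ)) * ((0 : I) : ℝ)) = 0 :=
        cE_proj 0 _ (by simp)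
      change f.f n (X (cl _) t) = _
      rw [e3, hX0']
      exact (ζ t).2.1.symm
    · rw [if_neg e1]
      have e2 : (1 + 2 * ((0 : I) : ℝ)) * (u : ℝ) ≤ ((0 : I) : ℝ) + 1 := by
        change (1 + 2 * (0 : ℝ)) * (u : ℝ) ≤ 0 + 1
        have := u.2.2
        linarith
      rw [if_pos e2]
      have e3 : cl ((1 + 2 * ((0 : I) : ℝ)) * (u : ℝ) - ((0 : I) : ℝ)) = u := by
        refine cE_proj u _ ?_
        change (1 + 2 * (0 : ℝ)) * (u : ℝ) - 0 = u
        ring
      change (ζ t).1.2 (cl _) = _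
      rw [e3]
  -- the homotopy
  have hWc : ∀ (s : I) (t : Fin a → I), Continuous fun u : I => W (s, t, u) := fun s t =>
    hW.comp (continuous_const.prodMk (continuous_const.prodMk continuous_id))
  let K : I → (Fin a → I) → HpbX f g n := fun s t =>
    ⟨((X s t, Y s t), ⟨fun u => W (s, t, u), hWc s t⟩), hW0 s t, hW1 s t⟩
  have hK : Continuous fun q : I × (Fin a → I) => K q.1 q.2 := by
    refine Continuous.subtype_mk ((hXc.prodMk hYc).prodMk (curry_cont _ ?_)) _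
    exact hW.comp ((continuous_fst.comp continuous_fst).prodMk
      ((continuous_snd.comp continuous_fst).prodMk continuous_snd))
  -- the loop
  have hlc : Continuous fun τ : Fin (a + 1) → I =>
      W (1, (fun i : Fin a => τ i.castSucc), τ (Fin.last a)) := by
    refine hW.comp (continuous_const.prodMk (Continuous.prodMk ?_ (continuous_apply _)))
    exact continuous_pi fun i => continuous_apply _
  have hlb : ∀ τ ∈ Cube.boundary (Fin (a + 1)),
      W (1, (fun i : Fin a => τ i.castSucc), τ (Fin.last a)) = S.pt n := by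
    rintro τ ⟨i, hi⟩
    rcases Fin.eq_castSucc_or_eq_last i with ⟨i', rfl⟩ | rfl
    · exact hWb 1 _ ⟨i', hi⟩ _
    · rcases hi with hi | hi
      · rw [hi, hW0, hX1', f.pt]
      · rw [hi, hW1, hY1', g.pt]
  let l : Lp S.seq (a + 1) n := ⟨⟨fun τ : Fin (a + 1) → I =>
      W (1, (fun i : Fin a => τ i.castSucc), τ (Fin.last a)), hlc⟩, hlb⟩
  have hl : ∀ (t : Fin a → I) (u : I), l.1 (snl t u) = W (1, t, u) := by
    intro t u
    have e1 : (fun i : Fin a => snl t u i.castSucc) = t := by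
      funext i
      exact dif_pos i.2
    have e2 : snl t u (Fin.last a) = u := dif_neg (lt_irrefl a)
    change W (1, (fun i : Fin a => snl t u i.castSucc), snl t u (Fin.last a)) = _
    rw [e1, e2]
  refine ⟨l, ?_⟩
  refine homotopic_of (P := (Hpb f g).seq) K hK (fun t => ?_) (fun t => ?_)
    (fun s t ht => ?_)
  · refine Subtype.ext (Prod.ext (Prod.ext (hX0' t) (hY0' t)) (ContinuousMap.ext fun u => ?_))
    exact hWz t u
  · refine Subtype.ext (Prod.ext (Prod.ext (hX1' t) (hY1' t)) (ContinuousMap.ext fun u => ?_))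
    exact (hl t u).symm
  · refine Subtype.ext (Prod.ext (Prod.ext (hXb' s t ht) (hYb' s t ht))
      (ContinuousMap.ext fun u => ?_))
    exact hWb s t ht u

end Pool.Agent.MP_d175a7_gt
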