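import Pool.Agent.Lib.MP_d175a7_gt.ConnE

/-!
# Loops in homotopy pullbacks are determined by their components

If `π_(a-n+1) S = 0`, then a loop in `Ω^a` of the homotopy pullback of `f : P → S ← Q : g` at
level `n` is determined up to stable homotopy by its components in `P` and `Q`.
-/

set_option autoImplicit false
set_option linter.unusedVariables false

namespace Pool.Agent.MP_d175a7_gt

open scoped Topology unitInterval

variable {R : RSp} {P Q S : MSp R} (f : MHom P S) (g : MHom Q S)

private theorem connK_le {P : Seq} {a n : ℕ} {x y : Lp P a n} {i j : ℕ} (hij : i ≤ j)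
    (h : GenLoop.Homotopic (stn i x) (stn i y)) : GenLoop.Homotopic (stn j x) (stn j y) := by
  induction j, hij using Nat.le_induction with
  | base => exact h
  | succ j _ ih => exact st_homotopic ih

/-- The kernel lemma.  (Choose a common number `j` of suspensions for `h1`, `h2`, apply
`exists_loopIn` to `stn j z` (`SHom.lp_stn`, `stn_cst`), `hS`, `loopIn_stEq`, `stEq_stn`.) -/
theorem hpb_ker {a n : ℕ} (hS : ∀ (j : ℕ) (x : Lp S.seq (a + j + 1) (n + j)),
      StEq x (cstLp S.seq (a + j + 1) (n + j))) (z : Lp (Hpb f g).seq a n)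
    (h1 : StEq ((Hpb.p1 f g).sh.lp z) (cstLp P.seq a n))
    (h2 : StEq ((Hpb.p2 f g).sh.lp z) (cstLp Q.seq a n)) :
    StEq z (cstLp (Hpb f g).seq a n) := by
  obtain ⟨j1, hj1⟩ := h1
  obtain ⟨j2, hj2⟩ := h2
  have k1 := connK_le (le_max_left j1 j2) hj1
  have k2 := connK_le (le_max_right j1 j2) hj2
  rw [← SHom.lp_stn, stn_cst] at k1 k2
  obtain ⟨l, hl⟩ := exists_loopIn f g (stn (max j1 j2) z) k1 k2
  have h3 := (stEq_of_homotopic hl).trans (loopIn_stEq f g (hS _ l))
  rw [← stn_cst] at h3
  exact (stEq_stn _).1 h3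

/-- Loops in a homotopy pullback with stably homotopic components are stably homotopic.  (By
`stEq_st` replace `z, z'` by their suspensions `w = st z`, `w' = st z'` in
`Ω^(a+1)`.  By `exists_transAt` there is `d` with `w' * d ~ w`; its components are
stably trivial by `lp_transAt`, `transAt_stEq_cancel`, `transAt_cst`; so `d` is stably trivial by
`hpb_ker`, and `w ~ w' * d ~ w' * 1 ~ w'` stably.  The hypothesis `hS` for `(a + 1, n + 1)` follows
from the one for `(a, n)` with `j + 1` by a cast.) -/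
theorem hpb_inj {a n : ℕ} (hS : ∀ (j : ℕ) (x : Lp S.seq (a + j + 1) (n + j)),
      StEq x (cstLp S.seq (a + j + 1) (n + j))) (z z' : Lp (Hpb f g).seq a n)
    (h1 : StEq ((Hpb.p1 f g).sh.lp z) ((Hpb.p1 f g).sh.lp z'))
    (h2 : StEq ((Hpb.p2 f g).sh.lp z) ((Hpb.p2 f g).sh.lp z')) : StEq z z' := by
  have hS' : ∀ (j A N : ℕ) (hA : A = a + j + 1) (hN : N = n + j) (x : Lp S.seq A N),
      StEq x (cstLp S.seq A N) := by
    intro j A N hA hN x
    subst hA hN
    exact hS j x
  obtain ⟨d, hd⟩ := exists_transAt (st z') (st z)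
  have hcomp : ∀ {Q' : Seq} (p : SHom (Hpb f g).seq Q'), StEq (p.lp z) (p.lp z') →
      StEq (p.lp d) (cstLp Q' (a + 1) (n + 1)) := by
    intro Q' p hp
    have h3 : StEq (GenLoop.transAt 0 (p.lp (st z')) (p.lp d)) (p.lp (st z)) := by
      rw [← lp_transAt]
      exact stEq_of_homotopic (lp_homotopic p hd)
    have h4 : StEq (p.lp (st z)) (p.lp (st z')) := by
      rw [SHom.lp_st, SHom.lp_st]
      exact stEq_st.2 hp
    have h5 : StEq (p.lp (st z'))
        (GenLoop.transAt 0 (p.lp (st z')) (cstLp Q' (a + 1) (n + 1))) :=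
      (stEq_of_homotopic (transAt_cst _)).symm
    exact transAt_stEq_cancel ((h3.trans h4).trans h5) (StEq.refl _)
  have hd0 : StEq d (cstLp (Hpb f g).seq (a + 1) (n + 1)) :=
    hpb_ker f g (fun j x => hS' (j + 1) _ _ (by omega) (by omega) x) d
      (hcomp _ h1) (hcomp _ h2)
  have h6 : StEq (st z) (GenLoop.transAt 0 (st z') d) := (stEq_of_homotopic hd).symm
  have h7 : StEq (GenLoop.transAt 0 (st z') d)
      (GenLoop.transAt 0 (st z') (cstLp (Hpb f g).seq (a + 1) (n + 1))) :=
    transAt_stEq (StEq.refl _) hd0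
  exact stEq_st.1 ((h6.trans h7).trans (stEq_of_homotopic (transAt_cst _)))

end Pool.Agent.MP_d175a7_gt
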