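import Pool.Agent.Lib.MP_d175a7_gt.Eta
import Pool.Agent.Lib.MP_d175a7_gt.Alt

/-!
# The class attached to a cube of self equivalences: definitions
-/

set_option autoImplicit false
set_option linter.unusedVariables false

namespace Pool.Agent.MP_d175a7_gt

open CategoryTheory

variable {C : Type 1} [Category.{0} C]

/-- A family of cubes: for every `ω : Fin m → Bool` a functor from `{0,1}^m` to `C`, with the
same objects, such that the map `s → s'` only depends on the `ω i` with `s i ≠ s' i`. -/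
structure Cube (C : Type 1) [Category.{0} C] (m : ℕ) : Type 1 where
  /-- the objects -/
  obj : (Fin m → Bool) → C
  /-- the maps -/
  map : ∀ (ω : Fin m → Bool) {s s' : Fin m → Bool}, s ≤ s' → (obj s ⟶ obj s')
  map_id : ∀ (ω s : Fin m → Bool), map ω (le_refl s) = 𝟙 _
  map_comp : ∀ (ω : Fin m → Bool) {s s' s'' : Fin m → Bool} (h : s ≤ s') (h' : s' ≤ s''),
    map ω (h.trans h') = map ω h ≫ map ω h'
  indep : ∀ (ω ω' : Fin m → Bool) {s s' : Fin m → Bool} (h : s ≤ s'),
    (∀ i, s i ≠ s' i → ω i = ω' i) → map ω h = map ω' h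

/-- The simplex of the nerve given by an `n`-simplex `τ` of `(Δ^1)^m`. -/
def Cube.fn {m : ℕ} (Q : Cube C m) (ω : Fin m → Bool) {n : ℕ} (τ : Fin m → Mon n) :
    Fin (n + 1) ⥤ C where
  obj l := Q.obj (fun i => τ i l)
  map {l l'} h := Q.map ω (fun i => (τ i).monotone (leOfHom h))
  map_id l := Q.map_id ω _
  map_comp f g := Q.map_comp ω _ _

/-- The element of `K_n` attached to a cube and an `n`-simplex of `(Δ^1)^m`. -/
def cm (S : SMon C) {m : ℕ} (Q : Cube C m) {n : ℕ} (τ : Fin m → Mon n) : KG S n :=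
  alt m (fun ω => eta S (Q.fn ω τ))

/-- A map `(Δ^1)^b × Δ^j → K` which is trivial on the boundary. -/
structure CM (S : SMon C) (b j : ℕ) : Type 1 where
  /-- the map -/
  g : ∀ n, (Fin b → Mon n) → (Fin (n + 1) →o Fin (j + 1)) → KG S n
  nat : ∀ {m n : ℕ} (α : Fin (m + 1) →o Fin (n + 1)) (τ : Fin b → Mon n)
    (β : Fin (n + 1) →o Fin (j + 1)),
    g m (fun i => (τ i).comp α) (β.comp α) = KG.map α (g n τ β)
  bd : ∀ {n : ℕ} (τ : Fin b → Mon n) (β : Fin (n + 1) →o Fin (j + 1)) (i : Fin b),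
    IsCst (τ i) → g n τ β = 1
  bd' : ∀ {n : ℕ} (τ : Fin b → Mon n) (β : Fin (n + 1) →o Fin (j + 1)),
    ¬ Function.Surjective β → g n τ β = 1

/-- Naturality of `cm`.  Proof: `alt_map` for the homomorphism `KG.map α`, `eta_nat` and
`ofn α ⋙ Q.fn ω τ = Q.fn ω (fun i => (τ i).comp α)` (`rfl`). -/
theorem cm_nat (S : SMon C) {b : ℕ} (Q : Cube C b) {m n : ℕ} (α : Fin (m + 1) →o Fin (n + 1))
    (τ : Fin b → Mon n) : cm S Q (fun i => (τ i).comp α) = KG.map α (cm S Q τ) := by
  unfold cm
  refine Eq.trans ?_ (alt_map (KG.map α) b (fun ω => eta S (Q.fn ω τ))).symm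
  congr 1
  funext ω
  rw [eta_nat]
  rfl

/-- `cm` is trivial on the boundary.  Proof: `alt_indep` for the coordinate `i`: the functor
`Q.fn ω τ` does not depend on `ω i`, since `τ i l = τ i l'` for all `l, l'` (`Q.indep`; equality of
functors with the same objects: unfold `Cube.fn` and use `funext` for the field `map`, e.g. via
`CategoryTheory.Functor.hext`). -/
theorem cm_bd (S : SMon C) {b : ℕ} (Q : Cube C b) {n : ℕ} (τ : Fin b → Mon n) (i : Fin b)
    (h : IsCst (τ i)) : cm S Q τ = 1 := by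
  refine alt_indep b _ i fun ω ω' hω => ?_
  have e : Q.fn ω τ = Q.fn ω' τ := by
    refine CategoryTheory.Functor.hext (fun _ => rfl) fun l l' f => heq_of_eq ?_
    refine Q.indep ω ω' _ fun j hj => ?_
    refine hω j fun hji => ?_
    subst hji
    exact hj (h l l')
  rw [e]

/-- The map `(Δ^1)^b × Δ^0 → K` of a cube. -/
def CM.ofCube (S : SMon C) {b : ℕ} (Q : Cube C b) : CM S b 0 where
  g n τ β := cm S Q τ
  nat α τ β := cm_nat S Q α τ
  bd τ β i h := cm_bd S Q τ i h
  bd' τ β h := absurd (fun y => ⟨0, Fin.ext (by have h1 := (β 0).2; have h2 := y.2; omega)⟩) h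

/-- The simplex of `Δ^1` given by `[i < ·]`. -/
def rho (n i : ℕ) : Mon n where
  toFun l := decide (i < l.1)
  monotone' a b h := by
    have h' : a.1 ≤ b.1 := h
    by_cases h1 : i < a.1
    · simp [h1, show i < b.1 by omega]
    · simp [h1]

end Pool.Agent.MP_d175a7_gt
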