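import Pool.Agent.Lib.MP_d175a7_gt.POp

/-! # The iterated prism operator on cochains: definitions -/

set_option autoImplicit false
set_option linter.unusedVariables false

namespace Pool.Agent.MP_d175a7_gt

universe u v

/-- Cochains on `(Δ^1)^b × X`. -/
abbrev CuC (p b : ℕ) (X : PS.{u}) : Type u := ∀ n : ℕ, (Fin b → Mon n) → X.X n → ZMod p

/-- One prism operator: `(P Ψ)(τ, x) = ∑_i (-1)^i Ψ([i < ·], τ s_i, s_i x)`. -/
def pr1 {p b : ℕ} {X : PS.{u}} (Ψ : CuC p (b + 1) X) : CuC p b X := fun n τ x =>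
  ∑ i ∈ Finset.range (n + 1), (-1) ^ i * Ψ (n + 1)
    (Fin.cons (α := fun _ => Mon (n + 1)) (rho (n + 1) i) (fun a => (τ a).comp (sig n i)))
    (X.map (sig n i) x)

/-- The iterated prism operator. -/
def pr {p : ℕ} {X : PS.{u}} : ∀ b : ℕ, CuC p b X → CoCh p X
  | 0, Ψ => fun n x => Ψ n (fun i => i.elim0) x
  | b + 1, Ψ => pr b (pr1 Ψ)

/-- The cylinder `Δ^1 × X`. -/
def Cyl (X : PS.{u}) : PS.{u} where
  X n := Mon n × X.X n
  map α q := (q.1.comp α, X.map α q.2)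
  map_id q := Prod.ext rfl (X.map_id _)
  map_comp α β q := Prod.ext rfl (X.map_comp α β _)
  pt n := (cst n false, X.pt n)
  map_pt α := Prod.ext rfl (X.map_pt α)

/-- The simplex `Δ^j` (pointed at the vertex `0`). -/
def Dl (j : ℕ) : PS.{0} where
  X n := Fin (n + 1) →o Fin (j + 1)
  map α β := β.comp α
  map_id _ := rfl
  map_comp _ _ _ := rfl
  pt n := ⟨fun _ => 0, fun _ _ _ => le_rfl⟩
  map_pt _ := rfl

/-- The last `d` coordinates of `(Δ^1)^(d+k)`. -/
def tlc {M : Type} (d k : ℕ) (τ : Fin (d + k) → M) : Fin d → M :=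
  fun i => τ ⟨k + i.1, by omega⟩

/-- The first `k` coordinates of `(Δ^1)^(d+k)`. -/
def hdc {M : Type} (d k : ℕ) (τ : Fin (d + k) → M) : Fin k → M :=
  fun i => τ ⟨i.1, by omega⟩

/-- Concatenation (`τ` first, then `τ'`). -/
def apc {M : Type} (d k : ℕ) (τ : Fin k → M) (τ' : Fin d → M) : Fin (d + k) → M :=
  fun i => if h : i.1 < k then τ ⟨i.1, h⟩ else τ' ⟨i.1 - k, by omega⟩

theorem hdc_apc {M : Type} (d k : ℕ) (τ : Fin k → M) (τ' : Fin d → M) :
    hdc d k (apc d k τ τ') = τ := by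
  funext i
  simp [hdc, apc]

theorem tlc_apc {M : Type} (d k : ℕ) (τ : Fin k → M) (τ' : Fin d → M) :
    tlc d k (apc d k τ τ') = τ' := by
  funext i
  simp [tlc, apc]

theorem apc_hdc_tlc {M : Type} (d k : ℕ) (τ : Fin (d + k) → M) :
    apc d k (hdc d k τ) (tlc d k τ) = τ := by
  funext i
  unfold apc hdc tlc
  split_ifs with h
  · rfl
  · congr 1
    apply Fin.ext
    change k + (i.1 - k) = i.1
    omega

/-- The simplex `e_π` of `(Δ^1)^m`: the coordinate `a` is `[π a < ·]`. -/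
def epi {m : ℕ} (π : Equiv.Perm (Fin m)) : Fin m → Mon m := fun a => rho m (π a).1

/-- The unique operator `[n] → [0]`. -/
def tozero (n : ℕ) : Fin (n + 1) →o Fin (0 + 1) := ⟨fun _ => 0, fun _ _ _ => le_rfl⟩

end Pool.Agent.MP_d175a7_gt
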