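import Pool.Agent.Lib.MP_d175a7_gt.Alg

/-! # Weighted cyclic shifts: definitions -/

set_option autoImplicit false
set_option linter.unusedVariables false

namespace Pool.Agent.MP_d175a7_gt

/-- The cyclic successor on `Fin m`. -/
def nxt {m : ℕ} (j : Fin m) : Fin m := finRotate m j

/-- The endomorphism of `k^(m × J)` mapping the basis vector `e_(i,j)` to `c i j • e_(i+1,j)` if
`u i` and to `0` otherwise: `(v_(a,j)) ↦ (u_(a-1) c_(a-1,j) v_(a-1,j))`. -/
def shE {k : Type} [CommRing k] {m : ℕ} {J : Type} (c : Fin m → J → k) (u : Fin m → Bool) :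
    Module.End k (Fin m × J → k) where
  toFun v a := if u ((finRotate m).symm a.1)
    then c ((finRotate m).symm a.1) a.2 * v ((finRotate m).symm a.1, a.2) else 0
  map_add' v w := by
    funext a
    change (if _ then c _ _ * (v _ + w _) else (0 : k)) =
      (if _ then c _ _ * v _ else 0) + (if _ then c _ _ * w _ else 0)
    split_ifs
    · ring
    · simp
  map_smul' x v := by
    funext a
    change (if _ then c _ _ * (x * v _) else (0 : k)) = x * (if _ then c _ _ * v _ else 0)
    split_ifs
    · ring
    · simp

end Pool.Agent.MP_d175a7_gt
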