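import Pool.Agent.Lib.MP_d175a7_gt.DRep
import Pool.Agent.Lib.MP_d175a7_gt.Cube
import Pool.Agent.Lib.MP_d175a7_gt.Pr
import Pool.Agent.Lib.MP_d175a7_gt.Shift

/-! # The trace cocycle on a cube of elementary shifts -/

set_option autoImplicit false
set_option linter.unusedVariables false

namespace Pool.Agent.MP_d175a7_gt

open CategoryTheory

variable {C : Type 1} [Category.{0} C]

/-- Coordinates of a cube in a representation over the dual numbers in which the maps of the cube
are `1 + ε ∑ c_(i,j) E_((i+1,j),(i,j))`, the sum over the used `i` with `ω i = true` and all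
`j`. -/
structure CubCo {S : SMon C} {k : Type} [CommRing k] (D : DRep S k) {m : ℕ} (Q : Cube C m)
    (J : Type) (c : Fin m → J → k) : Type 1 where
  /-- the coordinates -/
  co : ∀ s : Fin m → Bool, D.U (Q.obj s) ≃ₗ[k] (Fin m × J → k)
  bar : ∀ (ω : Fin m → Bool) {s s' : Fin m → Bool} (h : s ≤ s') (v : D.U (Q.obj s)),
    co s' (D.bar (Q.map ω h) v) = co s v
  one : ∀ (ω : Fin m → Bool) {s s' : Fin m → Bool} (h : s ≤ s') (v : D.U (Q.obj s)) (i : Fin m)
    (j : J), co s' (D.one (Q.map ω h) v) (nxt i, j) =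
      open scoped Classical in
      if s i ≠ s' i ∧ ω i = true then c i j * co s v (i, j) else 0

private theorem cubPhi_theta {S : SMon C} {k : Type} [CommRing k] (D : DRep S k) {m : ℕ}
    (Q : Cube C m) {J : Type} {c : Fin m → J → k} (co : CubCo D Q J c) (ω : Fin m → Bool)
    (π : Equiv.Perm (Fin m)) (l : Fin (m + 1)) :
    (co.co (fun a => epi π a 0)).conjRingEquiv (D.theta (Q.fn ω (epi π)) l) =
      shE c (fun a => decide ((π a).1 < l.1) && ω a) := by
  apply LinearMap.ext
  intro v
  obtain ⟨w, rfl⟩ := (co.co (fun a => epi π a 0)).surjective v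
  have hle : (fun a => epi π a (0 : Fin (m + 1))) ≤ (fun a => epi π a l) :=
    fun a => (epi π a).monotone (Fin.zero_le l)
  have h1 : (co.co (fun a => epi π a 0)).conjRingEquiv (D.theta (Q.fn ω (epi π)) l)
      (co.co (fun a => epi π a 0) w) = co.co (fun a => epi π a 0)
        ((D.bar (Q.map ω hle)).symm (D.one (Q.map ω hle)
          ((co.co (fun a => epi π a 0)).symm (co.co (fun a => epi π a 0) w)))) := rfl
  rw [h1, LinearEquiv.symm_apply_apply, ← co.bar ω hle, LinearEquiv.apply_symm_apply]
  funext b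
  obtain ⟨i', j⟩ := b
  obtain ⟨i, rfl⟩ := (finRotate m).surjective i'
  have h2 := co.one ω hle w i j
  change co.co (fun a => epi π a l) (D.one (Q.map ω hle) w) (finRotate m i, j) = _ at h2
  rw [h2]
  change _ = if (fun a => decide ((π a).1 < l.1) && ω a) ((finRotate m).symm (finRotate m i))
    then c ((finRotate m).symm (finRotate m i)) j * co.co (fun a => epi π a 0) w
      ((finRotate m).symm (finRotate m i), j) else 0
  rw [Equiv.symm_apply_apply]
  have h3 : (epi π i (0 : Fin (m + 1)) ≠ epi π i l ∧ ω i = true) ↔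
      (decide ((π i).1 < l.1) && ω i) = true := by
    change (decide ((π i).1 < (0 : Fin (m + 1)).1) ≠ decide ((π i).1 < l.1) ∧ ω i = true) ↔ _
    simp
  by_cases h4 : (decide ((π i).1 < l.1) && ω i) = true
  · rw [if_pos (h3.2 h4)]
    exact (if_pos h4).symm
  · rw [if_neg (fun h => h4 (h3.1 h))]
    exact (if_neg h4).symm

/-- The value of the trace cocycle.  Proof: with `co = co_s`, `s` the vertex of `epi π` at `0` (all
coordinates `false`: `(epi π) a 0 = decide (π a < 0) = false`), `co ∘ theta l ∘ co⁻¹ =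
shE c (fun a => decide (π a < l) && ω a)`: from `theta l = bar⁻¹ ∘ one` of the map `0 → l`,
`CubCo.bar`, `CubCo.one`, and `s a ≠ s' a` iff `π a < l` for the vertices `s`, `s'` at `0` and `l`;
every index is of the form `nxt i`.  Then `Phi_map` for the ring isomorphism
`LinearEquiv.conj` (as in `DRep.phi_coc`) and `LinearMap.trace_conj'`. -/
theorem phi_cube {S : SMon C} {k : Type} [CommRing k] (D : DRep S k) {m : ℕ} (Q : Cube C m)
    {J : Type} [Fintype J] {c : Fin m → J → k} (co : CubCo D Q J c) (ω : Fin m → Bool)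
    (π : Equiv.Perm (Fin m)) :
    D.phi m (Q.fn ω (epi π)) = LinearMap.trace k (Fin m × J → k)
      (Phi m (fun l : Fin (m + 1) => shE c (fun a => decide ((π a).1 < l.1) && ω a))) := by
  have h1 : (fun l : Fin (m + 1) => shE c (fun a => decide ((π a).1 < l.1) && ω a)) = fun l =>
      (co.co (fun a => epi π a 0)).conjRingEquiv.toRingHom (D.theta (Q.fn ω (epi π)) l) :=
    funext fun l => (cubPhi_theta D Q co ω π l).symm
  rw [h1, Phi_map]
  exact (LinearMap.trace_conj' _ _).symm

end Pool.Agent.MP_d175a7_gt
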