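import Pool.Agent.Lib.MP_d175a7_gt.Eta

/-! # Additive cocycles on the nerve give cocycles on the loop group -/

set_option autoImplicit false
set_option linter.unusedVariables false

namespace Pool.Agent.MP_d175a7_gt

open CategoryTheory

variable {C : Type 1} [Category.{0} C]

/-- A normalised additive cocycle on the nerve (in all degrees). -/
structure ACoc (S : SMon C) (p : ℕ) where
  /-- the cochains -/
  φ : ∀ n : ℕ, (Fin (n + 1) ⥤ C) → ZMod p
  nrm : ∀ (n i : ℕ) (F : Fin (n + 1) ⥤ C), φ (n + 1) (ofn (sig n i) ⋙ F) = 0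
  coc : ∀ (n : ℕ) (F : Fin (n + 1 + 1) ⥤ C),
    ∑ i ∈ Finset.range (n + 2), (-1) ^ i * φ n (ofn (del n i) ⋙ F) = 0
  add : ∀ (n : ℕ) (F G : Fin (n + 1) ⥤ C), φ n (S.mul F G) = φ n F + φ n G

theorem ACoc.one {S : SMon C} {p : ℕ} (Φ : ACoc S p) (n : ℕ) : Φ.φ n (S.one _) = 0 := by
  have h := Φ.add n (S.one _) (S.one _)
  rw [S.one_mul] at h
  simpa using h

/-- `[n] → {l : 1 ≤ l} ⊆ [n+1]`. -/
def up1 (n : ℕ) : Fin (n + 1) ⥤ Above (n + 1) 1 :=
  Monotone.functor (f := fun l : Fin (n + 1) => (⟨l.succ, by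
    rw [Fin.le_def]; simp⟩ : Above (n + 1) 1))
    (fun _ _ h => Fin.succ_le_succ_iff.2 h)

/-- The entry `g 0 1` as a functor on `[n]`. -/
def Wb.f01 {S : SMon C} {n : ℕ} (x : Wb S (n + 1)) : Fin (n + 1) ⥤ C :=
  up1 n ⋙ x.g 0 1 (Fin.zero_le _)

theorem Wb.f01_sg0 {S : SMon C} {n : ℕ} (y : Wb S n) : (y.pull (sg0 n)).f01 = S.one _ := by
  unfold Wb.f01 Wb.pull
  have h : ∀ j (hj : (0 : Fin (n + 1)) = j), y.g 0 j (Fin.zero_le _) = S.one _ := by
    rintro j rfl; exact y.g_self _ _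
  have h2 := h (sg0 n 1) (Fin.ext rfl)
  change up1 n ⋙ (alo (sg0 n) 1 ⋙ y.g 0 (sg0 n 1) (Fin.zero_le _)) = _
  rw [h2]; rfl

/-- The homomorphism `K_n → F_p`, `[x] ↦ φ(g 0 1)`. -/
def ACoc.hom {S : SMon C} {p : ℕ} (Φ : ACoc S p) (n : ℕ) :
    KG S n →* Multiplicative (ZMod p) :=
  PresentedGroup.toGroup (f := fun x => Multiplicative.ofAdd (Φ.φ n x.f01)) (by
    rintro _ ⟨y, rfl⟩
    rw [FreeGroup.lift_apply_of, Wb.f01_sg0, Φ.one]; rfl)

/-- The same homomorphism, written additively. -/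
def ACoc.val {S : SMon C} {p : ℕ} (Φ : ACoc S p) (n : ℕ) (z : KG S n) : ZMod p :=
  Multiplicative.toAdd (Φ.hom n z)

theorem ACoc.val_gen {S : SMon C} {p : ℕ} (Φ : ACoc S p) {n : ℕ} (x : Wb S (n + 1)) :
    Φ.val n (gen x) = Φ.φ n x.f01 := by
  unfold ACoc.val ACoc.hom gen
  rw [PresentedGroup.toGroup.of]
  rfl

theorem ACoc.val_mul {S : SMon C} {p : ℕ} (Φ : ACoc S p) {n : ℕ} (x y : KG S n) :
    Φ.val n (x * y) = Φ.val n x + Φ.val n y := by
  unfold ACoc.val; rw [map_mul]; rfl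

theorem ACoc.val_inv {S : SMon C} {p : ℕ} (Φ : ACoc S p) {n : ℕ} (x : KG S n) :
    Φ.val n x⁻¹ = - Φ.val n x := by
  unfold ACoc.val; rw [map_inv]; rfl

theorem ACoc.val_one {S : SMon C} {p : ℕ} (Φ : ACoc S p) (n : ℕ) :
    Φ.val n (1 : KG S n) = 0 := by
  unfold ACoc.val; rw [map_one]; rfl

/-- The cochain on the loop group. -/
def ACoc.coch {S : SMon C} {p : ℕ} (Φ : ACoc S p) : CoCh p (KGps S) := fun n z => Φ.val n z

private theorem pk_fext {P Q : Type} [Preorder P] [PartialOrder Q] (F G : P ⥤ Q)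
    (h : ∀ l, F.obj l = G.obj l) : F = G :=
  CategoryTheory.Functor.ext (fun l => h l) (fun _ _ _ => Subsingleton.elim _ _)

private theorem pk_ind {S : SMon C} {n p : ℕ} (q : KG S n → ZMod p) (h1 : q 1 = 0)
    (hm : ∀ x y, q (x * y) = q x + q y) (hg : ∀ x, q (gen x) = 0) (z : KG S n) : q z = 0 := by
  let f : KG S n →* Multiplicative (ZMod p) :=
    { toFun := fun z => Multiplicative.ofAdd (q z)
      map_one' := by rw [h1]; rfl
      map_mul' := fun x y => by rw [hm]; rfl }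
  have hf : f = 1 := by
    apply PresentedGroup.ext
    intro x
    change Multiplicative.ofAdd (q (gen x)) = 1
    rw [hg]; rfl
  have h2 : f z = 1 := by rw [hf]; rfl
  have h3 : Multiplicative.ofAdd (q z) = Multiplicative.ofAdd 0 := h2
  exact Multiplicative.ofAdd.injective h3

private theorem pk_pull {S : SMon C} {m n : ℕ} (α : Fin (m + 1) →o Fin (n + 1))
    (x : Wb S (n + 1)) :
    (x.pull (lft0 α)).f01 = S.mul ((x.pull (lft1 α)).f01) (ofn α ⋙ x.f01) := by
  have h01 : (0 : Fin (n + 1 + 1)) ≤ 1 := Fin.zero_le _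
  have h1 : (1 : Fin (n + 1 + 1)) ≤ (α 0).succ := by
    rw [Fin.le_def]; simp
  have hA : (x.pull (lft0 α)).f01
      = (up1 m ⋙ alo (lft0 α) 1) ⋙ x.g 0 ((α 0).succ) (h01.trans h1) := rfl
  rw [hA, x.g_comp 0 1 ((α 0).succ) h01 h1]
  rfl

private theorem pk_val {S : SMon C} {p : ℕ} (Φ : ACoc S p) {m n : ℕ}
    (α : Fin (m + 1) →o Fin (n + 1)) (x : Wb S (n + 1)) :
    Φ.val m (KG.map α (gen x)) = Φ.φ m (ofn α ⋙ x.f01) := by
  rw [KG.map_gen, Φ.val_mul, Φ.val_inv, Φ.val_gen, Φ.val_gen, pk_pull, Φ.add]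
  ring

private theorem pk_eta {S : SMon C} {n : ℕ} (F : Fin (n + 1) ⥤ C) : (etaW S F).f01 = F := by
  have h : (etaW S F).g 0 1 (Fin.zero_le _) = shf n 1 ⋙ F := by
    change (if (0 : Fin (n + 1 + 1)) = 0 ∧ (1 : Fin (n + 1 + 1)) ≠ 0 then shf n 1 ⋙ F
      else S.one _) = _
    exact if_pos ⟨rfl, by simp⟩
  have h2 : up1 n ⋙ shf n 1 = 𝟭 _ := by
    apply pk_fext
    intro l
    rfl
  unfold Wb.f01
  rw [h, ← Functor.assoc, h2]
  rfl

/-- On the nerve it is the given cochain.  Proof: `val_gen` and `(etaW S F).f01 = F`: the entry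
`g 0 1` of `etaW S F` is `shf n 1 ⋙ F` (`if_pos`), and `up1 n ⋙ shf n 1` is the identity functor of
`[n]` on objects (`(l + 1) - 1 = l`); functors into a poset are equal if they are equal on
objects (`CategoryTheory.Functor.hext` with `Subsingleton.helim`), so
`up1 n ⋙ shf n 1 = 𝟭 _`. -/
theorem ACoc.val_eta {S : SMon C} {p : ℕ} (Φ : ACoc S p) {n : ℕ} (F : Fin (n + 1) ⥤ C) :
    Φ.val n (eta S F) = Φ.φ n F := by
  unfold eta
  rw [Φ.val_gen, pk_eta]

/-- The cochain is normalised.  Proof: `val_one` for the base point.  For degeneracies: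
`Φ.val (n+1) (KG.map (sig n i) z) = 0` for all `z`; both sides are homomorphisms in `z`, so by
`PresentedGroup.ext` (or `PresentedGroup.induction_on`) it suffices that
`Φ.φ (n+1) ((x.pull (lft0 (sig n i))).f01) = Φ.φ (n+1) ((x.pull (lft1 (sig n i))).f01)`
(`KG.map_gen`, `val_mul`, `val_inv`, `val_gen`).  Both sides vanish:
`(x.pull (lft0 (sig n i))).f01 = ofn (sig n i) ⋙ x.f01`, apply `Φ.nrm`;
`(x.pull (lft1 (sig n i))).f01` is the entry `g (lft1 _ 0) (lft1 _ 1)` with `lft1 _ 0 = 1` and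
`lft1 _ 1 = (sig n i 0) + 1 = 1`, so it is trivial by `g_self`, apply `Φ.one`. (As in `Wb.f01_sg0`:
generalise the indices and use equalities of indices.) -/
theorem ACoc.coch_nrm {S : SMon C} {p : ℕ} (Φ : ACoc S p) : Nrm Φ.coch := by
  refine ⟨fun n => Φ.val_one n, fun n i y => ?_⟩
  refine pk_ind (fun z => Φ.val (n + 1) (KG.map (sig n i) z)) ?_ ?_ ?_ y
  · change Φ.val (n + 1) (KG.map (sig n i) 1) = 0
    rw [map_one, Φ.val_one]
  · intro a b
    change Φ.val (n + 1) (KG.map (sig n i) (a * b)) = _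
    rw [map_mul, Φ.val_mul]
  · intro x
    change Φ.val (n + 1) (KG.map (sig n i) (gen x)) = 0
    rw [pk_val]
    exact Φ.nrm n i _

/-- The cochain is a cocycle.  Proof: again both sides are homomorphisms in `z`, so it suffices to
prove `∑ i ∈ range (n+2), (-1)^i * Φ.val n (KG.map (del n i) (gen x)) = 0` for
`x : Wb S (n + 2)`.  For `i ≥ 1`: `del n i 0 = 0`, so the second factor of `KG.map_gen` is trivial as
in `coch_nrm` and `Φ.val n (KG.map (del n i) (gen x)) = Φ.φ n (ofn (del n i) ⋙ x.f01)`.  For `i = 0`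
the value is `Φ.φ n A - Φ.φ n B` with `A` the entry `g 0 2` and `B` the entry `g 1 2` of `x` (both
restricted to `l ≥ 2`); `x.g_comp 0 1 2` gives `A = B * (ofn (del n 0) ⋙ x.f01)`, so by `Φ.add` the
value is `Φ.φ n (ofn (del n 0) ⋙ x.f01)`.  Now use `Φ.coc n x.f01`.
(`cob` in degree `0` is `0` by definition.) -/
theorem ACoc.coch_coc {S : SMon C} {p : ℕ} (Φ : ACoc S p) : IsCoc Φ.coch := by
  intro n
  rcases n with _ | n
  · intro x; rfl
  · intro z
    refine pk_ind (fun z => ∑ i ∈ Finset.range (n + 2),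
      (-1) ^ i * Φ.val n (KG.map (del n i) z)) ?_ ?_ ?_ z
    · apply Finset.sum_eq_zero
      intro i _
      rw [map_one, Φ.val_one, mul_zero]
    · intro a b
      rw [← Finset.sum_add_distrib]
      apply Finset.sum_congr rfl
      intro i _
      rw [map_mul, Φ.val_mul, mul_add]
    · intro x
      rw [← Φ.coc n x.f01]
      apply Finset.sum_congr rfl
      intro i _
      rw [pk_val]

end Pool.Agent.MP_d175a7_gt
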