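import Pool.Agent.Lib.MP_d175a7_gt.Alg
import Pool.Agent.Lib.MP_d175a7_gt.PhiK

/-!
# Representations over the dual numbers

A morphism `f` gives a linear map over `F_p[ε]` between free modules, `fbar + ε f¹`.
-/

set_option autoImplicit false
set_option linter.unusedVariables false

namespace Pool.Agent.MP_d175a7_gt

open CategoryTheory

variable {C : Type 1} [Category.{0} C]

/-- An additive functor to finite free modules over the dual numbers `k[ε]` and isomorphisms: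
a morphism `f` gives `bar f + ε one f` with `bar f` invertible. -/
structure DRep (S : SMon C) (k : Type) [CommRing k] : Type 1 where
  /-- the module -/
  U : C → Type
  [ac : ∀ X, AddCommGroup (U X)]
  [md : ∀ X, Module k (U X)]
  [fr : ∀ X, Module.Free k (U X)]
  [fin : ∀ X, Module.Finite k (U X)]
  /-- the part of degree `0` -/
  bar : ∀ {X Y : C}, (X ⟶ Y) → (U X ≃ₗ[k] U Y)
  /-- the part of degree `1` -/
  one : ∀ {X Y : C}, (X ⟶ Y) → (U X →ₗ[k] U Y)
  bar_id : ∀ X (v : U X), bar (𝟙 X) v = v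
  one_id : ∀ X (v : U X), one (𝟙 X) v = 0
  bar_comp : ∀ {X Y Z : C} (f : X ⟶ Y) (g : Y ⟶ Z) (v : U X), bar (f ≫ g) v = bar g (bar f v)
  one_comp : ∀ {X Y Z : C} (f : X ⟶ Y) (g : Y ⟶ Z) (v : U X),
    one (f ≫ g) v = bar g (one f v) + one g (bar f v)
  /-- additivity -/
  ten : ∀ X Y : C, U (S.T.obj (X, Y)) ≃ₗ[k] (U X × U Y)
  bar_ten : ∀ {X X' Y Y' : C} (f : X ⟶ X') (g : Y ⟶ Y') (v : U (S.T.obj (X, Y))),
    ten X' Y' (bar (S.T.map ((f, g) : (X, Y) ⟶ (X', Y'))) v) =
      (bar f (ten X Y v).1, bar g (ten X Y v).2)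
  one_ten : ∀ {X X' Y Y' : C} (f : X ⟶ X') (g : Y ⟶ Y') (v : U (S.T.obj (X, Y))),
    ten X' Y' (one (S.T.map ((f, g) : (X, Y) ⟶ (X', Y'))) v) =
      (one f (ten X Y v).1, one g (ten X Y v).2)

attribute [instance] DRep.ac DRep.md DRep.fr DRep.fin

variable {S : SMon C} {k : Type} [CommRing k]

/-- `θ_i = fbar⁻¹ f¹` for `f : F 0 → F i`. -/
def DRep.theta (D : DRep S k) {m : ℕ} (F : Fin (m + 1) ⥤ C) (i : Fin (m + 1)) :
    Module.End k (D.U (F.obj 0)) :=
  (D.bar (F.map (homOfLE (Fin.zero_le i)))).symm.toLinearMap ∘ₗ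
    D.one (F.map (homOfLE (Fin.zero_le i)))

/-- The trace of the product of the differences. -/
noncomputable def DRep.phi (D : DRep S k) (m : ℕ) (F : Fin (m + 1) ⥤ C) : k :=
  LinearMap.trace k (D.U (F.obj 0)) (Phi m (D.theta F))

end Pool.Agent.MP_d175a7_gt
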