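import Mathlib

/-! # Matrices over the dual numbers -/

set_option autoImplicit false
set_option linter.unusedVariables false

namespace Pool.Agent.MP_d175a7_gt

open scoped Matrix

variable {k : Type} [CommRing k] {ι κ μ : Type} [Fintype ι] [Fintype κ] [Fintype μ]
  [DecidableEq ι] [DecidableEq κ] [DecidableEq μ]

/-- The part of degree `0` of a matrix over the dual numbers. -/
def m0 (M : Matrix ι κ (DualNumber k)) : Matrix ι κ k := fun i j => (M i j).fst

/-- The part of degree `1` of a matrix over the dual numbers. -/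
def m1 (M : Matrix ι κ (DualNumber k)) : Matrix ι κ k := fun i j => (M i j).snd

theorem m0_one : m0 (1 : Matrix ι ι (DualNumber k)) = 1 := by
  ext i j
  simp only [m0, Matrix.one_apply]
  split_ifs <;> rfl

theorem m1_one : m1 (1 : Matrix ι ι (DualNumber k)) = 0 := by
  ext i j
  simp only [m1, Matrix.one_apply, Matrix.zero_apply]
  split_ifs <;> rfl

theorem m0_mul (M : Matrix ι κ (DualNumber k)) (N : Matrix κ μ (DualNumber k)) :
    m0 (M * N) = m0 M * m0 N := by
  ext i j
  simp only [m0, Matrix.mul_apply, TrivSqZeroExt.fst_sum, TrivSqZeroExt.fst_mul]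

theorem m1_mul (M : Matrix ι κ (DualNumber k)) (N : Matrix κ μ (DualNumber k)) :
    m1 (M * N) = m0 M * m1 N + m1 M * m0 N := by
  ext i j
  simp only [m0, m1, Matrix.mul_apply, Matrix.add_apply, TrivSqZeroExt.snd_sum,
    TrivSqZeroExt.snd_mul, Finset.sum_add_distrib, smul_eq_mul, op_smul_eq_mul]

/-- The `k`-linear isomorphism given by the transpose of the part of degree `0` of an invertible
matrix. -/
noncomputable def m0E (M : Matrix ι κ (DualNumber k))
    (h : ∃ N : Matrix κ ι (DualNumber k), M * N = 1 ∧ N * M = 1) : (ι → k) ≃ₗ[k] (κ → k) :=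
  LinearEquiv.ofLinear (Matrix.toLin' (m0 M)ᵀ) (Matrix.toLin' (m0 h.choose)ᵀ)
    (by
      rw [← Matrix.toLin'_mul, ← Matrix.transpose_mul, ← m0_mul, h.choose_spec.2, m0_one,
        Matrix.transpose_one, Matrix.toLin'_one])
    (by
      rw [← Matrix.toLin'_mul, ← Matrix.transpose_mul, ← m0_mul, h.choose_spec.1, m0_one,
        Matrix.transpose_one, Matrix.toLin'_one])

theorem m0E_apply (M : Matrix ι κ (DualNumber k))
    (h : ∃ N : Matrix κ ι (DualNumber k), M * N = 1 ∧ N * M = 1) (v : ι → k) :
    m0E M h v = (m0 M)ᵀ *ᵥ v := rfl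

end Pool.Agent.MP_d175a7_gt
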