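import Pool.Agent.Lib.MP_d175a7_gt.Cat

/-! # The left unit law -/

set_option autoImplicit false
set_option linter.unusedVariables false

namespace Pool.Agent.MP_d175a7_gt

open CategoryTheory

variable {R : RSp}

theorem tens_lu {J : Type} [Category.{0} J] (F : J ⥤ FC R) :
    (((Functor.const J).obj (FC.nil R)).prod' F) ⋙ tens R = F := by
  refine CategoryTheory.Functor.hext (fun X => rfl) (fun X Y f => heq_of_eq rfl)

end Pool.Agent.MP_d175a7_gt
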