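import Pool.Agent.Lib.MP_d175a7_gt.Cat

/-! # The right unit law -/

set_option autoImplicit false
set_option linter.unusedVariables false

namespace Pool.Agent.MP_d175a7_gt

open CategoryTheory

variable {R : RSp}

/-- the homomorphism of an equality of lists -/
private noncomputable def ru_eq {L L' : FC R} (h : L = L') : MHom (PiL L) (PiL L') :=
  (eqToHom h : L ⟶ L').1

private theorem ru_refl (L : FC R) (h : L = L) : ru_eq h = MHom.id (PiL L) := rfl

private theorem ru_cons (a : FreeObj R) {L L' : List (FreeObj R)} (h : L = L')
    (h' : (List.cons a L : List (FreeObj R)) = List.cons a L') :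
    ru_eq (R := R) (L := List.cons a L) (L' := List.cons a L') h' =
      MHom.pair (MHom.fst a.P (PiL L))
        ((MHom.snd a.P (PiL L)).comp (ru_eq (R := R) (L := L) (L' := L') h)) := by
  subst h
  exact MHom.ext fun n x => rfl

private theorem ru_sp (L : List (FreeObj R)) (h : L ++ [] = L) :
    ru_eq (R := R) (L := L ++ []) (L' := L) h = sp1 L [] := by
  induction L with
  | nil => exact MHom.ext fun n x => rfl
  | cons a L ih =>
    have h1 := ru_cons (R := R) a (List.append_nil L) h
    refine h1.trans ?_
    rw [ih (List.append_nil L)]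
    rfl

private theorem ru_inv {L L' : FC R} (h : L = L') (n : ℕ) (x : (PiL L').X n) :
    (ru_eq h).f n ((ru_eq h.symm).f n x) = x := by
  subst h
  rfl

private theorem ru_jn (L : List (FreeObj R)) (h : L ++ [] = L) (n : ℕ) (x : (PiL L).X n) :
    (ru_eq (R := R) (L := L) (L' := L ++ []) h.symm).f n x = (jn L []).f n (x, ()) := by
  have h1 := ru_inv (R := R) (L := L ++ []) (L' := L) h n x
  rw [ru_sp L h] at h1
  have h2 := jn_sp L [] n ((ru_eq (R := R) (L := L) (L' := L ++ []) h.symm).f n x)
  rw [h1] at h2
  exact h2.symm

/-- The right unit law.  Proof: `CategoryTheory.Functor.ext (fun X => List.append_nil (F.obj X))`;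
for the maps: show first that for every list `L` and every `h : L ++ [] = L` the homomorphism
underlying `eqToHom h : (L ++ [] : FC R) ⟶ L` is `sp1 L []` (a general lemma: for `h : L = L'`,
`(eqToHom h).1 = h ▸ MHom.id _`; then induction on `L`: for `a :: L` the proof `h` is
`congrArg (a :: ·) h'`, and a homomorphism transported along it is the product of the identity
with the transport along `h'`), and that its inverse is `x ↦ jn L [] (x, ())`; then use
`tmap f (id)`, `sp1_jn`, `jn_sp`. -/
theorem tens_ru {J : Type} [Category.{0} J] (F : J ⥤ FC R) :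
    (F.prod' ((Functor.const J).obj (FC.nil R))) ⋙ tens R = F := by
  refine CategoryTheory.Functor.ext (fun X => List.append_nil (F.obj X)) ?_
  intro X Y f
  refine Subtype.ext (MHom.ext fun n x => ?_)
  have h1 := ru_sp (R := R) (F.obj X) (List.append_nil (F.obj X))
  have h2 := ru_jn (R := R) (F.obj Y) (List.append_nil (F.obj Y)) n
    ((F.map f).1.f n ((sp1 (F.obj X) []).f n x))
  refine Eq.trans ?_ h2.symm |>.trans ?_
  · rfl
  · rw [← h1]
    rfl

end Pool.Agent.MP_d175a7_gt
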