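import Pool.Agent.Lib.MP_d175a7_gt.Bar
import Pool.Agent.Lib.MP_d175a7_gt.Lu
import Pool.Agent.Lib.MP_d175a7_gt.Ru
import Pool.Agent.Lib.MP_d175a7_gt.Asc

/-!
# The algebraic K-theory of a commutative orthogonal ring spectrum

`FCm R` is the strict monoidal category of free modules of finite rank and weak equivalences
(objects: lists of free objects, morphisms: weak equivalences of the product modules, product:
concatenation).  Its nerve is a simplicial monoid of the homotopy type of the disjoint union of
the classifying spaces `B Gl_r(R)`, `r ≥ 0`, `Gl_r(R)` = homotopy automorphisms of `R^r`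
(Dwyer-Kan).  `Kth R` is the Kan loop group of its classifying space, i.e. the group completion
`Ω B (⊔ B Gl_r(R))`; in positive degrees its homotopy groups are the algebraic K-groups of `R`.
-/

set_option autoImplicit false

namespace Pool.Agent.MP_d175a7_gt

open CategoryTheory

section Laws

variable (R : RSp) {J : Type} [Category.{0} J] (F G H : J ⥤ FC R)

/-- The product of functors. -/
noncomputable abbrev FCmul : J ⥤ FC R := (F.prod' G) ⋙ tens R

/-- The unit functor. -/
noncomputable abbrev FCone : J ⥤ FC R := (Functor.const J).obj (FC.nil R)

theorem FC_lu : FCmul R (FCone R) F = F := tens_lu F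

theorem FC_ru : FCmul R F (FCone R) = F := tens_ru F

theorem FC_as : FCmul R (FCmul R F G) H = FCmul R F (FCmul R G H) := tens_as F G H

end Laws

/-- The strict monoidal category of free modules and weak equivalences. -/
noncomputable def FCm (R : RSp) : SMon (FC R) where
  T := tens R
  u := FC.nil R
  lu := FC_lu R
  ru := FC_ru R
  as := FC_as R

/-- The algebraic K-theory space of a commutative orthogonal ring spectrum `R` (the infinite loop
space of the K-theory spectrum, up to `π_0`), as a simplicial group. -/
noncomputable def Kth (R : RSp) : PS.{1} := KGps (FCm R)

end Pool.Agent.MP_d175a7_gt
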