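import Pool.Agent.Lib.MP_d175a7_gt.VdMat
import Pool.Agent.Lib.MP_d175a7_gt.DnM
import Pool.Agent.Lib.MP_d175a7_gt.KTh
import Pool.Agent.Lib.MP_d175a7_gt.DRepA

/-! # The representation over the dual numbers given by a detection datum -/

set_option autoImplicit false
set_option linter.unusedVariables false

namespace Pool.Agent.MP_d175a7_gt

open CategoryTheory
open scoped Topology unitInterval Matrix

variable {R : RSp} {k : Type} [CommRing k]

/-- Coordinates of a concatenation. -/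
noncomputable def tenE (k : Type) [CommRing k] (L M : List (FreeObj R)) :
    (JL (L ++ M) → k) ≃ₗ[k] ((JL L → k) × (JL M → k)) :=
  (LinearEquiv.funCongrLeft k k (jlE L M).symm).trans
    (LinearEquiv.sumArrowLequivProdArrow (JL L) (JL M) k k)

/-- The action of a block diagonal matrix.  Proof: evaluate both components at an index `j`; the
sum over `JL (L ++ M)` is transported by `jlE L M` to a sum over `JL L ⊕ JL M`
(`Equiv.sum_comp`, `Fintype.sum_sum_type`). -/
theorem tenE_mulVec {L L' M M' : List (FreeObj R)}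
    (A : Matrix (JL (L ++ M)) (JL (L' ++ M')) k) (B : Matrix (JL L) (JL L') k)
    (C : Matrix (JL M) (JL M') k)
    (h : ∀ i j, A ((jlE L M).symm i) ((jlE L' M').symm j) = Matrix.fromBlocks B 0 0 C i j)
    (v : JL (L ++ M) → k) :
    tenE k L' M' (Aᵀ *ᵥ v) = (Bᵀ *ᵥ (tenE k L M v).1, Cᵀ *ᵥ (tenE k L M v).2) := by
  have key : ∀ s : JL L' ⊕ JL M', (Aᵀ *ᵥ v) ((jlE L' M').symm s) =
      ∑ i : JL L, Matrix.fromBlocks B 0 0 C (Sum.inl i) s * v ((jlE L M).symm (Sum.inl i)) +
      ∑ i : JL M, Matrix.fromBlocks B 0 0 C (Sum.inr i) s * v ((jlE L M).symm (Sum.inr i)) := by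
    intro s
    have h1 : (Aᵀ *ᵥ v) ((jlE L' M').symm s) =
        ∑ i : JL (L ++ M), A i ((jlE L' M').symm s) * v i := rfl
    rw [h1, ← Equiv.sum_comp (jlE L M).symm, Fintype.sum_sum_type]
    congr 1
    · exact Finset.sum_congr rfl fun i _ => by rw [h]
    · exact Finset.sum_congr rfl fun i _ => by rw [h]
  refine Prod.ext ?_ ?_
  · funext j
    have h1 : (tenE k L' M' (Aᵀ *ᵥ v)).1 j = (Aᵀ *ᵥ v) ((jlE L' M').symm (Sum.inl j)) := rfl
    rw [h1, key]
    have h2 : ∑ i : JL M, Matrix.fromBlocks B 0 0 C (Sum.inr i) (Sum.inl j) *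
        v ((jlE L M).symm (Sum.inr i)) = 0 :=
      Finset.sum_eq_zero fun i _ => by
        rw [Matrix.fromBlocks_apply₂₁, Matrix.zero_apply, zero_mul]
    rw [h2, add_zero]
    rfl
  · funext j
    have h1 : (tenE k L' M' (Aᵀ *ᵥ v)).2 j = (Aᵀ *ᵥ v) ((jlE L' M').symm (Sum.inr j)) := rfl
    rw [h1, key]
    have h2 : ∑ i : JL L, Matrix.fromBlocks B 0 0 C (Sum.inl i) (Sum.inr j) *
        v ((jlE L M).symm (Sum.inl i)) = 0 :=
      Finset.sum_eq_zero fun i _ => by
        rw [Matrix.fromBlocks_apply₁₂, Matrix.zero_apply, zero_mul]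
    rw [h2, zero_add]
    rfl

/-- The representation over the dual numbers given by a detection datum. -/
noncomputable def detRep (D : Det R k) : DRep (FCm R) k where
  U L := JL L → k
  bar f := m0E (mat D f.1) (mat_inv D f.1 f.2)
  one f := Matrix.toLin' (m1 (mat D f.1))ᵀ
  bar_id L v := by
    change (m0 (mat D (MHom.id (PiL L))))ᵀ *ᵥ v = v
    rw [mat_id, m0_one, Matrix.transpose_one, Matrix.one_mulVec]
  one_id L v := by
    change (m1 (mat D (MHom.id (PiL L))))ᵀ *ᵥ v = 0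
    rw [mat_id, m1_one, Matrix.transpose_zero, Matrix.zero_mulVec]
  bar_comp f g v := by
    change (m0 (mat D (f.1.comp g.1)))ᵀ *ᵥ v = (m0 (mat D g.1))ᵀ *ᵥ ((m0 (mat D f.1))ᵀ *ᵥ v)
    rw [mat_comp, m0_mul, Matrix.transpose_mul, Matrix.mulVec_mulVec]
  one_comp f g v := by
    change (m1 (mat D (f.1.comp g.1)))ᵀ *ᵥ v = (m0 (mat D g.1))ᵀ *ᵥ ((m1 (mat D f.1))ᵀ *ᵥ v) +
      (m1 (mat D g.1))ᵀ *ᵥ ((m0 (mat D f.1))ᵀ *ᵥ v)
    rw [mat_comp, m1_mul, Matrix.transpose_add, Matrix.transpose_mul, Matrix.transpose_mul,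
      Matrix.mulVec_mulVec, Matrix.mulVec_mulVec, Matrix.add_mulVec, add_comm]
  ten L M := tenE k L M
  bar_ten {X X' Y Y'} f g v := by
    exact tenE_mulVec (m0 (mat D (tmap f.1 g.1))) (m0 (mat D f.1)) (m0 (mat D g.1))
      (fun i j => by
        change (mat D (tmap f.1 g.1) _ _).fst = _
        rw [mat_tmap]
        rcases i with i | i <;> rcases j with j | j <;> rfl) v
  one_ten {X X' Y Y'} f g v := by
    exact tenE_mulVec (m1 (mat D (tmap f.1 g.1))) (m1 (mat D f.1)) (m1 (mat D g.1))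
      (fun i j => by
        change (mat D (tmap f.1 g.1) _ _).snd = _
        rw [mat_tmap]
        rcases i with i | i <;> rcases j with j | j <;> rfl) v

end Pool.Agent.MP_d175a7_gt
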