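import Pool.Agent.Lib.MP_d175a7_gt.CyP
import Pool.Agent.Lib.MP_d175a7_gt.DetRep
import Pool.Agent.Lib.MP_d175a7_gt.CubPhi

/-! # The cube of a cyclic family and its coordinates -/

set_option autoImplicit false
set_option linter.unusedVariables false

namespace Pool.Agent.MP_d175a7_gt

open CategoryTheory
open scoped Topology unitInterval Matrix

variable {R : RSp} {k : Type} [CommRing k] {m r : ℕ} {D : Det R k} {c : Fin m → Fin r → k}

/-- The set of the used operations. -/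
def usd (s s' ω : Fin m → Bool) (i : Fin m) : Bool := (s i != s' i) && ω i

theorem not_tf : ¬ ((true : Bool) ≤ false) := by decide

theorem usd_ok {s s' : Fin m → Bool} (h : s ≤ s') (ω : Fin m → Bool) :
    MOk s s' (usd s s' ω) where
  le i hi := by
    have h1 := h i
    rw [hi] at h1
    cases h2 : s i with
    | false => rfl
    | true => rw [h2] at h1; exact absurd h1 not_tf
  us i hi := by
    have h1 := h i
    unfold usd at hi
    cases h2 : s i <;> cases h3 : s' i <;> rw [h2, h3] at h1 hi <;>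
      first | exact absurd h1 not_tf | simp_all

/-- The cube. -/
noncomputable def CycDat.cube (Y : CycDat D m r c) (hm : 2 ≤ m) : Cube (FC R) m where
  obj s := ([Y.qo hm s] : List (FreeObj R))
  map ω {s s'} h := ⟨sgl (a := Y.qo hm s) (b := Y.qo hm s') (Y.cyc.mo hm (usd_ok h ω)),
    sgl_isWeq (a := Y.qo hm s) (b := Y.qo hm s') (Y.cyc.mo_isWeq hm (usd_ok h ω))⟩
  map_id ω s := by
    apply Subtype.ext
    change sgl (a := Y.qo hm s) (b := Y.qo hm s) (Y.cyc.mo hm (usd_ok (le_refl s) ω)) =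
      MHom.id (PiL [Y.qo hm s])
    rw [Y.cyc.mo_id hm (usd_ok (le_refl s) ω)]
    rfl
  map_comp ω {s s' s''} h h' := by
    apply Subtype.ext
    change sgl (a := Y.qo hm s) (b := Y.qo hm s'') (Y.cyc.mo hm (usd_ok (h.trans h') ω)) =
      (sgl (a := Y.qo hm s) (b := Y.qo hm s') (Y.cyc.mo hm (usd_ok h ω))).comp
        (sgl (a := Y.qo hm s') (b := Y.qo hm s'') (Y.cyc.mo hm (usd_ok h' ω)))
    rw [← Y.cyc.mo_comp hm (usd_ok h ω) (usd_ok h' ω) (usd_ok (h.trans h') ω) (fun i => by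
      have h1 := h i
      have h2 := h' i
      unfold usd
      cases h3 : s i <;> cases h4 : s' i <;> cases h5 : s'' i <;> cases h6 : ω i <;>
        rw [h3, h4] at h1 <;> rw [h4, h5] at h2 <;>
        first | exact absurd h1 not_tf | exact absurd h2 not_tf | simp_all)]
    rfl
  indep ω ω' {s s'} h hi := by
    apply Subtype.ext
    have hu : usd s s' ω = usd s s' ω' := by
      funext i
      unfold usd
      by_cases h1 : s i = s' i
      · rw [h1]; simp
      · rw [hi i h1]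
    change sgl (a := Y.qo hm s) (b := Y.qo hm s') (Y.cyc.mo hm (usd_ok h ω)) =
      sgl (a := Y.qo hm s) (b := Y.qo hm s') (Y.cyc.mo hm (usd_ok h ω'))
    congr 1
    refine MHom.ext fun n z => Subtype.ext (funext fun a => ?_)
    rw [CycM.mo_apply, CycM.mo_apply, hu]

/-- The matrix equation behind the coordinates.  Proof: `M P = P B` gives `m0 M * m0 P = m0 P * m0 B
= m0 P`, so `m0 M = 1` (`P` is invertible), and the parts of degree `1`
(`m1_mul`) give `m0 M * m1 P + m1 M * m0 P = m0 P * m1 B + m1 P * m0 B`. -/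
theorem m1_conj {ι κ : Type} [Fintype ι] [Fintype κ] [DecidableEq ι] [DecidableEq κ]
    (M : Matrix ι ι (DualNumber k)) (P : Matrix ι κ (DualNumber k))
    (B : Matrix κ κ (DualNumber k)) (hP : ∃ N : Matrix κ ι (DualNumber k), P * N = 1 ∧ N * P = 1)
    (hB : m0 B = 1) (h : M * P = P * B) : m1 M * m0 P = m0 P * m1 B := by
  obtain ⟨N, hN, hN'⟩ := hP
  have h1 : m0 M = 1 := by
    have h2 : M = P * B * N := by
      rw [← h, Matrix.mul_assoc, hN, Matrix.mul_one]
    rw [h2, m0_mul, m0_mul, hB, Matrix.mul_one, ← m0_mul, hN, m0_one]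
  have h2 := congrArg m1 h
  rw [m1_mul, m1_mul, h1, hB, Matrix.one_mul, Matrix.mul_one, add_comm] at h2
  exact add_right_cancel h2

/-- The coordinates of the cube.  (Proof of `one`: `co s' (one v) = (m1 M * m0 P)ᵀ v =
(m1 B)ᵀ (m0 P)ᵀ v` with `P = pm s' = pm s` (`pm_eq`), `M` the matrix of the operation
(`mat_pm`), `m1_conj`; the entry `(nxt i, j)` of `(m1 B)ᵀ w` is `∑ x, m1 B x (nxt i, j) * w x`, and
`bm_m1` with `prv (nxt i) = i`.) -/
theorem CycDat.co_one (Y : CycDat D m r c) (hm : 2 ≤ m) (ω : Fin m → Bool)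
    {s s' : Fin m → Bool} (h : s ≤ s') (v : (detRep D).U ((Y.cube hm).obj s)) (i : Fin m)
    (j : Fin r) :
    m0E (Y.pm hm s') (Y.pm_inv hm s') ((detRep D).one ((Y.cube hm).map ω h) v) (nxt i, j) =
      open scoped Classical in
      if s i ≠ s' i ∧ ω i = true then c i j * m0E (Y.pm hm s) (Y.pm_inv hm s) v (i, j)
        else 0 := by
  classical
  have h1 := m1_conj (ι := Fin (m * r) ⊕ Empty)
    (mat D (L := [Y.qo hm s]) (M := [Y.qo hm s'])
      (sgl (a := Y.qo hm s) (b := Y.qo hm s') (Y.cyc.mo hm (usd_ok h ω))))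
    (Y.pm hm s') (bm c (usd s s' ω)) (Y.pm_inv hm s') (bm_m0 c _) (by
      rw [← Y.pm_eq hm s s']
      have h2 := Y.mat_pm hm (usd_ok h ω)
      rw [← Y.pm_eq hm s s'] at h2
      exact h2)
  have h3 : m0E (Y.pm hm s') (Y.pm_inv hm s') ((detRep D).one ((Y.cube hm).map ω h) v) =
      (m1 (bm c (usd s s' ω)))ᵀ *ᵥ (m0E (Y.pm hm s) (Y.pm_inv hm s) v) := by
    change (m0 (Y.pm hm s'))ᵀ *ᵥ ((m1 (mat D (L := [Y.qo hm s]) (M := [Y.qo hm s'])
      (sgl (a := Y.qo hm s) (b := Y.qo hm s') (Y.cyc.mo hm (usd_ok h ω)))))ᵀ *ᵥ v) =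
      (m1 (bm c (usd s s' ω)))ᵀ *ᵥ ((m0 (Y.pm hm s))ᵀ *ᵥ v)
    rw [Matrix.mulVec_mulVec, ← Matrix.transpose_mul]
    refine (congrArg (fun A : Matrix (Fin (m * r) ⊕ Empty) (Fin m × Fin r) k => Aᵀ *ᵥ v)
      h1).trans ?_
    change (m0 (Y.pm hm s') * m1 (bm c (usd s s' ω)))ᵀ *ᵥ v = _
    rw [Matrix.transpose_mul, ← Matrix.mulVec_mulVec]
    exact congrArg (fun A : Matrix (Fin (m * r) ⊕ Empty) (Fin m × Fin r) (DualNumber k) =>
      (m1 (bm c (usd s s' ω)))ᵀ *ᵥ ((m0 A)ᵀ *ᵥ v)) (Y.pm_eq hm s s').symm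
  rw [h3]
  generalize m0E (Y.pm hm s) (Y.pm_inv hm s) v = w
  change ∑ x, m1 (bm c (usd s s' ω)) x (nxt i, j) * w x = _
  have h4 : prv (nxt i) = i := (finRotate m).symm_apply_apply i
  have h5 : usd s s' ω i = true ↔ (s i ≠ s' i ∧ ω i = true) := by
    unfold usd
    rw [Bool.and_eq_true, bne_iff_ne]
  rw [Finset.sum_eq_single (i, j)]
  · rw [bm_m1]
    by_cases h6 : s i ≠ s' i ∧ ω i = true
    · rw [if_pos ⟨h4.symm, rfl, h5.2 h6⟩]
      exact (if_pos h6).symm
    · rw [if_neg fun h7 => h6 (h5.1 h7.2.2), zero_mul]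
      exact (if_neg h6).symm
  · intro x _ hx
    rw [bm_m1, if_neg, zero_mul]
    rintro ⟨h6, h7, -⟩
    exact hx (Prod.ext (h6.trans h4) h7)
  · intro h6
    exact absurd (Finset.mem_univ _) h6

/-- The coordinates of the cube. -/
noncomputable def CycDat.cubCo (Y : CycDat D m r c) (hm : 2 ≤ m) :
    CubCo (detRep D) (Y.cube hm) (Fin r) c where
  co s := m0E (Y.pm hm s) (Y.pm_inv hm s)
  bar ω {s s'} h v := by
    change (m0 (Y.pm hm s'))ᵀ *ᵥ ((m0 (mat D (L := [Y.qo hm s]) (M := [Y.qo hm s'])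
      (sgl (a := Y.qo hm s) (b := Y.qo hm s') (Y.cyc.mo hm (usd_ok h ω)))))ᵀ *ᵥ v) =
      (m0 (Y.pm hm s))ᵀ *ᵥ v
    rw [Matrix.mulVec_mulVec, ← Matrix.transpose_mul, ← m0_mul, Y.mat_pm hm, m0_mul, bm_m0,
      Matrix.mul_one]
  one ω {s s'} h v i j := Y.co_one hm ω h v i j

end Pool.Agent.MP_d175a7_gt
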