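import Pool.Agent.Lib.MP_d175a7_gt.Shift

/-! # The sum over all orders of the cyclic shifts -/

set_option autoImplicit false
set_option linter.unusedVariables false

namespace Pool.Agent.MP_d175a7_gt

private theorem cycA_deg {E : Type} [Ring E] : ∀ (m : ℕ) (θ : Fin (m + 1) → E) (a : Fin m),
    θ a.castSucc = θ a.succ → Phi m θ = 0
  | 0, _, a, _ => a.elim0
  | m + 1, θ, a, h => by
    change Phi m (fun i => θ i.succ) * (θ 1 - θ 0) = 0
    rcases Fin.eq_zero_or_eq_succ a with rfl | ⟨a', rfl⟩
    · have h1 : θ 0 = θ 1 := h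
      rw [h1, sub_self, mul_zero]
    · rw [cycA_deg m (fun i => θ i.succ) a' h, zero_mul]

private theorem cycA_apply {k : Type} [CommRing k] {m : ℕ} {J : Type} (c : Fin m → J → k)
    (u : Fin m → Bool) (v : Fin m × J → k) (a : Fin m × J) :
    shE c u v a = if u ((finRotate m).symm a.1)
      then c ((finRotate m).symm a.1) a.2 * v ((finRotate m).symm a.1, a.2) else 0 := rfl

private theorem cycA_diff {k : Type} [CommRing k] {m : ℕ} {J : Type} (c : Fin m → J → k)
    (π : Equiv.Perm (Fin m)) (l : Fin m) :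
    shE c (fun a => decide ((π a).1 < l.succ.1)) - shE c (fun a => decide ((π a).1 < l.castSucc.1)) =
      shE c (fun a => decide (a = π.symm l)) := by
  refine LinearMap.ext fun v => funext fun a => ?_
  rw [LinearMap.sub_apply, Pi.sub_apply, cycA_apply, cycA_apply, cycA_apply]
  generalize (finRotate m).symm a.1 = b
  have e1 : l.succ.1 = l.1 + 1 := rfl
  have e2 : l.castSucc.1 = l.1 := rfl
  rw [e1, e2]
  simp only [decide_eq_true_eq]
  by_cases hb : b = π.symm l
  · have h1 : (π b).1 = l.1 := by rw [hb, Equiv.apply_symm_apply]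
    rw [if_pos (by omega), if_neg (by omega), if_pos hb, sub_zero]
  · have h1 : (π b).1 ≠ l.1 := by
      intro h1
      exact hb ((Equiv.eq_symm_apply π).2 (Fin.ext h1))
    rw [if_neg hb]
    by_cases h2 : (π b).1 < l.1
    · rw [if_pos (by omega), if_pos h2, sub_self]
    · rw [if_neg (by omega), if_neg h2, sub_self]

open Classical in
private theorem cycA_seq {k : Type} [CommRing k] {m : ℕ} {J : Type} (c : Fin m → J → k) (r : ℕ) :
    ∀ (s : Fin (r + 1) → Fin m) (θ : Fin (r + 1 + 1) → Module.End k (Fin m × J → k)),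
    (∀ l : Fin (r + 1), θ l.succ - θ l.castSucc = shE c (fun a => decide (a = s l))) →
    ∀ (v : Fin m × J → k) (a : Fin m × J), Phi (r + 1) θ v a =
      if (∀ l : Fin r, s l.succ = finRotate m (s l.castSucc)) ∧
        a.1 = finRotate m (s (Fin.last r)) then (∏ l, c (s l) a.2) * v (s 0, a.2) else 0 := by
  induction r with
  | zero =>
    intro s θ hθ v a
    change ((1 : Module.End k (Fin m × J → k)) * (θ 1 - θ 0)) v a = _
    have h1 : θ 1 - θ 0 = shE c (fun a => decide (a = s 0)) := hθ 0
    rw [h1, one_mul, cycA_apply]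
    simp only [decide_eq_true_eq]
    by_cases hb : (finRotate m).symm a.1 = s 0
    · rw [if_pos hb, hb, if_pos]
      · rw [Fin.prod_univ_one]
      · refine ⟨fun l => l.elim0, ?_⟩
        have h2 := congrArg (finRotate m) hb
        rw [Equiv.apply_symm_apply] at h2
        exact h2
    · rw [if_neg hb, if_neg]
      rintro ⟨-, h2⟩
      apply hb
      rw [h2, Equiv.symm_apply_apply]
      rfl
  | succ r ih =>
    intro s θ hθ v a
    change (Phi (r + 1) (fun i => θ i.succ) * (θ 1 - θ 0)) v a = _
    have h1 : θ 1 - θ 0 = shE c (fun a => decide (a = s 0)) := hθ 0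
    rw [h1, Module.End.mul_apply, ih (fun l => s l.succ) (fun i => θ i.succ) (fun l => hθ l.succ),
      cycA_apply]
    simp only [decide_eq_true_eq]
    by_cases hc : (∀ l : Fin (r + 1), s l.succ = finRotate m (s l.castSucc)) ∧
        a.1 = finRotate m (s (Fin.last (r + 1)))
    · have h2 : (finRotate m).symm (s (Fin.succ 0)) = s 0 := by
        rw [hc.1 0, Equiv.symm_apply_apply]
        rfl
      rw [if_pos hc, if_pos ⟨fun l => hc.1 l.succ, hc.2⟩, if_pos h2, h2,
        Fin.prod_univ_succ (fun l => c (s l) a.2)]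
      ring
    · rw [if_neg hc]
      split_ifs with h3 h4
      · exfalso
        apply hc
        refine ⟨fun l => ?_, h3.2⟩
        rcases Fin.eq_zero_or_eq_succ l with rfl | ⟨l, rfl⟩
        · have h5 := congrArg (finRotate m) h4
          rw [Equiv.apply_symm_apply] at h5
          exact h5
        · exact h3.1 l
      · rw [mul_zero]
      · rfl

private theorem cycA_sign {t : ℕ} (j : Fin (2 * t + 1)) :
    Equiv.Perm.sign (Equiv.addLeft j) = 1 := by
  have h1 : ∀ (q : ℕ) (l : Fin (2 * t + 1)), ((Equiv.addLeft j) ^ q) l = q • j + l := by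
    intro q
    induction q with
    | zero => intro l; simp
    | succ q ih =>
      intro l
      rw [pow_succ', Equiv.Perm.mul_apply, ih, succ_nsmul]
      change j + (q • j + l) = _
      abel
  have h2 : (Equiv.addLeft j) ^ (2 * t + 1) = (1 : Equiv.Perm (Fin (2 * t + 1))) := by
    ext1 l
    rw [h1]
    have h3 : (2 * t + 1) • j = 0 := by
      have h4 := card_nsmul_eq_zero (x := j)
      rwa [Fintype.card_fin] at h4
    rw [h3, zero_add]
    rfl
  have h3 := congrArg Equiv.Perm.sign h2
  rw [map_pow, map_one] at h3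
  rcases Int.units_eq_one_or (Equiv.Perm.sign (Equiv.addLeft j)) with h4 | h4
  · exact h4
  · rw [h4, Odd.neg_one_pow ⟨t, rfl⟩] at h3
    exact absurd h3 (by decide)

private theorem cycA_comm {n : ℕ} (π : Equiv.Perm (Fin (n + 1)))
    (h : ∀ l : Fin n, π.symm l.succ = finRotate (n + 1) (π.symm l.castSucc)) :
    π = Equiv.addLeft (-(π.symm 0)) := by
  have h1 : ∀ l : Fin (n + 1), π.symm l = π.symm 0 + l := by
    intro l
    refine Fin.induction (motive := fun l => π.symm l = π.symm 0 + l) (by rw [add_zero]) ?_ l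
    intro l hl
    rw [h l, hl, finRotate_apply, add_assoc, Fin.coeSucc_eq_succ]
  ext1 l
  obtain ⟨l', rfl⟩ := π.symm.surjective l
  rw [Equiv.apply_symm_apply]
  change l' = -(π.symm 0) + π.symm l'
  rw [h1 l', neg_add_cancel_left]

open Classical in
private theorem cycA_trace {k : Type} [CommRing k] {n : ℕ} {J : Type} [Fintype J]
    (c : Fin (n + 1) → J → k) (π : Equiv.Perm (Fin (n + 1))) :
    LinearMap.trace k (Fin (n + 1) × J → k)
        (Phi (n + 1) (fun l : Fin (n + 1 + 1) => shE c (fun a => decide ((π a).1 < l.1)))) =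
      if π ∈ (Finset.univ : Finset (Fin (n + 1))).image
        (fun j => (Equiv.addLeft j : Equiv.Perm (Fin (n + 1)))) then
        ∑ j, ∏ i, c i j else 0 := by
  have hseq := cycA_seq c n (fun l => π.symm l)
    (fun l : Fin (n + 1 + 1) => shE c (fun a => decide ((π a).1 < l.1)))
    (fun l => cycA_diff c π l)
  rw [LinearMap.trace_eq_matrix_trace k (Pi.basisFun k (Fin (n + 1) × J)),
    LinearMap.toMatrix_eq_toMatrix', Matrix.trace]
  simp only [Matrix.diag_apply, LinearMap.toMatrix'_apply]
  simp only [hseq, Pi.single_apply]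
  by_cases hπ : π ∈ (Finset.univ : Finset (Fin (n + 1))).image
        (fun j => (Equiv.addLeft j : Equiv.Perm (Fin (n + 1))))
  · rw [if_pos hπ]
    obtain ⟨j₀, -, rfl⟩ := Finset.mem_image.1 hπ
    have hs : ∀ l, (Equiv.addLeft j₀ : Equiv.Perm (Fin (n + 1))).symm l = -j₀ + l := fun l => rfl
    simp only [hs]
    have hc : ∀ l : Fin n, -j₀ + l.succ = finRotate (n + 1) (-j₀ + l.castSucc) := by
      intro l
      rw [finRotate_apply, add_assoc, Fin.coeSucc_eq_succ]
    have hl : finRotate (n + 1) (-j₀ + Fin.last n) = -j₀ := by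
      rw [finRotate_apply, add_assoc, Fin.last_add_one, add_zero]
    rw [hl, Fintype.sum_prod_type, Finset.sum_eq_single (-j₀)]
    · refine Finset.sum_congr rfl fun j _ => ?_
      rw [if_pos ⟨hc, rfl⟩, if_pos, mul_one]
      · exact Equiv.prod_comp (Equiv.addLeft (-j₀)) (fun i => c i j)
      · rw [add_zero]
    · intro i _ hi
      refine Finset.sum_eq_zero fun j _ => ?_
      rw [if_neg (fun h => hi h.2)]
    · intro h
      exact absurd (Finset.mem_univ _) h
  · rw [if_neg hπ]
    refine Finset.sum_eq_zero fun a _ => ?_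
    rw [if_neg]
    rintro ⟨h1, -⟩
    apply hπ
    rw [cycA_comm π h1]
    exact Finset.mem_image.2 ⟨_, Finset.mem_univ _, rfl⟩

/-- If one of the shifts is switched off the product vanishes.  Proof: for `l = π i` the families
`u_l` and `u_(l+1)` agree (they differ only at the index `i`, where both are `false`), so two
consecutive entries agree; as in `Phi_nrm` (induction, or `θ = θ' ∘ sig`) the product is `0`. -/
theorem cyc_off {k : Type} [CommRing k] {m : ℕ} {J : Type} (c : Fin m → J → k)
    (π : Equiv.Perm (Fin m)) (ω : Fin m → Bool) (i : Fin m) (h : ω i = false) :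
    Phi m (fun l : Fin (m + 1) => shE c (fun a => decide ((π a).1 < l.1) && ω a)) = 0 := by
  refine cycA_deg m _ (π i) ?_
  congr 1
  funext a
  have e1 : (π i).succ.1 = (π i).1 + 1 := rfl
  have e2 : (π i).castSucc.1 = (π i).1 := rfl
  rw [e1, e2]
  by_cases ha : a = i
  · rw [ha, h, Bool.and_false, Bool.and_false]
  · have h1 : (π a).1 ≠ (π i).1 := fun h2 => ha (π.injective (Fin.ext h2))
    congr 1
    rw [decide_eq_decide]
    omega

/-- The value of the sum.  Proof: `θ_(l+1) - θ_l = shE c (only i = π⁻¹ l)` maps `e_(i,j)` to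
`c i j • e_(i+1,j)` and all other basis vectors to `0`.  Hence `Phi m θ` is the composition of
these maps in the order `l = 0, 1, ..., m - 1`: it maps `e_(π⁻¹ 0, j)` to
`(∏ i, c i j) • e_(π⁻¹ (m-1) + 1, j)` if `π⁻¹ (l+1) = π⁻¹ l + 1` (cyclically) for all `l < m - 1`, and
everything else to `0`.  In this case `π⁻¹ l = π⁻¹ 0 + l`, the trace is `∑ j, ∏ i, c i j`; otherwise
the composition is `0`.  These `π` are the `m` rotations `l ↦ l - c`; a rotation is a
power of `finRotate m`, of sign `((-1)^(m-1))^c = 1` for `m` odd (`sign_finRotate`). The trace of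
an endomorphism of `k^(m × J)` is the sum of its diagonal entries
(`LinearMap.trace_eq_matrix_trace` with `Pi.basisFun`, `LinearMap.toMatrix'`). -/
theorem cyc_sum {k : Type} [CommRing k] {m : ℕ} (hm : Odd m) {J : Type} [Fintype J]
    (c : Fin m → J → k) :
    ∑ π : Equiv.Perm (Fin m), ((Equiv.Perm.sign π : ℤ) : k) *
      LinearMap.trace k (Fin m × J → k)
        (Phi m (fun l : Fin (m + 1) => shE c (fun a => decide ((π a).1 < l.1)))) =
      (m : k) * ∑ j, ∏ i, c i j := by
  classical
  obtain ⟨t, rfl⟩ := hm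
  simp only [cycA_trace]
  have h1 : ∀ π : Equiv.Perm (Fin (2 * t + 1)), ((Equiv.Perm.sign π : ℤ) : k) *
      (if π ∈ (Finset.univ : Finset (Fin (2 * t + 1))).image
        (fun j => (Equiv.addLeft j : Equiv.Perm (Fin (2 * t + 1)))) then
        ∑ j, ∏ i, c i j else 0) =
      if π ∈ (Finset.univ : Finset (Fin (2 * t + 1))).image
        (fun j => (Equiv.addLeft j : Equiv.Perm (Fin (2 * t + 1)))) then
        ∑ j, ∏ i, c i j else 0 := by
    intro π
    split_ifs with hπ
    · obtain ⟨j₀, -, rfl⟩ := Finset.mem_image.1 hπ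
      rw [cycA_sign]
      simp
    · rw [mul_zero]
  rw [Finset.sum_congr rfl fun π _ => h1 π, ← Finset.sum_filter, Finset.sum_const,
    Finset.filter_mem_eq_inter, Finset.univ_inter, Finset.card_image_of_injective,
    Finset.card_univ, Fintype.card_fin, nsmul_eq_mul]
  intro j j' hj
  have h2 := Equiv.congr_fun hj 0
  change j + 0 = j' + 0 at h2
  rwa [add_zero, add_zero] at h2

end Pool.Agent.MP_d175a7_gt
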