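import Pool.Agent.Lib.MP_d175a7_gt.Onto
import Pool.Agent.Lib.MP_d175a7_gt.CubPhi
import Pool.Agent.Lib.MP_d175a7_gt.CycA

/-! # Failure of surjectivity from a detection by dual numbers -/

set_option autoImplicit false
set_option linter.unusedVariables false

namespace Pool.Agent.MP_d175a7_gt

open CategoryTheory

universe u v

variable {C : Type 1} [Category.{0} C]

/-- A representation over the dual numbers `k[ε]` and a cube of odd dimension `m` whose maps are
`1 + ε ∑ c_(i,j) E_((i+1,j),(i,j))`, with `m ∑_j ∏_i c_(i,j) ≠ 0`, obstruct surjectivity in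
degree `m`. -/
theorem not_onto_cube {p : ℕ} [Fact p.Prime] (S : SMon C) {k : Type} [CommRing k]
    (r : k →+ ZMod p) (R : DRep S k) {D d j : ℕ} (hd : 0 < d)
    (hodd : Odd (d + j + D)) (Q : Cube C (d + j + D)) {J : Type} [Fintype J]
    {c : Fin (d + j + D) → J → k} (co : CubCo R Q J c)
    (hr : r (((d + j + D : ℕ) : k) * ∑ j, ∏ i, c i j) ≠ 0)
    (A : PS.{u}) (At : PS.{v}) (hA : DimLe A D) (hH : HNe p A D) (s : PMap At (Susp d A))
    (hs : HSur p s (D + d)) (w : PMap At A) :
    ¬ Function.Surjective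
      (Cls.pre (Susp.pmap j w) : Cls (Susp j A) (KGps S) → Cls (Susp j At) (KGps S)) := by
  refine not_onto S (R.acoc r) hd Q ?_ ?_ A At hA hH s hs w
  · rintro ω ⟨i, hi⟩ π
    change r (R.phi _ (Q.fn ω (epi π))) = 0
    rw [phi_cube R Q co, cyc_off c π ω i hi, map_zero, map_zero]
  · have h1 : ∀ π : Equiv.Perm (Fin (d + j + D)),
        ((Equiv.Perm.sign π : ℤ) : ZMod p) * (R.acoc r).φ (d + j + D)
          (Q.fn (fun _ => true) (epi π)) =
        r (((Equiv.Perm.sign π : ℤ) : k) * LinearMap.trace k (Fin (d + j + D) × J → k)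
          (Phi (d + j + D) (fun l : Fin (d + j + D + 1) =>
            shE c (fun a => decide ((π a).1 < l.1))))) := by
      intro π
      change ((Equiv.Perm.sign π : ℤ) : ZMod p) * r (R.phi _ (Q.fn (fun _ => true) (epi π))) = _
      rw [phi_cube R Q co]
      simp only [Bool.and_true]
      rcases Int.units_eq_one_or (Equiv.Perm.sign π) with h | h <;> rw [h] <;> simp
    rw [Finset.sum_congr rfl fun π _ => h1 π, ← map_sum, cyc_sum hodd]
    exact hr

end Pool.Agent.MP_d175a7_gt
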