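import Pool.Agent.Lib.MP_d175a7_gt.CyCo
import Pool.Agent.Lib.MP_d175a7_gt.CySelf
import Pool.Agent.Lib.MP_d175a7_gt.OntoD
import Pool.Agent.Lib.MP_d175a7_gt.KTh

/-! # Failure of surjectivity in algebraic K-theory from cyclic data -/

set_option autoImplicit false
set_option linter.unusedVariables false

namespace Pool.Agent.MP_d175a7_gt

open CategoryTheory

universe u v

/-- Cyclic data with `m ∑_j ∏_i c_(i,j) ≠ 0` obstruct surjectivity in degree `m = d + j + D`, `m`
odd. -/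
theorem not_onto_cyc {p : ℕ} [Fact p.Prime] {R : RSp} {k : Type} [CommRing k] {Δ : Det R k}
    (r : k →+ ZMod p) {D d j n : ℕ} (hd : 0 < d) (hodd : Odd (d + j + D)) (hm : 2 ≤ d + j + D)
    {c : Fin (d + j + D) → Fin n → k} (Y : CycDat Δ (d + j + D) n c)
    (hr : r (((d + j + D : ℕ) : k) * ∑ j, ∏ i, c i j) ≠ 0)
    (A : PS.{u}) (At : PS.{v}) (hA : DimLe A D) (hH : HNe p A D) (s : PMap At (Susp d A))
    (hs : HSur p s (D + d)) (w : PMap At A) :
    ¬ Function.Surjective
      (Cls.pre (Susp.pmap j w) : Cls (Susp j A) (Kth R) → Cls (Susp j At) (Kth R)) :=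
  not_onto_cube (FCm R) r (detRep Δ) hd hodd (Y.cube hm) (Y.cubCo hm) hr A At hA hH s hs w

/-- Cyclic data of modules weakly equivalent to the ring obstruct surjectivity in degree
`m = d + j + D`, `m` odd and `r m ≠ 0`. -/
theorem not_onto_self {p : ℕ} [Fact p.Prime] {R : RSp} {k : Type} [CommRing k] {Δ : Det R k}
    (r : k →+ ZMod p) {D d j : ℕ} (hd : 0 < d) (hodd : Odd (d + j + D)) (hm : 2 ≤ d + j + D)
    (Y : SelfDat Δ (d + j + D)) (hr : r ((d + j + D : ℕ) : k) ≠ 0)
    (A : PS.{u}) (At : PS.{v}) (hA : DimLe A D) (hH : HNe p A D) (s : PMap At (Susp d A))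
    (hs : HSur p s (D + d)) (w : PMap At A) :
    ¬ Function.Surjective
      (Cls.pre (Susp.pmap j w) : Cls (Susp j A) (Kth R) → Cls (Susp j At) (Kth R)) :=
  not_onto_cyc r hd hodd hm Y.cyc (by simpa using hr) A At hA hH s hs w

end Pool.Agent.MP_d175a7_gt
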