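import Pool.Agent.Lib.MP_d175a7_gt.SqL

/-!
# The truncated polynomial algebra `e[x]/(x²) = e ∧ {*, 1, x}`, `x² = *`
-/

set_option autoImplicit false
set_option linter.unusedVariables false

namespace Pool.Agent.MP_d175a7_gt

open scoped Topology

variable (e : RSp)

/-- One of the two components is trivial. -/
def SqMem (n : ℕ) (z : e.X n × e.X n) : Prop := z.1 = e.pt n ∨ z.2 = e.pt n

/-- The points `(a, b)`, `a` or `b` the base point: the point `a + b x` of `e[x]/(x²)`. -/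
def SqX (n : ℕ) : Type := Subtype (SqMem e n)

/-- The topology. -/
instance SqX.top (n : ℕ) : TopologicalSpace (SqX e n) :=
  instTopologicalSpaceSubtype (p := SqMem e n)

/-- The base points. -/
def SqX.pt (n : ℕ) : SqX e n := ⟨(e.pt n, e.pt n), Or.inl rfl⟩

theorem SqX.closed (n : ℕ) : IsClosed ({SqX.pt e n} : Set (SqX e n)) := by
  have h : ({SqX.pt e n} : Set (SqX e n)) =
      Subtype.val ⁻¹' (({e.pt n} : Set (e.X n)) ×ˢ ({e.pt n} : Set (e.X n))) := by
    ext z
    exact ⟨fun h => by rw [h]; exact ⟨rfl, rfl⟩, fun h => Subtype.ext (Prod.ext h.1 h.2)⟩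
  rw [h]
  exact ((e.closed n).prod (e.closed n)).preimage continuous_subtype_val

theorem SqX.act_mem (n : ℕ) (A : Ort n) (z : SqX e n) :
    SqMem e n (e.act n A z.1.1, e.act n A z.1.2) := by
  rcases z.2 with h | h
  · left; change e.act n A z.1.1 = _; rw [h, e.act_pt]
  · right; change e.act n A z.1.2 = _; rw [h, e.act_pt]

/-- The action of `O(n)`. -/
def SqX.act (n : ℕ) (A : Ort n) (z : SqX e n) : SqX e n :=
  ⟨(e.act n A z.1.1, e.act n A z.1.2), SqX.act_mem e n A z⟩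

theorem SqX.act_cont (n : ℕ) : KCont₂ (SqX.act e n) := fun T _ _ _ g h hg hh =>
  Continuous.subtype_mk ((e.act_cont n T g (fun t => (h t).1.1) hg
    (continuous_fst.comp (continuous_subtype_val.comp hh))).prodMk
      (e.act_cont n T g (fun t => (h t).1.2) hg
        (continuous_snd.comp (continuous_subtype_val.comp hh)))) _

theorem SqX.act_one (n : ℕ) (z : SqX e n) : SqX.act e n 1 z = z :=
  Subtype.ext (Prod.ext (e.act_one n _) (e.act_one n _))

theorem SqX.act_mul (n : ℕ) (A B : Ort n) (z : SqX e n) :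
    SqX.act e n (A * B) z = SqX.act e n A (SqX.act e n B z) :=
  Subtype.ext (Prod.ext (e.act_mul n _ _ _) (e.act_mul n _ _ _))

theorem SqX.act_pt (n : ℕ) (A : Ort n) : SqX.act e n A (SqX.pt e n) = SqX.pt e n :=
  Subtype.ext (Prod.ext (e.act_pt n A) (e.act_pt n A))

theorem SqX.mul_mem {m n k : ℕ} (h : m + n = k) (z : SqX e m) (w : SqX e n) :
    SqMem e k (e.mul h z.1.1 w.1.1,
      fold (e.pt k) (e.mul h z.1.2 w.1.1) (e.mul h z.1.1 w.1.2)) := by
  rcases z.2 with hz | hz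
  · left; change e.mul h z.1.1 w.1.1 = _; rw [hz, e.pt_mul]
  · rcases w.2 with hw | hw
    · left; change e.mul h z.1.1 w.1.1 = _; rw [hw, e.mul_pt]
    · right
      change fold (e.pt k) (e.mul h z.1.2 w.1.1) (e.mul h z.1.1 w.1.2) = _
      rw [hz, hw, e.pt_mul, e.mul_pt, fold_right]

/-- The multiplication `(a + b x)(c + d x) = a c + (b c + a d) x`. -/
noncomputable def SqX.mul {m n k : ℕ} (h : m + n = k) (z : SqX e m) (w : SqX e n) : SqX e k :=
  ⟨(e.mul h z.1.1 w.1.1, fold (e.pt k) (e.mul h z.1.2 w.1.1) (e.mul h z.1.1 w.1.2)),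
    SqX.mul_mem e h z w⟩

theorem SqX.mul_cont {m n k : ℕ} (h : m + n = k) :
    KCont₂ (SqX.mul e h : SqX e m → SqX e n → SqX e k) := fun T _ _ _ g f hg hf => by
  have g1 : Continuous fun t => (g t).1.1 := continuous_fst.comp (continuous_subtype_val.comp hg)
  have g2 : Continuous fun t => (g t).1.2 := continuous_snd.comp (continuous_subtype_val.comp hg)
  have f1 : Continuous fun t => (f t).1.1 := continuous_fst.comp (continuous_subtype_val.comp hf)
  have f2 : Continuous fun t => (f t).1.2 := continuous_snd.comp (continuous_subtype_val.comp hf)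
  refine Continuous.subtype_mk ((e.mul_cont h T _ _ g1 f1).prodMk
    (fold_cont (e.closed k) (e.mul_cont h T _ _ g2 f1) (e.mul_cont h T _ _ g1 f2) ?_)) _
  intro t
  rcases (g t).2 with hz | hz
  · right; rw [hz, e.pt_mul]
  · left; rw [hz, e.pt_mul]

theorem SqX.mul_pt {m n k : ℕ} (h : m + n = k) (z : SqX e m) :
    SqX.mul e h z (SqX.pt e n) = SqX.pt e k :=
  Subtype.ext (Prod.ext (e.mul_pt h _) (by
    change fold (e.pt k) (e.mul h z.1.2 (e.pt n)) (e.mul h z.1.1 (e.pt n)) = e.pt k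
    rw [e.mul_pt, e.mul_pt, fold_right]))

theorem SqX.pt_mul {m n k : ℕ} (h : m + n = k) (w : SqX e n) :
    SqX.mul e h (SqX.pt e m) w = SqX.pt e k :=
  Subtype.ext (Prod.ext (e.pt_mul h _) (by
    change fold (e.pt k) (e.mul h (e.pt m) w.1.1) (e.mul h (e.pt m) w.1.2) = e.pt k
    rw [e.pt_mul, e.pt_mul, fold_right]))

theorem SqX.mul_assoc {a b c ab bc abc : ℕ} (h₁ : a + b = ab) (h₂ : ab + c = abc)
    (h₃ : b + c = bc) (h₄ : a + bc = abc) (x : SqX e a) (y : SqX e b) (z : SqX e c) :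
    SqX.mul e h₂ (SqX.mul e h₁ x y) z = SqX.mul e h₄ x (SqX.mul e h₃ y z) := by
  refine Subtype.ext (Prod.ext (e.mul_assoc h₁ h₂ h₃ h₄ _ _ _) ?_)
  change fold (e.pt abc) (e.mul h₂ (fold (e.pt ab) (e.mul h₁ x.1.2 y.1.1)
      (e.mul h₁ x.1.1 y.1.2)) z.1.1) (e.mul h₂ (e.mul h₁ x.1.1 y.1.1) z.1.2) =
    fold (e.pt abc) (e.mul h₄ x.1.2 (e.mul h₃ y.1.1 z.1.1))
      (e.mul h₄ x.1.1 (fold (e.pt bc) (e.mul h₃ y.1.2 z.1.1) (e.mul h₃ y.1.1 z.1.2)))
  rcases x.2 with hx | hx <;> rcases y.2 with hy | hy <;> rcases z.2 with hz | hz <;>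
    simp only [hx, hy, hz, e.mul_pt, e.pt_mul, fold_left, fold_right, e.mul_assoc h₁ h₂ h₃ h₄]

theorem SqX.mul_act {m n k : ℕ} (h : m + n = k) (A : Ort m) (B : Ort n) (z : SqX e m)
    (w : SqX e n) : SqX.mul e h (SqX.act e m A z) (SqX.act e n B w) =
      SqX.act e k (blk h A B) (SqX.mul e h z w) := by
  refine Subtype.ext (Prod.ext (e.mul_act h A B _ _) ?_)
  change fold (e.pt k) (e.mul h (e.act m A z.1.2) (e.act n B w.1.1))
      (e.mul h (e.act m A z.1.1) (e.act n B w.1.2)) =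
    e.act k (blk h A B) (fold (e.pt k) (e.mul h z.1.2 w.1.1) (e.mul h z.1.1 w.1.2))
  rcases z.2 with hz | hz <;> simp only [hz, e.mul_act, e.pt_mul, e.act_pt, fold_left, fold_right]

theorem SqX.mul_comm {m n k : ℕ} (h : m + n = k) (h' : n + m = k) (z : SqX e m) (w : SqX e n) :
    SqX.mul e h' w z = SqX.act e k (swp h h') (SqX.mul e h z w) := by
  refine Subtype.ext (Prod.ext (e.mul_comm h h' _ _) ?_)
  change fold (e.pt k) (e.mul h' w.1.2 z.1.1) (e.mul h' w.1.1 z.1.2) =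
    e.act k (swp h h') (fold (e.pt k) (e.mul h z.1.2 w.1.1) (e.mul h z.1.1 w.1.2))
  rw [e.mul_comm h h' z.1.1 w.1.2, e.mul_comm h h' z.1.2 w.1.1]
  rcases z.2 with hz | hz <;> simp only [hz, e.pt_mul, e.act_pt, fold_left, fold_right]

/-- The unit maps. -/
def SqX.unit (n : ℕ) (v : Sph n) : SqX e n := ⟨(e.unit n v, e.pt n), Or.inr rfl⟩

theorem SqX.unit_cont (n : ℕ) : Continuous (SqX.unit e n) :=
  Continuous.subtype_mk ((e.unit_cont n).prodMk continuous_const) _

theorem SqX.unit_pt (n : ℕ) : SqX.unit e n OnePoint.infty = SqX.pt e n :=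
  Subtype.ext (Prod.ext (e.unit_pt n) rfl)

theorem SqX.unit_act (n : ℕ) (A : Ort n) (v : Sph n) :
    SqX.unit e n (sact A v) = SqX.act e n A (SqX.unit e n v) :=
  Subtype.ext (Prod.ext (e.unit_act n A v) (e.act_pt n A).symm)

theorem SqX.unit_mul {m n k : ℕ} (h : m + n = k) (v : Sph m) (w : Sph n) :
    SqX.mul e h (SqX.unit e m v) (SqX.unit e n w) = SqX.unit e k (sm h v w) :=
  Subtype.ext (Prod.ext (e.unit_mul h v w) (by
    change fold (e.pt k) (e.mul h (e.pt m) (e.unit n w)) (e.mul h (e.unit m v) (e.pt n)) = e.pt k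
    rw [e.pt_mul, e.mul_pt, fold_right]))

theorem SqX.one_mul {n : ℕ} (h : 0 + n = n) (z : SqX e n) :
    SqX.mul e h (SqX.unit e 0 (OnePoint.some 0)) z = z :=
  Subtype.ext (Prod.ext (e.one_mul h _) (by
    change fold (e.pt n) (e.mul h (e.pt 0) z.1.1) (e.mul h (e.unit 0 (OnePoint.some 0)) z.1.2) =
      z.1.2
    rw [e.pt_mul, e.one_mul, fold_left]))

theorem SqX.mul_one {n : ℕ} (h : n + 0 = n) (z : SqX e n) :
    SqX.mul e h z (SqX.unit e 0 (OnePoint.some 0)) = z :=
  Subtype.ext (Prod.ext (e.mul_one h _) (by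
    change fold (e.pt n) (e.mul h z.1.2 (e.unit 0 (OnePoint.some 0))) (e.mul h z.1.1 (e.pt 0)) =
      z.1.2
    rw [e.mul_pt, e.mul_one, fold_right]))

/-- The truncated polynomial algebra `e[x]/(x²) = e ∧ {*, 1, x}` with `x² = *`. -/
noncomputable def sq (e : RSp) : RSp where
  X := SqX e
  top := SqX.top e
  pt := SqX.pt e
  closed := SqX.closed e
  act := SqX.act e
  act_cont := SqX.act_cont e
  act_one := SqX.act_one e
  act_mul := SqX.act_mul e
  act_pt := SqX.act_pt e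
  mul := SqX.mul e
  mul_cont := SqX.mul_cont e
  mul_pt := SqX.mul_pt e
  pt_mul := SqX.pt_mul e
  mul_assoc := SqX.mul_assoc e
  mul_act := SqX.mul_act e
  mul_comm := SqX.mul_comm e
  unit := SqX.unit e
  unit_cont := SqX.unit_cont e
  unit_pt := SqX.unit_pt e
  unit_act := SqX.unit_act e
  unit_mul := SqX.unit_mul e
  one_mul := SqX.one_mul e
  mul_one := SqX.mul_one e

/-- The map `e → e[x]/(x²)`, on points. -/
def SqX.inf (n : ℕ) (x : e.X n) : SqX e n := ⟨(x, e.pt n), Or.inr rfl⟩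

theorem SqX.in_cont (n : ℕ) : KCont (SqX.inf e n) := fun _ _ _ _ _ hg =>
  Continuous.subtype_mk (hg.prodMk continuous_const) _

theorem SqX.in_pt (n : ℕ) : SqX.inf e n (e.pt n) = (sq e).pt n := rfl

theorem SqX.in_act (n : ℕ) (A : Ort n) (x : e.X n) :
    SqX.inf e n (e.act n A x) = (sq e).act n A (SqX.inf e n x) :=
  Subtype.ext (Prod.ext rfl (e.act_pt n A).symm)

theorem SqX.in_mul {m n k : ℕ} (h : m + n = k) (x : e.X m) (y : e.X n) :
    SqX.inf e k (e.mul h x y) = (sq e).mul h (SqX.inf e m x) (SqX.inf e n y) :=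
  Subtype.ext (Prod.ext rfl (by
    change e.pt k = fold (e.pt k) (e.mul h (e.pt m) y) (e.mul h x (e.pt n))
    rw [e.pt_mul, e.mul_pt, fold_right]))

theorem SqX.in_unit (n : ℕ) (v : Sph n) : SqX.inf e n (e.unit n v) = (sq e).unit n v := rfl

/-- The ring map `e → e[x]/(x²)`. -/
noncomputable def sqIn (e : RSp) : RHom e (sq e) where
  f := SqX.inf e
  cont := SqX.in_cont e
  pt := SqX.in_pt e
  act := SqX.in_act e
  mul := SqX.in_mul e
  unit := SqX.in_unit e

/-- The augmentation `e[x]/(x²) → e`, `a + b x ↦ a`. -/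
noncomputable def sqAug (e : RSp) : RHom (sq e) e where
  f n z := z.1.1
  cont n T _ _ _ g hg := continuous_fst.comp (continuous_subtype_val.comp hg)
  pt n := rfl
  act n A x := rfl
  mul h x y := rfl
  unit n v := rfl

end Pool.Agent.MP_d175a7_gt
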