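import Pool.Agent.Lib.MP_d175a7_gt.SubM
import Pool.Agent.Lib.MP_d175a7_gt.Sq

/-!
# Commuting elementary operations on the product of a cyclic family of modules
-/

set_option autoImplicit false
set_option linter.unusedVariables false

namespace Pool.Agent.MP_d175a7_gt

open scoped Topology unitInterval

/-- The cyclic predecessor on `Fin m`. -/
def prv {m : ℕ} (a : Fin m) : Fin m := (finRotate m).symm a

theorem prv_ne {m : ℕ} (hm : 2 ≤ m) (a : Fin m) : prv a ≠ a := by
  obtain ⟨n, rfl⟩ : ∃ n, m = n + 1 := ⟨m - 1, by omega⟩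
  intro h
  have h1 : finRotate (n + 1) a = a := by
    have := congrArg (finRotate (n + 1)) h
    rw [prv, Equiv.apply_symm_apply] at this
    exact this.symm
  rw [finRotate_succ_apply] at h1
  have h2 : ((a + 1 : Fin (n + 1)) : ℕ) = a.1 := congrArg Fin.val h1
  rw [Fin.val_add, Fin.val_one'] at h2
  have h3 : 1 % (n + 1) = 1 := Nat.mod_eq_of_lt (by omega)
  rw [h3] at h2
  have h4 := a.2
  rcases Nat.lt_or_ge (a.1 + 1) (n + 1) with h5 | h5
  · rw [Nat.mod_eq_of_lt h5] at h2; omega
  · have h6 : a.1 + 1 = n + 1 := by omega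
    rw [h6, Nat.mod_self] at h2
    omega

variable {R : RSp}

/-- A cyclic family of modules `Z_a` with homomorphisms `Z_(a-1) → Z_a` such that the composite of
two consecutive ones is trivial. -/
structure CycM (R : RSp) (m : ℕ) : Type 1 where
  /-- the modules -/
  Z : Fin m → MSp R
  /-- the homomorphisms -/
  al : ∀ a, MHom (Z (prv a)) (Z a)
  comp : ∀ a n x, (al a).f n ((al (prv a)).f n x) = (Z a).pt n

variable {m : ℕ}

/-- The condition: for `s (a-1) = false`, `z_a` or the image of `z_(a-1)` is the base point. -/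
def CycM.sp (Y : CycM R m) (hm : 2 ≤ m) (s : Fin m → Bool) : Sp Y.Z where
  mem n z := ∀ a, s (prv a) = false → z a = (Y.Z a).pt n ∨
    (Y.al a).f n (z (prv a)) = (Y.Z a).pt n
  act n A z h a ha := by
    rcases h a ha with h | h
    · left; beta_reduce; rw [h, (Y.Z a).act_pt]
    · right; beta_reduce; rw [(Y.al a).act, h, (Y.Z a).act_pt]
  smul {m n l} hh r z h a ha := by
    rcases h a ha with h | h
    · left; beta_reduce; rw [h, (Y.Z a).smul_pt]
    · right; beta_reduce; rw [(Y.al a).smul, h, (Y.Z a).smul_pt]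
  mask n c _ z h a ha := by
    rcases h a ha with h | h
    · left; beta_reduce; split_ifs
      · exact h
      · rfl
    · right; beta_reduce; split_ifs
      · exact h
      · exact (Y.al a).pt n
  axis n z a h b hb := by
    by_cases hab : b = a
    · right
      rw [hab, h (prv a) (prv_ne hm a), (Y.al a).pt]
    · left; exact h b hab
  pt n a ha := Or.inl rfl

/-- The admissible sets of operations `u` for a pair of vertices `s ≤ s'` of the cube. -/
structure MOk (s s' u : Fin m → Bool) : Prop where
  le : ∀ i, s' i = false → s i = false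
  us : ∀ i, u i = true → s i = false ∧ s' i = true

/-- The operation on points: `z_a` is replaced by `z_a + α z_(a-1)` for `u (a-1) = true`. -/
noncomputable def CycM.op (Y : CycM R m) (u : Fin m → Bool) {n : ℕ} (z : ∀ a, (Y.Z a).X n) :
    ∀ a, (Y.Z a).X n := fun a =>
  if u (prv a) = true then fold ((Y.Z a).pt n) (z a) ((Y.al a).f n (z (prv a))) else z a

theorem CycM.al_op (Y : CycM R m) (hm : 2 ≤ m) {s s' u : Fin m → Bool} (h : MOk s s' u) {n : ℕ}
    {z : ∀ a, (Y.Z a).X n} (hz : (Y.sp hm s).mem n z) (a : Fin m) :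
    (Y.al a).f n (Y.op u z (prv a)) = (Y.al a).f n (z (prv a)) := by
  unfold CycM.op
  split_ifs with hu
  · have h1 := hz (prv a) (h.us _ hu).1
    rw [fold_map ((Y.al a).f n) h1, (Y.al a).pt, Y.comp a n, fold_right]
  · rfl

/-- The operation as a homomorphism. -/
noncomputable def CycM.mo (Y : CycM R m) (hm : 2 ≤ m) {s s' u : Fin m → Bool}
    (h : MOk s s' u) : MHom (subM (Y.sp hm s)) (subM (Y.sp hm s')) where
  f n z := ⟨Y.op u z.1, by
    intro a ha
    have hs : s (prv a) = false := h.le _ ha
    have hu : ¬ u (prv a) = true := fun hu => by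
      have := (h.us _ hu).2
      rw [ha] at this
      exact absurd this (by simp)
    rcases z.2 a hs with h1 | h1
    · left
      unfold CycM.op
      rw [if_neg hu]
      exact h1
    · right
      rw [Y.al_op hm h z.2 a]
      exact h1⟩
  cont n T _ _ _ g hg := Continuous.subtype_mk (continuous_pi fun a => by
    have hc : ∀ a, Continuous fun t => (g t).1 a := fun a =>
      (continuous_apply a).comp (continuous_subtype_val.comp hg)
    unfold CycM.op
    by_cases hu : u (prv a) = true
    · simp only [hu, if_true]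
      exact fold_cont ((Y.Z a).closed n) (hc a)
        ((Y.al a).cont n T (fun t => (g t).1 (prv a)) (hc (prv a)))
        (fun t => (g t).2 a (h.us _ hu).1)
    · simp only [hu, if_false]
      exact hc a) _
  pt n := Subtype.ext (funext fun a => by
    change (if u (prv a) = true then fold ((Y.Z a).pt n) ((Y.Z a).pt n)
      ((Y.al a).f n ((Y.Z (prv a)).pt n)) else (Y.Z a).pt n) = (Y.Z a).pt n
    rw [(Y.al a).pt, fold_right, ite_self])
  act n A x := Subtype.ext (funext fun a => by
    change (if u (prv a) = true then fold ((Y.Z a).pt n) ((Y.Z a).act n A (x.1 a))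
      ((Y.al a).f n ((Y.Z (prv a)).act n A (x.1 (prv a)))) else (Y.Z a).act n A (x.1 a)) =
      (Y.Z a).act n A (if u (prv a) = true then fold ((Y.Z a).pt n) (x.1 a)
        ((Y.al a).f n (x.1 (prv a))) else x.1 a)
    split_ifs with hu
    · rw [fold_map ((Y.Z a).act n A) (x.2 a (h.us _ hu).1), (Y.Z a).act_pt, (Y.al a).act]
    · rfl)
  smul {q n l} hh r x := Subtype.ext (funext fun a => by
    change (if u (prv a) = true then fold ((Y.Z a).pt l) ((Y.Z a).smul hh r (x.1 a))
      ((Y.al a).f l ((Y.Z (prv a)).smul hh r (x.1 (prv a)))) else (Y.Z a).smul hh r (x.1 a)) =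
      (Y.Z a).smul hh r (if u (prv a) = true then fold ((Y.Z a).pt n) (x.1 a)
        ((Y.al a).f n (x.1 (prv a))) else x.1 a)
    split_ifs with hu
    · rw [fold_map ((Y.Z a).smul hh r) (x.2 a (h.us _ hu).1), (Y.Z a).smul_pt, (Y.al a).smul]
    · rfl)

theorem CycM.mo_apply (Y : CycM R m) (hm : 2 ≤ m) {s s' u : Fin m → Bool} (h : MOk s s' u)
    (n : ℕ) (z : (subM (Y.sp hm s)).X n) (a : Fin m) :
    ((Y.mo hm h).f n z).1 a = if u (prv a) = true
      then fold ((Y.Z a).pt n) (z.1 a) ((Y.al a).f n (z.1 (prv a))) else z.1 a := rfl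

/-- The identity. -/
theorem CycM.mo_id (Y : CycM R m) (hm : 2 ≤ m) {s u : Fin m → Bool} (h : MOk s s u) :
    Y.mo hm h = MHom.id _ := by
  refine MHom.ext fun n z => Subtype.ext (funext fun a => ?_)
  rw [CycM.mo_apply]
  have hu : ¬ u (prv a) = true := fun hu => by
    have h1 := h.us _ hu
    rw [h1.1] at h1
    exact absurd h1.2 (by simp)
  rw [if_neg hu]
  rfl

/-- Composition. -/
theorem CycM.mo_comp (Y : CycM R m) (hm : 2 ≤ m) {s s' s'' u u' u'' : Fin m → Bool}
    (h : MOk s s' u) (h' : MOk s' s'' u') (h'' : MOk s s'' u'')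
    (hu : ∀ i, u'' i = (u i || u' i)) :
    (Y.mo hm h).comp (Y.mo hm h') = Y.mo hm h'' := by
  refine MHom.ext fun n z => Subtype.ext (funext fun a => ?_)
  have h1 : (Y.al a).f n (((Y.mo hm h).f n z).1 (prv a)) = (Y.al a).f n (z.1 (prv a)) :=
    Y.al_op hm h z.2 a
  change ((Y.mo hm h').f n ((Y.mo hm h).f n z)).1 a = ((Y.mo hm h'').f n z).1 a
  rw [CycM.mo_apply, CycM.mo_apply, h1, CycM.mo_apply, hu]
  by_cases h2 : u' (prv a) = true
  · have h3 : u (prv a) = false := by
      have h4 := (h'.us _ h2).1
      cases h5 : u (prv a) with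
      | false => rfl
      | true =>
        have h6 := (h.us _ h5).2
        rw [h4] at h6
        exact absurd h6 (by simp)
    rw [h2, h3]
    simp
  · have h2' : u' (prv a) = false := by simpa using h2
    rw [h2']
    simp

end Pool.Agent.MP_d175a7_gt
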