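import Pool.Agent.Lib.MP_d175a7_gt.CyF

/-! # Coordinates and inclusions -/

set_option autoImplicit false
set_option linter.unusedVariables false

namespace Pool.Agent.MP_d175a7_gt

open scoped Topology unitInterval Matrix

variable {R : RSp} {k : Type} [CommRing k] {m r : ℕ} {D : Det R k} {c : Fin m → Fin r → k}

/-- The inclusion followed by the zigzag homomorphism of the target is the zigzag homomorphism
of the source. -/
private theorem cypb_comp (Y : CycDat D m r c) (hm : 2 ≤ m) {s s' u : Fin m → Bool}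
    (h : MOk s s' u) (hu : ∀ i, u i = false) :
    (Y.cyc.mo hm h).comp (Y.qo hm s').γ = (Y.qo hm s).γ := by
  refine MHom.ext fun n z => Subtype.ext (funext fun a => ?_)
  change (Y.F a).γ.f n (((Y.cyc.mo hm h).f n z).1 a) = (Y.F a).γ.f n (z.1 a)
  rw [CycM.mo_apply, if_neg (by rw [hu]; exact Bool.false_ne_true)]

/-- The coordinates of the free objects are compatible with the inclusions.  Proof:
`crd D (Y.qo hm s) = (veq D γ_s).symm.trans E` and `crd D (Y.qo hm s') = (veq D γ_s').symm.trans E`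
with the same `E` (same `α`, `β`, definitionally), so it suffices that
`(veq D γ_s).symm (vmap D (mo h) f) = (veq D γ_s').symm f`, i.e. with `f = vmap D γ_s' g`:
`vmap D (mo h) (vmap D γ_s' g) = vmap D γ_s g`, which holds since `(mo h).comp γ_s' = γ_s`
(pointwise: `u = false`, `mo_apply`). -/
theorem CycDat.crd_incl (Y : CycDat D m r c) (hm : 2 ≤ m) {s s' u : Fin m → Bool}
    (h : MOk s s' u) (hu : ∀ i, u i = false) (f : VV D (subM (Y.cyc.sp hm s'))) :
    (crd D (Y.qo hm s) (vmap D (Y.cyc.mo hm h) f) : Fin (m * r) → DualNumber k) =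
      crd D (Y.qo hm s') f := by
  obtain ⟨g, hg⟩ := (veq D (Y.qo hm s').γ (Y.qo hm s').hγ).surjective f
  have h1 : (veq D (Y.qo hm s').γ (Y.qo hm s').hγ).symm f = g := by
    rw [LinearEquiv.symm_apply_eq]
    exact hg.symm
  have h2 : (veq D (Y.qo hm s).γ (Y.qo hm s).hγ).symm (vmap D (Y.cyc.mo hm h) f) = g := by
    rw [LinearEquiv.symm_apply_eq, ← hg]
    change vmap D ((Y.cyc.mo hm h).comp (Y.qo hm s').γ) g = vmap D (Y.qo hm s).γ g
    rw [cypb_comp Y hm h hu]
    rfl
  change ((veq D (Y.qo hm s').β (Y.qo hm s').hβ).trans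
    ((veq D (Y.qo hm s').α (Y.qo hm s').hα).symm.trans (VVfree D (m * r))))
      ((veq D (Y.qo hm s).γ (Y.qo hm s).hγ).symm (vmap D (Y.cyc.mo hm h) f)) =
    ((veq D (Y.qo hm s').β (Y.qo hm s').hβ).trans
    ((veq D (Y.qo hm s').α (Y.qo hm s').hα).symm.trans (VVfree D (m * r))))
      ((veq D (Y.qo hm s').γ (Y.qo hm s').hγ).symm f)
  rw [h1]
  exact congrArg _ h2

end Pool.Agent.MP_d175a7_gt
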