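import Pool.Agent.Lib.MP_d175a7_gt.VdL

/-! # Matrices over the dual numbers of homomorphisms of product modules -/

set_option autoImplicit false
set_option linter.unusedVariables false

namespace Pool.Agent.MP_d175a7_gt

open scoped Topology unitInterval Matrix

variable {R : RSp} {k : Type} [CommRing k]

/-- The matrix of `vmap D f` in the coordinates `crdL`. -/
noncomputable def mat (D : Det R k) {L M : List (FreeObj R)} (f : MHom (PiL L) (PiL M)) :
    Matrix (JL L) (JL M) (DualNumber k) :=
  LinearMap.toMatrix' ((crdL D L).toLinearMap ∘ₗ vmap D f ∘ₗ (crdL D M).symm.toLinearMap)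

theorem mat_mulVec (D : Det R k) {L M : List (FreeObj R)} (f : MHom (PiL L) (PiL M))
    (v : JL M → DualNumber k) :
    mat D f *ᵥ v = crdL D L (vmap D f ((crdL D M).symm v)) := by
  unfold mat
  rw [← Matrix.toLin'_apply, Matrix.toLin'_toMatrix']
  rfl

theorem mat_id (D : Det R k) (L : List (FreeObj R)) : mat D (MHom.id (PiL L)) = 1 := by
  have h : (crdL D L).toLinearMap ∘ₗ vmap D (MHom.id (PiL L)) ∘ₗ
      (crdL D L).symm.toLinearMap = LinearMap.id :=
    LinearMap.ext fun v => (crdL D L).apply_symm_apply v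
  unfold mat
  rw [h, LinearMap.toMatrix'_id]

/-- Proof: `Matrix.toLin'` or `mat_mulVec` and `vmap_comp`. -/
theorem mat_comp (D : Det R k) {L M N : List (FreeObj R)} (f : MHom (PiL L) (PiL M))
    (g : MHom (PiL M) (PiL N)) : mat D (f.comp g) = mat D f * mat D g := by
  have h : (crdL D L).toLinearMap ∘ₗ vmap D (f.comp g) ∘ₗ (crdL D N).symm.toLinearMap =
      ((crdL D L).toLinearMap ∘ₗ vmap D f ∘ₗ (crdL D M).symm.toLinearMap) ∘ₗ
        ((crdL D M).toLinearMap ∘ₗ vmap D g ∘ₗ (crdL D N).symm.toLinearMap) := by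
    refine LinearMap.ext fun v => ?_
    change crdL D L (vmap D f (vmap D g ((crdL D N).symm v))) =
      crdL D L (vmap D f ((crdL D M).symm (crdL D M (vmap D g ((crdL D N).symm v)))))
    rw [LinearEquiv.symm_apply_apply]
  unfold mat
  rw [h, LinearMap.toMatrix'_comp]

/-- The matrix of a weak equivalence is invertible.  Proof: take the matrix of the inverse of
`veq D f hf` in the coordinates. -/
theorem mat_inv (D : Det R k) {L M : List (FreeObj R)} (f : MHom (PiL L) (PiL M))
    (hf : f.IsWeq) : ∃ N : Matrix (JL M) (JL L) (DualNumber k),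
    mat D f * N = 1 ∧ N * mat D f = 1 := by
  refine ⟨LinearMap.toMatrix' ((crdL D M).toLinearMap ∘ₗ (veq D f hf).symm.toLinearMap ∘ₗ
    (crdL D L).symm.toLinearMap), ?_, ?_⟩
  · unfold mat
    rw [← LinearMap.toMatrix'_comp]
    refine Eq.trans (congrArg LinearMap.toMatrix' (LinearMap.ext fun v => ?_))
      LinearMap.toMatrix'_id
    change crdL D L (veq D f hf ((crdL D M).symm (crdL D M ((veq D f hf).symm
      ((crdL D L).symm v))))) = v
    rw [LinearEquiv.symm_apply_apply, LinearEquiv.apply_symm_apply,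
      LinearEquiv.apply_symm_apply]
  · unfold mat
    rw [← LinearMap.toMatrix'_comp]
    refine Eq.trans (congrArg LinearMap.toMatrix' (LinearMap.ext fun v => ?_))
      LinearMap.toMatrix'_id
    change crdL D M ((veq D f hf).symm ((crdL D L).symm (crdL D L (veq D f hf
      ((crdL D M).symm v))))) = v
    rw [LinearEquiv.symm_apply_apply, LinearEquiv.symm_apply_apply,
      LinearEquiv.apply_symm_apply]

private theorem VdMat_entry (D : Det R k) {L M : List (FreeObj R)}
    (f : MHom (PiL L) (PiL M)) (i : JL L) (j : JL M) :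
    mat D f i j = crdL D L (vmap D f ((crdL D M).symm (Pi.single j 1))) i := by
  rw [← mat_mulVec, Matrix.mulVec_single_one]
  rfl

/-- The matrix of a product is block diagonal.  Proof: put `v = Pi.single ((jlE L' M').symm j) 1`,
`h = (crdL D (L' ++ M')).symm v`; by `mat_mulVec` and `crdL_jin1` the entries with row
`(jlE L M).symm (Sum.inl i)` are `crdL D L (vmap D (jin1 L M) (vmap D (tmap f g) h)) i =
crdL D L (vmap D f (vmap D (jin1 L' M') h)) i` (`jin1_tmap`, `vmap_comp`), and
`crdL D L' (vmap D (jin1 L' M') h) i' = v ((jlE L' M').symm (Sum.inl i'))` (`crdL_jin1`), so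
`vmap D (jin1 L' M') h = (crdL D L').symm (Pi.single j' 1)` if `j = Sum.inl j'` and `= 0` if
`j = Sum.inr j'`.  The other rows in the same way with `crdL_jin2`, `jin2_tmap`. -/
theorem mat_tmap (D : Det R k) {L L' M M' : List (FreeObj R)} (f : MHom (PiL L) (PiL L'))
    (g : MHom (PiL M) (PiL M')) (i : JL L ⊕ JL M) (j : JL L' ⊕ JL M') :
    mat D (tmap f g) ((jlE L M).symm i) ((jlE L' M').symm j) =
      Matrix.fromBlocks (mat D f) 0 0 (mat D g) i j := by
  rw [VdMat_entry]
  have hs : ∀ i' : JL L' ⊕ JL M', (Pi.single ((jlE L' M').symm j) 1 :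
      JL (L' ++ M') → DualNumber k) ((jlE L' M').symm i') = (Pi.single j 1 :
      JL L' ⊕ JL M' → DualNumber k) i' := by
    intro i'
    by_cases h : i' = j
    · rw [h, Pi.single_eq_same, Pi.single_eq_same]
    · rw [Pi.single_eq_of_ne h, Pi.single_eq_of_ne fun h' => h ((jlE L' M').symm.injective h')]
  have h1 : vmap D (jin1 L' M') ((crdL D (L' ++ M')).symm (Pi.single ((jlE L' M').symm j) 1)) =
      (crdL D L').symm fun i' => (Pi.single j 1 : JL L' ⊕ JL M' → DualNumber k) (Sum.inl i') := by
    rw [LinearEquiv.eq_symm_apply]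
    funext i'
    rw [← crdL_jin1, LinearEquiv.apply_symm_apply]
    exact hs (Sum.inl i')
  have h2 : vmap D (jin2 L' M') ((crdL D (L' ++ M')).symm (Pi.single ((jlE L' M').symm j) 1)) =
      (crdL D M').symm fun i' => (Pi.single j 1 : JL L' ⊕ JL M' → DualNumber k) (Sum.inr i') := by
    rw [LinearEquiv.eq_symm_apply]
    funext i'
    rw [← crdL_jin2, LinearEquiv.apply_symm_apply]
    exact hs (Sum.inr i')
  rcases i with i | i
  · rw [crdL_jin1, ← vmap_comp, jin1_tmap, vmap_comp, h1]
    rcases j with j | j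
    · rw [Matrix.fromBlocks_apply₁₁, VdMat_entry]
      have h3 : (fun i' => (Pi.single (Sum.inl j) 1 : JL L' ⊕ JL M' → DualNumber k)
          (Sum.inl i')) = Pi.single j 1 := by
        funext i'
        by_cases h : i' = j
        · rw [h, Pi.single_eq_same, Pi.single_eq_same]
        · rw [Pi.single_eq_of_ne h, Pi.single_eq_of_ne fun h' => h (Sum.inl_injective h')]
      rw [h3]
    · rw [Matrix.fromBlocks_apply₁₂, Matrix.zero_apply]
      have h3 : (fun i' => (Pi.single (Sum.inr j) 1 : JL L' ⊕ JL M' → DualNumber k)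
          (Sum.inl i')) = 0 := by
        funext i'
        rw [Pi.single_eq_of_ne (by simp)]
        rfl
      rw [h3, map_zero, map_zero, map_zero]
      rfl
  · rw [crdL_jin2, ← vmap_comp, jin2_tmap, vmap_comp, h2]
    rcases j with j | j
    · rw [Matrix.fromBlocks_apply₂₁, Matrix.zero_apply]
      have h3 : (fun i' => (Pi.single (Sum.inl j) 1 : JL L' ⊕ JL M' → DualNumber k)
          (Sum.inr i')) = 0 := by
        funext i'
        rw [Pi.single_eq_of_ne (by simp)]
        rfl
      rw [h3, map_zero, map_zero, map_zero]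
      rfl
    · rw [Matrix.fromBlocks_apply₂₂, VdMat_entry]
      have h3 : (fun i' => (Pi.single (Sum.inr j) 1 : JL L' ⊕ JL M' → DualNumber k)
          (Sum.inr i')) = Pi.single j 1 := by
        funext i'
        by_cases h : i' = j
        · rw [h, Pi.single_eq_same, Pi.single_eq_same]
        · rw [Pi.single_eq_of_ne h, Pi.single_eq_of_ne fun h' => h (Sum.inr_injective h')]
      rw [h3]

end Pool.Agent.MP_d175a7_gt
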