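import Pool.Agent.Lib.MP_d175a7_gt.CyPa
import Pool.Agent.Lib.MP_d175a7_gt.CyPb
import Pool.Agent.Lib.MP_d175a7_gt.VdMat

/-! # The matrices of the elementary operations -/

set_option autoImplicit false
set_option linter.unusedVariables false

namespace Pool.Agent.MP_d175a7_gt

open scoped Topology unitInterval Matrix

variable {R : RSp} {k : Type} [CommRing k] {m r : ℕ} {D : Det R k} {c : Fin m → Fin r → k}

/-- The matrix of the basis in the coordinates of the one element list `[qo s]`. -/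
noncomputable def CycDat.pm (Y : CycDat D m r c) (hm : 2 ≤ m) (s : Fin m → Bool) :
    Matrix (JL [Y.qo hm s]) (Fin m × Fin r) (DualNumber k) :=
  LinearMap.toMatrix' ((crdL D [Y.qo hm s]).toLinearMap ∘ₗ
    (VVsgl D (subM (Y.cyc.sp hm s))).toLinearMap ∘ₗ (Y.bS (Y.cyc.sp hm s)).toLinearMap)

theorem CycDat.pm_mulVec (Y : CycDat D m r c) (hm : 2 ≤ m) (s : Fin m → Bool)
    (w : Fin m × Fin r → DualNumber k) :
    Y.pm hm s *ᵥ w = crdL D [Y.qo hm s]
      (VVsgl D (subM (Y.cyc.sp hm s)) (Y.bS (Y.cyc.sp hm s) w)) := by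
  unfold CycDat.pm
  rw [← Matrix.toLin'_apply, Matrix.toLin'_toMatrix']
  rfl

/-- The matrix is invertible.  Proof: take the matrix of the inverse linear isomorphism
(`LinearMap.toMatrix'_comp` or `mat_inv` as a model). -/
theorem CycDat.pm_inv (Y : CycDat D m r c) (hm : 2 ≤ m) (s : Fin m → Bool) :
    ∃ N : Matrix (Fin m × Fin r) (JL [Y.qo hm s]) (DualNumber k),
      Y.pm hm s * N = 1 ∧ N * Y.pm hm s = 1 := by
  refine ⟨LinearMap.toMatrix' ((Y.bS (Y.cyc.sp hm s)).symm.toLinearMap ∘ₗ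
    (VVsgl D (subM (Y.cyc.sp hm s))).symm.toLinearMap ∘ₗ
      (crdL D [Y.qo hm s]).symm.toLinearMap), ?_, ?_⟩
  · unfold CycDat.pm
    rw [← LinearMap.toMatrix'_comp]
    refine Eq.trans (congrArg LinearMap.toMatrix' (LinearMap.ext fun v => ?_))
      LinearMap.toMatrix'_id
    change crdL D [Y.qo hm s] (VVsgl D (subM (Y.cyc.sp hm s)) (Y.bS (Y.cyc.sp hm s)
      ((Y.bS (Y.cyc.sp hm s)).symm ((VVsgl D (subM (Y.cyc.sp hm s))).symm
        ((crdL D [Y.qo hm s]).symm v))))) = v
    rw [LinearEquiv.apply_symm_apply, LinearEquiv.apply_symm_apply,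
      LinearEquiv.apply_symm_apply]
  · unfold CycDat.pm
    rw [← LinearMap.toMatrix'_comp]
    refine Eq.trans (congrArg LinearMap.toMatrix' (LinearMap.ext fun v => ?_))
      LinearMap.toMatrix'_id
    change (Y.bS (Y.cyc.sp hm s)).symm ((VVsgl D (subM (Y.cyc.sp hm s))).symm
      ((crdL D [Y.qo hm s]).symm (crdL D [Y.qo hm s] (VVsgl D (subM (Y.cyc.sp hm s))
        (Y.bS (Y.cyc.sp hm s) v))))) = v
    rw [LinearEquiv.symm_apply_apply, LinearEquiv.symm_apply_apply,
      LinearEquiv.symm_apply_apply]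

private theorem CyP_entry (Y : CycDat D m r c) (hm : 2 ≤ m) (s : Fin m → Bool)
    (i : Fin (m * r)) (x : Fin m × Fin r) :
    (Y.pm hm s : Matrix (Fin (m * r) ⊕ Empty) (Fin m × Fin r) (DualNumber k)) (Sum.inl i) x =
      (crd D (Y.qo hm s) (Y.bS (Y.cyc.sp hm s) (Pi.single x 1)) :
        Fin (m * r) → DualNumber k) i := by
  have h := congrFun (Y.pm_mulVec hm s (Pi.single x 1)) (Sum.inl i)
  rw [Matrix.mulVec_single_one] at h
  exact h

private theorem CyP_bm (c : Fin m → Fin r → k) : bm c (fun _ => false) = 1 := by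
  funext x y
  change (if x = y then (1 : DualNumber k) else 0) +
    (if x.1 = prv y.1 ∧ x.2 = y.2 ∧ false = true then TrivSqZeroExt.inr (c x.1 x.2) else 0) =
      (1 : Matrix (Fin m × Fin r) (Fin m × Fin r) (DualNumber k)) x y
  have h1 : ¬ (x.1 = prv y.1 ∧ x.2 = y.2 ∧ false = true) :=
    fun h => Bool.false_ne_true h.2.2
  rw [if_neg h1, add_zero, Matrix.one_apply]

private theorem CyP_eq_top (Y : CycDat D m r c) (hm : 2 ≤ m) (s : Fin m → Bool) :
    (Y.pm hm s : Matrix (Fin (m * r) ⊕ Empty) (Fin m × Fin r) (DualNumber k)) =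
      Y.pm hm (fun _ => true) := by
  funext i x
  rcases i with i | i
  · have h : MOk s (fun _ => true) (fun _ => false) :=
      ⟨fun i hi => absurd hi (Bool.false_ne_true ·.symm), fun i hi => absurd hi Bool.false_ne_true⟩
    have h1 := Y.crd_incl hm h (fun _ => rfl)
      (Y.bS (Y.cyc.sp hm (fun _ => true)) (Pi.single x 1))
    rw [Y.vmap_mo_bS hm h, CyP_bm, Matrix.one_mulVec] at h1
    rw [CyP_entry]
    refine Eq.trans ?_ (CyP_entry Y hm (fun _ => true) i x).symm
    exact congrFun h1 i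
  · exact Empty.elim i

/-- The matrix does not depend on the vertex.  Proof: for `s ≤ s'` (all `i` with `s i = true` have
`s' i = true`) apply `crd_incl` and `vmap_mo_bS` for `u = fun _ => false` (`bm c u = 1`):
`crd D (qo s) (bS_s w) = crd D (qo s) (vmap D (mo h) (bS_s' w)) = crd D (qo s') (bS_s' w)`; the
entries of `pm` with row `Sum.inl i` are the coordinates `crd D (qo s) (bS_s (Pi.single x 1)) i`
(`crdL_inl`; `vmap D (inM1 ..)` of `VVsgl` is the identity), there are no other rows.  In general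
compare both vertices with the vertex `fun _ => true`. -/
theorem CycDat.pm_eq (Y : CycDat D m r c) (hm : 2 ≤ m) (s s' : Fin m → Bool) :
    (Y.pm hm s : Matrix (Fin (m * r) ⊕ Empty) (Fin m × Fin r) (DualNumber k)) =
      Y.pm hm s' := by
  exact (CyP_eq_top Y hm s).trans (CyP_eq_top Y hm s').symm

/-- The matrices of the operations.  Proof: apply both sides to `w`: `mat_mulVec`, `pm_mulVec`:
the left side is `crdL D [qo s] (vmap D (sgl (mo h)) (VVsgl D _ (bS_s' w)))` and
`vmap D (sgl (mo h)) (VVsgl D _ f) = VVsgl D _ (vmap D (mo h) f)` (`rfl`); use `vmap_mo_bS`. -/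
theorem CycDat.mat_pm (Y : CycDat D m r c) (hm : 2 ≤ m) {s s' u : Fin m → Bool}
    (h : MOk s s' u) :
    mat D (L := [Y.qo hm s]) (M := [Y.qo hm s'])
      (sgl (a := Y.qo hm s) (b := Y.qo hm s') (Y.cyc.mo hm h)) * Y.pm hm s' =
      Y.pm hm s * bm c u := by
  refine Matrix.ext_of_mulVec_single fun x => ?_
  rw [← Matrix.mulVec_mulVec, ← Matrix.mulVec_mulVec, Y.pm_mulVec, Y.pm_mulVec, mat_mulVec,
    LinearEquiv.symm_apply_apply, ← Y.vmap_mo_bS hm h]
  rfl

end Pool.Agent.MP_d175a7_gt
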