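import Pool.Agent.Lib.MP_d175a7_gt.CyF
import Pool.Agent.Lib.MP_d175a7_gt.DnM

/-! # The elementary operations in the bases -/

set_option autoImplicit false
set_option linter.unusedVariables false

namespace Pool.Agent.MP_d175a7_gt

open scoped Topology unitInterval Matrix

variable {R : RSp} {k : Type} [CommRing k] {m r : ℕ} {D : Det R k} {c : Fin m → Fin r → k}

/-- The matrix `1 + ε ∑ c_(i,j) E_((i,j),(i+1,j))`, the sum over the `i` with `u i = true`. -/
def bm (c : Fin m → Fin r → k) (u : Fin m → Bool) :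
    Matrix (Fin m × Fin r) (Fin m × Fin r) (DualNumber k) := fun x y =>
  (if x = y then 1 else 0) +
    (if x.1 = prv y.1 ∧ x.2 = y.2 ∧ u x.1 = true then TrivSqZeroExt.inr (c x.1 x.2) else 0)

theorem bm_m0 (c : Fin m → Fin r → k) (u : Fin m → Bool) : m0 (bm c u) = 1 := by
  funext x y
  change (((if x = y then (1 : DualNumber k) else 0) +
    (if x.1 = prv y.1 ∧ x.2 = y.2 ∧ u x.1 = true then TrivSqZeroExt.inr (c x.1 x.2) else 0))).fst =
    (1 : Matrix (Fin m × Fin r) (Fin m × Fin r) k) x y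
  rw [Matrix.one_apply, TrivSqZeroExt.fst_add]
  split_ifs <;> simp

theorem bm_m1 (c : Fin m → Fin r → k) (u : Fin m → Bool) (x y : Fin m × Fin r) :
    m1 (bm c u) x y =
      if x.1 = prv y.1 ∧ x.2 = y.2 ∧ u x.1 = true then c x.1 x.2 else 0 := by
  change (((if x = y then (1 : DualNumber k) else 0) +
    (if x.1 = prv y.1 ∧ x.2 = y.2 ∧ u x.1 = true then TrivSqZeroExt.inr (c x.1 x.2) else 0))).snd =
    _
  rw [TrivSqZeroExt.snd_add]
  split_ifs <;> simp

private theorem cyPa_col (c : Fin m → Fin r → k) (u : Fin m → Bool) (a : Fin m) (j : Fin r)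
    (hu : u (prv a) = true) :
    bm c u *ᵥ (Pi.single (a, j) 1 : Fin m × Fin r → DualNumber k) =
      (Pi.single (a, j) 1 : Fin m × Fin r → DualNumber k) +
        (TrivSqZeroExt.inr (c (prv a) j) : DualNumber k) •
          (Pi.single (prv a, j) 1 : Fin m × Fin r → DualNumber k) := by
  rw [Matrix.mulVec_single_one]
  funext x
  rw [Pi.add_apply, Pi.smul_apply, Pi.single_apply, Pi.single_apply]
  change (if x = (a, j) then (1 : DualNumber k) else 0) +
    (if x.1 = prv a ∧ x.2 = j ∧ u x.1 = true then TrivSqZeroExt.inr (c x.1 x.2) else 0) = _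
  congr 1
  by_cases hx : x = (prv a, j)
  · rw [if_pos hx, hx, if_pos ⟨rfl, rfl, hu⟩, smul_eq_mul, mul_one]
  · rw [if_neg hx, if_neg fun h => hx (Prod.ext h.1 h.2.1), smul_zero]

private theorem cyPa_col' (c : Fin m → Fin r → k) (u : Fin m → Bool) (a : Fin m) (j : Fin r)
    (hu : ¬ u (prv a) = true) :
    bm c u *ᵥ (Pi.single (a, j) 1 : Fin m × Fin r → DualNumber k) =
      (Pi.single (a, j) 1 : Fin m × Fin r → DualNumber k) := by
  rw [Matrix.mulVec_single_one]
  funext x
  rw [Pi.single_apply]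
  change (if x = (a, j) then (1 : DualNumber k) else 0) +
    (if x.1 = prv a ∧ x.2 = j ∧ u x.1 = true then TrivSqZeroExt.inr (c x.1 x.2) else 0) = _
  have h0 : ¬ (x.1 = prv a ∧ x.2 = j ∧ u x.1 = true) := fun h => hu (by rw [← h.1]; exact h.2.2)
  rw [if_neg h0, add_zero]

private theorem cyPa_bS (Y : CycDat D m r c) (S : Sp (fun a => (Y.F a).P)) (u : Fin m → Bool)
    (a : Fin m) (j : Fin r) (hu : u (prv a) = true) :
    Y.bS S (bm c u *ᵥ Pi.single (a, j) 1) = vmap D (prj S a) (Y.b a (Pi.single j 1)) +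
      (TrivSqZeroExt.inr (c (prv a) j) : DualNumber k) •
        vmap D (prj S (prv a)) (Y.b (prv a) (Pi.single j 1)) := by
  rw [cyPa_col c u a j hu, map_add, map_smul, CycDat.bS_single, CycDat.bS_single]

private theorem cyPa_bS' (Y : CycDat D m r c) (S : Sp (fun a => (Y.F a).P)) (u : Fin m → Bool)
    (a : Fin m) (j : Fin r) (hu : ¬ u (prv a) = true) :
    Y.bS S (bm c u *ᵥ Pi.single (a, j) 1) = vmap D (prj S a) (Y.b a (Pi.single j 1)) := by
  rw [cyPa_col' c u a j hu, CycDat.bS_single]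

/-- The operations in the bases.  Proof: both sides are linear in `w`; for `w = Pi.single (a, j) 1`
use `bS_single` on both sides: if `u (prv a) = true` the left side is by `vmap_mo_used` and `Y.rel`
`vmap D (prj _ a) (Y.b a (single j 1)) + inr (c (prv a) j) • vmap D (prj _ (prv a)) (Y.b (prv a)
(single j 1))`, and `bm c u *ᵥ Pi.single (a, j) 1 = Pi.single (a, j) 1 + inr (c (prv a) j) •
Pi.single (prv a, j) 1` (column `(a, j)` of `bm`); if not, `vmap_mo_unused`. -/
theorem CycDat.vmap_mo_bS (Y : CycDat D m r c) (hm : 2 ≤ m) {s s' u : Fin m → Bool}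
    (h : MOk s s' u) (w : Fin m × Fin r → DualNumber k) :
    vmap D (Y.cyc.mo hm h) (Y.bS (Y.cyc.sp hm s') w) = Y.bS (Y.cyc.sp hm s) (bm c u *ᵥ w) := by
  have key : (vmap D (Y.cyc.mo hm h)) ∘ₗ (Y.bS (Y.cyc.sp hm s')).toLinearMap =
      (Y.bS (Y.cyc.sp hm s)).toLinearMap ∘ₗ Matrix.mulVecLin (bm c u) := by
    refine LinearMap.pi_ext' fun x => LinearMap.ext_ring ?_
    obtain ⟨a, j⟩ := x
    change vmap D (Y.cyc.mo hm h) (Y.bS (Y.cyc.sp hm s') (Pi.single (a, j) 1)) =
      Y.bS (Y.cyc.sp hm s) (bm c u *ᵥ Pi.single (a, j) 1)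
    refine (congrArg (vmap D (Y.cyc.mo hm h)) (Y.bS_single (Y.cyc.sp hm s') a j)).trans ?_
    by_cases hu : u (prv a) = true
    · refine (vmap_mo_used D Y.cyc hm h a hu (Y.b a (Pi.single j 1))).trans ?_
      refine Eq.trans ?_ (cyPa_bS Y (Y.cyc.sp hm s) u a j hu).symm
      exact congrArg (fun z => vmap D (prj (Y.cyc.sp hm s) a) (Y.b a (Pi.single j 1)) + z)
        ((congrArg (vmap D (prj (Y.cyc.sp hm s) (prv a))) (Y.rel a j)).trans (map_smul _ _ _))
    · refine (vmap_mo_unused D Y.cyc hm h a hu (Y.b a (Pi.single j 1))).trans ?_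
      exact (cyPa_bS' Y (Y.cyc.sp hm s) u a j hu).symm
  exact LinearMap.congr_fun key w

end Pool.Agent.MP_d175a7_gt
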