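import Pool.Agent.Lib.MP_d175a7_gt.Spl
import Pool.Agent.Lib.MP_d175a7_gt.Cat

/-!
# Submodules of products defined by wedge type conditions
-/

set_option autoImplicit false
set_option linter.unusedVariables false

namespace Pool.Agent.MP_d175a7_gt

open scoped Topology unitInterval

variable {R : RSp}

/-- A condition on the points of a product `∏ Z_a` of modules which is stable under multiplication
with independent elements of `R` on the factors, and contains the axes. -/
structure Sp {κ : Type} (Z : κ → MSp R) where
  /-- the condition -/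
  mem : ∀ n, (∀ a, (Z a).X n) → Prop
  act : ∀ (n : ℕ) (A : Ort n) (z : ∀ a, (Z a).X n), mem n z → mem n (fun a => (Z a).act n A (z a))
  smul : ∀ {m n l : ℕ} (h : m + n = l) (r : κ → R.X m) (z : ∀ a, (Z a).X n), mem n z →
    mem l (fun a => (Z a).smul h (r a) (z a))
  mask : ∀ (n : ℕ) (c : κ → Prop) [DecidablePred c] (z : ∀ a, (Z a).X n), mem n z →
    mem n (fun a => if c a then z a else (Z a).pt n)
  axis : ∀ (n : ℕ) (z : ∀ a, (Z a).X n) (a : κ), (∀ b, b ≠ a → z b = (Z b).pt n) → mem n z
  pt : ∀ n : ℕ, mem n (fun a => (Z a).pt n)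

/-- The submodule of the product defined by the condition. -/
def subM {κ : Type} {Z : κ → MSp R} (S : Sp Z) : MSp R where
  X n := {z : ∀ a, (Z a).X n // S.mem n z}
  pt n := ⟨fun a => (Z a).pt n, S.pt n⟩
  closed n := by
    have h : ({⟨fun a => (Z a).pt n, S.pt n⟩} : Set {z : ∀ a, (Z a).X n // S.mem n z}) =
        ⋂ a, {z | z.1 a = (Z a).pt n} := by
      ext z
      simp [Subtype.ext_iff, funext_iff]
    rw [h]
    exact isClosed_iInter fun a => IsClosed.preimage
      (f := fun z : {z : ∀ a, (Z a).X n // S.mem n z} => z.1 a)
      ((continuous_apply a).comp continuous_subtype_val) ((Z a).closed n)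
  act n A z := ⟨fun a => (Z a).act n A (z.1 a), S.act n A z.1 z.2⟩
  act_cont n T _ _ _ g h hg hh := Continuous.subtype_mk (continuous_pi fun a =>
    (Z a).act_cont n T g (fun t => (h t).1 a) hg
      ((continuous_apply a).comp (continuous_subtype_val.comp hh))) _
  act_one n x := Subtype.ext (funext fun a => (Z a).act_one n _)
  act_mul n A B x := Subtype.ext (funext fun a => (Z a).act_mul n _ _ _)
  act_pt n A := Subtype.ext (funext fun a => (Z a).act_pt n _)
  smul h r z := ⟨fun a => (Z a).smul h r (z.1 a), S.smul h (fun _ => r) z.1 z.2⟩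
  smul_cont h T _ _ _ g f hg hf := Continuous.subtype_mk (continuous_pi fun a =>
    (Z a).smul_cont h T g (fun t => (f t).1 a) hg
      ((continuous_apply a).comp (continuous_subtype_val.comp hf))) _
  smul_pt h r := Subtype.ext (funext fun a => (Z a).smul_pt h _)
  pt_smul h y := Subtype.ext (funext fun a => (Z a).pt_smul h _)
  smul_assoc h₁ h₂ h₃ h₄ x y z := Subtype.ext (funext fun a => (Z a).smul_assoc h₁ h₂ h₃ h₄ _ _ _)
  smul_act h A B x y := Subtype.ext (funext fun a => (Z a).smul_act h _ _ _ _)
  one_smul h x := Subtype.ext (funext fun a => (Z a).one_smul h _)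

/-- The full product. -/
def spT {κ : Type} (Z : κ → MSp R) : Sp Z where
  mem _ _ := True
  act _ _ _ _ := trivial
  smul _ _ _ _ := trivial
  mask _ _ _ _ _ := trivial
  axis _ _ _ _ := trivial
  pt _ := trivial

variable {κ : Type} {Z : κ → MSp R}

/-- The coordinates. -/
def prj (S : Sp Z) (a : κ) : MHom (subM S) (Z a) where
  f n z := z.1 a
  cont n T _ _ _ g hg := (continuous_apply a).comp (continuous_subtype_val.comp hg)
  pt n := rfl
  act n A x := rfl
  smul h r x := rfl

/-- The map which keeps the coordinates in `c` and replaces the others by the base point. -/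
noncomputable def keep (S : Sp Z) (c : κ → Prop) [DecidablePred c] : MHom (subM S) (subM S) where
  f n z := ⟨fun a => if c a then z.1 a else (Z a).pt n, S.mask n c z.1 z.2⟩
  cont n T _ _ _ g hg := Continuous.subtype_mk (continuous_pi fun a => by
    by_cases h : c a
    · simp only [h, if_true]
      exact (continuous_apply a).comp (continuous_subtype_val.comp hg)
    · simp only [h, if_false]; exact continuous_const) _
  pt n := Subtype.ext (funext fun a => by
    change (if c a then (Z a).pt n else (Z a).pt n) = (Z a).pt n
    split_ifs <;> rfl)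
  act n A x := Subtype.ext (funext fun a => by
    change (if c a then (Z a).act n A (x.1 a) else (Z a).pt n) =
      (Z a).act n A (if c a then x.1 a else (Z a).pt n)
    split_ifs
    · rfl
    · exact ((Z a).act_pt n A).symm)
  smul {m n l} h r x := Subtype.ext (funext fun a => by
    change (if c a then (Z a).smul h r (x.1 a) else (Z a).pt l) =
      (Z a).smul h r (if c a then x.1 a else (Z a).pt n)
    split_ifs
    · rfl
    · exact ((Z a).smul_pt h r).symm)

open scoped Classical in
/-- The inclusion of an axis. -/
noncomputable def inj (S : Sp Z) (a : κ) : MHom (Z a) (subM S) where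
  f n x := ⟨fun b => if h : b = a then h ▸ x else (Z b).pt n, S.axis n _ a fun b hb => by
    rw [dif_neg hb]⟩
  cont n T _ _ _ g hg := Continuous.subtype_mk (continuous_pi fun b => by
    by_cases h : b = a
    · subst h
      simp only [dif_pos]
      exact hg
    · simp only [h, dif_neg, not_false_eq_true]
      exact continuous_const) _
  pt n := Subtype.ext (funext fun b => by
    by_cases h : b = a
    · subst h
      change (if h : b = b then h ▸ (Z b).pt n else (Z b).pt n) = (Z b).pt n
      rw [dif_pos rfl]
    · change (if h : b = a then h ▸ (Z a).pt n else (Z b).pt n) = (Z b).pt n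
      rw [dif_neg h])
  act n A x := Subtype.ext (funext fun b => by
    by_cases h : b = a
    · subst h
      change (if h : b = b then h ▸ (Z b).act n A x else (Z b).pt n) =
        (Z b).act n A (if h : b = b then h ▸ x else (Z b).pt n)
      rw [dif_pos rfl, dif_pos rfl]
    · change (if h : b = a then h ▸ (Z a).act n A x else (Z b).pt n) =
        (Z b).act n A (if h : b = a then h ▸ x else (Z b).pt n)
      rw [dif_neg h, dif_neg h, (Z b).act_pt])
  smul {m n l} hh r x := Subtype.ext (funext fun b => by
    by_cases h : b = a
    · subst h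
      change (if h : b = b then h ▸ (Z b).smul hh r x else (Z b).pt l) =
        (Z b).smul hh r (if h : b = b then h ▸ x else (Z b).pt n)
      rw [dif_pos rfl, dif_pos rfl]
    · change (if h : b = a then h ▸ (Z a).smul hh r x else (Z b).pt l) =
        (Z b).smul hh r (if h : b = a then h ▸ x else (Z b).pt n)
      rw [dif_neg h, dif_neg h, (Z b).smul_pt])

theorem prj_inj_self (S : Sp Z) (a : κ) (n : ℕ) (x : (Z a).X n) :
    (prj S a).f n ((inj S a).f n x) = x := dif_pos rfl

theorem prj_inj_ne (S : Sp Z) {a b : κ} (h : b ≠ a) (n : ℕ) (x : (Z a).X n) :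
    (prj S b).f n ((inj S a).f n x) = (Z b).pt n := dif_neg h

/-- Splitting with respect to a set of coordinates: the coordinates in `c` are suspended with the
second, the others with the first suspension coordinate. -/
noncomputable def splC (S : Sp Z) (c : κ → Prop) [DecidablePred c] : Splt (subM S).seq where
  u := (keep S (fun a => ¬ c a)).sh
  v := (keep S c).sh
  S n t t' z := ⟨fun a => (Z a).smul (Nat.add_comm 1 n)
      (R.unit 1 (lam (if c a then t' else t))) (z.1 a),
    S.smul (Nat.add_comm 1 n) (fun a => R.unit 1 (lam (if c a then t' else t))) z.1 z.2⟩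
  cont n T _ _ _ g h x hg hh hx := Continuous.subtype_mk (continuous_pi fun a => by
    have hxa : Continuous fun t => (x t).1 a :=
      (continuous_apply a).comp (continuous_subtype_val.comp hx)
    by_cases hc : c a
    · simp only [hc, if_true]
      exact (Z a).seq.sus_cont n T h (fun t => (x t).1 a) hh hxa
    · simp only [hc, if_false]
      exact (Z a).seq.sus_cont n T g (fun t => (x t).1 a) hg hxa) _
  diag n t x := Subtype.ext (funext fun a => by
    change (Z a).smul (Nat.add_comm 1 n) (R.unit 1 (lam (if c a then t else t))) (x.1 a) =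
      (Z a).smul (Nat.add_comm 1 n) (R.unit 1 (lam t)) (x.1 a)
    rw [ite_self])
  r0 n t x := Subtype.ext (funext fun a => by
    change (Z a).smul (Nat.add_comm 1 n) (R.unit 1 (lam (if c a then 0 else t))) (x.1 a) =
      (Z a).smul (Nat.add_comm 1 n) (R.unit 1 (lam t)) (if ¬ c a then x.1 a else (Z a).pt n)
    by_cases hc : c a
    · rw [if_pos hc, if_neg (not_not.2 hc), lam_zero, R.unit_pt, (Z a).pt_smul, (Z a).smul_pt]
    · rw [if_neg hc, if_pos hc])
  l1 n t x := Subtype.ext (funext fun a => by
    change (Z a).smul (Nat.add_comm 1 n) (R.unit 1 (lam (if c a then t else 1))) (x.1 a) =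
      (Z a).smul (Nat.add_comm 1 n) (R.unit 1 (lam t)) (if c a then x.1 a else (Z a).pt n)
    by_cases hc : c a
    · rw [if_pos hc, if_pos hc]
    · rw [if_neg hc, if_neg hc, lam_one, R.unit_pt, (Z a).pt_smul, (Z a).smul_pt])
  base n t t' := Subtype.ext (funext fun a => (Z a).smul_pt _ _)

end Pool.Agent.MP_d175a7_gt
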