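import Pool.Agent.Lib.MP_d175a7_gt.Det
import Pool.Agent.Lib.MP_d175a7_gt.SubM

/-! # Values on split loops -/

set_option autoImplicit false
set_option linter.unusedVariables false

namespace Pool.Agent.MP_d175a7_gt

open scoped Topology unitInterval

variable {R : RSp} {k : Type} [CommRing k]

/-- The value on a split loop.  Proof: `vev f x = vev f (st x)`, `Splt.st_split`, `vev_hty`,
`vev_transAt`, `vev_st`. -/
theorem vev_split {D : Det R k} {P : MSp R} (E : Splt P.seq) (f : VV D P) {a : ℕ}
    (x : Lp P.seq a a) : vev f x = vev f (E.u.lp x) + vev f (E.v.lp x) := by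
  rw [← vev_st f x, vev_hty f (E.st_split x), vev_transAt, vev_st, vev_st]

/-- The value on a constant loop is zero.  Proof: `vev_st` and `st (cstLp ..) = cstLp ..`
(`Subtype.ext`, `P.seq.sus_pt`); `vev f (transAt 0 cst cst) = vev f cst` (`transAt_cst`). -/
theorem vev_cst {D : Det R k} {P : MSp R} (f : VV D P) (a : ℕ) :
    vev f (cstLp P.seq a a) = 0 := by
  have h0 : st (cstLp P.seq a a) = cstLp P.seq (a + 1) (a + 1) := by
    apply Subtype.ext
    apply ContinuousMap.ext
    intro t
    exact P.seq.sus_pt a (t 0)
  have h1 := vev_st f (cstLp P.seq a a)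
  rw [h0] at h1
  have h2 := vev_transAt f (cstLp P.seq (a + 1) (a + 1)) (cstLp P.seq (a + 1) (a + 1))
  rw [vev_hty f (transAt_cst (cstLp P.seq (a + 1) (a + 1)))] at h2
  rw [← h1]
  exact left_eq_add.1 h2

/-- A loop all whose values are the base point. -/
theorem vev_pt {D : Det R k} {P : MSp R} (f : VV D P) {a : ℕ} (x : Lp P.seq a a)
    (h : ∀ t, x.1 t = P.pt a) : vev f x = 0 := by
  rw [show x = cstLp P.seq a a from Subtype.ext (ContinuousMap.ext h)]
  exact vev_cst f a

/-- The value of an element of `VV` on a loop in a submodule of a product is the sum of the values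
on its coordinates.  Proof: by induction on a finite set `T` show
`vev f ((keep S (· ∈ T)).sh.lp x) = ∑ a ∈ T, vev f ((inj S a).sh.lp ((prj S a).sh.lp x))`:
for `T = ∅` use `vev_pt`; for `insert a T` apply `vev_split (splC S (· = a))` to the loop
`(keep S (· ∈ insert a T)).sh.lp x`; its `u`-part is `(keep S (· ∈ T)).sh.lp x` and its `v`-part is
`(inj S a).sh.lp ((prj S a).sh.lp x)` (pointwise, by cases `b = a`).  For `T = univ` the map `keep`
is the identity. -/
theorem vev_sum {D : Det R k} {κ : Type} [Fintype κ] {Z : κ → MSp R} (S : Sp Z)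
    (f : VV D (subM S)) {a : ℕ} (x : Lp (subM S).seq a a) :
    vev f x = ∑ i, vev f ((inj S i).sh.lp ((prj S i).sh.lp x)) := by
  classical
  have key : ∀ T : Finset κ, vev f ((keep S (fun b => b ∈ T)).sh.lp x) =
      ∑ i ∈ T, vev f ((inj S i).sh.lp ((prj S i).sh.lp x)) := by
    intro T
    induction T using Finset.induction_on with
    | empty =>
      rw [Finset.sum_empty]
      refine vev_pt f _ fun t => ?_
      apply Subtype.ext
      funext b
      change (if b ∈ (∅ : Finset κ) then (x.1 t).1 b else (Z b).pt a) = (Z b).pt a
      rw [if_neg (Finset.notMem_empty b)]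
    | insert i T hi ih =>
      rw [Finset.sum_insert hi, ← ih,
        vev_split (splC S (fun b => b = i)) f ((keep S (fun b => b ∈ insert i T)).sh.lp x)]
      have h1 : (splC S (fun b => b = i)).u.lp ((keep S (fun b => b ∈ insert i T)).sh.lp x) =
          (keep S (fun b => b ∈ T)).sh.lp x := by
        apply Subtype.ext
        apply ContinuousMap.ext
        intro t
        apply Subtype.ext
        funext b
        change (if ¬ b = i then (if b ∈ insert i T then (x.1 t).1 b else (Z b).pt a)
          else (Z b).pt a) = if b ∈ T then (x.1 t).1 b else (Z b).pt a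
        by_cases hb : b = i
        · subst hb
          rw [if_neg (not_not.2 rfl), if_neg hi]
        · rw [if_pos hb]
          by_cases hbT : b ∈ T
          · rw [if_pos hbT, if_pos (Finset.mem_insert_of_mem hbT)]
          · rw [if_neg hbT, if_neg (fun h => (Finset.mem_insert.1 h).elim hb hbT)]
      have h2 : (splC S (fun b => b = i)).v.lp ((keep S (fun b => b ∈ insert i T)).sh.lp x) =
          (inj S i).sh.lp ((prj S i).sh.lp x) := by
        apply Subtype.ext
        apply ContinuousMap.ext
        intro t
        apply Subtype.ext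
        funext b
        by_cases hb : b = i
        · subst hb
          change (if b = b then (if b ∈ insert b T then (x.1 t).1 b else (Z b).pt a)
            else (Z b).pt a) = if h : b = b then h ▸ ((x.1 t).1 b) else (Z b).pt a
          rw [if_pos rfl, if_pos (Finset.mem_insert_self b T), dif_pos rfl]
        · change (if b = i then (if b ∈ insert i T then (x.1 t).1 b else (Z b).pt a)
            else (Z b).pt a) = if h : b = i then h ▸ ((x.1 t).1 i) else (Z b).pt a
          rw [if_neg hb, dif_neg hb]
      rw [h1, h2, add_comm]
  have h3 := key Finset.univ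
  have h4 : (keep S (fun b => b ∈ (Finset.univ : Finset κ))).sh.lp x = x := by
    apply Subtype.ext
    apply ContinuousMap.ext
    intro t
    apply Subtype.ext
    funext b
    exact if_pos (Finset.mem_univ b)
  rw [h4] at h3
  exact h3

/-- The isomorphism `VV D (sub ∏ Z_a) ≃ ∏ VV D (Z_a)`, by restriction to the axes. -/
noncomputable def VVsub (D : Det R k) {κ : Type} [Fintype κ] {Z : κ → MSp R} (S : Sp Z) :
    VV D (subM S) ≃ₗ[DualNumber k] (∀ i, VV D (Z i)) where
  toFun f := fun i => vmap D (inj S i) f
  map_add' f g := rfl
  map_smul' c f := rfl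
  invFun g := ∑ i, vmap D (prj S i) (g i)
  left_inv f := by
    apply VV_ext
    intro a x
    rw [vev_sum S f x]
    have h : ∀ (T : Finset κ) (g : κ → VV D (subM S)), vev (∑ i ∈ T, g i) x =
        ∑ i ∈ T, vev (g i) x := by
      intro T g
      classical
      induction T using Finset.induction_on with
      | empty => rfl
      | insert i T hi ih => rw [Finset.sum_insert hi, Finset.sum_insert hi, vev_add, ih]
    rw [h]
    rfl
  right_inv g := by
    funext i
    apply VV_ext
    intro a x
    have h : ∀ (T : Finset κ) (g : κ → VV D (subM S)) (y : Lp (subM S).seq a a),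
        vev (∑ i ∈ T, g i) y = ∑ i ∈ T, vev (g i) y := by
      intro T g y
      classical
      induction T using Finset.induction_on with
      | empty => rfl
      | insert i T hi ih => rw [Finset.sum_insert hi, Finset.sum_insert hi, vev_add, ih]
    rw [vev_vmap, h, Finset.sum_eq_single i]
    · rw [vev_vmap]
      congr 1
      apply Subtype.ext
      apply ContinuousMap.ext
      intro t
      exact prj_inj_self S i a (x.1 t)
    · intro b _ hb
      rw [vev_vmap]
      exact vev_pt _ _ fun t => prj_inj_ne S hb a (x.1 t)
    · intro hi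
      exact absurd (Finset.mem_univ i) hi

theorem VVsub_apply (D : Det R k) {κ : Type} [Fintype κ] {Z : κ → MSp R} (S : Sp Z)
    (f : VV D (subM S)) (i : κ) : VVsub D S f i = vmap D (inj S i) f := rfl

end Pool.Agent.MP_d175a7_gt
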