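import Pool.Agent.Lib.MP_d175a7_gt.CyW
import Pool.Agent.Lib.MP_d175a7_gt.VdSpl

/-! # The effect of the elementary operations on `VV` -/

set_option autoImplicit false
set_option linter.unusedVariables false

namespace Pool.Agent.MP_d175a7_gt

open scoped Topology unitInterval

variable {R : RSp} {k : Type} [CommRing k] {m : ℕ}

/-- Proof: on a loop `x`, `vev f (prj a (M x)) = vev f (st (prj a (M x)))`, `mo_used`, `vev_hty`,
`vev_transAt`, `vev_st`. -/
theorem vmap_mo_used (D : Det R k) (Y : CycM R m) (hm : 2 ≤ m) {s s' u : Fin m → Bool}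
    (h : MOk s s' u) (a : Fin m) (ha : u (prv a) = true) (f : VV D (Y.Z a)) :
    vmap D (Y.mo hm h) (vmap D (prj (Y.sp hm s') a) f) =
      vmap D (prj (Y.sp hm s) a) f +
        vmap D (prj (Y.sp hm s) (prv a)) (vmap D (Y.al a) f) := by
  apply VV_ext
  intro b x
  change vev f ((prj (Y.sp hm s') a).sh.lp ((Y.mo hm h).sh.lp x)) =
    vev f ((prj (Y.sp hm s) a).sh.lp x) +
      vev f ((Y.al a).sh.lp ((prj (Y.sp hm s) (prv a)).sh.lp x))
  have h1 := vev_hty f (mo_used Y hm h x a ha)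
  rw [vev_st] at h1
  rw [h1, vev_transAt, vev_st, vev_st]

theorem vmap_mo_unused (D : Det R k) (Y : CycM R m) (hm : 2 ≤ m) {s s' u : Fin m → Bool}
    (h : MOk s s' u) (a : Fin m) (ha : ¬ u (prv a) = true) (f : VV D (Y.Z a)) :
    vmap D (Y.mo hm h) (vmap D (prj (Y.sp hm s') a) f) = vmap D (prj (Y.sp hm s) a) f := by
  apply VV_ext
  intro b x
  change vev f ((prj (Y.sp hm s') a).sh.lp ((Y.mo hm h).sh.lp x)) =
    vev f ((prj (Y.sp hm s) a).sh.lp x)
  rw [mo_unused Y hm h x a ha]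

end Pool.Agent.MP_d175a7_gt
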