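import Pool.Agent.Lib.MP_d175a7_gt.HomA

/-! # Concatenation of loops -/

set_option autoImplicit false
set_option linter.unusedVariables false

namespace Pool.Agent.MP_d175a7_gt

open scoped Topology unitInterval

private theorem tA_apply {P : Seq} {a n : ℕ} (i : Fin a) (x y : Lp P a n) (t : Fin a → I) :
    (GenLoop.transAt i x y).1 t = if (t i : ℝ) ≤ 1 / 2
      then x.1 (Function.update t i <| Set.projIcc 0 1 zero_le_one (2 * t i))
      else y.1 (Function.update t i <| Set.projIcc 0 1 zero_le_one (2 * t i - 1)) := rfl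

private theorem lp_app {P Q : Seq} (f : SHom P Q) {a n : ℕ} (x : Lp P a n) (t : Fin a → I) :
    (f.lp x).1 t = f.f n (x.1 t) := rfl

private theorem st_app {P : Seq} {a n : ℕ} (x : Lp P a n) (t : Fin (a + 1) → I) :
    (st x).1 t = P.sus n (t 0) (x.1 (fun i => t i.succ)) := rfl

private def cls {P : Seq} {a n : ℕ} (x : Lp P (a + 1) n) :
    HomotopyGroup (Fin (a + 1)) (P.X n) (P.pt n) :=
  Quotient.mk (GenLoop.Homotopic.setoid (Fin (a + 1)) (P.pt n)) x

private theorem cls_eq {P : Seq} {a n : ℕ} {x y : Lp P (a + 1) n}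
    (h : GenLoop.Homotopic x y) : cls x = cls y :=
  Quotient.sound (s := GenLoop.Homotopic.setoid (Fin (a + 1)) (P.pt n)) h

private theorem of_cls {P : Seq} {a n : ℕ} {x y : Lp P (a + 1) n}
    (h : cls x = cls y) : GenLoop.Homotopic x y :=
  Quotient.exact (s := GenLoop.Homotopic.setoid (Fin (a + 1)) (P.pt n)) h

private theorem mk_tA {P : Seq} {a n : ℕ} (x y : Lp P (a + 1) n) :
    cls (GenLoop.transAt 0 x y) = cls y * cls x :=
  (HomotopyGroup.mul_spec (i := 0) (p := y) (q := x)).symm

/-- Maps commute with concatenation. -/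
theorem lp_transAt {P Q : Seq} (f : SHom P Q) {a n : ℕ} (x y : Lp P (a + 1) n) :
    f.lp (GenLoop.transAt 0 x y) = GenLoop.transAt 0 (f.lp x) (f.lp y) := by
  apply Subtype.ext
  apply ContinuousMap.ext
  intro t
  rw [lp_app, tA_apply, tA_apply, lp_app, lp_app]
  split_ifs <;> rfl

/-- Concatenation respects homotopies.  Proof: `GenLoop.Homotopic` is equality in
`HomotopyGroup`, `HomotopyGroup.transAt`, or glue the homotopies by `transAt_left`,
`transAt_right`. -/
theorem transAt_homotopic {P : Seq} {a n : ℕ} {x x' y y' : Lp P (a + 1) n}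
    (hx : GenLoop.Homotopic x x') (hy : GenLoop.Homotopic y y') :
    GenLoop.Homotopic (GenLoop.transAt 0 x y) (GenLoop.transAt 0 x' y') := by
  refine of_cls ?_
  rw [mk_tA, mk_tA, cls_eq hx, cls_eq hy]

/-- Cancellation: `x * y ~ x' * y'` and `x ~ x'` imply `y ~ y'`.  Proof: in the group
`HomotopyGroup (Fin (a+1))`, `HomotopyGroup.mul_spec`. -/
theorem transAt_cancel {P : Seq} {a n : ℕ} {x x' y y' : Lp P (a + 1) n}
    (h : GenLoop.Homotopic (GenLoop.transAt 0 x y) (GenLoop.transAt 0 x' y'))
    (hx : GenLoop.Homotopic x x') : GenLoop.Homotopic y y' := by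
  have h3 := cls_eq h
  rw [mk_tA, mk_tA, cls_eq hx] at h3
  exact of_cls (mul_right_cancel h3)

/-- Solvability: for all `x, z` there is `y` with `x * y ~ z`.  (Same group.) -/
theorem exists_transAt {P : Seq} {a n : ℕ} (x z : Lp P (a + 1) n) :
    ∃ y : Lp P (a + 1) n, GenLoop.Homotopic (GenLoop.transAt 0 x y) z := by
  obtain ⟨y, hy⟩ := Quotient.exists_rep (cls z * (cls x)⁻¹)
  refine ⟨y, of_cls ?_⟩
  have h4 : cls y = cls z * (cls x)⁻¹ := hy
  rw [mk_tA, h4, inv_mul_cancel_right]

private theorem mk_cst (P : Seq) (a n : ℕ) : cls (cstLp P (a + 1) n) = 1 := rfl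

theorem transAt_cst {P : Seq} {a n : ℕ} (x : Lp P (a + 1) n) :
    GenLoop.Homotopic (GenLoop.transAt 0 x (cstLp P (a + 1) n)) x := by
  refine of_cls ?_
  rw [mk_tA, mk_cst, one_mul]

theorem cst_transAt {P : Seq} {a n : ℕ} (x : Lp P (a + 1) n) :
    GenLoop.Homotopic (GenLoop.transAt 0 (cstLp P (a + 1) n) x) x := by
  refine of_cls ?_
  rw [mk_tA, mk_cst, mul_one]

/-- Suspension respects the group structure: `st (x * y) ~ st x * st y`.  Proof:
`st (transAt 0 x y) = transAt 1 (st x) (st y)` (the new coordinate is the coordinate `0`,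
compute pointwise with the formula of `GenLoop.transAt`), and concatenations at different
coordinates are homotopic (`HomotopyGroup.mul_spec` for the indices `0` and `1`, or
`HomotopyGroup.transAt_indep`). -/
theorem st_transAt {P : Seq} {a n : ℕ} (x y : Lp P (a + 1) n) :
    GenLoop.Homotopic (st (GenLoop.transAt 0 x y)) (GenLoop.transAt 0 (st x) (st y)) := by
  have hup : ∀ (t : Fin (a + 1 + 1) → I) (v : I),
      (fun i : Fin (a + 1) => Function.update t 1 v i.succ) =
        Function.update (fun i : Fin (a + 1) => t i.succ) 0 v := by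
    intro t v
    funext i
    by_cases hi : i = 0
    · subst hi
      rw [Function.update_self]
      exact Function.update_self (1 : Fin (a + 1 + 1)) v t
    · rw [Function.update_of_ne hi, Function.update_of_ne]
      intro h
      exact hi (Fin.succ_injective _ h)
  have h1 : st (GenLoop.transAt 0 x y) = GenLoop.transAt 1 (st x) (st y) := by
    apply Subtype.ext
    apply ContinuousMap.ext
    intro t
    have h01 : (0 : Fin (a + 1 + 1)) ≠ 1 := by
      intro h
      exact absurd (congrArg Fin.val h) (by simp)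
    rw [st_app, tA_apply, tA_apply, st_app, st_app, hup, hup, Function.update_of_ne h01,
      Function.update_of_ne h01]
    have h2 : (Fin.succ (0 : Fin (a + 1)) : Fin (a + 1 + 1)) = 1 := rfl
    rw [h2]
    split_ifs <;> rfl
  rw [h1]
  exact of_cls (HomotopyGroup.transAt_indep (0 : Fin (a + 1 + 1)) (st x) (st y))

end Pool.Agent.MP_d175a7_gt
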