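import Pool.Agent.Lib.MP_d175a7_gt.Sq
import Pool.Agent.Lib.MP_d175a7_gt.HomB

/-! # The sum of two loops which are pointwise in the wedge -/

set_option autoImplicit false
set_option linter.unusedVariables false

namespace Pool.Agent.MP_d175a7_gt

open scoped Topology unitInterval

/-- If at every point `x` or `y` is the base point, the pointwise sum of `x` and `y` is, after one
suspension, homotopic to their concatenation. -/
theorem st_fold_gen {X : Seq} {a n : ℕ} (x y z : Lp X a n)
    (h : ∀ t, x.1 t = X.pt n ∨ y.1 t = X.pt n)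
    (hz : ∀ t, z.1 t = fold (X.pt n) (x.1 t) (y.1 t)) :
    GenLoop.Homotopic (st z) (GenLoop.transAt 0 (st x) (st y)) := by
  have hcx : Continuous fun q : I × (Fin (a + 1) → I) =>
      X.sus n (uu q.1 (q.2 0)) (x.1 (fun i => q.2 i.succ)) := by
    refine X.sus_cont n (I × (Fin (a + 1) → I)) (fun q => uu q.1 (q.2 0))
      (fun q => x.1 (fun i => q.2 i.succ)) ?_ ?_
    · exact uu_cont.comp (continuous_fst.prodMk ((continuous_apply 0).comp continuous_snd))
    · exact x.1.continuous.comp (continuous_pi fun i =>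
        (continuous_apply i.succ).comp continuous_snd)
  have hcy : Continuous fun q : I × (Fin (a + 1) → I) =>
      X.sus n (vv q.1 (q.2 0)) (y.1 (fun i => q.2 i.succ)) := by
    refine X.sus_cont n (I × (Fin (a + 1) → I)) (fun q => vv q.1 (q.2 0))
      (fun q => y.1 (fun i => q.2 i.succ)) ?_ ?_
    · exact vv_cont.comp (continuous_fst.prodMk ((continuous_apply 0).comp continuous_snd))
    · exact y.1.continuous.comp (continuous_pi fun i =>
        (continuous_apply i.succ).comp continuous_snd)
  refine homotopic_of (fun s t => fold (X.pt (n + 1)) (X.sus n (uu s (t 0)) (x.1 (fun i => t i.succ)))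
    (X.sus n (vv s (t 0)) (y.1 (fun i => t i.succ)))) ?_ ?_ ?_ ?_
  · refine fold_cont (X.closed (n + 1)) hcx hcy ?_
    intro q
    rcases h (fun i => q.2 i.succ) with h | h
    · left; rw [h, X.sus_pt]
    · right; rw [h, X.sus_pt]
  · intro t
    change fold (X.pt (n + 1)) (X.sus n (uu 0 (t 0)) (x.1 (fun i => t i.succ)))
      (X.sus n (vv 0 (t 0)) (y.1 (fun i => t i.succ))) = X.sus n (t 0) (z.1 (fun i => t i.succ))
    rw [uu_zero, vv_zero, hz, fold_map (X.sus n (t 0)) (h _), X.sus_pt]
  · intro t
    rcases le_total (t 0 : ℝ) (1 / 2) with ht | ht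
    · rw [transAt_left _ _ t ht]
      have h0 : vv 1 (t 0) = 0 := by
        apply Subtype.ext
        change max ((1 + (1 : ℝ)) * (t 0 : ℝ) - 1) 0 = 0
        exact max_eq_right (by linarith)
      change fold (X.pt (n + 1)) (X.sus n (uu 1 (t 0)) (x.1 (fun i => t i.succ)))
        (X.sus n (vv 1 (t 0)) (y.1 (fun i => t i.succ))) =
        X.sus n (Function.update t 0 (uu 1 (t 0)) 0)
          (x.1 (fun i => Function.update t 0 (uu 1 (t 0)) i.succ))
      rw [h0, X.sus_zero, fold_right, Function.update_self]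
      congr 2
    · rw [transAt_right _ _ t ht]
      have h0 : uu 1 (t 0) = 1 := by
        apply Subtype.ext
        change min ((1 + (1 : ℝ)) * (t 0 : ℝ)) 1 = 1
        exact min_eq_right (by linarith)
      change fold (X.pt (n + 1)) (X.sus n (uu 1 (t 0)) (x.1 (fun i => t i.succ)))
        (X.sus n (vv 1 (t 0)) (y.1 (fun i => t i.succ))) =
        X.sus n (Function.update t 0 (vv 1 (t 0)) 0)
          (y.1 (fun i => Function.update t 0 (vv 1 (t 0)) i.succ))
      rw [h0, X.sus_one, fold_left, Function.update_self]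
      congr 2
  · rintro s t ⟨i, hi⟩
    rcases Fin.eq_zero_or_eq_succ i with rfl | ⟨j, rfl⟩
    · rcases hi with hi | hi
      · rw [hi, uu_left, vv_left, X.sus_zero, X.sus_zero, fold_right]
      · rw [hi, uu_right, vv_right, X.sus_one, X.sus_one, fold_right]
    · have h1 : x.1 (fun i => t i.succ) = X.pt n := x.2 _ ⟨j, hi⟩
      have h2 : y.1 (fun i => t i.succ) = X.pt n := y.2 _ ⟨j, hi⟩
      rw [h1, h2, X.sus_pt, X.sus_pt, fold_right]

end Pool.Agent.MP_d175a7_gt
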