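import Pool.Agent.Lib.MP_d175a7_gt.SubH
import Pool.Agent.Lib.MP_d175a7_gt.WeqB

/-! # Weak equivalences between submodules of products -/

set_option autoImplicit false
set_option linter.unusedVariables false

namespace Pool.Agent.MP_d175a7_gt

open scoped Topology unitInterval

variable {R : RSp} {κ : Type} {Z Z' : κ → MSp R}

private theorem sw_st_heq {P : Seq} {a a' n n' : ℕ} (ha : a = a') (hn : n = n') {x : Lp P a n}
    {x' : Lp P a' n'} (h : HEq x x') : HEq (st x) (st x') := by
  subst ha hn
  rw [eq_of_heq h]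

private theorem sw_stn_st {P : Seq} {a n : ℕ} (x : Lp P a n) (j : ℕ) :
    HEq (stn j (st x)) (st (stn j x)) := by
  induction j with
  | zero => rfl
  | succ j ih =>
    exact sw_st_heq (show a + 1 + j = a + j + 1 by omega) (show n + 1 + j = n + j + 1 by omega)
      ih

private theorem sw_hom {P : Seq} {a a' n n' : ℕ} (ha : a = a') (hn : n = n') {x y : Lp P a n}
    {x' y' : Lp P a' n'} (hx : HEq x x') (hy : HEq y y') (h : GenLoop.Homotopic x' y') :
    GenLoop.Homotopic x y := by
  subst ha hn
  rw [eq_of_heq hx, eq_of_heq hy]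
  exact h

private theorem sw_steq_st {P : Seq} {a n : ℕ} {x y : Lp P a n} (h : StEq x y) :
    StEq (st x) (st y) := by
  obtain ⟨j, hj⟩ := h
  exact ⟨j, sw_hom (by omega) (by omega) (sw_stn_st x j) (sw_stn_st y j) (st_homotopic hj)⟩

private theorem sw_steq_lp {P Q : Seq} (f : SHom P Q) {a n : ℕ} {x y : Lp P a n}
    (h : StEq x y) : StEq (f.lp x) (f.lp y) := by
  obtain ⟨j, hj⟩ := h
  refine ⟨j, ?_⟩
  rw [← f.lp_stn, ← f.lp_stn]
  exact lp_homotopic f hj

private theorem sw_up {P : Seq} {a n : ℕ} {x y : Lp P a n} {i j : ℕ} (hij : i ≤ j)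
    (h : GenLoop.Homotopic (stn i x) (stn i y)) : GenLoop.Homotopic (stn j x) (stn j y) := by
  induction j, hij using Nat.le_induction with
  | base => exact h
  | succ j _ ih => exact st_homotopic ih

private theorem sw_surj_up {P Q : Seq} (f : SHom P Q) {a n : ℕ} {y : Lp Q a n} {i j : ℕ}
    (hij : i ≤ j) (h : ∃ x : Lp P (a + i) (n + i), StEq (f.lp x) (stn i y)) :
    ∃ x : Lp P (a + j) (n + j), StEq (f.lp x) (stn j y) := by
  induction j, hij using Nat.le_induction with
  | base => exact h
  | succ j _ ih =>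
    obtain ⟨x, hx⟩ := ih
    refine ⟨st x, ?_⟩
    rw [f.lp_st]
    exact sw_steq_st hx

/-- Stable homotopy in a submodule of a product is stable homotopy of the coordinates. -/
private theorem sw_coord [Fintype κ] (S : Sp Z) {a n : ℕ} (x y : Lp (subM S).seq a n)
    (h : ∀ i, StEq ((prj S i).sh.lp x) ((prj S i).sh.lp y)) : StEq x y := by
  choose j hj using h
  refine ⟨Finset.univ.sup j + 1, st_sub_coord S _ _ fun i => ?_⟩
  rw [SHom.lp_stn, SHom.lp_stn]
  exact sw_up (Finset.le_sup (Finset.mem_univ i)) (hj i)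

/-- A homomorphism between submodules of products which is given by weak equivalences on the
coordinates is a weak equivalence.  Proof.
Injectivity: let `stn J (F x) ~ stn J (F x')`.  Then for every `i` `StEq ((f i).lp (prj i x))
((f i).lp (prj i x'))`, so `StEq (prj i x) (prj i x')` by the first part of `hf i`; take `L` greater
than all the numbers (finitely many `i`): `stn L (prj i x) ~ stn L (prj i x')` for all `i`, so
`st (stn L x) ~ st (stn L x')` by `st_sub_coord` (`SHom.lp_stn`).
Surjectivity: for a loop `y` choose for every `i` by the second part of `hf i` a number `j` and `x_i`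
with `StEq ((f i).lp x_i) (stn j (prj i y))`, i.e. after some more suspensions homotopic; suspending
further one may take the same number `J` for all `i`: `(f i).lp x_i ~ stn J (prj i y)` with
`x_i : Lp (Z i).seq (a + J) (n + J)` (index bookkeeping as in `WeqB.lean`, lemmas with `HEq`).
`exists_sub` gives `x` with `prj i x ~ st x_i`, so `prj i (F x) = f i (prj i x) ~ st (f i x_i) ~
prj i (stn (J + 1) y)` and `st_sub_coord` gives `st (F x) ~ st (stn (J + 1) y)`. -/
theorem isWeq_sub [Fintype κ] (S : Sp Z) (S' : Sp Z') (F : MHom (subM S) (subM S'))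
    (f : ∀ i, MHom (Z i) (Z' i)) (hf : ∀ i, (f i).IsWeq)
    (h : ∀ i n z, (F.f n z).1 i = (f i).f n (z.1 i)) : F.IsWeq := by
  have e1 : ∀ (i : κ) {a n : ℕ} (z : Lp (subM S).seq a n),
      (prj S' i).sh.lp (F.sh.lp z) = (f i).sh.lp ((prj S i).sh.lp z) := fun i a n z =>
    Subtype.ext (ContinuousMap.ext fun t => h i n (z.1 t))
  refine ⟨fun a n x x' hx => ?_, fun a n y => ?_⟩
  · refine sw_coord S x x' fun i => ?_
    have h1 := sw_steq_lp (prj S' i).sh hx
    rw [e1, e1] at h1
    exact (hf i).1 a n _ _ h1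
  · have h1 : ∀ i, ∃ j, ∃ x : Lp (Z i).seq (a + j) (n + j),
        StEq ((f i).sh.lp x) (stn j ((prj S' i).sh.lp y)) := fun i =>
      (hf i).2 a n ((prj S' i).sh.lp y)
    choose j hj using h1
    have h2 : ∀ i, ∃ x : Lp (Z i).seq (a + Finset.univ.sup j) (n + Finset.univ.sup j),
        StEq ((f i).sh.lp x) (stn (Finset.univ.sup j) ((prj S' i).sh.lp y)) := fun i =>
      sw_surj_up (f i).sh (Finset.le_sup (Finset.mem_univ i)) (hj i)
    choose x hx using h2
    obtain ⟨z, hz⟩ := exists_sub S x
    refine ⟨Finset.univ.sup j + 1, z, sw_coord S' _ _ fun i => ?_⟩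
    have h3 : StEq ((f i).sh.lp ((prj S i).sh.lp z)) ((f i).sh.lp (st (x i))) :=
      ⟨0, lp_homotopic (f i).sh (hz i)⟩
    rw [e1, SHom.lp_stn]
    refine h3.trans ?_
    rw [SHom.lp_st]
    exact sw_steq_st (hx i)

/-- The homomorphism given by homomorphisms on the coordinates. -/
def dia (S : Sp Z) (f : ∀ i, MHom (Z i) (Z' i)) : MHom (subM S) (subM (spT Z')) where
  f n z := ⟨fun i => (f i).f n (z.1 i), trivial⟩
  cont n T _ _ _ g hg := Continuous.subtype_mk (continuous_pi fun i =>
    (f i).cont n T (fun t => (g t).1 i)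
      ((continuous_apply i).comp (continuous_subtype_val.comp hg))) _
  pt n := Subtype.ext (funext fun i => (f i).pt n)
  act n A x := Subtype.ext (funext fun i => (f i).act n A _)
  smul h r x := Subtype.ext (funext fun i => (f i).smul h r _)

theorem dia_isWeq [Fintype κ] (S : Sp Z) (f : ∀ i, MHom (Z i) (Z' i))
    (hf : ∀ i, (f i).IsWeq) : (dia S f).IsWeq :=
  isWeq_sub S (spT Z') (dia S f) f hf (fun i n z => rfl)

end Pool.Agent.MP_d175a7_gt
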