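import Pool.Agent.Lib.MP_d175a7_gt.CyM
import Pool.Agent.Lib.MP_d175a7_gt.SubW
import Pool.Agent.Lib.MP_d175a7_gt.FoldL

/-! # The elementary operations are weak equivalences -/

set_option autoImplicit false
set_option linter.unusedVariables false

namespace Pool.Agent.MP_d175a7_gt

open scoped Topology unitInterval

variable {R : RSp} {m : ℕ}

private def cyW_cls {P : Seq} {a n : ℕ} (x : Lp P (a + 1) n) :
    HomotopyGroup (Fin (a + 1)) (P.X n) (P.pt n) :=
  Quotient.mk (GenLoop.Homotopic.setoid (Fin (a + 1)) (P.pt n)) x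

private theorem cyW_cls_eq {P : Seq} {a n : ℕ} {x y : Lp P (a + 1) n}
    (h : GenLoop.Homotopic x y) : cyW_cls x = cyW_cls y :=
  Quotient.sound (s := GenLoop.Homotopic.setoid (Fin (a + 1)) (P.pt n)) h

private theorem cyW_of_cls {P : Seq} {a n : ℕ} {x y : Lp P (a + 1) n}
    (h : cyW_cls x = cyW_cls y) : GenLoop.Homotopic x y :=
  Quotient.exact (s := GenLoop.Homotopic.setoid (Fin (a + 1)) (P.pt n)) h

private theorem cyW_mk_tA {P : Seq} {a n : ℕ} (x y : Lp P (a + 1) n) :
    cyW_cls (GenLoop.transAt 0 x y) = cyW_cls y * cyW_cls x :=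
  (HomotopyGroup.mul_spec (i := 0) (p := y) (q := x)).symm

/-- Cancellation on the right. -/
private theorem cyW_cancel {P : Seq} {a n : ℕ} {x x' y y' : Lp P (a + 1) n}
    (h : GenLoop.Homotopic (GenLoop.transAt 0 x y) (GenLoop.transAt 0 x' y'))
    (hy : GenLoop.Homotopic y y') : GenLoop.Homotopic x x' := by
  have h3 := cyW_cls_eq h
  rw [cyW_mk_tA, cyW_mk_tA, cyW_cls_eq hy] at h3
  exact cyW_of_cls (mul_left_cancel h3)

/-- Solvability on the right. -/
private theorem cyW_solve {P : Seq} {a n : ℕ} (y z : Lp P (a + 1) n) :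
    ∃ x : Lp P (a + 1) n, GenLoop.Homotopic (GenLoop.transAt 0 x y) z := by
  obtain ⟨x, hx⟩ := Quotient.exists_rep ((cyW_cls y)⁻¹ * cyW_cls z)
  refine ⟨x, cyW_of_cls ?_⟩
  have h4 : cyW_cls x = (cyW_cls y)⁻¹ * cyW_cls z := hx
  rw [cyW_mk_tA, h4, mul_inv_cancel_left]

/-- The coordinates of the operation on loops.  Proof: `st_fold_gen` (in `FoldL.lean`) for the loops
`prj a x` and `al a (prj (a-1) x)` (the wedge condition is the membership condition of the points of
`x`, since `s (a-1) = false` by `h.us`) and `CycM.mo_apply`. -/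
theorem mo_used (Y : CycM R m) (hm : 2 ≤ m) {s s' u : Fin m → Bool} (h : MOk s s' u) {b n : ℕ}
    (x : Lp (subM (Y.sp hm s)).seq b n) (a : Fin m) (ha : u (prv a) = true) :
    GenLoop.Homotopic (st ((prj (Y.sp hm s') a).sh.lp ((Y.mo hm h).sh.lp x)))
      (GenLoop.transAt 0 (st ((prj (Y.sp hm s) a).sh.lp x))
        (st ((Y.al a).sh.lp ((prj (Y.sp hm s) (prv a)).sh.lp x)))) := by
  refine st_fold_gen ((prj (Y.sp hm s) a).sh.lp x)
    ((Y.al a).sh.lp ((prj (Y.sp hm s) (prv a)).sh.lp x)) _ (fun t => ?_) (fun t => ?_)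
  · exact (x.1 t).2 a (h.us _ ha).1
  · change ((Y.mo hm h).f n (x.1 t)).1 a = _
    rw [CycM.mo_apply, if_pos ha]
    rfl

theorem mo_unused (Y : CycM R m) (hm : 2 ≤ m) {s s' u : Fin m → Bool} (h : MOk s s' u) {b n : ℕ}
    (x : Lp (subM (Y.sp hm s)).seq b n) (a : Fin m) (ha : ¬ u (prv a) = true) :
    (prj (Y.sp hm s') a).sh.lp ((Y.mo hm h).sh.lp x) = (prj (Y.sp hm s) a).sh.lp x := by
  apply Subtype.ext
  apply ContinuousMap.ext
  intro t
  change ((Y.mo hm h).f n (x.1 t)).1 a = (x.1 t).1 a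
  rw [CycM.mo_apply, if_neg ha]

theorem mo_al (Y : CycM R m) (hm : 2 ≤ m) {s s' u : Fin m → Bool} (h : MOk s s' u) {b n : ℕ}
    (x : Lp (subM (Y.sp hm s)).seq b n) (a : Fin m) :
    (Y.al a).sh.lp ((prj (Y.sp hm s') (prv a)).sh.lp ((Y.mo hm h).sh.lp x)) =
      (Y.al a).sh.lp ((prj (Y.sp hm s) (prv a)).sh.lp x) := by
  apply Subtype.ext
  apply ContinuousMap.ext
  intro t
  exact Y.al_op hm h (x.1 t).2 a

/-- The operations are injective on stable homotopy.  Proof: let `stn J (M x) ~ stn J (M x')`; put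
`y = stn J x`, `y' = stn J x'` (`SHom.lp_stn`).  All coordinates of `M y`, `M y'` are homotopic
(`lp_homotopic`).  By `mo_al` `al a (prj (a-1) y) ~ al a (prj (a-1) y')` for all `a`.  For an unused
`a` `prj a y ~ prj a y'` (`mo_unused`); for a used `a` by `mo_used` (and `st_homotopic`) the products
`st (prj a y) * st (al ..)` for `y` and `y'` are homotopic, and since
`st (al ..) ~ st (al .. ')`, also `st (prj a y) ~ st (prj a y')` (cancel on the right: in the group
`HomotopyGroup`, or see `transAt_cancel` in `HomB.lean`, which cancels on the left, and its proof).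
So all coordinates of `st y`, `st y'` are homotopic and `st_sub_coord` gives
`st (st y) ~ st (st y')`. -/
theorem mo_inj (Y : CycM R m) (hm : 2 ≤ m) {s s' u : Fin m → Bool} (h : MOk s s' u) (b n : ℕ)
    (x x' : Lp (subM (Y.sp hm s)).seq b n)
    (hx : StEq ((Y.mo hm h).sh.lp x) ((Y.mo hm h).sh.lp x')) : StEq x x' := by
  obtain ⟨J, hJ⟩ := hx
  rw [← SHom.lp_stn, ← SHom.lp_stn] at hJ
  have hal : ∀ a, GenLoop.Homotopic
      ((Y.al a).sh.lp ((prj (Y.sp hm s) (prv a)).sh.lp (stn J x)))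
      ((Y.al a).sh.lp ((prj (Y.sp hm s) (prv a)).sh.lp (stn J x'))) := by
    intro a
    rw [← mo_al Y hm h (stn J x) a, ← mo_al Y hm h (stn J x') a]
    exact lp_homotopic _ (lp_homotopic _ hJ)
  have hco : ∀ a, GenLoop.Homotopic ((prj (Y.sp hm s) a).sh.lp (st (stn J x)))
      ((prj (Y.sp hm s) a).sh.lp (st (stn J x'))) := by
    intro a
    rw [SHom.lp_st, SHom.lp_st]
    have h1 : GenLoop.Homotopic ((prj (Y.sp hm s') a).sh.lp ((Y.mo hm h).sh.lp (stn J x)))
        ((prj (Y.sp hm s') a).sh.lp ((Y.mo hm h).sh.lp (stn J x'))) := lp_homotopic _ hJ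
    by_cases ha : u (prv a) = true
    · refine cyW_cancel ?_ (st_homotopic (hal a))
      exact ((mo_used Y hm h (stn J x) a ha).symm.trans (st_homotopic h1)).trans
        (mo_used Y hm h (stn J x') a ha)
    · rw [mo_unused Y hm h _ a ha, mo_unused Y hm h _ a ha] at h1
      exact st_homotopic h1
  exact ⟨J + 2, st_sub_coord (Y.sp hm s) (st (stn J x)) (st (stn J x')) hco⟩

/-- The operations are surjective on stable homotopy.  Proof: let `y_a` be the coordinates of `y`
and `β_a = al a (y_(a-1))`.  For unused `a` put `x_a = st y_a`; for used `a` choose `x_a` with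
`transAt 0 x_a (st β_a) ~ st y_a` (right solvability in the group `HomotopyGroup`; compare
`exists_transAt`).  Then `al a x_(a-1) ~ st β_a` for all `a`: clear if `a - 1` is unused; if it is
used, apply the map `al a` to `transAt 0 x_(a-1) (st β_(a-1)) ~ st y_(a-1)`: `al a (st β_(a-1))` is the
constant loop (`Y.comp`), so `al a x_(a-1) ~ transAt 0 (al a x_(a-1)) cst ~ st (al a y_(a-1))`
(`lp_transAt`, `transAt_cst`).  `exists_sub` gives `x` with coordinates `~ st x_a`.  Claim: for all `a`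
`st (prj a (M x)) ~ st (stn 2 y_a)`: unused: clear; used: by `mo_used`
`st (prj a (M x)) ~ st (prj a x) * st (al a (prj (a-1) x)) ~ st (st x_a) * st (st (st β_a)) ..`
`~ st (st (x_a * st β_a)) ~ st (st (st y_a))` (`st_transAt` twice).  So by `st_sub_coord`
`st (st (M x)) ~ st (st (stn 2 y))`. -/
theorem mo_surj (Y : CycM R m) (hm : 2 ≤ m) {s s' u : Fin m → Bool} (h : MOk s s' u) (b n : ℕ)
    (y : Lp (subM (Y.sp hm s')).seq b n) :
    ∃ (j : ℕ) (x : Lp (subM (Y.sp hm s)).seq (b + j) (n + j)),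
      StEq ((Y.mo hm h).sh.lp x) (stn j y) := by
  classical
  let yc : ∀ a, Lp (Y.Z a).seq b n := fun a => (prj (Y.sp hm s') a).sh.lp y
  let β : ∀ a, Lp (Y.Z a).seq b n := fun a => (Y.al a).sh.lp (yc (prv a))
  have hex : ∀ a, ∃ w : Lp (Y.Z a).seq (b + 1) (n + 1),
      (u (prv a) = true → GenLoop.Homotopic (GenLoop.transAt 0 w (st (β a))) (st (yc a))) ∧
      (¬ u (prv a) = true → w = st (yc a)) := by
    intro a
    by_cases ha : u (prv a) = true
    · obtain ⟨w, hw⟩ := cyW_solve (st (β a)) (st (yc a))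
      exact ⟨w, fun _ => hw, fun h1 => absurd ha h1⟩
    · exact ⟨st (yc a), fun h1 => absurd h1 ha, fun _ => rfl⟩
  choose xc hx1 hx2 using hex
  have hcst : ∀ a, (Y.al a).sh.lp (st (β (prv a))) = cstLp (Y.Z a).seq (b + 1) (n + 1) := by
    intro a
    rw [SHom.lp_st]
    apply Subtype.ext
    apply ContinuousMap.ext
    intro t
    change (Y.Z a).seq.sus n (t 0) ((Y.al a).f n ((Y.al (prv a)).f n
      ((yc (prv (prv a))).1 (fun i => t i.succ)))) = (Y.Z a).pt (n + 1)
    rw [Y.comp]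
    exact (Y.Z a).seq.sus_pt n (t 0)
  have hal : ∀ a, GenLoop.Homotopic ((Y.al a).sh.lp (xc (prv a))) (st (β a)) := by
    intro a
    have e1 : (Y.al a).sh.lp (st (yc (prv a))) = st (β a) := SHom.lp_st _ _
    by_cases ha : u (prv (prv a)) = true
    · have h1 := lp_homotopic (Y.al a).sh (hx1 (prv a) ha)
      rw [lp_transAt, e1, hcst a] at h1
      exact (transAt_cst _).symm.trans h1
    · rw [hx2 (prv a) ha, e1]
  obtain ⟨w, hw⟩ := exists_sub (Y.sp hm s) xc
  have hco : ∀ a, GenLoop.Homotopic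
      (st ((prj (Y.sp hm s') a).sh.lp ((Y.mo hm h).sh.lp w))) (st (st (st (yc a)))) := by
    intro a
    by_cases ha : u (prv a) = true
    · refine (mo_used Y hm h w a ha).trans ?_
      have h1 : GenLoop.Homotopic (st ((prj (Y.sp hm s) a).sh.lp w)) (st (st (xc a))) :=
        st_homotopic (hw a)
      have h2 : GenLoop.Homotopic (st ((Y.al a).sh.lp ((prj (Y.sp hm s) (prv a)).sh.lp w)))
          (st (st (st (β a)))) := by
        refine st_homotopic ((lp_homotopic _ (hw (prv a))).trans ?_)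
        rw [SHom.lp_st]
        exact st_homotopic (hal a)
      refine (transAt_homotopic h1 h2).trans ?_
      refine (st_transAt (st (xc a)) (st (st (β a)))).symm.trans (st_homotopic ?_)
      exact (st_transAt (xc a) (st (β a))).symm.trans (st_homotopic (hx1 a ha))
    · rw [mo_unused Y hm h w a ha]
      refine st_homotopic ((hw a).trans ?_)
      rw [hx2 a ha]
  have hfin : GenLoop.Homotopic (st (st ((Y.mo hm h).sh.lp w))) (st (st (stn 2 y))) := by
    refine st_sub_coord (Y.sp hm s') (st ((Y.mo hm h).sh.lp w)) (st (stn 2 y)) fun a => ?_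
    rw [SHom.lp_st, SHom.lp_st, SHom.lp_stn]
    exact hco a
  exact ⟨2, w, 2, hfin⟩

theorem CycM.mo_isWeq (Y : CycM R m) (hm : 2 ≤ m) {s s' u : Fin m → Bool} (h : MOk s s' u) :
    (Y.mo hm h).IsWeq := ⟨mo_inj Y hm h, mo_surj Y hm h⟩

end Pool.Agent.MP_d175a7_gt
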