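import Pool.Agent.Lib.MP_d175a7_gt.DRepA

/-! # Representations over the dual numbers: the cocycle identity -/

set_option autoImplicit false
set_option linter.unusedVariables false

namespace Pool.Agent.MP_d175a7_gt

open CategoryTheory

variable {C : Type 1} [Category.{0} C] {S : SMon C} {k : Type} [CommRing k]

/-- `theta` with an arbitrary base point -/
private def DRepC_th (D : DRep S k) {N : ℕ} (F : Fin (N + 1) ⥤ C) {a c : Fin (N + 1)}
    (h : a ≤ c) : Module.End k (D.U (F.obj a)) :=
  (D.bar (F.map (homOfLE h))).symm.toLinearMap ∘ₗ D.one (F.map (homOfLE h))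

private theorem DRepC_conj (D : DRep S k) {N : ℕ} (F : Fin (N + 1) ⥤ C) {a b c : Fin (N + 1)}
    (hab : a ≤ b) (hbc : b ≤ c) :
    DRepC_th D F hbc = (D.bar (F.map (homOfLE hab))).conjRingEquiv
      (DRepC_th D F (hab.trans hbc) - DRepC_th D F hab) := by
  have hF : F.map (homOfLE (hab.trans hbc)) = F.map (homOfLE hab) ≫ F.map (homOfLE hbc) := by
    rw [← F.map_comp]
    rfl
  have h1 : ∀ v, D.bar (F.map (homOfLE (hab.trans hbc))) v =
      D.bar (F.map (homOfLE hbc)) (D.bar (F.map (homOfLE hab)) v) := by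
    intro v
    rw [hF]
    exact D.bar_comp _ _ v
  have h2 : ∀ v, D.one (F.map (homOfLE (hab.trans hbc))) v =
      D.bar (F.map (homOfLE hbc)) (D.one (F.map (homOfLE hab)) v) +
        D.one (F.map (homOfLE hbc)) (D.bar (F.map (homOfLE hab)) v) := by
    intro v
    rw [hF]
    exact D.one_comp _ _ v
  have h3 : ∀ w, (D.bar (F.map (homOfLE (hab.trans hbc)))).symm w =
      (D.bar (F.map (homOfLE hab))).symm ((D.bar (F.map (homOfLE hbc))).symm w) := by
    intro w
    rw [LinearEquiv.symm_apply_eq, h1, LinearEquiv.apply_symm_apply, LinearEquiv.apply_symm_apply]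
  apply LinearMap.ext
  intro w
  obtain ⟨v, rfl⟩ := (D.bar (F.map (homOfLE hab))).surjective w
  change (D.bar (F.map (homOfLE hbc))).symm
      (D.one (F.map (homOfLE hbc)) (D.bar (F.map (homOfLE hab)) v)) =
    D.bar (F.map (homOfLE hab)) ((D.bar (F.map (homOfLE (hab.trans hbc)))).symm
        (D.one (F.map (homOfLE (hab.trans hbc)))
          ((D.bar (F.map (homOfLE hab))).symm (D.bar (F.map (homOfLE hab)) v))) -
      (D.bar (F.map (homOfLE hab))).symm (D.one (F.map (homOfLE hab))
        ((D.bar (F.map (homOfLE hab))).symm (D.bar (F.map (homOfLE hab)) v))))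
  rw [LinearEquiv.symm_apply_apply, h2, h3, map_add, LinearEquiv.symm_apply_apply, map_sub,
    LinearEquiv.apply_symm_apply, LinearEquiv.apply_symm_apply, add_sub_cancel_left]

private theorem DRepC_base (D : DRep S k) {N m : ℕ} (F : Fin (N + 1) ⥤ C) {a b : Fin (N + 1)}
    (hab : a ≤ b) (α : Fin (m + 1) → Fin (N + 1)) (hα : ∀ l, b ≤ α l) :
    LinearMap.trace k (D.U (F.obj b)) (Phi m fun l => DRepC_th D F (hα l)) =
      LinearMap.trace k (D.U (F.obj a)) (Phi m fun l => DRepC_th D F (hab.trans (hα l))) := by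
  have h1 : (fun l => DRepC_th D F (hα l)) = fun l =>
      ((D.bar (F.map (homOfLE hab))).conjRingEquiv : _ →+* _)
        (DRepC_th D F (hab.trans (hα l)) - DRepC_th D F hab) :=
    funext fun l => DRepC_conj D F hab (hα l)
  rw [h1, Phi_map, Phi_sub]
  exact LinearMap.trace_conj' _ _

/-- The cocycle identity.  Proof: for `j ≥ 1` the object at `0` of `ofn (del n j) ⋙ F` is `F.obj 0`
and `theta (ofn (del n j) ⋙ F) l = theta F (del n j l)`.  For `j = 0` it is `F.obj 1`, and with
`b = bar (F.map (0 ⟶ 1)) : U (F.obj 0) ≃ U (F.obj 1)` one has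
`theta (ofn (del n 0) ⋙ F) l = b ∘ (theta F l.succ - theta F 1) ∘ b⁻¹` (from `bar_comp`, `one_comp`
applied to `0 ⟶ 1 ⟶ l.succ`); so by `Phi_map` (conjugation by `b` is a ring isomorphism of the
endomorphism rings, `LinearEquiv.conj`, `LinearEquiv.algConj` or `LinearEquiv.conjRingEquiv`),
`Phi_sub` and `LinearMap.trace_conj'` the value `D.phi n (ofn (del n 0) ⋙ F)` is
`trace (Phi n (fun l => theta F (del n 0 l)))`.  Now take the trace of `Phi_coc` for
`θ = theta F`. -/
theorem DRep.phi_coc (D : DRep S k) (n : ℕ) (F : Fin (n + 1 + 1) ⥤ C) :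
    ∑ i ∈ Finset.range (n + 2), (-1) ^ i * D.phi n (ofn (del n i) ⋙ F) = 0 := by
  have h0 : ∀ i, D.phi n (ofn (del n i) ⋙ F) = LinearMap.trace k (D.U (F.obj 0))
      (Phi n fun l => DRepC_th D F (Fin.zero_le (del n i l))) := by
    intro i
    exact DRepC_base D F (Fin.zero_le (del n i 0)) (del n i)
      (fun l => (del n i).monotone (Fin.zero_le l))
  have h1 := congrArg (LinearMap.trace k (D.U (F.obj 0)))
    (Phi_coc n fun c => DRepC_th D F (Fin.zero_le c))
  rw [map_sum, map_zero] at h1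
  rw [← h1]
  refine Finset.sum_congr rfl fun i _ => ?_
  rw [h0 i]
  rcases Nat.even_or_odd i with hi | hi
  · rw [hi.neg_one_pow, hi.neg_one_pow, one_mul, one_mul]
  · rw [hi.neg_one_pow, hi.neg_one_pow, neg_one_mul, neg_one_mul, map_neg]

end Pool.Agent.MP_d175a7_gt
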