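import Pool.Agent.Lib.MP_d175a7_gt.DRepA

/-! # Representations over the dual numbers: additivity -/

set_option autoImplicit false
set_option linter.unusedVariables false

namespace Pool.Agent.MP_d175a7_gt

open CategoryTheory

variable {C : Type 1} [Category.{0} C] {S : SMon C} {k : Type} [CommRing k]

private theorem drs_theta (D : DRep S k) {X X' Y Y' : C} (f : X ⟶ X') (g : Y ⟶ Y')
    (th : Module.End k (D.U (S.T.obj (X, Y)))) (a : Module.End k (D.U X))
    (b : Module.End k (D.U Y))
    (hth : ∀ v, D.bar (S.T.map ((f, g) : (X, Y) ⟶ (X', Y'))) (th v) =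
      D.one (S.T.map ((f, g) : (X, Y) ⟶ (X', Y'))) v)
    (ha : ∀ v, D.bar f (a v) = D.one f v) (hb : ∀ v, D.bar g (b v) = D.one g v) :
    (D.ten X Y).conj th = LinearMap.prodMap a b := by
  refine LinearMap.ext fun u => ?_
  obtain ⟨v, rfl⟩ := (D.ten X Y).surjective u
  rw [LinearEquiv.conj_apply_apply, LinearEquiv.symm_apply_apply]
  have h5 := D.bar_ten f g (th v)
  rw [hth, D.one_ten f g v, ← ha, ← hb] at h5
  have h6 := (D.bar f).injective (congrArg Prod.fst h5)
  have h7 := (D.bar g).injective (congrArg Prod.snd h5)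
  exact Prod.ext h6.symm h7.symm

private theorem drs_prod {E E' : Type} [Ring E] [Ring E'] (m : ℕ) (θ : Fin (m + 1) → E)
    (θ' : Fin (m + 1) → E') :
    Phi m (fun i => ((θ i, θ' i) : E × E')) = (Phi m θ, Phi m θ') := by
  refine Prod.ext ?_ ?_
  · exact (Phi_map (RingHom.fst E E') m (fun i => ((θ i, θ' i) : E × E'))).symm
  · exact (Phi_map (RingHom.snd E E') m (fun i => ((θ i, θ' i) : E × E'))).symm

private theorem drs_tr {M N P : Type} [AddCommGroup M] [Module k M] [AddCommGroup N] [Module k N]
    [AddCommGroup P] [Module k P] [Module.Free k M] [Module.Finite k M] [Module.Free k N]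
    [Module.Finite k N] (e : P ≃ₗ[k] (M × N)) (n : ℕ) (th : Fin (n + 1) → Module.End k P)
    (a : Fin (n + 1) → Module.End k M) (b : Fin (n + 1) → Module.End k N)
    (h : ∀ i, e.conj (th i) = LinearMap.prodMap (a i) (b i)) :
    LinearMap.trace k P (Phi n th) = LinearMap.trace k M (Phi n a) +
      LinearMap.trace k N (Phi n b) := by
  have h1 := Phi_map (e.conjRingEquiv : Module.End k P →+* Module.End k (M × N)) n th
  have h2 := Phi_map (LinearMap.prodMapRingHom k M N) n (fun i => (a i, b i))
  rw [drs_prod] at h2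
  have h3 : e.conj (Phi n th) = LinearMap.prodMap (Phi n a) (Phi n b) := by
    refine Eq.trans h1.symm (Eq.trans ?_ h2)
    congr 1
    funext i
    exact h i
  rw [← LinearMap.trace_prodMap', ← h3, LinearMap.trace_conj']

private theorem drs_th (D : DRep S k) {n : ℕ} (F : Fin (n + 1) ⥤ C) (i : Fin (n + 1))
    (v : D.U (F.obj 0)) :
    D.bar (F.map (homOfLE (Fin.zero_le i))) (D.theta F i v) =
      D.one (F.map (homOfLE (Fin.zero_le i))) v :=
  LinearEquiv.apply_symm_apply _ _

/-- Additivity.  Proof: by `bar_ten`, `one_ten` the endomorphism `theta (S.mul F G) l` is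
conjugate under `ten (F.obj 0) (G.obj 0)` to `LinearMap.prodMap (theta F l) (theta G l)`; hence (by
induction on `m` as in `Phi_map`, or `Phi_map` for the ring homomorphism
`(A, B) ↦ LinearMap.prodMap A B` (`LinearMap.prodMapRingHom`) and the projections of the product
ring) `Phi m (theta (S.mul F G))` is conjugate to
`LinearMap.prodMap (Phi m (theta F)) (Phi m (theta G))`; use `LinearMap.trace_prodMap'` and
`LinearMap.trace_conj'`. -/
theorem DRep.phi_add (D : DRep S k) (n : ℕ) (F G : Fin (n + 1) ⥤ C) :
    D.phi n (S.mul F G) = D.phi n F + D.phi n G :=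
  drs_tr (D.ten (F.obj 0) (G.obj 0)) n (D.theta (S.mul F G)) (D.theta F) (D.theta G) fun i =>
    drs_theta D (F.map (homOfLE (Fin.zero_le i))) (G.map (homOfLE (Fin.zero_le i)))
      (D.theta (S.mul F G) i) (D.theta F i) (D.theta G i) (fun v => drs_th D (S.mul F G) i v)
      (fun v => drs_th D F i v) (fun v => drs_th D G i v)

end Pool.Agent.MP_d175a7_gt
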