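import Pool.Agent.Lib.MP_d175a7_gt.DRepN
import Pool.Agent.Lib.MP_d175a7_gt.DRepC
import Pool.Agent.Lib.MP_d175a7_gt.DRepS

/-! # Representations over the dual numbers: the additive cocycle -/

set_option autoImplicit false
set_option linter.unusedVariables false

namespace Pool.Agent.MP_d175a7_gt

open CategoryTheory

variable {C : Type 1} [Category.{0} C] {S : SMon C} {k : Type} [CommRing k]

/-- The additive cocycle with values in `F_p` given by a representation over the dual numbers
over `k` and an additive map `k → F_p`. -/
noncomputable def DRep.acoc (D : DRep S k) {p : ℕ} (r : k →+ ZMod p) : ACoc S p where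
  φ n F := r (D.phi n F)
  nrm n i F := by rw [D.phi_nrm, map_zero]
  coc n F := by
    have h := congrArg r (D.phi_coc n F)
    rw [map_zero, map_sum] at h
    rw [← h]
    refine Finset.sum_congr rfl fun i _ => ?_
    rcases Nat.even_or_odd i with hi | hi
    · rw [hi.neg_one_pow, hi.neg_one_pow, one_mul, one_mul]
    · rw [hi.neg_one_pow, hi.neg_one_pow, neg_one_mul, neg_one_mul, map_neg]
  add n F G := by rw [D.phi_add, map_add]

end Pool.Agent.MP_d175a7_gt
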