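import Pool.Agent.Lib.MP_d175a7_gt.DRepA

/-! # Representations over the dual numbers: degenerate simplices -/

set_option autoImplicit false
set_option linter.unusedVariables false

namespace Pool.Agent.MP_d175a7_gt

open CategoryTheory

variable {C : Type 1} [Category.{0} C] {S : SMon C} {k : Type} [CommRing k]

/-- the general form of `theta` -/
private def DRepN_th (D : DRep S k) {m : ℕ} (F : Fin (m + 1) ⥤ C) {a b : Fin (m + 1)}
    (h : a ≤ b) : Module.End k (D.U (F.obj a)) :=
  (D.bar (F.map (homOfLE h))).symm.toLinearMap ∘ₗ D.one (F.map (homOfLE h))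

/-- Degenerate simplices.  Proof: `(ofn α ⋙ F).obj 0 = F.obj (α 0)` with `α = sig n i`, `α 0 = 0`
(definitionally after `Fin` reduction or by generalising): `theta (ofn (sig n i) ⋙ F) l =
theta F (sig n i l)`; apply `Phi_nrm` and `map_zero`.  (To avoid transport: prove the
general statement `theta' F a b := (bar (F.map (a ⟶ b)))⁻¹ ∘ one (F.map (a ⟶ b))` on `U (F.obj a)`
for `a ≤ b`, and `theta (ofn α ⋙ F) l = theta' F (α 0) (α l)` is `rfl`; then for `α 0 = 0` it does
not matter: `Phi (n+1) (fun l => theta' F a (α l)) = 0` for all `a ≤ α 0`.) -/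
theorem DRep.phi_nrm (D : DRep S k) (n i : ℕ) (F : Fin (n + 1) ⥤ C) :
    D.phi (n + 1) (ofn (sig n i) ⋙ F) = 0 := by
  classical
  let θ : Fin (n + 1) → Module.End k (D.U (F.obj (sig n i 0))) := fun b =>
    if h : sig n i 0 ≤ b then DRepN_th D F h else 0
  have h1 : ∀ l, DRepN_th D F ((sig n i).monotone (Fin.zero_le l)) = θ (sig n i l) := by
    intro l
    have h2 : sig n i 0 ≤ sig n i l := (sig n i).monotone (Fin.zero_le l)
    change _ = dite _ _ _
    rw [dif_pos h2]
  change LinearMap.trace k (D.U (F.obj (sig n i 0)))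
    (Phi (n + 1) (fun l => DRepN_th D F ((sig n i).monotone (Fin.zero_le l)))) = 0
  rw [funext h1, Phi_nrm, map_zero]

end Pool.Agent.MP_d175a7_gt
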