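import Pool.Agent.Lib.MP_d175a7_gt.Pr

/-! # Dimensions of suspensions -/

set_option autoImplicit false
set_option linter.unusedVariables false

namespace Pool.Agent.MP_d175a7_gt

universe u v

private theorem dimS_sig (m i : ℕ) : Function.Surjective (sig m i) := by
  intro b
  by_cases hb : b.1 ≤ i
  · refine ⟨⟨b.1, by omega⟩, Fin.ext ?_⟩
    change (if b.1 ≤ i then min b.1 m else b.1 - 1) = b.1
    rw [if_pos hb]
    omega
  · refine ⟨⟨b.1 + 1, by omega⟩, Fin.ext ?_⟩
    change (if b.1 + 1 ≤ i then min (b.1 + 1) m else b.1 + 1 - 1) = b.1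
    rw [if_neg (by omega)]
    omega

/-- a monotone map with equal values at `l` and `l + 1` -/
private theorem dimS_comp {B : Type} [Preorder B] {m : ℕ} (f : Fin (m + 1 + 1) →o B)
    (l : Fin (m + 1)) (h : f l.castSucc = f l.succ) :
    f.comp ((del m (l.1 + 1)).comp (sig m l.1)) = f := by
  ext a
  have key : ((del m (l.1 + 1)).comp (sig m l.1) a = a) ∨
      (a = l.succ ∧ (del m (l.1 + 1)).comp (sig m l.1) a = l.castSucc) := by
    have hl := l.2
    have ha := a.2
    have hs : (sig m l.1 a).1 = if a.1 ≤ l.1 then min a.1 m else a.1 - 1 := rfl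
    have hd : ((del m (l.1 + 1)).comp (sig m l.1) a).1 =
        if (sig m l.1 a).1 < l.1 + 1 then (sig m l.1 a).1 else (sig m l.1 a).1 + 1 := rfl
    by_cases h1 : a.1 ≤ l.1
    · left
      apply Fin.ext
      rw [hd, hs, if_pos h1, if_pos (by omega)]
      omega
    · by_cases h2 : a.1 = l.1 + 1
      · right
        refine ⟨Fin.ext h2, Fin.ext ?_⟩
        rw [hd, hs, if_neg h1, if_pos (by omega)]
        change a.1 - 1 = l.1
        omega
      · left
        apply Fin.ext
        rw [hd, hs, if_neg h1, if_neg (by omega)]
        omega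
  change f ((del m (l.1 + 1)).comp (sig m l.1) a) = f a
  rcases key with h1 | ⟨h1, h2⟩
  · rw [h1]
  · rw [h2, h1, h]

/-- Every simplex of a simplicial set of dimension `≤ D` comes from a simplex of dimension
`≤ D` by a surjective operator.  Proof: induction on `n`: for `n ≤ D` take the identity. -/
theorem exists_low {X : PS.{u}} {D : ℕ} (hD : DimLe X D) (n : ℕ) (x : X.X n) :
    ∃ (n' : ℕ) (γ : Fin (n + 1) →o Fin (n' + 1)) (y : X.X n'), n' ≤ D ∧ n' ≤ n ∧
      Function.Surjective γ ∧ x = X.map γ y := by
  induction n with
  | zero =>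
    exact ⟨0, OrderHom.id, x, Nat.zero_le D, le_rfl, fun b => ⟨b, rfl⟩, (X.map_id x).symm⟩
  | succ n ih =>
    by_cases hn : n + 1 ≤ D
    · exact ⟨n + 1, OrderHom.id, x, hn, le_rfl, fun b => ⟨b, rfl⟩, (X.map_id x).symm⟩
    · obtain ⟨i, y, rfl⟩ := hD n (by omega) x
      obtain ⟨n', γ, z, h1, h2, h3, rfl⟩ := ih y
      refine ⟨n', γ.comp (sig n i), z, h1, by omega, ?_, (X.map_comp γ (sig n i) z).symm⟩
      intro b
      obtain ⟨c, rfl⟩ := h3 b
      obtain ⟨d, rfl⟩ := dimS_sig n i c
      exact ⟨d, rfl⟩

/-- Normalised cochains of `Susp k X` vanish above dimension `D + k`.  Proof: a simplex is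
`Susp.mk τ x`, `x = X.map γ y` with `γ : [n] → [n']`, `n' ≤ D`.  If some `τ i` is constant or `x` is
the base point it is the base point.  Otherwise every `τ i` jumps at exactly one position
`l` (between `l` and `l + 1`), `γ` is not constant at at most `n'` positions; as `n > D + k` there is
a position `l < n` where no `τ i` jumps and `γ l = γ (l + 1)` (for instance: the map `l ↦ (τ i l)_i, γ l`
from `[n]` is monotone into a product whose longest chain has `k + n' + 1` elements: the function
`l ↦ γ l + #{i | τ i l = true}` is monotone with values `≤ n' + k < n`, so it takes the same value at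
some `l, l + 1`).  Then `(τ, x)` is the degeneracy `s_l` of its face
`d_(l+1)`; apply `Nrm`. -/
theorem nrm_high {p : ℕ} {X : PS.{u}} {D : ℕ} (hD : DimLe X D) (k : ℕ)
    (ψ : CoCh p (Susp k X)) (hn : Nrm ψ) (n : ℕ) (h : D + k < n) (x : (Susp k X).X n) :
    ψ n x = 0 := by
  obtain ⟨m, rfl⟩ : ∃ m, n = m + 1 := ⟨n - 1, by omega⟩
  induction x using Quotient.inductionOn with
  | h q =>
    obtain ⟨τ, x₀⟩ := q
    obtain ⟨n', γ, y, h1, h2, h3, h4⟩ := exists_low hD (m + 1) x₀
    -- a position without jumps
    have hex : ∃ l : Fin (m + 1), γ l.castSucc = γ l.succ ∧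
        ∀ i, τ i l.castSucc = τ i l.succ := by
      by_contra hcon
      push Not at hcon
      obtain ⟨F, hF⟩ : ∃ F : Fin (m + 1 + 1) → ℕ, F = fun l => (γ l).1 +
        (Finset.univ.filter fun i => τ i l = true).card := ⟨_, rfl⟩
      have hstep : ∀ l : Fin (m + 1), F l.castSucc + 1 ≤ F l.succ := by
        intro l
        have hle : l.castSucc ≤ l.succ := Fin.castSucc_le_succ l
        have e1 : (γ l.castSucc).1 ≤ (γ l.succ).1 := γ.monotone hle
        have e2 : (Finset.univ.filter fun i => τ i l.castSucc = true) ⊆
            (Finset.univ.filter fun i => τ i l.succ = true) := by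
          intro i hi
          rw [Finset.mem_filter] at hi ⊢
          refine ⟨hi.1, ?_⟩
          have h5 : τ i l.castSucc ≤ τ i l.succ := (τ i).monotone hle
          rw [hi.2] at h5
          exact Bool.eq_true_of_true_le h5
        have e3 := Finset.card_le_card e2
        rw [hF]
        change (γ l.castSucc).1 + (Finset.univ.filter fun i => τ i l.castSucc = true).card + 1 ≤
          (γ l.succ).1 + (Finset.univ.filter fun i => τ i l.succ = true).card
        by_cases h5 : γ l.castSucc = γ l.succ
        · obtain ⟨i, hi⟩ := hcon l h5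
          have h6 : (Finset.univ.filter fun i => τ i l.castSucc = true).card <
              (Finset.univ.filter fun i => τ i l.succ = true).card := by
            refine Finset.card_lt_card ⟨e2, fun h7 => ?_⟩
            have h8 : τ i l.castSucc ≤ τ i l.succ := (τ i).monotone hle
            have h9 : τ i l.castSucc = false ∧ τ i l.succ = true := by
              revert hi h8
              generalize τ i l.castSucc = b
              generalize τ i l.succ = b'
              revert b b'
              decide
            have h10 := h7 (Finset.mem_filter.2 ⟨Finset.mem_univ i, h9.2⟩)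
            rw [Finset.mem_filter, h9.1] at h10
            exact absurd h10.2 (by decide)
          omega
        · have h6 : (γ l.castSucc).1 ≠ (γ l.succ).1 := fun h7 => h5 (Fin.ext h7)
          omega
      have hge : ∀ l : Fin (m + 1 + 1), l.1 ≤ F l := by
        intro l
        refine Fin.induction (motive := fun l => l.1 ≤ F l) (Nat.zero_le _) ?_ l
        intro l hl
        have h5 := hstep l
        change l.1 + 1 ≤ F l.succ
        change l.1 ≤ F l.castSucc at hl
        omega
      have h5 := hge (Fin.last (m + 1))
      have h6 : F (Fin.last (m + 1)) ≤ n' + k := by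
        rw [hF]
        have h7 := (γ (Fin.last (m + 1))).2
        have h8 : (Finset.univ.filter fun i => τ i (Fin.last (m + 1)) = true).card ≤ k := by
          refine (Finset.card_filter_le _ _).trans (le_of_eq ?_)
          rw [Finset.card_univ, Fintype.card_fin]
        change (γ (Fin.last (m + 1))).1 +
          (Finset.univ.filter fun i => τ i (Fin.last (m + 1)) = true).card ≤ n' + k
        omega
      change m + 1 ≤ F (Fin.last (m + 1)) at h5
      omega
    obtain ⟨l, hl1, hl2⟩ := hex
    have h5 := hn.2 m l.1 (Susp.mk (fun i => (τ i).comp (del m (l.1 + 1)))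
      (X.map (del m (l.1 + 1)) x₀))
    rw [Susp.map_mk] at h5
    have h6 : (fun i => ((τ i).comp (del m (l.1 + 1))).comp (sig m l.1)) = τ := by
      funext i
      exact dimS_comp (τ i) l (hl2 i)
    have h7 : X.map (sig m l.1) (X.map (del m (l.1 + 1)) x₀) = x₀ := by
      rw [h4, ← X.map_comp, ← X.map_comp]
      congr 1
      exact dimS_comp γ l hl1
    rw [h6, h7] at h5
    exact h5

end Pool.Agent.MP_d175a7_gt
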