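import Pool.Agent.Lib.MP_d175a7_gt.Simp

/-! # The map from the nerve to the loop group -/

set_option autoImplicit false
set_option linter.unusedVariables false

namespace Pool.Agent.MP_d175a7_gt

open CategoryTheory

variable {C : Type 1} [Category.{0} C]

/-- A monotone map as a functor. -/
abbrev ofn {m n : ℕ} (α : Fin (m + 1) →o Fin (n + 1)) : Fin (m + 1) ⥤ Fin (n + 1) :=
  α.monotone.functor

/-- `l ↦ l - 1`, from `{l : j ≤ l} ⊆ [n+1]` to `[n]`. -/
def shf (n : ℕ) (j : Fin (n + 1 + 1)) : Above (n + 1) j ⥤ Fin (n + 1) :=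
  Monotone.functor (f := fun l : Above (n + 1) j => sg0 n l.1) (fun _ _ h => (sg0 n).monotone h)

/-- The `(n+1)`-simplex of `Wbar` attached to an `n`-simplex of the nerve: `g 0 j` is the
restriction of `F` to `{l - 1 : l ≥ j}` for `j ≥ 1`, all other entries are trivial. -/
def etaW (S : SMon C) {n : ℕ} (F : Fin (n + 1) ⥤ C) : Wb S (n + 1) where
  g i j h := if i = 0 ∧ j ≠ 0 then shf n j ⋙ F else S.one _
  g_self i h := by
    rw [if_neg]
    rintro ⟨h1, h2⟩
    exact h2 h1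
  g_comp i j k h h' := by
    by_cases hi : i = 0
    · by_cases hj : j = 0
      · subst hi; subst hj
        have e : (if (0 : Fin (n + 1 + 1)) = 0 ∧ (0 : Fin (n + 1 + 1)) ≠ 0 then shf n 0 ⋙ F
            else S.one _) = S.one _ := if_neg (fun h => h.2 rfl)
        rw [e]
        exact (S.mul_one _).symm
      · have hk : k ≠ 0 := fun hk => hj (le_antisymm (hk ▸ h') (Fin.zero_le _))
        rw [if_pos ⟨hi, hk⟩, if_neg (fun h => hj h.1), if_pos ⟨hi, hj⟩]
        exact (S.one_mul _).symm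
    · have hj : j ≠ 0 := fun hj => hi (le_antisymm (hj ▸ h) (Fin.zero_le _))
      rw [if_neg (fun h => hi h.1), if_neg (fun h => hj h.1), if_neg (fun h => hi h.1)]
      exact (S.one_mul _).symm

/-- The map `N C → K`. -/
def eta (S : SMon C) {n : ℕ} (F : Fin (n + 1) ⥤ C) : KG S n := gen (etaW S F)

private theorem eta_lft0 {m n : ℕ} (α : Fin (m + 1) →o Fin (n + 1)) (i : Fin (m + 1 + 1)) :
    lft0 α i = 0 ↔ i = 0 := by
  rcases Fin.eq_zero_or_eq_succ i with rfl | ⟨a, rfl⟩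
  · exact ⟨fun _ => rfl, fun _ => rfl⟩
  · constructor
    · intro h
      exact absurd h (Fin.succ_ne_zero (α a))
    · intro h
      exact absurd h (Fin.succ_ne_zero a)

private theorem eta_lft1 {m n : ℕ} (α : Fin (m + 1) →o Fin (n + 1)) (i : Fin (m + 1 + 1)) :
    lft1 α i ≠ 0 := by
  rcases Fin.eq_zero_or_eq_succ i with rfl | ⟨a, rfl⟩
  · intro h
    have h1 := congrArg Fin.val h
    change ((1 : Fin (n + 1 + 1)) : ℕ) = 0 at h1
    simp at h1
  · exact Fin.succ_ne_zero (α a)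

private theorem eta_fun {m n : ℕ} (α : Fin (m + 1) →o Fin (n + 1)) (j : Fin (m + 1 + 1))
    (hj : j ≠ 0) : alo (lft0 α) j ⋙ shf n (lft0 α j) = shf m j ⋙ ofn α := by
  refine CategoryTheory.Functor.ext (fun l => ?_) (fun _ _ _ => Subsingleton.elim _ _)
  obtain ⟨l, hl⟩ := l
  change sg0 n (lft0 α l) = α (sg0 m l)
  rcases Fin.eq_zero_or_eq_succ l with rfl | ⟨a, rfl⟩
  · exact absurd (le_antisymm hl (Fin.zero_le _)) hj
  · rfl

theorem eta_nat (S : SMon C) {m n : ℕ} (α : Fin (m + 1) →o Fin (n + 1)) (F : Fin (n + 1) ⥤ C) :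
    KG.map α (eta S F) = eta S (ofn α ⋙ F) := by
  have h0 : (etaW S F).pull (lft0 α) = etaW S (ofn α ⋙ F) := by
    refine Wb.ext (funext fun i => funext fun j => funext fun h => ?_)
    change alo (lft0 α) j ⋙ (if lft0 α i = 0 ∧ lft0 α j ≠ 0 then shf n (lft0 α j) ⋙ F
      else S.one _) = (if i = 0 ∧ j ≠ 0 then shf m j ⋙ (ofn α ⋙ F) else S.one _)
    by_cases hc : i = 0 ∧ j ≠ 0
    · rw [if_pos hc, if_pos ⟨(eta_lft0 α i).2 hc.1, fun h => hc.2 ((eta_lft0 α j).1 h)⟩]
      exact congrArg (fun G => G ⋙ F) (eta_fun α j hc.2)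
    · rw [if_neg hc, if_neg (fun h => hc ⟨(eta_lft0 α i).1 h.1,
        fun h' => h.2 ((eta_lft0 α j).2 h')⟩)]
      rfl
  have h1 : (etaW S F).pull (lft1 α) = (Wb.triv S m).pull (sg0 m) := by
    refine Wb.ext (funext fun i => funext fun j => funext fun h => ?_)
    change alo (lft1 α) j ⋙ (if lft1 α i = 0 ∧ lft1 α j ≠ 0 then shf n (lft1 α j) ⋙ F
      else S.one _) = S.one _
    rw [if_neg (fun h => eta_lft1 α i h.1)]
    rfl
  unfold eta
  rw [KG.map_gen, h0, h1, gen_sg0, inv_one, mul_one]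

end Pool.Agent.MP_d175a7_gt
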