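import Pool.Agent.Lib.MP_d175a7_gt.PrcN

/-! # Homotopy invariance of the pairing -/

set_option autoImplicit false
set_option linter.unusedVariables false

namespace Pool.Agent.MP_d175a7_gt

universe u v

/-- The pairing with a cycle is invariant under homotopy.  Proof: `Ψ n (τ, x) = ψ n (H.h n τ x)`
is a cocycle on `Cyl X` (`H.nat`), so by `prism` and `prism_zero` the cochain
`ψ ∘ g - ψ ∘ f` is `cob (prc Ψ)` in positive degrees and `0` in degree `0`; `prc Ψ` is normalised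
by `prc_nrm`, and `IsCyc z` applies. -/
theorem ev_hty {p : ℕ} {X : PS.{u}} {Y : PS.{v}} (ψ : CoCh p Y) (hn : Nrm ψ) (hc : IsCoc ψ)
    {f g : PMap X Y} (H : Hty f g) (z : Ch p X) (hz : IsCyc z) :
    ev (fun n x => ψ n (f.f n x)) z = ev (fun n x => ψ n (g.f n x)) z := by
  obtain ⟨Ψ, hΨ⟩ : ∃ Ψ : CoCh p (Cyl X), ∀ (n : ℕ) (τ : Mon n) (x : X.X n),
      Ψ n ((τ, x) : (Cyl X).X n) = ψ n (H.h n τ x) := ⟨fun n q => ψ n (H.h n q.1 q.2),
        fun _ _ _ => rfl⟩
  have h1 : cob Ψ = fun _ _ => 0 := by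
    funext n q
    cases n with
    | zero => rfl
    | succ n =>
      obtain ⟨τ, x⟩ := q
      refine Eq.trans ?_ (hc (n + 1) (H.h (n + 1) τ x))
      change ∑ i ∈ Finset.range (n + 2), (-1) ^ i *
        Ψ n ((τ.comp (del n i), X.map (del n i) x) : (Cyl X).X n) =
        ∑ i ∈ Finset.range (n + 2), (-1) ^ i * ψ n (Y.map (del n i) (H.h (n + 1) τ x))
      refine Finset.sum_congr rfl fun i _ => ?_
      rw [hΨ, H.nat]
  have h2 : ∀ (n : ℕ) (x : X.X n), prc (cob Ψ) n x = 0 := by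
    intro n x
    rw [h1]
    exact Finset.sum_eq_zero fun i _ => mul_zero _
  have h3 : ∀ (n : ℕ) (x : X.X n), cob (prc Ψ) n x = ψ n (g.f n x) - ψ n (f.f n x) := by
    intro n x
    cases n with
    | zero =>
      have h4 := prism_zero Ψ x
      rw [h2, hΨ, hΨ, H.one, H.zero] at h4
      exact h4
    | succ n =>
      have h4 := prism Ψ n x
      rw [h2, hΨ, hΨ, H.one, H.zero] at h4
      exact (sub_eq_zero.1 h4.symm).symm
  have h4 : Nrm (prc Ψ) := by
    refine prc_nrm Ψ (fun n i q => ?_) (fun n τ => ?_)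
    · obtain ⟨τ, x⟩ := q
      refine Eq.trans ?_ (hn.2 n i (H.h n τ x))
      change Ψ (n + 1) ((τ.comp (sig n i), X.map (sig n i) x) : (Cyl X).X (n + 1)) = _
      rw [hΨ, H.nat]
    · rw [hΨ, H.pt]
      exact hn.1 n
  have h5 := hz (prc Ψ) h4
  unfold ev at h5 ⊢
  simp only [h3, mul_sub] at h5
  rw [Finsupp.sum_sub] at h5
  exact (sub_eq_zero.1 h5).symm

end Pool.Agent.MP_d175a7_gt
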