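import Pool.Agent.Lib.MP_d175a7_gt.Spec
import Pool.Agent.Lib.MP_d175a7_gt.Bk

/-! # A relation between block permutations -/

set_option autoImplicit false
set_option linter.unusedVariables false

namespace Pool.Agent.MP_d175a7_gt

/-- The permutation `(s, v, w) ↦ (v, s, w) ↦ (s, w, v)` is `(s, v, w) ↦ (s, w, v)`
(`s ∈ ℝ`, `v ∈ ℝ^m`, `w ∈ ℝ^n`).  Proof: all matrices are `0-1`-matrices; `Subtype.ext`, write the
entries of the three matrices (`Matrix.reindex_apply`, `Matrix.submatrix_apply`, `sumFin` and its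
inverse by cases on `i.1 < m` etc.), or: a matrix is determined by its action `mulVec` on vectors,
`(swp h h').1.mulVec x = fun i => x (if i.1 < n then i.1 + m else i.1 - n)` and
`(blk h A B).1.mulVec x` is blockwise. -/
theorem swp_mul_blk {m n l : ℕ} (h : m + n = l) (h' : n + m = l) (h1 : m + (n + 1) = l + 1)
    (h1' : (n + 1) + m = l + 1) (ha : 1 + m = m + 1) (hb : (m + 1) + n = l + 1)
    (hc : 1 + l = l + 1) :
    swp h1 h1' * blk hb (swp ha rfl) 1 = blk hc 1 (swp h h') := by
  have h3 : 1 + n = n + 1 := Nat.add_comm 1 n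
  refine ort_ext_jv hb fun x w => ?_
  rw [← jv_jl_jr ha x, ort_mul_mulVec, blk_mulVec, swp_mulVec, ort_one_mulVec,
    jv_assoc (rfl : m + 1 = m + 1) hb h3 h1, swp_mulVec, jv_assoc ha hb h hc, blk_mulVec,
    swp_mulVec, ort_one_mulVec, jv_assoc h3 h1' h' hc]

end Pool.Agent.MP_d175a7_gt
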