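import Pool.Agent.Lib.MP_d175a7_gt.Det
import Pool.Agent.Lib.MP_d175a7_gt.SwpB

/-! # External products and suspensions -/

set_option autoImplicit false
set_option linter.unusedVariables false

namespace Pool.Agent.MP_d175a7_gt

open scoped Topology unitInterval

variable {R : RSp}

/-- Right multiplication commutes with the suspension, on points.  Proof: with `η = R.unit 1 s` the
left side is `act (blk _ 1 (swp _ _)) (smul (mul η x) y)` (`act 1 1 η = η`, `smul_act`,
`smul_assoc` backwards), the right side is `act (swp _ _) (smul (mul x η) y)`, and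
`mul x η = act (swp _ _) (mul η x)` (`R.mul_comm`), so by `smul_act` (second factor `1`) and `act_mul`
it is `act (swp _ _ * blk _ (swp _ _) 1) (smul (mul η x) y)`; use `swp_mul_blk`. -/
theorem sus_swp (P : MSp R) {m n l : ℕ} (h : m + n = l) (h' : n + m = l)
    (h1 : m + (n + 1) = l + 1) (h1' : (n + 1) + m = l + 1) (s : I) (x : R.X m) (y : P.X n) :
    P.seq.sus l s (P.act l (swp h h') (P.smul h x y)) =
      P.act (l + 1) (swp h1 h1') (P.smul h1 x (P.seq.sus n s y)) := by
  change P.smul (Nat.add_comm 1 l) (R.unit 1 (lam s)) (P.act l (swp h h') (P.smul h x y)) =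
    P.act (l + 1) (swp h1 h1') (P.smul h1 x
      (P.smul (Nat.add_comm 1 n) (R.unit 1 (lam s)) y))
  obtain ⟨η, hη⟩ : ∃ η, η = R.unit 1 (lam s) := ⟨_, rfl⟩
  rw [← hη]
  have hb : (m + 1) + n = l + 1 := by omega
  have e1 : P.smul (Nat.add_comm 1 l) η (P.act l (swp h h') (P.smul h x y)) =
      P.act (l + 1) (blk (Nat.add_comm 1 l) 1 (swp h h'))
        (P.smul hb (R.mul (Nat.add_comm 1 m) η x) y) := by
    have e2 := P.smul_act (Nat.add_comm 1 l) 1 (swp h h') η (P.smul h x y)
    rw [R.act_one] at e2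
    rw [e2, P.smul_assoc (Nat.add_comm 1 m) hb h (Nat.add_comm 1 l)]
  have e3 : P.smul h1 x (P.smul (Nat.add_comm 1 n) η y) =
      P.act (l + 1) (blk hb (swp (Nat.add_comm 1 m) rfl) 1)
        (P.smul hb (R.mul (Nat.add_comm 1 m) η x) y) := by
    have e4 := P.smul_act hb (swp (Nat.add_comm 1 m) rfl) 1 (R.mul (Nat.add_comm 1 m) η x) y
    rw [P.act_one, ← R.mul_comm (Nat.add_comm 1 m) rfl η x] at e4
    rw [← e4, P.smul_assoc rfl hb (Nat.add_comm 1 n) h1]
  rw [e1, e3, ← P.act_mul, swp_mul_blk h h' h1 h1' (Nat.add_comm 1 m) hb (Nat.add_comm 1 l)]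

/-- `extr` commutes with the suspension.  Proof: pointwise `sus_swp`; the arguments of `x` and `y`
agree: `Fin` elements with equal values (`t ⟨a + 1 + i, _⟩` and `t (succ ⟨a + i, _⟩)`). -/
theorem st_extr {P : MSp R} {a n b m c l : ℕ} (hc : a + b = c) (hl : n + m = l)
    (hc' : a + 1 + b = c + 1) (hl' : n + 1 + m = l + 1) (y : Lp P.seq a n)
    (x : Lp R.self.seq b m) : st (extr hc hl y x) = extr hc' hl' (st y) x := by
  apply Subtype.ext
  apply ContinuousMap.ext
  intro t
  have h1 : (fun i : Fin b => t ⟨a + 1 + i.1, by omega⟩) =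
      fun i : Fin b => t (Fin.succ ⟨a + i.1, by omega⟩) := by
    funext i
    congr 1
    apply Fin.ext
    change a + 1 + i.1 = a + i.1 + 1
    omega
  change P.seq.sus l (t 0) (P.act l (swp ((Nat.add_comm m n).trans hl) hl)
      (P.smul ((Nat.add_comm m n).trans hl)
        (x.1 (fun i : Fin b => t (Fin.succ ⟨a + i.1, by omega⟩)))
        (y.1 (fun i : Fin a => t (Fin.succ ⟨i.1, by omega⟩))))) =
    P.act (l + 1) (swp ((Nat.add_comm m (n + 1)).trans hl') hl')
      (P.smul ((Nat.add_comm m (n + 1)).trans hl')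
        (x.1 (fun i : Fin b => t ⟨a + 1 + i.1, by omega⟩))
        (P.seq.sus n (t 0) (y.1 (fun i : Fin a => t (Fin.succ ⟨i.1, by omega⟩)))))
  rw [h1]
  exact sus_swp P _ _ _ _ _ _ _

theorem stn_extr {P : MSp R} {a n b m c l : ℕ} (hc : a + b = c) (hl : n + m = l) (j : ℕ)
    (hc' : a + j + b = c + j) (hl' : n + j + m = l + j) (y : Lp P.seq a n)
    (x : Lp R.self.seq b m) : stn j (extr hc hl y x) = extr hc' hl' (stn j y) x := by
  induction j with
  | zero => rfl
  | succ j ih =>
    change st (stn j (extr hc hl y x)) = extr hc' hl' (st (stn j y)) x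
    rw [ih (by omega) (by omega)]
    exact st_extr _ _ _ _ _ _

/-- `extr` respects homotopies in the first variable.  Proof: `exists_of_homotopic` for `H`, then
`homotopic_of` with `fun s t => P.act l (swp _ _) (P.smul _ (x.1 ..) (H s (first part of t)))`,
continuity by `P.act_cont`, `P.smul_cont` for the space `I × (Fin c → I)`; boundary as in the
definition of `extr`. -/
theorem extr_homotopic {P : MSp R} {a n b m c l : ℕ} (hc : a + b = c) (hl : n + m = l)
    {y y' : Lp P.seq a n} (x : Lp R.self.seq b m) (h : GenLoop.Homotopic y y') :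
    GenLoop.Homotopic (extr hc hl y x) (extr hc hl y' x) := by
  obtain ⟨H, hH, h0, h1, hb⟩ := exists_of_homotopic h
  refine homotopic_of (P := P.seq) (fun s t => P.act l (swp ((Nat.add_comm m n).trans hl) hl)
      (P.smul ((Nat.add_comm m n).trans hl) (x.1 (fun i => t ⟨a + i.1, by omega⟩))
        (H s (fun i => t ⟨i.1, by omega⟩)))) ?_ ?_ ?_ ?_
  · refine P.act_cont l (I × (Fin c → I)) (fun _ => swp ((Nat.add_comm m n).trans hl) hl) _
      continuous_const
      (P.smul_cont _ (I × (Fin c → I)) (fun q => x.1 (fun i => q.2 ⟨a + i.1, by omega⟩))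
        (fun q => H q.1 (fun i => q.2 ⟨i.1, by omega⟩)) ?_ ?_)
    · have hg : Continuous fun q : I × (Fin c → I) =>
          fun i : Fin b => q.2 ⟨a + i.1, by omega⟩ :=
        continuous_pi fun i =>
          (continuous_apply (⟨a + i.1, by omega⟩ : Fin c)).comp continuous_snd
      exact x.1.continuous.comp hg
    · have hg : Continuous fun q : I × (Fin c → I) =>
          (q.1, fun i : Fin a => q.2 ⟨i.1, by omega⟩) :=
        continuous_fst.prodMk (continuous_pi fun i =>
          (continuous_apply (⟨i.1, by omega⟩ : Fin c)).comp continuous_snd)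
      exact hH.comp hg
  · intro t
    rw [h0]
    rfl
  · intro t
    rw [h1]
    rfl
  · rintro s t ⟨i, hi⟩
    change P.act l _ (P.smul _ (x.1 _) (H s _)) = P.pt l
    by_cases h : i.1 < a
    · have h1 : H s (fun i : Fin a => t ⟨i.1, by omega⟩) = P.pt n :=
        hb s (fun i : Fin a => t ⟨i.1, by omega⟩) ⟨⟨i.1, h⟩, hi⟩
      rw [h1, P.smul_pt, P.act_pt]
    · have h1 : x.1 (fun i : Fin b => t ⟨a + i.1, by omega⟩) = R.pt m := by
        refine x.2 (fun i : Fin b => t ⟨a + i.1, by omega⟩) ⟨⟨i.1 - a, by omega⟩, ?_⟩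
        have h2 : (⟨a + (i.1 - a), by omega⟩ : Fin c) = i := Fin.ext (by simp; omega)
        beta_reduce
        rw [h2]
        exact hi
      rw [h1, P.pt_smul, P.act_pt]

theorem extr_stEq {P : MSp R} {a n b m c l : ℕ} (hc : a + b = c) (hl : n + m = l)
    {y y' : Lp P.seq a n} (x : Lp R.self.seq b m) (h : StEq y y') :
    StEq (extr hc hl y x) (extr hc hl y' x) := by
  obtain ⟨j, hj⟩ := h
  refine ⟨j, ?_⟩
  rw [stn_extr hc hl j (by omega) (by omega), stn_extr hc hl j (by omega) (by omega)]
  exact extr_homotopic _ _ x hj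

/-- The unit: `1 x = x`.  Proof: pointwise `smul x 1` with the swap is `mul 1 x` by
`R.mul_comm`, and `R.one_mul`; the arguments agree. -/
theorem extr_one {b m : ℕ} (hc : 0 + b = b) (hl : 0 + m = m) (x : Lp R.self.seq b m) :
    extr hc hl (oneLp R) x = x := by
  apply Subtype.ext
  apply ContinuousMap.ext
  intro t
  have h1 : (fun i : Fin b => t ⟨0 + i.1, by omega⟩) = t := by
    funext i
    congr 1
    apply Fin.ext
    change 0 + i.1 = i.1
    omega
  change R.act m (swp ((Nat.add_comm m 0).trans hl) hl)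
      (R.mul ((Nat.add_comm m 0).trans hl) (x.1 (fun i : Fin b => t ⟨0 + i.1, by omega⟩))
        (R.unit 0 (OnePoint.some 0))) = x.1 t
  rw [h1, ← R.mul_comm ((Nat.add_comm m 0).trans hl) hl]
  exact R.one_mul hl _

end Pool.Agent.MP_d175a7_gt
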