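import Pool.Agent.Lib.MP_d175a7_gt.PinA

/-! # The extension by one of a function on the degeneracies of a simplex -/

set_option autoImplicit false
set_option linter.unusedVariables false

namespace Pool.Agent.MP_d175a7_gt

universe u v w

open scoped Classical in
/-- The extension by `1` of a function on the degeneracies of `o`. -/
noncomputable def ext1 {X : PS.{u}} {D : ℕ} (o : X.X D) {n : ℕ} {G : Type v} [One G]
    (g : (Fin (n + 1) →o Fin (D + 1)) → G) (a : X.X n) : G :=
  if h : ∃ α : Fin (n + 1) →o Fin (D + 1), Function.Surjective α ∧ a = X.map α o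
  then g h.choose else 1

theorem ext1_of {X : PS.{u}} {D : ℕ} {o : X.X D} (ho : NonDeg o) {n : ℕ} {G : Type v}
    [One G] (g : (Fin (n + 1) →o Fin (D + 1)) → G)
    (α : Fin (n + 1) →o Fin (D + 1)) (h : Function.Surjective α) :
    ext1 o g (X.map α o) = g α := by
  unfold ext1
  have hex : ∃ β : Fin (n + 1) →o Fin (D + 1), Function.Surjective β ∧ X.map α o = X.map β o :=
    ⟨α, h, rfl⟩
  rw [dif_pos hex]
  exact congrArg g (ez_unique ho α hex.choose h hex.choose_spec.2).symm

theorem ext1_of_not {X : PS.{u}} {D : ℕ} {o : X.X D} {n : ℕ} {G : Type v}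
    [One G] (g : (Fin (n + 1) →o Fin (D + 1)) → G) (a : X.X n)
    (h : ¬ ∃ α : Fin (n + 1) →o Fin (D + 1), Function.Surjective α ∧ a = X.map α o) :
    ext1 o g a = 1 := dif_neg h

/-- For functions `g` vanishing on the operators which are not surjective the extension takes the
value `g α` at `X.map α o` for all `α`.  Proof: if `α` is not surjective, `X.map α o` is not a
degeneracy of `o`: otherwise `o = X.map (α.comp s) o` for a section `s` of the surjective operator,
but `α.comp s : [D] → [D]` is not surjective, hence not injective, contradiction to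
`NonDeg o`. -/
theorem ext1_map {X : PS.{u}} {D : ℕ} {o : X.X D} (ho : NonDeg o) {n : ℕ} {G : Type v}
    [One G] (g : (Fin (n + 1) →o Fin (D + 1)) → G)
    (hg : ∀ α : Fin (n + 1) →o Fin (D + 1), ¬ Function.Surjective α → g α = 1)
    (α : Fin (n + 1) →o Fin (D + 1)) : ext1 o g (X.map α o) = g α := by
  by_cases hα : Function.Surjective α
  · exact ext1_of ho g α hα
  · rw [hg α hα]
    refine ext1_of_not g _ ?_
    rintro ⟨β, hβ, he⟩
    have h1 := ez_unique ho β α hβ he.symm
    exact hα (h1 ▸ hβ)

/-- Naturality of the extension.  Proof: if `a = X.map α o` use `ext1_map` twice.  If `a` is not a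
degeneracy of `o`, then `X.map β a` is not one either (`ez_face`) and both sides are `1`. -/
theorem ext1_nat {X : PS.{u}} {D : ℕ} (hD : DimLe X D) {o : X.X D} (ho : NonDeg o)
    {m n : ℕ} {G : Type v} {G' : Type w} [One G] [One G']
    (g : (Fin (n + 1) →o Fin (D + 1)) → G) (g' : (Fin (m + 1) →o Fin (D + 1)) → G')
    (β : Fin (m + 1) →o Fin (n + 1)) (r : G → G') (hr : r 1 = 1)
    (hgg : ∀ α : Fin (n + 1) →o Fin (D + 1), g' (α.comp β) = r (g α))
    (hg : ∀ α : Fin (n + 1) →o Fin (D + 1), ¬ Function.Surjective α → g α = 1)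
    (hg' : ∀ α : Fin (m + 1) →o Fin (D + 1), ¬ Function.Surjective α → g' α = 1)
    (a : X.X n) : ext1 o g' (X.map β a) = r (ext1 o g a) := by
  by_cases ha : ∃ α : Fin (n + 1) →o Fin (D + 1), Function.Surjective α ∧ a = X.map α o
  · obtain ⟨α, hα, rfl⟩ := ha
    rw [← X.map_comp, ext1_map ho g' hg', ext1_map ho g hg]
    exact hgg α
  · rw [ext1_of_not g a ha, hr]
    refine ext1_of_not g' _ ?_
    rintro ⟨α, hα, he⟩
    exact ha (ez_face hD ho β a α hα he)

/-- a surjective monotone self map is the identity -/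
private theorem pinB_id {D : ℕ} (γ : Fin (D + 1) →o Fin (D + 1)) (h : Function.Surjective γ) :
    γ = OrderHom.id := by
  have h1 : StrictMono γ := γ.monotone.strictMono_of_injective (Finite.injective_iff_surjective.2 h)
  have h2 : (γ : Fin (D + 1) → Fin (D + 1)) = id :=
    (StrictMono.range_inj h1 strictMono_id).1 (by rw [h.range_eq, Set.range_id])
  ext i : 2
  exact congrFun h2 i

/-- sections of surjective operators -/
private theorem pinB_section {m D : ℕ} (α : Fin (m + 1) →o Fin (D + 1))
    (h : Function.Surjective α) :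
    ∃ s : Fin (D + 1) →o Fin (m + 1), α.comp s = OrderHom.id := by
  choose s hs using h
  refine ⟨⟨s, fun i j hij => ?_⟩, ?_⟩
  · by_contra hlt
    rw [not_le] at hlt
    have h1 := α.monotone hlt.le
    rw [hs, hs] at h1
    have h2 : i = j := le_antisymm hij h1
    rw [h2] at hlt
    exact lt_irrefl _ hlt
  · ext i : 2
    exact hs i

/-- A simplex `a ≠ o` of dimension `D` has no simplex in its degenerate-face orbit which is a
degeneracy of `o`.  Proof: `ez_face` gives `a = X.map γ o` with `γ : [D] → [D]` surjective, hence the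
identity. -/
theorem ext1_ne {X : PS.{u}} {D : ℕ} (hD : DimLe X D) {o : X.X D} (ho : NonDeg o)
    (a : X.X D) (ha : a ≠ o) {m : ℕ} (β : Fin (m + 1) →o Fin (D + 1)) {G : Type v} [One G]
    (g : (Fin (m + 1) →o Fin (D + 1)) → G) : ext1 o g (X.map β a) = 1 := by
  refine ext1_of_not g _ ?_
  rintro ⟨α, hα, he⟩
  obtain ⟨γ, hγ, h1⟩ := ez_face hD ho β a α hα he
  refine ha ?_
  rw [h1, pinB_id γ hγ, X.map_id]

/-- The base point is not a degeneracy of `o ≠ pt`.  Proof: otherwise
`o = X.map s (X.map α o) = X.map s pt = pt` for a section `s` of `α`. -/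
theorem ext1_pt {X : PS.{u}} {D : ℕ} {o : X.X D} (ho : o ≠ X.pt D) {m : ℕ} {G : Type v} [One G]
    (g : (Fin (m + 1) →o Fin (D + 1)) → G) : ext1 o g (X.pt m) = 1 := by
  refine ext1_of_not g _ ?_
  rintro ⟨α, hα, he⟩
  obtain ⟨s, hs⟩ := pinB_section α hα
  refine ho ?_
  have h1 : X.map s (X.map α o) = o := by
    rw [← X.map_comp, hs, X.map_id]
  rw [← h1, ← he, X.map_pt]

end Pool.Agent.MP_d175a7_gt
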