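import Pool.Agent.Lib.MP_d175a7_gt.Kap
import Pool.Agent.Lib.MP_d175a7_gt.PinB

/-! # The map defined by a class and a top dimensional simplex -/

set_option autoImplicit false
set_option linter.unusedVariables false

namespace Pool.Agent.MP_d175a7_gt

open CategoryTheory

universe u

variable {C : Type 1} [Category.{0} C]

/-- `(τ, a) ↦ c(τ, β)` if `a = A.map β o`, `1` otherwise. -/
noncomputable def fhat {S : SMon C} {b D : ℕ} (c : CM S b D) {A : PS.{u}} (o : A.X D) (n : ℕ)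
    (τ : Fin b → Mon n) (a : A.X n) : KG S n :=
  ext1 o (fun β => c.g n τ β) a

/-- Naturality: `ext1_nat` with `r = KG.map α`, `c.nat`, `c.bd'`. -/
theorem fhat_nat {S : SMon C} {b D : ℕ} (c : CM S b D) {A : PS.{u}} (hD : DimLe A D) {o : A.X D}
    (ho : NonDeg o) {m n : ℕ} (α : Fin (m + 1) →o Fin (n + 1)) (τ : Fin b → Mon n) (a : A.X n) :
    fhat c o m (fun i => (τ i).comp α) (A.map α a) = KG.map α (fhat c o n τ a) := by
  exact ext1_nat hD ho (fun β => c.g n τ β) (fun β => c.g m (fun i => (τ i).comp α) β) α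
    (fun x => KG.map α x) (map_one _) (fun γ => c.nat α τ γ) (fun γ hγ => c.bd' τ γ hγ)
    (fun γ hγ => c.bd' _ γ hγ) a

theorem fhat_cst {S : SMon C} {b D : ℕ} (c : CM S b D) {A : PS.{u}} (o : A.X D) {n : ℕ}
    (τ : Fin b → Mon n) (a : A.X n) (i : Fin b) (h : IsCst (τ i)) : fhat c o n τ a = 1 := by
  unfold fhat ext1
  split_ifs with h1
  · exact c.bd τ _ i h
  · rfl

theorem fhat_pt {S : SMon C} {b D : ℕ} (c : CM S b D) {A : PS.{u}} {o : A.X D}
    (ho : o ≠ A.pt D) {n : ℕ} (τ : Fin b → Mon n) : fhat c o n τ (A.pt n) = 1 := by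
  exact ext1_pt ho _

/-- The values at the simplices of `o` (`ext1_map`, `c.bd'`). -/
theorem fhat_map {S : SMon C} {b D : ℕ} (c : CM S b D) {A : PS.{u}} {o : A.X D}
    (ho : NonDeg o) {n : ℕ} (τ : Fin b → Mon n) (β : Fin (n + 1) →o Fin (D + 1)) :
    fhat c o n τ (A.map β o) = c.g n τ β := by
  exact ext1_map ho _ (fun γ hγ => c.bd' τ γ hγ) β

theorem fhat_ne {S : SMon C} {b D : ℕ} (c : CM S b D) {A : PS.{u}} (hD : DimLe A D) {o : A.X D}
    (ho : NonDeg o) (a : A.X D) (ha : a ≠ o) {n : ℕ} (τ : Fin b → Mon n)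
    (β : Fin (n + 1) →o Fin (D + 1)) : fhat c o n τ (A.map β a) = 1 := by
  exact ext1_ne hD ho a ha β _

end Pool.Agent.MP_d175a7_gt
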