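import Pool.Agent.Lib.MP_d175a7_gt.Fhat

/-! # The pointed map -/

set_option autoImplicit false
set_option linter.unusedVariables false

namespace Pool.Agent.MP_d175a7_gt

open CategoryTheory

universe u

variable {C : Type 1} [Category.{0} C]

private theorem fm_apc {m n : ℕ} (d k : ℕ) (α : Fin (m + 1) →o Fin (n + 1))
    (τ : Fin k → Mon n) (τ' : Fin d → Mon n) :
    apc d k (fun i => (τ i).comp α) (fun i => (τ' i).comp α)
      = fun i => (apc d k τ τ' i).comp α := by
  funext i
  unfold apc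
  split_ifs
  · rfl
  · rfl

private theorem fm_in {S : SMon C} {d k D : ℕ} (c : CM S (d + k) D) {A : PS.{u}}
    {o : A.X D} (ho' : o ≠ A.pt D) (n : ℕ) (τ : Fin k → Mon n)
    (r : (Fin d → Mon n) × A.X n) (hr : Bad d A n r) :
    fhat c o n (apc d k τ r.1) r.2 = 1 := by
  rcases hr with ⟨i, hi⟩ | hr
  · refine fhat_cst c o _ _ (⟨k + i.1, by omega⟩ : Fin (d + k)) ?_
    have h : apc d k τ r.1 ⟨k + i.1, by omega⟩ = r.1 i := by
      unfold apc
      rw [dif_neg (by simp)]
      have h2 : (⟨k + i.1 - k, by omega⟩ : Fin d) = i := Fin.ext (by simp)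
      exact congrArg r.1 h2
    rw [h]; exact hi
  · rw [hr]; exact fhat_pt c ho' _

private noncomputable def fm1 {S : SMon C} {d k D : ℕ} (c : CM S (d + k) D) {A : PS.{u}}
    {o : A.X D} (ho' : o ≠ A.pt D) (n : ℕ) (τ : Fin k → Mon n) (x : (Susp d A).X n) : KG S n :=
  Quotient.lift (s := suspSetoid d A n) (fun r => fhat c o n (apc d k τ r.1) r.2) (by
    rintro a b (rfl | ⟨h, h'⟩)
    · rfl
    · change fhat c o n (apc d k τ a.1) a.2 = fhat c o n (apc d k τ b.1) b.2
      rw [fm_in c ho' n τ a h, fm_in c ho' n τ b h']) x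

private theorem fm_out {S : SMon C} {d k D : ℕ} (c : CM S (d + k) D) {A : PS.{u}}
    {o : A.X D} (ho' : o ≠ A.pt D) (n : ℕ)
    (q : (Fin k → Mon n) × (Susp d A).X n) (hq : Bad k (Susp d A) n q) :
    fm1 c ho' n q.1 q.2 = 1 := by
  obtain ⟨τ, x⟩ := q
  rcases hq with ⟨i, hi⟩ | hq
  · induction x using Quotient.inductionOn with
    | h r =>
      change fhat c o n (apc d k τ r.1) r.2 = 1
      refine fhat_cst c o _ _ (⟨i.1, by omega⟩ : Fin (d + k)) ?_
      have h : apc d k τ r.1 ⟨i.1, by omega⟩ = τ i := by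
        unfold apc
        rw [dif_pos i.2]
      rw [h]; exact hi
  · have hq' : x = (Susp d A).pt n := hq
    subst hq'
    exact fhat_pt c ho' _

private noncomputable def fm2 {S : SMon C} {d k D : ℕ} (c : CM S (d + k) D) {A : PS.{u}}
    {o : A.X D} (ho' : o ≠ A.pt D) (n : ℕ) (x : (Susp k (Susp d A)).X n) : KG S n :=
  Quotient.lift (s := suspSetoid k (Susp d A) n) (fun q => fm1 c ho' n q.1 q.2) (by
    rintro a b (rfl | ⟨h, h'⟩)
    · rfl
    · change fm1 c ho' n a.1 a.2 = fm1 c ho' n b.1 b.2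
      rw [fm_out c ho' n a h, fm_out c ho' n b h']) x

/-- The pointed map `Σ^k Σ^d A → K` with `[τ, [τ', a]] ↦ fhat c o (τ ++ τ') a`.
Proof of the existence: `Quotient.lift` twice, all collapsed tuples have value `1`
(`fhat_cst`, `fhat_pt`; a constant coordinate of `τ` or `τ'` is one of `apc d k τ τ'`); naturality
from `fhat_nat` (`apc` commutes with composition). -/
theorem exists_fmap {S : SMon C} {d k D : ℕ} (c : CM S (d + k) D) {A : PS.{u}} (hD : DimLe A D)
    {o : A.X D} (ho : NonDeg o) (ho' : o ≠ A.pt D) :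
    ∃ F : PMap (Susp k (Susp d A)) (KGps S), ∀ (n : ℕ) (τ : Fin k → Mon n) (τ' : Fin d → Mon n)
      (a : A.X n), F.f n (Susp.mk τ (Susp.mk τ' a)) = fhat c o n (apc d k τ τ') a := by
  refine ⟨{ f := fun n x => fm2 c ho' n x, nat := ?_, pt := ?_ }, ?_⟩
  · intro m n α x
    induction x using Quotient.inductionOn with
    | h q =>
      obtain ⟨τ, y⟩ := q
      induction y using Quotient.inductionOn with
      | h r =>
        obtain ⟨τ', a⟩ := r
        change fhat c o m (apc d k (fun i => (τ i).comp α) (fun i => (τ' i).comp α)) (A.map α a)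
          = KG.map α (fhat c o n (apc d k τ τ') a)
        rw [fm_apc]
        exact fhat_nat c hD ho α _ a
  · intro n
    exact fhat_pt c ho' _
  · intro n τ τ' a
    rfl

end Pool.Agent.MP_d175a7_gt
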