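import Pool.Agent.Lib.MP_d175a7_gt.Fhat

/-! # The iterated prism of the map -/

set_option autoImplicit false
set_option linter.unusedVariables false

namespace Pool.Agent.MP_d175a7_gt

open CategoryTheory

universe u

variable {C : Type 1} [Category.{0} C]

private theorem fhatP_zero {p b : ℕ} {X : PS.{u}} (n : ℕ) (x : X.X n) :
    pr b (fun _ _ _ => (0 : ZMod p) : CuC p b X) n x = 0 := by
  have h := pr_sum (p := p) (X := X) b 0 (fun _ => fun _ _ _ => 0) (fun _ => 0) n x
  simpa using h

/-- The iterated prism of the cochain of `fhat` at `o`.  Proof: `pr_nat` for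
`Dl D → A`, `β ↦ A.map β o` at `topS D` (`A.map_id`), and `fhat_map`. -/
theorem pr_fhat {S : SMon C} {p b D : ℕ} (Φ : ACoc S p) (c : CM S b D) {A : PS.{u}} {o : A.X D}
    (ho : NonDeg o) : pr b (fun n τ a => Φ.val n (fhat c o n τ a)) D o =
      pr (X := Dl D) b (fun n τ β => Φ.val n (c.g n τ β)) D (topS D) := by
  have h := pr_nat (X := Dl D) (Y := A) (fun n β => A.map β o)
    (fun α β => A.map_comp β α o) b (fun n τ a => Φ.val n (fhat c o n τ a)) D (topS D)
  have h1 : A.map (topS D) o = o := A.map_id o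
  rw [h1] at h
  rw [← h]
  congr 1
  funext n τ β
  rw [fhat_map c ho τ β]

/-- The iterated prism at the other simplices of dimension `D`.  Proof: `pr_nat` for
`β ↦ A.map β a`, `fhat_ne`, `Φ.val_one`, and `pr b 0 = 0` (`pr_sum` with `N = 0` or induction). -/
theorem pr_fhat_ne {S : SMon C} {p b D : ℕ} (Φ : ACoc S p) (c : CM S b D) {A : PS.{u}}
    (hD : DimLe A D) {o : A.X D} (ho : NonDeg o) (a : A.X D) (ha : a ≠ o) :
    pr b (fun n τ a => Φ.val n (fhat c o n τ a)) D a = 0 := by
  have h := pr_nat (X := Dl D) (Y := A) (fun n β => A.map β a)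
    (fun α β => A.map_comp β α a) b (fun n τ a => Φ.val n (fhat c o n τ a)) D (topS D)
  have h1 : A.map (topS D) a = a := A.map_id a
  rw [h1] at h
  rw [← h]
  have h2 : (fun n τ x => Φ.val n (fhat c o n τ (A.map x a)) : CuC p b (Dl D)) =
      fun _ _ _ => 0 := by
    funext n τ β
    rw [fhat_ne c hD ho a ha τ β, Φ.val_one]
  rw [h2]
  exact fhatP_zero D (topS D)

end Pool.Agent.MP_d175a7_gt
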