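import Mathlib

/-! # Functionals on a ring of characteristic `p` -/

set_option autoImplicit false
set_option linter.unusedVariables false

namespace Pool.Agent.MP_d175a7_gt

/-- In a nontrivial ring of characteristic `p` there is an additive map to `F_p` which does not
vanish on an integer prime to `p`. -/
theorem exists_func {p : ℕ} [Fact p.Prime] {k : Type} [CommRing k] [Nontrivial k]
    (hp : (p : k) = 0) {m : ℕ} (hm : Nat.Coprime p m) : ∃ r : k →+ ZMod p, r (m : k) ≠ 0 := by
  have hchar : CharP k p := by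
    obtain ⟨q, hq⟩ := CharP.exists k
    have h1 : q ∣ p := (CharP.cast_eq_zero_iff k q p).1 hp
    rcases (Nat.dvd_prime Fact.out).1 h1 with h2 | h2
    · exact absurd h2 (CharP.char_ne_one k q)
    · rw [← h2]; exact hq
  let _ : Algebra (ZMod p) k := ZMod.algebra k p
  have hm0 : (m : k) ≠ 0 := by
    intro h
    have h1 : p ∣ m := (CharP.cast_eq_zero_iff k p m).1 h
    have h2 : p ∣ Nat.gcd p m := Nat.dvd_gcd dvd_rfl h1
    rw [hm] at h2
    exact (Fact.out : p.Prime).one_lt.ne' (Nat.dvd_one.1 h2)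
  by_contra hcon
  push Not at hcon
  apply hm0
  rw [← Module.forall_dual_apply_eq_zero_iff (ZMod p)]
  intro φ
  exact hcon φ.toAddMonoidHom

/-- The residue ring of a nontrivial ring with `p² = 0` is nontrivial and of characteristic `p`. -/
theorem residue_nontrivial {p : ℕ} {Λ : Type} [CommRing Λ] [Nontrivial Λ]
    (hp : (p : Λ) ^ 2 = 0) : Nontrivial (Λ ⧸ Ideal.span ({(p : Λ)} : Set Λ)) := by
  rw [Ideal.Quotient.nontrivial_iff, Ne, Ideal.span_singleton_eq_top]
  intro h
  have h1 : IsUnit ((p : Λ) ^ 2) := h.pow 2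
  rw [hp] at h1
  exact not_isUnit_zero h1

theorem residue_char {p : ℕ} {Λ : Type} [CommRing Λ] :
    ((p : ℕ) : Λ ⧸ Ideal.span ({(p : Λ)} : Set Λ)) = 0 := by
  have h : Ideal.Quotient.mk (Ideal.span ({(p : Λ)} : Set Λ)) (p : Λ) = 0 :=
    Ideal.Quotient.eq_zero_iff_mem.2 (Ideal.subset_span rfl)
  rwa [map_natCast] at h

end Pool.Agent.MP_d175a7_gt
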