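import Pool.Agent.Lib.MP_d175a7_gt.CyCo
import Pool.Agent.Lib.MP_d175a7_gt.OntoD
import Pool.Agent.Lib.MP_d175a7_gt.FinA

/-! # Failure of surjectivity for a ring spectrum with a cyclic family of modules -/

set_option autoImplicit false
set_option linter.unusedVariables false

namespace Pool.Agent.MP_d175a7_gt

universe u v

theorem not_onto_cyc {p : ℕ} [Fact p.Prime] {R : RSp} {k : Type} [CommRing k] [Nontrivial k]
    (hpk : (p : k) = 0) {Δ : Det R k} {m r : ℕ} {c : Fin m → Fin r → k} (Y : CycDat Δ m r c)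
    (hsum : ∑ j, ∏ i, c i j = 1) (hm : 2 ≤ m) (hodd : Odd m) (hcop : Nat.Coprime p m)
    {D d j : ℕ} (hd : 0 < d) (hmD : d + j + D = m)
    (A : PS.{u}) (At : PS.{v}) (hA : DimLe A D) (hH : HNe p A D) (s : PMap At (Susp d A))
    (hs : HSur p s (D + d)) (w : PMap At A) :
    ¬ Function.Surjective
      (Cls.pre (Susp.pmap j w) : Cls (Susp j A) (Kth R) → Cls (Susp j At) (Kth R)) := by
  subst hmD
  obtain ⟨q, hq⟩ := exists_func hpk hcop
  refine not_onto_cube (FCm R) q (detRep Δ) hd hodd (Y.cube hm) (Y.cubCo hm) ?_ A At hA hH s hs w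
  rw [hsum, mul_one]
  exact hq

end Pool.Agent.MP_d175a7_gt
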