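import Pool.Agent.Lib.MP_d175a7_gt.FinB
import Pool.Agent.Lib.MP_d175a7_gt.CySelf
import Pool.Agent.Lib.MP_d175a7_gt.BfD
import Pool.Agent.Lib.MP_d175a7_gt.BfCol

/-! # The fibre product `e ×_H ⋯ ×_H e`: cyclic data and failure of surjectivity -/

set_option autoImplicit false
set_option linter.unusedVariables false

namespace Pool.Agent.MP_d175a7_gt

universe u v

theorem nxt_prv {m : ℕ} (a : Fin m) : nxt (prv a) = a := (finRotate m).apply_symm_apply a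

variable {e H : RSp} (ρ : RHom e H) {Λ : Type} [CommRing Λ] {p : ℕ} {f : ℕ}

/-- The cyclic data for the fibre product of `f ≥ 4` copies of `e`. -/
noncomputable def bfSelf (Q : RCh e Λ)
    (hf : ∀ x : Λ, (p : Λ) * x = 0 → ∃ y, x = p * y) (hp : (p : Λ) ^ 2 = 0)
    (hQ : ∀ (a : ℕ) (x y : Lp e.self.seq a a), (∀ t, ρ.f a (x.1 t) = ρ.f a (y.1 t)) →
      ∃ z, Q.Q a x - Q.Q a y = p * z) {v : ℕ} (g : C(Sph v, e.X v))
    (hg : g OnePoint.infty = e.pt v) (hρ : ∀ u, ρ.f v (g u) = H.pt v)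
    (hgp : Q.Q v (sphLp e.self g hg) = p) {o a b c : Fin f} (hoa : o ≠ a) (hob : o ≠ b)
    (hoc : o ≠ c) (hab : a ≠ b) (hac : a ≠ c) (hbc : b ≠ c) {m : ℕ} (hm : 2 ≤ m) :
    SelfDat (BfDet ρ Q o hf hp hQ) m :=
  have h0 : ∀ i : Fin m, o ≠ bet a b c i := fun i => by
    rcases bet_mem a b c i with h | h | h <;> rw [h]
    · exact hoa
    · exact hob
    · exact hoc
  { Z := fun i => Zf ρ v (bet a b c i) o
    io := fun i => zin ρ v (bet a b c i) o (h0 i)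
    hio := fun i => zin_isWeq ρ v (bet a b c i) o (h0 i)
    al := fun i => alf ρ g hg hρ (bet a b c (prv i)) (bet a b c i) o
    comp := fun i n x => alf_alf ρ g hg hρ _ _ _ o n x
    v := v
    t := fun i => tLp ρ g hg hρ (bet a b c i)
    ht := fun i => BfDet_tLp ρ Q o hf hp hQ g hg hρ hgp (bet a b c i) (h0 i)
    hal := fun i => ⟨0, zin_tLp ρ g hg hρ (bet a b c i) o (bet a b c (prv i)) (h0 i)
      (h0 (prv i)) (by
        have h1 := bet_nxt hab hac hbc hm (prv i)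
        rwa [nxt_prv] at h1)⟩ }

theorem not_onto_bf [Fact p.Prime] [Nontrivial Λ] (h4 : 4 ≤ f) (Q : RCh e Λ)
    (hf : ∀ x : Λ, (p : Λ) * x = 0 → ∃ y, x = p * y) (hp : (p : Λ) ^ 2 = 0)
    (hQ : ∀ (a : ℕ) (x y : Lp e.self.seq a a), (∀ t, ρ.f a (x.1 t) = ρ.f a (y.1 t)) →
      ∃ z, Q.Q a x - Q.Q a y = p * z) {v : ℕ} (g : C(Sph v, e.X v))
    (hg : g OnePoint.infty = e.pt v) (hρ : ∀ u, ρ.f v (g u) = H.pt v)
    (hgp : Q.Q v (sphLp e.self g hg) = p)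
    {D d j : ℕ} (hd : 0 < d) (hm : 2 ≤ d + j + D) (hodd : Odd (d + j + D))
    (hcop : Nat.Coprime p (d + j + D))
    (A : PS.{u}) (At : PS.{v}) (hA : DimLe A D) (hH : HNe p A D) (s : PMap At (Susp d A))
    (hs : HSur p s (D + d)) (w : PMap At A) :
    ¬ Function.Surjective (Cls.pre (Susp.pmap j w) :
      Cls (Susp j A) (Kth (Bf e H ρ f)) → Cls (Susp j At) (Kth (Bf e H ρ f))) := by
  have hnt : Nontrivial (ResP p Λ) := residue_nontrivial hp
  have hne : ∀ i j : ℕ, (hi : i < f) → (hj : j < f) → i ≠ j → (⟨i, hi⟩ : Fin f) ≠ ⟨j, hj⟩ :=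
    fun i j hi hj h h' => h (congrArg Fin.val h')
  refine not_onto_cyc (p := p) (k := ResP p Λ) residue_char
    (bfSelf ρ Q hf hp hQ g hg hρ hgp (o := ⟨0, by omega⟩) (a := ⟨1, by omega⟩)
      (b := ⟨2, by omega⟩) (c := ⟨3, by omega⟩) (hne 0 1 _ _ (by decide))
      (hne 0 2 _ _ (by decide)) (hne 0 3 _ _ (by decide)) (hne 1 2 _ _ (by decide))
      (hne 1 3 _ _ (by decide)) (hne 2 3 _ _ (by decide)) hm).cyc
    ?_ hm hodd hcop hd rfl A At hA hH s hs w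
  simp

end Pool.Agent.MP_d175a7_gt
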