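import Pool.Agent.Lib.MP_d175a7_gt.V2Cyc

/-!
# The obstruction for `B = e' ×_(H') H`
-/

set_option autoImplicit false
set_option linter.unusedVariables false

namespace Pool.Agent.MP_d175a7_gt

open CategoryTheory
open scoped Topology unitInterval

universe u v

/-- The diagonal `e → Bf`. -/
def Bf.di {e H : RSp} (ρ : RHom e H) (f : ℕ) : RHom e (Bf e H ρ f) where
  f n x := ⟨fun _ => x, fun _ _ => rfl⟩
  cont n T _ _ _ g hg := Continuous.subtype_mk (continuous_pi fun i => hg) _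
  pt n := rfl
  act n A x := rfl
  mul h x y := rfl
  unit n v := rfl

variable {e H H' : RSp} {ρ : RHom e H'} {h : RHom H H'} {θ : RHom e e} {θ' : RHom H' H'}
  {hρθ : ∀ n x, ρ.f n (θ.f n x) = θ'.f n (ρ.f n x)}
  {hθ : ∀ n y, θ'.f n (h.f n y) = h.f n y} {Λ : Type} [CommRing Λ] {p : ℕ}

theorem pow_fix {sg : Λ →+* Λ} {f : ℕ} (hsf : ∀ x, (sg ^ f) x = x) (x : Λ) {s j : Fin f}
    [NeZero f] : (sg ^ j.1) ((sg ^ (s - j).1) x) = (sg ^ s.1) x := by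
  have h1 : ∀ a b : ℕ, ∀ x, (sg ^ a) ((sg ^ b) x) = (sg ^ (a + b)) x := fun a b x => by
    rw [pow_add]
    rfl
  rw [h1]
  by_cases hsj : j ≤ s
  · rw [Fin.sub_val_of_le hsj]
    have h2 : j.1 ≤ s.1 := hsj
    rw [Nat.add_sub_cancel' h2]
  · have h2 : s.1 < j.1 := not_le.1 hsj
    have h3 : (s - j).1 = f + s.1 - j.1 := by
      rw [Fin.sub_def]
      change (f - j.1 + s.1) % f = _
      rw [Nat.mod_eq_of_lt (by have := j.2; omega)]
      have := j.2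
      omega
    rw [h3]
    have h4 : j.1 + (f + s.1 - j.1) = f + s.1 := by
      have := j.2
      omega
    rw [h4, ← h1, hsf]

/-- The values of `Q` on the slots. -/
theorem Q_iter (K : QD ρ Λ p) (sg : Λ →+* Λ)
    (hsg : ∀ (a : ℕ) (x : Lp e.self.seq a a), K.Q.Q a (θ.sh.lp x) = sg (K.Q.Q a x))
    (i a : ℕ) (x : Lp e.self.seq a a) : K.Q.Q a ((θ.iter i).sh.lp x) = (sg ^ i) (K.Q.Q a x) := by
  induction i with
  | zero => rfl
  | succ i ih =>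
    have h1 : (θ.iter (i + 1)).sh.lp x = θ.sh.lp ((θ.iter i).sh.lp x) := rfl
    rw [h1, hsg, ih, pow_succ']
    rfl

theorem QD.cyc3 (K : QD ρ Λ p) (sg : Λ →+* Λ)
    (hsg : ∀ (a : ℕ) (x : Lp e.self.seq a a), K.Q.Q a (θ.sh.lp x) = sg (K.Q.Q a x))
    {f : ℕ} (hf : 6 ≤ f) (hsf : ∀ x, (sg ^ f) x = x)
    {v : ℕ} (g : C(Sph v, e.X v)) (hg : g OnePoint.infty = e.pt v)
    (hρ : ∀ u, ρ.f v (g u) = H'.pt v) (hgp : K.Q.Q v (sphLp e.self g hg) = p)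
    (F : FreeMod (Pbr ρ h) (PB (Pbr.emb ρ h θ θ' hρθ hθ f)) f) (u : Fin f → ℕ)
    (y : ∀ l, Lp e.self.seq (u l) (u l))
    (hdet : IsUnit (Matrix.det (Matrix.of fun l j : Fin f =>
      (Ideal.Quotient.mk _ ((sg ^ j.1) (K.Q.Q (u l) (y l))) : ResP p Λ)))) {m : ℕ}
    (hm : 3 ≤ m) : ∃ (Dt : Det (Pbr ρ h) (ResP p Λ)) (c : Fin m → Fin f → ResP p Λ),
      (∑ l, ∏ i, c i l = 1) ∧ Nonempty (CycDat Dt m f c) := by
  have hne : NeZero f := ⟨by omega⟩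
  let φ := Pbr.emb ρ h θ θ' hρθ hθ f
  let Dt := K.det φ (RingHom.id Λ) id (wts Λ f) (wts_sum Λ hf) 0
  let a0 : Fin f := ⟨0, by omega⟩
  let a1 : Fin f := ⟨1, by omega⟩
  let a2 : Fin f := ⟨2, by omega⟩
  let a3 : Fin f := ⟨3, by omega⟩
  have e01 : a0 ≠ a1 := Fin.ne_of_val_ne (show (0 : ℕ) ≠ 1 by decide)
  have e02 : a0 ≠ a2 := Fin.ne_of_val_ne (show (0 : ℕ) ≠ 2 by decide)
  have e12 : a1 ≠ a2 := Fin.ne_of_val_ne (show (1 : ℕ) ≠ 2 by decide)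
  have e30 : a3 ≠ a0 := Fin.ne_of_val_ne (show (3 : ℕ) ≠ 0 by decide)
  have e31 : a3 ≠ a1 := Fin.ne_of_val_ne (show (3 : ℕ) ≠ 1 by decide)
  have e32 : a3 ≠ a2 := Fin.ne_of_val_ne (show (3 : ℕ) ≠ 2 by decide)
  have h1 := K.cyc φ (r := f) (fun j => sg ^ j.1) (fun j => Equiv.subRight j) (wts Λ f)
    (wts_sum Λ hf) 0 Dt ?_ g hg hρ hgp F u
    (fun l => ((Bf.di ρ f).sh.lp (y l) : Lp (Bf e H' ρ f).self.seq (u l) (u l))) ?_ a3
    (bet a0 a1 a2 : Fin m → Fin f) ?_ ?_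
  · refine ⟨Dt, _, ?_, h1⟩
    have h2 : ∀ (i : Fin m) (l : Fin f), (Ideal.Quotient.mk _ (wts Λ f
        ((Equiv.subRight l).symm (bet a0 a1 a2 (nxt i)))) : ResP p Λ) =
        wts (ResP p Λ) f (fadd (bet a0 a1 a2 (nxt i)) l) := by
      intro i l
      rw [wts_map]
      rfl
    simp only [h2]
    refine wts_cyc (ResP p Λ) hf (fun i => bet a0 a1 a2 (nxt i)) (fun i => ?_) ?_ ?_ ?_
    · rcases bet_mem a0 a1 a2 (nxt i) with h' | h' | h'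
      · exact le_of_eq_of_le (congrArg Fin.val h') (by decide : (0 : ℕ) ≤ 2)
      · exact le_of_eq_of_le (congrArg Fin.val h') (by decide : (1 : ℕ) ≤ 2)
      · exact le_of_eq_of_le (congrArg Fin.val h') (by decide : (2 : ℕ) ≤ 2)
    · obtain ⟨i, hi⟩ := bet_a a0 a1 a2 hm
      exact ⟨prv i, by rw [nxt_prv, hi]⟩
    · obtain ⟨i, hi⟩ := bet_b a0 a1 a2 hm
      exact ⟨prv i, by rw [nxt_prv, hi]⟩
    · obtain ⟨i, hi⟩ := bet_c a0 a1 a2 hm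
      exact ⟨prv i, by rw [nxt_prv, hi]⟩
  · intro j a b
    change psiC p (wts Λ f) 0 (K.fam (RingHom.id Λ) id (φ.sh.lp b)) = _
    congr 1
    funext s
    change K.Q.Q a ((θ.iter s.1).sh.lp ((Pbr.fst ρ h).sh.lp b)) =
      (sg ^ j.1) (K.Q.Q a ((θ.iter (s - j).1).sh.lp ((Pbr.fst ρ h).sh.lp b)))
    rw [Q_iter K sg hsg, Q_iter K sg hsg, pow_fix hsf]
  · have h2 : (Matrix.of fun l j : Fin f => psiC p (wts Λ f) 0 (K.fam (sg ^ j.1)
        (Equiv.subRight j) (asB φ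
          ((Bf.di ρ f).sh.lp (y l) : Lp (Bf e H' ρ f).self.seq (u l) (u l))))) =
        (TrivSqZeroExt.inlHom (ResP p Λ) (ResP p Λ)).mapMatrix (Matrix.of fun l j : Fin f =>
          (Ideal.Quotient.mk _ ((sg ^ j.1) (K.Q.Q (u l) (y l))) : ResP p Λ)) := by
      refine Matrix.ext fun l j => ?_
      exact psiC_const 0 K.flat (wts_sum Λ hf) ((sg ^ j.1) (K.Q.Q (u l) (y l)))
    rw [h2, ← RingHom.map_det]
    exact hdet.map _
  · intro i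
    rcases bet_mem a0 a1 a2 i with h' | h' | h' <;> rw [h']
    · exact e30
    · exact e31
    · exact e32
  · intro a
    have h2 := bet_nxt (f := f) (a := a0) (b := a1) (c := a2) e01 e02 e12 (by omega) (prv a)
    rwa [nxt_prv] at h2

/-- The obstruction for `B = e ×_(H') H`. -/
theorem v3_not_onto [Fact p.Prime] [Nontrivial Λ] (K : QD ρ Λ p) (sg : Λ →+* Λ)
    (hsg : ∀ (a : ℕ) (x : Lp e.self.seq a a), K.Q.Q a (θ.sh.lp x) = sg (K.Q.Q a x))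
    {f : ℕ} (hf : 6 ≤ f) (hsf : ∀ x, (sg ^ f) x = x)
    {v : ℕ} (g : C(Sph v, e.X v)) (hg : g OnePoint.infty = e.pt v)
    (hρ : ∀ u, ρ.f v (g u) = H'.pt v) (hgp : K.Q.Q v (sphLp e.self g hg) = p)
    (F : FreeMod (Pbr ρ h) (PB (Pbr.emb ρ h θ θ' hρθ hθ f)) f) (u : Fin f → ℕ)
    (y : ∀ l, Lp e.self.seq (u l) (u l))
    (hdet : IsUnit (Matrix.det (Matrix.of fun l j : Fin f =>
      (Ideal.Quotient.mk _ ((sg ^ j.1) (K.Q.Q (u l) (y l))) : ResP p Λ))))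
    {D d j : ℕ} (hd : 0 < d) (hodd : Odd (d + j + D))
    (h3 : 3 ≤ d + j + D) (hcop : Nat.Coprime p (d + j + D))
    (A : PS.{u}) (At : PS.{v}) (hA : DimLe A D) (hH : HNe p A D) (s : PMap At (Susp d A))
    (hs : HSur p s (D + d)) (w : PMap At A) :
    ¬ Function.Surjective
      (Cls.pre (Susp.pmap j w) :
        Cls (Susp j A) (Kth (Pbr ρ h)) → Cls (Susp j At) (Kth (Pbr ρ h))) := by
  obtain ⟨Dt, c, hc, ⟨Y⟩⟩ := K.cyc3 sg hsg hf hsf g hg hρ hgp F u y hdet h3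
  have hn := resP_nontrivial K.sq
  exact cyc_not_onto (resP_p p) hd hodd h3 hcop Y hc A At hA hH s hs w

end Pool.Agent.MP_d175a7_gt
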