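import Pool.Agent.Lib.MP_d175a7_gt.Lam

/-!
# Modules: underlying sequential spectra, free modules, products
-/

set_option autoImplicit false
set_option linter.unusedVariables false

namespace Pool.Agent.MP_d175a7_gt

open scoped Topology unitInterval

variable {R : RSp}

/-- The underlying sequential spectrum of a module, with `S^1 ∧ X n → X (n + 1)` given by the unit
`S^1 → R 1` and the action. -/
noncomputable def MSp.seq (P : MSp R) : Seq where
  X := P.X
  pt := P.pt
  closed := P.closed
  sus n s x := P.smul (Nat.add_comm 1 n) (R.unit 1 (lam s)) x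
  sus_cont n T _ _ _ g h hg hh :=
    P.smul_cont (Nat.add_comm 1 n) T (fun t => R.unit 1 (lam (g t))) h
      ((R.unit_cont 1).comp (lam_cont.comp hg)) hh
  sus_zero n x := by rw [lam_zero, R.unit_pt]; exact P.pt_smul _ x
  sus_one n x := by rw [lam_one, R.unit_pt]; exact P.pt_smul _ x
  sus_pt n s := P.smul_pt _ _

/-- The underlying map of sequential spectra of a module homomorphism. -/
noncomputable def MHom.sh {P Q : MSp R} (f : MHom P Q) : SHom P.seq Q.seq where
  f := f.f
  cont := f.cont
  pt := f.pt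
  sus n s x := f.smul _ _ _

/-- A module homomorphism is a weak equivalence if it is a `π_*`-isomorphism. -/
def MHom.IsWeq {P Q : MSp R} (f : MHom P Q) : Prop := f.sh.IsWeq

@[ext] theorem MHom.ext {P Q : MSp R} {f g : MHom P Q} (h : ∀ n x, f.f n x = g.f n x) :
    f = g := by
  cases f; cases g
  congr
  funext n x
  exact h n x

/-- The identity. -/
def MHom.id (P : MSp R) : MHom P P where
  f _ x := x
  cont _ _ _ _ _ _ hg := hg
  pt _ := rfl
  act _ _ _ := rfl
  smul _ _ _ := rfl

/-- Composition: first `f`, then `g`. -/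
def MHom.comp {P Q S : MSp R} (f : MHom P Q) (g : MHom Q S) : MHom P S where
  f n x := g.f n (f.f n x)
  cont n T _ _ _ h hh := g.cont n T (fun t => f.f n (h t)) (f.cont n T h hh)
  pt n := by rw [f.pt, g.pt]
  act n A x := by rw [f.act, g.act]
  smul h r x := by rw [f.smul, g.smul]

/-- A ring spectrum as a module over itself. -/
def RSp.self (R : RSp) : MSp R where
  toOSeq := R.toOSeq
  smul := R.mul
  smul_cont := R.mul_cont
  smul_pt := R.mul_pt
  pt_smul := R.pt_mul
  smul_assoc := R.mul_assoc
  smul_act := R.mul_act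
  one_smul := R.one_mul

/-- The effect of a homomorphism of ring spectra on the underlying sequential spectra. -/
noncomputable def RHom.sh {R S : RSp} (φ : RHom R S) : SHom R.self.seq S.self.seq where
  f := φ.f
  cont := φ.cont
  pt := φ.pt
  sus n s x := by
    change φ.f (n + 1) (R.mul _ (R.unit 1 (lam s)) x) = S.mul _ (S.unit 1 (lam s)) (φ.f n x)
    rw [φ.mul, φ.unit]

/-! ### The free module `R^r` -/

section Free

variable (R : RSp) (r : ℕ)

/-- The action of `O(n)` on `R^r`. -/
abbrev freeAct (n : ℕ) (A : Ort n) (x : Fin r → R.X n) : Fin r → R.X n := fun i => R.act n A (x i)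

/-- The action of `R` on `R^r`. -/
abbrev freeMul {m n k : ℕ} (h : m + n = k) (a : R.X m) (x : Fin r → R.X n) : Fin r → R.X k :=
  fun i => R.mul h a (x i)

theorem free_closed (n : ℕ) : IsClosed ({fun _ => R.pt n} : Set (Fin r → R.X n)) := by
  have h : ({fun _ => R.pt n} : Set (Fin r → R.X n)) = ⋂ i, {x | x i = R.pt n} := by
    ext x; simp [funext_iff]
  rw [h]
  exact isClosed_iInter fun i =>
    IsClosed.preimage (f := fun x : Fin r → R.X n => x i) (continuous_apply i) (R.closed n)

theorem free_act_cont (n : ℕ) : KCont₂ (freeAct R r n) := fun T _ _ _ g h hg hh =>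
  continuous_pi fun i => R.act_cont n T g (fun t => h t i) hg ((continuous_apply i).comp hh)

theorem free_act_one (n : ℕ) (x : Fin r → R.X n) : freeAct R r n 1 x = x :=
  funext fun i => R.act_one n _

theorem free_act_mul (n : ℕ) (A B : Ort n) (x : Fin r → R.X n) :
    freeAct R r n (A * B) x = freeAct R r n A (freeAct R r n B x) :=
  funext fun i => R.act_mul n _ _ _

theorem free_act_pt (n : ℕ) (A : Ort n) : freeAct R r n A (fun _ => R.pt n) = fun _ => R.pt n :=
  funext fun i => R.act_pt n _

theorem free_smul_cont {m n k : ℕ} (h : m + n = k) : KCont₂ (freeMul R r h) :=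
  fun T _ _ _ g l hg hl =>
    continuous_pi fun i => R.mul_cont h T g (fun t => l t i) hg ((continuous_apply i).comp hl)

theorem free_smul_pt {m n k : ℕ} (h : m + n = k) (a : R.X m) :
    freeMul R r h a (fun _ => R.pt n) = fun _ => R.pt k := funext fun i => R.mul_pt h _

theorem free_pt_smul {m n k : ℕ} (h : m + n = k) (y : Fin r → R.X n) :
    freeMul R r h (R.pt m) y = fun _ => R.pt k := funext fun i => R.pt_mul h _

theorem free_smul_assoc {a b c ab bc abc : ℕ} (h₁ : a + b = ab) (h₂ : ab + c = abc)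
    (h₃ : b + c = bc) (h₄ : a + bc = abc) (x : R.X a) (y : R.X b) (z : Fin r → R.X c) :
    freeMul R r h₂ (R.mul h₁ x y) z = freeMul R r h₄ x (freeMul R r h₃ y z) :=
  funext fun i => R.mul_assoc h₁ h₂ h₃ h₄ _ _ _

theorem free_smul_act {m n k : ℕ} (h : m + n = k) (A : Ort m) (B : Ort n) (x : R.X m)
    (y : Fin r → R.X n) :
    freeMul R r h (R.act m A x) (freeAct R r n B y) = freeAct R r k (blk h A B) (freeMul R r h x y) :=
  funext fun i => R.mul_act h _ _ _ _

theorem free_one_smul {n : ℕ} (h : 0 + n = n) (x : Fin r → R.X n) :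
    freeMul R r h (R.unit 0 (OnePoint.some 0)) x = x := funext fun i => R.one_mul h _

/-- The free module `R^r` (levelwise product of `r` copies of `R`). -/
def free : MSp R where
  X n := Fin r → R.X n
  pt n := fun _ => R.pt n
  closed := free_closed R r
  act := freeAct R r
  act_cont := free_act_cont R r
  act_one := free_act_one R r
  act_mul := free_act_mul R r
  act_pt := free_act_pt R r
  smul := freeMul R r
  smul_cont := free_smul_cont R r
  smul_pt := free_smul_pt R r
  pt_smul := free_pt_smul R r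
  smul_assoc := free_smul_assoc R r
  smul_act := free_smul_act R r
  one_smul := free_one_smul R r

end Free

/-! ### Products -/

section Prod

variable (P Q : MSp R)

/-- The action of `O(n)` on the product. -/
abbrev prodAct (n : ℕ) (A : Ort n) (x : P.X n × Q.X n) : P.X n × Q.X n :=
  (P.act n A x.1, Q.act n A x.2)

/-- The action of `R` on the product. -/
abbrev prodSmul {m n k : ℕ} (h : m + n = k) (a : R.X m) (x : P.X n × Q.X n) : P.X k × Q.X k :=
  (P.smul h a x.1, Q.smul h a x.2)

theorem prod_closed (n : ℕ) : IsClosed ({(P.pt n, Q.pt n)} : Set (P.X n × Q.X n)) := by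
  rw [← Set.singleton_prod_singleton]
  exact (P.closed n).prod (Q.closed n)

theorem prod_act_cont (n : ℕ) : KCont₂ (prodAct P Q n) := fun T _ _ _ g h hg hh =>
  (P.act_cont n T g (fun t => (h t).1) hg (continuous_fst.comp hh)).prodMk
    (Q.act_cont n T g (fun t => (h t).2) hg (continuous_snd.comp hh))

theorem prod_act_one (n : ℕ) (x : P.X n × Q.X n) : prodAct P Q n 1 x = x :=
  Prod.ext (P.act_one n _) (Q.act_one n _)

theorem prod_act_mul (n : ℕ) (A B : Ort n) (x : P.X n × Q.X n) :
    prodAct P Q n (A * B) x = prodAct P Q n A (prodAct P Q n B x) :=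
  Prod.ext (P.act_mul n _ _ _) (Q.act_mul n _ _ _)

theorem prod_act_pt (n : ℕ) (A : Ort n) : prodAct P Q n A (P.pt n, Q.pt n) = (P.pt n, Q.pt n) :=
  Prod.ext (P.act_pt n _) (Q.act_pt n _)

theorem prod_smul_cont {m n k : ℕ} (h : m + n = k) : KCont₂ (prodSmul P Q h) :=
  fun T _ _ _ g l hg hl =>
    (P.smul_cont h T g (fun t => (l t).1) hg (continuous_fst.comp hl)).prodMk
      (Q.smul_cont h T g (fun t => (l t).2) hg (continuous_snd.comp hl))

theorem prod_smul_pt {m n k : ℕ} (h : m + n = k) (a : R.X m) :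
    prodSmul P Q h a (P.pt n, Q.pt n) = (P.pt k, Q.pt k) :=
  Prod.ext (P.smul_pt h _) (Q.smul_pt h _)

theorem prod_pt_smul {m n k : ℕ} (h : m + n = k) (y : P.X n × Q.X n) :
    prodSmul P Q h (R.pt m) y = (P.pt k, Q.pt k) :=
  Prod.ext (P.pt_smul h _) (Q.pt_smul h _)

theorem prod_smul_assoc {a b c ab bc abc : ℕ} (h₁ : a + b = ab) (h₂ : ab + c = abc)
    (h₃ : b + c = bc) (h₄ : a + bc = abc) (x : R.X a) (y : R.X b) (z : P.X c × Q.X c) :
    prodSmul P Q h₂ (R.mul h₁ x y) z = prodSmul P Q h₄ x (prodSmul P Q h₃ y z) :=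
  Prod.ext (P.smul_assoc h₁ h₂ h₃ h₄ _ _ _) (Q.smul_assoc h₁ h₂ h₃ h₄ _ _ _)

theorem prod_smul_act {m n k : ℕ} (h : m + n = k) (A : Ort m) (B : Ort n) (x : R.X m)
    (y : P.X n × Q.X n) :
    prodSmul P Q h (R.act m A x) (prodAct P Q n B y) =
      prodAct P Q k (blk h A B) (prodSmul P Q h x y) :=
  Prod.ext (P.smul_act h _ _ _ _) (Q.smul_act h _ _ _ _)

theorem prod_one_smul {n : ℕ} (h : 0 + n = n) (x : P.X n × Q.X n) :
    prodSmul P Q h (R.unit 0 (OnePoint.some 0)) x = x :=
  Prod.ext (P.one_smul h _) (Q.one_smul h _)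

/-- The product of two modules. -/
def MSp.prod : MSp R where
  X n := P.X n × Q.X n
  pt n := (P.pt n, Q.pt n)
  closed := prod_closed P Q
  act := prodAct P Q
  act_cont := prod_act_cont P Q
  act_one := prod_act_one P Q
  act_mul := prod_act_mul P Q
  act_pt := prod_act_pt P Q
  smul := prodSmul P Q
  smul_cont := prod_smul_cont P Q
  smul_pt := prod_smul_pt P Q
  pt_smul := prod_pt_smul P Q
  smul_assoc := prod_smul_assoc P Q
  smul_act := prod_smul_act P Q
  one_smul := prod_one_smul P Q

end Prod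

/-- The zero module. -/
def MSp.zero : MSp R where
  X _ := Unit
  pt _ := ()
  closed _ := isClosed_discrete _
  act _ _ _ := ()
  act_cont _ _ _ _ _ _ _ _ _ := continuous_const
  act_one _ _ := rfl
  act_mul _ _ _ _ := rfl
  act_pt _ _ := rfl
  smul _ _ _ := ()
  smul_cont _ _ _ _ _ _ _ _ _ := continuous_const
  smul_pt _ _ := rfl
  pt_smul _ _ := rfl
  smul_assoc _ _ _ _ _ _ _ := rfl
  smul_act _ _ _ _ _ := rfl
  one_smul _ _ := rfl

/-- The zero homomorphism. -/
def MHom.zero (P S : MSp R) : MHom P S where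
  f n x := S.pt n
  cont n T _ _ _ g hg := continuous_const
  pt n := rfl
  act n A x := (S.act_pt n A).symm
  smul h r x := (S.smul_pt h r).symm

/-- Projections, pairings and products of homomorphisms. -/
def MHom.fst (P Q : MSp R) : MHom (P.prod Q) P where
  f _ x := x.1
  cont _ _ _ _ _ _ hg := continuous_fst.comp hg
  pt _ := rfl
  act _ _ _ := rfl
  smul _ _ _ := rfl

/-- The second projection. -/
def MHom.snd (P Q : MSp R) : MHom (P.prod Q) Q where
  f _ x := x.2
  cont _ _ _ _ _ _ hg := continuous_snd.comp hg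
  pt _ := rfl
  act _ _ _ := rfl
  smul _ _ _ := rfl

/-- The homomorphism `x ↦ (f x, g x)`. -/
def MHom.pair {P Q S : MSp R} (f : MHom S P) (g : MHom S Q) : MHom S (P.prod Q) where
  f n x := (f.f n x, g.f n x)
  cont n T _ _ _ h hh := (f.cont n T h hh).prodMk (g.cont n T h hh)
  pt n := Prod.ext (f.pt n) (g.pt n)
  act n A x := Prod.ext (f.act n A x) (g.act n A x)
  smul h r x := Prod.ext (f.smul h r x) (g.smul h r x)

end Pool.Agent.MP_d175a7_gt
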