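import Pool.Agent.Lib.MP_d175a7_gt.Bk
import Pool.Agent.Lib.MP_d175a7_gt.Mod

/-! # Right multiplication by spheres on a module -/

set_option autoImplicit false
set_option linter.unusedVariables false

namespace Pool.Agent.MP_d175a7_gt

open scoped Topology unitInterval

variable {R : RSp}

/-- `x u = τ (u x)`, `τ` the block permutation: the right multiplication `X n ∧ S^v → X k`,
`n + v = k`. -/
def rm (P : MSp R) {n v k : ℕ} (h : n + v = k) (x : P.X n) (u : Sph v) : P.X k :=
  P.act k (swp ((Nat.add_comm v n).trans h) h)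
    (P.smul ((Nat.add_comm v n).trans h) (R.unit v u) x)

theorem rm_pt (P : MSp R) {n v k : ℕ} (h : n + v = k) (u : Sph v) :
    rm P h (P.pt n) u = P.pt k := by
  rw [rm, P.smul_pt, P.act_pt]

theorem rm_infty (P : MSp R) {n v k : ℕ} (h : n + v = k) (x : P.X n) :
    rm P h x OnePoint.infty = P.pt k := by
  rw [rm, R.unit_pt, P.pt_smul, P.act_pt]

theorem map_rm {P Q : MSp R} (f : MHom P Q) {n v k : ℕ} (h : n + v = k) (x : P.X n)
    (u : Sph v) : f.f k (rm P h x u) = rm Q h (f.f n x) u := by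
  rw [rm, f.act, f.smul, rm]

/-- Left multiplication in terms of right multiplication. -/
theorem smul_unit (P : MSp R) {n v k : ℕ} (h : v + n = k) (h' : n + v = k) (x : P.X n)
    (u : Sph v) : P.smul h (R.unit v u) x = P.act k (swp h' h) (rm P h' x u) := by
  rw [rm, ← P.act_mul, swp_mul_swp, P.act_one]

theorem rm_act (P : MSp R) {n v k : ℕ} (h : n + v = k) (A : Ort n) (B : Ort v) (x : P.X n)
    (u : Sph v) : rm P h (P.act n A x) (sact B u) = P.act k (blk h A B) (rm P h x u) := by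
  rw [rm, rm, R.unit_act, P.smul_act, ← P.act_mul, ← P.act_mul, swp_blk]

theorem rm_act_left (P : MSp R) {n v k : ℕ} (h : n + v = k) (A : Ort n) (x : P.X n)
    (u : Sph v) : rm P h (P.act n A x) u = P.act k (blk h A 1) (rm P h x u) := by
  have h1 := rm_act P h A 1 x u
  rwa [sact_one] at h1

theorem rm_act_right (P : MSp R) {n v k : ℕ} (h : n + v = k) (B : Ort v) (x : P.X n)
    (u : Sph v) : rm P h x (sact B u) = P.act k (blk h 1 B) (rm P h x u) := by
  have h1 := rm_act P h 1 B x u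
  rwa [P.act_one] at h1

/-- Right multiplication commutes with the action of the ring. -/
theorem smul_rm (P : MSp R) {m n v mn nv k : ℕ} (h₁ : m + n = mn) (h₂ : mn + v = k)
    (h₃ : n + v = nv) (h₄ : m + nv = k) (r : R.X m) (x : P.X n) (u : Sph v) :
    P.smul h₄ r (rm P h₃ x u) = rm P h₂ (P.smul h₁ r x) u := by
  have h₂' : v + mn = k := (Nat.add_comm v mn).trans h₂
  have h₃' : v + n = nv := (Nat.add_comm v n).trans h₃
  have h5 : v + m = v + m := rfl
  have h6 : m + v = v + m := Nat.add_comm m v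
  have h7 : (v + m) + n = k := by omega
  rw [rm, rm]
  conv_lhs => rw [← R.toOSeq.act_one m r]
  rw [P.smul_act h₄ 1 (swp h₃' h₃) r (P.smul h₃' (R.unit v u) x),
    ← P.smul_assoc h6 h7 h₃' h₄, R.mul_comm h5 h6 (R.unit v u) r]
  have h8 : P.smul h7 (R.act (v + m) (swp h5 h6) (R.mul h5 (R.unit v u) r)) x =
      P.act k (blk h7 (swp h5 h6) 1) (P.smul h7 (R.mul h5 (R.unit v u) r) x) := by
    have h9 := P.smul_act h7 (swp h5 h6) 1 (R.mul h5 (R.unit v u) r) x
    rwa [P.act_one] at h9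
  rw [h8, P.smul_assoc h5 h7 h₁ h₂', ← P.act_mul,
    swp_hex h₁ h₂' h₂ h5 h6 h7 h₃' h₃ h₄]

/-- Associativity: `(x u) w = x (u w)`. -/
theorem rm_rm (P : MSp R) {n b c nb bc k : ℕ} (h₁ : n + b = nb) (h₂ : nb + c = k)
    (h₃ : b + c = bc) (h₄ : n + bc = k) (x : P.X n) (u : Sph b) (w : Sph c) :
    rm P h₂ (rm P h₁ x u) w = rm P h₄ x (sm h₃ u w) := by
  have a1 : b + n = b + n := rfl
  have a1' : b + n = nb := (Nat.add_comm b n).trans h₁
  have a2 : c + nb = k := (Nat.add_comm c nb).trans h₂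
  have a3 : c + b = bc := (Nat.add_comm c b).trans h₃
  have a4 : bc + n = k := (Nat.add_comm bc n).trans h₄
  rw [rm, rm, rm]
  have h5 : P.smul a2 (R.unit c w) (P.act nb (swp a1' h₁) (P.smul a1' (R.unit b u) x)) =
      P.act k (blk a2 1 (swp a1' h₁)) (P.smul a4 (R.unit bc (sm a3 w u)) x) := by
    have h6 := P.smul_act a2 1 (swp a1' h₁) (R.unit c w) (P.smul a1' (R.unit b u) x)
    rw [R.toOSeq.act_one] at h6
    rw [h6, ← P.smul_assoc a3 a4 a1' a2, R.unit_mul]
  have h7 : P.smul a4 (R.unit bc (sm a3 w u)) x =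
      P.act k (blk a4 (swp h₃ a3) 1) (P.smul a4 (R.unit bc (sm h₃ u w)) x) := by
    have h8 := P.smul_act a4 (swp h₃ a3) 1 (R.unit bc (sm h₃ u w)) x
    rw [P.act_one] at h8
    rw [← h8, ← R.unit_act, ← sm_comm]
  rw [h5, h7, ← P.act_mul, ← P.act_mul]
  congr 1
  refine ort_ext_jv a4 fun z y => ?_
  rw [← jv_jl_jr h₃ z]
  simp only [ort_mul_mulVec, blk_mulVec, swp_mulVec, ort_one_mulVec]
  rw [jv_assoc a3 a4 a1' a2, blk_mulVec, swp_mulVec, ort_one_mulVec, swp_mulVec,
    jv_assoc h₁ h₂ h₃ h₄]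

/-- On the ring itself it is the right multiplication by `S^v → R v`. -/
theorem rm_self (R : RSp) {n v k : ℕ} (h : n + v = k) (x : R.X n) (u : Sph v) :
    rm R.self h x u = R.mul h x (R.unit v u) :=
  (R.mul_comm ((Nat.add_comm v n).trans h) h (R.unit v u) x).symm

/-- Continuity. -/
theorem rm_cont (P : MSp R) {n v k : ℕ} (h : n + v = k) (T : Type) [TopologicalSpace T]
    [CompactSpace T] [T2Space T] (x : T → P.X n) (u : T → Sph v) (hx : Continuous x)
    (hu : Continuous u) : Continuous fun t => rm P h (x t) (u t) :=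
  P.act_cont k T (fun _ => swp ((Nat.add_comm v n).trans h) h)
    (fun t => P.smul ((Nat.add_comm v n).trans h) (R.unit v (u t)) (x t)) continuous_const
    (P.smul_cont ((Nat.add_comm v n).trans h) T (fun t => R.unit v (u t)) x
      ((R.unit_cont v).comp hu) hx)

end Pool.Agent.MP_d175a7_gt
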