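import Pool.Agent.Lib.MP_d175a7_gt.Mod

/-! # Basic properties of weak equivalences -/

set_option autoImplicit false
set_option linter.unusedVariables false

namespace Pool.Agent.MP_d175a7_gt

open scoped Topology unitInterval

/-- The identity. -/
def SHom.id (P : Seq) : SHom P P where
  f _ x := x
  cont _ _ _ _ _ _ hg := hg
  pt _ := rfl
  sus _ _ _ := rfl

/-- Composition: first `f`, then `g`. -/
def SHom.comp {P Q S : Seq} (f : SHom P Q) (g : SHom Q S) : SHom P S where
  f n x := g.f n (f.f n x)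
  cont n T _ _ _ h hh := g.cont n T (fun t => f.f n (h t)) (f.cont n T h hh)
  pt n := by rw [f.pt, g.pt]
  sus n s x := by rw [f.sus, g.sus]

/-- The product of two sequential spectra. -/
def Seq.prod (P Q : Seq) : Seq where
  X n := P.X n × Q.X n
  pt n := (P.pt n, Q.pt n)
  closed n := by
    rw [← Set.singleton_prod_singleton]
    exact (P.closed n).prod (Q.closed n)
  sus n s x := (P.sus n s x.1, Q.sus n s x.2)
  sus_cont n T _ _ _ g h hg hh :=
    (P.sus_cont n T g (fun t => (h t).1) hg (continuous_fst.comp hh)).prodMk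
      (Q.sus_cont n T g (fun t => (h t).2) hg (continuous_snd.comp hh))
  sus_zero n x := Prod.ext (P.sus_zero n _) (Q.sus_zero n _)
  sus_one n x := Prod.ext (P.sus_one n _) (Q.sus_one n _)
  sus_pt n s := Prod.ext (P.sus_pt n _) (Q.sus_pt n _)

/-- The product of two maps. -/
def SHom.prod {P Q P' Q' : Seq} (f : SHom P P') (g : SHom Q Q') :
    SHom (P.prod Q) (P'.prod Q') where
  f n x := (f.f n x.1, g.f n x.2)
  cont n T _ _ _ h hh := (f.cont n T (fun t => (h t).1) (continuous_fst.comp hh)).prodMk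
    (g.cont n T (fun t => (h t).2) (continuous_snd.comp hh))
  pt n := Prod.ext (f.pt n) (g.pt n)
  sus n s x := Prod.ext (f.sus n s _) (g.sus n s _)

theorem SHom.lp_st {P Q : Seq} (f : SHom P Q) {a n : ℕ} (x : Lp P a n) :
    f.lp (st x) = st (f.lp x) := by
  apply Subtype.ext
  apply ContinuousMap.ext
  intro t
  exact f.sus n (t 0) _

theorem SHom.lp_stn {P Q : Seq} (f : SHom P Q) {a n : ℕ} (x : Lp P a n) (j : ℕ) :
    f.lp (stn j x) = stn j (f.lp x) := by
  induction j with
  | zero => rfl
  | succ j ih => change f.lp (st (stn j x)) = st (stn j (f.lp x)); rw [SHom.lp_st, ih]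

/-- Homotopic loops have homotopic suspensions. -/
theorem st_homotopic {P : Seq} {a n : ℕ} {x y : Lp P a n} (h : GenLoop.Homotopic x y) :
    GenLoop.Homotopic (st x) (st y) := by
  obtain ⟨H⟩ := h
  have hc : Continuous fun p : I × (Fin (a + 1) → I) =>
      P.sus n (p.2 0) (H (p.1, fun i => p.2 i.succ)) :=
    P.sus_cont n (I × (Fin (a + 1) → I)) (fun p => p.2 0)
      (fun p => H (p.1, fun i => p.2 i.succ)) ((continuous_apply 0).comp continuous_snd)
      (H.continuous.comp (continuous_fst.prodMk (continuous_pi fun i =>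
        (continuous_apply i.succ).comp continuous_snd)))
  refine ⟨⟨⟨⟨fun p => P.sus n (p.2 0) (H (p.1, fun i => p.2 i.succ)), hc⟩, ?_, ?_⟩, ?_⟩⟩
  · intro t
    change P.sus n (t 0) (H (0, fun i => t i.succ)) = P.sus n (t 0) (x.1 (fun i => t i.succ))
    rw [H.apply_zero]
  · intro t
    change P.sus n (t 0) (H (1, fun i => t i.succ)) = P.sus n (t 0) (y.1 (fun i => t i.succ))
    rw [H.apply_one]
  · intro s t ht
    have hx : (st x).1 t = P.pt (n + 1) := (st x).2 t ht
    change P.sus n (t 0) (H (s, fun i => t i.succ)) = (st x).1 t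
    rw [hx]
    obtain ⟨i, hi⟩ := ht
    rcases Fin.eq_zero_or_eq_succ i with rfl | ⟨j, rfl⟩
    · rcases hi with hi | hi
      · rw [hi]
        exact P.sus_zero n _
      · rw [hi]
        exact P.sus_one n _
    · have hb : (fun i : Fin a => t i.succ) ∈ Cube.boundary (Fin a) := ⟨j, hi⟩
      have h1 : H (s, fun i => t i.succ) = x.1 (fun i => t i.succ) := H.eq_fst s hb
      have h2 : x.1 (fun i => t i.succ) = P.pt n := x.2 _ hb
      rw [h1, h2]
      exact P.sus_pt n _

private theorem stn_homotopic {P : Seq} {a n : ℕ} {x y : Lp P a n} (j : ℕ)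
    (h : GenLoop.Homotopic x y) : GenLoop.Homotopic (stn j x) (stn j y) := by
  induction j with
  | zero => exact h
  | succ j ih => exact st_homotopic ih

private theorem stn_le {P : Seq} {a n : ℕ} {x y : Lp P a n} {j k : ℕ} (hjk : j ≤ k)
    (h : GenLoop.Homotopic (stn j x) (stn j y)) : GenLoop.Homotopic (stn k x) (stn k y) := by
  induction k, hjk using Nat.le_induction with
  | base => exact h
  | succ k _ ih => exact st_homotopic ih

/-- Maps preserve homotopies of loops. -/
theorem lp_homotopic {P Q : Seq} (f : SHom P Q) {a n : ℕ} {x y : Lp P a n}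
    (h : GenLoop.Homotopic x y) : GenLoop.Homotopic (f.lp x) (f.lp y) := by
  obtain ⟨H⟩ := h
  have hc : Continuous fun p : I × (Fin a → I) => f.f n (H p) :=
    f.cont n (I × (Fin a → I)) (fun p => H p) H.continuous
  refine ⟨⟨⟨⟨fun p => f.f n (H p), hc⟩, ?_, ?_⟩, ?_⟩⟩
  · intro t
    change f.f n (H (0, t)) = f.f n (x.1 t)
    rw [H.apply_zero]
  · intro t
    change f.f n (H (1, t)) = f.f n (y.1 t)
    rw [H.apply_one]
  · intro s t ht
    change f.f n (H (s, t)) = f.f n (x.1 t)
    have h1 : H (s, t) = x.1 t := H.eq_fst s ht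
    rw [h1]

theorem StEq.refl {P : Seq} {a n : ℕ} (x : Lp P a n) : StEq x x :=
  ⟨0, GenLoop.Homotopic.refl _⟩

theorem StEq.symm {P : Seq} {a n : ℕ} {x y : Lp P a n} (h : StEq x y) : StEq y x := by
  obtain ⟨j, hj⟩ := h
  exact ⟨j, hj.symm⟩

theorem StEq.trans {P : Seq} {a n : ℕ} {x y z : Lp P a n} (h : StEq x y) (h' : StEq y z) :
    StEq x z := by
  obtain ⟨j, hj⟩ := h
  obtain ⟨k, hk⟩ := h'
  exact ⟨max j k, (stn_le (le_max_left j k) hj).trans (stn_le (le_max_right j k) hk)⟩

end Pool.Agent.MP_d175a7_gt
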