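import Pool.Agent.Lib.MP_d175a7_gt.Tp
import Pool.Agent.Lib.MP_d175a7_gt.Rm
import Pool.Agent.Lib.MP_d175a7_gt.Weq

/-! # The quotient map `I^v → S^v` and iterated suspensions -/

set_option autoImplicit false
set_option linter.unusedVariables false

namespace Pool.Agent.MP_d175a7_gt

open scoped Topology unitInterval

/-- The quotient map `I^v → S^v`. -/
noncomputable def lamv : ∀ v : ℕ, (Fin v → I) → Sph v
  | 0, _ => OnePoint.some 0
  | v + 1, t => sm (Nat.add_comm 1 v) (lam (t 0)) (lamv v (fun i => t i.succ))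

theorem lamv_cont (v : ℕ) : Continuous (lamv v) := by
  induction v with
  | zero => exact continuous_const
  | succ v ih =>
    exact (sm_cont (Nat.add_comm 1 v)).comp ((lam_cont.comp (continuous_apply 0)).prodMk
      (ih.comp (continuous_pi fun i => continuous_apply i.succ)))

theorem lamv_boundary (v : ℕ) (t : Fin v → I) (ht : t ∈ Cube.boundary (Fin v)) :
    lamv v t = OnePoint.infty := by
  induction v with
  | zero => obtain ⟨i, _⟩ := ht; exact i.elim0
  | succ v ih =>
    obtain ⟨i, hi⟩ := ht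
    change sm (Nat.add_comm 1 v) (lam (t 0)) (lamv v (fun i => t i.succ)) = OnePoint.infty
    rcases Fin.eq_zero_or_eq_succ i with rfl | ⟨j, rfl⟩
    · have h : lam (t 0) = OnePoint.infty := by
        rcases hi with hi | hi
        · rw [hi, lam_zero]
        · rw [hi, lam_one]
      rw [h, infty_sm]
    · rw [ih _ ⟨j, hi⟩, sm_infty]

/-- The first `v` coordinates. -/
def hd {a v : ℕ} (t : Fin (a + v) → I) : Fin v → I := fun i => t ⟨i.1, by omega⟩

/-- The last `a` coordinates. -/
def tl {a v : ℕ} (t : Fin (a + v) → I) : Fin a → I := fun i => t ⟨v + i.1, by omega⟩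

theorem hd_cont {a v : ℕ} : Continuous (hd : (Fin (a + v) → I) → Fin v → I) :=
  continuous_pi fun i => continuous_apply _

theorem tl_cont {a v : ℕ} : Continuous (tl : (Fin (a + v) → I) → Fin a → I) :=
  continuous_pi fun i => continuous_apply _

theorem boundary_split {a v : ℕ} (t : Fin (a + v) → I) (ht : t ∈ Cube.boundary (Fin (a + v))) :
    hd t ∈ Cube.boundary (Fin v) ∨ tl t ∈ Cube.boundary (Fin a) := by
  obtain ⟨i, hi⟩ := ht
  by_cases h : i.1 < v
  · exact Or.inl ⟨⟨i.1, h⟩, hi⟩
  · refine Or.inr ⟨⟨i.1 - v, by omega⟩, ?_⟩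
    have h1 : (⟨v + (i.1 - v), by omega⟩ : Fin (a + v)) = i := Fin.ext (by simp; omega)
    change t ⟨v + (i.1 - v), _⟩ = 0 ∨ t ⟨v + (i.1 - v), _⟩ = 1
    rw [h1]
    exact hi

variable {R : RSp}

/-- The iterated suspension is the multiplication with `S^v`. -/
theorem stn_apply (P : MSp R) {a n : ℕ} (v : ℕ) (x : Lp P.seq a n) (t : Fin (a + v) → I) :
    (stn v x).1 t = P.smul (Nat.add_comm v n) (R.unit v (lamv v (hd t))) (x.1 (tl t)) := by
  induction v with
  | zero =>
    have h1 : (tl t : Fin a → I) = t := funext fun i => by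
      change t ⟨0 + i.1, _⟩ = t i
      congr 1
      exact Fin.ext (Nat.zero_add _)
    change x.1 t = P.smul (Nat.add_comm 0 n) (R.unit 0 (OnePoint.some 0)) (x.1 (tl t))
    rw [h1]
    exact (P.one_smul (n := n) (Nat.zero_add n) (x.1 t)).symm
  | succ v ih =>
    change P.smul (Nat.add_comm 1 (n + v)) (R.unit 1 (lam (t 0)))
      ((stn v x).1 (fun i => t i.succ)) = _
    rw [ih]
    change _ = P.smul (Nat.add_comm (v + 1) n) (R.unit (v + 1) (sm (Nat.add_comm 1 v)
      (lam (hd t 0)) (lamv v (fun i => hd t i.succ)))) (x.1 (tl t))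
    rw [← R.unit_mul, P.smul_assoc (Nat.add_comm 1 v) (Nat.add_comm (v + 1) n)
      (Nat.add_comm v n) (Nat.add_comm 1 (n + v))]
    have h2 : (tl (fun i : Fin (a + v) => t i.succ) : Fin a → I) = tl t := funext fun i => by
      change t (Fin.succ ⟨v + i.1, _⟩) = t ⟨v + 1 + i.1, _⟩
      congr 1
      exact Fin.ext (by simp; omega)
    rw [h2]
    rfl

end Pool.Agent.MP_d175a7_gt
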