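import Pool.Agent.Lib.MP_d175a7_gt.RHomC
import Pool.Agent.Lib.MP_d175a7_gt.HomB
import Pool.Agent.Lib.MP_d175a7_gt.LamV
import Pool.Agent.Lib.MP_d175a7_gt.GV
import Pool.Agent.Lib.MP_d175a7_gt.Det

/-!
# Linear combinations of loops and Galois conditions
-/

set_option autoImplicit false
set_option linter.unusedVariables false

namespace Pool.Agent.MP_d175a7_gt

open scoped Topology unitInterval

/-- The sum of the loops `x 0, …, x (f - 1)`: the iterated concatenation. -/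
noncomputable def lsum {P : Seq} {a n f : ℕ} (x : Fin f → Lp P (a + 1) n) : Lp P (a + 1) n :=
  (List.ofFn x).foldr (GenLoop.transAt 0) (cstLp P (a + 1) n)

/-- The first coordinates. -/
def hdI {a v : ℕ} (t : Fin (a + v) → I) : Fin v → I :=
  fun i => t (Fin.castLE (Nat.le_add_left v a) i)

/-- The last coordinates. -/
def tlI {a v : ℕ} (t : Fin (a + v) → I) : Fin a → I :=
  fun i => t (Fin.cast (Nat.add_comm v a) (Fin.natAdd v i))

section Mul

variable {R : RSp} {P : MSp R} {v a n : ℕ}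

/-- The product of a loop `y ∈ Ω^v R_v` and a loop `x ∈ Ω^a P_n`, as a map:
`(s, t) ↦ y(s) x(t) ∈ P_(n+v)`. -/
noncomputable def mulf (y : Lp R.self.seq v v) (x : Lp P.seq a n) (t : Fin (a + v) → I) :
    P.X (n + v) := P.smul (Nat.add_comm v n) (lpap y (hdI t)) (lpap x (tlI t))

theorem mulf_cont (y : Lp R.self.seq v v) (x : Lp P.seq a n) : Continuous (mulf y x) :=
  P.smul_cont (Nat.add_comm v n) (Fin (a + v) → I) (fun t => y.1 (hdI t))
    (fun t => x.1 (tlI t))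
    (y.1.continuous.comp (continuous_pi fun i => continuous_apply _))
    (x.1.continuous.comp (continuous_pi fun i => continuous_apply _))

theorem mulf_bd (y : Lp R.self.seq v v) (x : Lp P.seq a n) :
    ∀ t ∈ Cube.boundary (Fin (a + v)), mulf y x t = P.pt (n + v) := by
  intro t ht
  change P.smul (Nat.add_comm v n) (y.1 (hdI t)) (x.1 (tlI t)) = P.pt (n + v)
  rcases boundary_split t ht with h | h
  · have h1 : y.1 (hdI t) = R.pt v := y.2 (hdI t) h
    rw [h1]
    exact P.pt_smul _ _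
  · have h1 : x.1 (tlI t) = P.pt n := x.2 (tlI t) h
    rw [h1]
    exact P.smul_pt _ _

/-- The product of a loop `y ∈ Ω^v R_v` and a loop `x ∈ Ω^a P_n`:
`(s, t) ↦ y(s) x(t) ∈ P_(n+v)`. -/
noncomputable def mulL (y : Lp R.self.seq v v) (x : Lp P.seq a n) : Lp P.seq (a + v) (n + v) :=
  mkLp (P := P.seq) (mulf y x) (mulf_cont y x) (mulf_bd y x)

end Mul

/-- The linear combination `∑_l y_l x_l` of loops `x_l ∈ Ω^a R_n` with coefficients
`y_l ∈ Ω^(v+1) R_(v+1)`. -/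
noncomputable def msum {R : RSp} {v a n f : ℕ} (y : Fin f → Lp R.self.seq (v + 1) (v + 1))
    (x : Fin f → Lp R.self.seq a n) : Lp R.self.seq (a + v + 1) (n + (v + 1)) :=
  lsum fun l => (mulL (y l) (x l) : Lp R.self.seq (a + (v + 1)) (n + (v + 1)))

/-- Compatibility of endomorphisms of `e` and `H` with `ρ : e → H`. -/
def EndC {e H : RSp} (ρ : RHom e H) (θ : RHom e e) (θ' : RHom H H) : Prop :=
  ∀ n x, ρ.f n (θ.f n x) = θ'.f n (ρ.f n x)

/-- The commutativity of the square of `i : e₀ → e`, `k : e₀ → H` and `ρ`, `h`. -/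
def Sq4 {e₀ e H H' : RSp} (ρ : RHom e H') (h : RHom H H') (i : RHom e₀ e) (k : RHom e₀ H) :
    Prop := ∀ n x, ρ.f n (i.f n x) = h.f n (k.f n x)

/-- The coefficients `y_l` in `π_0 e`: for `k ≥ 0` the map
`π_k(e)^f → π_k(e)^f`, `(x_l)_l ↦ (∑_l y_l θ^s(x_l))_s`, is injective. -/
def GalInj {e : RSp} (θ : RHom e e) {f v : ℕ} (y : Fin f → Lp e.self.seq (v + 1) (v + 1)) :
    Prop :=
  ∀ a n : ℕ, n ≤ a → ∀ x x' : Fin f → Lp e.self.seq a n,
    (∀ s : Fin f, StEq (msum y fun l => (θ.iter s).sh.lp (x l))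
      (msum y fun l => (θ.iter s).sh.lp (x' l))) → ∀ l, StEq (x l) (x' l)

/-- For `k ≥ 0` the map `π_k(e)^f → π_k(e)^f`, `(x_l)_l ↦ (∑_l y_l θ^s(x_l))_s`, is surjective. -/
def GalSur {e : RSp} (θ : RHom e e) {f v : ℕ} (y : Fin f → Lp e.self.seq (v + 1) (v + 1)) :
    Prop :=
  ∀ a n : ℕ, n ≤ a → ∀ z : Fin f → Lp e.self.seq a n,
    ∃ (j : ℕ) (x : Fin f → Lp e.self.seq (a + j) (n + j)),
      ∀ s : Fin f, StEq (msum y fun l => (θ.iter s).sh.lp (x l)) (stn (v + 1) (stn j (z s)))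

/-- If `x_l` in `π_0 H'` and the elements `∑_l y_l θ'^s(x_l)` do not depend on `s`, then all `x_l`
come from `π_0 H`. -/
def GalDes {H H' : RSp} (h : RHom H H') (θ' : RHom H' H') {f v : ℕ}
    (y : Fin f → Lp H'.self.seq (v + 1) (v + 1)) : Prop :=
  ∀ (a : ℕ) (x : Fin f → Lp H'.self.seq a a),
    (∀ s : Fin f, StEq (msum y fun l => (θ'.iter s).sh.lp (x l)) (msum y x)) →
    ∀ l, ∃ (j : ℕ) (x' : Lp H.self.seq (a + j) (a + j)), StEq (h.sh.lp x') (stn j (x l))

end Pool.Agent.MP_d175a7_gt
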