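import Pool.Agent.Lib.MP_d175a7_gt.PthG
import Pool.Agent.Lib.MP_d175a7_gt.V3Cyc
import Pool.Agent.Lib.MP_d175a7_gt.V3Def

/-!
# The obstructions in homotopy invariant form
-/

set_option autoImplicit false
set_option linter.unusedVariables false

namespace Pool.Agent.MP_d175a7_gt

open CategoryTheory
open scoped Topology unitInterval

universe u v

theorem RHom.mapP_cont {R S : RSp} (φ : RHom R S) (n : ℕ) (γ : PathsIn (R.X n)) :
    Continuous fun u => φ.f n (γ u) := φ.cont n I γ γ.continuous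

/-- The effect of a homomorphism on paths. -/
def RHom.mapP {R S : RSp} (φ : RHom R S) (n : ℕ) (γ : PathsIn (R.X n)) : PathsIn (S.X n) :=
  ⟨fun u => φ.f n (γ u), φ.mapP_cont n γ⟩

theorem RHom.mapP_kcont {R S : RSp} (φ : RHom R S) (n : ℕ) : KCont (φ.mapP n) :=
  fun T _ _ _ g hg => curry_cont _ (φ.cont n (T × I) (fun q => g q.1 q.2) (uncurry_cont _ hg))

section Map

variable {e H : RSp} (ρ : RHom e H) (θ : RHom e e) (θ' : RHom H H)

variable {ρ θ θ'}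

theorem EndC.mem (hρθ : EndC ρ θ θ') (n : ℕ) (z : PthX ρ n) :
    (θ'.mapP n z.1.2) 0 = ρ.f n (θ.f n z.1.1) := by
  change θ'.f n (z.1.2 0) = ρ.f n (θ.f n z.1.1)
  rw [z.2, hρθ]

/-- The induced maps of the spaces of `Pth ρ`. -/
def EndC.mapX (hρθ : EndC ρ θ θ') (n : ℕ) (z : PthX ρ n) : PthX ρ n :=
  ⟨(θ.f n z.1.1, θ'.mapP n z.1.2), hρθ.mem n z⟩

theorem EndC.map_cont (hρθ : EndC ρ θ θ') (n : ℕ) : KCont (hρθ.mapX n) := fun T _ _ _ g hg =>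
  Continuous.subtype_mk ((θ.cont n T (fun t => (g t).1.1)
    (continuous_fst.comp (continuous_subtype_val.comp hg))).prodMk
      (θ'.mapP_kcont n T (fun t => (g t).1.2)
        (continuous_snd.comp (continuous_subtype_val.comp hg)))) _

theorem EndC.map_pt (hρθ : EndC ρ θ θ') (n : ℕ) :
    hρθ.mapX n ((Pth ρ).pt n) = (Pth ρ).pt n :=
  Subtype.ext (Prod.ext (θ.pt n) (ContinuousMap.ext fun u => θ'.pt n))

theorem EndC.map_act (hρθ : EndC ρ θ θ') (n : ℕ) (A : Ort n) (x : (Pth ρ).X n) :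
    hρθ.mapX n ((Pth ρ).act n A x) = (Pth ρ).act n A (hρθ.mapX n x) :=
  Subtype.ext (Prod.ext (θ.act n A _) (ContinuousMap.ext fun u => θ'.act n A _))

theorem EndC.map_mul (hρθ : EndC ρ θ θ') {m n k : ℕ} (h : m + n = k) (x : (Pth ρ).X m)
    (y : (Pth ρ).X n) : hρθ.mapX k ((Pth ρ).mul h x y) =
      (Pth ρ).mul h (hρθ.mapX m x) (hρθ.mapX n y) :=
  Subtype.ext (Prod.ext (θ.mul h _ _) (ContinuousMap.ext fun u => θ'.mul h _ _))

theorem EndC.map_unit (hρθ : EndC ρ θ θ') (n : ℕ) (v : Sph n) :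
    hρθ.mapX n ((Pth ρ).unit n v) = (Pth ρ).unit n v :=
  Subtype.ext (Prod.ext (θ.unit n v) (ContinuousMap.ext fun u => θ'.unit n v))

/-- The endomorphism `(x, γ) ↦ (θ x, θ' γ)` of `Pth ρ`. -/
def EndC.map (hρθ : EndC ρ θ θ') : RHom (Pth ρ) (Pth ρ) where
  f := hρθ.mapX
  cont := hρθ.map_cont
  pt := hρθ.map_pt
  act := hρθ.map_act
  mul := hρθ.map_mul
  unit := hρθ.map_unit

theorem EndC.fib (hρθ : EndC ρ θ θ') : EndC (Pth.fib ρ) hρθ.map θ' := fun n x => rfl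

end Map

variable {e H H' : RSp} {Λ : Type} [CommRing Λ] {p : ℕ}

/-- The obstruction for the homotopy fibre product `e ×_H e ×_H e ×_H e`. -/
theorem bh_not_onto [Fact p.Prime] [Nontrivial Λ] (ρ : RHom e H) (Q : RCh e Λ)
    (hf : ∀ x : Λ, (p : Λ) * x = 0 → ∃ y, x = p * y) (hp : (p : Λ) ^ 2 = 0)
    (q : RCh H (ResP p Λ)) (hq : ∀ (a : ℕ) (x : Lp e.self.seq a a),
      q.Q a (ρ.sh.lp x) = Ideal.Quotient.mk _ (Q.Q a x))
    {a : ℕ} (x : Lp e.self.seq a a) (hxp : Q.Q a x = p)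
    (hx : StEq (ρ.sh.lp x) (cstLp H.self.seq a a))
    {D d j : ℕ} (hd : 0 < d) (hodd : Odd (d + j + D))
    (h3 : 3 ≤ d + j + D) (hcop : Nat.Coprime p (d + j + D))
    (A : PS.{u}) (At : PS.{v}) (hA : DimLe A D) (hH : HNe p A D) (s : PMap At (Susp d A))
    (hs : HSur p s (D + d)) (w : PMap At A) :
    ¬ Function.Surjective
      (Cls.pre (Susp.pmap j w) :
        Cls (Susp j A) (Kth (Bh ρ 4)) → Cls (Susp j At) (Kth (Bh ρ 4))) := by
  obtain ⟨v, g, hg, h1, h2⟩ := exists_pthg ρ Q x hxp hx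
  exact v2_not_onto (QD.pth ρ Q hf hp q hq) g hg h1 h2 hd hodd h3 hcop A At hA hH s hs w

/-- The homotopy pullback `e ×_(H') H` of homomorphisms `ρ : e → H'`, `h : H → H'`. -/
def Hpr (ρ : RHom e H') (h : RHom H H') : RSp := Pbr (Pth.fib ρ) h

/-- The homotopy fibre product `e ×_(H') e ×_(H') ⋯ ×_(H') e` as a module over the homotopy
pullback `e ×_(H') H`, via `(w, y) ↦ (w, θ w, θ² w, …)`. -/
def Hpr.mod (ρ : RHom e H') (h : RHom H H') {θ : RHom e e} {θ' : RHom H' H'}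
    (hρθ : EndC ρ θ θ') (hθ : ∀ n y, θ'.f n (h.f n y) = h.f n y) (f : ℕ) : MSp (Hpr ρ h) :=
  PB (Pbr.emb (Pth.fib ρ) h hρθ.map θ' hρθ.fib hθ f)

/-- The obstruction for the homotopy pullback `e ×_(H') H`. -/
theorem hpr_not_onto [Fact p.Prime] [Nontrivial Λ] (ρ : RHom e H') (h : RHom H H')
    {θ : RHom e e} {θ' : RHom H' H'}
    (hρθ : EndC ρ θ θ') (hθ : ∀ n y, θ'.f n (h.f n y) = h.f n y) (Q : RCh e Λ)
    (hf : ∀ x : Λ, (p : Λ) * x = 0 → ∃ y, x = p * y) (hp : (p : Λ) ^ 2 = 0)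
    (q : RCh H' (ResP p Λ)) (hq : ∀ (a : ℕ) (x : Lp e.self.seq a a),
      q.Q a (ρ.sh.lp x) = Ideal.Quotient.mk _ (Q.Q a x))
    (sg : Λ →+* Λ)
    (hsg : ∀ (a : ℕ) (x : Lp e.self.seq a a), Q.Q a (θ.sh.lp x) = sg (Q.Q a x))
    {f : ℕ} (hf6 : 6 ≤ f) (hsf : ∀ x, (sg ^ f) x = x)
    {a : ℕ} (x : Lp e.self.seq a a) (hxp : Q.Q a x = p)
    (hx : StEq (ρ.sh.lp x) (cstLp H'.self.seq a a))
    (F : FreeMod (Hpr ρ h) (Hpr.mod ρ h hρθ hθ f) f) (u : Fin f → ℕ)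
    (y : ∀ l, Lp e.self.seq (u l) (u l))
    (hdet : IsUnit (Matrix.det (Matrix.of fun l j : Fin f =>
      (Ideal.Quotient.mk _ ((sg ^ j.1) (Q.Q (u l) (y l))) : ResP p Λ))))
    {D d j : ℕ} (hd : 0 < d) (hodd : Odd (d + j + D))
    (h3 : 3 ≤ d + j + D) (hcop : Nat.Coprime p (d + j + D))
    (A : PS.{u}) (At : PS.{v}) (hA : DimLe A D) (hH : HNe p A D) (s : PMap At (Susp d A))
    (hs : HSur p s (D + d)) (w : PMap At A) :
    ¬ Function.Surjective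
      (Cls.pre (Susp.pmap j w) :
        Cls (Susp j A) (Kth (Hpr ρ h)) → Cls (Susp j At) (Kth (Hpr ρ h))) := by
  obtain ⟨v, g, hg, h1, h2⟩ := exists_pthg ρ Q x hxp hx
  exact v3_not_onto (θ := hρθ.map) (hρθ := hρθ.fib) (hθ := hθ) (QD.pth ρ Q hf hp q hq) sg
    (fun a z => hsg a ((Pth.fst ρ).sh.lp z)) hf6 hsf g hg h1 h2 F u
    (fun l => (Pth.incl ρ).sh.lp (y l)) hdet hd hodd h3 hcop A At hA hH s hs w

end Pool.Agent.MP_d175a7_gt
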