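import Pool.Agent.Lib.MP_d175a7_gt.OrdB
import Pool.Agent.Lib.MP_d175a7_gt.ConnD
import Pool.Agent.Lib.MP_d175a7_gt.PthV

/-!
# The homotopy fibre product `e ×_H e ×_H e ×_H e`: all conditions and the obstruction
-/

set_option autoImplicit false
set_option linter.unusedVariables false

namespace Pool.Agent.MP_d175a7_gt

open scoped Topology unitInterval

universe u v

/-- There are arbitrarily large `j` with `d + j + D` odd and coprime to `p`. -/
theorem exists_deg {p : ℕ} (hp : p.Prime) (D d N : ℕ) :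
    ∃ j, N ≤ j ∧ Odd (d + j + D) ∧ 3 ≤ d + j + D ∧ Nat.Coprime p (d + j + D) := by
  have h2 := hp.two_le
  have h3 : N + d + D + 1 ≤ p * (N + d + D + 1) := Nat.le_mul_of_pos_left _ (by omega)
  obtain ⟨m, hm⟩ : ∃ m, m = p * (N + d + D + 1) := ⟨_, rfl⟩
  rw [← hm] at h3
  refine ⟨2 * m + 1 - d - D, by omega, ⟨m, by omega⟩, by omega, ?_⟩
  have h4 : d + (2 * m + 1 - d - D) + D = p * (2 * (N + d + D + 1)) + 1 := by
    rw [show p * (2 * (N + d + D + 1)) = 2 * (p * (N + d + D + 1)) by ring, ← hm]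
    omega
  rw [h4, Nat.coprime_mul_left_add_right]
  exact Nat.coprime_one_right p

/-- `0 ≠ 1` in `π_0 R` if there is a ring homomorphism from `π_0 R` to a nontrivial ring. -/
theorem RCh.ne {R : RSp} {Λ : Type} [CommRing Λ] [Nontrivial Λ] (Q : RCh R Λ) :
    ¬ StEq (unitLp R 0) (cstLp R.self.seq 0 0) := by
  rintro ⟨j, hj⟩
  have h1 := Q.hty hj
  rw [Q.stn, Q.stn, Q.cst] at h1
  have h2 : Q.Q 0 (unitLp R 0) = 1 := Q.one
  rw [h2] at h1
  exact one_ne_zero h1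

/-- The final form: the homotopy fibre product `B` of four copies of `e` over `H`. -/
theorem bh_final {p : ℕ} [Fact p.Prime] {e H : RSp} (ρ : RHom e H)
    (he : Connective e) (hei : Conn e) (hH : Connective H) (hH' : PosZero H)
    (hHs : SemiFin e (H.self.res ρ))
    (hρ : ∀ (a : ℕ) (y : Lp H.self.seq a a), ∃ (j : ℕ) (x : Lp e.self.seq (a + j) (a + j)),
      StEq (ρ.sh.lp x) (stn j y))
    (hp : StEq (nsm H p) (cstLp H.self.seq 1 1))
    {Λ : Type} [CommRing Λ] [Nontrivial Λ] (hΛ : (p : Λ) ^ 2 = 0)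
    (hf : ∀ x : Λ, (p : Λ) * x = 0 → ∃ y, x = p * y)
    (Q : RCh e Λ) (q : RCh H (ResP p Λ)) (hq : ∀ (a : ℕ) (x : Lp e.self.seq a a),
      q.Q a (ρ.sh.lp x) = Ideal.Quotient.mk _ (Q.Q a x)) :
    ∃ (B : RSp) (ι : RHom e B) (pr : Fin 4 → RHom B e),
      (∀ i n x, (pr i).f n (ι.f n x) = x) ∧
      (∀ (M : RSp) (φ : RHom e M), ∃ ψ : RHom B M, ∀ n x, ψ.f n (ι.f n x) = φ.f n x) ∧
      Connective B ∧ Conn B ∧ SemiFin e (B.self.res ι) ∧
      (∀ a n : ℕ, n ≤ a → ∀ z z' : Lp B.self.seq a n,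
        (∀ i, StEq ((pr i).sh.lp z) ((pr i).sh.lp z')) → StEq z z') ∧
      (∀ (a n : ℕ) (x : Fin 4 → Lp e.self.seq a n),
        ∃ (j : ℕ) (z : Lp B.self.seq (1 + a + j) (1 + n + j)),
          ∀ i, StEq ((pr i).sh.lp z) (stn j (ext (P := e.self) (nsm e p) (x i)))) ∧
      ∀ (D d : ℕ), 0 < d → ∀ (A : PS.{u}) (At : PS.{v}), DimLe A D → HNe p A D →
        ∀ s : PMap At (Susp d A), HSur p s (D + d) → ∀ (w : PMap At A) (N : ℕ),
          ∃ j, N ≤ j ∧ ¬ Function.Surjective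
            (Cls.pre (Susp.pmap j w) : Cls (Susp j A) (Kth B) → Cls (Susp j At) (Kth B)) := by
  have hnt : Nontrivial (ResP p Λ) := residue_nontrivial hΛ
  refine ⟨Bh ρ 4, Bh.diag ρ 4, fun i => Bh.pr ρ i, fun i n x => rfl,
    fun M φ => ⟨(Bh.pr ρ 0).comp φ, fun n x => rfl⟩,
    connective_Bh ρ he hH hρ 3, conn_Bh ρ hei hH' q.ne 3, semiFin_Bm ρ hHs 3,
    fun a n han z z' h => slots_inj' ρ hH' 3 han z z' h, fun a n x => ?_, ?_⟩
  · obtain ⟨j, z, hz⟩ := exists_slots_mul ρ hp x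
    exact ⟨j, z, fun i => by rw [hz i]; exact StEq.refl _⟩
  · intro D d hd A At hA hHN s hs w N
    obtain ⟨j, hj, h1, h2, h3⟩ := exists_deg (Fact.out : p.Prime) D d N
    refine ⟨j, hj, ?_⟩
    refine bh_not_onto ρ Q hf hΛ q hq (nsm e p) (Q.nsm p) ?_ hd h1 h2 h3 A At hA hHN s hs w
    rw [RHom.lp_nsm]
    exact hp

end Pool.Agent.MP_d175a7_gt
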