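import Pool.Agent.Lib.MP_d175a7_gt.UnLp

/-! # Loops are maps of spheres -/

set_option autoImplicit false
set_option linter.unusedVariables false

namespace Pool.Agent.MP_d175a7_gt

open scoped Topology unitInterval

theorem lam_eq_infty {s : I} (h : lam s = OnePoint.infty) : s = 0 ∨ s = 1 := by
  by_contra hc
  rw [lam, if_neg hc] at h
  exact OnePoint.coe_ne_infty _ h

theorem lam_inj {s s' : I} {z : Fin 1 → ℝ} (h : lam s = OnePoint.some z)
    (h' : lam s' = OnePoint.some z) : s = s' := by
  have hs : ¬ (s = 0 ∨ s = 1) := fun hc => by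
    rw [lam, if_pos hc] at h
    exact OnePoint.infty_ne_coe _ h
  have hs' : ¬ (s' = 0 ∨ s' = 1) := fun hc => by
    rw [lam, if_pos hc] at h'
    exact OnePoint.infty_ne_coe _ h'
  rw [lam, if_neg hs] at h
  rw [lam, if_neg hs'] at h'
  have e1 := congrFun (OnePoint.coe_injective (h.trans h'.symm)) 0
  have p1 : 0 < (s : ℝ) := lt_of_le_of_ne s.2.1 fun h => hs (Or.inl (Subtype.ext h.symm))
  have p2 : (s : ℝ) < 1 := lt_of_le_of_ne s.2.2 fun h => hs (Or.inr (Subtype.ext h))
  have p1' : 0 < (s' : ℝ) := lt_of_le_of_ne s'.2.1 fun h => hs' (Or.inl (Subtype.ext h.symm))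
  have p2' : (s' : ℝ) < 1 := lt_of_le_of_ne s'.2.2 fun h => hs' (Or.inr (Subtype.ext h))
  have q : (s : ℝ) * (1 - s) ≠ 0 := (mul_pos p1 (by linarith)).ne'
  have q' : (s' : ℝ) * (1 - s') ≠ 0 := (mul_pos p1' (by linarith)).ne'
  rw [div_eq_div_iff q q'] at e1
  have e2 : ((s : ℝ) - s') * ((s : ℝ) * s' + (1 - s) * (1 - s')) = 0 := by
    linear_combination e1
  rcases mul_eq_zero.1 e2 with e3 | e3
  · exact Subtype.ext (sub_eq_zero.1 e3)
  · have : 0 < (s : ℝ) * s' + (1 - s) * (1 - s') :=
      add_pos (mul_pos p1 p1') (mul_pos (by linarith) (by linarith))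
    exact absurd e3 this.ne'

theorem lam_surj (z : Sph 1) : ∃ s, lam s = z := by
  induction z using OnePoint.rec with
  | infty => exact ⟨0, lam_zero⟩
  | coe z =>
    set r : ℝ := z 0 with hr
    set q : ℝ := Real.sqrt (r ^ 2 + 4) with hq
    have hq2 : q ^ 2 = r ^ 2 + 4 := Real.sq_sqrt (by positivity)
    have hq0 : 0 ≤ q := Real.sqrt_nonneg _
    have h1 : 0 < 2 + q := by linarith
    have h2 : |r| < q := by
      rw [← abs_of_nonneg hq0]
      exact sq_lt_sq.1 (by linarith)
    have h3 := abs_lt.1 h2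
    have ha : -1 < r / (2 + q) := by
      rw [lt_div_iff₀ h1]; linarith [h3.1]
    have hb : r / (2 + q) < 1 := by
      rw [div_lt_iff₀ h1]; linarith [h3.2]
    let s : I := ⟨1 / 2 + r / (2 + q) / 2, by constructor <;> linarith⟩
    have hs : ¬ (s = 0 ∨ s = 1) := by
      rintro (h | h)
      · have := congrArg Subtype.val h
        change 1 / 2 + r / (2 + q) / 2 = 0 at this
        linarith
      · have := congrArg Subtype.val h
        change 1 / 2 + r / (2 + q) / 2 = 1 at this
        linarith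
    refine ⟨s, ?_⟩
    rw [lam, if_neg hs]
    congr 1
    funext i
    rw [Subsingleton.elim i 0]
    change (2 * (1 / 2 + r / (2 + q) / 2) - 1) /
      ((1 / 2 + r / (2 + q) / 2) * (1 - (1 / 2 + r / (2 + q) / 2))) = z 0
    have h4 : (1 / 2 + r / (2 + q) / 2) * (1 - (1 / 2 + r / (2 + q) / 2)) = 1 / (2 + q) := by
      field_simp
      nlinarith [hq2]
    rw [h4, ← hr]
    field_simp
    ring

theorem lamv_eq_infty (v : ℕ) (t : Fin v → I) (h : lamv v t = OnePoint.infty) :
    t ∈ Cube.boundary (Fin v) := by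
  induction v with
  | zero => exact absurd h (OnePoint.coe_ne_infty _)
  | succ v ih =>
    change sm (Nat.add_comm 1 v) (lam (t 0)) (lamv v (fun i => t i.succ)) = OnePoint.infty at h
    rcases h1 : lam (t 0) with _ | x
    · exact ⟨0, lam_eq_infty h1⟩
    · rcases h2 : lamv v (fun i => t i.succ) with _ | y
      · obtain ⟨j, hj⟩ := ih _ h2
        exact ⟨j.succ, hj⟩
      · rw [h1, h2] at h
        exact absurd h (OnePoint.coe_ne_infty _)

theorem lamv_inj (v : ℕ) (t t' : Fin v → I) (z : Fin v → ℝ) (h : lamv v t = OnePoint.some z)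
    (h' : lamv v t' = OnePoint.some z) : t = t' := by
  induction v with
  | zero => exact funext fun i => i.elim0
  | succ v ih =>
    obtain ⟨a1, a2⟩ := sm_eq_some _ _ _ _ h
    obtain ⟨b1, b2⟩ := sm_eq_some _ _ _ _ h'
    have e1 := lam_inj a1 b1
    have e2 := ih _ _ _ a2 b2
    funext i
    rcases Fin.eq_zero_or_eq_succ i with rfl | ⟨j, rfl⟩
    · exact e1
    · exact congrFun e2 j

theorem lamv_surj (v : ℕ) (z : Fin v → ℝ) : ∃ t, lamv v t = OnePoint.some z := by
  induction v with
  | zero => exact ⟨fun i => i.elim0, by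
      change OnePoint.some 0 = OnePoint.some z
      rw [Subsingleton.elim z 0]⟩
  | succ v ih =>
    obtain ⟨s, hs⟩ := lam_surj (OnePoint.some (jl (Nat.add_comm 1 v) z))
    obtain ⟨t, ht⟩ := ih (jr (Nat.add_comm 1 v) z)
    refine ⟨Fin.cons s t, ?_⟩
    change sm (Nat.add_comm 1 v) (lam s) (lamv v t) = OnePoint.some z
    rw [hs, ht]
    change OnePoint.some (jv _ (jl _ z) (jr _ z)) = OnePoint.some z
    rw [jv_jl_jr]

/-- Every loop `I^v → P_n` factors through a based map `S^v → P_n`. -/
theorem exists_sphLp {R : RSp} (P : MSp R) {v n : ℕ} (x : Lp P.seq v n) :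
    ∃ (g : C(Sph v, P.X n)) (hg : g OnePoint.infty = P.pt n), sphLp P g hg = x := by
  classical
  choose t ht using lamv_surj v
  let g0 : Sph v → P.X n := fun z => match z with
    | OnePoint.some z => x.1 (t z)
    | OnePoint.infty => P.pt n
  have h1 : ∀ s : Fin v → I, g0 (lamv v s) = x.1 s := by
    intro s
    rcases h2 : lamv v s with _ | z
    · exact (x.2 s (lamv_eq_infty v s h2)).symm
    · change x.1 (t z) = x.1 s
      rw [lamv_inj v (t z) s z (ht z) h2]
  let π : (Fin v → I) ⊕ Unit → Sph v := Sum.elim (lamv v) (fun _ => OnePoint.infty)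
  have hπ : Continuous π := (lamv_cont v).sumElim continuous_const
  have hs : Function.Surjective π := by
    intro z
    induction z using OnePoint.rec with
    | infty => exact ⟨Sum.inr (), rfl⟩
    | coe z => exact ⟨Sum.inl (t z), ht z⟩
  have hq : Topology.IsQuotientMap π := hπ.isClosedMap.isQuotientMap hπ hs
  have hc : Continuous g0 := by
    rw [hq.continuous_iff]
    have h3 : g0 ∘ π = Sum.elim (fun s => x.1 s) (fun _ => P.pt n) := by
      funext y
      rcases y with s | _
      · exact h1 s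
      · rfl
    rw [h3]
    exact x.1.continuous.sumElim continuous_const
  exact ⟨⟨g0, hc⟩, rfl, Subtype.ext (ContinuousMap.ext h1)⟩

end Pool.Agent.MP_d175a7_gt
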