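import Pool.Agent.Lib.MP_d175a7_gt.PthR
import Pool.Agent.Lib.MP_d175a7_gt.LamQ
import Pool.Agent.Lib.MP_d175a7_gt.GV

/-!
# The detection data on the path ring spectrum

For a homomorphism `ρ : e → H` and ring homomorphisms `Q : π_0 e → Λ`, `q : π_0 H → Λ/p` with
`q ρ = Q` modulo `p` the ring homomorphism `π_0 (Pth ρ) → π_0 e → Λ` satisfies the congruence
condition for the fibration `Pth ρ → H`.  A class `x` in `π_0 e` which is zero in `π_0 H` is
represented by a map of a sphere to the fibre of `Pth ρ → H`.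
-/

set_option autoImplicit false
set_option linter.unusedVariables false

namespace Pool.Agent.MP_d175a7_gt

open scoped Topology unitInterval

/-- The restriction of a ring homomorphism `π_0 S → Λ` along `R → S`. -/
noncomputable def RCh.comp {R S : RSp} {Λ : Type} [CommRing Λ] (Q : RCh S Λ) (φ : RHom R S) :
    RCh R Λ where
  Q a x := Q.Q a (φ.sh.lp x)
  hty h := Q.hty (lp_homotopic φ.sh h)
  st x := by rw [SHom.lp_st, Q.st]
  add x y := by rw [lp_transAt, Q.add]
  mul x y := by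
    rw [← Q.mul]
    exact congrArg (Q.Q _) (φ.lp_ext x y)
  one := by rw [RHom.lp_one, Q.one]

theorem RCh.stn {R : RSp} {Λ : Type} [CommRing Λ] (Q : RCh R Λ) {a : ℕ}
    (x : Lp R.self.seq a a) (j : ℕ) : Q.Q (a + j) (stn j x) = Q.Q a x := by
  induction j with
  | zero => rfl
  | succ j ih => exact (Q.st (Pool.Agent.MP_d175a7_gt.stn j x)).trans ih

variable {e H : RSp} (ρ : RHom e H)

/-- The homomorphisms `Pth ρ → e → H` and `Pth ρ → H` are homotopic. -/
theorem Pth.lp_hty {a n : ℕ} (x : Lp (Pth ρ).self.seq a n) :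
    GenLoop.Homotopic (ρ.sh.lp ((Pth.fst ρ).sh.lp x)) ((Pth.fib ρ).sh.lp x) := by
  have h1 : Continuous fun t : Fin a → I => (x.1 t).1.2 :=
    continuous_snd.comp (continuous_subtype_val.comp x.1.continuous)
  have h2 : Continuous fun p : I × (Fin a → I) => (x.1 p.2).1.2 p.1 :=
    (uncurry_cont _ h1).comp continuous_swap
  refine ⟨⟨⟨⟨fun p => (x.1 p.2).1.2 p.1, h2⟩, ?_, ?_⟩, ?_⟩⟩
  · intro t
    exact (x.1 t).2
  · intro t
    rfl
  · intro s t ht
    have h3 : x.1 t = PthX.pt ρ n := x.2 t ht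
    change (x.1 t).1.2 s = ρ.f n (x.1 t).1.1
    rw [h3]
    exact (ρ.pt n).symm

variable {Λ : Type} [CommRing Λ] {p : ℕ}

/-- The detection data on the path ring spectrum. -/
noncomputable def QD.pth (Q : RCh e Λ) (hf : ∀ x : Λ, (p : Λ) * x = 0 → ∃ y, x = p * y)
    (hp : (p : Λ) ^ 2 = 0) (q : RCh H (ResP p Λ))
    (hq : ∀ (a : ℕ) (x : Lp e.self.seq a a),
      q.Q a (ρ.sh.lp x) = Ideal.Quotient.mk _ (Q.Q a x)) : QD (Pth.fib ρ) Λ p where
  Q := Q.comp (Pth.fst ρ)
  flat := hf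
  sq := hp
  cong a x y h := by
    have h1 : ∀ z : Lp (Pth ρ).self.seq a a, q.Q a ((Pth.fib ρ).sh.lp z) =
        Ideal.Quotient.mk _ (Q.Q a ((Pth.fst ρ).sh.lp z)) := fun z => by
      rw [← hq, q.hty (Pth.lp_hty ρ z)]
    have h2 : (Pth.fib ρ).sh.lp x = (Pth.fib ρ).sh.lp y :=
      Subtype.ext (ContinuousMap.ext h)
    have h3 := (h1 x).symm.trans ((congrArg (q.Q a) h2).trans (h1 y))
    rw [Ideal.Quotient.eq, Ideal.mem_span_singleton'] at h3
    obtain ⟨z, hz⟩ := h3
    exact ⟨z, by rw [mul_comm, hz]; rfl⟩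

/-- A class in `π_0 e` which is zero in `π_0 H` is represented by a map of a sphere to the fibre
of `Pth ρ → H`. -/
theorem exists_pth {a : ℕ} (x : Lp e.self.seq a a)
    (hx : StEq (ρ.sh.lp x) (cstLp H.self.seq a a)) :
    ∃ (j : ℕ) (g : C(Sph (a + j), (Pth ρ).X (a + j)))
      (hg : g OnePoint.infty = (Pth ρ).pt (a + j)),
      (∀ u, (Pth.fib ρ).f (a + j) (g u) = H.pt (a + j)) ∧
      (Pth.fst ρ).sh.lp (sphLp (Pth ρ).self g hg) = stn j x := by
  obtain ⟨j, hj⟩ := hx
  have hc : stn j (cstLp H.self.seq a a) = cstLp H.self.seq (a + j) (a + j) := by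
    clear hj
    induction j with
    | zero => rfl
    | succ j ih =>
      change st (stn j (cstLp H.self.seq a a)) = _
      rw [ih]
      exact Subtype.ext (ContinuousMap.ext fun t => H.self.seq.sus_pt _ _)
  rw [hc, ← SHom.lp_stn] at hj
  obtain ⟨F⟩ := hj
  have hF1 : Continuous fun p : (Fin (a + j) → I) × I => F (p.2, p.1) :=
    F.continuous.comp continuous_swap
  let y : Lp (Pth ρ).self.seq (a + j) (a + j) :=
    ⟨⟨fun t => (⟨((stn j x).1 t, ⟨fun s => F (s, t), by fun_prop⟩), by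
        exact F.apply_zero t⟩ : PthX ρ (a + j)), by
        refine Continuous.subtype_mk (((stn j x).1.continuous).prodMk ?_) _
        exact curry_cont _ hF1⟩, by
      intro t ht
      refine Subtype.ext (Prod.ext ((stn j x).2 t ht) (ContinuousMap.ext fun s => ?_))
      exact (F.eq_fst s ht).trans ((ρ.sh.lp (stn j x)).2 t ht)⟩
  obtain ⟨g, hg, hgy⟩ := exists_sphLp (Pth ρ).self y
  refine ⟨j, g, hg, fun u => ?_, ?_⟩
  · induction u using OnePoint.rec with
    | infty => exact congrArg ((Pth.fib ρ).f (a + j)) hg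
    | coe z =>
      obtain ⟨t, ht⟩ := lamv_surj (a + j) z
      change (Pth.fib ρ).f (a + j) (g (OnePoint.some z)) = _
      rw [← ht]
      have h1 : g (lamv (a + j) t) = y.1 t := congrArg (fun w => w.1 t) hgy
      rw [h1]
      exact F.apply_one t
  · rw [hgy]
    rfl

/-- The element `g`, from a class `x` in `π_0 e` with `Q(x) = p` which is zero in `π_0 H`. -/
theorem exists_pthg (Q : RCh e Λ) {a : ℕ} (x : Lp e.self.seq a a) (hxp : Q.Q a x = p)
    (hx : StEq (ρ.sh.lp x) (cstLp H.self.seq a a)) :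
    ∃ (v : ℕ) (g : C(Sph v, (Pth ρ).X v)) (hg : g OnePoint.infty = (Pth ρ).pt v),
      (∀ u, (Pth.fib ρ).f v (g u) = H.pt v) ∧
      (Q.comp (Pth.fst ρ)).Q v (sphLp (Pth ρ).self g hg) = p := by
  obtain ⟨j, g, hg, h1, h2⟩ := exists_pth ρ x hx
  refine ⟨a + j, g, hg, h1, ?_⟩
  change Q.Q (a + j) ((Pth.fst ρ).sh.lp (sphLp (Pth ρ).self g hg)) = p
  rw [h2, Q.stn, hxp]

theorem RCh.nsm {R : RSp} {Λ : Type} [CommRing Λ] (Q : RCh R Λ) (k : ℕ) :
    Q.Q 1 (nsm R k) = k := by
  induction k with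
  | zero => rw [Nat.cast_zero]; exact Q.cst 1
  | succ k ih =>
    have h1 := Q.add (Pool.Agent.MP_d175a7_gt.nsm R k) (Pool.Agent.MP_d175a7_gt.st (oneLp R))
    have h2 := Q.st (oneLp R)
    rw [Q.one] at h2
    rw [Nat.cast_succ, ← ih]
    refine h1.trans ?_
    rw [h2]

theorem RHom.lp_nsm {R S : RSp} (φ : RHom R S) (k : ℕ) : φ.sh.lp (nsm R k) = nsm S k := by
  induction k with
  | zero => exact Subtype.ext (ContinuousMap.ext fun t => φ.pt 1)
  | succ k ih =>
    change φ.sh.lp (GenLoop.transAt 0 (nsm R k) (st (oneLp R))) =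
      GenLoop.transAt 0 (nsm S k) (st (oneLp S))
    rw [lp_transAt, ih, SHom.lp_st, RHom.lp_one]

end Pool.Agent.MP_d175a7_gt
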