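import Pool.Agent.Lib.MP_d175a7_gt.ConnC
import Pool.Agent.Lib.MP_d175a7_gt.PthG
import Pool.Agent.Lib.MP_d175a7_gt.ExtSt

/-!
# The homotopy fibre product is an order

If `p = 0` in `π_0 H`, then the cokernel of `π_* B → (π_* e)^f` is annihilated by `p`, `B` the
homotopy fibre product of `f` copies of `e` over `H`.
-/

set_option autoImplicit false
set_option linter.unusedVariables false

namespace Pool.Agent.MP_d175a7_gt

open scoped Topology unitInterval

theorem homotopic_stn_le {P : Seq} {a n : ℕ} {x y : Lp P a n} {j k : ℕ} (hjk : j ≤ k)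
    (h : GenLoop.Homotopic (stn j x) (stn j y)) : GenLoop.Homotopic (stn k x) (stn k y) := by
  induction k, hjk using Nat.le_induction with
  | base => exact h
  | succ k _ ih => exact st_homotopic ih

theorem exists_common {ι : Type} [Fintype ι] {P : Seq} {a n : ℕ} {x y : ι → Lp P a n}
    (h : ∀ i, StEq (x i) (y i)) :
    ∃ j : ℕ, ∀ i, GenLoop.Homotopic (stn j (x i)) (stn j (y i)) := by
  choose j hj using h
  exact ⟨Finset.univ.sup j, fun i => homotopic_stn_le (Finset.le_sup (Finset.mem_univ i)) (hj i)⟩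

variable {e H : RSp} (ρ : RHom e H)

/-- A family of loops in `e` which are stably trivial in `H` comes from a loop in the homotopy
fibre product, after suspensions. -/
theorem exists_slots {f a n : ℕ} (x : Fin f → Lp e.self.seq a n)
    (hx : ∀ i, StEq (ρ.sh.lp (x i)) (cstLp H.self.seq a n)) :
    ∃ (j : ℕ) (z : Lp (Bh ρ f).self.seq (a + j) (n + j)),
      ∀ i, (Bh.pr ρ i).sh.lp z = stn j (x i) := by
  obtain ⟨j, hj⟩ := exists_common (P := H.self.seq) hx
  have h1 : ∀ i, ∃ F : I → (Fin (a + j) → I) → H.X (n + j),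
      (Continuous fun q : I × (Fin (a + j) → I) => F q.1 q.2) ∧
      (∀ t, F 0 t = ρ.f (n + j) ((stn j (x i)).1 t)) ∧ (∀ t, F 1 t = H.pt (n + j)) ∧
      ∀ s, ∀ t ∈ Cube.boundary (Fin (a + j)), F s t = H.pt (n + j) := by
    intro i
    have h2 := hj i
    rw [← SHom.lp_stn, stn_cst] at h2
    exact exists_of_homotopic (P := H.self.seq) h2
  choose F hF h0 h1 hb using h1
  refine ⟨j, ⟨⟨fun t => ⟨fun i => ⟨((stn j (x i)).1 t, ⟨fun s => F i s t,
    (hF i).comp (continuous_id.prodMk continuous_const)⟩), h0 i t⟩, fun i i' => ?_⟩, ?_⟩, ?_⟩, ?_⟩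
  · change F i 1 t = F i' 1 t
    rw [h1, h1]
  · refine Continuous.subtype_mk (continuous_pi fun i => Continuous.subtype_mk
      ((stn j (x i)).1.continuous.prodMk (curry_cont _ ?_)) _) _
    exact (hF i).comp (continuous_snd.prodMk continuous_fst)
  · intro t ht
    refine Subtype.ext (funext fun i => Subtype.ext (Prod.ext ?_
      (ContinuousMap.ext fun s => ?_)))
    · exact (stn j (x i)).2 t ht
    · exact hb i s t ht
  · intro i
    rfl

theorem ext_cst {R : RSp} {a n b m : ℕ} (x : Lp R.self.seq b m) :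
    ext (P := R.self) (cstLp R.self.seq a n) x = cstLp R.self.seq (a + b) (n + m) :=
  Subtype.ext (ContinuousMap.ext fun t => R.pt_mul rfl _)

theorem ext_zero {R : RSp} {a n b m : ℕ} {y : Lp R.self.seq a n}
    (h : StEq y (cstLp R.self.seq a n)) (x : Lp R.self.seq b m) :
    StEq (ext (P := R.self) y x) (cstLp R.self.seq (a + b) (n + m)) := by
  rw [← ext_cst (a := a) (n := n) x, ← extr_self, ← extr_self]
  exact extr_stEq (P := R.self) rfl rfl x h

/-- The cokernel of `π_* B → (π_* e)^f` is annihilated by `p`. -/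
theorem exists_slots_mul {p : ℕ} (hp : StEq (nsm H p) (cstLp H.self.seq 1 1)) {f a n : ℕ}
    (x : Fin f → Lp e.self.seq a n) :
    ∃ (j : ℕ) (z : Lp (Bh ρ f).self.seq (1 + a + j) (1 + n + j)),
      ∀ i, (Bh.pr ρ i).sh.lp z = stn j (ext (P := e.self) (nsm e p) (x i)) := by
  refine exists_slots ρ (fun i => ext (P := e.self) (nsm e p) (x i)) fun i => ?_
  rw [RHom.lp_ext, RHom.lp_nsm]
  exact ext_zero hp _

end Pool.Agent.MP_d175a7_gt
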