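import Pool.Agent.Lib.MP_d175a7_gt.HprC
import Pool.Agent.Lib.MP_d175a7_gt.ConnD
import Pool.Agent.Lib.MP_d175a7_gt.OrdB

/-!
# The homotopy pullback ring is connective and an order
-/

set_option autoImplicit false
set_option linter.unusedVariables false

namespace Pool.Agent.MP_d175a7_gt

open scoped Topology unitInterval

variable {e₀ e H H' : RSp} {ρ : RHom e H'} {h : RHom H H'} {i : RHom e₀ e} {k : RHom e₀ H}

/-- The homotopy groups of `e ×_(H') H` in nonnegative degrees are subgroups of those of `e`, if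
the homotopy groups of `H'` in positive degrees vanish and `π_* H → π_* H'` is injective in
nonnegative degrees. -/
theorem Sq4.inj' (c : Sq4 ρ h i k) (hπ : PosZero H')
    (hh : ∀ (a n : ℕ), n ≤ a → ∀ x x' : Lp H.self.seq a n,
      StEq (h.sh.lp x) (h.sh.lp x') → StEq x x') {a n : ℕ} (han : n ≤ a)
    (z z' : Lp (Hpr ρ h).self.seq a n)
    (h1 : StEq ((Hpr.pr ρ h).sh.lp z) ((Hpr.pr ρ h).sh.lp z')) : StEq z z' := by
  refine c.inj hπ han z z' h1 (hh a n han _ _ ?_)
  have h2 := stEq_of_homotopic (hpr_aug z)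
  have h3 := stEq_of_homotopic (hpr_aug z')
  exact h2.symm.trans ((stEq_lp ρ.sh h1).trans h3)

/-- The ring `e ×_(H') H` has only trivial idempotents in `π_0`, if `e` has, and
`π_0 (e ×_(H') H) → π_0 e` is injective. -/
theorem Sq4.conn' (c : Sq4 ρ h i k) (hπ : PosZero H')
    (hh : ∀ (a n : ℕ), n ≤ a → ∀ x x' : Lp H.self.seq a n,
      StEq (h.sh.lp x) (h.sh.lp x') → StEq x x') (he : Conn e) : Conn (Hpr ρ h) := by
  refine Conn.of_unit fun a x hx => ?_
  have h1 : StEq ((Hpr.pr ρ h).sh.lp x) (cstLp e.self.seq a a) ∨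
      StEq ((Hpr.pr ρ h).sh.lp x) (unitLp e a) := by
    refine he.unit a _ ?_
    have h2 := stEq_lp (Hpr.pr ρ h).sh hx
    rw [SHom.lp_stn] at h2
    rw [← RHom.lp_ext]
    exact h2
  rcases h1 with h1 | h1
  · left
    refine c.inj' hπ hh le_rfl x (cstLp (Hpr ρ h).self.seq a a) ?_
    rw [RHom.lp_cst]
    exact h1
  · right
    refine c.inj' hπ hh le_rfl x (unitLp (Hpr ρ h) a) ?_
    rw [RHom.lp_unit]
    exact h1

/-- The ring `e ×_(H') H` is connective if `e`, `H`, `H'` are and `π_0 e → π_0 H'` is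
surjective. -/
theorem Sq4.connective (c : Sq4 ρ h i k) (he : Connective e) (hH : Connective H)
    (hH' : Connective H')
    (hs : ∀ (a : ℕ) (y : Lp H'.self.seq a a), ∃ (j : ℕ) (x : Lp e.self.seq (a + j) (a + j)),
      StEq (ρ.sh.lp x) (stn j y)) : Connective (Hpr ρ h) := by
  intro a n han z
  refine (stEq_res c.inr (Hpr ρ h).self z (cstLp (Hpr ρ h).self.seq a n)).1 ?_
  have h3 : c.ofHpr.IsWeq :=
    isWeq_of_inv _ c.toHpr.sh (fun n x => rfl) (fun n x => rfl)
  refine h3.1 a n z _ ?_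
  refine hpb_zero (resRho i ρ) c.resH (fun x => ?_) (fun x => ?_) (fun j l => ?_) _
  · exact (stEq_res i e.self x _).2 (he a n han x)
  · exact (stEq_res k H.self x _).2 (hH a n han x)
  · by_cases hn : a + 1 < n
    · have h4 : StEq (P := (H'.self.res (i.comp ρ)).seq) l
          (cstLp H'.self.seq (a + j + 1) (n + j)) :=
        (stEq_res (i.comp ρ) H'.self l _).2 (hH' (a + j + 1) (n + j) (by omega) l)
      have h5 : (resRho i ρ).sh.lp (cstLp (e.self.res i).seq (a + j + 1) (n + j)) =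
          cstLp (H'.self.res (i.comp ρ)).seq (a + j + 1) (n + j) :=
        Subtype.ext (ContinuousMap.ext fun t => ρ.pt _)
      have h8 : StEq ((resRho i ρ).sh.lp (cstLp (e.self.res i).seq (a + j + 1) (n + j))) l := by
        rw [h5]
        exact h4.symm
      exact ⟨0, cstLp (e.self.res i).seq (a + j + 1) (n + j), h8⟩
    · obtain rfl : n = a + 1 := by omega
      have h6 : a + 1 + j = a + j + 1 := by omega
      have key : ∀ (b m : ℕ) (hm : m = b) (l : Lp H'.self.seq b m),
          ∃ (i : ℕ) (x : Lp e.self.seq (b + i) (m + i)), StEq (ρ.sh.lp x) (stn i l) := by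
        intro b m hm l
        subst hm
        exact hs m l
      obtain ⟨r, x, hx⟩ := key (a + j + 1) (a + 1 + j) h6 l
      refine ⟨r, x, ?_⟩
      have h7 := (stEq_res (i.comp ρ) H'.self (ρ.sh.lp x) (stn r l)).2 hx
      rw [← stn_resC (i.comp ρ) H'.self l r] at h7
      exact h7

/-- The cokernel of `π_* (e ×_(H') H) → π_* e` is annihilated by `p`, if `p = 0` in `π_0 H'`. -/
theorem hpr_coker {p : ℕ} (hp : StEq (nsm H' p) (cstLp H'.self.seq 1 1)) {a n : ℕ}
    (x : Lp e.self.seq a n) :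
    ∃ (j : ℕ) (z : Lp (Hpr ρ h).self.seq (1 + a + j) (1 + n + j)),
      (Hpr.pr ρ h).sh.lp z = stn j (ext (P := e.self) (nsm e p) x) := by
  have h0 : StEq (ρ.sh.lp (ext (P := e.self) (nsm e p) x))
      (cstLp H'.self.seq (1 + a) (1 + n)) := by
    rw [RHom.lp_ext, RHom.lp_nsm]
    exact ext_zero hp _
  obtain ⟨j, hj⟩ := h0
  rw [← SHom.lp_stn, stn_cst] at hj
  obtain ⟨F, hF, h1, h2, hb⟩ := exists_of_homotopic (P := H'.self.seq) hj
  refine ⟨j, ⟨⟨fun t => ⟨(⟨((stn j (ext (P := e.self) (nsm e p) x)).1 t, ⟨fun s => F s t,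
    hF.comp (continuous_id.prodMk continuous_const)⟩), h1 t⟩, H.pt _), ?_⟩, ?_⟩, ?_⟩, ?_⟩
  · exact (h2 t).trans (h.pt _).symm
  · refine Continuous.subtype_mk ((Continuous.subtype_mk
      ((stn j (ext (P := e.self) (nsm e p) x)).1.continuous.prodMk (curry_cont _ ?_)) _).prodMk
      continuous_const) _
    exact hF.comp (continuous_snd.prodMk continuous_fst)
  · intro t ht
    refine Subtype.ext (Prod.ext (Subtype.ext (Prod.ext ?_ (ContinuousMap.ext fun s => ?_))) rfl)
    · exact (stn j (ext (P := e.self) (nsm e p) x)).2 t ht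
    · exact hb s t ht
  · rfl

end Pool.Agent.MP_d175a7_gt
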