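import Pool.Agent.Lib.MP_d175a7_gt.FinH
import Pool.Agent.Lib.MP_d175a7_gt.HprD

/-!
# The homotopy pullback `e ×_(H') H`: all conditions and the obstruction
-/

set_option autoImplicit false
set_option linter.unusedVariables false

namespace Pool.Agent.MP_d175a7_gt

open scoped Topology unitInterval

universe u v

/-- The final form: the homotopy pullback `B = e ×_(H') H`. -/
theorem hpr_final {p : ℕ} [Fact p.Prime] {e₀ e H H' : RSp} {ρ : RHom e H'} {h : RHom H H'}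
    {i : RHom e₀ e} {k : RHom e₀ H} (c : Sq4 ρ h i k)
    {θ : RHom e e} {θ' : RHom H' H'} (hρθ : EndC ρ θ θ')
    (hθ : ∀ n y, θ'.f n (h.f n y) = h.f n y)
    (he : Connective e) (hei : Conn e) (hH : Connective H) (hH' : Connective H')
    (hH'0 : PosZero H')
    (hh : ∀ (a n : ℕ), n ≤ a → ∀ x x' : Lp H.self.seq a n,
      StEq (h.sh.lp x) (h.sh.lp x') → StEq x x')
    (h1 : SemiFin e₀ (e.self.res i)) (h2 : SemiFin e₀ (H.self.res k))
    (h3 : SemiFin e₀ (H'.self.res (i.comp ρ)))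
    (hρ : ∀ (a : ℕ) (y : Lp H'.self.seq a a), ∃ (j : ℕ) (x : Lp e.self.seq (a + j) (a + j)),
      StEq (ρ.sh.lp x) (stn j y))
    (hp : StEq (nsm H' p) (cstLp H'.self.seq 1 1))
    {Λ : Type} [CommRing Λ] [Nontrivial Λ] (hΛ : (p : Λ) ^ 2 = 0)
    (hf : ∀ x : Λ, (p : Λ) * x = 0 → ∃ y, x = p * y)
    (Q : RCh e Λ) (q : RCh H' (ResP p Λ)) (hq : ∀ (a : ℕ) (x : Lp e.self.seq a a),
      q.Q a (ρ.sh.lp x) = Ideal.Quotient.mk _ (Q.Q a x))
    (sg : Λ →+* Λ)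
    (hsg : ∀ (a : ℕ) (x : Lp e.self.seq a a), Q.Q a (θ.sh.lp x) = sg (Q.Q a x))
    {f : ℕ} (hf6 : 6 ≤ f) (hsf : ∀ x, (sg ^ f) x = x) (u : Fin f → ℕ)
    (y : ∀ l, Lp e.self.seq (u l) (u l))
    (hdet : IsUnit (Matrix.det (Matrix.of fun l j : Fin f =>
      (Ideal.Quotient.mk _ ((sg ^ j.1) (Q.Q (u l) (y l))) : ResP p Λ))))
    (F : FreeMod (Hpr ρ h) (Hpr.mod ρ h hρθ hθ f) f) :
    ∃ (B : RSp) (ι : RHom e₀ B) (π : RHom B e),
      (∀ n x, π.f n (ι.f n x) = i.f n x) ∧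
      (∀ (M : RSp) (φ : RHom e M), ∃ ψ : RHom B M, ∀ n x, ψ.f n (ι.f n x) = φ.f n (i.f n x)) ∧
      Connective B ∧ Conn B ∧ SemiFin e₀ (B.self.res ι) ∧
      (∀ a n : ℕ, n ≤ a → ∀ z z' : Lp B.self.seq a n,
        StEq (π.sh.lp z) (π.sh.lp z') → StEq z z') ∧
      (∀ (a n : ℕ) (x : Lp e.self.seq a n),
        ∃ (j : ℕ) (z : Lp B.self.seq (1 + a + j) (1 + n + j)),
          StEq (π.sh.lp z) (stn j (ext (P := e.self) (nsm e p) x))) ∧
      ∀ (D d : ℕ), 0 < d → ∀ (A : PS.{u}) (At : PS.{v}), DimLe A D → HNe p A D →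
        ∀ s : PMap At (Susp d A), HSur p s (D + d) → ∀ (w : PMap At A) (N : ℕ),
          ∃ j, N ≤ j ∧ ¬ Function.Surjective
            (Cls.pre (Susp.pmap j w) : Cls (Susp j A) (Kth B) → Cls (Susp j At) (Kth B)) := by
  refine ⟨Hpr ρ h, c.inr, Hpr.pr ρ h, fun n x => rfl,
    fun M φ => ⟨(Hpr.pr ρ h).comp φ, fun n x => rfl⟩, c.connective he hH hH' hρ,
    c.conn' hH'0 hh hei, c.semiFin h1 h2 h3, fun a n han z z' h4 => c.inj' hH'0 hh han z z' h4,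
    fun a n x => ?_, ?_⟩
  · obtain ⟨j, z, hz⟩ := hpr_coker (h := h) hp x
    exact ⟨j, z, by rw [hz]; exact StEq.refl _⟩
  · intro D d hd A At hA hHN s hs w N
    obtain ⟨j, hj, h4, h5, h6⟩ := exists_deg (Fact.out : p.Prime) D d N
    refine ⟨j, hj, ?_⟩
    refine hpr_not_onto ρ h hρθ hθ Q hf hΛ q hq sg hsg hf6 hsf (nsm e p) (Q.nsm p) ?_ F u y hdet
      hd h4 h5 h6 A At hA hHN s hs w
    rw [RHom.lp_nsm]
    exact hp

end Pool.Agent.MP_d175a7_gt
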