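import Pool.Agent.Lib.MP_d175a7_gt.FreeP

/-!
# The fibre product of copies of `e` is a free module over `e ×_(H') H`: the proof
-/

set_option autoImplicit false
set_option linter.unusedVariables false

namespace Pool.Agent.MP_d175a7_gt

open scoped Topology unitInterval

variable {e₀ e H H' : RSp} {ρ : RHom e H'} {h : RHom H H'} {θ : RHom e e} {θ' : RHom H' H'}
  {i₀ : RHom e₀ e} {k₀ : RHom e₀ H}

section Free

variable (hρθ : EndC ρ θ θ') (hθ : ∀ n y, θ'.f n (h.f n y) = h.f n y) {f : ℕ} {v : ℕ}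
  (y : Fin f → Lp e.self.seq (v + 1) (v + 1))

theorem bt_inj (c : Sq4 ρ h i₀ k₀) (he : Connective e) (hH : Connective H)
    (hH' : Connective H') (hπ : PosZero H')
    (hh : ∀ (a n : ℕ), n ≤ a → ∀ x x' : Lp H.self.seq a n,
      StEq (h.sh.lp x) (h.sh.lp x') → StEq x x')
    (hs : ∀ (a : ℕ) (y : Lp H'.self.seq a a), ∃ (j : ℕ) (x : Lp e.self.seq (a + j) (a + j)),
      StEq (ρ.sh.lp x) (stn j y))
    (hG : GalInj θ y) {a n : ℕ} (w w' : Lp (free (Hpr ρ h) f).seq a n)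
    (hw : StEq ((btR hρθ hθ f y).sh.lp w) ((btR hρθ hθ f y).sh.lp w')) : StEq w w' := by
  refine free_stEq w w' fun l => ?_
  by_cases han : n ≤ a
  · refine c.inj' hπ hh han _ _ ?_
    refine hG a n han (fun l => (Hpr.pr ρ h).sh.lp ((prF (Hpr ρ h) l).sh.lp w))
      (fun l => (Hpr.pr ρ h).sh.lp ((prF (Hpr ρ h) l).sh.lp w')) (fun s => ?_) l
    have h1 := slR_stEq hρθ hθ f s ((stEq_hO (v := v + 1)).2 hw)
    have h2 := slR_btR hρθ hθ f y s w
    have h3 := slR_btR hρθ hθ f y s w'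
    rw [← h2, ← h3]
    exact h1
  · have h4 := c.connective he hH hH' hs a n (not_le.1 han)
    exact (h4 _).trans (h4 _).symm

theorem StEq.stn_cst {P : Seq} {a n : ℕ} (j : ℕ) :
    StEq (Pool.Agent.MP_d175a7_gt.stn j (cstLp P a n)) (cstLp P (a + j) (n + j)) := by
  rw [Pool.Agent.MP_d175a7_gt.stn_cst]
  exact StEq.refl _

theorem bt_lift (hf : 0 < f) (hπ : PosZero H') (hG : GalSur θ y)
    (hD : GalDes h θ' fun l => ρ.sh.lp (y l)) {a n : ℕ} (han : n ≤ a)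
    (z : Lp (Hpr.mod ρ h hρθ hθ f).seq a n) :
    ∃ (j : ℕ) (x : Fin f → Lp e.self.seq (a + j) (n + j)),
      (∀ s : Fin f, StEq (msum y fun l => (θ.iter s).sh.lp (x l))
        (stn (v + 1) (stn j (slR hρθ hθ f s z)))) ∧
      ∀ l, ∃ (i : ℕ) (x' : Lp H.self.seq (a + j + i) (n + j + i)),
        StEq (h.sh.lp x') (stn i (ρ.sh.lp (x l))) := by
  obtain ⟨j, x, hx⟩ := hG a n han fun s => slR hρθ hθ f s z
  refine ⟨j, x, hx, ?_⟩
  rcases Nat.lt_or_eq_of_le han with hlt | rfl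
  · intro l
    refine ⟨0, cstLp H.self.seq (a + j) (n + j), ?_⟩
    have h1 := hπ (a + j) (n + j) (by omega) (ρ.sh.lp (x l))
    have h2 : h.sh.lp (cstLp H.self.seq (a + j) (n + j)) =
        cstLp H'.self.seq (a + j) (n + j) := RHom.lp_cst h _ _
    have h3 : StEq (h.sh.lp (cstLp H.self.seq (a + j) (n + j))) (ρ.sh.lp (x l)) := by
      rw [h2]
      exact h1.symm
    exact h3
  · refine hD (n + j) (fun l => ρ.sh.lp (x l)) fun s => ?_
    have key : ∀ s : Fin f, StEq (msum (fun l => ρ.sh.lp (y l)) fun l =>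
        (θ'.iter s).sh.lp (ρ.sh.lp (x l))) (stn (v + 1) (stn j
          ((Bf.aug (Pth.fib ρ) (⟨0, hf⟩ : Fin f)).sh.lp (asR hρθ hθ f z)))) := by
      intro s
      have h1 := (hx s).lp ρ.sh
      rw [RHom.lp_msum] at h1
      have h2 : (fun l => ρ.sh.lp ((θ.iter s).sh.lp (x l))) =
          fun l => (θ'.iter s).sh.lp (ρ.sh.lp (x l)) := funext fun l => hρθ.lp_iter s (x l)
      rw [h2] at h1
      refine h1.trans ?_
      have h3 : ρ.sh.lp (stn (v + 1) (stn j (slR hρθ hθ f s z))) =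
          stn (v + 1) (stn j (ρ.sh.lp (slR hρθ hθ f s z))) := by
        rw [SHom.lp_stn, SHom.lp_stn]
      have h4 := stEq_of_homotopic (slot_aug ρ s (asR hρθ hθ f z))
      have h5 : (Bf.aug (Pth.fib ρ) s).sh.lp (asR hρθ hθ f z) =
          (Bf.aug (Pth.fib ρ) (⟨0, hf⟩ : Fin f)).sh.lp (asR hρθ hθ f z) :=
        Subtype.ext (ContinuousMap.ext fun t => ((asR hρθ hθ f z).1 t).2 s ⟨0, hf⟩)
      rw [h5] at h4
      have h6 := (h4.stn j).stn (v + 1)
      rw [h3]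
      exact h6
    exact (key s).trans (key ⟨0, hf⟩).symm

theorem bt_sur (c : Sq4 ρ h i₀ k₀) (hf : 0 < f) (he : Connective e)
    (hH' : Connective H') (hπ : PosZero H')
    (hs : ∀ (a : ℕ) (y : Lp H'.self.seq a a), ∃ (j : ℕ) (x : Lp e.self.seq (a + j) (a + j)),
      StEq (ρ.sh.lp x) (stn j y))
    (hG : GalSur θ y) (hD : GalDes h θ' fun l => ρ.sh.lp (y l)) {a n : ℕ}
    (z : Lp (Hpr.mod ρ h hρθ hθ f).seq a n) :
    ∃ (j J : ℕ) (w : Lp (free (Hpr ρ h) f).seq (a + j + J) (n + j + J)),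
      StEq ((btR hρθ hθ f y).sh.lp w)
        (stn J (stn j ((olin (v + 1) (Hpr.mod ρ h hρθ hθ f)).sh.lp z))) := by
  by_cases han : n ≤ a
  · obtain ⟨j, x, hx, hl⟩ := bt_lift hρθ hθ y hf hπ hG hD han z
    have h1 : ∀ l, ∃ (J : ℕ) (b : Lp (Hpr ρ h).self.seq (a + j + J) (n + j + J)),
        StEq ((Hpr.pr ρ h).sh.lp b) (stn J (x l)) := fun l => by
      obtain ⟨i, x', hx'⟩ := hl l
      exact hpr_lift (x l) x' hx'
    choose J0 h1 using h1
    have h2 : ∀ l, ∃ b : Lp (Hpr ρ h).self.seq (a + j + Finset.univ.sup J0)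
        (n + j + Finset.univ.sup J0),
        StEq ((Hpr.pr ρ h).sh.lp b) (stn (Finset.univ.sup J0) (x l)) := fun l =>
      ex_le _ (x l) (h1 l) (Finset.le_sup (Finset.mem_univ l))
    obtain ⟨J, hJ⟩ : ∃ J, J = Finset.univ.sup J0 := ⟨_, rfl⟩
    rw [← hJ] at h2
    choose b hb using h2
    refine ⟨j, J, asm b, ?_⟩
    rw [← SHom.lp_stn, ← SHom.lp_stn]
    refine (stEq_hO (v := v + 1)).1 ?_
    rw [hO_olin]
    refine mod_inj hρθ hθ f hf hπ (by omega) _ _ fun s => ?_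
    have h3 := slR_btR hρθ hθ f y s (asm b)
    have h4 : slR hρθ hθ f s (stn (v + 1) (stn J (stn j z))) =
        stn (v + 1) (stn J (stn j (slR hρθ hθ f s z))) := by
      rw [slR_stn, slR_stn, slR_stn]
    have h5 : StEq (msum y fun l => (θ.iter s.1).sh.lp ((Hpr.pr ρ h).sh.lp (b l)))
        (msum y fun l => stn J ((θ.iter s.1).sh.lp (x l))) := by
      refine msum_stEq y fun l => ?_
      rw [← SHom.lp_stn]
      exact (hb l).lp _
    have h6 := msum_stn y (hx s) J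
    have h7 := h5.trans h6
    rw [← h4] at h7
    have h8 : StEq (slR hρθ hθ f s (hO' ((btR hρθ hθ f y).sh.lp (asm b))))
        (slR hρθ hθ f s (stn (v + 1) (stn J (stn j z)))) := by
      rw [h3]
      exact h7
    exact h8
  · refine ⟨0, 0, cstLp (free (Hpr ρ h) f).seq a n, ?_⟩
    have h1 := (mod_zero hρθ hθ f hf he hH' hs (not_le.1 han) z).lp
      (olin (v + 1) (Hpr.mod ρ h hρθ hθ f)).sh
    have h2 : (olin (v + 1) (Hpr.mod ρ h hρθ hθ f)).sh.lp
        (cstLp (Hpr.mod ρ h hρθ hθ f).seq a n) =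
        cstLp (Ol (v + 1) (Hpr.mod ρ h hρθ hθ f)).seq a n :=
      Subtype.ext (ContinuousMap.ext fun t => (olin _ _).pt n)
    have h3 : (btR hρθ hθ f y).sh.lp (cstLp (free (Hpr ρ h) f).seq a n) =
        cstLp (Ol (v + 1) (Hpr.mod ρ h hρθ hθ f)).seq a n :=
      Subtype.ext (ContinuousMap.ext fun t => (btR hρθ hθ f y).pt n)
    have h4 : StEq ((btR hρθ hθ f y).sh.lp (cstLp (free (Hpr ρ h) f).seq a n))
        ((olin (v + 1) (Hpr.mod ρ h hρθ hθ f)).sh.lp z) := by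
      rw [h3, ← h2]
      exact h1.symm
    exact h4

/-- The homomorphism `(b_l) ↦ ∑ b_l y_l` is a weak equivalence. -/
theorem bt_isWeq (c : Sq4 ρ h i₀ k₀) (hf : 0 < f) (he : Connective e) (hH : Connective H)
    (hH' : Connective H') (hπ : PosZero H')
    (hh : ∀ (a n : ℕ), n ≤ a → ∀ x x' : Lp H.self.seq a n,
      StEq (h.sh.lp x) (h.sh.lp x') → StEq x x')
    (hs : ∀ (a : ℕ) (y : Lp H'.self.seq a a), ∃ (j : ℕ) (x : Lp e.self.seq (a + j) (a + j)),
      StEq (ρ.sh.lp x) (stn j y))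
    (hGi : GalInj θ y) (hG : GalSur θ y) (hD : GalDes h θ' fun l => ρ.sh.lp (y l)) :
    (btR hρθ hθ f y).IsWeq := by
  constructor
  · intro a n w w' hw
    exact bt_inj hρθ hθ y c he hH hH' hπ hh hs hGi w w' hw
  · intro a n u
    obtain ⟨i, z, hz⟩ := (olin_isWeq (v + 1) (Hpr.mod ρ h hρθ hθ f)).2 a n u
    obtain ⟨j, J, w, hw⟩ := bt_sur hρθ hθ y c hf he hH' hπ hs hG hD z
    have h1 := hw.trans ((StEq.stn hz j).stn J)
    obtain ⟨w1, h2⟩ := cast_ex _ _ w h1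
    obtain ⟨w2, h3⟩ := cast_ex _ u w1 h2
    exact ⟨i + (j + J), w2, h3⟩

/-- The fibre product of copies of `e` is a free module over `e ×_(H') H`. -/
noncomputable def modFree (c : Sq4 ρ h i₀ k₀) (hf : 0 < f) (he : Connective e)
    (hH : Connective H) (hH' : Connective H') (hπ : PosZero H')
    (hh : ∀ (a n : ℕ), n ≤ a → ∀ x x' : Lp H.self.seq a n,
      StEq (h.sh.lp x) (h.sh.lp x') → StEq x x')
    (hs : ∀ (a : ℕ) (y : Lp H'.self.seq a a), ∃ (j : ℕ) (x : Lp e.self.seq (a + j) (a + j)),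
      StEq (ρ.sh.lp x) (stn j y))
    (hGi : GalInj θ y) (hG : GalSur θ y) (hD : GalDes h θ' fun l => ρ.sh.lp (y l)) :
    FreeMod (Hpr ρ h) (Hpr.mod ρ h hρθ hθ f) f where
  P' := free (Hpr ρ h) f
  P'' := Ol (v + 1) (Hpr.mod ρ h hρθ hθ f)
  α := MHom.id _
  β := btR hρθ hθ f y
  γ := olin (v + 1) (Hpr.mod ρ h hρθ hθ f)
  hα := MHom.isWeq_id _
  hβ := bt_isWeq hρθ hθ y c hf he hH hH' hπ hh hs hGi hG hD
  hγ := olin_isWeq _ _

end Free

end Pool.Agent.MP_d175a7_gt
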