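import Pool.Agent.Lib.MP_d175a7_gt.FinV
import Pool.Agent.Lib.MP_d175a7_gt.FreeQ

/-!
# The homotopy pullback `e ×_(H') H`: the final theorem
-/

set_option autoImplicit false
set_option linter.unusedVariables false

namespace Pool.Agent.MP_d175a7_gt

open scoped Topology unitInterval

universe u v

/-- The final form of the obstruction for the homotopy pullback `B = e ×_(H') H`. -/
theorem v3_final {p : ℕ} [Fact p.Prime] {e₀ e H H' : RSp} {ρ : RHom e H'} {h : RHom H H'}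
    {i : RHom e₀ e} {k : RHom e₀ H} (c : Sq4 ρ h i k)
    {θ : RHom e e} {θ' : RHom H' H'} (hρθ : EndC ρ θ θ')
    (hθ : ∀ n y, θ'.f n (h.f n y) = h.f n y)
    (he : Connective e) (hei : Conn e) (hH : Connective H) (hH' : Connective H')
    (hH'0 : PosZero H')
    (hh : ∀ (a n : ℕ), n ≤ a → ∀ x x' : Lp H.self.seq a n,
      StEq (h.sh.lp x) (h.sh.lp x') → StEq x x')
    (h1 : SemiFin e₀ (e.self.res i)) (h2 : SemiFin e₀ (H.self.res k))
    (h3 : SemiFin e₀ (H'.self.res (i.comp ρ)))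
    (hρ : ∀ (a : ℕ) (y : Lp H'.self.seq a a), ∃ (j : ℕ) (x : Lp e.self.seq (a + j) (a + j)),
      StEq (ρ.sh.lp x) (stn j y))
    (hp : StEq (nsm H' p) (cstLp H'.self.seq 1 1))
    {Λ : Type} [CommRing Λ] [Nontrivial Λ] (hΛ : (p : Λ) ^ 2 = 0)
    (hf : ∀ x : Λ, (p : Λ) * x = 0 → ∃ y, x = p * y)
    (Q : RCh e Λ) (q : RCh H' (ResP p Λ)) (hq : ∀ (a : ℕ) (x : Lp e.self.seq a a),
      q.Q a (ρ.sh.lp x) = Ideal.Quotient.mk _ (Q.Q a x))
    (sg : Λ →+* Λ)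
    (hsg : ∀ (a : ℕ) (x : Lp e.self.seq a a), Q.Q a (θ.sh.lp x) = sg (Q.Q a x))
    {f : ℕ} (hf6 : 6 ≤ f) (hsf : ∀ x, (sg ^ f) x = x) {v₀ : ℕ}
    (y : Fin f → Lp e.self.seq (v₀ + 1) (v₀ + 1))
    (hG : GalInj θ y) (hG' : GalSur θ y) (hD : GalDes h θ' fun l => ρ.sh.lp (y l))
    (hdet : IsUnit (Matrix.det (Matrix.of fun l j : Fin f =>
      (Ideal.Quotient.mk _ ((sg ^ j.1) (Q.Q (v₀ + 1) (y l))) : ResP p Λ)))) :
    ∃ (B : RSp) (ι : RHom e₀ B) (π : RHom B e),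
      (∀ n x, π.f n (ι.f n x) = i.f n x) ∧
      (∀ (M : RSp) (φ : RHom e M), ∃ ψ : RHom B M, ∀ n x, ψ.f n (ι.f n x) = φ.f n (i.f n x)) ∧
      Connective B ∧ Conn B ∧ SemiFin e₀ (B.self.res ι) ∧
      (∀ a n : ℕ, n ≤ a → ∀ z z' : Lp B.self.seq a n,
        StEq (π.sh.lp z) (π.sh.lp z') → StEq z z') ∧
      (∀ (a n : ℕ) (x : Lp e.self.seq a n),
        ∃ (j : ℕ) (z : Lp B.self.seq (1 + a + j) (1 + n + j)),
          StEq (π.sh.lp z) (stn j (ext (P := e.self) (nsm e p) x))) ∧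
      ∀ (D d : ℕ), 0 < d → ∀ (A : PS.{u}) (At : PS.{v}), DimLe A D → HNe p A D →
        ∀ s : PMap At (Susp d A), HSur p s (D + d) → ∀ (w : PMap At A) (N : ℕ),
          ∃ j, N ≤ j ∧ ¬ Function.Surjective
            (Cls.pre (Susp.pmap j w) : Cls (Susp j A) (Kth B) → Cls (Susp j At) (Kth B)) :=
  hpr_final c hρθ hθ he hei hH hH' hH'0 hh h1 h2 h3 hρ hp hΛ hf Q q hq sg hsg hf6 hsf
    (fun _ => v₀ + 1) y hdet
    (modFree hρθ hθ y c (by omega) he hH hH' hH'0 hh hρ hG hG' hD)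

end Pool.Agent.MP_d175a7_gt
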