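import Pool.Agent.Lib.MP_d175a7_gt.OlS
import Pool.Agent.Lib.MP_d175a7_gt.OrdB

/-!
# Linear combinations of loops, loops in free modules
-/

set_option autoImplicit false
set_option linter.unusedVariables false

namespace Pool.Agent.MP_d175a7_gt

open scoped Topology unitInterval

section Free

variable {R : RSp} {f : ℕ}

/-- The projections of a free module. -/
def prF (R : RSp) {f : ℕ} (l : Fin f) : MHom (free R f) R.self where
  f n x := x l
  cont n T _ _ _ g hg := (continuous_apply l).comp hg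
  pt n := rfl
  act n A x := rfl
  smul h r x := rfl

/-- The loop in a free module with given components. -/
noncomputable def asm {a n : ℕ} (x : Fin f → Lp R.self.seq a n) : Lp (free R f).seq a n :=
  ⟨⟨fun t l => (x l).1 t, continuous_pi fun l => (x l).1.continuous⟩,
    fun t ht => funext fun l => (x l).2 t ht⟩

theorem prF_asm {a n : ℕ} (x : Fin f → Lp R.self.seq a n) (l : Fin f) :
    (prF R l).sh.lp (asm x) = x l := rfl

theorem asm_prF {a n : ℕ} (w : Lp (free R f).seq a n) :
    asm (fun l => (prF R l).sh.lp w) = w := rfl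

theorem free_stEq {a n : ℕ} (w w' : Lp (free R f).seq a n)
    (h : ∀ l, StEq ((prF R l).sh.lp w) ((prF R l).sh.lp w')) : StEq w w' := by
  obtain ⟨j, hj⟩ := exists_common (P := R.self.seq) h
  refine ⟨j, ?_⟩
  have h1 : ∀ l, ∃ F : I → (Fin (a + j) → I) → R.X (n + j),
      (Continuous fun q : I × (Fin (a + j) → I) => F q.1 q.2) ∧
      (∀ t, F 0 t = (stn j w).1 t l) ∧ (∀ t, F 1 t = (stn j w').1 t l) ∧
      ∀ s, ∀ t ∈ Cube.boundary (Fin (a + j)), F s t = R.pt (n + j) := by
    intro l
    have h2 := hj l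
    rw [← SHom.lp_stn, ← SHom.lp_stn] at h2
    exact exists_of_homotopic (P := R.self.seq) h2
  choose F hF h0 h1 hb using h1
  refine homotopic_of (P := (free R f).seq) (fun s t l => F l s t) ?_ ?_ ?_ ?_
  · exact continuous_pi fun l => hF l
  · exact fun t => funext fun l => h0 l t
  · exact fun t => funext fun l => h1 l t
  · exact fun s t ht => funext fun l => hb l s t ht

theorem stn_asm {a n : ℕ} (x : Fin f → Lp R.self.seq a n) (j : ℕ) :
    stn j (asm x) = asm fun l => stn j (x l) := by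
  have h1 := asm_prF (stn j (asm x))
  rw [← h1]
  congr 1
  funext l
  rw [SHom.lp_stn, prF_asm]

end Free

section Theta

variable {R : RSp} {f v : ℕ} (y : Fin f → Lp R.self.seq (v + 1) (v + 1))

/-- The homomorphism `(x_l) ↦ ∑ y_l x_l` on the free module. -/
noncomputable def thM : MHom (free R f) (Ol (v + 1) R.self) :=
  Ol.sum fun l => (prF R l).comp (mulY (M := R.self) (y l))

theorem hO_mulY {a n : ℕ} (y : Lp R.self.seq (v + 1) (v + 1)) (x : Lp R.self.seq a n) :
    hO' ((mulY (M := R.self) y).sh.lp x) =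
      (mulL y x : Lp R.self.seq (a + (v + 1)) (n + (v + 1))) := by
  apply Subtype.ext
  apply ContinuousMap.ext
  intro t
  rw [hO'_apply]
  exact (R.mul_comm rfl (Nat.add_comm (v + 1) n) _ _).symm

theorem hO_thM {a n : ℕ} (w : Lp (free R f).seq a n) :
    hO' ((thM y).sh.lp w) = msum y fun l => (prF R l).sh.lp w := by
  unfold thM
  rw [hO_sum]
  unfold msum
  congr 1
  funext l
  exact hO_mulY (y l) ((prF R l).sh.lp w)

theorem msum_eq {a n : ℕ} (x : Fin f → Lp R.self.seq a n) :
    msum y x = hO' ((thM y).sh.lp (asm x)) := (hO_thM y (asm x)).symm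

theorem msum_stEq {a n : ℕ} {x x' : Fin f → Lp R.self.seq a n} (h : ∀ l, StEq (x l) (x' l)) :
    StEq (msum y x) (msum y x') := by
  rw [msum_eq, msum_eq]
  have h1 : StEq (asm x) (asm x') := free_stEq _ _ h
  exact (stEq_hO (v := v + 1)).2 (h1.lp (thM y).sh)

theorem msum_stn {a n : ℕ} {x : Fin f → Lp R.self.seq a n} {z : Lp R.self.seq a n}
    (h : StEq (msum y x) (stn (v + 1) z)) (J : ℕ) :
    StEq (msum y fun l => stn J (x l)) (stn (v + 1) (stn J z)) := by
  rw [msum_eq] at h ⊢
  have h1 : StEq ((thM y).sh.lp (asm x)) ((olin (v + 1) R.self).sh.lp z) := by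
    refine (stEq_hO (v := v + 1)).1 ?_
    rw [hO_olin]
    exact h
  have h2 := h1.stn J
  rw [← SHom.lp_stn, ← SHom.lp_stn, stn_asm] at h2
  have h3 := (stEq_hO (v := v + 1)).2 h2
  rw [hO_olin] at h3
  exact h3

end Theta

theorem RHom.lp_msum {R S : RSp} (φ : RHom R S) {f v a n : ℕ}
    (y : Fin f → Lp R.self.seq (v + 1) (v + 1)) (x : Fin f → Lp R.self.seq a n) :
    φ.sh.lp (msum y x) = msum (fun l => φ.sh.lp (y l)) fun l => φ.sh.lp (x l) := by
  unfold msum
  rw [lp_lsum]
  congr 1
  funext l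
  exact Subtype.ext (ContinuousMap.ext fun t => φ.mul _ _ _)

/-! ### Casts -/

theorem stn_stn_heq {P : Seq} {a n : ℕ} (x : Lp P a n) (j v : ℕ) :
    HEq (stn v (stn j x)) (stn (j + v) x) := by
  induction v with
  | zero => rfl
  | succ v ih =>
    have h4 : ∀ {b m b' m' : ℕ} (hb : b = b') (hm : m = m') (s : Lp P b m)
        (s' : Lp P b' m'), HEq s s' → HEq (st s) (st s') := by
      intro b m b' m' hb hm s s' hs
      subst hb; subst hm
      rw [eq_of_heq hs]
    exact h4 (Nat.add_assoc a j v) (Nat.add_assoc n j v) _ _ ih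

theorem cast_ex {P Q : Seq} (g : SHom P Q) {a n i k : ℕ} (x : Lp Q a n)
    (b : Lp P (a + i + k) (n + i + k)) (hb : StEq (g.lp b) (stn k (stn i x))) :
    ∃ b' : Lp P (a + (i + k)) (n + (i + k)), StEq (g.lp b') (stn (i + k) x) := by
  have h5 : ∀ {b m b' m' : ℕ} (hb : b = b') (hm : m = m') (w : Lp P b m) (s : Lp Q b m)
      (s' : Lp Q b' m'), HEq s s' → StEq (g.lp w) s →
      ∃ w' : Lp P b' m', StEq (g.lp w') s' := by
    intro b m b' m' hb hm w s s' hs hw
    subst hb; subst hm
    rw [← eq_of_heq hs]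
    exact ⟨w, hw⟩
  exact h5 (Nat.add_assoc a i k) (Nat.add_assoc n i k) b _ _ (stn_stn_heq x i k) hb

theorem ex_le {P Q : Seq} (g : SHom P Q) {a n J : ℕ} (x : Lp Q a n)
    (h : ∃ b : Lp P (a + J) (n + J), StEq (g.lp b) (stn J x)) {J' : ℕ} (hJ : J ≤ J') :
    ∃ b : Lp P (a + J') (n + J'), StEq (g.lp b) (stn J' x) := by
  induction J', hJ using Nat.le_induction with
  | base => exact h
  | succ k hk ih =>
    obtain ⟨b, hb⟩ := ih
    refine ⟨st b, ?_⟩
    rw [SHom.lp_st]
    exact hb.stn 1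

end Pool.Agent.MP_d175a7_gt
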