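import Pool.Agent.Lib.MP_d175a7_gt.FreeA
import Pool.Agent.Lib.MP_d175a7_gt.HprD

/-!
# The fibre product of copies of `e` is a free module over `e ×_(H') H`
-/

set_option autoImplicit false
set_option linter.unusedVariables false

namespace Pool.Agent.MP_d175a7_gt

open scoped Topology unitInterval

variable {e H H' : RSp} {ρ : RHom e H'} {h : RHom H H'} {θ : RHom e e} {θ' : RHom H' H'}

theorem EndC.iter_fst (hρθ : EndC ρ θ θ') (s n : ℕ) (x : (Pth ρ).X n) :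
    ((hρθ.map.iter s).f n x).1.1 = (θ.iter s).f n x.1.1 := by
  induction s with
  | zero => rfl
  | succ s ih =>
    change θ.f n ((hρθ.map.iter s).f n x).1.1 = θ.f n ((θ.iter s).f n x.1.1)
    rw [ih]

theorem EndC.iter (hρθ : EndC ρ θ θ') (s n : ℕ) (x : e.X n) :
    ρ.f n ((θ.iter s).f n x) = (θ'.iter s).f n (ρ.f n x) := by
  induction s with
  | zero => rfl
  | succ s ih => rw [RHom.iter_succ, RHom.iter_succ, hρθ, ih]

theorem EndC.lp_iter (hρθ : EndC ρ θ θ') (s : ℕ) {a n : ℕ} (x : Lp e.self.seq a n) :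
    ρ.sh.lp ((θ.iter s).sh.lp x) = (θ'.iter s).sh.lp (ρ.sh.lp x) :=
  Subtype.ext (ContinuousMap.ext fun t => hρθ.iter s n _)

/-- Lifting of loops to the homotopy pullback. -/
theorem hpr_lift {a n i : ℕ} (x : Lp e.self.seq a n) (x' : Lp H.self.seq (a + i) (n + i))
    (hx : StEq (h.sh.lp x') (stn i (ρ.sh.lp x))) :
    ∃ (J : ℕ) (b : Lp (Hpr ρ h).self.seq (a + J) (n + J)),
      StEq ((Hpr.pr ρ h).sh.lp b) (stn J x) := by
  obtain ⟨k, hk⟩ := hx.symm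
  rw [← SHom.lp_stn, ← SHom.lp_stn, ← SHom.lp_stn] at hk
  obtain ⟨F, hF, h0, h1, hb⟩ := exists_of_homotopic (P := H'.self.seq) hk
  let b : Lp (Hpr ρ h).self.seq (a + i + k) (n + i + k) :=
    ⟨⟨fun t => ⟨(⟨((stn k (stn i x)).1 t, ⟨fun s => F s t,
      hF.comp (continuous_id.prodMk continuous_const)⟩), h0 t⟩, (stn k x').1 t), h1 t⟩, by
      refine Continuous.subtype_mk ((Continuous.subtype_mk
        ((stn k (stn i x)).1.continuous.prodMk (curry_cont _ ?_)) _).prodMk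
        (stn k x').1.continuous) _
      exact hF.comp (continuous_snd.prodMk continuous_fst)⟩, fun t ht => by
      refine Subtype.ext (Prod.ext (Subtype.ext (Prod.ext ?_
        (ContinuousMap.ext fun s => ?_))) ?_)
      · exact (stn k (stn i x)).2 t ht
      · refine (hb s t ht).trans ?_
        rfl
      · exact (stn k x').2 t ht⟩
  have hb' : StEq ((Hpr.pr ρ h).sh.lp b) (stn k (stn i x)) := StEq.refl _
  exact ⟨i + k, cast_ex _ x b hb'⟩

section Mod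

variable (hρθ : EndC ρ θ θ') (hθ : ∀ n y, θ'.f n (h.f n y) = h.f n y) (f : ℕ)

/-- The homomorphism `e ×_(H') H → e ×_(H') ⋯ ×_(H') e`. -/
abbrev phR : RHom (Hpr ρ h) (Bh ρ f) :=
  Pbr.emb (Pth.fib ρ) h hρθ.map θ' hρθ.fib hθ f

/-- A loop in the module is a loop in the ring. -/
def asR {a n : ℕ} (z : Lp (Hpr.mod ρ h hρθ hθ f).seq a n) : Lp (Bh ρ f).self.seq a n := z

/-- The slots of a loop in the module. -/
noncomputable def slR (s : Fin f) {a n : ℕ} (z : Lp (Hpr.mod ρ h hρθ hθ f).seq a n) :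
    Lp e.self.seq a n := (Bh.pr ρ s).sh.lp (asR hρθ hθ f z)

theorem slR_stEq (s : Fin f) {a n : ℕ} {z z' : Lp (Hpr.mod ρ h hρθ hθ f).seq a n}
    (hz : StEq z z') : StEq (slR hρθ hθ f s z) (slR hρθ hθ f s z') :=
  StEq.lp _ ((stEq_res (phR hρθ hθ f) (Bh ρ f).self z z').1 hz)

theorem slR_stn (s : Fin f) {a n : ℕ} (z : Lp (Hpr.mod ρ h hρθ hθ f).seq a n) (j : ℕ) :
    slR hρθ hθ f s (stn j z) = stn j (slR hρθ hθ f s z) := by
  have h1 := stn_resC (phR hρθ hθ f) (Bh ρ f).self (asR hρθ hθ f z) j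
  have h2 := SHom.lp_stn (Bh.pr ρ s).sh (asR hρθ hθ f z) j
  exact (congrArg (Bh.pr ρ s).sh.lp h1).trans h2

theorem mod_inj (hf : 0 < f) (hπ : PosZero H') {a n : ℕ} (han : n ≤ a)
    (z z' : Lp (Hpr.mod ρ h hρθ hθ f).seq a n)
    (hz : ∀ s, StEq (slR hρθ hθ f s z) (slR hρθ hθ f s z')) : StEq z z' := by
  obtain ⟨g, rfl⟩ : ∃ g, f = g + 1 := ⟨f - 1, by omega⟩
  exact (stEq_res (phR hρθ hθ (g + 1)) (Bh ρ (g + 1)).self z z').2
    (slots_inj' ρ hπ g han (asR hρθ hθ (g + 1) z) (asR hρθ hθ (g + 1) z') hz)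

theorem mod_zero (hf : 0 < f) (he : Connective e) (hH' : Connective H')
    (hs : ∀ (a : ℕ) (y : Lp H'.self.seq a a), ∃ (j : ℕ) (x : Lp e.self.seq (a + j) (a + j)),
      StEq (ρ.sh.lp x) (stn j y)) {a n : ℕ} (han : a < n)
    (z : Lp (Hpr.mod ρ h hρθ hθ f).seq a n) :
    StEq z (cstLp (Hpr.mod ρ h hρθ hθ f).seq a n) := by
  obtain ⟨g, rfl⟩ : ∃ g, f = g + 1 := ⟨f - 1, by omega⟩
  exact (stEq_res (phR hρθ hθ (g + 1)) (Bh ρ (g + 1)).self z _).2
    (connective_Bh ρ he hH' hs g a n han (asR hρθ hθ (g + 1) z))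

variable {v : ℕ} (y : Fin f → Lp e.self.seq (v + 1) (v + 1))

/-- The diagonal loops. -/
noncomputable def yR (l : Fin f) : Lp (Hpr.mod ρ h hρθ hθ f).seq (v + 1) (v + 1) :=
  ((Bh.diag ρ f).sh.lp (y l) : Lp (Bh ρ f).self.seq (v + 1) (v + 1))

/-- The homomorphism `(b_l) ↦ ∑ b_l y_l`. -/
noncomputable def btR : MHom (free (Hpr ρ h) f) (Ol (v + 1) (Hpr.mod ρ h hρθ hθ f)) :=
  Ol.sum fun l => (prF (Hpr ρ h) l).comp (mulY (yR hρθ hθ f y l))

theorem slR_btR (s : Fin f) {a n : ℕ} (w : Lp (free (Hpr ρ h) f).seq a n) :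
    slR hρθ hθ f s (hO' ((btR hρθ hθ f y).sh.lp w)) = msum y fun l =>
      (θ.iter s.1).sh.lp ((Hpr.pr ρ h).sh.lp ((prF (Hpr ρ h) l).sh.lp w)) := by
  unfold btR
  rw [hO_sum]
  have h1 : slR hρθ hθ f s (lsum fun l => hO' (((prF (Hpr ρ h) l).comp
      (mulY (yR hρθ hθ f y l))).sh.lp w)) =
      lsum fun l => slR hρθ hθ f s (hO' (((prF (Hpr ρ h) l).comp
        (mulY (yR hρθ hθ f y l))).sh.lp w)) :=
    lp_lsum (Bh.pr ρ s).sh _
  rw [h1]
  unfold msum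
  congr 1
  funext l
  apply Subtype.ext
  apply ContinuousMap.ext
  intro t
  have h2 := e.mul_comm rfl (Nat.add_comm (v + 1) n)
    ((θ.iter s.1).f n ((w.1 (tl (v := v + 1) t) l).1.1.1.1)) ((y l).1 (hd (v := v + 1) t))
  refine Eq.trans ?_ h2.symm
  rw [← hρθ.iter_fst s.1 n]
  rfl

end Mod

end Pool.Agent.MP_d175a7_gt
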