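import Pool.Agent.Lib.MP_d175a7_gt.GV

/-!
# The value of the functionals on `alf`
-/

set_option autoImplicit false
set_option linter.unusedVariables false

namespace Pool.Agent.MP_d175a7_gt

open scoped Topology unitInterval

variable {e H R : RSp} {ρ : RHom e H} {f : ℕ} (φ : RHom R (Bf e H ρ f))

/-- The module `Zf β` over `R`. -/
abbrev ZR (v : ℕ) (β o : Fin f) : MSp R := (Zf ρ v β o).res φ

/-- `B → Zf β` over `R`. -/
def ioR (v : ℕ) (β o : Fin f) (ho : o ≠ β) : MHom (PB φ) (ZR φ v β o) :=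
  (zin ρ v β o ho).res φ

theorem ioR_isWeq (v : ℕ) (β o : Fin f) (ho : o ≠ β) : (ioR φ v β o ho).IsWeq :=
  MHom.res_isWeq φ (zin_isWeq ρ v β o ho)

/-- The inverse on loops. -/
noncomputable def hR {v : ℕ} (β o : Fin f) (ho : o ≠ β) {a n : ℕ}
    (z : Lp (ZR φ v β o).seq a n) : Lp (PB φ).seq (a + v) (n + v) :=
  (bjoin ρ β o ho).sh.lp (hL (κ := kap ρ β o) (ρ := rhb ρ β o)
    (z : Lp (Zb v (kap ρ β o) (rhb ρ β o)).seq a n))

theorem stn_resB (P : MSp (Bf e H ρ f)) {a n : ℕ} (j : ℕ) (x : Lp P.seq a n) :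
    stn (P := (P.res φ).seq) (a := a) (n := n) j x = stn (P := P.seq) j x := by
  apply Subtype.ext
  apply ContinuousMap.ext
  intro t
  have h1 := stn_apply (P.res φ) (a := a) (n := n) j x t
  have h2 := stn_apply P j x t
  refine h1.trans (Eq.trans ?_ h2.symm)
  change P.smul _ (φ.f j (R.unit j _)) _ = _
  rw [φ.unit]
  rfl

theorem bsplit_bjoin (β o : Fin f) (ho : o ≠ β) (n : ℕ)
    (z : (Pb (kap ρ β o) (rhb ρ β o)).X n) :
    (bsplit ρ β o ho).f n ((bjoin ρ β o ho).f n z) = z := by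
  refine Subtype.ext (Prod.ext (Subtype.ext (funext fun i => ?_)) ?_)
  · change Function.update (Function.update z.1.1.1 β z.1.2) β (e.pt n) i = z.1.1.1 i
    rw [Function.update_idem]
    by_cases hi : i = β
    · subst hi
      rw [Function.update_self]
      exact z.1.1.2.1.symm
    · rw [Function.update_of_ne hi]
  · change Function.update z.1.1.1 β z.1.2 β = z.1.2
    rw [Function.update_self]

theorem io_hR {v : ℕ} (β o : Fin f) (ho : o ≠ β) {a n : ℕ} (z : Lp (ZR φ v β o).seq a n) :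
    GenLoop.Homotopic ((ioR φ v β o ho).sh.lp (hR φ β o ho z)) (stn v z) := by
  have h1 := iota_hL (κ := kap ρ β o) (ρ := rhb ρ β o)
    (z : Lp (Zb v (kap ρ β o) (rhb ρ β o)).seq a n)
  have h2 := stn_resB φ (Zb v (kap ρ β o) (rhb ρ β o)) (a := a) (n := n) v z
  rw [← h2] at h1
  have h3 : (ioR φ v β o ho).sh.lp (hR φ β o ho z) =
      (ziota v (kap ρ β o) (rhb ρ β o)).sh.lp (hL (κ := kap ρ β o) (ρ := rhb ρ β o)
        (z : Lp (Zb v (kap ρ β o) (rhb ρ β o)).seq a n)) := by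
    apply Subtype.ext
    apply ContinuousMap.ext
    intro t
    change (ziota v (kap ρ β o) (rhb ρ β o)).f (n + v)
      ((bsplit ρ β o ho).f (n + v) ((bjoin ρ β o ho).f (n + v) _)) =
      (ziota v (kap ρ β o) (rhb ρ β o)).f (n + v) _
    rw [bsplit_bjoin]
  rw [h3]
  exact h1

variable {Λ : Type} [CommRing Λ] {p : ℕ} {k : Type} [CommRing k]

theorem vev_hR (D : Det R k) {v : ℕ} (β o : Fin f) (ho : o ≠ β)
    (F : VV D (ZR φ v β o)) {a : ℕ} (z : Lp (ZR φ v β o).seq a a) :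
    vev F z = vev (vmap D (ioR φ v β o ho) F) (hR φ β o ho z) := by
  rw [vev_vmap, ← vev_stn F z v]
  exact (vev_hty F (io_hR φ β o ho z)).symm

variable {v : ℕ} (g : C(Sph v, e.X v)) (hg : g OnePoint.infty = e.pt v)
  (hρ : ∀ u, ρ.f v (g u) = H.pt v)

/-- `alf` over `R`. -/
def alR (β a o : Fin f) : MHom (ZR φ v β o) (ZR φ v a o) := (alf ρ g hg hρ β a o).res φ

/-- The slots of the loop `hR (alf (io w))`. -/
theorem hR_alR_ne (β a o : Fin f) (hβ : o ≠ β) (ha : o ≠ a) {n : ℕ}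
    (w : Lp (PB φ).seq n n) (i : Fin f) (hi : i ≠ a) :
    (slH ρ i).lp (asB φ (hR φ a o ha ((alR φ g hg hρ β a o).sh.lp
      ((ioR φ v β o hβ).sh.lp w)))) = cstLp e.self.seq (n + v) (n + v) := by
  apply Subtype.ext
  apply ContinuousMap.ext
  intro t
  change Function.update (fun i => e.mul (Nat.add_comm v n) (e.unit v (lamv v (hd t))) (e.pt n)) a
    _ i = e.pt (n + v)
  rw [Function.update_of_ne hi, e.mul_pt]

theorem hR_alR_eq (β a o : Fin f) (hβ : o ≠ β) (ha : o ≠ a) (hab : a ≠ β) {n : ℕ}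
    (w : Lp (PB φ).seq n n) (Q : RCh e Λ) :
    Q.Q (n + v) ((slH ρ a).lp (asB φ (hR φ a o ha ((alR φ g hg hρ β a o).sh.lp
      ((ioR φ v β o hβ).sh.lp w))))) =
      Q.Q v (sphLp e.self g hg) * Q.Q n ((slH ρ a).lp (asB φ w)) := by
  refine Q.mul_of (Nat.add_comm v n) _ _ _ fun t => ?_
  change Function.update (fun i => e.mul (Nat.add_comm v n) (e.unit v (lamv v (hd t))) (e.pt n)) a
    (e.act (n + v) (swp rfl (Nat.add_comm v n))
      (e.mul rfl (Function.update (w.1 (tl t)).1 β (e.pt n) a) (g (lamv v (hd t))))) a =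
    e.mul (Nat.add_comm v n) (g (lamv v (hd t))) ((w.1 (tl t)).1 a)
  rw [Function.update_self, Function.update_of_ne hab, ← e.mul_comm]

/-- The relation. -/
theorem QD.rel (K : QD ρ Λ p) (τ : Λ →+* Λ) (π : Equiv.Perm (Fin f)) (c : Fin f → Λ)
    (hc : ∑ s, c s = 0) (q : Fin f) (D : Det R (ResP p Λ))
    (hD : ∀ (a : ℕ) (b : Lp R.self.seq a a), D.D a b = psiC p c q (K.fam τ π (φ.sh.lp b)))
    (hgp : K.Q.Q v (sphLp e.self g hg) = p)
    (β a o : Fin f) (hβ : o ≠ β) (ha : o ≠ a) (hab : a ≠ β)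
    (F : VV D (ZR φ v a o)) (hF : vmap D (ioR φ v a o ha) F = K.val φ τ π c hc q D hD)
    (F' : VV D (ZR φ v β o)) (hF' : vmap D (ioR φ v β o hβ) F' = K.val φ τ π c hc q D hD) :
    vmap D (alR φ g hg hρ β a o) F =
      (TrivSqZeroExt.inr (Ideal.Quotient.mk _ (c (π.symm a))) : DualNumber (ResP p Λ)) • F' := by
  apply vmap_inj D (ioR φ v β o hβ) (ioR_isWeq φ v β o hβ)
  rw [map_smul, hF']
  apply VV_ext
  intro n w
  change vev F ((alR φ g hg hρ β a o).sh.lp ((ioR φ v β o hβ).sh.lp w)) =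
    TrivSqZeroExt.inr (Ideal.Quotient.mk _ (c (π.symm a))) *
      psiC p c q (K.fam τ π (asB φ w))
  rw [vev_hR φ D a o ha F, hF]
  change psiC p c q (K.fam τ π (asB φ _)) = _
  classical
  have h1 : K.fam τ π (asB φ (hR φ a o ha ((alR φ g hg hρ β a o).sh.lp
      ((ioR φ v β o hβ).sh.lp w)))) =
      fun s => if s = π.symm a then (p : Λ) * τ (K.Q.Q n ((slH ρ a).lp (asB φ w))) else 0 := by
    funext s
    unfold QD.fam
    by_cases hs : s = π.symm a
    · rw [if_pos hs]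
      have h2 : π s = a := by rw [hs, Equiv.apply_symm_apply]
      rw [h2, hR_alR_eq φ g hg hρ β a o hβ ha hab w K.Q, hgp, map_mul, map_natCast]
    · rw [if_neg hs]
      have h2 : π s ≠ a := fun h => hs (by rw [← h, Equiv.symm_apply_apply])
      rw [hR_alR_ne φ g hg hρ β a o hβ ha w (π s) h2, K.Q.cst, map_zero]
  rw [h1]
  have h3 := psiC_single (p := p) (c := c) q K.flat hc (π.symm a)
    (τ (K.Q.Q n ((slH ρ a).lp (asB φ w))))
  refine (Eq.trans ?_ h3).trans ?_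
  · congr 1
  · have h4 := K.fam_cong' τ π (asB φ w) a (π q)
    refine TrivSqZeroExt.ext ?_ ?_
    · rw [TrivSqZeroExt.fst_mul, TrivSqZeroExt.fst_inr, zero_mul]
      rfl
    · rw [TrivSqZeroExt.snd_mul, TrivSqZeroExt.fst_inr, zero_smul, zero_add,
        TrivSqZeroExt.snd_inr, psiC_fst]
      change Ideal.Quotient.mk _ (c (π.symm a) * τ (K.Q.Q n ((slH ρ a).lp (asB φ w)))) =
        Ideal.Quotient.mk _ (c (π.symm a)) *
          Ideal.Quotient.mk _ (τ (K.Q.Q n ((slH ρ (π q)).lp (asB φ w))))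
      rw [map_mul, h4]

end Pool.Agent.MP_d175a7_gt
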