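import Pool.Agent.Lib.MP_d175a7_gt.GVa

/-!
# Bases of `VV` and the cyclic data
-/

set_option autoImplicit false
set_option linter.unusedVariables false

namespace Pool.Agent.MP_d175a7_gt

open scoped Topology unitInterval

/-- For a free module `P` of rank `r` functionals `d_j` and loops `Y_l` with invertible matrix
`d_j(Y_l)`: the `d_j` are a basis of `VV D P`. -/
theorem basis_of_det {R : RSp} {k : Type} [CommRing k] (D : Det R k) {P : MSp R} {r : ℕ}
    (F : FreeMod R P r) (d : Fin r → VV D P) (u : Fin r → ℕ) (Y : ∀ l, Lp P.seq (u l) (u l))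
    (hdet : IsUnit (Matrix.det (Matrix.of fun l j => vev (d j) (Y l)))) :
    ∃ b : (Fin r → DualNumber k) ≃ₗ[DualNumber k] VV D P, ∀ j, b (Pi.single j 1) = d j := by
  let M : Matrix (Fin r) (Fin r) (DualNumber k) := Matrix.of fun l j => vev (d j) (Y l)
  let S : (Fin r → DualNumber k) →ₗ[DualNumber k] VV D P := Fintype.linearCombination _ d
  let E : VV D P →ₗ[DualNumber k] (Fin r → DualNumber k) :=
    { toFun := fun f l => vev f (Y l)
      map_add' := fun f g => rfl
      map_smul' := fun c f => rfl }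
  have hES : ∀ a, E (S a) = M.mulVec a := by
    intro a
    have h1 : S a = ∑ j, a j • d j := Fintype.linearCombination_apply _ _ _
    rw [h1, map_sum]
    funext l
    rw [Finset.sum_apply]
    change ∑ j, (E (a j • d j)) l = ∑ j, vev (d j) (Y l) * a j
    refine Finset.sum_congr rfl fun j _ => ?_
    rw [map_smul]
    exact mul_comm _ _
  have hM : ∀ a, M.mulVec (M⁻¹.mulVec a) = a := fun a => by
    rw [Matrix.mulVec_mulVec, Matrix.mul_nonsing_inv M hdet, Matrix.one_mulVec]
  have hE : Function.Surjective E := fun a => ⟨S (M⁻¹.mulVec a), by rw [hES, hM]⟩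
  have hEi : Function.Injective E := by
    have h1 : Function.Surjective (E ∘ₗ (crd D F.obj).symm.toLinearMap) := by
      intro a
      obtain ⟨x, hx⟩ := hE a
      refine ⟨crd D F.obj x, ?_⟩
      change E ((crd D F.obj).symm (crd D F.obj x)) = a
      rw [LinearEquiv.symm_apply_apply, hx]
    have h2 := OrzechProperty.injective_of_surjective_endomorphism
      (E ∘ₗ (crd D F.obj).symm.toLinearMap) h1
    intro x y hxy
    apply (crd D F.obj).injective
    apply h2
    change E ((crd D F.obj).symm (crd D F.obj x)) = E ((crd D F.obj).symm (crd D F.obj y))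
    rw [LinearEquiv.symm_apply_apply, LinearEquiv.symm_apply_apply, hxy]
  have hS : Function.Bijective S := by
    constructor
    · intro a a' h
      have h1 : M.mulVec a = M.mulVec a' := by rw [← hES, ← hES, h]
      have h2 := congrArg (M⁻¹.mulVec) h1
      rwa [Matrix.mulVec_mulVec, Matrix.mulVec_mulVec, Matrix.nonsing_inv_mul M hdet,
        Matrix.one_mulVec, Matrix.one_mulVec] at h2
    · intro x
      refine ⟨M⁻¹.mulVec (E x), hEi ?_⟩
      rw [hES, hM]
  refine ⟨LinearEquiv.ofBijective S hS, fun j => ?_⟩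
  change Fintype.linearCombination _ d (Pi.single j 1) = d j
  rw [Fintype.linearCombination_apply_single, one_smul]

theorem nxt_prv {m : ℕ} (a : Fin m) : nxt (prv a) = a := Equiv.apply_symm_apply _ _

variable {e H R : RSp} {ρ : RHom e H} {f : ℕ} {Λ : Type} [CommRing Λ] {p : ℕ}

/-- The free modules `Zf β`. -/
def zfF (φ : RHom R (Bf e H ρ f)) (v : ℕ) (β o : Fin f) (ho : o ≠ β) {r : ℕ}
    (F : FreeMod R (PB φ) r) : ZF R r where
  P := ZR φ v β o
  P' := (FreeMod.zf ρ φ v β o ho F).P'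
  P'' := (FreeMod.zf ρ φ v β o ho F).P''
  α := (FreeMod.zf ρ φ v β o ho F).α
  β := (FreeMod.zf ρ φ v β o ho F).β
  γ := (FreeMod.zf ρ φ v β o ho F).γ
  hα := (FreeMod.zf ρ φ v β o ho F).hα
  hβ := (FreeMod.zf ρ φ v β o ho F).hβ
  hγ := (FreeMod.zf ρ φ v β o ho F).hγ

/-- The cyclic data. -/
theorem QD.cyc (K : QD ρ Λ p) (φ : RHom R (Bf e H ρ f)) {r : ℕ} (τ : Fin r → Λ →+* Λ)
    (π : Fin r → Equiv.Perm (Fin f)) (c : Fin f → Λ) (hc : ∑ s, c s = 0) (q : Fin f)
    (D : Det R (ResP p Λ))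
    (hD : ∀ (j : Fin r) (a : ℕ) (b : Lp R.self.seq a a),
      D.D a b = psiC p c q (K.fam (τ j) (π j) (φ.sh.lp b)))
    {v : ℕ} (g : C(Sph v, e.X v)) (hg : g OnePoint.infty = e.pt v)
    (hρ : ∀ u, ρ.f v (g u) = H.pt v) (hgp : K.Q.Q v (sphLp e.self g hg) = p)
    (F : FreeMod R (PB φ) r) (u : Fin r → ℕ) (Y : ∀ l, Lp (PB φ).seq (u l) (u l))
    (hdet : IsUnit (Matrix.det (Matrix.of fun l j =>
      psiC p c q (K.fam (τ j) (π j) (asB φ (Y l))))))
    (o : Fin f) {m : ℕ} (β : Fin m → Fin f) (hβ : ∀ i, o ≠ β i)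
    (hβ' : ∀ a, β a ≠ β (prv a)) :
    Nonempty (CycDat D m r (fun i j => Ideal.Quotient.mk _ (c ((π j).symm (β (nxt i)))))) := by
  obtain ⟨b, hb⟩ := basis_of_det D F (fun j => K.val φ (τ j) (π j) c hc q D (hD j)) u Y hdet
  refine ⟨{
    F := fun a => zfF φ v (β a) o (hβ a) F
    al := fun a => alR φ g hg hρ (β (prv a)) (β a) o
    comp := fun a n x => alf_alf ρ g hg hρ (β (prv (prv a))) (β (prv a)) (β a) o n x
    b := fun a => b.trans (veq D (ioR φ v (β a) o (hβ a)) (ioR_isWeq φ v (β a) o (hβ a))).symm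
    rel := fun a j => ?_ }⟩
  rw [nxt_prv]
  refine K.rel φ g hg hρ (τ j) (π j) c hc q D (hD j) hgp (β (prv a)) (β a) o (hβ (prv a)) (hβ a)
    (hβ' a) _ ?_ _ ?_
  · refine Eq.trans ?_ (hb j)
    exact (veq D (ioR φ v (β a) o (hβ a)) (ioR_isWeq φ v (β a) o (hβ a))).apply_symm_apply _
  · refine Eq.trans ?_ (hb j)
    exact (veq D (ioR φ v (β (prv a)) o (hβ (prv a)))
      (ioR_isWeq φ v (β (prv a)) o (hβ (prv a)))).apply_symm_apply _

end Pool.Agent.MP_d175a7_gt
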