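import Pool.Agent.Lib.MP_d175a7_gt.PathL

/-!
# Homotopy pullbacks of modules and semi-finite modules

`Hpb f g` is the levelwise homotopy pullback of `f : P → S` and `g : Q → S`.  `SemiFin` is the
class of semi-finite modules: the thick subcategory generated by the ring spectrum.
-/

set_option autoImplicit false
set_option linter.unusedVariables false

namespace Pool.Agent.MP_d175a7_gt

open scoped Topology unitInterval

variable {R : RSp}

variable {P Q S : MSp R} (f : MHom P S) (g : MHom Q S)

/-- The conditions on the end points of the path. -/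
abbrev HpbMem (n : ℕ) (z : (P.X n × Q.X n) × PathsIn (S.X n)) : Prop :=
  z.2 0 = f.f n z.1.1 ∧ z.2 1 = g.f n z.1.2

/-- The points of the homotopy pullback: `((x, y), w)`, `w` a path from `f x` to `g y`. -/
def HpbX (n : ℕ) : Type := {z : (P.X n × Q.X n) × PathsIn (S.X n) // HpbMem f g n z}

/-- The topology. -/
instance HpbX.top (n : ℕ) : TopologicalSpace (HpbX f g n) := instTopologicalSpaceSubtype

variable {f g} in
/-- The triple `((x, y), w)` as a point of the homotopy pullback. -/
abbrev HpbX.mk {n : ℕ} {x : P.X n} {y : Q.X n} {w : PathsIn (S.X n)}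
    (h : HpbMem f g n ((x, y), w)) : HpbX f g n := ⟨((x, y), w), h⟩

variable {f g} in
/-- The component `x`. -/
abbrev HpbX.x {n : ℕ} (z : HpbX f g n) : P.X n := z.1.1.1

variable {f g} in
/-- The component `y`. -/
abbrev HpbX.y {n : ℕ} (z : HpbX f g n) : Q.X n := z.1.1.2

variable {f g} in
/-- The path. -/
abbrev HpbX.w {n : ℕ} (z : HpbX f g n) : PathsIn (S.X n) := z.1.2

theorem HpbX.pt_mem (n : ℕ) : HpbMem f g n ((P.pt n, Q.pt n), cpath (S.pt n)) :=
  ⟨(f.pt n).symm, (g.pt n).symm⟩

/-- The base points. -/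
def HpbX.pt (n : ℕ) : HpbX f g n := HpbX.mk (HpbX.pt_mem f g n)

theorem HpbX.closed (n : ℕ) : IsClosed ({HpbX.pt f g n} : Set (HpbX f g n)) := by
  have h : ({HpbX.pt f g n} : Set (HpbX f g n)) = Subtype.val ⁻¹'
      ((({P.pt n} : Set (P.X n)) ×ˢ ({Q.pt n} : Set (Q.X n))) ×ˢ
        ({cpath (S.pt n)} : Set (PathsIn (S.X n)))) := by
    ext z
    constructor
    · rintro rfl
      exact ⟨⟨rfl, rfl⟩, rfl⟩
    · rintro ⟨⟨h1, h2⟩, h3⟩
      exact Subtype.ext (Prod.ext (Prod.ext h1 h2) h3)
  rw [h]
  exact (((P.closed n).prod (Q.closed n)).prod (cpath_closed (S.closed n))).preimage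
    continuous_subtype_val

theorem HpbX.act_mem (n : ℕ) (A : Ort n) (z : HpbX f g n) :
    HpbMem f g n ((P.act n A z.x, Q.act n A z.y), S.actP n A z.w) := by
  constructor
  · change S.act n A (z.1.2 0) = f.f n (P.act n A z.1.1.1)
    rw [z.2.1, f.act]
  · change S.act n A (z.1.2 1) = g.f n (Q.act n A z.1.1.2)
    rw [z.2.2, g.act]

/-- The action of `O(n)`. -/
def HpbX.act (n : ℕ) (A : Ort n) (z : HpbX f g n) : HpbX f g n := HpbX.mk (HpbX.act_mem f g n A z)

theorem HpbX.act_cont (n : ℕ) : KCont₂ (HpbX.act f g n) := fun T _ _ _ k h hk hh =>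
  Continuous.subtype_mk (((P.act_cont n T k (fun t => (h t).1.1.1) hk
    (continuous_fst.comp (continuous_fst.comp (continuous_subtype_val.comp hh)))).prodMk
      (Q.act_cont n T k (fun t => (h t).1.1.2) hk
        (continuous_snd.comp (continuous_fst.comp (continuous_subtype_val.comp hh))))).prodMk
      (S.actP_kcont n T k (fun t => (h t).1.2) hk
        (continuous_snd.comp (continuous_subtype_val.comp hh)))) _

theorem HpbX.act_one (n : ℕ) (z : HpbX f g n) : HpbX.act f g n 1 z = z :=
  Subtype.ext (Prod.ext (Prod.ext (P.act_one n _) (Q.act_one n _))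
    (ContinuousMap.ext fun u => S.act_one n _))

theorem HpbX.act_mul (n : ℕ) (A B : Ort n) (z : HpbX f g n) :
    HpbX.act f g n (A * B) z = HpbX.act f g n A (HpbX.act f g n B z) :=
  Subtype.ext (Prod.ext (Prod.ext (P.act_mul n _ _ _) (Q.act_mul n _ _ _))
    (ContinuousMap.ext fun u => S.act_mul n _ _ _))

theorem HpbX.act_pt (n : ℕ) (A : Ort n) : HpbX.act f g n A (HpbX.pt f g n) = HpbX.pt f g n :=
  Subtype.ext (Prod.ext (Prod.ext (P.act_pt n _) (Q.act_pt n _))
    (ContinuousMap.ext fun u => S.act_pt n _))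

theorem HpbX.smul_mem {m n k : ℕ} (h : m + n = k) (r : R.X m) (z : HpbX f g n) :
    HpbMem f g k ((P.smul h r z.x, Q.smul h r z.y), S.smulP h r z.w) := by
  constructor
  · change S.smul h r (z.1.2 0) = f.f k (P.smul h r z.1.1.1)
    rw [z.2.1, f.smul]
  · change S.smul h r (z.1.2 1) = g.f k (Q.smul h r z.1.1.2)
    rw [z.2.2, g.smul]

/-- The action of the ring. -/
def HpbX.smul {m n k : ℕ} (h : m + n = k) (r : R.X m) (z : HpbX f g n) : HpbX f g k :=
  HpbX.mk (HpbX.smul_mem f g h r z)

theorem HpbX.smul_cont {m n k : ℕ} (h : m + n = k) :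
    KCont₂ (HpbX.smul f g h : R.X m → HpbX f g n → HpbX f g k) := fun T _ _ _ k h' hk hh =>
  Continuous.subtype_mk (((P.smul_cont h T k (fun t => (h' t).1.1.1) hk
    (continuous_fst.comp (continuous_fst.comp (continuous_subtype_val.comp hh)))).prodMk
      (Q.smul_cont h T k (fun t => (h' t).1.1.2) hk
        (continuous_snd.comp (continuous_fst.comp (continuous_subtype_val.comp hh))))).prodMk
      (S.smulP_kcont h T k (fun t => (h' t).1.2) hk
        (continuous_snd.comp (continuous_subtype_val.comp hh)))) _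

theorem HpbX.smul_pt {m n k : ℕ} (h : m + n = k) (r : R.X m) :
    HpbX.smul f g h r (HpbX.pt f g n) = HpbX.pt f g k :=
  Subtype.ext (Prod.ext (Prod.ext (P.smul_pt h _) (Q.smul_pt h _))
    (ContinuousMap.ext fun u => S.smul_pt h _))

theorem HpbX.pt_smul {m n k : ℕ} (h : m + n = k) (y : HpbX f g n) :
    HpbX.smul f g h (R.pt m) y = HpbX.pt f g k :=
  Subtype.ext (Prod.ext (Prod.ext (P.pt_smul h _) (Q.pt_smul h _))
    (ContinuousMap.ext fun u => S.pt_smul h _))

theorem HpbX.smul_assoc {a b c ab bc abc : ℕ} (h₁ : a + b = ab) (h₂ : ab + c = abc)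
    (h₃ : b + c = bc) (h₄ : a + bc = abc) (x : R.X a) (y : R.X b) (z : HpbX f g c) :
    HpbX.smul f g h₂ (R.mul h₁ x y) z = HpbX.smul f g h₄ x (HpbX.smul f g h₃ y z) :=
  Subtype.ext (Prod.ext (Prod.ext (P.smul_assoc h₁ h₂ h₃ h₄ _ _ _)
    (Q.smul_assoc h₁ h₂ h₃ h₄ _ _ _))
    (ContinuousMap.ext fun u => S.smul_assoc h₁ h₂ h₃ h₄ _ _ _))

theorem HpbX.smul_act {m n k : ℕ} (h : m + n = k) (A : Ort m) (B : Ort n) (x : R.X m)
    (y : HpbX f g n) : HpbX.smul f g h (R.act m A x) (HpbX.act f g n B y) =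
      HpbX.act f g k (blk h A B) (HpbX.smul f g h x y) :=
  Subtype.ext (Prod.ext (Prod.ext (P.smul_act h A B _ _) (Q.smul_act h A B _ _))
    (ContinuousMap.ext fun u => S.smul_act h A B _ _))

theorem HpbX.one_smul {n : ℕ} (h : 0 + n = n) (x : HpbX f g n) :
    HpbX.smul f g h (R.unit 0 (OnePoint.some 0)) x = x :=
  Subtype.ext (Prod.ext (Prod.ext (P.one_smul h _) (Q.one_smul h _))
    (ContinuousMap.ext fun u => S.one_smul h _))

/-- The homotopy pullback of `f : P → S` and `g : Q → S`. -/
def Hpb {P Q S : MSp R} (f : MHom P S) (g : MHom Q S) : MSp R where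
  X := HpbX f g
  top := HpbX.top f g
  pt := HpbX.pt f g
  closed := HpbX.closed f g
  act := HpbX.act f g
  act_cont := HpbX.act_cont f g
  act_one := HpbX.act_one f g
  act_mul := HpbX.act_mul f g
  act_pt := HpbX.act_pt f g
  smul := HpbX.smul f g
  smul_cont := HpbX.smul_cont f g
  smul_pt := HpbX.smul_pt f g
  pt_smul := HpbX.pt_smul f g
  smul_assoc := HpbX.smul_assoc f g
  smul_act := HpbX.smul_act f g
  one_smul := HpbX.one_smul f g

/-- Semi-finite modules: the smallest class of modules which contains the ring spectrum and the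
zero module and is closed under weak equivalences, homotopy pullbacks, deloopings (the homotopy
pullback of two zero homomorphisms from the zero module is the loop module) and retracts.  This is
the thick subcategory generated by the ring spectrum, the class of the retracts (up to weak
equivalence) of the finite cell modules. -/
inductive SemiFin (R : RSp) : MSp R → Prop
  | self : SemiFin R R.self
  | zero : SemiFin R MSp.zero
  | weq {P Q : MSp R} (f : MHom P Q) : f.IsWeq → SemiFin R P → SemiFin R Q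
  | weq' {P Q : MSp R} (f : MHom P Q) : f.IsWeq → SemiFin R Q → SemiFin R P
  | hpb {P Q S : MSp R} (f : MHom P S) (g : MHom Q S) :
      SemiFin R P → SemiFin R Q → SemiFin R S → SemiFin R (Hpb f g)
  | deloop {P : MSp R} : SemiFin R (Hpb (MHom.zero MSp.zero P) (MHom.zero MSp.zero P)) →
      SemiFin R P
  | retract {P Q : MSp R} (i : MHom P Q) (r : MHom Q P) : (i.comp r).IsWeq → SemiFin R Q →
      SemiFin R P

end Pool.Agent.MP_d175a7_gt
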