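import Pool.Agent.Lib.MP_d175a7_gt.HprE
import Pool.Agent.Lib.MP_d175a7_gt.ConnC

/-!
# The homotopy pullback ring is connected
-/

set_option autoImplicit false
set_option linter.unusedVariables false

namespace Pool.Agent.MP_d175a7_gt

open scoped Topology unitInterval

variable {e₀ e H H' : RSp} {ρ : RHom e H'} {h : RHom H H'} {i : RHom e₀ e} {k : RHom e₀ H}

variable (ρ h) in
/-- The homomorphism `e ×_(H') H → H`. -/
def Hpr.sn : RHom (Hpr ρ h) H := Pbr.snd (Pth.fib ρ) h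

/-- Loops of nonnegative degree in `e ×_(H') H` with stably homotopic components are stably
homotopic, if the homotopy groups of `H'` in positive degrees vanish. -/
theorem Sq4.inj (c : Sq4 ρ h i k) (hπ : PosZero H') {a n : ℕ} (han : n ≤ a)
    (z z' : Lp (Hpr ρ h).self.seq a n)
    (h1 : StEq ((Hpr.pr ρ h).sh.lp z) ((Hpr.pr ρ h).sh.lp z'))
    (h2 : StEq ((Hpr.sn ρ h).sh.lp z) ((Hpr.sn ρ h).sh.lp z')) :
    StEq z z' := by
  refine (stEq_res c.inr (Hpr ρ h).self z z').1 ?_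
  have h3 : c.ofHpr.IsWeq :=
    isWeq_of_inv _ c.toHpr.sh (fun n x => rfl) (fun n x => rfl)
  refine h3.1 a n z z' ?_
  refine hpb_inj (resRho i ρ) c.resH (fun j x => ?_) _ _ ?_ ?_
  · exact (stEq_res (i.comp ρ) H'.self x _).2 (hπ (a + j + 1) (n + j) (by omega) x)
  · exact (stEq_res i e.self _ _).2 h1
  · exact (stEq_res k H.self _ _).2 h2

/-- The two images in `H'` of a loop are homotopic. -/
theorem hpr_aug {a n : ℕ} (x : Lp (Hpr ρ h).self.seq a n) :
    GenLoop.Homotopic (ρ.sh.lp ((Hpr.pr ρ h).sh.lp x))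
      (h.sh.lp ((Hpr.sn ρ h).sh.lp x)) := by
  have h1 := Pth.lp_hty ρ ((Pbr.fst (Pth.fib ρ) h).sh.lp x)
  have h2 : (Pth.fib ρ).sh.lp ((Pbr.fst (Pth.fib ρ) h).sh.lp x) =
      h.sh.lp ((Hpr.sn ρ h).sh.lp x) :=
    Subtype.ext (ContinuousMap.ext fun t => (x.1 t).2)
  rw [h2] at h1
  exact h1

theorem RHom.lp_cst {R S : RSp} (φ : RHom R S) (a n : ℕ) :
    φ.sh.lp (cstLp R.self.seq a n) = cstLp S.self.seq a n :=
  Subtype.ext (ContinuousMap.ext fun t => φ.pt n)

theorem RHom.lp_unit {R S : RSp} (φ : RHom R S) (a : ℕ) :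
    φ.sh.lp (unitLp R a) = unitLp S a :=
  Subtype.ext (ContinuousMap.ext fun t => φ.unit a _)

/-- The ring `e ×_(H') H` has only trivial idempotents in `π_0`, if `e` and `H` have, the homotopy
groups of `H'` in positive degrees vanish and `0 ≠ 1` in `π_0 H'`. -/
theorem Sq4.conn (c : Sq4 ρ h i k) (he : Conn e) (hH : Conn H) (hπ : PosZero H')
    (h01 : ¬ StEq (unitLp H' 0) (cstLp H'.self.seq 0 0)) : Conn (Hpr ρ h) := by
  refine Conn.of_unit fun a x hx => ?_
  have h1 : StEq ((Hpr.pr ρ h).sh.lp x) (cstLp e.self.seq a a) ∨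
      StEq ((Hpr.pr ρ h).sh.lp x) (unitLp e a) := by
    refine he.unit a _ ?_
    have h2 := stEq_lp (Hpr.pr ρ h).sh hx
    rw [SHom.lp_stn] at h2
    rw [← RHom.lp_ext]
    exact h2
  have h2 : StEq ((Hpr.sn ρ h).sh.lp x) (cstLp H.self.seq a a) ∨
      StEq ((Hpr.sn ρ h).sh.lp x) (unitLp H a) := by
    refine hH.unit a _ ?_
    have h2 := stEq_lp (Hpr.sn ρ h).sh hx
    rw [SHom.lp_stn] at h2
    rw [← RHom.lp_ext]
    exact h2
  have h3 := stEq_of_homotopic (hpr_aug x)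
  have hu := unitLp_ne h01 a
  rcases h1 with h1 | h1 <;> rcases h2 with h2 | h2
  · left
    refine c.inj hπ le_rfl x (cstLp (Hpr ρ h).self.seq a a) ?_ ?_
    · rw [RHom.lp_cst]
      exact h1
    · rw [RHom.lp_cst]
      exact h2
  · have h4 := stEq_lp ρ.sh h1
    have h5 := stEq_lp h.sh h2
    rw [RHom.lp_cst] at h4
    rw [RHom.lp_unit] at h5
    exact absurd (h5.symm.trans (h3.symm.trans h4)) hu
  · have h4 := stEq_lp ρ.sh h1
    have h5 := stEq_lp h.sh h2
    rw [RHom.lp_unit] at h4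
    rw [RHom.lp_cst] at h5
    exact absurd (h4.symm.trans (h3.trans h5)) hu
  · right
    refine c.inj hπ le_rfl x (unitLp (Hpr ρ h) a) ?_ ?_
    · rw [RHom.lp_unit]
      exact h1
    · rw [RHom.lp_unit]
      exact h2

end Pool.Agent.MP_d175a7_gt
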