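import Pool.Agent.Lib.MP_d175a7_gt.PthV
import Pool.Agent.Lib.MP_d175a7_gt.Hpb

/-!
# The homotopy pullback ring as an algebra, and as a module

For homomorphisms `i : e₀ → e`, `k : e₀ → H`, `ρ : e → H'`, `h : H → H'` with `ρ i = h k` the
homomorphisms `e₀ → e ×_(H') H → e`.  If `e`, `H` and `H'` are semi-finite over `e₀`, then so is
`e ×_(H') H`.
-/

set_option autoImplicit false
set_option linter.unusedVariables false

namespace Pool.Agent.MP_d175a7_gt

open scoped Topology unitInterval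

variable {e₀ e H H' : RSp} (ρ : RHom e H') (h : RHom H H')

variable {ρ h} {i : RHom e₀ e} {k : RHom e₀ H}

theorem Sq4.mem (c : Sq4 ρ h i k) (n : ℕ) (x : e₀.X n) :
    (Pth.fib ρ).f n ((Pth.incl ρ).f n (i.f n x)) = h.f n (k.f n x) := c n x

/-- The maps `x ↦ ((i x, const), k x)`. -/
def Sq4.inX (c : Sq4 ρ h i k) (n : ℕ) (x : e₀.X n) : (Hpr ρ h).X n :=
  ⟨((Pth.incl ρ).f n (i.f n x), k.f n x), c.mem n x⟩

theorem Sq4.in_cont (c : Sq4 ρ h i k) (n : ℕ) : KCont (c.inX n) := fun T _ _ _ g hg =>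
  Continuous.subtype_mk (((Pth.incl ρ).cont n T (fun t => i.f n (g t))
    (i.cont n T g hg)).prodMk (k.cont n T g hg)) _

theorem Sq4.in_pt (c : Sq4 ρ h i k) (n : ℕ) : c.inX n (e₀.pt n) = (Hpr ρ h).pt n :=
  Subtype.ext (Prod.ext ((congrArg _ (i.pt n)).trans ((Pth.incl ρ).pt n)) (k.pt n))

theorem Sq4.in_act (c : Sq4 ρ h i k) (n : ℕ) (A : Ort n) (x : e₀.X n) :
    c.inX n (e₀.act n A x) = (Hpr ρ h).act n A (c.inX n x) :=
  Subtype.ext (Prod.ext ((congrArg _ (i.act n A x)).trans ((Pth.incl ρ).act n A _))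
    (k.act n A x))

theorem Sq4.in_mul (c : Sq4 ρ h i k) {m n l : ℕ} (hl : m + n = l) (x : e₀.X m) (y : e₀.X n) :
    c.inX l (e₀.mul hl x y) = (Hpr ρ h).mul hl (c.inX m x) (c.inX n y) :=
  Subtype.ext (Prod.ext ((congrArg _ (i.mul hl x y)).trans ((Pth.incl ρ).mul hl _ _))
    (k.mul hl x y))

theorem Sq4.in_unit (c : Sq4 ρ h i k) (n : ℕ) (v : Sph n) :
    c.inX n (e₀.unit n v) = (Hpr ρ h).unit n v :=
  Subtype.ext (Prod.ext ((congrArg _ (i.unit n v)).trans ((Pth.incl ρ).unit n v)) (k.unit n v))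

/-- The homomorphism `e₀ → e ×_(H') H`. -/
def Sq4.inr (c : Sq4 ρ h i k) : RHom e₀ (Hpr ρ h) where
  f := c.inX
  cont := c.in_cont
  pt := c.in_pt
  act := c.in_act
  mul := c.in_mul
  unit := c.in_unit

variable (ρ h) in
/-- The homomorphism `e ×_(H') H → e`. -/
def Hpr.pr : RHom (Hpr ρ h) e := (Pbr.fst (Pth.fib ρ) h).comp (Pth.fst ρ)

theorem Sq4.pr_in (c : Sq4 ρ h i k) (n : ℕ) (x : e₀.X n) :
    (Hpr.pr ρ h).f n (c.inr.f n x) = i.f n x := rfl

/-- `ρ` as a homomorphism of `e₀`-modules. -/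
def resRho (i : RHom e₀ e) (ρ : RHom e H') :
    MHom (e.self.res i) (H'.self.res (i.comp ρ)) where
  f := ρ.f
  cont := ρ.cont
  pt := ρ.pt
  act := ρ.act
  smul hk r x := ρ.mul hk _ x

/-- `h` as a homomorphism of `e₀`-modules. -/
def Sq4.resH (c : Sq4 ρ h i k) : MHom (H.self.res k) (H'.self.res (i.comp ρ)) where
  f := h.f
  cont := h.cont
  pt := h.pt
  act := h.act
  smul {m n l} hk r x := by
    change h.f l (H.mul hk (k.f m r) x) = H'.mul hk (ρ.f m (i.f m r)) (h.f n x)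
    rw [h.mul, c m r]

/-- The homotopy pullback of modules, as the underlying module of the homotopy pullback ring. -/
def Sq4.toHpr (c : Sq4 ρ h i k) :
    MHom (Hpb (resRho i ρ) c.resH) ((Hpr ρ h).self.res c.inr) where
  f n z := ⟨(⟨(z.1.1.1, z.1.2), z.2.1⟩, z.1.1.2), z.2.2⟩
  cont n T _ _ _ g hg := by
    have h1 := continuous_subtype_val.comp hg
    exact Continuous.subtype_mk ((Continuous.subtype_mk
      ((continuous_fst.comp (continuous_fst.comp h1)).prodMk (continuous_snd.comp h1)) _).prodMk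
      (continuous_snd.comp (continuous_fst.comp h1))) _
  pt n := rfl
  act n A x := rfl
  smul hk r x := by
    refine Subtype.ext (Prod.ext (Subtype.ext (Prod.ext rfl ?_)) rfl)
    rfl

/-- The inverse. -/
def Sq4.ofHpr (c : Sq4 ρ h i k) :
    MHom ((Hpr ρ h).self.res c.inr) (Hpb (resRho i ρ) c.resH) where
  f n z := ⟨((z.1.1.1.1, z.1.2), z.1.1.1.2), ⟨z.1.1.2, z.2⟩⟩
  cont n T _ _ _ g hg := by
    have h1 := continuous_subtype_val.comp hg
    have h2 := continuous_subtype_val.comp (continuous_fst.comp h1)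
    exact Continuous.subtype_mk (((continuous_fst.comp h2).prodMk
      (continuous_snd.comp h1)).prodMk (continuous_snd.comp h2)) _
  pt n := rfl
  act n A x := rfl
  smul hk r x := by
    refine Subtype.ext (Prod.ext rfl ?_)
    rfl

/-- If `e`, `H` and `H'` are semi-finite `e₀`-modules, then so is `e ×_(H') H`. -/
theorem Sq4.semiFin (c : Sq4 ρ h i k) (h1 : SemiFin e₀ (e.self.res i))
    (h2 : SemiFin e₀ (H.self.res k)) (h3 : SemiFin e₀ (H'.self.res (i.comp ρ))) :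
    SemiFin e₀ ((Hpr ρ h).self.res c.inr) :=
  SemiFin.weq c.toHpr (isWeq_of_inv _ c.ofHpr.sh (fun n x => rfl) (fun n x => rfl))
    (SemiFin.hpb _ _ h1 h2 h3)

end Pool.Agent.MP_d175a7_gt
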