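import Pool.Agent.Lib.MP_d175a7_gt.Pr

/-! # Linearity, naturality and the innermost prism -/

set_option autoImplicit false
set_option linter.unusedVariables false

namespace Pool.Agent.MP_d175a7_gt

universe u v

/-- Linearity.  Proof: induction on `b` (`pr1` is linear: `Finset.sum_comm`, `mul_sum`). -/
theorem pr_sum {p : ℕ} {X : PS.{u}} (b : ℕ) (N : ℕ) (Ψ : ℕ → CuC p b X) (c : ℕ → ZMod p) (n : ℕ)
    (x : X.X n) :
    pr b (fun n τ x => ∑ i ∈ Finset.range N, c i * Ψ i n τ x) n x =
      ∑ i ∈ Finset.range N, c i * pr b (Ψ i) n x := by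
  induction b with
  | zero => rfl
  | succ b ih =>
    have h : pr1 (fun n τ x => ∑ i ∈ Finset.range N, c i * Ψ i n τ x) =
        fun n τ x => ∑ i ∈ Finset.range N, c i * pr1 (Ψ i) n τ x := by
      funext n τ x
      unfold pr1
      simp_rw [Finset.mul_sum]
      rw [Finset.sum_comm]
      refine Finset.sum_congr rfl fun i _ => Finset.sum_congr rfl fun j _ => ?_
      ring
    change pr b (pr1 fun n τ x => ∑ i ∈ Finset.range N, c i * Ψ i n τ x) n x =
      ∑ i ∈ Finset.range N, c i * pr b (pr1 (Ψ i)) n x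
    rw [h]
    exact ih fun i => pr1 (Ψ i)

/-- Naturality.  Proof: induction on `b`; `pr1` commutes with pullback along simplicial maps
(not necessarily pointed). -/
theorem pr_nat {p : ℕ} {X : PS.{u}} {Y : PS.{v}} (f : ∀ n, X.X n → Y.X n)
    (hf : ∀ {m n : ℕ} (α : Fin (m + 1) →o Fin (n + 1)) (x : X.X n),
      f m (X.map α x) = Y.map α (f n x)) (b : ℕ) (Ψ : CuC p b Y) (n : ℕ) (x : X.X n) :
    pr b (fun n τ x => Ψ n τ (f n x)) n x = pr b Ψ n (f n x) := by
  induction b with
  | zero => rfl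
  | succ b ih =>
    have h : pr1 (fun n τ x => Ψ n τ (f n x)) = fun n τ x => pr1 Ψ n τ (f n x) := by
      funext n τ x
      unfold pr1
      refine Finset.sum_congr rfl fun i _ => ?_
      rw [← hf]
    change pr b (pr1 fun n τ x => Ψ n τ (f n x)) n x = pr b (pr1 Ψ) n (f n x)
    rw [h]
    exact ih (pr1 Ψ)

end Pool.Agent.MP_d175a7_gt
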