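import Pool.Agent.Lib.MP_d175a7_gt.Pr

/-! # The innermost prism, two groups of coordinates -/

set_option autoImplicit false
set_option linter.unusedVariables false

namespace Pool.Agent.MP_d175a7_gt

universe u v

private theorem prB_cons_snoc {b m n : ℕ} (s : Fin (m + 1) →o Fin (n + 1)) (ρ : Mon m)
    (τ : Fin b → Mon n) (q : Mon n) :
    (Fin.cons (α := fun _ => Mon m) ρ
      (fun a => ((Fin.snoc (α := fun _ => Mon n) τ q : Fin (b + 1) → Mon n) a).comp s) :
        Fin (b + 1 + 1) → Mon m) =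
      Fin.snoc (α := fun _ => Mon m)
        (Fin.cons (α := fun _ => Mon m) ρ (fun a => (τ a).comp s) : Fin (b + 1) → Mon m)
        (q.comp s) := by
  have h1 : (fun a => ((Fin.snoc (α := fun _ => Mon n) τ q : Fin (b + 1) → Mon n) a).comp s) =
      (Fin.snoc (α := fun _ => Mon m) (fun a => (τ a).comp s) (q.comp s) :
        Fin (b + 1) → Mon m) := by
    funext a
    refine Fin.lastCases ?_ (fun a => ?_) a
    · rw [Fin.snoc_last, Fin.snoc_last]
    · rw [Fin.snoc_castSucc, Fin.snoc_castSucc]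
  rw [h1]
  exact Fin.cons_snoc_eq_snoc_cons (β := Mon m) ρ (fun a => (τ a).comp s) (q.comp s)

/-- The innermost prism (the last coordinate) separately.  Proof: induction on `b`: for `b = 0`
both sides are the same sum (`Fin.cons _ elim0 = Fin.snoc elim0 _`).  Step: `pr (b+2) Ψ = pr (b+1)
(pr1 Ψ)`, apply the induction hypothesis to `pr1 Ψ`, and use
`(pr1 Ψ) n (Fin.snoc τ ρ) x = pr1 (fun n τ q => Ψ n (Fin.snoc τ q.1) q.2) n τ (ρ, x)` over
`Cyl X` (`Fin.cons_snoc_eq_snoc_cons`). -/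
theorem pr_inner {p : ℕ} {X : PS.{u}} (b : ℕ) (Ψ : CuC p (b + 1) X) (n : ℕ) (x : X.X n) :
    pr (b + 1) Ψ n x = ∑ i ∈ Finset.range (n + 1), (-1) ^ i *
      pr (X := Cyl X) b (fun n τ q => Ψ n (Fin.snoc (α := fun _ => Mon n) τ q.1) q.2) (n + 1)
        ((rho (n + 1) i, X.map (sig n i) x) : (Cyl X).X (n + 1)) := by
  induction b with
  | zero =>
    have h0 : pr (0 + 1) Ψ n x = ∑ i ∈ Finset.range (n + 1), (-1) ^ i * Ψ (n + 1)
        (Fin.cons (α := fun _ => Mon (n + 1)) (rho (n + 1) i)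
        (fun a : Fin 0 => ((a.elim0 : Mon n)).comp (sig n i)) : Fin 1 → Mon (n + 1))
        (X.map (sig n i) x) := rfl
    rw [h0]
    refine Finset.sum_congr rfl fun i _ => ?_
    have h1 : (Fin.cons (α := fun _ => Mon (n + 1)) (rho (n + 1) i)
        (fun a : Fin 0 => ((a.elim0 : Mon n)).comp (sig n i)) : Fin 1 → Mon (n + 1)) =
        Fin.snoc (α := fun _ => Mon (n + 1)) (fun a : Fin 0 => a.elim0) (rho (n + 1) i) := by
      funext a
      have ha : a = 0 := Fin.ext (by omega)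
      rw [ha]
      rfl
    exact congrArg (fun t => (-1) ^ i * Ψ (n + 1) t (X.map (sig n i) x)) h1
  | succ b ih =>
    have h1 : pr (b + 1 + 1) Ψ n x = pr (b + 1) (pr1 Ψ) n x := rfl
    rw [h1, ih (pr1 Ψ)]
    refine Finset.sum_congr rfl fun i _ => ?_
    have h2 : (fun n τ q => pr1 Ψ n (Fin.snoc (α := fun _ => Mon n) τ q.1) q.2 :
        CuC p b (Cyl X)) = pr1 (X := Cyl X)
          (fun n τ q => Ψ n (Fin.snoc (α := fun _ => Mon n) τ q.1) q.2) := by
      funext n τ q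
      refine Finset.sum_congr rfl fun i _ => ?_
      exact congrArg (fun t => (-1) ^ i * Ψ (n + 1) t (X.map (sig n i) q.2))
        (prB_cons_snoc (sig n i) (rho (n + 1) i) τ q.1)
    rw [h2]
    rfl

private theorem prB_hdc {M : Type} (d k : ℕ) (ρ : M) (τ : Fin (d + k) → M) :
    hdc d (k + 1) (Fin.cons (α := fun _ => M) ρ τ : Fin (d + k + 1) → M) =
      Fin.cons (α := fun _ => M) ρ (hdc d k τ) := by
  funext i
  refine Fin.cases ?_ (fun i => ?_) i
  · rfl
  · rfl

private theorem prB_tlc {M : Type} (d k : ℕ) (ρ : M) (τ : Fin (d + k) → M) :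
    tlc d (k + 1) (Fin.cons (α := fun _ => M) ρ τ : Fin (d + k + 1) → M) = tlc d k τ := by
  funext i
  change (Fin.cons (α := fun _ => M) ρ τ : Fin (d + k + 1) → M) ⟨k + 1 + i.1, by omega⟩ =
    τ ⟨k + i.1, by omega⟩
  have h1 : (⟨k + 1 + i.1, by omega⟩ : Fin (d + k + 1)) = Fin.succ ⟨k + i.1, by omega⟩ := by
    apply Fin.ext
    change k + 1 + i.1 = k + i.1 + 1
    omega
  rw [h1, Fin.cons_succ]

/-- Two groups of coordinates.  Proof: induction on `k` for all `Ξ`; `k = 0`: `hdc` is empty and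
`tlc d 0 τ = τ`.  Step: `pr (d + (k+1)) Ψ = pr (d + k) (pr1 Ψ)`, and for
`Ψ n τ a = Ξ n (hdc d (k+1) τ) (Susp.mk (tlc d (k+1) τ) a)` one has
`pr1 Ψ n τ a = (pr1 Ξ) n (hdc d k τ) (Susp.mk (tlc d k τ) a)` because
`hdc d (k+1) (Fin.cons ρ τ) = Fin.cons ρ (hdc d k τ)`, `tlc d (k+1) (Fin.cons ρ τ) = tlc d k τ` and
`Susp.map_mk`. -/
theorem pr_app {p : ℕ} {X : PS.{u}} (d k : ℕ) (Ξ : CuC p k (Susp d X)) (n : ℕ) (x : X.X n) :
    pr d (fun n τ' a => pr k Ξ n (Susp.mk τ' a)) n x =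
      pr (d + k) (fun n τ a => Ξ n (hdc d k τ) (Susp.mk (tlc d k τ) a)) n x := by
  induction k with
  | zero =>
    have h1 : (fun n τ' a => pr 0 Ξ n (Susp.mk τ' a) : CuC p d X) =
        (fun n τ a => Ξ n (hdc d 0 τ) (Susp.mk (tlc d 0 τ) a)) := by
      funext n τ a
      have h2 : (fun i : Fin 0 => (i.elim0 : Mon n)) = hdc d 0 τ := by
        funext i
        exact i.elim0
      have h3 : τ = tlc d 0 τ := by
        funext i
        change τ i = τ ⟨0 + i.1, by omega⟩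
        congr 1
        apply Fin.ext
        change i.1 = 0 + i.1
        omega
      change Ξ n (fun i : Fin 0 => (i.elim0 : Mon n)) (Susp.mk τ a) =
        Ξ n (hdc d 0 τ) (Susp.mk (tlc d 0 τ) a)
      rw [h2, ← h3]
    rw [h1]
    rfl
  | succ k ih =>
    have h1 : pr d (fun n τ' a => pr (k + 1) Ξ n (Susp.mk τ' a)) n x =
      pr d (fun n τ' a => pr k (pr1 Ξ) n (Susp.mk τ' a)) n x := rfl
    rw [h1, ih (pr1 Ξ)]
    have h2 : (fun n τ a => pr1 Ξ n (hdc d k τ) (Susp.mk (tlc d k τ) a) : CuC p (d + k) X) =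
        pr1 (b := d + k) (fun n τ a => Ξ n (hdc d (k + 1) τ) (Susp.mk (tlc d (k + 1) τ) a)) := by
      funext n τ a
      refine Finset.sum_congr rfl fun i _ => ?_
      change (-1) ^ i * Ξ (n + 1) (Fin.cons (α := fun _ => Mon (n + 1)) (rho (n + 1) i)
          (fun b => (hdc d k τ b).comp (sig n i)))
          ((Susp d X).map (sig n i) (Susp.mk (tlc d k τ) a)) =
        (-1) ^ i * Ξ (n + 1) (hdc d (k + 1) (Fin.cons (α := fun _ => Mon (n + 1))
          (rho (n + 1) i) (fun b => (τ b).comp (sig n i)) : Fin (d + k + 1) → Mon (n + 1)))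
          (Susp.mk (tlc d (k + 1) (Fin.cons (α := fun _ => Mon (n + 1))
          (rho (n + 1) i) (fun b => (τ b).comp (sig n i)) : Fin (d + k + 1) → Mon (n + 1)))
          (X.map (sig n i) a))
      rw [prB_hdc, prB_tlc, Susp.map_mk]
      rfl
    rw [h2]
    rfl

end Pool.Agent.MP_d175a7_gt
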