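import Pool.Agent.Lib.MP_d175a7_gt.Pr

/-! # The iterated prism operator on a vertex: sum over permutations -/

set_option autoImplicit false
set_option linter.unusedVariables false

namespace Pool.Agent.MP_d175a7_gt

universe u

/-- The permutation with value `i` at `0` and `i.succAbove (π a)` at `a + 1`. -/
private def pins (m : ℕ) (i : Fin (m + 1)) (π : Equiv.Perm (Fin m)) :
    Equiv.Perm (Fin (m + 1)) :=
  i.cycleRange.symm * Equiv.Perm.decomposeFin.symm (0, π)

private theorem pins_zero (m : ℕ) (i : Fin (m + 1)) (π : Equiv.Perm (Fin m)) :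
    pins m i π 0 = i := by
  simp [pins, Equiv.Perm.mul_apply]

private theorem pins_succ (m : ℕ) (i : Fin (m + 1)) (π : Equiv.Perm (Fin m)) (a : Fin m) :
    pins m i π a.succ = i.succAbove (π a) := by
  simp [pins, Equiv.Perm.mul_apply]

private theorem pins_sign (m : ℕ) (i : Fin (m + 1)) (π : Equiv.Perm (Fin m)) :
    Equiv.Perm.sign (pins m i π) = (-1) ^ i.1 * Equiv.Perm.sign π := by
  have h : Equiv.Perm.sign (i.cycleRange.symm) = (-1) ^ i.1 := by
    rw [Equiv.Perm.sign_symm, Fin.sign_cycleRange]
  rw [pins, Equiv.Perm.sign_mul, h, Equiv.Perm.decomposeFin.symm_sign, if_pos rfl, one_mul]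

private theorem pins_bij (m : ℕ) :
    Function.Bijective fun q : Fin (m + 1) × Equiv.Perm (Fin m) => pins m q.1 q.2 := by
  rw [Fintype.bijective_iff_injective_and_card]
  constructor
  · rintro ⟨i, π⟩ ⟨j, π'⟩ h
    have h' : pins m i π = pins m j π' := h
    have h0 : i = j := by
      rw [← pins_zero m i π, h', pins_zero]
    subst h0
    refine Prod.ext rfl (Equiv.ext fun a => ?_)
    have h1 := pins_succ m i π a
    rw [h', pins_succ] at h1
    exact (Fin.succAbove_right_injective h1).symm
  · rw [Fintype.card_prod, Fintype.card_perm, Fintype.card_perm, Fintype.card_fin,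
      Fintype.card_fin, Nat.factorial_succ]

/-- The permutations of `Fin (m+1)` as pairs of the value at `0` and a permutation of `Fin m`:
`π 0 = i`, `π (a+1) = i.succAbove (π' a)`, `sign π = (-1)^i sign π'`.  Proof: as in Mathlib's
`Matrix.det_succ_column_zero` / `det_succ_row_zero`: `π = (cycleRange i)⁻¹ * decomposeFin.symm
(0, π')` (`Equiv.Perm.decomposeFin`, `Fin.sign_cycleRange`, `Fin.cycleRange_symm_zero`,
`Fin.cycleRange_symm_succ`). -/
theorem sum_perm_succ {A : Type} [CommRing A] (m : ℕ) (f : Equiv.Perm (Fin (m + 1)) → A)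
    (g : Fin (m + 1) → Equiv.Perm (Fin m) → Equiv.Perm (Fin (m + 1)))
    (hg0 : ∀ i π, g i π 0 = i) (hg : ∀ i π a, g i π a.succ = i.succAbove (π a)) :
    ∑ π : Equiv.Perm (Fin (m + 1)), ((Equiv.Perm.sign π : ℤ) : A) * f π =
      ∑ i : Fin (m + 1), ∑ π : Equiv.Perm (Fin m),
        (-1) ^ i.1 * (((Equiv.Perm.sign π : ℤ) : A) * f (g i π)) := by
  have hgp : ∀ i π, g i π = pins m i π := by
    intro i π
    refine Equiv.ext fun b => ?_
    refine Fin.cases ?_ (fun a => ?_) b
    · rw [hg0, pins_zero]
    · rw [hg, pins_succ]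
  rw [← Finset.sum_product']
  refine (Fintype.sum_bijective _ (pins_bij m) _ _ fun q => ?_).symm
  rw [hgp, pins_sign]
  push_cast
  ring

/-- Existence of the decomposition. -/
theorem exists_perm_succ (m : ℕ) (i : Fin (m + 1)) (π : Equiv.Perm (Fin m)) :
    ∃ σ : Equiv.Perm (Fin (m + 1)), σ 0 = i ∧ ∀ a, σ a.succ = i.succAbove (π a) :=
  ⟨pins m i π, pins_zero m i π, pins_succ m i π⟩

private theorem rho_comp_sig (b t i : ℕ) (hi : i ≤ b) :
    (rho b t).comp (sig b i) = rho (b + 1) (if t < i then t else t + 1) := by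
  refine OrderHom.ext _ _ (funext fun l => ?_)
  change decide (t < if l.1 ≤ i then min l.1 b else l.1 - 1) =
    decide ((if t < i then t else t + 1) < l.1)
  have hl := l.2
  congr 1
  apply propext
  split_ifs <;> constructor <;> intro h <;> omega

/-- The iterated prism operator on a vertex.  Proof: induction on `b`; `pr (b+1) Ψ 0 x =
pr b (pr1 Ψ) 0 x = ∑_π sign π * (pr1 Ψ) b (epi π) x'`, and the summand `i` of `pr1` at `epi π`
is the tuple `Fin.cons (rho (b+1) i) (fun a => (rho b (π a)).comp (sig b i))`, where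
`(rho b t).comp (sig b i) = rho (b+1) (t if t < i, else t + 1)`; this is `epi (g i π)` with `g` as in
`sum_perm_succ`. -/
theorem pr_perm {p : ℕ} {X : PS.{u}} (b : ℕ) (Ψ : CuC p b X) (x : X.X 0) :
    pr b Ψ 0 x = ∑ π : Equiv.Perm (Fin b), ((Equiv.Perm.sign π : ℤ) : ZMod p) *
      Ψ b (epi π) (X.map (tozero b) x) := by
  induction b with
  | zero =>
    have h1 : (tozero 0) = OrderHom.id := by
      refine OrderHom.ext _ _ (funext fun l => ?_)
      have h2 := (tozero 0 l).2
      have h3 := l.2
      apply Fin.ext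
      change (tozero 0 l).1 = l.1
      omega
    rw [h1, X.map_id, Fintype.sum_unique]
    have h2 : (fun i : Fin 0 => (i.elim0 : Mon 0)) = epi (default : Equiv.Perm (Fin 0)) :=
      funext fun i => i.elim0
    change Ψ 0 (fun i => i.elim0) x = _
    rw [h2]
    simp
  | succ b ih =>
    change pr b (pr1 Ψ) 0 x = _
    rw [ih, sum_perm_succ b _ (fun i π => pins b i π) (pins_zero b) (pins_succ b),
      Finset.sum_comm]
    refine Finset.sum_congr rfl fun π _ => ?_
    unfold pr1
    rw [Finset.mul_sum, Finset.sum_range]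
    refine Finset.sum_congr rfl fun i _ => ?_
    have h1 : (Fin.cons (α := fun _ => Mon (b + 1)) (rho (b + 1) i.1)
        (fun a => (epi π a).comp (sig b i.1)) : Fin (b + 1) → Mon (b + 1)) =
        epi (pins b i π) := by
      funext c
      refine Fin.cases ?_ (fun a => ?_) c
      · rw [Fin.cons_zero, epi, pins_zero]
      · rw [Fin.cons_succ, epi, epi, pins_succ, rho_comp_sig b _ i.1 (by omega)]
        congr 1
        by_cases h : (π a).1 < i.1
        · rw [if_pos h, Fin.succAbove_of_castSucc_lt i (π a) h]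
          rfl
        · rw [if_neg h, Fin.succAbove_of_le_castSucc i (π a) (not_lt.1 h)]
          rfl
    have h2 : X.map (sig b i.1) (X.map (tozero b) x) = X.map (tozero (b + 1)) x := by
      rw [← X.map_comp]
      rfl
    rw [h1, h2]
    ring

end Pool.Agent.MP_d175a7_gt
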