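import Pool.Agent.Lib.MP_d175a7_gt.PhiK
import Pool.Agent.Lib.MP_d175a7_gt.PrA
import Pool.Agent.Lib.MP_d175a7_gt.PrB
import Pool.Agent.Lib.MP_d175a7_gt.PrPerm

/-! # The pairing of the prism products -/

set_option autoImplicit false
set_option linter.unusedVariables false

namespace Pool.Agent.MP_d175a7_gt

open CategoryTheory

variable {C : Type 1} [Category.{0} C]

/-- The identity of `[j]` as the top simplex of `Δ^j`. -/
def topS (j : ℕ) : (Dl j).X j := (OrderHom.id : Fin (j + 1) →o Fin (j + 1))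

/-- The pairing does not change under a prism product.  Proof: unfold `cP`, `CM.pop`, `popg`; by
`altp_val` (with `Φ.val n`, `val_one`, `val_mul`, `val_inv`) the cochain is
`∑_{i ≤ j} (-1)^i Φ.val n (c.g n (Fin.snoc τ ((rho (j+1) i).comp β)) ((sig j i).comp β))`,
`c = cP S Q j (b+1)`.  Use `pr_sum`, then `pr_nat` for the map
`Dl (j+1) → Cyl (Dl j)`, `β ↦ ((rho (j+1) i).comp β, (sig j i).comp β)`, at `β = id`; the result is the
right hand side of `pr_inner` for `n = j`, `x = topS j`. -/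
theorem kap_succ {S : SMon C} {p : ℕ} (Φ : ACoc S p) (Q : ∀ m, Cube C m) (j b : ℕ) :
    pr (X := Dl (j + 1)) b (fun n τ β => Φ.val n ((cP S Q (j + 1) b).g n τ β)) (j + 1)
        (topS (j + 1)) =
      pr (X := Dl j) (b + 1) (fun n τ β => Φ.val n ((cP S Q j (b + 1)).g n τ β)) j (topS j) := by
  have e1 : (fun n τ β => Φ.val n ((cP S Q (j + 1) b).g n τ β) : CuC p b (Dl (j + 1))) =
      fun n τ β => ∑ i ∈ Finset.range (j + 1), (-1) ^ i *
        Φ.val n ((cP S Q j (b + 1)).g n (Fin.snoc (α := fun _ => Mon n) τ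
          ((rho (j + 1) i).comp β)) ((sig j i).comp β)) := by
    funext n τ β
    exact altp_val (Φ.val n) (Φ.val_one n) (fun x y => Φ.val_mul x y) (fun x => Φ.val_inv x)
      (j + 1) _
  have e2 := pr_sum (X := Dl (j + 1)) b (j + 1) (fun i n τ β =>
    Φ.val n ((cP S Q j (b + 1)).g n (Fin.snoc (α := fun _ => Mon n) τ
      ((rho (j + 1) i).comp β)) ((sig j i).comp β))) (fun i => (-1 : ZMod p) ^ i) (j + 1)
      (topS (j + 1))
  have e3 := pr_inner (X := Dl j) b (fun n τ β => Φ.val n ((cP S Q j (b + 1)).g n τ β)) j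
    (topS j)
  refine Eq.trans (congrArg (fun Ψ : CuC p b (Dl (j + 1)) => pr b Ψ (j + 1) (topS (j + 1))) e1)
    (Eq.trans e2 (Eq.trans ?_ e3.symm))
  refine Finset.sum_congr rfl fun i _ => ?_
  refine congrArg (fun z => (-1 : ZMod p) ^ i * z) ?_
  exact pr_nat (X := Dl (j + 1)) (Y := Cyl (Dl j))
    (fun n β => ((rho (j + 1) i).comp β, (sig j i).comp β)) (fun α x => rfl) b
    (fun n τ q => Φ.val n ((cP S Q j (b + 1)).g n (Fin.snoc (α := fun _ => Mon n) τ q.1) q.2))
    (j + 1) (topS (j + 1))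

/-- The pairing of the class of a cube.  Proof: `pr_perm`, `alt_val` (with `v = Φ.val b`, `Φ.val_mul`,
`Φ.val_inv`, `Φ.val_eta`). -/
theorem kap_zero {S : SMon C} {p : ℕ} (Φ : ACoc S p) (Q : ∀ m, Cube C m) (b : ℕ)
    (hvan : ∀ ω : Fin b → Bool, (∃ i, ω i = false) → ∀ π : Equiv.Perm (Fin b),
      Φ.φ b ((Q b).fn ω (epi π)) = 0) :
    pr (X := Dl 0) b (fun n τ β => Φ.val n ((cP S Q 0 b).g n τ β)) 0 (topS 0) =
      (-1) ^ b * ∑ π : Equiv.Perm (Fin b), ((Equiv.Perm.sign π : ℤ) : ZMod p) *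
        Φ.φ b ((Q b).fn (fun _ => true) (epi π)) := by
  refine Eq.trans (pr_perm (X := Dl 0) b _ (topS 0)) ?_
  rw [Finset.mul_sum]
  refine Finset.sum_congr rfl fun π _ => ?_
  have h1 := alt_val (Φ.val b) (fun x y => Φ.val_mul x y) (fun x => Φ.val_inv x) b
    (fun ω => eta S ((Q b).fn ω (epi π))) (fun ω hω => by
      rw [Φ.val_eta]
      exact hvan ω hω π)
  rw [Φ.val_eta] at h1
  refine Eq.trans (congrArg (fun z => ((Equiv.Perm.sign π : ℤ) : ZMod p) * z) h1) ?_
  ring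

theorem kap_eval {S : SMon C} {p : ℕ} (Φ : ACoc S p) (Q : ∀ m, Cube C m) (j : ℕ) :
    ∀ b : ℕ, (∀ ω : Fin (b + j) → Bool, (∃ i, ω i = false) → ∀ π : Equiv.Perm (Fin (b + j)),
      Φ.φ (b + j) ((Q (b + j)).fn ω (epi π)) = 0) →
    pr (X := Dl j) b (fun n τ β => Φ.val n ((cP S Q j b).g n τ β)) j (topS j) =
      (-1) ^ (b + j) * ∑ π : Equiv.Perm (Fin (b + j)), ((Equiv.Perm.sign π : ℤ) : ZMod p) *
        Φ.φ (b + j) ((Q (b + j)).fn (fun _ => true) (epi π)) := by
  induction j with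
  | zero => intro b h; exact kap_zero Φ Q b h
  | succ j ih =>
    intro b h
    rw [kap_succ]
    have e : b + (j + 1) = b + 1 + j := by omega
    have key : ∀ N, N = b + 1 + j →
        (∀ ω : Fin N → Bool, (∃ i, ω i = false) → ∀ π : Equiv.Perm (Fin N),
          Φ.φ N ((Q N).fn ω (epi π)) = 0) →
        pr (X := Dl j) (b + 1) (fun n τ β => Φ.val n ((cP S Q j (b + 1)).g n τ β)) j (topS j) =
          (-1) ^ N * ∑ π : Equiv.Perm (Fin N), ((Equiv.Perm.sign π : ℤ) : ZMod p) *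
            Φ.φ N ((Q N).fn (fun _ => true) (epi π)) := by
      rintro N rfl hN
      exact ih (b + 1) hN
    exact key _ e h

end Pool.Agent.MP_d175a7_gt
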