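import Pool.Agent.Lib.MP_d175a7_gt.Spec

/-! # The identification of `I / {0, 1}` with `S^1` -/

set_option autoImplicit false

namespace Pool.Agent.MP_d175a7_gt

open scoped Topology unitInterval

theorem lam_zero : lam 0 = OnePoint.infty := by simp [lam]

theorem lam_one : lam 1 = OnePoint.infty := by simp [lam]

private theorem Lam_pos {s : I} (h : ¬ (s = 0 ∨ s = 1)) : 0 < (s : ℝ) * (1 - (s : ℝ)) := by
  rw [not_or] at h
  have h0 : (0 : ℝ) < s := unitInterval.pos_iff_ne_zero.2 h.1
  have h1 : (s : ℝ) < 1 := unitInterval.lt_one_iff_ne_one.2 h.2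
  exact mul_pos h0 (by linarith)

private theorem Lam_eq {s : I} (h : ¬ (s = 0 ∨ s = 1)) : lam s =
    OnePoint.some (fun _ => (2 * (s : ℝ) - 1) / ((s : ℝ) * (1 - (s : ℝ)))) := by
  classical
  unfold lam
  rw [if_neg h]

private theorem Lam_end {s₀ : I} (h : s₀ = 0 ∨ s₀ = 1) : ContinuousAt lam s₀ := by
  classical
  have h0 : lam s₀ = OnePoint.infty := by
    unfold lam
    rw [if_pos h]
  rw [ContinuousAt, h0, (OnePoint.hasBasis_nhds_infty (X := Fin 1 → ℝ)).tendsto_right_iff]
  rintro K ⟨-, hK⟩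
  obtain ⟨M, hM⟩ := hK.isBounded.exists_norm_le
  have hc : ContinuousAt (fun s : I => |2 * (s : ℝ) - 1| - M * ((s : ℝ) * (1 - (s : ℝ)))) s₀ := by
    fun_prop
  have hv : (0 : ℝ) < |2 * (s₀ : ℝ) - 1| - M * ((s₀ : ℝ) * (1 - (s₀ : ℝ))) := by
    rcases h with rfl | rfl
    · norm_num
    · norm_num
  filter_upwards [hc.eventually (lt_mem_nhds hv)] with s hs
  by_cases h1 : s = 0 ∨ s = 1
  · right
    unfold lam
    rw [if_pos h1]
    rfl
  · left
    rw [Lam_eq h1]
    refine ⟨_, fun hmem => ?_, rfl⟩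
    have h2 := hM _ hmem
    have h3 := Lam_pos h1
    have h4 : |(2 * (s : ℝ) - 1) / ((s : ℝ) * (1 - (s : ℝ)))| ≤ M := by
      have h5 := norm_le_pi_norm
        (fun _ : Fin 1 => (2 * (s : ℝ) - 1) / ((s : ℝ) * (1 - (s : ℝ)))) 0
      exact h5.trans h2
    rw [abs_div, abs_of_pos h3, div_le_iff₀ h3] at h4
    linarith

/-- `lam` is continuous.  Proof: away from `0, 1` it is a quotient of continuous functions
(use that the set `{s | s ≠ 0 ∧ s ≠ 1}` is open).  At `0` and `1`: `OnePoint.tendsto_nhds_infty`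
or `OnePoint.continuousAt_infty`-style: for a closed compact `K ⊆ (Fin 1 → ℝ)` the coordinate is
bounded on `K` by some `M`, and `|2 s - 1| / (s (1 - s)) > M` for `s` close to `0` or `1`. -/
theorem lam_cont : Continuous lam := by
  rw [continuous_iff_continuousAt]
  intro s₀
  by_cases h : s₀ = 0 ∨ s₀ = 1
  · exact Lam_end h
  · have hpos := Lam_pos h
    have hf : ContinuousAt (fun s : I => (OnePoint.some
        (fun _ : Fin 1 => (2 * (s : ℝ) - 1) / ((s : ℝ) * (1 - (s : ℝ)))) : Sph 1)) s₀ := by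
      refine OnePoint.continuous_coe.continuousAt.comp ?_
      refine continuousAt_pi.2 fun _ => ?_
      exact ContinuousAt.div (by fun_prop) (by fun_prop) hpos.ne'
    refine hf.congr ?_
    have hopen : IsOpen {s : I | ¬ (s = 0 ∨ s = 1)} := by
      have h1 : {s : I | ¬ (s = 0 ∨ s = 1)} = ({0, 1} : Set I)ᶜ := by
        ext s
        simp
      rw [h1]
      exact (Set.toFinite _).isClosed.isOpen_compl
    filter_upwards [hopen.mem_nhds h] with s hs
    exact (Lam_eq hs).symm

end Pool.Agent.MP_d175a7_gt
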