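import Pool.Agent.Lib.MP_d175a7_gt.ZbO
import Pool.Agent.Lib.MP_d175a7_gt.LamQ
import Pool.Agent.Lib.MP_d175a7_gt.HomB

/-!
# The modules `Ω^v sh_v M`, with loops on cubes

`Ol v M` consists of the loops `I^v → M_(n+v)`, with the pointwise action.  The homomorphism
`M → Ol v M` is a weak equivalence.
-/

set_option autoImplicit false
set_option linter.unusedVariables false

namespace Pool.Agent.MP_d175a7_gt

open scoped Topology unitInterval

/-- Composition of a loop with a based map. -/
def mapLp {P Q : Seq} {a n m : ℕ} (F : P.X n → Q.X m) (hF : KCont F)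
    (h0 : F (P.pt n) = Q.pt m) (w : Lp P a n) : Lp Q a m :=
  ⟨⟨fun s => F (w.1 s), hF _ (fun s => w.1 s) w.1.continuous⟩, fun s hs => by
    change F (w.1 s) = Q.pt m
    have h1 : w.1 s = P.pt n := w.2 s hs
    rw [h1, h0]⟩

theorem lp_closed (P : Seq) (a n : ℕ) : IsClosed ({cstLp P a n} : Set (Lp P a n)) := by
  have h : ({cstLp P a n} : Set (Lp P a n)) = ⋂ s, {w | w.1 s = P.pt n} := by
    ext w
    constructor
    · rintro rfl
      exact Set.mem_iInter.2 fun s => rfl
    · intro h
      exact Subtype.ext (ContinuousMap.ext fun s => Set.mem_iInter.1 h s)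
  rw [h]
  exact isClosed_iInter fun s => IsClosed.preimage (f := fun w : Lp P a n => w.1 s)
    ((continuous_eval_const s).comp continuous_subtype_val) (P.closed n)

variable {R : RSp}

/-- `Ω^v sh_v M`. -/
noncomputable def Ol (v : ℕ) (M : MSp R) : MSp R where
  X n := Lp M.seq v (n + v)
  pt n := cstLp M.seq v (n + v)
  closed n := lp_closed M.seq v (n + v)
  act n A w := mapLp (P := M.seq) (Q := M.seq) (M.act (n + v) (blk rfl A 1))
    (fun T _ _ _ g hg => M.act_cont (n + v) T (fun _ => blk rfl A 1) g continuous_const hg)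
    (M.act_pt _ _) w
  act_cont n T _ _ _ g h hg hh := by
    refine Continuous.subtype_mk (curry_cont _ ?_) _
    exact M.act_cont (n + v) (T × (Fin v → I)) (fun q => blk rfl (g q.1) 1)
      (fun q => (h q.1).1 q.2)
      ((blk_cont rfl).comp ((hg.comp continuous_fst).prodMk continuous_const))
      (uncurry_cont (fun t => (h t).1) (continuous_subtype_val.comp hh))
  act_one n x := Subtype.ext (ContinuousMap.ext fun u => by
    change M.act (n + v) (blk rfl 1 1) (x.1 u) = x.1 u
    rw [blk_one, M.act_one])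
  act_mul n A B x := Subtype.ext (ContinuousMap.ext fun u => by
    change M.act (n + v) (blk rfl (A * B) 1) (x.1 u) =
      M.act (n + v) (blk rfl A 1) (M.act (n + v) (blk rfl B 1) (x.1 u))
    rw [← M.act_mul, ← blk_mul, mul_one])
  act_pt n A := Subtype.ext (ContinuousMap.ext fun u => M.act_pt _ _)
  smul {m n k} h r w := mapLp (P := M.seq) (Q := M.seq) (M.smul (addv h v) r)
    (fun T _ _ _ g hg => M.smul_cont (addv h v) T (fun _ => r) g continuous_const hg)
    (M.smul_pt _ _) w
  smul_cont {m n k} h T _ _ _ g f hg hf := by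
    refine Continuous.subtype_mk (curry_cont _ ?_) _
    exact M.smul_cont (addv h v) (T × (Fin v → I)) (fun q => g q.1) (fun q => (f q.1).1 q.2)
      (hg.comp continuous_fst)
      (uncurry_cont (fun t => (f t).1) (continuous_subtype_val.comp hf))
  smul_pt h r := Subtype.ext (ContinuousMap.ext fun u => M.smul_pt _ _)
  pt_smul h y := Subtype.ext (ContinuousMap.ext fun u => M.pt_smul _ _)
  smul_assoc {a b c ab bc abc} h₁ h₂ h₃ h₄ x y z := Subtype.ext (ContinuousMap.ext fun u =>
    M.smul_assoc h₁ (addv h₂ v) (addv h₃ v) (addv h₄ v) _ _ _)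
  smul_act {m n k} h A B x y := Subtype.ext (ContinuousMap.ext fun u => by
    change M.smul (addv h v) (R.act m A x) (M.act (n + v) (blk rfl B 1) (y.1 u)) =
      M.act (k + v) (blk rfl (blk h A B) 1) (M.smul (addv h v) x (y.1 u))
    rw [M.smul_act, blk_assoc h rfl rfl (addv h v)])
  one_smul {n} h x := Subtype.ext (ContinuousMap.ext fun u => M.one_smul _ _)

/-- From maps on spheres to maps on cubes. -/
noncomputable def sphM (v : ℕ) (M : MSp R) : MHom (Om v M) (Ol v M) where
  f n w := ⟨⟨fun s => w.1.2 (lamv v s), w.1.2.continuous.comp (lamv_cont v)⟩, fun s hs => by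
    change w.1.2 (lamv v s) = M.pt (n + v)
    rw [lamv_boundary v s hs, w.2.1]⟩
  cont n T _ _ _ g hg := by
    refine Continuous.subtype_mk (curry_cont _ ?_) _
    have h1 : Continuous fun t => (g t).1.2 :=
      continuous_snd.comp (continuous_subtype_val.comp hg)
    exact (uncurry_cont (fun t => (g t).1.2) h1).comp
      (continuous_fst.prodMk ((lamv_cont v).comp continuous_snd))
  pt n := rfl
  act n A x := rfl
  smul h r x := rfl

/-- `M → Ω^v sh_v M`. -/
noncomputable def olin (v : ℕ) (M : MSp R) : MHom M (Ol v M) := (omin v M).comp (sphM v M)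

theorem olin_apply (v : ℕ) (M : MSp R) {n : ℕ} (x : M.X n) (s : Fin v → I) :
    ((olin v M).f n x).1 s = rm M rfl x (lamv v s) := rfl

/-- The loop in `M` given by a loop in `Ω^v sh_v M`. -/
noncomputable def hO {v : ℕ} {M : MSp R} {a n : ℕ} (w : Lp (Ol v M).seq a n) :
    Lp M.seq (a + v) (n + v) :=
  ⟨⟨fun t => M.act (n + v) (swp rfl (Nat.add_comm v n)) ((w.1 (tl t)).1 (hd t)), by
    have h1 : Continuous fun q : (Fin a → I) × (Fin v → I) => (w.1 q.1).1 q.2 :=
      uncurry_cont (fun t => (w.1 t).1) (continuous_subtype_val.comp w.1.continuous)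
    exact M.act_cont (n + v) (Fin (a + v) → I) (fun _ => swp rfl (Nat.add_comm v n)) _
      continuous_const (h1.comp (tl_cont.prodMk hd_cont))⟩, by
    intro t ht
    change M.act (n + v) _ ((w.1 (tl t)).1 (hd t)) = M.pt (n + v)
    rcases boundary_split t ht with h | h
    · have h1 : (w.1 (tl t)).1 (hd t) = M.pt (n + v) := (w.1 (tl t)).2 _ h
      rw [h1, M.act_pt]
    · have h1 : w.1 (tl t) = (Ol v M).pt n := w.2 _ h
      rw [h1]
      exact M.act_pt _ _⟩

theorem hO_apply {v : ℕ} {M : MSp R} {a n : ℕ} (w : Lp (Ol v M).seq a n)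
    (t : Fin (a + v) → I) : (hO w).1 t =
      M.act (n + v) (swp rfl (Nat.add_comm v n)) ((w.1 (tl t)).1 (hd t)) := rfl

theorem hO_homotopic {v : ℕ} {M : MSp R} {a n : ℕ} {w w' : Lp (Ol v M).seq a n}
    (h : GenLoop.Homotopic w w') : GenLoop.Homotopic (hO w) (hO w') := by
  obtain ⟨H, hc, h0, h1, hb⟩ := exists_of_homotopic h
  refine homotopic_of (P := M.seq) (fun s t => M.act (n + v) (swp rfl (Nat.add_comm v n))
    ((H s (tl t)).1 (hd t))) ?_ ?_ ?_ ?_
  · have h2 := uncurry_cont (fun q : I × (Fin a → I) => (H q.1 q.2).1)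
      (continuous_subtype_val.comp hc)
    have h3 : Continuous fun q : I × (Fin (a + v) → I) => ((q.1, tl q.2), hd q.2) :=
      (continuous_fst.prodMk (tl_cont.comp continuous_snd)).prodMk (hd_cont.comp continuous_snd)
    exact M.act_cont (n + v) (I × (Fin (a + v) → I)) (fun _ => swp rfl (Nat.add_comm v n)) _
      continuous_const (h2.comp h3)
  · intro t
    rw [h0, hO_apply]
  · intro t
    rw [h1, hO_apply]
  · intro s t ht
    change M.act (n + v) _ ((H s (tl t)).1 (hd t)) = M.pt (n + v)
    rcases boundary_split t ht with h | h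
    · have h1 : (H s (tl t)).1 (hd t) = M.pt (n + v) := (H s (tl t)).2 _ h
      rw [h1, M.act_pt]
    · have h1 : H s (tl t) = (Ol v M).pt n := hb s _ h
      rw [h1]
      exact M.act_pt _ _

theorem hO_olin {v : ℕ} {M : MSp R} {a n : ℕ} (x : Lp M.seq a n) :
    hO ((olin v M).sh.lp x) = stn v x := by
  apply Subtype.ext
  apply ContinuousMap.ext
  intro t
  rw [stn_apply, hO_apply]
  change M.act (n + v) _ (rm M rfl (x.1 (tl t)) (lamv v (hd t))) = _
  rw [smul_unit M (Nat.add_comm v n) rfl]

/-- Every loop in `Ol` comes from a loop in `Om`. -/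
theorem exists_sphM {v : ℕ} {M : MSp R} {a n : ℕ} (w : Lp (Ol v M).seq a n) :
    ∃ z : Lp (Om v M).seq a n, (sphM v M).sh.lp z = w := by
  classical
  choose t ht using lamv_surj v
  let g0 : (Fin a → I) → Sph v → M.X (n + v) := fun x z => match z with
    | OnePoint.some z => (w.1 x).1 (t z)
    | OnePoint.infty => M.pt (n + v)
  have h1 : ∀ x (s : Fin v → I), g0 x (lamv v s) = (w.1 x).1 s := by
    intro x s
    rcases h2 : lamv v s with _ | z
    · exact ((w.1 x).2 s (lamv_eq_infty v s h2)).symm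
    · change (w.1 x).1 (t z) = (w.1 x).1 s
      rw [lamv_inj v (t z) s z (ht z) h2]
  let π : ((Fin a → I) × (Fin v → I)) ⊕ (Fin a → I) → (Fin a → I) × Sph v :=
    Sum.elim (fun q => (q.1, lamv v q.2)) (fun x => (x, OnePoint.infty))
  have hπ : Continuous π :=
    (continuous_fst.prodMk ((lamv_cont v).comp continuous_snd)).sumElim
      (continuous_id.prodMk continuous_const)
  have hs : Function.Surjective π := by
    rintro ⟨x, z⟩
    induction z using OnePoint.rec with
    | infty => exact ⟨Sum.inr x, rfl⟩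
    | coe z => exact ⟨Sum.inl (x, t z), Prod.ext rfl (ht z)⟩
  have hq : Topology.IsQuotientMap π := hπ.isClosedMap.isQuotientMap hπ hs
  have hc : Continuous fun q : (Fin a → I) × Sph v => g0 q.1 q.2 := by
    rw [hq.continuous_iff]
    have h3 : (fun q : (Fin a → I) × Sph v => g0 q.1 q.2) ∘ π =
        Sum.elim (fun q => (w.1 q.1).1 q.2) (fun _ => M.pt (n + v)) := by
      funext q
      rcases q with ⟨x, s⟩ | _
      · exact h1 x s
      · rfl
    rw [h3]
    have h4 : Continuous fun q : (Fin a → I) × (Fin v → I) => (w.1 q.1).1 q.2 :=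
      uncurry_cont (fun t => (w.1 t).1) (continuous_subtype_val.comp w.1.continuous)
    exact h4.sumElim continuous_const
  refine ⟨⟨⟨fun x => ⟨((), ⟨g0 x, hc.comp (continuous_const.prodMk continuous_id)⟩), rfl,
    fun u => rfl⟩, ?_⟩, ?_⟩, ?_⟩
  · exact Continuous.subtype_mk (continuous_const.prodMk (curry_cont _ hc)) _
  · intro x hx
    refine Subtype.ext (Prod.ext rfl (ContinuousMap.ext fun u => ?_))
    have h5 : w.1 x = (Ol v M).pt n := w.2 x hx
    induction u using OnePoint.rec with
    | infty => rfl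
    | coe z =>
      change (w.1 x).1 (t z) = M.pt (n + v)
      rw [h5]
      rfl
  · exact Subtype.ext (ContinuousMap.ext fun x => Subtype.ext (ContinuousMap.ext fun s => h1 x s))

theorem olin_hO {v : ℕ} {M : MSp R} {a n : ℕ} (w : Lp (Ol v M).seq a n) :
    GenLoop.Homotopic ((olin v M).sh.lp (hO w)) (stn v w) := by
  obtain ⟨z, rfl⟩ := exists_sphM w
  have h1 := iota_hL (κ := MHom.id MSp.zero) (ρ := toZero M) z
  have h2 := lp_homotopic (sphM v M).sh h1
  rw [← SHom.lp_stn]
  exact h2

theorem olin_isWeq (v : ℕ) (M : MSp R) : (olin v M).IsWeq := by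
  constructor
  · intro a n x x' hx
    obtain ⟨j, hj⟩ := hx
    change GenLoop.Homotopic (stn j ((olin v M).sh.lp x)) (stn j ((olin v M).sh.lp x')) at hj
    rw [← SHom.lp_stn, ← SHom.lp_stn] at hj
    have h1 := hO_homotopic hj
    rw [hO_olin, hO_olin] at h1
    exact StEq.of_stn j v h1
  · intro a n y
    exact ⟨v, hO y, 0, olin_hO y⟩

theorem stEq_hO {v : ℕ} {M : MSp R} {a n : ℕ} {w w' : Lp (Ol v M).seq a n} :
    StEq (hO w) (hO w') ↔ StEq w w' := by
  have h1 : ∀ w : Lp (Ol v M).seq a n, StEq ((olin v M).sh.lp (hO w)) (stn v w) :=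
    fun w => ⟨0, olin_hO w⟩
  constructor
  · intro h
    exact (((h1 w).symm.trans (h.lp _)).trans (h1 w')).of_stn' v
  · intro h
    exact (olin_isWeq v M).1 _ _ _ _ (((h1 w).trans (h.stn v)).trans (h1 w').symm)

end Pool.Agent.MP_d175a7_gt
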