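import Pool.Agent.Lib.MP_d175a7_gt.Ol
import Pool.Agent.Lib.MP_d175a7_gt.V3Def

/-!
# Sums of homomorphisms to `Ω^v sh_v M`
-/

set_option autoImplicit false
set_option linter.unusedVariables false

namespace Pool.Agent.MP_d175a7_gt

open scoped Topology unitInterval

theorem lsum_zero {P : Seq} {a n : ℕ} (x : Fin 0 → Lp P (a + 1) n) :
    lsum x = cstLp P (a + 1) n := by
  unfold lsum
  rw [List.ofFn_zero]
  rfl

theorem lsum_succ {P : Seq} {a n f : ℕ} (x : Fin (f + 1) → Lp P (a + 1) n) :
    lsum x = GenLoop.transAt 0 (x 0) (lsum fun l => x l.succ) := by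
  unfold lsum
  rw [List.ofFn_succ]
  rfl

theorem lp_lsum {P Q : Seq} (g : SHom P Q) {a n f : ℕ} (x : Fin f → Lp P (a + 1) n) :
    g.lp (lsum x) = lsum fun l => g.lp (x l) := by
  induction f with
  | zero =>
    rw [lsum_zero, lsum_zero]
    exact Subtype.ext (ContinuousMap.ext fun t => g.pt n)
  | succ f ih =>
    rw [lsum_succ, lsum_succ, lp_transAt, ih]

theorem mulL_apply {R : RSp} {P : MSp R} {v a n : ℕ} (y : Lp R.self.seq v v)
    (x : Lp P.seq a n) (t : Fin (a + v) → I) :
    (mulL y x).1 t = P.smul (Nat.add_comm v n) (y.1 (hd t)) (x.1 (tl t)) := rfl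

/-! ### Homomorphisms to `Ol` -/

section Hom

variable {R : RSp} {L M : MSp R} {v : ℕ}

/-- The multiplication with a loop `y ∈ Ω^v M_v`. -/
noncomputable def mulY (y : Lp M.seq v v) : MHom R.self (Ol v M) where
  f n r := mapLp (P := M.seq) (Q := M.seq) (M.smul (rfl : n + v = n + v) r)
    (fun T _ _ _ g hg => M.smul_cont rfl T (fun _ => r) g continuous_const hg)
    (M.smul_pt _ _) y
  cont n T _ _ _ g hg := by
    refine Continuous.subtype_mk (curry_cont _ ?_) _
    exact M.smul_cont rfl (T × (Fin v → I)) (fun q => g q.1) (fun q => y.1 q.2)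
      (hg.comp continuous_fst) (y.1.continuous.comp continuous_snd)
  pt n := Subtype.ext (ContinuousMap.ext fun s => M.pt_smul _ _)
  act n A r := Subtype.ext (ContinuousMap.ext fun s => by
    change M.smul rfl (R.act n A r) (y.1 s) = M.act (n + v) (blk rfl A 1) (M.smul rfl r (y.1 s))
    rw [← M.smul_act, M.act_one])
  smul {m n k} h r x := Subtype.ext (ContinuousMap.ext fun s =>
    M.smul_assoc h rfl rfl (addv h v) r x (y.1 s))

theorem transAt_cont {P : Seq} {a n : ℕ} {T : Type} [TopologicalSpace T]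
    (F G : T → Lp P (a + 1) n)
    (hF : Continuous fun q : T × (Fin (a + 1) → I) => (F q.1).1 q.2)
    (hG : Continuous fun q : T × (Fin (a + 1) → I) => (G q.1).1 q.2) :
    Continuous fun q : T × (Fin (a + 1) → I) => (GenLoop.transAt 0 (F q.1) (G q.1)).1 q.2 := by
  have h0 : Continuous fun q : T × (Fin (a + 1) → I) => q.2 0 :=
    (continuous_apply 0).comp continuous_snd
  have h1 : Continuous fun q : T × (Fin (a + 1) → I) => (q.2 0 : ℝ) :=
    continuous_subtype_val.comp h0
  have hu : Continuous fun q : T × (Fin (a + 1) → I) =>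
      (q.1, Function.update q.2 0 (uu 1 (q.2 0))) :=
    continuous_fst.prodMk (continuous_snd.update 0 (uu_cont.comp (continuous_const.prodMk h0)))
  have hv : Continuous fun q : T × (Fin (a + 1) → I) =>
      (q.1, Function.update q.2 0 (vv 1 (q.2 0))) :=
    continuous_fst.prodMk (continuous_snd.update 0 (vv_cont.comp (continuous_const.prodMk h0)))
  have h2 : (fun q : T × (Fin (a + 1) → I) => (GenLoop.transAt 0 (F q.1) (G q.1)).1 q.2) =
      fun q => if (q.2 0 : ℝ) ≤ 1 / 2 then (F q.1).1 (Function.update q.2 0 (uu 1 (q.2 0)))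
        else (G q.1).1 (Function.update q.2 0 (vv 1 (q.2 0))) := by
    funext q
    by_cases h : (q.2 0 : ℝ) ≤ 1 / 2
    · rw [if_pos h, transAt_left _ _ _ h]
    · rw [if_neg h, transAt_right _ _ _ (not_le.1 h).le]
  rw [h2]
  refine Continuous.if_le (hF.comp hu) (hG.comp hv) h1 continuous_const fun q hq => ?_
  have h3 := transAt_left (F q.1) (G q.1) q.2 hq.le
  have h4 := transAt_right (F q.1) (G q.1) q.2 hq.ge
  exact h3.symm.trans h4

theorem mapLp_transAt {P Q : Seq} {a n m : ℕ} (F : P.X n → Q.X m) (hF : KCont F)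
    (h0 : F (P.pt n) = Q.pt m) (x y : Lp P (a + 1) n) :
    mapLp F hF h0 (GenLoop.transAt 0 x y) =
      GenLoop.transAt 0 (mapLp F hF h0 x) (mapLp F hF h0 y) := by
  apply Subtype.ext
  apply ContinuousMap.ext
  intro t
  change F ((GenLoop.transAt 0 x y).1 t) = (GenLoop.transAt 0 (mapLp F hF h0 x)
    (mapLp F hF h0 y)).1 t
  by_cases h : (t 0 : ℝ) ≤ 1 / 2
  · rw [transAt_left _ _ _ h, transAt_left _ _ _ h]
    rfl
  · rw [transAt_right _ _ _ (not_le.1 h).le, transAt_right _ _ _ (not_le.1 h).le]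
    rfl

/-- The concatenation of constant loops is constant. -/
theorem transAt_cst_cst (P : Seq) (a n : ℕ) :
    GenLoop.transAt 0 (cstLp P (a + 1) n) (cstLp P (a + 1) n) = cstLp P (a + 1) n := by
  apply Subtype.ext
  apply ContinuousMap.ext
  intro t
  by_cases h : (t 0 : ℝ) ≤ 1 / 2
  · rw [transAt_left _ _ _ h]
    rfl
  · rw [transAt_right _ _ _ (not_le.1 h).le]
    rfl

/-- The sum of two homomorphisms to `Ol (v + 1) M`. -/
noncomputable def Ol.add (f g : MHom L (Ol (v + 1) M)) : MHom L (Ol (v + 1) M) where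
  f n x := (GenLoop.transAt 0 (f.f n x : Lp M.seq (v + 1) (n + (v + 1))) (g.f n x) :
    Lp M.seq (v + 1) (n + (v + 1)))
  cont n T _ _ _ k hk := by
    refine Continuous.subtype_mk (curry_cont _ ?_) _
    have h1 : ∀ φ : MHom L (Ol (v + 1) M), Continuous fun q : T × (Fin (v + 1) → I) =>
        (φ.f n (k q.1) : Lp M.seq (v + 1) (n + (v + 1))).1 q.2 := fun φ =>
      uncurry_cont (fun t => (φ.f n (k t) : Lp M.seq (v + 1) (n + (v + 1))).1)
        (continuous_subtype_val.comp (φ.cont n T k hk))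
    exact transAt_cont (P := M.seq) (fun t => f.f n (k t)) (fun t => g.f n (k t)) (h1 f) (h1 g)
  pt n := by
    rw [f.pt, g.pt]
    exact transAt_cst_cst M.seq v (n + (v + 1))
  act n A x := by
    rw [f.act, g.act]
    exact (mapLp_transAt (P := M.seq) (Q := M.seq) (M.act (n + (v + 1)) (blk rfl A 1))
      (fun T _ _ _ g hg => M.act_cont _ T (fun _ => blk rfl A 1) g continuous_const hg)
      (M.act_pt _ _) (f.f n x) (g.f n x)).symm
  smul {m n k} h r x := by
    rw [f.smul, g.smul]
    exact (mapLp_transAt (P := M.seq) (Q := M.seq) (M.smul (addv h (v + 1)) r)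
      (fun T _ _ _ g hg => M.smul_cont _ T (fun _ => r) g continuous_const hg)
      (M.smul_pt _ _) (f.f n x) (g.f n x)).symm

theorem hd_update {a v : ℕ} (t : Fin (a + (v + 1)) → I) (c : I) :
    hd (Function.update t 0 c : Fin (a + (v + 1)) → I) =
      (Function.update (hd t : Fin (v + 1) → I) 0 c : Fin (v + 1) → I) := by
  funext i
  by_cases hi : i = 0
  · subst hi
    rw [Function.update_self]
    exact Function.update_self (0 : Fin (a + (v + 1))) c t
  · rw [Function.update_of_ne hi]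
    exact Function.update_of_ne (fun h => hi (Fin.ext (by simpa using congrArg Fin.val h))) _ _

theorem tl_update {a v : ℕ} (t : Fin (a + (v + 1)) → I) (c : I) :
    tl (Function.update t 0 c : Fin (a + (v + 1)) → I) = (tl t : Fin a → I) := by
  funext i
  exact Function.update_of_ne (fun h => by
    have := congrArg Fin.val h
    simp at this) _ _

/-- `hO` for `v + 1`. -/
noncomputable def hO' {a n : ℕ} (w : Lp (Ol (v + 1) M).seq a n) :
    Lp M.seq (a + v + 1) (n + (v + 1)) :=
  (hO (v := v + 1) (a := a) (n := n) w : Lp M.seq (a + (v + 1)) (n + (v + 1)))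

theorem hO'_apply {a n : ℕ} (w : Lp (Ol (v + 1) M).seq a n) (t : Fin (a + v + 1) → I) :
    (hO' w).1 t = M.act (n + (v + 1)) (swp rfl (Nat.add_comm (v + 1) n))
      ((w.1 (tl (v := v + 1) t) : Lp M.seq (v + 1) (n + (v + 1))).1 (hd (v := v + 1) t)) := rfl

/-- The loop given by a sum of homomorphisms. -/
theorem hO_add (f g : MHom L (Ol (v + 1) M)) {a n : ℕ} (w : Lp L.seq a n) :
    hO' ((Ol.add f g).sh.lp w) = GenLoop.transAt 0 (hO' (f.sh.lp w)) (hO' (g.sh.lp w)) := by
  apply Subtype.ext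
  apply ContinuousMap.ext
  intro t
  have h1 : (hO' ((Ol.add f g).sh.lp w)).1 t =
      M.act (n + (v + 1)) (swp rfl (Nat.add_comm (v + 1) n))
        ((GenLoop.transAt 0 (f.f n (w.1 (tl (v := v + 1) t)) : Lp M.seq (v + 1) (n + (v + 1)))
          (g.f n (w.1 (tl (v := v + 1) t)))).1 (hd (v := v + 1) t)) := rfl
  rw [h1]
  by_cases h : (t 0 : ℝ) ≤ 1 / 2
  · rw [transAt_left (P := M.seq) (hO' (f.sh.lp w)) (hO' (g.sh.lp w)) t h, hO'_apply,
      hd_update, tl_update]
    exact congrArg (M.act (n + (v + 1)) (swp rfl (Nat.add_comm (v + 1) n)))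
      (transAt_left (P := M.seq) _ _ _ h)
  · have h' := (not_le.1 h).le
    rw [transAt_right (P := M.seq) (hO' (f.sh.lp w)) (hO' (g.sh.lp w)) t h', hO'_apply,
      hd_update, tl_update]
    exact congrArg (M.act (n + (v + 1)) (swp rfl (Nat.add_comm (v + 1) n)))
      (transAt_right (P := M.seq) _ _ _ h')

/-- The zero homomorphism. -/
def Ol.zero : MHom L M where
  f n x := M.pt n
  cont n T _ _ _ k hk := continuous_const
  pt n := rfl
  act n A x := (M.act_pt n A).symm
  smul h r x := (M.smul_pt _ _).symm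

/-- The sum of homomorphisms to `Ol (v + 1) M`. -/
noncomputable def Ol.sum {f : ℕ} (φ : Fin f → MHom L (Ol (v + 1) M)) :
    MHom L (Ol (v + 1) M) := (List.ofFn φ).foldr Ol.add Ol.zero

theorem hO_sum {f : ℕ} (φ : Fin f → MHom L (Ol (v + 1) M)) {a n : ℕ} (w : Lp L.seq a n) :
    hO' ((Ol.sum φ).sh.lp w) = lsum (fun l => hO' ((φ l).sh.lp w)) := by
  induction f with
  | zero =>
    rw [lsum_zero]
    unfold Ol.sum
    rw [List.ofFn_zero]
    exact Subtype.ext (ContinuousMap.ext fun t => M.act_pt _ _)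
  | succ f ih =>
    have h1 : Ol.sum φ = Ol.add (φ 0) (Ol.sum fun l => φ l.succ) := by
      unfold Ol.sum
      rw [List.ofFn_succ]
      rfl
    rw [h1, hO_add, ih, lsum_succ]

end Hom

end Pool.Agent.MP_d175a7_gt
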