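import Pool.Agent.Lib.MP_d175a7_gt.SusA

/-! # The suspension of a cycle -/

set_option autoImplicit false
set_option linter.unusedVariables false

namespace Pool.Agent.MP_d175a7_gt

universe u v

/-- finite formal sums of simplices of `(Δ^1)^b × X` -/
private abbrev SusB_Ch (p b : ℕ) (X : PS.{u}) : Type u :=
  (Σ n : ℕ, (Fin b → Mon n) × X.X n) →₀ ZMod p

/-- the pairing -/
private noncomputable def SusB_ev {p b : ℕ} {X : PS.{u}} (Ψ : CuC p b X)
    (z : SusB_Ch p b X) : ZMod p := z.sum fun q c => c * Ψ q.1 q.2.1 q.2.2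

private theorem SusB_ev_zero {p b : ℕ} {X : PS.{u}} (Ψ : CuC p b X) :
    SusB_ev Ψ (0 : SusB_Ch p b X) = 0 := Finsupp.sum_zero_index

private theorem SusB_ev_add {p b : ℕ} {X : PS.{u}} (Ψ : CuC p b X) (z w : SusB_Ch p b X) :
    SusB_ev Ψ (z + w) = SusB_ev Ψ z + SusB_ev Ψ w :=
  Finsupp.sum_add_index' (fun _ => zero_mul _) (fun _ _ _ => add_mul _ _ _)

private theorem SusB_ev_single {p b : ℕ} {X : PS.{u}} (Ψ : CuC p b X) (n : ℕ)
    (τ : Fin b → Mon n) (x : X.X n) (c : ZMod p) :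
    SusB_ev Ψ (Finsupp.single ⟨n, τ, x⟩ c) = c * Ψ n τ x :=
  Finsupp.sum_single_index (zero_mul _)

/-- the functional is the pairing with a chain of degree `M` -/
private def SusB_Rep (p b : ℕ) (X : PS.{u}) (M : ℕ) (Λ : CuC p b X → ZMod p) : Prop :=
  ∃ z : SusB_Ch p b X, (∀ q, z q ≠ 0 → q.1 = M) ∧ ∀ Ψ, SusB_ev Ψ z = Λ Ψ

private theorem SusB_zero {p b : ℕ} {X : PS.{u}} (M : ℕ) :
    SusB_Rep p b X M (fun _ => 0) :=
  ⟨0, fun q hq => absurd rfl hq, fun Ψ => SusB_ev_zero Ψ⟩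

private theorem SusB_add {p b : ℕ} {X : PS.{u}} {M : ℕ} {Λ Λ' : CuC p b X → ZMod p}
    (h : SusB_Rep p b X M Λ) (h' : SusB_Rep p b X M Λ') :
    SusB_Rep p b X M (fun Ψ => Λ Ψ + Λ' Ψ) := by
  obtain ⟨z, hz, hz'⟩ := h
  obtain ⟨w, hw, hw'⟩ := h'
  refine ⟨z + w, fun q hq => ?_, fun Ψ => by rw [SusB_ev_add, hz', hw']⟩
  by_cases h1 : z q = 0
  · refine hw q fun h2 => hq ?_
    rw [Finsupp.add_apply, h1, h2, add_zero]
  · exact hz q h1

private theorem SusB_sum {p b : ℕ} {X : PS.{u}} {M : ℕ} {I : Type u} (s : Finset I)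
    (Λ : I → CuC p b X → ZMod p) (h : ∀ i ∈ s, SusB_Rep p b X M (Λ i)) :
    SusB_Rep p b X M (fun Ψ => ∑ i ∈ s, Λ i Ψ) := by
  classical
  induction s using Finset.induction_on with
  | empty =>
    simp only [Finset.sum_empty]
    exact SusB_zero M
  | insert a s ha ih =>
    simp only [Finset.sum_insert ha]
    exact SusB_add (h a (Finset.mem_insert_self a s))
      (ih fun i hi => h i (Finset.mem_insert_of_mem hi))

private theorem SusB_sumN {p b : ℕ} {X : PS.{u}} {M : ℕ} (s : Finset ℕ)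
    (Λ : ℕ → CuC p b X → ZMod p) (h : ∀ i ∈ s, SusB_Rep p b X M (Λ i)) :
    SusB_Rep p b X M (fun Ψ => ∑ i ∈ s, Λ i Ψ) := by
  classical
  induction s using Finset.induction_on with
  | empty =>
    simp only [Finset.sum_empty]
    exact SusB_zero M
  | insert a s ha ih =>
    simp only [Finset.sum_insert ha]
    exact SusB_add (h a (Finset.mem_insert_self a s))
      (ih fun i hi => h i (Finset.mem_insert_of_mem hi))

private theorem SusB_one {p b : ℕ} {X : PS.{u}} (M : ℕ) (τ : Fin b → Mon M) (x : X.X M)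
    (c : ZMod p) : SusB_Rep p b X M (fun Ψ => c * Ψ M τ x) := by
  classical
  refine ⟨Finsupp.single ⟨M, τ, x⟩ c, fun q hq => ?_, fun Ψ => SusB_ev_single Ψ M τ x c⟩
  by_contra h
  apply hq
  rw [Finsupp.single_apply, if_neg]
  rintro rfl
  exact h rfl

/-- the step -/
private theorem SusB_step {p b : ℕ} {X : PS.{u}} {M : ℕ} {Λ : CuC p b X → ZMod p}
    (h : SusB_Rep p b X M Λ) :
    SusB_Rep p (b + 1) X (M + 1) (fun Ψ => Λ (pr1 Ψ)) := by
  obtain ⟨z, hz, hz'⟩ := h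
  have h1 : SusB_Rep p (b + 1) X (M + 1)
      (fun Ψ => ∑ q ∈ z.support, z q * pr1 Ψ q.1 q.2.1 q.2.2) := by
    refine SusB_sum z.support (fun q Ψ => z q * pr1 Ψ q.1 q.2.1 q.2.2) fun q hq => ?_
    obtain ⟨n, τ, x⟩ := q
    have h2 : n = M := hz _ (Finsupp.mem_support_iff.1 hq)
    subst h2
    have h3 : (fun Ψ : CuC p (b + 1) X => z ⟨n, τ, x⟩ * pr1 Ψ n τ x) =
        fun Ψ => ∑ i ∈ Finset.range (n + 1), (z ⟨n, τ, x⟩ * (-1) ^ i) * Ψ (n + 1)
          (Fin.cons (α := fun _ => Mon (n + 1)) (rho (n + 1) i)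
            (fun a => (τ a).comp (sig n i))) (X.map (sig n i) x) := by
      funext Ψ
      unfold pr1
      rw [Finset.mul_sum]
      exact Finset.sum_congr rfl fun i _ => (mul_assoc _ _ _).symm
    change SusB_Rep p (b + 1) X (n + 1) (fun Ψ => z ⟨n, τ, x⟩ * pr1 Ψ n τ x)
    rw [h3]
    exact SusB_sumN _ _ fun i _ => SusB_one _ _ _ _
  have h2 : (fun Ψ : CuC p (b + 1) X => Λ (pr1 Ψ)) =
      fun Ψ => ∑ q ∈ z.support, z q * pr1 Ψ q.1 q.2.1 q.2.2 := by
    funext Ψ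
    rw [← hz']
    rfl
  rw [h2]
  exact h1

private theorem SusB_rep {p : ℕ} {X : PS.{u}} (b N : ℕ) (z : Ch p X) (hN : IsHom N z) :
    SusB_Rep p b X (N + b) (fun Ψ => ev (pr b Ψ) z) := by
  induction b with
  | zero =>
    have h1 : SusB_Rep p 0 X N (fun Ψ => ∑ q ∈ z.support, z q * pr 0 Ψ q.1 q.2) := by
      refine SusB_sum z.support (fun q Ψ => z q * pr 0 Ψ q.1 q.2) fun q hq => ?_
      obtain ⟨n, x⟩ := q
      have h2 : n = N := hN _ (Finsupp.mem_support_iff.1 hq)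
      subst h2
      exact SusB_one _ _ _ _
    exact h1
  | succ b ih => exact SusB_step ih

/-- The suspension of a cycle.  Proof: the chain: by induction on `b` there is for every chain `z`
a finite formal sum `z_b` of simplices of `(Δ^1)^b × X` whose pairing with all `Ψ` is
`ev (pr b Ψ) z` (for the step replace every `(τ, x)` of dimension `n` by
`∑_i (-1)^i (Fin.cons ρ_i (τ s_i), s_i x)`); push it forward to `Susp b X` (`Finsupp.mapDomain`).
It is a cycle by `pr_cob`. -/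
theorem exists_susp {p : ℕ} {X : PS.{u}} (b N : ℕ) (z : Ch p X) (hN : IsHom N z) (hz : IsCyc z) :
    ∃ z' : Ch p (Susp b X), IsHom (N + b) z' ∧ IsCyc z' ∧
      ∀ ψ : CoCh p (Susp b X), ev ψ z' = ev (pr b fun n τ x => ψ n (Susp.mk τ x)) z := by
  classical
  obtain ⟨w, hw, hw'⟩ := SusB_rep b N z hN
  set f : (Σ n : ℕ, (Fin b → Mon n) × X.X n) → (Σ n : ℕ, (Susp b X).X n) :=
    fun q => ⟨q.1, Susp.mk q.2.1 q.2.2⟩ with hf
  have hev : ∀ ψ : CoCh p (Susp b X), ev ψ (Finsupp.mapDomain f w) =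
      ev (pr b fun n τ x => ψ n (Susp.mk τ x)) z := by
    intro ψ
    refine Eq.trans ?_ (hw' (fun n τ x => ψ n (Susp.mk τ x)))
    unfold ev SusB_ev
    rw [Finsupp.sum_mapDomain_index (fun _ => zero_mul _) (fun _ _ _ => add_mul _ _ _)]
  refine ⟨Finsupp.mapDomain f w, fun q hq => ?_, fun ψ hψ => ?_, hev⟩
  · have h1 := Finsupp.mapDomain_support (Finsupp.mem_support_iff.2 hq)
    obtain ⟨q', hq', rfl⟩ := Finset.mem_image.1 h1
    exact hw q' (Finsupp.mem_support_iff.1 hq')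
  · rw [hev]
    obtain ⟨χ, hχ, hχ'⟩ := pr_cob ψ hψ
    have h1 : (pr b fun n τ x => cob ψ n (Susp.mk τ x)) = cob χ := by
      funext n x
      exact hχ' n x
    rw [h1]
    exact hz χ hχ

end Pool.Agent.MP_d175a7_gt
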