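import Pool.Agent.Lib.MP_d175a7_gt.EvH
import Pool.Agent.Lib.MP_d175a7_gt.SusB
import Pool.Agent.Lib.MP_d175a7_gt.FhatM
import Pool.Agent.Lib.MP_d175a7_gt.FhatP

/-! # A cube with nonzero pairing obstructs surjectivity -/

set_option autoImplicit false
set_option linter.unusedVariables false

namespace Pool.Agent.MP_d175a7_gt

open CategoryTheory

universe u v

variable {C : Type 1} [Category.{0} C]

/-- The constant cube. -/
def Cube.triv (u : C) (m : ℕ) : Cube C m where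
  obj _ := u
  map _ {_ _} _ := 𝟙 _
  map_id _ _ := rfl
  map_comp _ {_ _ _} _ _ := (Category.comp_id _).symm
  indep _ _ {_ _} _ _ := rfl

/-- A family of cubes with one prescribed member. -/
noncomputable def Cube.fam (u : C) {m₀ : ℕ} (Q : Cube C m₀) (m : ℕ) : Cube C m :=
  if h : m = m₀ then h ▸ Q else Cube.triv u m

theorem Cube.fam_self (u : C) {m₀ : ℕ} (Q : Cube C m₀) : Cube.fam u Q m₀ = Q := by
  unfold Cube.fam
  rw [dif_pos rfl]

theorem nrm_pull {p : ℕ} {X : PS.{u}} {Y : PS.{v}} (g : PMap X Y) {ψ : CoCh p Y} (h : Nrm ψ) :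
    Nrm (fun n x => ψ n (g.f n x) : CoCh p X) := by
  refine ⟨fun n => ?_, fun n i y => ?_⟩
  · change ψ n (g.f n (X.pt n)) = 0
    rw [g.pt]; exact h.1 n
  · change ψ (n + 1) (g.f (n + 1) (X.map (sig n i) y)) = 0
    rw [g.nat]; exact h.2 n i _

theorem coc_pull {p : ℕ} {X : PS.{u}} {Y : PS.{v}} (g : PMap X Y) {ψ : CoCh p Y} (h : IsCoc ψ) :
    IsCoc (fun n x => ψ n (g.f n x) : CoCh p X) := by
  intro n x
  cases n with
  | zero => rfl
  | succ n =>
    have h1 := h (n + 1) (g.f (n + 1) x)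
    change ∑ i ∈ Finset.range (n + 2), (-1) ^ i * ψ n (Y.map (del n i) (g.f (n + 1) x)) = 0 at h1
    change ∑ i ∈ Finset.range (n + 2), (-1) ^ i * ψ n (g.f n (X.map (del n i) x)) = 0
    rw [← h1]
    refine Finset.sum_congr rfl fun i _ => ?_
    rw [g.nat]

theorem ev_congr {p : ℕ} {X : PS.{u}} {ψ ψ' : CoCh p X} {N : ℕ} {z : Ch p X} (hz : IsHom N z)
    (h : ∀ x : X.X N, ψ N x = ψ' N x) : ev ψ z = ev ψ' z := by
  unfold ev
  refine Finsupp.sum_congr fun q hq => ?_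
  obtain ⟨n, x⟩ := q
  have : n = N := hz ⟨n, x⟩ (Finsupp.mem_support_iff.1 hq)
  subst this
  change z ⟨n, x⟩ * ψ n x = z ⟨n, x⟩ * ψ' n x
  rw [h]

theorem ev_zero' {p : ℕ} {X : PS.{u}} {ψ : CoCh p X} {N : ℕ} {z : Ch p X} (hz : IsHom N z)
    (h : ∀ x : X.X N, ψ N x = 0) : ev ψ z = 0 := by
  rw [ev_congr (ψ' := fun _ _ => 0) hz h]
  unfold ev
  simp

/-- The pairing with a chain, as a function on homotopy classes. -/
noncomputable def clsPair {p : ℕ} {X : PS.{u}} {Y : PS.{v}} (ψ : CoCh p Y) (hn : Nrm ψ)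
    (hc : IsCoc ψ) (z : Ch p X) (hz : IsCyc z) : Cls X Y → ZMod p :=
  Quot.lift (fun f : PMap X Y => ev (fun n x => ψ n (f.f n x)) z)
    (fun f g H => ev_hty ψ hn hc H.some z hz)

/-- A cube whose pairing with an additive cocycle is nonzero obstructs surjectivity. -/
theorem not_onto {p : ℕ} [Fact p.Prime] (S : SMon C) (Φ : ACoc S p) {D d k : ℕ} (hd : 0 < d)
    (Q : Cube C (d + k + D))
    (hvan : ∀ ω : Fin (d + k + D) → Bool, (∃ i, ω i = false) →
      ∀ π : Equiv.Perm (Fin (d + k + D)), Φ.φ (d + k + D) (Q.fn ω (epi π)) = 0)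
    (hne : ∑ π : Equiv.Perm (Fin (d + k + D)), ((Equiv.Perm.sign π : ℤ) : ZMod p) *
        Φ.φ (d + k + D) (Q.fn (fun _ => true) (epi π)) ≠ 0)
    (A : PS.{u}) (At : PS.{v}) (hA : DimLe A D) (hH : HNe p A D) (s : PMap At (Susp d A))
    (hs : HSur p s (D + d)) (w : PMap At A) :
    ¬ Function.Surjective
      (Cls.pre (Susp.pmap k w) : Cls (Susp k A) (KGps S) → Cls (Susp k At) (KGps S)) := by
  intro hsurj
  obtain ⟨z, hzN, hzc, ψ, hψn, hψc, hψz⟩ := hH
  -- a simplex of the cycle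
  obtain ⟨o, ho1, ho2⟩ : ∃ o : A.X D, z ⟨D, o⟩ ≠ 0 ∧ ψ D o ≠ 0 := by
    by_contra hcon
    push Not at hcon
    apply hψz
    unfold ev
    refine Finset.sum_eq_zero fun q hq => ?_
    obtain ⟨n, x⟩ := q
    have hn : n = D := hzN ⟨n, x⟩ (Finsupp.mem_support_iff.1 hq)
    subst hn
    change z ⟨n, x⟩ * ψ n x = 0
    rw [hcon x (Finsupp.mem_support_iff.1 hq), mul_zero]
  have hopt : o ≠ A.pt D := by
    rintro rfl
    exact ho2 (hψn.1 D)
  have hond : NonDeg o := by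
    clear hzN hs hA ho1 hsurj hvan hne
    cases D with
    | zero => exact nonDeg_zero o
    | succ D =>
      refine nonDeg_of o fun i y hy => ho2 ?_
      rw [hy]; exact hψn.2 D i y
  obtain ⟨F, hF⟩ := exists_fmap (cP S (Cube.fam S.u Q) D (d + k)) hA hond hopt
  obtain ⟨z1, hz1N, hz1c, hz1⟩ := exists_susp d D z hzN hzc
  obtain ⟨zt, hztN, hztc, hzt⟩ := hs z1 hz1N hz1c
  obtain ⟨zk, hzkN, hzkc, hzk⟩ := exists_susp k (D + d) zt hztN hztc
  obtain ⟨y', hy'⟩ := hsurj (Quot.mk _ ((Susp.pmap k s).comp F))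
  obtain ⟨y, rfl⟩ := Quot.exists_rep y'
  have hinv := congrArg (clsPair Φ.coch Φ.coch_nrm Φ.coch_coc zk hzkc) hy'
  change ev (fun n x => Φ.coch n (y.f n ((Susp.pmap k w).f n x))) zk =
    ev (fun n x => Φ.coch n (F.f n ((Susp.pmap k s).f n x))) zk at hinv
  -- the left hand side vanishes
  have hL : ev (fun n x => Φ.coch n (y.f n ((Susp.pmap k w).f n x))) zk = 0 := by
    refine ev_zero' hzkN fun x => ?_
    have h1 : Nrm (fun n x => Φ.coch n (y.f n x) : CoCh p (Susp k A)) :=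
      nrm_pull y Φ.coch_nrm
    exact nrm_high hA k _ h1 (D + d + k) (by omega) ((Susp.pmap k w).f (D + d + k) x)
  -- the right hand side
  set χ : CoCh p (Susp d A) := pr k (fun n τ x => Φ.coch n (F.f n (Susp.mk τ x))) with hχ
  have hχc : Nrm χ ∧ IsCoc χ :=
    pr_coc (fun n x => Φ.coch n (F.f n x) : CoCh p (Susp k (Susp d A)))
      (nrm_pull F Φ.coch_nrm) (coc_pull F Φ.coch_coc)
  have hR1 : ev (fun n x => Φ.coch n (F.f n ((Susp.pmap k s).f n x))) zk = ev χ z1 := by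
    rw [hzk, ← hzt χ hχc.1 hχc.2]
    congr 1
    funext n x
    exact pr_nat (X := At) (Y := Susp d A) s.f (fun α x => s.nat α x) k
      (fun n τ x => Φ.coch n (F.f n (Susp.mk τ x))) n x
  have hR2 : ev χ z1 = ev (pr (d + k) fun n τ a =>
      Φ.val n (fhat (cP S (Cube.fam S.u Q) D (d + k)) o n τ a)) z := by
    rw [hz1]
    congr 1
    funext n x
    rw [hχ, pr_app d k (fun n τ x => Φ.coch n (F.f n (Susp.mk τ x))) n x]
    congr 1
    funext n τ a
    rw [hF, apc_hdc_tlc]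
    rfl
  have hR3 : ev (pr (d + k) fun n τ a =>
      Φ.val n (fhat (cP S (Cube.fam S.u Q) D (d + k)) o n τ a)) z =
      z ⟨D, o⟩ * ((-1) ^ (d + k + D) * ∑ π : Equiv.Perm (Fin (d + k + D)),
        ((Equiv.Perm.sign π : ℤ) : ZMod p) *
          Φ.φ (d + k + D) (Q.fn (fun _ => true) (epi π))) := by
    have hk := kap_eval Φ (Cube.fam S.u Q) D (d + k) (by rw [Cube.fam_self]; exact hvan)
    rw [Cube.fam_self] at hk
    rw [← hk, ← pr_fhat Φ _ hond]
    unfold ev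
    rw [Finsupp.sum, Finset.sum_eq_single (⟨D, o⟩ : Σ n : ℕ, A.X n)]
    · rintro ⟨n, x⟩ hq hne'
      have hn : n = D := hzN ⟨n, x⟩ (Finsupp.mem_support_iff.1 hq)
      subst hn
      have hx : x ≠ o := fun h => hne' (by rw [h])
      change z ⟨n, x⟩ * pr _ _ n x = 0
      rw [pr_fhat_ne Φ _ hA hond x hx, mul_zero]
    · intro h
      rw [Finsupp.notMem_support_iff.1 h, zero_mul]
  rw [hL, hR1, hR2, hR3] at hinv
  have h1 : (((-1 : ZMod p)) ^ (d + k + D)) ≠ 0 := pow_ne_zero _ (neg_ne_zero.2 one_ne_zero)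
  exact mul_ne_zero ho1 (mul_ne_zero h1 hne) hinv.symm

end Pool.Agent.MP_d175a7_gt
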