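import Pool.Agent.Lib.MP_d175a7_gt.Cube

/-! # The prism product `P` -/

set_option autoImplicit false
set_option linter.unusedVariables false

namespace Pool.Agent.MP_d175a7_gt

open CategoryTheory

variable {C : Type 1} [Category.{0} C]

/-- The value of the prism product
`(P g)(τ, β) = ∏_i g((τ, [i < β]), σ_i β)^((-1)^i)`, `0 ≤ i ≤ j`. -/
def popg {S : SMon C} {b j : ℕ} (c : CM S (b + 1) j) (n : ℕ) (τ : Fin b → Mon n)
    (β : Fin (n + 1) →o Fin (j + 1 + 1)) : KG S n :=
  altp (j + 1) (fun i =>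
    c.g n (Fin.snoc (α := fun _ => Mon n) τ ((rho (j + 1) i).comp β)) ((sig j i).comp β))

/-- Naturality.  Proof: `altp_map` for `KG.map α`, `c.nat`, and
`Fin.snoc (fun i => (τ i).comp α) (ρ.comp (β.comp α)) = fun i => ((Fin.snoc τ (ρ.comp β)) i).comp α`
(`Fin.lastCases`, `Fin.snoc_last`, `Fin.snoc_castSucc`). -/
theorem popg_nat {S : SMon C} {b j : ℕ} (c : CM S (b + 1) j) {m n : ℕ}
    (α : Fin (m + 1) →o Fin (n + 1)) (τ : Fin b → Mon n) (β : Fin (n + 1) →o Fin (j + 1 + 1)) :
    popg c m (fun i => (τ i).comp α) (β.comp α) = KG.map α (popg c n τ β) := by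
  unfold popg
  rw [altp_map]
  congr 1
  funext i
  rw [← c.nat]
  congr 1
  funext q
  refine Fin.lastCases ?_ (fun q => ?_) q
  · rw [Fin.snoc_last, Fin.snoc_last]
    rfl
  · rw [Fin.snoc_castSucc, Fin.snoc_castSucc]

/-- If some `τ i` is constant all factors are trivial (`c.bd` at `i.castSucc`). -/
theorem popg_bd {S : SMon C} {b j : ℕ} (c : CM S (b + 1) j) {n : ℕ}
    (τ : Fin b → Mon n) (β : Fin (n + 1) →o Fin (j + 1 + 1)) (i : Fin b) (h : IsCst (τ i)) :
    popg c n τ β = 1 := by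
  unfold popg
  have h1 : ∀ i' : ℕ, c.g n (Fin.snoc (α := fun _ => Mon n) τ ((rho (j + 1) i').comp β))
      ((sig j i').comp β) = 1 := by
    intro i'
    refine c.bd _ _ i.castSucc ?_
    rw [Fin.snoc_castSucc]
    exact h
  exact altp_cancel (j + 1) (j + 1 + 1) _ (fun i' _ _ _ => h1 i') (by omega) (by omega) (by omega)

private theorem sig_val (n i : ℕ) (l : Fin (n + 1 + 1)) :
    ((sig n i l : Fin (n + 1)) : ℕ) = if l.1 ≤ i then min l.1 n else l.1 - 1 := rfl

private theorem rho_val (n i : ℕ) (l : Fin (n + 1)) : rho n i l = decide (i < l.1) := rfl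

/-- If `β` misses `a`, the product is trivial: apply `altp_cancel` with this `a`
(`a ≤ j + 1`).  For `i + 1 < a`: `(sig j i).comp β` misses `a - 1`; for `i > a` it misses `a`
(`c.bd'`).  For `i = a - 1` and `i = a` (`0 < a < j + 1`): since `β` misses `a`, `(a - 1 < β l)` iff
`(a < β l)`, so `(rho (j+1) (a-1)).comp β = (rho (j+1) a).comp β`, and
`(sig j (a-1)).comp β = (sig j a).comp β`.  For `a = 0`: `(rho (j+1) 0).comp β` is constant `true`
(`c.bd` at `Fin.last b`); for `a = j + 1`: `(rho (j+1) j).comp β` is constant `false`. -/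
theorem popg_bd' {S : SMon C} {b j : ℕ} (c : CM S (b + 1) j) {n : ℕ}
    (τ : Fin b → Mon n) (β : Fin (n + 1) →o Fin (j + 1 + 1)) (h : ¬ Function.Surjective β) :
    popg c n τ β = 1 := by
  unfold popg
  have h0 : ∃ a : Fin (j + 1 + 1), ∀ l, β l ≠ a := by
    by_contra hc
    push Not at hc
    exact h hc
  obtain ⟨a, ha⟩ := h0
  have hav : ∀ l, (β l).1 ≠ a.1 := fun l hl => ha l (Fin.ext hl)
  have haj : a.1 ≤ j + 1 := by
    have := a.2
    omega
  have hβ : ∀ l, (β l).1 ≤ j + 1 := fun l => by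
    have := (β l).2
    omega
  refine altp_cancel (j + 1) a.1 _ ?_ ?_ ?_ ?_
  · intro i hi h1 h2
    refine c.bd' _ _ fun hs => ?_
    rcases lt_or_gt_of_ne h2 with h3 | h3
    · obtain ⟨l, hl⟩ := hs ⟨a.1 - 1, by omega⟩
      have hl' : ((sig j i (β l) : Fin (j + 1)) : ℕ) = a.1 - 1 := congrArg Fin.val hl
      rw [sig_val] at hl'
      have := hav l
      have := hβ l
      split_ifs at hl' with h5 <;> omega
    · obtain ⟨l, hl⟩ := hs ⟨a.1, by omega⟩
      have hl' : ((sig j i (β l) : Fin (j + 1)) : ℕ) = a.1 := congrArg Fin.val hl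
      rw [sig_val] at hl'
      have := hav l
      have := hβ l
      split_ifs at hl' with h5 <;> omega
  · intro h1 _
    refine c.bd _ _ (Fin.last b) ?_
    rw [Fin.snoc_last]
    intro l l'
    change rho (j + 1) 0 (β l) = rho (j + 1) 0 (β l')
    rw [rho_val, rho_val]
    have := hav l
    have := hav l'
    rw [decide_eq_true (by omega : 0 < (β l).1), decide_eq_true (by omega : 0 < (β l').1)]
  · intro h1 _
    refine c.bd _ _ (Fin.last b) ?_
    rw [Fin.snoc_last]
    intro l l'
    change rho (j + 1) (j + 1 - 1) (β l) = rho (j + 1) (j + 1 - 1) (β l')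
    rw [rho_val, rho_val]
    have := hav l
    have := hav l'
    have := hβ l
    have := hβ l'
    rw [decide_eq_false (by omega : ¬ (j + 1 - 1 < (β l).1)),
      decide_eq_false (by omega : ¬ (j + 1 - 1 < (β l').1))]
  · intro h1 h2
    have e1 : (rho (j + 1) (a.1 - 1)).comp β = (rho (j + 1) a.1).comp β := by
      ext l
      change rho (j + 1) (a.1 - 1) (β l) = rho (j + 1) a.1 (β l)
      rw [rho_val, rho_val]
      have := hav l
      have e : (a.1 - 1 < (β l).1) ↔ (a.1 < (β l).1) := by omega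
      simp only [e]
    have e2 : (sig j (a.1 - 1)).comp β = (sig j a.1).comp β := by
      ext l
      change ((sig j (a.1 - 1) (β l) : Fin (j + 1)) : ℕ) = ((sig j a.1 (β l) : Fin (j + 1)) : ℕ)
      rw [sig_val, sig_val]
      have := hav l
      split_ifs <;> omega
    rw [e1, e2]

/-- The prism product. -/
def CM.pop {S : SMon C} {b j : ℕ} (c : CM S (b + 1) j) : CM S b (j + 1) where
  g := popg c
  nat α τ β := popg_nat c α τ β
  bd τ β i h := popg_bd c τ β i h
  bd' τ β h := popg_bd' c τ β h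

/-- The map `(Δ^1)^b × Δ^j → K` obtained from the cubes of dimension `b + j` by `j` prism
products. -/
def cP (S : SMon C) (Q : ∀ m, Cube C m) : ∀ j b : ℕ, CM S b j
  | 0, b => CM.ofCube S (Q b)
  | j + 1, b => (cP S Q j (b + 1)).pop

end Pool.Agent.MP_d175a7_gt
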