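import Pool.Agent.Lib.MP_d175a7_gt.Mod

/-! # Paths -/

set_option autoImplicit false
set_option linter.unusedVariables false

namespace Pool.Agent.MP_d175a7_gt

open scoped Topology unitInterval

/-- The paths in a space. -/
abbrev PathsIn (X : Type) [TopologicalSpace X] : Type := C(I, X)

/-- The constant path. -/
abbrev cpath {X : Type} [TopologicalSpace X] (x : X) : PathsIn X := ContinuousMap.const I x

theorem OSeq.actP_cont (H : OSeq) (n : ℕ) (A : Ort n) (γ : PathsIn (H.X n)) :
    Continuous fun u => H.act n A (γ u) :=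
  H.act_cont n I (fun _ => A) γ continuous_const γ.continuous

/-- The action of `O(n)` on paths. -/
def OSeq.actP (H : OSeq) (n : ℕ) (A : Ort n) (γ : PathsIn (H.X n)) : PathsIn (H.X n) :=
  ⟨fun u => H.act n A (γ u), H.actP_cont n A γ⟩

variable {R : RSp}

theorem MSp.smulP_cont (S : MSp R) {m n k : ℕ} (h : m + n = k) (r : R.X m)
    (γ : PathsIn (S.X n)) : Continuous fun u => S.smul h r (γ u) :=
  S.smul_cont h I (fun _ => r) γ continuous_const γ.continuous

/-- The action of the ring on paths. -/
def MSp.smulP (S : MSp R) {m n k : ℕ} (h : m + n = k) (r : R.X m) (γ : PathsIn (S.X n)) :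
    PathsIn (S.X k) := ⟨fun u => S.smul h r (γ u), S.smulP_cont h r γ⟩

end Pool.Agent.MP_d175a7_gt
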