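import Pool.Agent.Lib.MP_d175a7_gt.Zb
import Pool.Agent.Lib.MP_d175a7_gt.PathD

/-! # Paths: lemmas -/

set_option autoImplicit false
set_option linter.unusedVariables false

namespace Pool.Agent.MP_d175a7_gt

open scoped Topology unitInterval

theorem cpath_closed {X : Type} [TopologicalSpace X] {x : X} (h : IsClosed ({x} : Set X)) :
    IsClosed ({cpath x} : Set (PathsIn X)) := by
  have h2 : ({cpath x} : Set (PathsIn X)) = ⋂ u, {w | w u = x} := by
    ext w
    simp [ContinuousMap.ext_iff, cpath]
  rw [h2]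
  exact isClosed_iInter fun u => IsClosed.preimage (f := fun w : C(I, X) => w u)
    (continuous_eval_const u) h

theorem OSeq.actP_kcont (H : OSeq) (n : ℕ) : KCont₂ (H.actP n) := fun T _ _ _ g h hg hh =>
  curry_cont _ (H.act_cont n (T × I) (fun q => g q.1) (fun q => h q.1 q.2)
    (hg.comp continuous_fst) (uncurry_cont _ hh))

variable {R : RSp}

theorem MSp.smulP_kcont (S : MSp R) {m n k : ℕ} (h : m + n = k) :
    KCont₂ (S.smulP h : R.X m → PathsIn (S.X n) → PathsIn (S.X k)) :=
  fun T _ _ _ g k hg hk => curry_cont _ (S.smul_cont h (T × I) (fun q => g q.1)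
    (fun q => k q.1 q.2) (hg.comp continuous_fst) (uncurry_cont _ hk))

end Pool.Agent.MP_d175a7_gt
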