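import Pool.Agent.Lib.MP_d175a7_gt.DimS

/-! # The pinch map onto a top dimensional simplex -/

set_option autoImplicit false
set_option linter.unusedVariables false

namespace Pool.Agent.MP_d175a7_gt

universe u v w

/-- `o` is nondegenerate: it is not of the form `X.map γ y` with `γ` not injective. -/
def NonDeg {X : PS.{u}} {D : ℕ} (o : X.X D) : Prop :=
  ∀ (n : ℕ) (γ : Fin (D + 1) →o Fin (n + 1)) (y : X.X n), o = X.map γ y → Function.Injective γ

private theorem PinA_id {D : ℕ} (f : Fin (D + 1) →o Fin (D + 1)) (hf : Function.Injective f) :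
    f = OrderHom.id := by
  have h1 : StrictMono f := f.monotone.strictMono_of_injective hf
  have h2 : Function.Surjective f := Finite.surjective_of_injective hf
  have h3 : (f : Fin (D + 1) → Fin (D + 1)) = id :=
    (h1.range_inj strictMono_id).1 (by rw [h2.range_eq, Set.range_id])
  ext i
  rw [h3]
  rfl

private theorem PinA_sec {n D : ℕ} (α : Fin (n + 1) →o Fin (D + 1))
    (s : Fin (D + 1) → Fin (n + 1)) (hs : ∀ i, α (s i) = i) : Monotone s := by
  intro i j hij
  by_contra h
  push Not at h
  have h1 := α.monotone h.le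
  rw [hs, hs] at h1
  have h2 : i = j := le_antisymm hij h1
  rw [h2] at h
  exact lt_irrefl _ h

/-- A simplex which is not degenerate in the elementary sense is nondegenerate. Proof: if `γ` is
not injective, `γ l = γ (l + 1)` for some `l < D`, `D = D' + 1`, and
`γ = (γ.comp (del D' (l+1))).comp (sig D' l)`. -/
theorem nonDeg_of {X : PS.{u}} {D : ℕ} (o : X.X (D + 1))
    (h : ∀ (i : ℕ) (y : X.X D), o ≠ X.map (sig D i) y) : NonDeg o := by
  intro n γ y hy
  have h0 : StrictMono γ := by
    rw [Fin.strictMono_iff_lt_succ]
    intro l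
    refine lt_of_le_of_ne (γ.monotone l.castSucc_le_succ) fun hl => ?_
    have h1 : γ = (γ.comp (del D (l.1 + 1))).comp (sig D l.1) := by
      refine OrderHom.ext _ _ (funext fun j => ?_)
      change γ j = γ (del D (l.1 + 1) (sig D l.1 j))
      have hl2 := l.2
      have hj2 := j.2
      have e1 : (del D (l.1 + 1) (sig D l.1 j)).1 =
          if (if j.1 ≤ l.1 then min j.1 D else j.1 - 1) < l.1 + 1 then
            (if j.1 ≤ l.1 then min j.1 D else j.1 - 1)
          else (if j.1 ≤ l.1 then min j.1 D else j.1 - 1) + 1 := rfl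
      by_cases hj : j.1 = l.1 + 1
      · have e2 : del D (l.1 + 1) (sig D l.1 j) = l.castSucc := by
          apply Fin.ext
          rw [e1]
          change _ = l.1
          split_ifs <;> omega
        have e3 : j = l.succ := Fin.ext hj
        rw [e2, hl, e3]
      · have e2 : del D (l.1 + 1) (sig D l.1 j) = j := by
          apply Fin.ext
          rw [e1]
          split_ifs <;> omega
        rw [e2]
    refine h l.1 (X.map (γ.comp (del D (l.1 + 1))) y) ?_
    rw [← X.map_comp, ← h1]
    exact hy
  exact h0.injective

/-- Simplices of dimension `0` are nondegenerate. -/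
theorem nonDeg_zero {X : PS.{u}} (o : X.X 0) : NonDeg o := by
  intro n γ y _ i j _
  exact Subsingleton.elim (α := Fin 1) i j

/-- Uniqueness in the Eilenberg-Zilber lemma.  Proof: for every `l` choose a monotone section `s` of
`α` with `s (α l) = l` (`s i` = least element of the fibre for `i ≠ α l`); then
`o = X.map s (X.map α o) = X.map s (X.map α' o) = X.map (α'.comp s) o`, so `α'.comp s` is injective,
hence the identity (a monotone injective self map of `Fin (D+1)`), and `α' l = α' (s (α l)) = α l`. -/
theorem ez_unique {X : PS.{u}} {D n : ℕ} {o : X.X D} (ho : NonDeg o)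
    (α α' : Fin (n + 1) →o Fin (D + 1)) (h : Function.Surjective α)
    (he : X.map α o = X.map α' o) : α = α' := by
  classical
  refine OrderHom.ext _ _ (funext fun l => ?_)
  let s0 : Fin (D + 1) → Fin (n + 1) := fun i => if i = α l then l else Classical.choose (h i)
  have hs0 : ∀ i, α (s0 i) = i := by
    intro i
    change α (if i = α l then l else Classical.choose (h i)) = i
    split_ifs with hi
    · exact hi.symm
    · exact Classical.choose_spec (h i)
  let s : Fin (D + 1) →o Fin (n + 1) := ⟨s0, PinA_sec α s0 hs0⟩
  have hs : α.comp s = OrderHom.id := OrderHom.ext _ _ (funext hs0)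
  have h1 : o = X.map (α'.comp s) o := by
    rw [X.map_comp, ← he, ← X.map_comp, hs, X.map_id]
  have h2 := PinA_id _ (ho D (α'.comp s) o h1)
  have h3 : s (α l) = l := if_pos rfl
  have h4 := DFunLike.congr_fun h2 (α l)
  change α' (s (α l)) = α l at h4
  rw [h3] at h4
  exact h4.symm

/-- A degenerate-free simplex of top dimension only occurs in its own degeneracies.  Proof: let `s`
be a monotone section of `α`; `o = X.map s (X.map β a) = X.map (β.comp s) a`.  Write
`a = X.map γ y` (`exists_low`, `y` of dimension `n' ≤ D`); `o = X.map (γ.comp (β.comp s)) y`, the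
operator `[D] → [n']` is injective and `n' ≤ D`, so `n' = D` and it is the identity: `o = y`, and
`a = X.map γ o` with `γ` surjective. -/
theorem ez_face {X : PS.{u}} {D : ℕ} (hD : DimLe X D) {o : X.X D} (ho : NonDeg o) {m n : ℕ}
    (β : Fin (m + 1) →o Fin (n + 1)) (a : X.X n) (α : Fin (m + 1) →o Fin (D + 1))
    (h : Function.Surjective α) (he : X.map β a = X.map α o) :
    ∃ γ : Fin (n + 1) →o Fin (D + 1), Function.Surjective γ ∧ a = X.map γ o := by
  classical
  let s0 : Fin (D + 1) → Fin (m + 1) := fun i => Classical.choose (h i)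
  have hs0 : ∀ i, α (s0 i) = i := fun i => Classical.choose_spec (h i)
  let s : Fin (D + 1) →o Fin (m + 1) := ⟨s0, PinA_sec α s0 hs0⟩
  have hs : α.comp s = OrderHom.id := OrderHom.ext _ _ (funext hs0)
  have h1 : o = X.map (β.comp s) a := by
    rw [X.map_comp, he, ← X.map_comp, hs, X.map_id]
  obtain ⟨n', γ, y, hn', _, hγ, hy⟩ := exists_low hD n a
  have h2 : o = X.map (γ.comp (β.comp s)) y := by
    rw [X.map_comp, ← hy]
    exact h1
  have h3 := ho n' (γ.comp (β.comp s)) y h2
  have h4 := Fintype.card_le_of_injective _ h3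
  rw [Fintype.card_fin, Fintype.card_fin] at h4
  have h5 : n' = D := by omega
  subst h5
  rw [PinA_id _ h3, X.map_id] at h2
  exact ⟨γ, hγ, by rw [h2]; exact hy⟩

end Pool.Agent.MP_d175a7_gt
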