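import Pool.Agent.Lib.MP_d175a7_gt.Prism

/-! # The prism operator on normalised cochains -/

set_option autoImplicit false
set_option linter.unusedVariables false

namespace Pool.Agent.MP_d175a7_gt

universe u v

private theorem PrcN_sig (n a : ℕ) : sig n a = sig n (min a n) := by
  apply OrderHom.ext
  funext l
  apply Fin.ext
  have hl := l.2
  change (if l.1 ≤ a then min l.1 n else l.1 - 1) = (if l.1 ≤ min a n then min l.1 n else l.1 - 1)
  split_ifs <;> omega

private theorem PrcN_rho (n i b : ℕ) (hb : b ≤ n + 1) (h : i ≠ b) :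
    (rho (n + 2) i).comp ((del (n + 1) (b + 1)).comp (sig (n + 1) b)) = rho (n + 2) i := by
  apply OrderHom.ext
  funext l
  have hl := l.2
  change decide (i < (if (if l.1 ≤ b then min l.1 (n + 1) else l.1 - 1) < b + 1 then
    (if l.1 ≤ b then min l.1 (n + 1) else l.1 - 1) else
    (if l.1 ≤ b then min l.1 (n + 1) else l.1 - 1) + 1)) = decide (i < l.1)
  apply decide_eq_decide.2
  split_ifs <;> omega

private theorem PrcN_sig2 (n i a b : ℕ) (ha : a ≤ n) (hi : i ≤ n + 1)
    (hb : (i ≤ a ∧ b = a + 1) ∨ (a < i ∧ b = a)) :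
    ((sig n a).comp (sig (n + 1) i)).comp ((del (n + 1) (b + 1)).comp (sig (n + 1) b)) =
      (sig n a).comp (sig (n + 1) i) := by
  have key : ∀ l : Fin (n + 1 + 1 + 1), ((del (n + 1) (b + 1)) ((sig (n + 1) b) l)).1 =
      if l.1 = b + 1 then b else l.1 := by
    intro l
    have hl := l.2
    change (if (if l.1 ≤ b then min l.1 (n + 1) else l.1 - 1) < b + 1 then
      (if l.1 ≤ b then min l.1 (n + 1) else l.1 - 1) else
      (if l.1 ≤ b then min l.1 (n + 1) else l.1 - 1) + 1) = if l.1 = b + 1 then b else l.1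
    split_ifs <;> omega
  have key2 : ∀ l : Fin (n + 1 + 1 + 1), ((sig n a) ((sig (n + 1) i) l)).1 =
      (if (if l.1 ≤ i then l.1 else l.1 - 1) ≤ a then (if l.1 ≤ i then l.1 else l.1 - 1) else
        (if l.1 ≤ i then l.1 else l.1 - 1) - 1) := by
    intro l
    have hl := l.2
    change (if (if l.1 ≤ i then min l.1 (n + 1) else l.1 - 1) ≤ a then
      min (if l.1 ≤ i then min l.1 (n + 1) else l.1 - 1) n else
      (if l.1 ≤ i then min l.1 (n + 1) else l.1 - 1) - 1) = _
    split_ifs <;> omega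
  apply OrderHom.ext
  funext l
  apply Fin.ext
  have hl := l.2
  change ((sig n a) ((sig (n + 1) i) ((del (n + 1) (b + 1)) ((sig (n + 1) b) l)))).1 =
    ((sig n a) ((sig (n + 1) i) l)).1
  rw [key2, key2, key]
  split_ifs <;> omega

/-- `prc` of a cochain vanishing on degenerate simplices and over the base point is normalised.
Proof: for `x = X.map (sig n a) y` (`a ≤ n`) every `(rho (n+2) i, s_i s_a y)` is degenerate in
`Cyl X`: `i < a`: it is the degeneracy `s_(a+1)`, `i > a + 1`: `s_a`, `i = a`: `s_(a+1)`,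
`i = a + 1`: `s_a` of some simplex (namely of its face); for `a > n` note `sig n a = sig n n`.
A simplex `q` of `Cyl X` is in the image of `(Cyl X).map (sig m i)` iff
`(Cyl X).map (sig m i) ((Cyl X).map (del m (i+1)) q) = q`. -/
theorem prc_nrm {p : ℕ} {X : PS.{u}} (Ψ : CoCh p (Cyl X))
    (h : ∀ (n i : ℕ) (q : (Cyl X).X n), Ψ (n + 1) ((Cyl X).map (sig n i) q) = 0)
    (h' : ∀ (n : ℕ) (τ : Mon n), Ψ n ((τ, X.pt n) : (Cyl X).X n) = 0) : Nrm (prc Ψ) := by
  constructor
  · intro n
    refine Finset.sum_eq_zero fun i _ => ?_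
    rw [X.map_pt, h', mul_zero]
  · intro n a y
    rw [PrcN_sig]
    refine Finset.sum_eq_zero fun i hi => ?_
    rw [Finset.mem_range] at hi
    have ha : min a n ≤ n := min_le_right _ _
    obtain ⟨b, hb⟩ : ∃ b, (i ≤ min a n ∧ b = min a n + 1) ∨ (min a n < i ∧ b = min a n) := by
      rcases Nat.lt_or_ge (min a n) i with h1 | h1
      · exact ⟨_, Or.inr ⟨h1, rfl⟩⟩
      · exact ⟨_, Or.inl ⟨h1, rfl⟩⟩
    have hb1 : b ≤ n + 1 := by omega
    have hb2 : i ≠ b := by omega
    have e1 := PrcN_rho n i b hb1 hb2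
    have e2 := PrcN_sig2 n i (min a n) b ha (by omega) hb
    have e3 := h (n + 1) b ((Cyl X).map (del (n + 1) (b + 1))
      ((rho (n + 1 + 1) i, X.map (sig (n + 1) i) (X.map (sig n (min a n)) y)) :
        (Cyl X).X (n + 1 + 1)))
    rw [← (Cyl X).map_comp] at e3
    have e4 : (Cyl X).map ((del (n + 1) (b + 1)).comp (sig (n + 1) b))
        ((rho (n + 1 + 1) i, X.map (sig (n + 1) i) (X.map (sig n (min a n)) y)) :
        (Cyl X).X (n + 1 + 1)) =
        ((rho (n + 1 + 1) i, X.map (sig (n + 1) i) (X.map (sig n (min a n)) y)) :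
        (Cyl X).X (n + 1 + 1)) := by
      refine Prod.ext ?_ ?_
      · exact e1
      · change X.map ((del (n + 1) (b + 1)).comp (sig (n + 1) b))
          (X.map (sig (n + 1) i) (X.map (sig n (min a n)) y)) =
          X.map (sig (n + 1) i) (X.map (sig n (min a n)) y)
        rw [← X.map_comp (sig n (min a n)) (sig (n + 1) i), ← X.map_comp, e2]
    rw [e4] at e3
    rw [e3, mul_zero]

end Pool.Agent.MP_d175a7_gt
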