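import Pool.Agent.Lib.MP_d175a7_gt.Pr

/-! # The prism identity -/

set_option autoImplicit false
set_option linter.unusedVariables false

namespace Pool.Agent.MP_d175a7_gt

universe u v

/-- The prism operator `C^(n+1)(Δ^1 × X) → C^n(X)`. -/
def prc {p : ℕ} {X : PS.{u}} (Ψ : CoCh p (Cyl X)) : CoCh p X := fun n x =>
  ∑ i ∈ Finset.range (n + 1), (-1) ^ i *
    Ψ (n + 1) ((rho (n + 1) i, X.map (sig n i) x) : (Cyl X).X (n + 1))

private theorem Prism_row {R : Type} [CommRing R] (f : ℕ → R) {i m : ℕ} (h : i ≤ m) :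
    ∑ j ∈ Finset.range (m + 2), f j =
      ∑ j ∈ Finset.range (m + 1), (if j < i then f j else 0) +
        ∑ j ∈ Finset.range (m + 1), (if i < j then f (j + 1) else 0) + f i + f (i + 1) := by
  induction m, h using Nat.le_induction with
  | base =>
    rw [Finset.sum_range_succ _ (i + 1), Finset.sum_range_succ _ i,
      Finset.sum_range_succ (fun j => if j < i then f j else 0) i, if_neg (lt_irrefl i),
      Finset.sum_congr rfl (fun j hj => if_pos (Finset.mem_range.1 hj) :
        ∀ j ∈ Finset.range i, (if j < i then f j else 0) = f j),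
      Finset.sum_eq_zero (fun j hj => if_neg (by have := Finset.mem_range.1 hj; omega) :
        ∀ j ∈ Finset.range (i + 1), (if i < j then f (j + 1) else 0) = 0)]
    ring
  | succ m h ih =>
    rw [Finset.sum_range_succ _ (m + 2), ih, Finset.sum_range_succ _ (m + 1),
      Finset.sum_range_succ (fun j => if i < j then f (j + 1) else 0) (m + 1),
      if_neg (by omega), if_pos (by omega)]
    ring

private theorem Prism_sum {R : Type} [CommRing R] (n : ℕ) (G A : ℕ → ℕ → R) (T : ℕ → R)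
    (h1 : ∀ i j, j ≤ i → i ≤ n → G (i + 1) j = A i j)
    (h2 : ∀ i j, i < j → j ≤ n + 1 → G i (j + 1) = A i j)
    (h3 : ∀ i, i ≤ n + 1 → G i i = T i) (h4 : ∀ i, i ≤ n + 1 → G i (i + 1) = T (i + 1)) :
    ∑ i ∈ Finset.range (n + 2), (-1) ^ i * ∑ j ∈ Finset.range (n + 3), (-1) ^ j * G i j =
      T 0 - T (n + 2) - ∑ j ∈ Finset.range (n + 2), (-1) ^ j *
        ∑ i ∈ Finset.range (n + 1), (-1) ^ i * A i j := by
  have e1 : ∀ i ∈ Finset.range (n + 2),
      (-1) ^ i * ∑ j ∈ Finset.range (n + 3), (-1) ^ j * G i j =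
      (-1) ^ i * ∑ j ∈ Finset.range (n + 2), (if j < i then (-1) ^ j * G i j else 0) +
        (-1) ^ i * ∑ j ∈ Finset.range (n + 2), (if i < j then (-1) ^ (j + 1) * A i j else 0) +
        (T i - T (i + 1)) := by
    intro i hi
    have hi' : i ≤ n + 1 := by have := Finset.mem_range.1 hi; omega
    rw [Prism_row (fun j => (-1) ^ j * G i j) hi', h3 i hi', h4 i hi']
    have e2 : ∑ j ∈ Finset.range (n + 1 + 1), (if i < j then (-1) ^ (j + 1) * G i (j + 1) else 0) =
        ∑ j ∈ Finset.range (n + 2), (if i < j then (-1) ^ (j + 1) * A i j else 0) := by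
      refine Finset.sum_congr rfl fun j hj => ?_
      have hj' := Finset.mem_range.1 hj
      split_ifs with h
      · rw [h2 i j h (by omega)]
      · rfl
    rw [e2]
    have e3 : ((-1 : R) ^ i) * (-1) ^ i = 1 := by
      rw [← mul_pow]; simp
    have e4 : ((-1 : R) ^ i) * ((-1) ^ i * T i) = T i := by
      rw [← mul_assoc, e3, one_mul]
    have e5 : ((-1 : R) ^ i) * ((-1) ^ (i + 1) * T (i + 1)) = - T (i + 1) := by
      rw [pow_succ, ← mul_assoc, ← mul_assoc, e3, one_mul, neg_one_mul]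
    rw [mul_add, mul_add, mul_add, e4, e5]
    ring
  rw [Finset.sum_congr rfl e1, Finset.sum_add_distrib, Finset.sum_add_distrib,
    Finset.sum_range_sub' T (n + 2),
    Finset.sum_range_succ' (fun i => (-1 : R) ^ i *
      ∑ j ∈ Finset.range (n + 2), (if j < i then (-1) ^ j * G i j else 0)) (n + 1),
    Finset.sum_range_succ (fun i => (-1 : R) ^ i *
      ∑ j ∈ Finset.range (n + 2), (if i < j then (-1) ^ (j + 1) * A i j else 0)) (n + 1)]
  have e6 : ∑ j ∈ Finset.range (n + 2), (if j < 0 then (-1 : R) ^ j * G 0 j else 0) = 0 :=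
    Finset.sum_eq_zero fun j _ => if_neg (Nat.not_lt_zero j)
  have e7 : ∑ j ∈ Finset.range (n + 2),
      (if n + 1 < j then (-1 : R) ^ (j + 1) * A (n + 1) j else 0) = 0 :=
    Finset.sum_eq_zero fun j hj => if_neg (by have := Finset.mem_range.1 hj; omega)
  rw [e6, e7, mul_zero, mul_zero, add_zero, add_zero, ← Finset.sum_add_distrib]
  have e8 : ∀ i ∈ Finset.range (n + 1),
      (-1 : R) ^ (i + 1) *
          ∑ j ∈ Finset.range (n + 2), (if j < i + 1 then (-1) ^ j * G (i + 1) j else 0) +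
        (-1) ^ i * ∑ j ∈ Finset.range (n + 2), (if i < j then (-1) ^ (j + 1) * A i j else 0) =
      - ∑ j ∈ Finset.range (n + 2), (-1) ^ j * ((-1) ^ i * A i j) := by
    intro i hi
    have hi' := Finset.mem_range.1 hi
    rw [Finset.mul_sum, Finset.mul_sum, ← Finset.sum_add_distrib, ← Finset.sum_neg_distrib]
    refine Finset.sum_congr rfl fun j hj => ?_
    by_cases h : j < i + 1
    · rw [if_pos h, if_neg (by omega), h1 i j (by omega) (by omega)]
      ring
    · rw [if_neg h, if_pos (by omega)]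
      ring
  rw [Finset.sum_congr rfl e8, Finset.sum_neg_distrib, Finset.sum_comm]
  simp_rw [Finset.mul_sum]
  ring

private theorem Prism_r1 (n i j : ℕ) (h : j ≤ i) :
    (rho (n + 2) (i + 1)).comp (del (n + 1) j) = rho (n + 1) i := by
  ext l
  change decide (i + 1 < (if l.1 < j then l.1 else l.1 + 1)) = decide (i < l.1)
  rw [decide_eq_decide]
  split_ifs <;> omega

private theorem Prism_s1 (n i j : ℕ) (h : j ≤ i) (hi : i ≤ n) :
    (sig (n + 1) (i + 1)).comp (del (n + 1) j) = (del n j).comp (sig n i) := by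
  ext l
  have hl := l.2
  change (if (if l.1 < j then l.1 else l.1 + 1) ≤ i + 1 then
      min (if l.1 < j then l.1 else l.1 + 1) (n + 1) else
      (if l.1 < j then l.1 else l.1 + 1) - 1) =
    (if (if l.1 ≤ i then min l.1 n else l.1 - 1) < j then
      (if l.1 ≤ i then min l.1 n else l.1 - 1) else
      (if l.1 ≤ i then min l.1 n else l.1 - 1) + 1)
  split_ifs <;> omega

private theorem Prism_r2 (n i j : ℕ) (h : i < j) :
    (rho (n + 2) i).comp (del (n + 1) (j + 1)) = rho (n + 1) i := by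
  ext l
  change decide (i < (if l.1 < j + 1 then l.1 else l.1 + 1)) = decide (i < l.1)
  rw [decide_eq_decide]
  split_ifs <;> omega

private theorem Prism_s2 (n i j : ℕ) (h : i < j) (hj : j ≤ n + 1) :
    (sig (n + 1) i).comp (del (n + 1) (j + 1)) = (del n j).comp (sig n i) := by
  ext l
  have hl := l.2
  change (if (if l.1 < j + 1 then l.1 else l.1 + 1) ≤ i then
      min (if l.1 < j + 1 then l.1 else l.1 + 1) (n + 1) else
      (if l.1 < j + 1 then l.1 else l.1 + 1) - 1) =
    (if (if l.1 ≤ i then min l.1 n else l.1 - 1) < j then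
      (if l.1 ≤ i then min l.1 n else l.1 - 1) else
      (if l.1 ≤ i then min l.1 n else l.1 - 1) + 1)
  split_ifs <;> omega

/-- the simplex `[i ≤ ·]` -/
private def Prism_tr (n i : ℕ) : Mon n where
  toFun l := decide (i ≤ l.1)
  monotone' a b h := by
    have h' : a.1 ≤ b.1 := h
    by_cases h1 : i ≤ a.1
    · simp [h1, show i ≤ b.1 by omega]
    · simp [h1]

private theorem Prism_r3 (n i : ℕ) :
    (rho (n + 1) i).comp (del n i) = Prism_tr n i := by
  ext l
  change decide (i < (if l.1 < i then l.1 else l.1 + 1)) = decide (i ≤ l.1)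
  rw [decide_eq_decide]
  split_ifs <;> omega

private theorem Prism_r4 (n i : ℕ) :
    (rho (n + 1) i).comp (del n (i + 1)) = Prism_tr n (i + 1) := by
  ext l
  change decide (i < (if l.1 < i + 1 then l.1 else l.1 + 1)) = decide (i + 1 ≤ l.1)
  rw [decide_eq_decide]
  split_ifs <;> omega

private theorem Prism_s3 (n i : ℕ) (hi : i ≤ n) :
    (sig n i).comp (del n i) = OrderHom.id := by
  ext l
  have hl := l.2
  change (if (if l.1 < i then l.1 else l.1 + 1) ≤ i then
      min (if l.1 < i then l.1 else l.1 + 1) n else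
      (if l.1 < i then l.1 else l.1 + 1) - 1) = l.1
  split_ifs <;> omega

private theorem Prism_s4 (n i : ℕ) (hi : i ≤ n) :
    (sig n i).comp (del n (i + 1)) = OrderHom.id := by
  ext l
  have hl := l.2
  change (if (if l.1 < i + 1 then l.1 else l.1 + 1) ≤ i then
      min (if l.1 < i + 1 then l.1 else l.1 + 1) n else
      (if l.1 < i + 1 then l.1 else l.1 + 1) - 1) = l.1
  split_ifs <;> omega

private theorem Prism_t0 (n : ℕ) : Prism_tr n 0 = cst n true := by
  ext l
  change decide (0 ≤ l.1) = true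
  simp

private theorem Prism_t1 (n : ℕ) : Prism_tr n (n + 1) = cst n false := by
  ext l
  have hl := l.2
  change decide (n + 1 ≤ l.1) = false
  rw [decide_eq_false_iff_not]
  omega

/-- The prism identity `P δ Ψ = Ψ(1, .) - Ψ(0, .) - δ P Ψ`.
Proof: `prc (cob Ψ) (n+1) x = ∑_{i ≤ n+1} ∑_{j ≤ n+2} (-1)^(i+j) Ψ (n+1) (d_j (ρ_i, s_i x))`, where
`d_j (ρ_i, s_i x) = ((rho (n+2) i).comp (del (n+1) j), X.map (del (n+1) j) (X.map (sig (n+1) i) x))`.
For `j < i`: `= (rho (n+1) (i-1), s_(i-1) d_j x)`; `j > i + 1`: `= (rho (n+1) i, s_i d_(j-1) x)`;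
`j = i`: `= ([i - 1 < ·], x)` (`i = 0`: constant `true`), `j = i + 1`: `= ([i < ·], x)` (`i = n + 1`:
constant `false`).  The last two kinds telescope to `Ψ(true, x) - Ψ(false, x)`, the first two give
`- ∑_j (-1)^j (prc Ψ) n (d_j x)`.  All identities between monotone maps: `ext l; simp [...]` and
`omega` after unfolding `rho`, `sig`, `del` (all are given by formulas in `ℕ`). -/
theorem prism {p : ℕ} {X : PS.{u}} (Ψ : CoCh p (Cyl X)) (n : ℕ) (x : X.X (n + 1)) :
    prc (cob Ψ) (n + 1) x =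
      Ψ (n + 1) ((cst (n + 1) true, x) : (Cyl X).X (n + 1)) -
        Ψ (n + 1) ((cst (n + 1) false, x) : (Cyl X).X (n + 1)) - cob (prc Ψ) (n + 1) x := by
  have h := Prism_sum (R := ZMod p) n
    (fun i j => Ψ (n + 1) (((rho (n + 2) i).comp (del (n + 1) j),
      X.map ((sig (n + 1) i).comp (del (n + 1) j)) x) : (Cyl X).X (n + 1)))
    (fun i j => Ψ (n + 1) ((rho (n + 1) i, X.map ((del n j).comp (sig n i)) x) :
      (Cyl X).X (n + 1)))
    (fun i => Ψ (n + 1) ((Prism_tr (n + 1) i, x) : (Cyl X).X (n + 1)))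
    (fun i j hj hi => by
      rw [Prism_r1 n i j hj, Prism_s1 n i j hj hi])
    (fun i j hi hj => by
      rw [Prism_r2 n i j hi, Prism_s2 n i j hi hj])
    (fun i hi => by
      rw [Prism_r3 (n + 1) i, Prism_s3 (n + 1) i hi, X.map_id])
    (fun i hi => by
      rw [Prism_r4 (n + 1) i, Prism_s4 (n + 1) i hi, X.map_id])
  simp only [Prism_t0, Prism_t1, X.map_comp] at h
  exact h

/-- The same in degree `0`. -/
theorem prism_zero {p : ℕ} {X : PS.{u}} (Ψ : CoCh p (Cyl X)) (x : X.X 0) :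
    prc (cob Ψ) 0 x = Ψ 0 ((cst 0 true, x) : (Cyl X).X 0) - Ψ 0 ((cst 0 false, x) : (Cyl X).X 0) := by
  have e1 : prc (cob Ψ) 0 x = cob Ψ 1 ((rho 1 0, X.map (sig 0 0) x) : (Cyl X).X 1) := by
    unfold prc
    rw [Finset.sum_range_one, pow_zero, one_mul]
  have e2 : cob Ψ 1 ((rho 1 0, X.map (sig 0 0) x) : (Cyl X).X 1) =
      Ψ 0 (((rho 1 0).comp (del 0 0), X.map (del 0 0) (X.map (sig 0 0) x)) : (Cyl X).X 0) -
      Ψ 0 (((rho 1 0).comp (del 0 1), X.map (del 0 1) (X.map (sig 0 0) x)) : (Cyl X).X 0) := by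
    change ∑ i ∈ Finset.range 2, (-1) ^ i * Ψ 0 ((Cyl X).map (del 0 i) _) = _
    rw [Finset.sum_range_succ, Finset.sum_range_one, pow_zero, one_mul, pow_one, neg_one_mul,
      ← sub_eq_add_neg]
    rfl
  rw [e1, e2, ← X.map_comp, ← X.map_comp, Prism_r3 0 0, Prism_s3 0 0 le_rfl,
    Prism_r4 0 0, Prism_s4 0 0 le_rfl, X.map_id, Prism_t0, Prism_t1]

end Pool.Agent.MP_d175a7_gt
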