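import Pool.Agent.Lib.MP_d175a7_gt.V3Ring
import Pool.Agent.Lib.MP_d175a7_gt.HpbD

/-!
# The path ring spectrum of a homomorphism

For a homomorphism `ρ : e → H` of commutative orthogonal ring spectra, `Pth ρ` consists of the
pairs `(x, γ)`, `x` in `e_n` and `γ : I → H_n` a path which starts at `ρ x`, with the pointwise
operations.  `e → Pth ρ → e` are levelwise homotopy equivalences, and the evaluation at the end
point `Pth ρ → H` is a fibration.
-/

set_option autoImplicit false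
set_option linter.unusedVariables false

namespace Pool.Agent.MP_d175a7_gt

open scoped Topology unitInterval

theorem cpath_cont {T X : Type} [TopologicalSpace T] [TopologicalSpace X] {g : T → X}
    (hg : Continuous g) : Continuous fun t => cpath (g t) :=
  curry_cont _ (hg.comp continuous_fst)

theorem RSp.mulP_cont (H : RSp) {m n k : ℕ} (h : m + n = k) (γ : PathsIn (H.X m))
    (δ : PathsIn (H.X n)) : Continuous fun u => H.mul h (γ u) (δ u) :=
  H.mul_cont h I γ δ γ.continuous δ.continuous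

/-- The pointwise product of paths. -/
def RSp.mulP (H : RSp) {m n k : ℕ} (h : m + n = k) (γ : PathsIn (H.X m))
    (δ : PathsIn (H.X n)) : PathsIn (H.X k) :=
  ⟨fun u => H.mul h (γ u) (δ u), H.mulP_cont h γ δ⟩

theorem RSp.mulP_kcont (H : RSp) {m n k : ℕ} (h : m + n = k) :
    KCont₂ (H.mulP h : PathsIn (H.X m) → PathsIn (H.X n) → PathsIn (H.X k)) :=
  fun T _ _ _ g k hg hk => curry_cont _ (H.mul_cont h (T × I) (fun q => g q.1 q.2)
    (fun q => k q.1 q.2) (uncurry_cont _ hg) (uncurry_cont _ hk))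

variable {e H : RSp} (ρ : RHom e H)

/-- The condition on `(x, γ)`: `γ` starts at `ρ x`. -/
def PthMem (n : ℕ) (z : e.X n × PathsIn (H.X n)) : Prop := z.2 0 = ρ.f n z.1

/-- The points of the path ring spectrum: pairs `(x, γ)`, `γ` a path in `H_n` starting at
`ρ x`. -/
def PthX (n : ℕ) : Type := Subtype (PthMem ρ n)

/-- The topology. -/
instance PthX.top (n : ℕ) : TopologicalSpace (PthX ρ n) :=
  instTopologicalSpaceSubtype (p := PthMem ρ n)

theorem PthX.pt_mem (n : ℕ) : PthMem ρ n (e.pt n, cpath (H.pt n)) := (ρ.pt n).symm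

/-- The base points. -/
def PthX.pt (n : ℕ) : PthX ρ n := ⟨(e.pt n, cpath (H.pt n)), PthX.pt_mem ρ n⟩

theorem PthX.closed (n : ℕ) : IsClosed ({PthX.pt ρ n} : Set (PthX ρ n)) := by
  have h : ({PthX.pt ρ n} : Set (PthX ρ n)) = Subtype.val ⁻¹' (({e.pt n} : Set (e.X n)) ×ˢ
      ({cpath (H.pt n)} : Set (PathsIn (H.X n)))) := by
    ext z
    constructor
    · rintro rfl
      exact ⟨rfl, rfl⟩
    · rintro ⟨h1, h2⟩
      exact Subtype.ext (Prod.ext h1 h2)
  rw [h]
  exact ((e.closed n).prod (cpath_closed (H.closed n))).preimage continuous_subtype_val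

theorem PthX.act_mem (n : ℕ) (A : Ort n) (z : PthX ρ n) :
    PthMem ρ n (e.act n A z.1.1, H.actP n A z.1.2) := by
  change H.act n A (z.1.2 0) = ρ.f n (e.act n A z.1.1)
  rw [show z.1.2 0 = ρ.f n z.1.1 from z.2, ρ.act]

/-- The action of `O(n)`. -/
def PthX.act (n : ℕ) (A : Ort n) (z : PthX ρ n) : PthX ρ n :=
  ⟨(e.act n A z.1.1, H.actP n A z.1.2), PthX.act_mem ρ n A z⟩

theorem PthX.act_cont (n : ℕ) : KCont₂ (PthX.act ρ n) := fun T _ _ _ g h hg hh =>
  Continuous.subtype_mk ((e.act_cont n T g (fun t => (h t).1.1) hg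
    (continuous_fst.comp (continuous_subtype_val.comp hh))).prodMk
      (H.actP_kcont n T g (fun t => (h t).1.2) hg
        (continuous_snd.comp (continuous_subtype_val.comp hh)))) _

theorem PthX.act_one (n : ℕ) (z : PthX ρ n) : PthX.act ρ n 1 z = z :=
  Subtype.ext (Prod.ext (e.act_one n _) (ContinuousMap.ext fun u => H.act_one n _))

theorem PthX.act_mul (n : ℕ) (A B : Ort n) (z : PthX ρ n) :
    PthX.act ρ n (A * B) z = PthX.act ρ n A (PthX.act ρ n B z) :=
  Subtype.ext (Prod.ext (e.act_mul n _ _ _) (ContinuousMap.ext fun u => H.act_mul n _ _ _))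

theorem PthX.act_pt (n : ℕ) (A : Ort n) : PthX.act ρ n A (PthX.pt ρ n) = PthX.pt ρ n :=
  Subtype.ext (Prod.ext (e.act_pt n _) (ContinuousMap.ext fun u => H.act_pt n _))

theorem PthX.mul_mem {m n k : ℕ} (h : m + n = k) (x : PthX ρ m) (y : PthX ρ n) :
    PthMem ρ k (e.mul h x.1.1 y.1.1, H.mulP h x.1.2 y.1.2) := by
  change H.mul h (x.1.2 0) (y.1.2 0) = ρ.f k (e.mul h x.1.1 y.1.1)
  rw [show x.1.2 0 = ρ.f m x.1.1 from x.2, show y.1.2 0 = ρ.f n y.1.1 from y.2, ρ.mul]

/-- The multiplication. -/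
def PthX.mul {m n k : ℕ} (h : m + n = k) (x : PthX ρ m) (y : PthX ρ n) : PthX ρ k :=
  ⟨(e.mul h x.1.1 y.1.1, H.mulP h x.1.2 y.1.2), PthX.mul_mem ρ h x y⟩

theorem PthX.mul_cont {m n k : ℕ} (h : m + n = k) :
    KCont₂ (PthX.mul ρ h : PthX ρ m → PthX ρ n → PthX ρ k) := fun T _ _ _ g k hg hk =>
  Continuous.subtype_mk ((e.mul_cont h T (fun t => (g t).1.1) (fun t => (k t).1.1)
    (continuous_fst.comp (continuous_subtype_val.comp hg))
    (continuous_fst.comp (continuous_subtype_val.comp hk))).prodMk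
      (H.mulP_kcont h T (fun t => (g t).1.2) (fun t => (k t).1.2)
        (continuous_snd.comp (continuous_subtype_val.comp hg))
        (continuous_snd.comp (continuous_subtype_val.comp hk)))) _

theorem PthX.mul_pt {m n k : ℕ} (h : m + n = k) (x : PthX ρ m) :
    PthX.mul ρ h x (PthX.pt ρ n) = PthX.pt ρ k :=
  Subtype.ext (Prod.ext (e.mul_pt h _) (ContinuousMap.ext fun u => H.mul_pt h _))

theorem PthX.pt_mul {m n k : ℕ} (h : m + n = k) (y : PthX ρ n) :
    PthX.mul ρ h (PthX.pt ρ m) y = PthX.pt ρ k :=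
  Subtype.ext (Prod.ext (e.pt_mul h _) (ContinuousMap.ext fun u => H.pt_mul h _))

theorem PthX.mul_assoc {a b c ab bc abc : ℕ} (h₁ : a + b = ab) (h₂ : ab + c = abc)
    (h₃ : b + c = bc) (h₄ : a + bc = abc) (x : PthX ρ a) (y : PthX ρ b) (z : PthX ρ c) :
    PthX.mul ρ h₂ (PthX.mul ρ h₁ x y) z = PthX.mul ρ h₄ x (PthX.mul ρ h₃ y z) :=
  Subtype.ext (Prod.ext (e.mul_assoc h₁ h₂ h₃ h₄ _ _ _)
    (ContinuousMap.ext fun u => H.mul_assoc h₁ h₂ h₃ h₄ _ _ _))

theorem PthX.mul_act {m n k : ℕ} (h : m + n = k) (A : Ort m) (B : Ort n) (x : PthX ρ m)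
    (y : PthX ρ n) : PthX.mul ρ h (PthX.act ρ m A x) (PthX.act ρ n B y) =
      PthX.act ρ k (blk h A B) (PthX.mul ρ h x y) :=
  Subtype.ext (Prod.ext (e.mul_act h A B _ _) (ContinuousMap.ext fun u => H.mul_act h A B _ _))

theorem PthX.mul_comm {m n k : ℕ} (h : m + n = k) (h' : n + m = k) (x : PthX ρ m)
    (y : PthX ρ n) : PthX.mul ρ h' y x = PthX.act ρ k (swp h h') (PthX.mul ρ h x y) :=
  Subtype.ext (Prod.ext (e.mul_comm h h' _ _) (ContinuousMap.ext fun u => H.mul_comm h h' _ _))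

theorem PthX.unit_mem (n : ℕ) (v : Sph n) :
    PthMem ρ n (e.unit n v, cpath (H.unit n v)) := (ρ.unit n v).symm

/-- The unit maps. -/
def PthX.unit (n : ℕ) (v : Sph n) : PthX ρ n :=
  ⟨(e.unit n v, cpath (H.unit n v)), PthX.unit_mem ρ n v⟩

theorem PthX.unit_cont (n : ℕ) : Continuous (PthX.unit ρ n) :=
  Continuous.subtype_mk ((e.unit_cont n).prodMk (cpath_cont (H.unit_cont n))) _

theorem PthX.unit_pt (n : ℕ) : PthX.unit ρ n OnePoint.infty = PthX.pt ρ n :=
  Subtype.ext (Prod.ext (e.unit_pt n) (ContinuousMap.ext fun u => H.unit_pt n))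

theorem PthX.unit_act (n : ℕ) (A : Ort n) (v : Sph n) :
    PthX.unit ρ n (sact A v) = PthX.act ρ n A (PthX.unit ρ n v) :=
  Subtype.ext (Prod.ext (e.unit_act n A v) (ContinuousMap.ext fun u => H.unit_act n A v))

theorem PthX.unit_mul {m n k : ℕ} (h : m + n = k) (v : Sph m) (w : Sph n) :
    PthX.mul ρ h (PthX.unit ρ m v) (PthX.unit ρ n w) = PthX.unit ρ k (sm h v w) :=
  Subtype.ext (Prod.ext (e.unit_mul h v w) (ContinuousMap.ext fun u => H.unit_mul h v w))

theorem PthX.one_mul {n : ℕ} (h : 0 + n = n) (x : PthX ρ n) :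
    PthX.mul ρ h (PthX.unit ρ 0 (OnePoint.some 0)) x = x :=
  Subtype.ext (Prod.ext (e.one_mul h _) (ContinuousMap.ext fun u => H.one_mul h _))

theorem PthX.mul_one {n : ℕ} (h : n + 0 = n) (x : PthX ρ n) :
    PthX.mul ρ h x (PthX.unit ρ 0 (OnePoint.some 0)) = x :=
  Subtype.ext (Prod.ext (e.mul_one h _) (ContinuousMap.ext fun u => H.mul_one h _))

/-- The path ring spectrum of `ρ : e → H`. -/
def Pth {e H : RSp} (ρ : RHom e H) : RSp where
  X := PthX ρ
  top := PthX.top ρ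
  pt := PthX.pt ρ
  closed := PthX.closed ρ
  act := PthX.act ρ
  act_cont := PthX.act_cont ρ
  act_one := PthX.act_one ρ
  act_mul := PthX.act_mul ρ
  act_pt := PthX.act_pt ρ
  mul := PthX.mul ρ
  mul_cont := PthX.mul_cont ρ
  mul_pt := PthX.mul_pt ρ
  pt_mul := PthX.pt_mul ρ
  mul_assoc := PthX.mul_assoc ρ
  mul_act := PthX.mul_act ρ
  mul_comm := PthX.mul_comm ρ
  unit := PthX.unit ρ
  unit_cont := PthX.unit_cont ρ
  unit_pt := PthX.unit_pt ρ
  unit_act := PthX.unit_act ρ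
  unit_mul := PthX.unit_mul ρ
  one_mul := PthX.one_mul ρ
  mul_one := PthX.mul_one ρ

/-- The projection `Pth ρ → e`. -/
def Pth.fst : RHom (Pth ρ) e where
  f n z := z.1.1
  cont n T _ _ _ g hg := continuous_fst.comp (continuous_subtype_val.comp hg)
  pt n := rfl
  act n A x := rfl
  mul h x y := rfl
  unit n v := rfl

/-- The inclusion `e → Pth ρ`, `x ↦ (x, const)`. -/
def Pth.incl : RHom e (Pth ρ) where
  f n x := ⟨(x, cpath (ρ.f n x)), rfl⟩
  cont n T _ _ _ g hg := Continuous.subtype_mk (hg.prodMk (cpath_cont (ρ.cont n T g hg))) _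
  pt n := Subtype.ext (Prod.ext rfl (ContinuousMap.ext fun u => ρ.pt n))
  act n A x := Subtype.ext (Prod.ext rfl (ContinuousMap.ext fun u => ρ.act n A x))
  mul h x y := Subtype.ext (Prod.ext rfl (ContinuousMap.ext fun u => ρ.mul h x y))
  unit n v := Subtype.ext (Prod.ext rfl (ContinuousMap.ext fun u => ρ.unit n v))

/-- The evaluation at the point `u` of the path. -/
def Pth.evr (u : I) : RHom (Pth ρ) H where
  f n z := z.1.2 u
  cont n T _ _ _ g hg := (continuous_eval_const u).comp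
    (continuous_snd.comp (continuous_subtype_val.comp hg))
  pt n := rfl
  act n A x := rfl
  mul h x y := rfl
  unit n v := rfl

/-- The end point of the path. -/
def Pth.fibf (n : ℕ) (z : PthX ρ n) : H.X n := z.1.2 1

theorem Pth.fib_cont (n : ℕ) : KCont (Pth.fibf ρ n) := fun T _ _ _ g hg =>
  (continuous_eval_const (1 : I)).comp (continuous_snd.comp (continuous_subtype_val.comp hg))

theorem Pth.fib_pt (n : ℕ) : Pth.fibf ρ n ((Pth ρ).pt n) = H.pt n := rfl

theorem Pth.fib_act (n : ℕ) (A : Ort n) (x : (Pth ρ).X n) :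
    Pth.fibf ρ n ((Pth ρ).act n A x) = H.act n A (Pth.fibf ρ n x) := rfl

theorem Pth.fib_mul {m n k : ℕ} (h : m + n = k) (x : (Pth ρ).X m) (y : (Pth ρ).X n) :
    Pth.fibf ρ k ((Pth ρ).mul h x y) = H.mul h (Pth.fibf ρ m x) (Pth.fibf ρ n y) := rfl

theorem Pth.fib_unit (n : ℕ) (v : Sph n) : Pth.fibf ρ n ((Pth ρ).unit n v) = H.unit n v := rfl

/-- The fibration `Pth ρ → H`: the evaluation at the end point. -/
def Pth.fib : RHom (Pth ρ) H where
  f := Pth.fibf ρ
  cont := Pth.fib_cont ρ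
  pt := Pth.fib_pt ρ
  act := Pth.fib_act ρ
  mul := Pth.fib_mul ρ
  unit := Pth.fib_unit ρ

theorem Pth.evr_zero {n : ℕ} (z : (Pth ρ).X n) :
    (Pth.evr ρ 0).f n z = ρ.f n ((Pth.fst ρ).f n z) := z.2

theorem Pth.fst_incl {n : ℕ} (x : e.X n) : (Pth.fst ρ).f n ((Pth.incl ρ).f n x) = x := rfl

theorem Pth.fib_incl {n : ℕ} (x : e.X n) :
    (Pth.fib ρ).f n ((Pth.incl ρ).f n x) = ρ.f n x := rfl

/-- The homotopy fibre product `e ×_H e ×_H ⋯ ×_H e` of `f` copies of `e` over `H`: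
families of pairs `(x_i, γ_i)`, `γ_i : I → H_n` a path from `ρ x_i` to a point of `H_n`
independent of `i`. -/
def Bh (f : ℕ) : RSp := Bf (Pth ρ) H (Pth.fib ρ) f

/-- The projections `B → e`. -/
def Bh.pr {f : ℕ} (i : Fin f) : RHom (Bh ρ f) e := (Bf.pr (Pth.fib ρ) i).comp (Pth.fst ρ)

/-- The diagonal `e → B`. -/
def Bh.diag (f : ℕ) : RHom e (Bh ρ f) where
  f n x := ⟨fun _ => (Pth.incl ρ).f n x, fun _ _ => rfl⟩
  cont n T _ _ _ g hg := Continuous.subtype_mk
    (continuous_pi fun _ => (Pth.incl ρ).cont n T g hg) _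
  pt n := Subtype.ext (funext fun _ => (Pth.incl ρ).pt n)
  act n A x := Subtype.ext (funext fun _ => (Pth.incl ρ).act n A x)
  mul h x y := Subtype.ext (funext fun _ => (Pth.incl ρ).mul h x y)
  unit n v := Subtype.ext (funext fun _ => (Pth.incl ρ).unit n v)

theorem Bh.pr_diag {f : ℕ} (i : Fin f) {n : ℕ} (x : e.X n) :
    (Bh.pr ρ i).f n ((Bh.diag ρ f).f n x) = x := rfl

end Pool.Agent.MP_d175a7_gt
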