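import Pool.Agent.Lib.MP_d175a7_gt.Spec

/-!
# Composition of homomorphisms of commutative orthogonal ring spectra
-/

set_option autoImplicit false
set_option linter.unusedVariables false

namespace Pool.Agent.MP_d175a7_gt

open scoped Topology unitInterval

/-- The identity. -/
def RHom.id (R : RSp) : RHom R R where
  f n x := x
  cont n T _ _ _ g hg := hg
  pt n := rfl
  act n A x := rfl
  mul h x y := rfl
  unit n v := rfl

section Comp

variable {R S T : RSp} (φ : RHom R S) (ψ : RHom S T)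

theorem RHom.comp_cont (n : ℕ) : KCont fun x : R.X n => ψ.f n (φ.f n x) :=
  fun T _ _ _ g hg => ψ.cont n T (fun t => φ.f n (g t)) (φ.cont n T g hg)

theorem RHom.comp_pt (n : ℕ) : ψ.f n (φ.f n (R.pt n)) = T.pt n := by rw [φ.pt, ψ.pt]

theorem RHom.comp_act (n : ℕ) (A : Ort n) (x : R.X n) :
    ψ.f n (φ.f n (R.act n A x)) = T.act n A (ψ.f n (φ.f n x)) := by rw [φ.act, ψ.act]

theorem RHom.comp_mul {m n k : ℕ} (h : m + n = k) (x : R.X m) (y : R.X n) :
    ψ.f k (φ.f k (R.mul h x y)) = T.mul h (ψ.f m (φ.f m x)) (ψ.f n (φ.f n y)) := by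
  rw [φ.mul, ψ.mul]

theorem RHom.comp_unit (n : ℕ) (v : Sph n) : ψ.f n (φ.f n (R.unit n v)) = T.unit n v := by
  rw [φ.unit, ψ.unit]

/-- Composition: first `φ`, then `ψ`. -/
def RHom.comp : RHom R T where
  f n x := ψ.f n (φ.f n x)
  cont := RHom.comp_cont φ ψ
  pt := RHom.comp_pt φ ψ
  act := RHom.comp_act φ ψ
  mul := RHom.comp_mul φ ψ
  unit := RHom.comp_unit φ ψ

end Comp

/-- The iterates of an endomorphism. -/
def RHom.iter {R : RSp} (θ : RHom R R) : ℕ → RHom R R
  | 0 => RHom.id R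
  | i + 1 => (θ.iter i).comp θ

end Pool.Agent.MP_d175a7_gt
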