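import Pool.Agent.Lib.MP_d175a7_gt.Mod

/-! # Restriction of scalars -/

set_option autoImplicit false
set_option linter.unusedVariables false

namespace Pool.Agent.MP_d175a7_gt

open scoped Topology unitInterval

section Res

variable {R S : RSp} (φ : RHom R S) (P : MSp S)

/-- The restricted action. -/
def MSp.resSmul {m n k : ℕ} (h : m + n = k) (r : R.X m) (x : P.X n) : P.X k :=
  P.smul h (φ.f m r) x

theorem MSp.resSmul_cont {m n k : ℕ} (h : m + n = k) :
    KCont₂ (MSp.resSmul φ P h : R.X m → P.X n → P.X k) := fun T _ _ _ g f hg hf =>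
  P.smul_cont h T (fun t => φ.f m (g t)) f (φ.cont m T g hg) hf

theorem MSp.resSmul_pt {m n k : ℕ} (h : m + n = k) (r : R.X m) :
    MSp.resSmul φ P h r (P.pt n) = P.pt k := P.smul_pt h _

theorem MSp.res_pt_smul {m n k : ℕ} (h : m + n = k) (y : P.X n) :
    MSp.resSmul φ P h (R.pt m) y = P.pt k := by
  unfold MSp.resSmul
  rw [φ.pt]
  exact P.pt_smul h y

theorem MSp.resSmul_assoc {a b c ab bc abc : ℕ} (h₁ : a + b = ab) (h₂ : ab + c = abc)
    (h₃ : b + c = bc) (h₄ : a + bc = abc) (x : R.X a) (y : R.X b) (z : P.X c) :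
    MSp.resSmul φ P h₂ (R.mul h₁ x y) z =
      MSp.resSmul φ P h₄ x (MSp.resSmul φ P h₃ y z) := by
  unfold MSp.resSmul
  rw [φ.mul]
  exact P.smul_assoc h₁ h₂ h₃ h₄ _ _ _

theorem MSp.resSmul_act {m n k : ℕ} (h : m + n = k) (A : Ort m) (B : Ort n) (x : R.X m)
    (y : P.X n) : MSp.resSmul φ P h (R.act m A x) (P.act n B y) =
      P.act k (blk h A B) (MSp.resSmul φ P h x y) := by
  unfold MSp.resSmul
  rw [φ.act]
  exact P.smul_act h A B _ _

theorem MSp.res_one_smul {n : ℕ} (h : 0 + n = n) (x : P.X n) :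
    MSp.resSmul φ P h (R.unit 0 (OnePoint.some 0)) x = x := by
  unfold MSp.resSmul
  rw [φ.unit]
  exact P.one_smul h x

end Res

/-- Restriction of scalars along a homomorphism of ring spectra. -/
def MSp.res {R S : RSp} (φ : RHom R S) (P : MSp S) : MSp R where
  toOSeq := P.toOSeq
  smul := MSp.resSmul φ P
  smul_cont := MSp.resSmul_cont φ P
  smul_pt := MSp.resSmul_pt φ P
  pt_smul := MSp.res_pt_smul φ P
  smul_assoc := MSp.resSmul_assoc φ P
  smul_act := MSp.resSmul_act φ P
  one_smul := MSp.res_one_smul φ P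

end Pool.Agent.MP_d175a7_gt
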