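import Pool.Agent.Lib.MP_d175a7_gt.Cat
import Pool.Agent.Lib.MP_d175a7_gt.ResD

/-! # Restriction of scalars -/

set_option autoImplicit false
set_option linter.unusedVariables false

namespace Pool.Agent.MP_d175a7_gt

open scoped Topology unitInterval

theorem MHom.res_smul {R S : RSp} (φ : RHom R S) {P Q : MSp S} (f : MHom P Q)
    {m n k : ℕ} (h : m + n = k) (r : R.X m) (x : P.X n) :
    f.f k ((P.res φ).smul h r x) = (Q.res φ).smul h r (f.f n x) := f.smul h _ x

/-- Restriction of scalars of homomorphisms. -/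
def MHom.res {R S : RSp} (φ : RHom R S) {P Q : MSp S} (f : MHom P Q) :
    MHom (P.res φ) (Q.res φ) where
  f := f.f
  cont := f.cont
  pt := f.pt
  act := f.act
  smul := f.res_smul φ

theorem MSp.seq_res {R S : RSp} (φ : RHom R S) (P : MSp S) : (P.res φ).seq = P.seq := by
  have h : (fun (n : ℕ) (s : I) (x : P.X n) =>
      P.smul (Nat.add_comm 1 n) (φ.f 1 (R.unit 1 (lam s))) x) =
      fun n s x => P.smul (Nat.add_comm 1 n) (S.unit 1 (lam s)) x := by
    funext n s x
    rw [φ.unit]
  unfold MSp.seq
  congr 1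

theorem SHom.isWeq_congr {P P' Q Q' : Seq} (hP : P = P') (hQ : Q = Q') (f : SHom P Q)
    (f' : SHom P' Q') (hf : HEq f.f f'.f) : f.IsWeq ↔ f'.IsWeq := by
  subst hP; subst hQ
  have h : f = f' := by
    cases f; cases f'
    congr
    exact eq_of_heq hf
  rw [h]

/-- Restriction of scalars does not change weak equivalences. -/
theorem MHom.res_isWeq {R S : RSp} (φ : RHom R S) {P Q : MSp S} {f : MHom P Q}
    (hf : f.IsWeq) : (f.res φ).IsWeq :=
  (SHom.isWeq_congr (P.seq_res φ) (Q.seq_res φ) (f.res φ).sh f.sh HEq.rfl).2 hf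

/-- The free module of rank one. -/
def freeOne (R : RSp) : MHom (free R 1) R.self where
  f n x := x 0
  cont n T _ _ _ g hg := (continuous_apply 0).comp hg
  pt n := rfl
  act n A x := rfl
  smul h r x := rfl

/-- The inverse of `freeOne`. -/
def oneFree (R : RSp) : MHom R.self (free R 1) where
  f n x := fun _ => x
  cont n T _ _ _ g hg := continuous_pi fun _ => hg
  pt n := rfl
  act n A x := rfl
  smul h r x := rfl

theorem freeOne_isWeq (R : RSp) : (freeOne R).IsWeq :=
  isWeq_of_inv _ (oneFree R).sh (fun n x => funext fun i => by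
    rw [Subsingleton.elim i 0]; rfl) (fun n y => rfl)

theorem oneFree_isWeq (R : RSp) : (oneFree R).IsWeq :=
  isWeq_of_inv _ (freeOne R).sh (fun n y => rfl) (fun n x => funext fun i => by
    rw [Subsingleton.elim i 0]; rfl)

/-- A module with a weak equivalence from the ring is a free object of rank one. -/
def FreeObj.ofWeq {R : RSp} (P : MSp R) (f : MHom R.self P) (hf : f.IsWeq) : FreeObj R where
  P := P
  r := 1
  P' := free R 1
  P'' := P
  α := MHom.id _
  β := (freeOne R).comp f
  γ := MHom.id _
  hα := MHom.isWeq_id _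
  hβ := MHom.isWeq_comp (freeOne_isWeq R) hf
  hγ := MHom.isWeq_id _

end Pool.Agent.MP_d175a7_gt
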