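import Pool.Agent.Lib.MP_d175a7_gt.BarD

/-!
# Suspensions, homotopy classes, chains of pointed simplicial sets: definitions
-/

set_option autoImplicit false
set_option linter.unusedVariables false

namespace Pool.Agent.MP_d175a7_gt

universe u v w

/-! ### Pointed maps, suspensions, homotopy classes -/

/-- A pointed simplicial map. -/
structure PMap (X : PS.{u}) (Y : PS.{v}) where
  /-- the maps -/
  f : ∀ n, X.X n → Y.X n
  nat : ∀ {m n : ℕ} (α : Fin (m + 1) →o Fin (n + 1)) (x : X.X n),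
    f m (X.map α x) = Y.map α (f n x)
  pt : ∀ n, f n (X.pt n) = Y.pt n

/-- Composition: first `f`, then `g`. -/
def PMap.comp {X : PS.{u}} {Y : PS.{v}} {Z : PS.{w}} (f : PMap X Y) (g : PMap Y Z) :
    PMap X Z where
  f n x := g.f n (f.f n x)
  nat α x := by rw [f.nat, g.nat]
  pt n := by rw [f.pt, g.pt]

/-- The `n`-simplices of `Δ^1`. -/
abbrev Mon (n : ℕ) : Type := Fin (n + 1) →o Bool

/-- The constant simplices of `Δ^1`. -/
def cst (n : ℕ) (b : Bool) : Mon n := ⟨fun _ => b, fun _ _ _ => le_rfl⟩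

/-- A simplex of `Δ^1` is constant: it lies in `∂Δ^1`. -/
def IsCst {n : ℕ} (τ : Mon n) : Prop := ∀ i j, τ i = τ j

/-- The simplices of `(Δ^1)^k × X` lying in `∂(Δ^1)^k × X` or `(Δ^1)^k × pt`. -/
def Bad (k : ℕ) (X : PS.{u}) (n : ℕ) (q : (Fin k → Mon n) × X.X n) : Prop :=
  (∃ i, IsCst (q.1 i)) ∨ q.2 = X.pt n

theorem Bad.pull {k : ℕ} {X : PS.{u}} {m n : ℕ} (α : Fin (m + 1) →o Fin (n + 1))
    {q : (Fin k → Mon n) × X.X n} (h : Bad k X n q) :
    Bad k X m (fun i => (q.1 i).comp α, X.map α q.2) := by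
  rcases h with ⟨i, hi⟩ | h
  · exact Or.inl ⟨i, fun a b => hi _ _⟩
  · right
    change X.map α q.2 = X.pt m
    rw [h, X.map_pt]

/-- Two simplices of `(Δ^1)^k × X` are identified if they are equal or both collapsed. -/
def suspSetoid (k : ℕ) (X : PS.{u}) (n : ℕ) : Setoid ((Fin k → Mon n) × X.X n) where
  r a b := a = b ∨ (Bad k X n a ∧ Bad k X n b)
  iseqv :=
    { refl := fun a => Or.inl rfl
      symm := by
        rintro a b (h | ⟨h, h'⟩)
        · exact Or.inl h.symm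
        · exact Or.inr ⟨h', h⟩
      trans := by
        rintro a b c (rfl | ⟨h, h'⟩) (rfl | ⟨g, g'⟩)
        · exact Or.inl rfl
        · exact Or.inr ⟨g, g'⟩
        · exact Or.inr ⟨h, h'⟩
        · exact Or.inr ⟨h, g'⟩ }

/-- The simplicial operators of `(Δ^1)^k × X`. -/
abbrev suspOp (k : ℕ) (X : PS.{u}) {m n : ℕ} (α : Fin (m + 1) →o Fin (n + 1))
    (q : (Fin k → Mon n) × X.X n) : (Fin k → Mon m) × X.X m :=
  (fun i => (q.1 i).comp α, X.map α q.2)

theorem suspOp_rel (k : ℕ) (X : PS.{u}) {m n : ℕ} (α : Fin (m + 1) →o Fin (n + 1)) :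
    ∀ a b, (suspSetoid k X n) a b → (suspSetoid k X m) (suspOp k X α a) (suspOp k X α b) := by
  rintro a b (rfl | ⟨h, h'⟩)
  · exact Or.inl rfl
  · exact Or.inr ⟨h.pull α, h'.pull α⟩

/-- The `n`-simplices of the suspension. -/
abbrev SuspX (k : ℕ) (X : PS.{u}) (n : ℕ) : Type u := Quotient (suspSetoid k X n)

/-- The simplicial operators of the suspension. -/
abbrev suspMap (k : ℕ) (X : PS.{u}) {m n : ℕ} (α : Fin (m + 1) →o Fin (n + 1)) :
    SuspX k X n → SuspX k X m :=
  Quotient.map (suspOp k X α) (suspOp_rel k X α)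

/-- The base point of the suspension. -/
abbrev suspPt (k : ℕ) (X : PS.{u}) (n : ℕ) : SuspX k X n :=
  Quotient.mk _ (fun _ => cst n false, X.pt n)

theorem suspMap_id (k : ℕ) (X : PS.{u}) {n : ℕ} (x : SuspX k X n) :
    suspMap k X OrderHom.id x = x := by
  induction x using Quotient.inductionOn with
  | h q => exact congrArg (Quotient.mk (suspSetoid k X n)) (Prod.ext rfl (X.map_id q.2))

theorem suspMap_comp (k : ℕ) (X : PS.{u}) {l m n : ℕ} (α : Fin (m + 1) →o Fin (n + 1))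
    (β : Fin (l + 1) →o Fin (m + 1)) (x : SuspX k X n) :
    suspMap k X (α.comp β) x = suspMap k X β (suspMap k X α x) := by
  induction x using Quotient.inductionOn with
  | h q =>
    exact congrArg (Quotient.mk (suspSetoid k X l)) (Prod.ext rfl (X.map_comp α β q.2))

theorem suspMap_pt (k : ℕ) (X : PS.{u}) {m n : ℕ} (α : Fin (m + 1) →o Fin (n + 1)) :
    suspMap k X α (suspPt k X n) = suspPt k X m :=
  congrArg (Quotient.mk (suspSetoid k X m)) (Prod.ext rfl (X.map_pt α))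

/-- The `k`-fold reduced suspension `Σ^k X = (Δ^1)^k × X / (∂(Δ^1)^k × X ∪ (Δ^1)^k × pt)`. -/
def Susp (k : ℕ) (X : PS.{u}) : PS.{u} where
  X := SuspX k X
  map := suspMap k X
  map_id := suspMap_id k X
  map_comp := suspMap_comp k X
  pt := suspPt k X
  map_pt := suspMap_pt k X

/-- The suspension of a map, on representatives. -/
abbrev suspF (k : ℕ) {X : PS.{u}} {Y : PS.{v}} (f : PMap X Y) (n : ℕ)
    (q : (Fin k → Mon n) × X.X n) : (Fin k → Mon n) × Y.X n := (q.1, f.f n q.2)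

theorem suspF_rel (k : ℕ) {X : PS.{u}} {Y : PS.{v}} (f : PMap X Y) (n : ℕ) :
    ∀ a b, (suspSetoid k X n) a b → (suspSetoid k Y n) (suspF k f n a) (suspF k f n b) := by
  rintro a b (rfl | ⟨h, h'⟩)
  · exact Or.inl rfl
  · refine Or.inr ⟨h.imp_right fun e => ?_, h'.imp_right fun e => ?_⟩
    · change f.f n a.2 = Y.pt n; rw [e, f.pt]
    · change f.f n b.2 = Y.pt n; rw [e, f.pt]

/-- The suspension of a map, in degree `n`. -/
abbrev suspMp (k : ℕ) {X : PS.{u}} {Y : PS.{v}} (f : PMap X Y) (n : ℕ) :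
    SuspX k X n → SuspX k Y n := Quotient.map (suspF k f n) (suspF_rel k f n)

theorem suspMp_nat (k : ℕ) {X : PS.{u}} {Y : PS.{v}} (f : PMap X Y) {m n : ℕ}
    (α : Fin (m + 1) →o Fin (n + 1)) (x : SuspX k X n) :
    suspMp k f m (suspMap k X α x) = suspMap k Y α (suspMp k f n x) := by
  induction x using Quotient.inductionOn with
  | h q => exact congrArg (Quotient.mk (suspSetoid k Y m)) (Prod.ext rfl (f.nat α q.2))

theorem suspMp_pt (k : ℕ) {X : PS.{u}} {Y : PS.{v}} (f : PMap X Y) (n : ℕ) :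
    suspMp k f n (suspPt k X n) = suspPt k Y n :=
  congrArg (Quotient.mk (suspSetoid k Y n)) (Prod.ext rfl (f.pt n))

/-- The suspension of a map. -/
def Susp.pmap (k : ℕ) {X : PS.{u}} {Y : PS.{v}} (f : PMap X Y) : PMap (Susp k X) (Susp k Y) where
  f := suspMp k f
  nat := suspMp_nat k f
  pt := suspMp_pt k f

/-- A pointed homotopy from `f` to `g`. -/
structure Hty {X : PS.{u}} {Y : PS.{v}} (f g : PMap X Y) where
  /-- the homotopy `Δ^1 × X → Y` -/
  h : ∀ n, Mon n → X.X n → Y.X n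
  nat : ∀ {m n : ℕ} (α : Fin (m + 1) →o Fin (n + 1)) (τ : Mon n) (x : X.X n),
    h m (τ.comp α) (X.map α x) = Y.map α (h n τ x)
  pt : ∀ n τ, h n τ (X.pt n) = Y.pt n
  zero : ∀ n x, h n (cst n false) x = f.f n x
  one : ∀ n x, h n (cst n true) x = g.f n x

/-- Pointed homotopy classes of maps (for `Y` a Kan complex, e.g. a simplicial group). -/
def Cls (X : PS.{u}) (Y : PS.{v}) : Type (max u v) :=
  Quot fun f g : PMap X Y => Nonempty (Hty f g)

/-- Precomposition with a map. -/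
def Cls.pre {X : PS.{u}} {X' : PS.{w}} {Y : PS.{v}} (a : PMap X' X) : Cls X Y → Cls X' Y :=
  Quot.map (fun f => a.comp f) (by
    rintro f g ⟨H⟩
    exact ⟨{ h := fun n τ x => H.h n τ (a.f n x)
             nat := fun α τ x => by rw [a.nat, H.nat]
             pt := fun n τ => by rw [a.pt, H.pt]
             zero := fun n x => H.zero n _
             one := fun n x => H.one n _ }⟩)

/-! ### Chains and cochains mod `p` -/

/-- The `i`-th face inclusion `[n] → [n+1]` (it omits `i`). -/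
def del (n i : ℕ) : Fin (n + 1) →o Fin (n + 1 + 1) where
  toFun l := ⟨if l.1 < i then l.1 else l.1 + 1, by split_ifs <;> omega⟩
  monotone' a b h := by
    have h' : a.1 ≤ b.1 := h
    change (if a.1 < i then a.1 else a.1 + 1) ≤ (if b.1 < i then b.1 else b.1 + 1)
    split_ifs <;> omega

/-- The `i`-th degeneracy `[n+1] → [n]`, `i ≤ n` (it takes the value `i` twice). -/
def sig (n i : ℕ) : Fin (n + 1 + 1) →o Fin (n + 1) where
  toFun l := ⟨if l.1 ≤ i then min l.1 n else l.1 - 1, by split_ifs <;> omega⟩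
  monotone' a b h := by
    have h' : a.1 ≤ b.1 := h
    change (if a.1 ≤ i then min a.1 n else a.1 - 1) ≤ (if b.1 ≤ i then min b.1 n else b.1 - 1)
    split_ifs <;> omega

/-- Finite formal sums of simplices with coefficients in `F_p`. -/
abbrev Ch (p : ℕ) (X : PS.{u}) : Type u := (Σ n : ℕ, X.X n) →₀ ZMod p

/-- Cochains with coefficients in `F_p`. -/
abbrev CoCh (p : ℕ) (X : PS.{u}) : Type u := ∀ n : ℕ, X.X n → ZMod p

/-- Evaluation of a cochain on a chain. -/
noncomputable def ev {p : ℕ} {X : PS.{u}} (ψ : CoCh p X) (z : Ch p X) : ZMod p :=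
  z.sum fun q c => c * ψ q.1 q.2

/-- The coboundary. -/
def cob {p : ℕ} {X : PS.{u}} (ψ : CoCh p X) : CoCh p X
  | 0, _ => 0
  | n + 1, x => ∑ i ∈ Finset.range (n + 2), (-1) ^ i * ψ n (X.map (del n i) x)

/-- Normalised (reduced) cochains: they vanish on the base point and on degenerate simplices. -/
def Nrm {p : ℕ} {X : PS.{u}} (ψ : CoCh p X) : Prop :=
  (∀ n, ψ n (X.pt n) = 0) ∧ ∀ (n i : ℕ) (y : X.X n), ψ (n + 1) (X.map (sig n i) y) = 0

/-- Cocycles. -/
def IsCoc {p : ℕ} {X : PS.{u}} (ψ : CoCh p X) : Prop := ∀ n x, cob ψ n x = 0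

/-- `z` is a cycle modulo degenerate simplices and the base point: the coboundaries of all
normalised cochains vanish on it. -/
def IsCyc {p : ℕ} {X : PS.{u}} (z : Ch p X) : Prop := ∀ ψ : CoCh p X, Nrm ψ → ev (cob ψ) z = 0

/-- `z` is homogeneous of degree `N`. -/
def IsHom {p : ℕ} {X : PS.{u}} (N : ℕ) (z : Ch p X) : Prop := ∀ q, z q ≠ 0 → q.1 = N

/-- `H_N(X; F_p) ≠ 0` (reduced homology): there are a cycle and a cocycle with nonzero pairing. -/
def HNe (p : ℕ) (X : PS.{u}) (N : ℕ) : Prop :=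
  ∃ z : Ch p X, IsHom N z ∧ IsCyc z ∧ ∃ ψ : CoCh p X, Nrm ψ ∧ IsCoc ψ ∧ ev ψ z ≠ 0

/-- `H_N(s; F_p)` is surjective: every cycle of `Y` of degree `N` has the same pairing with all
cocycles as the image of a cycle of `X`. -/
def HSur (p : ℕ) {X : PS.{u}} {Y : PS.{v}} (s : PMap X Y) (N : ℕ) : Prop :=
  ∀ z : Ch p Y, IsHom N z → IsCyc z → ∃ z' : Ch p X, IsHom N z' ∧ IsCyc z' ∧
    ∀ ψ : CoCh p Y, Nrm ψ → IsCoc ψ → ev (fun n x => ψ n (s.f n x)) z' = ev ψ z

/-- `X` has dimension at most `D`: all simplices of dimension `> D` are degenerate. -/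
def DimLe (X : PS.{u}) (D : ℕ) : Prop :=
  ∀ n, D ≤ n → ∀ x : X.X (n + 1), ∃ (i : ℕ) (y : X.X n), x = X.map (sig n i) y

end Pool.Agent.MP_d175a7_gt
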