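import Pool.Agent.Lib.MP_d175a7_gt.Bar
import Pool.Agent.Lib.MP_d175a7_gt.SimpD

/-!
# Suspensions: representatives
-/

set_option autoImplicit false
set_option linter.unusedVariables false

namespace Pool.Agent.MP_d175a7_gt

universe u v w

/-- The class of `(τ, x)` in `Σ^k X`. -/
def Susp.mk {k : ℕ} {X : PS.{u}} {n : ℕ} (τ : Fin k → Mon n) (x : X.X n) : (Susp k X).X n :=
  Quotient.mk (suspSetoid k X n) (τ, x)

theorem Susp.map_mk {k : ℕ} {X : PS.{u}} {m n : ℕ} (α : Fin (m + 1) →o Fin (n + 1))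
    (τ : Fin k → Mon n) (x : X.X n) :
    (Susp k X).map α (Susp.mk τ x) = Susp.mk (fun i => (τ i).comp α) (X.map α x) := rfl

theorem Susp.mk_bad {k : ℕ} {X : PS.{u}} {n : ℕ} {τ : Fin k → Mon n} {x : X.X n}
    (h : Bad k X n (τ, x)) : (Susp.mk τ x : (Susp k X).X n) = (Susp k X).pt n :=
  Quotient.sound (Or.inr ⟨h, Or.inr rfl⟩)

end Pool.Agent.MP_d175a7_gt
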