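import Mathlib

/-!
# Orthogonal ring spectra and their modules

Spaces are topological spaces; maps between them are the `k`-continuous maps (continuous on all
compact Hausdorff probes), so that the category of spaces is the category of compactly generated
spaces.  Base points are closed.  A commutative orthogonal ring spectrum is given by its levels
`X n` with `O(n)`-action, multiplications `X m ∧ X n → X (m + n)` and units `S^n → X n`.
Weak equivalences are the `π_*`-isomorphisms.
-/

set_option autoImplicit false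
set_option linter.unusedSimpArgs false

namespace Pool.Agent.MP_d175a7_gt

open scoped Topology unitInterval

/-! ### Compactly generated spaces -/

/-- `k`-continuity: continuity on all compact Hausdorff probes. -/
def KCont {X Y : Type} [TopologicalSpace X] [TopologicalSpace Y] (f : X → Y) : Prop :=
  ∀ (T : Type) [TopologicalSpace T] [CompactSpace T] [T2Space T] (g : T → X),
    Continuous g → Continuous fun t => f (g t)

/-- `k`-continuity of a map of two variables. -/
def KCont₂ {X Y Z : Type} [TopologicalSpace X] [TopologicalSpace Y] [TopologicalSpace Z]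
    (f : X → Y → Z) : Prop :=
  ∀ (T : Type) [TopologicalSpace T] [CompactSpace T] [T2Space T] (g : T → X) (h : T → Y),
    Continuous g → Continuous h → Continuous fun t => f (g t) (h t)

/-! ### Orthogonal groups and spheres -/

/-- The orthogonal group `O(n)`. -/
abbrev Ort (n : ℕ) : Type := ↥(Matrix.orthogonalGroup (Fin n) ℝ)

/-- `Fin m ⊕ Fin n ≃ Fin k` for `m + n = k`, in the obvious order. -/
def sumFin {m n k : ℕ} (h : m + n = k) : Fin m ⊕ Fin n ≃ Fin k :=
  finSumFinEquiv.trans (finCongr h)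

/-- The block sum `O(m) × O(n) → O(k)`, `m + n = k`. -/
def blk {m n k : ℕ} (h : m + n = k) (A : Ort m) (B : Ort n) : Ort k :=
  ⟨Matrix.reindex (sumFin h) (sumFin h) (Matrix.fromBlocks A.1 0 0 B.1), by
    rw [Matrix.mem_orthogonalGroup_iff]
    have hA := (Matrix.mem_orthogonalGroup_iff (Fin m) ℝ).1 A.2
    have hB := (Matrix.mem_orthogonalGroup_iff (Fin n) ℝ).1 B.2
    rw [Matrix.reindex_apply, Matrix.transpose_submatrix, Matrix.fromBlocks_transpose,
      Matrix.submatrix_mul_equiv, Matrix.fromBlocks_multiply]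
    simp only [Matrix.transpose_zero, Matrix.mul_zero, Matrix.zero_mul, add_zero, zero_add,
      hA, hB, Matrix.fromBlocks_one, Matrix.submatrix_one_equiv]⟩

/-- The block permutation `ℝ^m ⊕ ℝ^n → ℝ^n ⊕ ℝ^m`, `(v, w) ↦ (w, v)`, as an element of `O(k)`. -/
def swp {m n k : ℕ} (h : m + n = k) (h' : n + m = k) : Ort k :=
  ⟨Matrix.reindex (sumFin h') (sumFin h) (Matrix.fromBlocks 0 1 1 0), by
    rw [Matrix.mem_orthogonalGroup_iff]
    rw [Matrix.reindex_apply, Matrix.transpose_submatrix, Matrix.fromBlocks_transpose,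
      Matrix.submatrix_mul_equiv, Matrix.fromBlocks_multiply]
    simp only [Matrix.transpose_zero, Matrix.transpose_one, Matrix.mul_zero, Matrix.zero_mul,
      add_zero, zero_add, Matrix.mul_one, Matrix.fromBlocks_one, Matrix.submatrix_one_equiv]⟩

/-- The sphere `S^n`, the one point compactification of `ℝ^n`. -/
abbrev Sph (n : ℕ) : Type := OnePoint (Fin n → ℝ)

/-- The action of `O(n)` on `S^n`. -/
def sact {n : ℕ} (A : Ort n) (v : Sph n) : Sph n := v.map (fun x => A.1.mulVec x)

/-- The homeomorphism `S^m ∧ S^n → S^k`, `m + n = k`, `(v, w) ↦ (v, w)`. -/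
def sm {m n k : ℕ} (h : m + n = k) : Sph m → Sph n → Sph k
  | OnePoint.some v, OnePoint.some w =>
      OnePoint.some (fun i => Sum.elim v w ((sumFin h).symm i))
  | OnePoint.infty, _ => OnePoint.infty
  | OnePoint.some _, OnePoint.infty => OnePoint.infty

/-- The quotient map `I → S^1 = ℝ ∪ {∞}`, `s ↦ (2 s - 1) / (s (1 - s))`, `0, 1 ↦ ∞`. -/
noncomputable def lam (s : I) : Sph 1 :=
  open scoped Classical in
  if s = 0 ∨ s = 1 then OnePoint.infty
  else OnePoint.some (fun _ => (2 * (s : ℝ) - 1) / ((s : ℝ) * (1 - (s : ℝ))))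

/-! ### Orthogonal ring spectra and modules -/

/-- A sequence of based spaces with `O(n)`-actions. -/
structure OSeq where
  /-- the `n`-th space -/
  X : ℕ → Type
  [top : ∀ n, TopologicalSpace (X n)]
  /-- base points -/
  pt : ∀ n, X n
  closed : ∀ n, IsClosed ({pt n} : Set (X n))
  /-- the action of `O(n)` -/
  act : ∀ n, Ort n → X n → X n
  act_cont : ∀ n, KCont₂ (act n)
  act_one : ∀ n x, act n 1 x = x
  act_mul : ∀ n A B x, act n (A * B) x = act n A (act n B x)
  act_pt : ∀ n A, act n A (pt n) = pt n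

attribute [instance] OSeq.top

/-- A commutative orthogonal ring spectrum. -/
structure RSp extends OSeq where
  /-- the multiplications `X m ∧ X n → X k`, `m + n = k` -/
  mul : ∀ {m n k : ℕ}, m + n = k → X m → X n → X k
  mul_cont : ∀ {m n k : ℕ} (h : m + n = k), KCont₂ (mul h)
  mul_pt : ∀ {m n k : ℕ} (h : m + n = k) (x : X m), mul h x (pt n) = pt k
  pt_mul : ∀ {m n k : ℕ} (h : m + n = k) (y : X n), mul h (pt m) y = pt k
  mul_assoc : ∀ {a b c ab bc abc : ℕ} (h₁ : a + b = ab) (h₂ : ab + c = abc) (h₃ : b + c = bc)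
    (h₄ : a + bc = abc) (x : X a) (y : X b) (z : X c),
    mul h₂ (mul h₁ x y) z = mul h₄ x (mul h₃ y z)
  mul_act : ∀ {m n k : ℕ} (h : m + n = k) (A : Ort m) (B : Ort n) (x : X m) (y : X n),
    mul h (act m A x) (act n B y) = act k (blk h A B) (mul h x y)
  mul_comm : ∀ {m n k : ℕ} (h : m + n = k) (h' : n + m = k) (x : X m) (y : X n),
    mul h' y x = act k (swp h h') (mul h x y)
  /-- the unit maps `S^n → X n` -/
  unit : ∀ n, Sph n → X n
  unit_cont : ∀ n, Continuous (unit n)
  unit_pt : ∀ n, unit n OnePoint.infty = pt n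
  unit_act : ∀ n A v, unit n (sact A v) = act n A (unit n v)
  unit_mul : ∀ {m n k : ℕ} (h : m + n = k) (v : Sph m) (w : Sph n),
    mul h (unit m v) (unit n w) = unit k (sm h v w)
  one_mul : ∀ {n : ℕ} (h : 0 + n = n) (x : X n), mul h (unit 0 (OnePoint.some 0)) x = x
  mul_one : ∀ {n : ℕ} (h : n + 0 = n) (x : X n), mul h x (unit 0 (OnePoint.some 0)) = x

/-- A homomorphism of commutative orthogonal ring spectra. -/
structure RHom (R S : RSp) where
  /-- the maps -/
  f : ∀ n, R.X n → S.X n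
  cont : ∀ n, KCont (f n)
  pt : ∀ n, f n (R.pt n) = S.pt n
  act : ∀ n A x, f n (R.act n A x) = S.act n A (f n x)
  mul : ∀ {m n k : ℕ} (h : m + n = k) (x : R.X m) (y : R.X n),
    f k (R.mul h x y) = S.mul h (f m x) (f n y)
  unit : ∀ n v, f n (R.unit n v) = S.unit n v

/-- A module over a commutative orthogonal ring spectrum. -/
structure MSp (R : RSp) extends OSeq where
  /-- the action maps `R m ∧ X n → X k`, `m + n = k` -/
  smul : ∀ {m n k : ℕ}, m + n = k → R.X m → X n → X k
  smul_cont : ∀ {m n k : ℕ} (h : m + n = k), KCont₂ (smul h)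
  smul_pt : ∀ {m n k : ℕ} (h : m + n = k) (r : R.X m), smul h r (pt n) = pt k
  pt_smul : ∀ {m n k : ℕ} (h : m + n = k) (y : X n), smul h (R.pt m) y = pt k
  smul_assoc : ∀ {a b c ab bc abc : ℕ} (h₁ : a + b = ab) (h₂ : ab + c = abc) (h₃ : b + c = bc)
    (h₄ : a + bc = abc) (x : R.X a) (y : R.X b) (z : X c),
    smul h₂ (R.mul h₁ x y) z = smul h₄ x (smul h₃ y z)
  smul_act : ∀ {m n k : ℕ} (h : m + n = k) (A : Ort m) (B : Ort n) (x : R.X m) (y : X n),
    smul h (R.act m A x) (act n B y) = act k (blk h A B) (smul h x y)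
  one_smul : ∀ {n : ℕ} (h : 0 + n = n) (x : X n), smul h (R.unit 0 (OnePoint.some 0)) x = x

/-- A homomorphism of modules. -/
structure MHom {R : RSp} (P Q : MSp R) where
  /-- the maps -/
  f : ∀ n, P.X n → Q.X n
  cont : ∀ n, KCont (f n)
  pt : ∀ n, f n (P.pt n) = Q.pt n
  act : ∀ n A x, f n (P.act n A x) = Q.act n A (f n x)
  smul : ∀ {m n k : ℕ} (h : m + n = k) (r : R.X m) (x : P.X n),
    f k (P.smul h r x) = Q.smul h r (f n x)

/-! ### Homotopy groups and weak equivalences -/

/-- A sequential spectrum: based spaces `X n` with structure maps `S^1 ∧ X n → X (n + 1)`, where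
`S^1 = I / {0, 1}`. -/
structure Seq where
  /-- the `n`-th space -/
  X : ℕ → Type
  [top : ∀ n, TopologicalSpace (X n)]
  /-- base points -/
  pt : ∀ n, X n
  closed : ∀ n, IsClosed ({pt n} : Set (X n))
  /-- structure maps -/
  sus : ∀ n, I → X n → X (n + 1)
  sus_cont : ∀ n, KCont₂ (sus n)
  sus_zero : ∀ n x, sus n 0 x = pt (n + 1)
  sus_one : ∀ n x, sus n 1 x = pt (n + 1)
  sus_pt : ∀ n s, sus n s (pt n) = pt (n + 1)

attribute [instance] Seq.top

/-- A map of sequential spectra. -/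
structure SHom (P Q : Seq) where
  /-- the maps -/
  f : ∀ n, P.X n → Q.X n
  cont : ∀ n, KCont (f n)
  pt : ∀ n, f n (P.pt n) = Q.pt n
  sus : ∀ n s x, f (n + 1) (P.sus n s x) = Q.sus n s (f n x)

/-- `a`-fold loops in the `n`-th space of `P`: maps `(I^a, ∂ I^a) → (P_n, pt)`. -/
abbrev Lp (P : Seq) (a n : ℕ) : Type := ↥(GenLoop (Fin a) (P.X n) (P.pt n))

/-- The value of a loop at a point. -/
abbrev lpap {P : Seq} {a n : ℕ} (x : Lp P a n) (t : Fin a → I) : P.X n := x.1 t

/-- The loop given by a map. -/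
abbrev mkLp {P : Seq} {a n : ℕ} (f : (Fin a → I) → P.X n) (hc : Continuous f)
    (hb : ∀ t ∈ Cube.boundary (Fin a), f t = P.pt n) : Lp P a n := ⟨⟨f, hc⟩, hb⟩

/-- The constant loop. -/
def cstLp (P : Seq) (a n : ℕ) : Lp P a n := mkLp (fun _ => P.pt n) continuous_const fun _ _ => rfl

/-- The suspension of a loop, as a map. -/
abbrev stf {P : Seq} {a n : ℕ} (x : Lp P a n) (t : Fin (a + 1) → I) : P.X (n + 1) :=
  P.sus n (t 0) (lpap x (fun i => t i.succ))

theorem stf_cont {P : Seq} {a n : ℕ} (x : Lp P a n) : Continuous (stf x) :=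
  P.sus_cont n (Fin (a + 1) → I) (fun t => t 0) (fun t => x.1 (fun i => t i.succ))
    (continuous_apply 0)
    (x.1.continuous.comp (continuous_pi fun i => continuous_apply i.succ))

theorem stf_bd {P : Seq} {a n : ℕ} (x : Lp P a n) :
    ∀ t ∈ Cube.boundary (Fin (a + 1)), stf x t = P.pt (n + 1) := by
  rintro y ⟨i, hi⟩
  change P.sus n (y 0) (x.1 (fun i => y i.succ)) = P.pt (n + 1)
  rcases Fin.eq_zero_or_eq_succ i with rfl | ⟨j, rfl⟩
  · rcases hi with hi | hi
    · rw [hi]; exact P.sus_zero n _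
    · rw [hi]; exact P.sus_one n _
  · have h : x.1 (fun i => y i.succ) = P.pt n := x.2 (fun i => y i.succ) ⟨j, hi⟩
    rw [h]; exact P.sus_pt n _

/-- The suspension `Ω^a P_n → Ω^(a+1) P_(n+1)`. -/
def st {P : Seq} {a n : ℕ} (x : Lp P a n) : Lp P (a + 1) (n + 1) :=
  mkLp (stf x) (stf_cont x) (stf_bd x)

/-- The iterated suspension. -/
def stn {P : Seq} {a n : ℕ} : ∀ j : ℕ, Lp P a n → Lp P (a + j) (n + j)
  | 0, x => x
  | j + 1, x => st (stn j x)

/-- Two loops are stably homotopic: they define the same element of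
`π_(a-n) P = colim_j π_(a+j) (P_(n+j))`. -/
def StEq {P : Seq} {a n : ℕ} (x y : Lp P a n) : Prop :=
  ∃ j : ℕ, GenLoop.Homotopic (stn j x) (stn j y)

/-- The effect of a map on loops, as a map. -/
abbrev SHom.lpf {P Q : Seq} (f : SHom P Q) {a n : ℕ} (x : Lp P a n) (t : Fin a → I) : Q.X n :=
  f.f n (lpap x t)

theorem SHom.lpf_cont {P Q : Seq} (f : SHom P Q) {a n : ℕ} (x : Lp P a n) :
    Continuous (f.lpf x) :=
  f.cont n (Fin a → I) (fun t => x.1 t) x.1.continuous

theorem SHom.lpf_bd {P Q : Seq} (f : SHom P Q) {a n : ℕ} (x : Lp P a n) :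
    ∀ t ∈ Cube.boundary (Fin a), f.lpf x t = Q.pt n := by
  intro y hy
  change f.f n (x.1 y) = Q.pt n
  have h : x.1 y = P.pt n := x.2 y hy
  rw [h]; exact f.pt n

/-- The effect of a map on loops. -/
def SHom.lp {P Q : Seq} (f : SHom P Q) {a n : ℕ} (x : Lp P a n) : Lp Q a n :=
  mkLp (f.lpf x) (f.lpf_cont x) (f.lpf_bd x)

/-- Weak equivalences: the maps inducing bijections on all stable homotopy groups
`π_(a-n) P = colim_j π_(a+j) (P_(n+j))`. -/
def SHom.IsWeq {P Q : Seq} (f : SHom P Q) : Prop :=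
  (∀ (a n : ℕ) (x x' : Lp P a n), StEq (f.lp x) (f.lp x') → StEq x x') ∧
  ∀ (a n : ℕ) (y : Lp Q a n), ∃ (j : ℕ) (x : Lp P (a + j) (n + j)), StEq (f.lp x) (stn j y)

end Pool.Agent.MP_d175a7_gt
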