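import Pool.Agent.Lib.MP_d175a7_gt.HomB

/-! # Splitting loops by independent suspension coordinates -/

set_option autoImplicit false
set_option linter.unusedVariables false

namespace Pool.Agent.MP_d175a7_gt

open scoped Topology unitInterval

/-- Two complementary parts `u`, `v` of a sequential spectrum with an operation `S` which suspends
them with independent suspension coordinates. -/
structure Splt (P : Seq) where
  /-- the first part -/
  u : SHom P P
  /-- the second part -/
  v : SHom P P
  /-- suspension with independent coordinates -/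
  S : ∀ n, I → I → P.X n → P.X (n + 1)
  cont : ∀ (n : ℕ) (T : Type) [TopologicalSpace T] [CompactSpace T] [T2Space T] (g h : T → I)
    (x : T → P.X n), Continuous g → Continuous h → Continuous x →
    Continuous fun t => S n (g t) (h t) (x t)
  diag : ∀ n t x, S n t t x = P.sus n t x
  r0 : ∀ n t x, S n t 0 x = P.sus n t (u.f n x)
  l1 : ∀ n t x, S n 1 t x = P.sus n t (v.f n x)
  base : ∀ n t t', S n t t' (P.pt n) = P.pt (n + 1)

/-- After one suspension a loop is the concatenation of its two parts.  Proof: `homotopic_of` with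
`H s t = S n (uu s (t 0)) (vv s (t 0)) (x.1 (fun i => t i.succ))`; `s = 0`: `uu_zero`, `vv_zero`,
`diag`; `s = 1`: `transAt_left`, `transAt_right` (for `t 0 ≤ 1/2` one has `vv 1 (t 0) = 0`, use
`r0`; for `t 0 ≥ 1/2`, `uu 1 (t 0) = 1`, use `l1`; the other coordinates of
`Function.update t 0 _` are unchanged); boundary: for `t 0 = 0` or `1` both `uu s (t 0)` and
`vv s (t 0)` are equal to `t 0` (`uu_left`, `vv_left`, `uu_right`, `vv_right`), use `diag` and
`P.sus_zero`, `P.sus_one`; if `t i.succ ∈ {0, 1}`, `x.2` and `base`.  Continuity: `cont` for the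
compact Hausdorff space `I × (Fin (a + 1) → I)`, `uu_cont`, `vv_cont`. -/
theorem Splt.st_split {P : Seq} (D : Splt P) {a n : ℕ} (x : Lp P a n) :
    GenLoop.Homotopic (st x) (GenLoop.transAt 0 (st (D.u.lp x)) (st (D.v.lp x))) := by
  have hcont : Continuous fun q : I × (Fin (a + 1) → I) =>
      D.S n (uu q.1 (q.2 0)) (vv q.1 (q.2 0)) (x.1 (fun i => q.2 i.succ)) := by
    refine D.cont n (I × (Fin (a + 1) → I)) (fun q => uu q.1 (q.2 0))
      (fun q => vv q.1 (q.2 0)) (fun q => x.1 (fun i => q.2 i.succ)) ?_ ?_ ?_
    · exact uu_cont.comp (continuous_fst.prodMk ((continuous_apply 0).comp continuous_snd))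
    · exact vv_cont.comp (continuous_fst.prodMk ((continuous_apply 0).comp continuous_snd))
    · exact x.1.continuous.comp (continuous_pi fun i =>
        (continuous_apply i.succ).comp continuous_snd)
  refine homotopic_of (fun s t => D.S n (uu s (t 0)) (vv s (t 0)) (x.1 (fun i => t i.succ)))
    hcont ?_ ?_ ?_
  · intro t
    change D.S n (uu 0 (t 0)) (vv 0 (t 0)) (x.1 (fun i => t i.succ)) =
      P.sus n (t 0) (x.1 (fun i => t i.succ))
    rw [uu_zero, vv_zero, D.diag]
  · intro t
    rcases le_total (t 0 : ℝ) (1 / 2) with ht | ht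
    · rw [transAt_left _ _ t ht]
      have h0 : vv 1 (t 0) = 0 := by
        apply Subtype.ext
        change max ((1 + (1 : ℝ)) * (t 0 : ℝ) - 1) 0 = 0
        exact max_eq_right (by linarith)
      change D.S n (uu 1 (t 0)) (vv 1 (t 0)) (x.1 (fun i => t i.succ)) =
        P.sus n (Function.update t 0 (uu 1 (t 0)) 0)
          (D.u.f n (x.1 (fun i => Function.update t 0 (uu 1 (t 0)) i.succ)))
      rw [h0, D.r0, Function.update_self]
      congr 2
    · rw [transAt_right _ _ t ht]
      have h0 : uu 1 (t 0) = 1 := by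
        apply Subtype.ext
        change min ((1 + (1 : ℝ)) * (t 0 : ℝ)) 1 = 1
        exact min_eq_right (by linarith)
      change D.S n (uu 1 (t 0)) (vv 1 (t 0)) (x.1 (fun i => t i.succ)) =
        P.sus n (Function.update t 0 (vv 1 (t 0)) 0)
          (D.v.f n (x.1 (fun i => Function.update t 0 (vv 1 (t 0)) i.succ)))
      rw [h0, D.l1, Function.update_self]
      congr 2
  · rintro s t ⟨i, hi⟩
    rcases Fin.eq_zero_or_eq_succ i with rfl | ⟨j, rfl⟩
    · rcases hi with hi | hi
      · rw [hi, uu_left, vv_left, D.diag, P.sus_zero]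
      · rw [hi, uu_right, vv_right, D.diag, P.sus_one]
    · have h1 : x.1 (fun i => t i.succ) = P.pt n := x.2 _ ⟨j, hi⟩
      rw [h1, D.base]

end Pool.Agent.MP_d175a7_gt
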