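import Pool.Agent.Lib.MP_d175a7_gt.SqD
import Pool.Agent.Lib.MP_d175a7_gt.OrdB

/-!
# The truncated polynomial algebra `e[x]/(x²)` is connective, connected and semi-finite
-/

set_option autoImplicit false
set_option linter.unusedVariables false

namespace Pool.Agent.MP_d175a7_gt

open scoped Topology unitInterval

variable {e : RSp}

/-! ### Products of loops -/

/-- `y 1 ~ 1 y`. -/
theorem ext_unit_homotopic {v : ℕ} (y : Lp e.self.seq v v) :
    GenLoop.Homotopic (ext (P := e.self) y (unitLp e v)) (ext (P := e.self) (unitLp e v) y) := by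
  obtain ⟨g, hg, rfl⟩ := exists_sphLp e.self y
  refine homotopic_of (P := e.self.seq) (fun s t => Gr e.self (Nat.zero_add v) s g
    (sm rfl (lamv v (fstI t)) (lamv v (sndI t)))) ?_ ?_ ?_ ?_
  · refine Gr_cont e.self (Nat.zero_add v) (T := I × (Fin (v + v) → I)) (fun q => q.1)
      continuous_fst (fun _ => g) continuous_const (fun _ => hg) _ ?_
    have h1 : Continuous fun q : I × (Fin (v + v) → I) =>
        (lamv v (fstI q.2), lamv v (sndI q.2)) :=
      ((lamv_cont v).comp (continuous_pi fun i =>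
        (continuous_apply (Fin.castAdd v i)).comp continuous_snd)).prodMk
        ((lamv_cont v).comp (continuous_pi fun i =>
        (continuous_apply (Fin.natAdd v i)).comp continuous_snd))
    exact (sm_cont (rfl : v + v = v + v)).comp h1
  · intro t
    rw [Gr_zero e.self (Nat.zero_add v) g hg]
    exact rm_self e rfl _ _
  · intro t
    rw [Gr_one e.self (Nat.zero_add v) g hg,
      blk_zero (hvv (Nat.zero_add v)) rfl (swp rfl rfl) (swp rfl rfl) HEq.rfl]
    exact (smul_unit e.self rfl rfl (g (lamv v (sndI t))) (lamv v (fstI t))).symm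
  · intro s t ht
    have h1 : sm rfl (lamv v (fstI t)) (lamv v (sndI t)) = (OnePoint.infty : Sph (v + v)) := by
      obtain ⟨i, hi⟩ := ht
      induction i using Fin.addCases with
      | left i =>
        rw [lamv_boundary v (fstI t) ⟨i, hi⟩, infty_sm]
      | right i =>
        rw [lamv_boundary v (sndI t) ⟨i, hi⟩, sm_infty]
    change Gr e.self (Nat.zero_add v) s g (sm rfl (lamv v (fstI t)) (lamv v (sndI t))) =
      e.self.pt (v + v)
    rw [h1, Gr_infty]

/-- `1 y = y`. -/
theorem ext_unit_left {v : ℕ} (y : Lp e.self.seq v v) :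
    ext (P := e.self) (unitLp e v) y = stn v y := by
  apply Subtype.ext
  apply ContinuousMap.ext
  intro t
  have h1 := stn_apply e.self v y t
  rw [h1]
  rfl

/-- The product with `y` on the left respects stable homotopy. -/
theorem ext_right_stEq {a n b m : ℕ} (y : Lp e.self.seq a n) {x x' : Lp e.self.seq b m}
    (h : StEq x x') : StEq (ext (P := e.self) y x) (ext (P := e.self) y x') := by
  obtain ⟨j, hj⟩ := h
  refine ⟨j, ?_⟩
  obtain ⟨F, hF, h0, h1, hb⟩ := exists_of_homotopic (P := e.self.seq) hj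
  have k1 : n + j = n + j := rfl
  have k1' : j + n = n + j := Nat.add_comm j n
  have k2 : n + j + m = n + m + j := by omega
  have k3 : j + m = m + j := Nat.add_comm j m
  have k4 : n + (m + j) = n + m + j := by omega
  -- the coordinates `(τ, t)` of `(τ, s, t)`
  let c : (Fin (a + b + j) → I) → Fin (b + j) → I := fun t i =>
    if h : i.1 < j then t ⟨i.1, by omega⟩ else t ⟨a + i.1, by omega⟩
  have hc : Continuous c := by
    refine continuous_pi fun i => ?_
    by_cases h : i.1 < j
    · have h2 : (fun t => c t i) = fun t => t ⟨i.1, by omega⟩ := funext fun t => dif_pos h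
      rw [h2]
      exact continuous_apply _
    · have h2 : (fun t => c t i) = fun t => t ⟨a + i.1, by omega⟩ := funext fun t => dif_neg h
      rw [h2]
      exact continuous_apply _
  have hcb : ∀ t, t ∈ Cube.boundary (Fin (a + b + j)) →
      c t ∈ Cube.boundary (Fin (b + j)) ∨ fstI (tl t) ∈ Cube.boundary (Fin a) := by
    rintro t ⟨i, hi⟩
    by_cases h2 : i.1 < j
    · refine Or.inl ⟨⟨i.1, by omega⟩, ?_⟩
      have h3 : c t ⟨i.1, by omega⟩ = t i := dif_pos h2
      rw [h3]
      exact hi
    · by_cases h4 : i.1 < j + a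
      · refine Or.inr ⟨⟨i.1 - j, by omega⟩, ?_⟩
        have h3 : fstI (tl t) ⟨i.1 - j, by omega⟩ = t i := by
          change t ⟨j + (i.1 - j), _⟩ = t i
          congr 1
          exact Fin.ext (by simp; omega)
        rw [h3]
        exact hi
      · refine Or.inl ⟨⟨i.1 - a, by omega⟩, ?_⟩
        have h3 : c t ⟨i.1 - a, by omega⟩ = t i := by
          have h5 : ¬ (i.1 - a < j) := by omega
          refine (dif_neg h5).trans ?_
          congr 1
          exact Fin.ext (by simp; omega)
        rw [h3]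
        exact hi
  have key : ∀ (z : Lp e.self.seq b m) (t : Fin (a + b + j) → I),
      (stn j (ext (P := e.self) y z)).1 t = e.act (n + m + j) (blk k2 (swp k1 k1') 1)
        (e.mul k4 (y.1 (fstI (tl t))) ((stn j z).1 (c t))) := by
    intro z t
    have h2 := stn_apply e.self j (ext (P := e.self) y z) t
    have h3 := stn_apply e.self j z (c t)
    rw [h2, h3]
    have h4 : (hd (c t) : Fin j → I) = hd t := funext fun i => dif_pos i.2
    have h5 : (tl (c t) : Fin b → I) = sndI (tl t) := funext fun i => by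
      have h6 : ¬ (j + i.1 < j) := by omega
      refine (dif_neg h6).trans ?_
      change t ⟨a + (j + i.1), _⟩ = t ⟨j + (a + i.1), _⟩
      congr 1
      exact Fin.ext (by simp; omega)
    rw [h4, h5]
    change e.mul _ (e.unit j (lamv j (hd t))) (e.mul rfl (y.1 (fstI (tl t)))
      (z.1 (sndI (tl t)))) = e.act (n + m + j) _ (e.mul k4 (y.1 (fstI (tl t)))
        (e.mul k3 (e.unit j (lamv j (hd t))) (z.1 (sndI (tl t)))))
    rw [← e.mul_assoc k1' k2 rfl (Nat.add_comm j (n + m)), ← e.mul_assoc k1 k2 k3 k4,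
      e.mul_comm k1 k1' (y.1 (fstI (tl t))) (e.unit j (lamv j (hd t)))]
    have h7 := e.mul_act k2 (swp k1 k1') 1 (e.mul k1 (y.1 (fstI (tl t)))
      (e.unit j (lamv j (hd t)))) (z.1 (sndI (tl t)))
    rw [e.act_one] at h7
    exact h7
  refine homotopic_of (P := e.self.seq) (fun s t => e.act (n + m + j)
    (blk k2 (swp k1 k1') 1) (e.mul k4 (y.1 (fstI (tl t))) (F s (c t)))) ?_ ?_ ?_ ?_
  · refine e.act_cont _ (I × (Fin (a + b + j) → I)) (fun _ => _) _ continuous_const ?_
    refine e.mul_cont k4 (I × (Fin (a + b + j) → I)) (fun q => y.1 (fstI (tl q.2)))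
      (fun q => F q.1 (c q.2)) ?_ ?_
    · refine y.1.continuous.comp (continuous_pi fun i => ?_)
      exact (continuous_apply _).comp (tl_cont.comp continuous_snd)
    · exact hF.comp (continuous_fst.prodMk (hc.comp continuous_snd))
  · intro t
    rw [h0, ← key]
  · intro t
    rw [h1, ← key]
  · intro s t ht
    rcases hcb t ht with h2 | h2
    · change e.act (n + m + j) _ (e.mul k4 (y.1 (fstI (tl t))) (F s (c t))) = e.pt (n + m + j)
      have h3 : F s (c t) = e.pt (m + j) := hb s (c t) h2
      rw [h3, e.mul_pt, e.act_pt]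
    · change e.act (n + m + j) _ (e.mul k4 (y.1 (fstI (tl t))) (F s (c t))) = e.pt (n + m + j)
      have h3 : y.1 (fstI (tl t)) = e.pt n := y.2 _ h2
      rw [h3, e.pt_mul, e.act_pt]

/-! ### Loops in `e[x]/(x²)` -/

/-- The inclusion of the component of `x`. -/
noncomputable def sqJ (e : RSp) : SHom e.self.seq (sq e).self.seq where
  f n y := ⟨(e.pt n, y), Or.inl rfl⟩
  cont n T _ _ _ g hg := Continuous.subtype_mk (continuous_const.prodMk hg) _
  pt n := rfl
  sus n s x := Subtype.ext (Prod.ext (e.mul_pt _ _).symm (by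
    change e.mul _ (e.unit 1 (lam s)) x =
      fold (e.pt (n + 1)) (e.mul _ (e.pt 1) (e.pt n)) (e.mul _ (e.unit 1 (lam s)) x)
    rw [e.pt_mul, fold_left]))

/-- Loops in `e[x]/(x²)` are determined by their components. -/
theorem sq_coord {a n : ℕ} {w w' : Lp (sq e).self.seq a n}
    (h1 : StEq ((sqAug e).sh.lp w) ((sqAug e).sh.lp w'))
    (h2 : StEq ((sqSnd e).lp w) ((sqSnd e).lp w')) : StEq w w' := by
  have key : ∀ w : Lp (sq e).self.seq a n, StEq (st w) (GenLoop.transAt 0
      (st ((sqIn e).sh.lp ((sqAug e).sh.lp w))) (st ((sqJ e).lp ((sqSnd e).lp w)))) :=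
    fun w => stEq_of_homotopic ((sqSpl e).st_split w)
  refine stEq_st.1 ((key w).trans (StEq.trans ?_ (key w').symm))
  exact transAt_stEq (stEq_st.2 (stEq_lp _ h1)) (stEq_st.2 (stEq_lp _ h2))

theorem sq_connective (he : Connective e) : Connective (sq e) := fun a n h x =>
  sq_coord (he a n h ((sqAug e).sh.lp x)) (he a n h ((sqSnd e).lp x))

/-- The component of `x` of a square. -/
theorem sqSnd_sq {a : ℕ} (w : Lp (sq e).self.seq a a) :
    StEq (st ((sqSnd e).lp (ext (P := (sq e).self) w w))) (GenLoop.transAt 0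
      (st (ext (P := e.self) ((sqSnd e).lp w) ((sqAug e).sh.lp w)))
      (st (ext (P := e.self) ((sqAug e).sh.lp w) ((sqSnd e).lp w)))) := by
  have h0 : ∀ t : Fin (a + a) → I, e.mul rfl (w.1 (fstI t)).1.2 (w.1 (sndI t)).1.1 =
      e.pt (a + a) ∨ e.mul rfl (w.1 (fstI t)).1.1 (w.1 (sndI t)).1.2 = e.pt (a + a) := by
    intro t
    rcases (w.1 (fstI t)).2 with h | h
    · right; rw [h, e.pt_mul]
    · left; rw [h, e.pt_mul]
  let α := ext (P := e.self) ((sqSnd e).lp w) ((sqAug e).sh.lp w)
  let β := ext (P := e.self) ((sqAug e).sh.lp w) ((sqSnd e).lp w)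
  let z : Lp (sq e).self.seq (a + a) (a + a) := ⟨⟨fun t => ⟨(α.1 t, β.1 t), h0 t⟩,
    Continuous.subtype_mk (α.1.continuous.prodMk β.1.continuous) _⟩, fun t ht =>
      Subtype.ext (Prod.ext (α.2 t ht) (β.2 t ht))⟩
  have h1 : (sqFold e).lp z = (sqSnd e).lp (ext (P := (sq e).self) w w) :=
    Subtype.ext (ContinuousMap.ext fun t => rfl)
  have h2 : (sqFold e).lp ((sqSpl e).u.lp z) = α :=
    Subtype.ext (ContinuousMap.ext fun t => fold_right _ _)
  have h3 : (sqFold e).lp ((sqSpl e).v.lp z) = β :=
    Subtype.ext (ContinuousMap.ext fun t => fold_left _ _)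
  have h4 := lp_homotopic (sqFold e) ((sqSpl e).st_split z)
  rw [SHom.lp_st, lp_transAt, SHom.lp_st, SHom.lp_st, h1, h2, h3] at h4
  exact stEq_of_homotopic h4

theorem sq_conn (he : Conn e) : Conn (sq e) := by
  refine Conn.of_unit fun a w hw => ?_
  have hx : StEq (ext (P := e.self) ((sqAug e).sh.lp w) ((sqAug e).sh.lp w))
      (stn a ((sqAug e).sh.lp w)) := by
    have h2 := stEq_lp (sqAug e).sh hw
    rw [SHom.lp_stn] at h2
    rw [← RHom.lp_ext]
    exact h2
  have hy : StEq (st (stn a ((sqSnd e).lp w))) (GenLoop.transAt 0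
      (st (ext (P := e.self) ((sqSnd e).lp w) ((sqAug e).sh.lp w)))
      (st (ext (P := e.self) ((sqAug e).sh.lp w) ((sqSnd e).lp w)))) := by
    have h2 := stEq_lp (sqSnd e) hw
    rw [SHom.lp_stn] at h2
    exact (stEq_st.2 h2.symm).trans (sqSnd_sq w)
  have hc : ∀ b n, st (cstLp e.self.seq b n) = cstLp e.self.seq (b + 1) (n + 1) :=
    fun b n => stn_cst e.self.seq b n 1
  rcases he.unit a _ hx with h | h
  · left
    refine sq_coord h ?_
    refine (stEq_stn a).1 (stEq_st.1 ?_)
    change StEq (st (stn a ((sqSnd e).lp w))) (st (stn a (cstLp e.self.seq a a)))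
    rw [stn_cst, hc]
    refine hy.trans ?_
    have h1 : StEq (ext (P := e.self) ((sqSnd e).lp w) ((sqAug e).sh.lp w))
        (cstLp e.self.seq (a + a) (a + a)) := by
      refine (ext_right_stEq _ h).trans ?_
      have h3 : ext (P := e.self) ((sqSnd e).lp w) (cstLp e.self.seq a a) =
          cstLp e.self.seq (a + a) (a + a) :=
        Subtype.ext (ContinuousMap.ext fun t => e.mul_pt rfl _)
      rw [h3]
      exact StEq.refl _
    have h2 := ext_zero h ((sqSnd e).lp w)
    have h3 := transAt_stEq (stEq_st.2 h1) (stEq_st.2 h2)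
    rw [hc] at h3
    exact h3.trans (stEq_of_homotopic (transAt_cst _))
  · right
    refine sq_coord h ?_
    refine (stEq_stn a).1 (stEq_st.1 ?_)
    change StEq (st (stn a ((sqSnd e).lp w))) (st (stn a (cstLp e.self.seq a a)))
    rw [stn_cst, hc]
    have h1 : StEq (ext (P := e.self) ((sqSnd e).lp w) ((sqAug e).sh.lp w))
        (stn a ((sqSnd e).lp w)) := by
      refine (ext_right_stEq _ h).trans ?_
      rw [← ext_unit_left]
      exact stEq_of_homotopic (ext_unit_homotopic _)
    have h2 : StEq (ext (P := e.self) ((sqAug e).sh.lp w) ((sqSnd e).lp w))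
        (stn a ((sqSnd e).lp w)) := by
      have h3 := extr_stEq (P := e.self) (rfl : a + a = a + a) (rfl : a + a = a + a)
        ((sqSnd e).lp w) h
      rw [extr_self, extr_self] at h3
      rw [← ext_unit_left]
      exact h3
    have h3 := hy.trans (transAt_stEq (stEq_st.2 h1) (stEq_st.2 h2))
    have h4 : StEq (GenLoop.transAt 0 (st (stn a ((sqSnd e).lp w)))
        (cstLp e.self.seq (a + a + 1) (a + a + 1)))
        (GenLoop.transAt 0 (st (stn a ((sqSnd e).lp w))) (st (stn a ((sqSnd e).lp w)))) :=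
      (stEq_of_homotopic (transAt_cst _)).trans h3
    exact (transAt_stEq_cancel h4 (StEq.refl _)).symm

end Pool.Agent.MP_d175a7_gt
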