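import Pool.Agent.Lib.MP_d175a7_gt.Bf
import Pool.Agent.Lib.MP_d175a7_gt.RHomC

/-!
# The ring `B = e ×_(H') H` and the ring homomorphism `B → e ×_(H') ⋯ ×_(H') e`

For homomorphisms `ρ : e → H'`, `h : H → H'` of commutative orthogonal ring spectra and
endomorphisms `θ` of `e`, `θ'` of `H'` with `ρ θ = θ' ρ`, `θ' h = h` the homomorphism
`(w, y) ↦ (w, θ w, θ² w, …)` from the strict pullback `Pbr ρ h` of `ρ` and `h` to the fibre
product of copies of `e` along `ρ`.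
-/

set_option autoImplicit false
set_option linter.unusedVariables false

namespace Pool.Agent.MP_d175a7_gt

open scoped Topology unitInterval

theorem RHom.iter_zero {R : RSp} (θ : RHom R R) (n : ℕ) (x : R.X n) : (θ.iter 0).f n x = x := rfl

theorem RHom.iter_succ {R : RSp} (θ : RHom R R) (i n : ℕ) (x : R.X n) :
    (θ.iter (i + 1)).f n x = θ.f n ((θ.iter i).f n x) := rfl

theorem RHom.iter_add {R : RSp} (θ : RHom R R) (i j n : ℕ) (x : R.X n) :
    (θ.iter (i + j)).f n x = (θ.iter i).f n ((θ.iter j).f n x) := by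
  induction i with
  | zero => rw [Nat.zero_add]; rfl
  | succ i ih =>
    rw [Nat.succ_add, RHom.iter_succ, RHom.iter_succ, ih]

variable {e H H' : RSp} (ρ : RHom e H') (h : RHom H H')

/-- The points of level `n` of the strict pullback. -/
abbrev PbX (n : ℕ) : Type := {x : e.X n × H.X n // ρ.f n x.1 = h.f n x.2}

theorem PbX.pt_mem (n : ℕ) : ρ.f n (e.pt n) = h.f n (H.pt n) := by rw [ρ.pt, h.pt]

/-- The base point. -/
abbrev PbX.pt (n : ℕ) : PbX ρ h n := ⟨(e.pt n, H.pt n), PbX.pt_mem ρ h n⟩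

theorem PbX.act_mem (n : ℕ) (A : Ort n) (x : PbX ρ h n) :
    ρ.f n (e.act n A x.1.1) = h.f n (H.act n A x.1.2) := by rw [ρ.act, h.act, x.2]

/-- The action of `O(n)`. -/
abbrev PbX.act (n : ℕ) (A : Ort n) (x : PbX ρ h n) : PbX ρ h n :=
  ⟨(e.act n A x.1.1, H.act n A x.1.2), PbX.act_mem ρ h n A x⟩

theorem PbX.mul_mem {m n k : ℕ} (hk : m + n = k) (x : PbX ρ h m) (y : PbX ρ h n) :
    ρ.f k (e.mul hk x.1.1 y.1.1) = h.f k (H.mul hk x.1.2 y.1.2) := by
  rw [ρ.mul, h.mul, x.2, y.2]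

/-- The multiplication. -/
abbrev PbX.mul {m n k : ℕ} (hk : m + n = k) (x : PbX ρ h m) (y : PbX ρ h n) : PbX ρ h k :=
  ⟨(e.mul hk x.1.1 y.1.1, H.mul hk x.1.2 y.1.2), PbX.mul_mem ρ h hk x y⟩

theorem PbX.unit_mem (n : ℕ) (v : Sph n) : ρ.f n (e.unit n v) = h.f n (H.unit n v) := by
  rw [ρ.unit, h.unit]

/-- The unit. -/
abbrev PbX.unit (n : ℕ) (v : Sph n) : PbX ρ h n :=
  ⟨(e.unit n v, H.unit n v), PbX.unit_mem ρ h n v⟩

theorem PbX.closed (n : ℕ) : IsClosed ({PbX.pt ρ h n} : Set (PbX ρ h n)) := by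
  have h1 : ({⟨(e.pt n, H.pt n), by rw [ρ.pt, h.pt]⟩} :
      Set {x : e.X n × H.X n // ρ.f n x.1 = h.f n x.2}) =
      Subtype.val ⁻¹' (({e.pt n} : Set (e.X n)) ×ˢ ({H.pt n} : Set (H.X n))) := by
    ext z
    simp [Subtype.ext_iff, Prod.ext_iff]
  change IsClosed ({⟨(e.pt n, H.pt n), by rw [ρ.pt, h.pt]⟩} :
      Set {x : e.X n × H.X n // ρ.f n x.1 = h.f n x.2})
  rw [h1]
  exact ((e.closed n).prod (H.closed n)).preimage continuous_subtype_val

theorem PbX.act_cont (n : ℕ) : KCont₂ (PbX.act ρ h n) := fun T _ _ _ g k hg hk =>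
  Continuous.subtype_mk
    ((e.act_cont n T g (fun t => (k t).1.1) hg
        (continuous_fst.comp (continuous_subtype_val.comp hk))).prodMk
      (H.act_cont n T g (fun t => (k t).1.2) hg
        (continuous_snd.comp (continuous_subtype_val.comp hk)))) _

theorem PbX.act_one (n : ℕ) (x : PbX ρ h n) : PbX.act ρ h n 1 x = x :=
  Subtype.ext (Prod.ext (e.act_one n _) (H.act_one n _))

theorem PbX.act_mul (n : ℕ) (A B : Ort n) (x : PbX ρ h n) :
    PbX.act ρ h n (A * B) x = PbX.act ρ h n A (PbX.act ρ h n B x) :=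
  Subtype.ext (Prod.ext (e.act_mul n _ _ _) (H.act_mul n _ _ _))

theorem PbX.act_pt (n : ℕ) (A : Ort n) : PbX.act ρ h n A (PbX.pt ρ h n) = PbX.pt ρ h n :=
  Subtype.ext (Prod.ext (e.act_pt n _) (H.act_pt n _))

theorem PbX.mul_cont {m n k : ℕ} (hk : m + n = k) : KCont₂ (PbX.mul ρ h hk) :=
  fun T _ _ _ g l hg hl => Continuous.subtype_mk
    ((e.mul_cont hk T (fun t => (g t).1.1) (fun t => (l t).1.1)
        (continuous_fst.comp (continuous_subtype_val.comp hg))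
        (continuous_fst.comp (continuous_subtype_val.comp hl))).prodMk
      (H.mul_cont hk T (fun t => (g t).1.2) (fun t => (l t).1.2)
        (continuous_snd.comp (continuous_subtype_val.comp hg))
        (continuous_snd.comp (continuous_subtype_val.comp hl)))) _

theorem PbX.mul_pt {m n k : ℕ} (hk : m + n = k) (x : PbX ρ h m) :
    PbX.mul ρ h hk x (PbX.pt ρ h n) = PbX.pt ρ h k :=
  Subtype.ext (Prod.ext (e.mul_pt hk _) (H.mul_pt hk _))

theorem PbX.pt_mul {m n k : ℕ} (hk : m + n = k) (y : PbX ρ h n) :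
    PbX.mul ρ h hk (PbX.pt ρ h m) y = PbX.pt ρ h k :=
  Subtype.ext (Prod.ext (e.pt_mul hk _) (H.pt_mul hk _))

theorem PbX.mul_assoc {a b c ab bc abc : ℕ} (h₁ : a + b = ab) (h₂ : ab + c = abc)
    (h₃ : b + c = bc) (h₄ : a + bc = abc) (x : PbX ρ h a) (y : PbX ρ h b) (z : PbX ρ h c) :
    PbX.mul ρ h h₂ (PbX.mul ρ h h₁ x y) z = PbX.mul ρ h h₄ x (PbX.mul ρ h h₃ y z) :=
  Subtype.ext (Prod.ext (e.mul_assoc h₁ h₂ h₃ h₄ _ _ _) (H.mul_assoc h₁ h₂ h₃ h₄ _ _ _))

theorem PbX.mul_act {m n k : ℕ} (hk : m + n = k) (A : Ort m) (B : Ort n) (x : PbX ρ h m)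
    (y : PbX ρ h n) :
    PbX.mul ρ h hk (PbX.act ρ h m A x) (PbX.act ρ h n B y) =
      PbX.act ρ h k (blk hk A B) (PbX.mul ρ h hk x y) :=
  Subtype.ext (Prod.ext (e.mul_act hk A B _ _) (H.mul_act hk A B _ _))

theorem PbX.mul_comm {m n k : ℕ} (hk : m + n = k) (hk' : n + m = k) (x : PbX ρ h m)
    (y : PbX ρ h n) :
    PbX.mul ρ h hk' y x = PbX.act ρ h k (swp hk hk') (PbX.mul ρ h hk x y) :=
  Subtype.ext (Prod.ext (e.mul_comm hk hk' _ _) (H.mul_comm hk hk' _ _))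

theorem PbX.unit_cont (n : ℕ) : Continuous (PbX.unit ρ h n) :=
  Continuous.subtype_mk ((e.unit_cont n).prodMk (H.unit_cont n)) _

theorem PbX.unit_pt (n : ℕ) : PbX.unit ρ h n OnePoint.infty = PbX.pt ρ h n :=
  Subtype.ext (Prod.ext (e.unit_pt n) (H.unit_pt n))

theorem PbX.unit_act (n : ℕ) (A : Ort n) (v : Sph n) :
    PbX.unit ρ h n (sact A v) = PbX.act ρ h n A (PbX.unit ρ h n v) :=
  Subtype.ext (Prod.ext (e.unit_act n A v) (H.unit_act n A v))

theorem PbX.unit_mul {m n k : ℕ} (hk : m + n = k) (v : Sph m) (w : Sph n) :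
    PbX.mul ρ h hk (PbX.unit ρ h m v) (PbX.unit ρ h n w) = PbX.unit ρ h k (sm hk v w) :=
  Subtype.ext (Prod.ext (e.unit_mul hk v w) (H.unit_mul hk v w))

theorem PbX.one_mul {n : ℕ} (hk : 0 + n = n) (x : PbX ρ h n) :
    PbX.mul ρ h hk (PbX.unit ρ h 0 (OnePoint.some 0)) x = x :=
  Subtype.ext (Prod.ext (e.one_mul hk _) (H.one_mul hk _))

theorem PbX.mul_one {n : ℕ} (hk : n + 0 = n) (x : PbX ρ h n) :
    PbX.mul ρ h hk x (PbX.unit ρ h 0 (OnePoint.some 0)) = x :=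
  Subtype.ext (Prod.ext (e.mul_one hk _) (H.mul_one hk _))

/-- The strict pullback of two homomorphisms of commutative orthogonal ring spectra. -/
def Pbr {e H H' : RSp} (ρ : RHom e H') (h : RHom H H') : RSp where
  X := PbX ρ h
  pt := PbX.pt ρ h
  closed := PbX.closed ρ h
  act := PbX.act ρ h
  act_cont := PbX.act_cont ρ h
  act_one := PbX.act_one ρ h
  act_mul := PbX.act_mul ρ h
  act_pt := PbX.act_pt ρ h
  mul := PbX.mul ρ h
  mul_cont := PbX.mul_cont ρ h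
  mul_pt := PbX.mul_pt ρ h
  pt_mul := PbX.pt_mul ρ h
  mul_assoc := PbX.mul_assoc ρ h
  mul_act := PbX.mul_act ρ h
  mul_comm := PbX.mul_comm ρ h
  unit := PbX.unit ρ h
  unit_cont := PbX.unit_cont ρ h
  unit_pt := PbX.unit_pt ρ h
  unit_act := PbX.unit_act ρ h
  unit_mul := PbX.unit_mul ρ h
  one_mul := PbX.one_mul ρ h
  mul_one := PbX.mul_one ρ h

/-- The projection `B → e`. -/
def Pbr.fst : RHom (Pbr ρ h) e where
  f n x := x.1.1
  cont n T _ _ _ g hg := continuous_fst.comp (continuous_subtype_val.comp hg)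
  pt n := rfl
  act n A x := rfl
  mul h x y := rfl
  unit n v := rfl

/-- The projection `B → H`. -/
def Pbr.snd : RHom (Pbr ρ h) H where
  f n x := x.1.2
  cont n T _ _ _ g hg := continuous_snd.comp (continuous_subtype_val.comp hg)
  pt n := rfl
  act n A x := rfl
  mul h x y := rfl
  unit n v := rfl

variable (θ : RHom e e) (θ' : RHom H' H') (hρθ : ∀ n x, ρ.f n (θ.f n x) = θ'.f n (ρ.f n x))
  (hθ : ∀ n y, θ'.f n (h.f n y) = h.f n y)

include hρθ hθ in
theorem Pbr.iter {n : ℕ} (x : (Pbr ρ h).X n) (i : ℕ) :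
    ρ.f n ((θ.iter i).f n x.1.1) = h.f n x.1.2 := by
  induction i with
  | zero => exact x.2
  | succ i ih => rw [RHom.iter_succ, hρθ, ih, hθ]

/-- The homomorphism `B → e ×_(H') ⋯ ×_(H') e`, `(w, y) ↦ (w, θ w, θ² w, …)`. -/
def Pbr.emb (f : ℕ) : RHom (Pbr ρ h) (Bf e H' ρ f) where
  f n x := ⟨fun i => (θ.iter i.1).f n x.1.1, fun i j => by
    beta_reduce
    rw [Pbr.iter ρ h θ θ' hρθ hθ x, Pbr.iter ρ h θ θ' hρθ hθ x]⟩
  cont n T _ _ _ g hg := Continuous.subtype_mk (continuous_pi fun (i : Fin f) =>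
    (θ.iter i.1).cont n T (fun t => (g t).1.1)
      (continuous_fst.comp (continuous_subtype_val.comp hg))) _
  pt n := Subtype.ext (funext fun (i : Fin f) => (θ.iter i.1).pt n)
  act n A x := Subtype.ext (funext fun (i : Fin f) => (θ.iter i.1).act n A _)
  mul hk x y := Subtype.ext (funext fun (i : Fin f) => (θ.iter i.1).mul hk _ _)
  unit n v := Subtype.ext (funext fun (i : Fin f) => (θ.iter i.1).unit n v)

end Pool.Agent.MP_d175a7_gt
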