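import Pool.Agent.Lib.MP_d175a7_gt.GVb
import Pool.Agent.Lib.MP_d175a7_gt.V3Ring
import Pool.Agent.Lib.MP_d175a7_gt.CyCo
import Pool.Agent.Lib.MP_d175a7_gt.OntoD
import Pool.Agent.Lib.MP_d175a7_gt.FinA
import Pool.Agent.Lib.MP_d175a7_gt.KTh

/-!
# The obstruction for rings with a homomorphism to a fibre product
-/

set_option autoImplicit false
set_option linter.unusedVariables false

namespace Pool.Agent.MP_d175a7_gt

open CategoryTheory
open scoped Topology unitInterval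

universe u v

theorem resP_p {Λ : Type} [CommRing Λ] (p : ℕ) : ((p : ℕ) : ResP p Λ) = 0 := by
  have h1 : ((p : ℕ) : ResP p Λ) = Ideal.Quotient.mk _ (p : Λ) := (map_natCast _ p).symm
  rw [h1, Ideal.Quotient.eq_zero_iff_mem]
  exact Ideal.subset_span rfl

theorem resP_nontrivial {Λ : Type} [CommRing Λ] [Nontrivial Λ] {p : ℕ}
    (hp : (p : Λ) ^ 2 = 0) : Nontrivial (ResP p Λ) := by
  refine Ideal.Quotient.nontrivial_iff.2 fun h => ?_
  rw [Ideal.eq_top_iff_one, Ideal.mem_span_singleton'] at h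
  obtain ⟨a, ha⟩ := h
  have h1 : (1 : Λ) = 0 := by
    calc (1 : Λ) = (a * p) * (a * p) := by rw [ha, one_mul]
      _ = a ^ 2 * (p : Λ) ^ 2 := by ring
      _ = 0 := by rw [hp, mul_zero]
  exact one_ne_zero h1

/-- Cyclic data with nonzero pairing obstruct surjectivity. -/
theorem cyc_not_onto {p : ℕ} [Fact p.Prime] {R : RSp} {k : Type} [CommRing k] [Nontrivial k]
    (hk : (p : k) = 0) {Dt : Det R k} {r D d j : ℕ} (hd : 0 < d)
    (hodd : Odd (d + j + D)) (h3 : 3 ≤ d + j + D) (hcop : Nat.Coprime p (d + j + D))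
    {c : Fin (d + j + D) → Fin r → k} (Y : CycDat Dt (d + j + D) r c)
    (hc : ∑ l, ∏ i, c i l = 1)
    (A : PS.{u}) (At : PS.{v}) (hA : DimLe A D) (hH : HNe p A D) (s : PMap At (Susp d A))
    (hs : HSur p s (D + d)) (w : PMap At A) :
    ¬ Function.Surjective
      (Cls.pre (Susp.pmap j w) : Cls (Susp j A) (Kth R) → Cls (Susp j At) (Kth R)) := by
  obtain ⟨ψ, hψ⟩ := exists_func hk hcop
  exact not_onto_cube (FCm R) ψ (detRep Dt) hd hodd (Y.cube (by omega)) (Y.cubCo (by omega))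
    (by rw [hc, mul_one]; exact hψ) A At hA hH s hs w

/-- The weights `-3, 1, 1, 1`. -/
def wt4 (Λ : Type) [CommRing Λ] (s : Fin 4) : Λ := if s = 0 then -3 else 1

theorem wt4_sum (Λ : Type) [CommRing Λ] : ∑ s, wt4 Λ s = 0 := by
  rw [Fin.sum_univ_four]
  unfold wt4
  rw [if_pos rfl, if_neg (by decide), if_neg (by decide), if_neg (by decide)]
  ring

variable {e H : RSp} {ρ : RHom e H}

/-- `B` is free of rank one over itself. -/
def freeB {f : ℕ} : FreeMod (Bf e H ρ f) (PB (RHom.id (Bf e H ρ f))) 1 where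
  P' := free (Bf e H ρ f) 1
  P'' := (Bf e H ρ f).self
  α := MHom.id _
  β := freeOne _
  γ := ⟨fun n x => x, fun _ _ _ _ _ _ hg => hg, fun _ => rfl, fun _ _ _ => rfl,
    fun _ _ _ => rfl⟩
  hα := MHom.isWeq_id _
  hβ := freeOne_isWeq _
  hγ := isWeq_of_inv _ ((⟨fun n x => x, fun _ _ _ _ _ _ hg => hg, fun _ => rfl,
    fun _ _ _ => rfl, fun _ _ _ => rfl⟩ : MHom (Bf e H ρ f).self
      (PB (RHom.id (Bf e H ρ f)))).sh) (fun _ _ => rfl) (fun _ _ => rfl)

variable {Λ : Type} [CommRing Λ] {p : ℕ}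

/-- The cyclic data for the ring `B = e ×_H e ×_H e ×_H e`. -/
theorem QD.cyc4 (K : QD ρ Λ p) {v : ℕ} (g : C(Sph v, e.X v)) (hg : g OnePoint.infty = e.pt v)
    (hρ : ∀ u, ρ.f v (g u) = H.pt v) (hgp : K.Q.Q v (sphLp e.self g hg) = p) {m : ℕ}
    (hm : 2 ≤ m) : ∃ (Dt : Det (Bf e H ρ 4) (ResP p Λ)) (c : Fin m → Fin 1 → ResP p Λ),
      (∑ l, ∏ i, c i l = 1) ∧ Nonempty (CycDat Dt m 1 c) := by
  let φ := RHom.id (Bf e H ρ 4)
  let Dt := K.det φ (RingHom.id Λ) id (wt4 Λ) (wt4_sum Λ) 0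
  have h1 := K.cyc φ (r := 1) (fun _ => RingHom.id Λ) (fun _ => Equiv.refl _) (wt4 Λ)
    (wt4_sum Λ) 0 Dt (fun j a b => rfl) g hg hρ hgp freeB (fun _ => 0)
    (fun _ => (oneLp (Bf e H ρ 4) : Lp (PB φ).seq 0 0)) ?_ 0 (bet 1 2 3 : Fin m → Fin 4) ?_ ?_
  · refine ⟨Dt, _, ?_, h1⟩
    rw [Fin.sum_univ_one]
    refine Finset.prod_eq_one fun i _ => ?_
    change Ideal.Quotient.mk _ (wt4 Λ (bet 1 2 3 (nxt i))) = 1
    have h2 : wt4 Λ (bet 1 2 3 (nxt i)) = 1 := by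
      rcases bet_mem (1 : Fin 4) 2 3 (nxt i) with h | h | h <;> rw [h] <;>
        exact if_neg (by decide)
    rw [h2, map_one]
  · have h2 : (Matrix.of fun l j : Fin 1 => psiC p (wt4 Λ) 0 (K.fam (RingHom.id Λ)
        (Equiv.refl (Fin 4)) (asB φ (oneLp (Bf e H ρ 4) : Lp (PB φ).seq 0 0)))) = 1 := by
      refine Matrix.ext fun l j => ?_
      rw [Subsingleton.elim l j, Matrix.one_apply_eq]
      exact Dt.one
    rw [h2, Matrix.det_one]
    exact isUnit_one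
  · intro i h
    rcases bet_mem (1 : Fin 4) 2 3 i with h' | h' | h' <;> rw [h'] at h <;>
      exact absurd h (by decide)
  · intro a
    have h2 := bet_nxt (f := 4) (a := 1) (b := 2) (c := 3) (by decide) (by decide) (by decide)
      hm (prv a)
    rwa [nxt_prv] at h2

/-- The obstruction for `B = e ×_H e ×_H e ×_H e`. -/
theorem v2_not_onto [Fact p.Prime] [Nontrivial Λ] (K : QD ρ Λ p) {v : ℕ} (g : C(Sph v, e.X v))
    (hg : g OnePoint.infty = e.pt v) (hρ : ∀ u, ρ.f v (g u) = H.pt v)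
    (hgp : K.Q.Q v (sphLp e.self g hg) = p) {D d j : ℕ} (hd : 0 < d) (hodd : Odd (d + j + D))
    (h3 : 3 ≤ d + j + D) (hcop : Nat.Coprime p (d + j + D))
    (A : PS.{u}) (At : PS.{v}) (hA : DimLe A D) (hH : HNe p A D) (s : PMap At (Susp d A))
    (hs : HSur p s (D + d)) (w : PMap At A) :
    ¬ Function.Surjective
      (Cls.pre (Susp.pmap j w) :
        Cls (Susp j A) (Kth (Bf e H ρ 4)) → Cls (Susp j At) (Kth (Bf e H ρ 4))) := by
  obtain ⟨Dt, c, hc, ⟨Y⟩⟩ := K.cyc4 g hg hρ hgp (m := d + j + D) (by omega)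
  have hn := resP_nontrivial K.sq
  exact cyc_not_onto (resP_p p) hd hodd h3 hcop Y hc A At hA hH s hs w

end Pool.Agent.MP_d175a7_gt
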