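import Pool.Agent.Lib.MP_d175a7_gt.Sq
import Pool.Agent.Lib.MP_d175a7_gt.PthG
import Pool.Agent.Lib.MP_d175a7_gt.CySelf
import Pool.Agent.Lib.MP_d175a7_gt.V2Cyc

/-!
# The truncated polynomial algebra `e[x]/(x²)`: detection and failure of surjectivity
-/

set_option autoImplicit false
set_option linter.unusedVariables false

namespace Pool.Agent.MP_d175a7_gt

open scoped Topology unitInterval

universe u v

variable {e : RSp}

/-- The sum `(x, y) ↦ x + y` of the two components. -/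
noncomputable def sqFold (e : RSp) : SHom (sq e).self.seq e.self.seq where
  f n z := fold (e.pt n) z.1.1 z.1.2
  cont n T _ _ _ g hg := fold_cont (e.closed n)
    (continuous_fst.comp (continuous_subtype_val.comp hg))
    (continuous_snd.comp (continuous_subtype_val.comp hg)) (fun t => (g t).2)
  pt n := fold_left _ _
  sus n s x := by
    change fold (e.pt (n + 1)) (e.mul _ (e.unit 1 (lam s)) x.1.1)
      (fold (e.pt (n + 1)) (e.mul _ (e.pt 1) x.1.1) (e.mul _ (e.unit 1 (lam s)) x.1.2)) =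
      e.mul _ (e.unit 1 (lam s)) (fold (e.pt n) x.1.1 x.1.2)
    rw [e.pt_mul, fold_left]
    rcases x.2 with h | h
    · rw [h, e.mul_pt, fold_left, fold_left]
    · rw [h, e.mul_pt, fold_right, fold_right]

/-- The component of `x`. -/
noncomputable def sqSnd (e : RSp) : SHom (sq e).self.seq e.self.seq where
  f n z := z.1.2
  cont n T _ _ _ g hg := continuous_snd.comp (continuous_subtype_val.comp hg)
  pt n := rfl
  sus n s x := by
    change fold (e.pt (n + 1)) (e.mul _ (e.pt 1) x.1.1) (e.mul _ (e.unit 1 (lam s)) x.1.2) =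
      e.mul _ (e.unit 1 (lam s)) x.1.2
    rw [e.pt_mul, fold_left]

/-- `(x, y) ↦ (x, pt)`. -/
noncomputable def sqU (e : RSp) : SHom (sq e).self.seq (sq e).self.seq where
  f n z := ⟨(z.1.1, e.pt n), Or.inr rfl⟩
  cont n T _ _ _ g hg := Continuous.subtype_mk
    ((continuous_fst.comp (continuous_subtype_val.comp hg)).prodMk continuous_const) _
  pt n := rfl
  sus n s x := Subtype.ext (Prod.ext rfl (by
    change e.pt (n + 1) = fold (e.pt (n + 1)) (e.mul _ (e.pt 1) x.1.1)
      (e.mul _ (e.unit 1 (lam s)) (e.pt n))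
    rw [e.pt_mul, e.mul_pt, fold_left]))

/-- `(x, y) ↦ (pt, y)`. -/
noncomputable def sqV (e : RSp) : SHom (sq e).self.seq (sq e).self.seq where
  f n z := ⟨(e.pt n, z.1.2), Or.inl rfl⟩
  cont n T _ _ _ g hg := Continuous.subtype_mk
    (continuous_const.prodMk (continuous_snd.comp (continuous_subtype_val.comp hg))) _
  pt n := rfl
  sus n s x := Subtype.ext (Prod.ext (e.mul_pt _ _).symm (by
    change fold (e.pt (n + 1)) (e.mul _ (e.pt 1) x.1.1) (e.mul _ (e.unit 1 (lam s)) x.1.2) =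
      fold (e.pt (n + 1)) (e.mul _ (e.pt 1) (e.pt n)) (e.mul _ (e.unit 1 (lam s)) x.1.2)
    rw [e.pt_mul, e.pt_mul]))

/-- The splitting of `e ∨ e`. -/
noncomputable def sqSpl (e : RSp) : Splt (sq e).self.seq where
  u := sqU e
  v := sqV e
  S n t t' z := ⟨(e.self.seq.sus n t z.1.1, e.self.seq.sus n t' z.1.2), by
    rcases z.2 with h | h
    · left
      change e.self.seq.sus n t z.1.1 = _
      rw [h]
      exact e.self.seq.sus_pt n t
    · right
      change e.self.seq.sus n t' z.1.2 = _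
      rw [h]
      exact e.self.seq.sus_pt n t'⟩
  cont n T _ _ _ g h x hg hh hx := Continuous.subtype_mk
    ((e.self.seq.sus_cont n T g (fun t => (x t).1.1) hg
      (continuous_fst.comp (continuous_subtype_val.comp hx))).prodMk
      (e.self.seq.sus_cont n T h (fun t => (x t).1.2) hh
        (continuous_snd.comp (continuous_subtype_val.comp hx)))) _
  diag n t x := Subtype.ext (Prod.ext rfl (by
    change e.mul _ (e.unit 1 (lam t)) x.1.2 =
      fold (e.pt (n + 1)) (e.mul _ (e.pt 1) x.1.1) (e.mul _ (e.unit 1 (lam t)) x.1.2)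
    rw [e.pt_mul, fold_left]))
  r0 n t x := Subtype.ext (Prod.ext rfl (by
    change e.self.seq.sus n 0 x.1.2 =
      fold (e.pt (n + 1)) (e.mul _ (e.pt 1) x.1.1) (e.mul _ (e.unit 1 (lam t)) (e.pt n))
    rw [e.pt_mul, e.mul_pt, fold_left]
    exact e.self.seq.sus_zero n _))
  l1 n t x := Subtype.ext (Prod.ext (by
    change e.self.seq.sus n 1 x.1.1 = e.mul _ (e.unit 1 (lam t)) (e.pt n)
    rw [e.mul_pt]
    exact e.self.seq.sus_one n _) (by
    change e.mul _ (e.unit 1 (lam t)) x.1.2 =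
      fold (e.pt (n + 1)) (e.mul _ (e.pt 1) (e.pt n)) (e.mul _ (e.unit 1 (lam t)) x.1.2)
    rw [e.pt_mul, fold_left]))
  base n t t' := Subtype.ext (Prod.ext (e.self.seq.sus_pt n t) (e.self.seq.sus_pt n t'))

/-- The sum of two loops one of which is trivial at each point. -/
theorem RCh.fold {Λ : Type} [CommRing Λ] (Q : RCh e Λ) {c : ℕ} (α β γ : Lp e.self.seq c c)
    (h : ∀ t, α.1 t = e.pt c ∨ β.1 t = e.pt c)
    (hγ : ∀ t, γ.1 t = Pool.Agent.MP_d175a7_gt.fold (e.pt c) (α.1 t) (β.1 t)) :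
    Q.Q c γ = Q.Q c α + Q.Q c β := by
  let w : Lp (sq e).self.seq c c := ⟨⟨fun t => ⟨(α.1 t, β.1 t), h t⟩,
    Continuous.subtype_mk (α.1.continuous.prodMk β.1.continuous) _⟩, fun t ht =>
      Subtype.ext (Prod.ext (α.2 t ht) (β.2 t ht))⟩
  have h1 : (sqFold e).lp w = γ := Subtype.ext (ContinuousMap.ext fun t => (hγ t).symm)
  have h2 : (sqFold e).lp ((sqSpl e).u.lp w) = α :=
    Subtype.ext (ContinuousMap.ext fun t => fold_right _ _)
  have h3 : (sqFold e).lp ((sqSpl e).v.lp w) = β :=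
    Subtype.ext (ContinuousMap.ext fun t => fold_left _ _)
  have h4 := lp_homotopic (sqFold e) ((sqSpl e).st_split w)
  rw [SHom.lp_st, lp_transAt, SHom.lp_st, SHom.lp_st, h1, h2, h3] at h4
  rw [← Q.st, Q.hty h4, Q.add, Q.st, Q.st]

/-- The detection: `x + y ε ↦ Q(x) + Q(y) ε`. -/
noncomputable def sqDet {k : Type} [CommRing k] (Q : RCh e k) : Det (sq e) k where
  D a w := (Q.Q a ((sqAug e).sh.lp w), Q.Q a ((sqSnd e).lp w))
  hty h := Prod.ext (Q.hty (lp_homotopic _ h)) (Q.hty (lp_homotopic _ h))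
  st x := by rw [SHom.lp_st, SHom.lp_st, Q.st, Q.st]
  add x y := by
    rw [lp_transAt, lp_transAt, Q.add, Q.add]
    rfl
  mul {a b} x y := by
    refine Prod.ext ?_ ?_
    · change Q.Q (a + b) ((sqAug e).sh.lp (ext x y)) =
        Q.Q a ((sqAug e).sh.lp x) * Q.Q b ((sqAug e).sh.lp y)
      rw [← Q.mul]
      exact congrArg (Q.Q _) ((sqAug e).lp_ext x y)
    · change Q.Q (a + b) ((sqSnd e).lp (ext x y)) =
        Q.Q a ((sqAug e).sh.lp x) * Q.Q b ((sqSnd e).lp y) +
          Q.Q a ((sqSnd e).lp x) * Q.Q b ((sqAug e).sh.lp y)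
      rw [← Q.mul, ← Q.mul]
      refine Eq.trans ?_ (add_comm _ _)
      refine Q.fold _ _ _ (fun t => ?_) (fun t => rfl)
      change e.mul rfl (x.1 (fstI t)).1.2 (y.1 (sndI t)).1.1 = e.pt (a + b) ∨
        e.mul rfl (x.1 (fstI t)).1.1 (y.1 (sndI t)).1.2 = e.pt (a + b)
      rcases (x.1 (fstI t)).2 with h | h
      · right; rw [h, e.pt_mul]
      · left; rw [h, e.pt_mul]
  one := by
    refine Prod.ext ?_ ?_
    · change Q.Q 0 ((sqAug e).sh.lp (oneLp (sq e))) = 1
      rw [RHom.lp_one, Q.one]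
    · change Q.Q 0 ((sqSnd e).lp (oneLp (sq e))) = 0
      exact Q.cst 0

/-- The multiplication by `ε`: `(x, y) ↦ (pt, x)`. -/
noncomputable def sqEps (e : RSp) : MHom (sq e).self (sq e).self where
  f n z := ⟨(e.pt n, z.1.1), Or.inl rfl⟩
  cont n T _ _ _ g hg := Continuous.subtype_mk
    (continuous_const.prodMk (continuous_fst.comp (continuous_subtype_val.comp hg))) _
  pt n := rfl
  act n A x := Subtype.ext (Prod.ext (e.act_pt n A).symm rfl)
  smul {m n l} h r x := Subtype.ext (Prod.ext (e.mul_pt h _).symm (by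
    change e.mul h r.1.1 x.1.1 = fold (e.pt l) (e.mul h r.1.2 (e.pt n)) (e.mul h r.1.1 x.1.1)
    rw [e.mul_pt, fold_left]))

/-- The element `ε` of `π_0`. -/
noncomputable def epsLp (e : RSp) : Lp (sq e).self.seq 0 0 :=
  (sqEps e).sh.lp (oneLp (sq e))

/-- The cyclic data. -/
noncomputable def sqSelf {k : Type} [CommRing k] (Q : RCh e k) (m : ℕ) :
    SelfDat (sqDet Q) m where
  Z _ := (sq e).self
  io _ := MHom.id _
  hio _ := MHom.isWeq_id _
  al _ := sqEps e
  comp a n x := Subtype.ext (Prod.ext rfl rfl)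
  v := 0
  t _ := epsLp e
  ht a := by
    refine Prod.ext ?_ ?_
    · change Q.Q 0 ((sqAug e).sh.lp (epsLp e)) = 0
      exact Q.cst 0
    · change Q.Q 0 ((sqSnd e).lp (epsLp e)) = 1
      exact Q.one
  hal a := StEq.refl _

/-- The obstruction for `e[x]/(x²)`. -/
theorem sq_not_onto {p : ℕ} [Fact p.Prime] {k : Type} [CommRing k] [Nontrivial k]
    (hk : (p : k) = 0) (Q : RCh e k) {D d j : ℕ} (hd : 0 < d)
    (hodd : Odd (d + j + D)) (h3 : 3 ≤ d + j + D) (hcop : Nat.Coprime p (d + j + D))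
    (A : PS.{u}) (At : PS.{v}) (hA : DimLe A D) (hH : HNe p A D) (s : PMap At (Susp d A))
    (hs : HSur p s (D + d)) (w : PMap At A) :
    ¬ Function.Surjective (Cls.pre (Susp.pmap j w) :
      Cls (Susp j A) (Kth (sq e)) → Cls (Susp j At) (Kth (sq e))) :=
  cyc_not_onto hk hd hodd h3 hcop (sqSelf Q (d + j + D)).cyc (by simp) A At hA hH s hs w

end Pool.Agent.MP_d175a7_gt
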