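import Pool.Agent.Lib.MP_d175a7_gt.Spec

/-! # The sum of two points one of which is the base point -/

set_option autoImplicit false

namespace Pool.Agent.MP_d175a7_gt

/-- The sum of two points one of which is the base point `o`. -/
noncomputable def fold {X : Type} (o a b : X) : X :=
  open scoped Classical in if b = o then a else b

end Pool.Agent.MP_d175a7_gt
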