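import Pool.Agent.Lib.MP_d175a7_gt.SqF

/-! # The sum of two points one of which is the base point: lemmas -/

set_option autoImplicit false
set_option linter.unusedVariables false

namespace Pool.Agent.MP_d175a7_gt

open scoped Topology unitInterval

theorem fold_right {X : Type} (o a : X) : fold o a o = a := by simp [fold]

theorem fold_left {X : Type} (o b : X) : fold o o b = b := by
  unfold fold
  split_ifs with h
  · exact h.symm
  · rfl

theorem fold_comm {X : Type} {o a b : X} (h : a = o ∨ b = o) : fold o a b = fold o b a := by
  rcases h with rfl | rfl
  · rw [fold_left, fold_right]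
  · rw [fold_left, fold_right]

theorem fold_map {X Y : Type} {o a b : X} (f : X → Y) (h : a = o ∨ b = o) :
    f (fold o a b) = fold (f o) (f a) (f b) := by
  rcases h with rfl | rfl
  · rw [fold_left, fold_left]
  · rw [fold_right, fold_right]

theorem fold_cont {X : Type} [TopologicalSpace X] {o : X} (ho : IsClosed ({o} : Set X))
    {T : Type} [TopologicalSpace T] {a b : T → X} (ha : Continuous a) (hb : Continuous b)
    (h : ∀ t, a t = o ∨ b t = o) : Continuous fun t => fold o (a t) (b t) := by
  have hA : IsClosed {t | a t = o} := ho.preimage ha
  have hB : IsClosed {t | b t = o} := ho.preimage hb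
  have hU : {t | a t = o} ∪ {t | b t = o} = Set.univ := by
    ext t; simpa using h t
  rw [← continuousOn_univ, ← hU]
  refine ContinuousOn.union_of_isClosed ?_ ?_ hA hB
  · refine hb.continuousOn.congr fun t ht => ?_
    have : a t = o := ht
    rw [this, fold_left]
  · refine ha.continuousOn.congr fun t ht => ?_
    have : b t = o := ht
    rw [this, fold_right]

end Pool.Agent.MP_d175a7_gt
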