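import Pool.Agent.Lib.MP_d175a7_gt.SqC
import Pool.Agent.Lib.MP_d175a7_gt.SubW

/-!
# The truncated polynomial algebra `e[x]/(x²)`: semi-finiteness and the final form
-/

set_option autoImplicit false
set_option linter.unusedVariables false

namespace Pool.Agent.MP_d175a7_gt

open scoped Topology unitInterval

universe u v

variable (e : RSp)

/-- The wedge of two copies of `e`. -/
def wdgSp : Sp (fun _ : Fin 2 => e.self) where
  mem n z := z 0 = e.pt n ∨ z 1 = e.pt n
  act n A z h := by
    rcases h with h | h
    · left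
      change e.act n A (z 0) = e.pt n
      rw [h, e.act_pt]
    · right
      change e.act n A (z 1) = e.pt n
      rw [h, e.act_pt]
  smul {m n l} hm r z h := by
    rcases h with h | h
    · left
      change e.mul hm (r 0) (z 0) = e.pt l
      rw [h, e.mul_pt]
    · right
      change e.mul hm (r 1) (z 1) = e.pt l
      rw [h, e.mul_pt]
  mask n c _ z h := by
    rcases h with h | h
    · left
      beta_reduce
      rw [h]
      exact ite_self _
    · right
      beta_reduce
      rw [h]
      exact ite_self _
  axis n z a h := by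
    by_cases ha : a = 0
    · right
      exact h 1 (by rw [ha]; decide)
    · left
      exact h 0 (fun h0 => ha h0.symm)
  pt n := Or.inl rfl

/-- `e[x]/(x²)` as a module over `e`. -/
noncomputable def sqM : MSp e := (sq e).self.res (sqIn e)

/-- `e[x]/(x²)` is the wedge of two copies of `e`. -/
noncomputable def sqWdg : MHom (sqM e) (subM (wdgSp e)) where
  f n z := ⟨![z.1.1, z.1.2], z.2⟩
  cont n T _ _ _ g hg := by
    refine Continuous.subtype_mk (continuous_pi fun i => ?_) _
    fin_cases i
    · exact continuous_fst.comp (continuous_subtype_val.comp hg)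
    · exact continuous_snd.comp (continuous_subtype_val.comp hg)
  pt n := Subtype.ext (funext fun i => by fin_cases i <;> rfl)
  act n A x := Subtype.ext (funext fun i => by fin_cases i <;> rfl)
  smul {m n l} h r x := Subtype.ext (funext fun i => by
    fin_cases i
    · rfl
    · change fold (e.pt l) (e.mul h (e.pt m) x.1.1) (e.mul h r x.1.2) = e.mul h r x.1.2
      rw [e.pt_mul, fold_left])

/-- The inverse of `sqWdg`. -/
noncomputable def wdgSq : MHom (subM (wdgSp e)) (sqM e) where
  f n z := ⟨(z.1 0, z.1 1), z.2⟩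
  cont n T _ _ _ g hg := Continuous.subtype_mk
    (((continuous_apply 0).comp (continuous_subtype_val.comp hg)).prodMk
      ((continuous_apply 1).comp (continuous_subtype_val.comp hg))) _
  pt n := rfl
  act n A x := rfl
  smul {m n l} h r x := Subtype.ext (Prod.ext rfl (by
    change e.mul h r (x.1 1) = fold (e.pt l) (e.mul h (e.pt m) (x.1 0)) (e.mul h r (x.1 1))
    rw [e.pt_mul, fold_left]))

theorem sqWdg_isWeq : (sqWdg e).IsWeq :=
  isWeq_of_inv _ (wdgSq e).sh (fun n x => rfl)
    (fun n y => Subtype.ext (funext fun i => by fin_cases i <;> rfl))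

/-- The product of two copies of `e` is the homotopy pullback over the zero module. -/
def prdHpb : MHom (subM (spT (fun _ : Fin 2 => e.self)))
    (Hpb (MHom.zero e.self MSp.zero) (MHom.zero e.self MSp.zero)) where
  f n z := ⟨((z.1 0, z.1 1), cpath ()), rfl, rfl⟩
  cont n T _ _ _ g hg := Continuous.subtype_mk
    ((((continuous_apply 0).comp (continuous_subtype_val.comp hg)).prodMk
      ((continuous_apply 1).comp (continuous_subtype_val.comp hg))).prodMk
      continuous_const) _
  pt n := rfl
  act n A x := rfl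
  smul h r x := rfl

/-- The inverse of `prdHpb`. -/
def hpbPrd : MHom (Hpb (MHom.zero e.self MSp.zero) (MHom.zero e.self MSp.zero))
    (subM (spT (fun _ : Fin 2 => e.self))) where
  f n z := ⟨![z.1.1.1, z.1.1.2], trivial⟩
  cont n T _ _ _ g hg := by
    refine Continuous.subtype_mk (continuous_pi fun i => ?_) _
    fin_cases i
    · exact continuous_fst.comp (continuous_fst.comp (continuous_subtype_val.comp hg))
    · exact continuous_snd.comp (continuous_fst.comp (continuous_subtype_val.comp hg))
  pt n := Subtype.ext (funext fun i => by fin_cases i <;> rfl)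
  act n A x := Subtype.ext (funext fun i => by fin_cases i <;> rfl)
  smul h r x := Subtype.ext (funext fun i => by fin_cases i <;> rfl)

theorem prdHpb_isWeq : (prdHpb e).IsWeq :=
  isWeq_of_inv _ (hpbPrd e).sh
    (fun n x => Subtype.ext (funext fun i => by fin_cases i <;> rfl))
    (fun n y => Subtype.ext (Prod.ext rfl (ContinuousMap.ext fun u => rfl)))

/-- `e[x]/(x²)` is semi-finite over `e`. -/
theorem sq_semiFin : SemiFin e ((sq e).self.res (sqIn e)) := by
  refine SemiFin.weq' (sqWdg e) (sqWdg_isWeq e) ?_
  refine SemiFin.weq' (dia (wdgSp e) (fun _ => MHom.id e.self))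
    (dia_isWeq (wdgSp e) _ (fun _ => MHom.isWeq_id _)) ?_
  refine SemiFin.weq' (prdHpb e) (prdHpb_isWeq e) ?_
  exact SemiFin.hpb _ _ SemiFin.self SemiFin.self SemiFin.zero

/-- The final form for `B = e[x]/(x²)`. -/
theorem sq_final {p : ℕ} [Fact p.Prime] (e : RSp) (he : Connective e) (hei : Conn e)
    {k : Type} [CommRing k] [Nontrivial k] (hk : (p : k) = 0) (Q : RCh e k) :
    (∀ n x, (sqAug e).f n ((sqIn e).f n x) = x) ∧
      Connective (sq e) ∧ Conn (sq e) ∧ SemiFin e ((sq e).self.res (sqIn e)) ∧
      ∀ (D d : ℕ), 0 < d → ∀ (A : PS.{u}) (At : PS.{v}), DimLe A D → HNe p A D →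
        ∀ s : PMap At (Susp d A), HSur p s (D + d) → ∀ (w : PMap At A) (N : ℕ),
          ∃ j, N ≤ j ∧ ¬ Function.Surjective (Cls.pre (Susp.pmap j w) :
            Cls (Susp j A) (Kth (sq e)) → Cls (Susp j At) (Kth (sq e))) := by
  refine ⟨fun n x => rfl, sq_connective he, sq_conn hei, sq_semiFin e, ?_⟩
  intro D d hd A At hA hHN s hs w N
  have hp := (Fact.out : p.Prime)
  have h2 := hp.two_le
  have h3 : N + d + D + 1 ≤ p * (N + d + D + 1) := Nat.le_mul_of_pos_left _ (by omega)
  obtain ⟨m, hm⟩ : ∃ m, m = p * (N + d + D + 1) := ⟨_, rfl⟩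
  rw [← hm] at h3
  refine ⟨2 * m + 1 - d - D, by omega, ?_⟩
  have h4 : d + (2 * m + 1 - d - D) + D = p * (2 * (N + d + D + 1)) + 1 := by
    rw [show p * (2 * (N + d + D + 1)) = 2 * (p * (N + d + D + 1)) by ring, ← hm]
    omega
  refine sq_not_onto hk Q hd ⟨m, by omega⟩ (by omega) ?_ A At hA hHN s hs w
  rw [h4, Nat.coprime_mul_left_add_right]
  exact Nat.coprime_one_right p

end Pool.Agent.MP_d175a7_gt
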