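import Pool.Agent.Lib.MP_d175a7_gt.SubM

/-! # Loops in submodules of products and their coordinates -/

set_option autoImplicit false
set_option linter.unusedVariables false

namespace Pool.Agent.MP_d175a7_gt

open scoped Topology unitInterval

variable {R : RSp} {κ : Type} {Z : κ → MSp R}

private theorem SubH_ext {P : Seq} {a n : ℕ} {x y : Lp P a n} (h : ∀ t, x.1 t = y.1 t) :
    x = y := Subtype.ext (ContinuousMap.ext h)

/-- the first part of a loop with coordinates in `insert i T` -/
private theorem SubH_u [DecidableEq κ] (S : Sp Z) {a n : ℕ} (x : Lp (subM S).seq a n) (i : κ)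
    (T : Finset κ) (hi : i ∉ T) :
    (splC S (fun b => b = i)).u.lp ((keep S (fun b => b ∈ insert i T)).sh.lp x) =
      (keep S (fun b => b ∈ T)).sh.lp x := by
  refine SubH_ext fun t => Subtype.ext (funext fun b => ?_)
  change (if ¬ b = i then (if b ∈ insert i T then (x.1 t).1 b else (Z b).pt n) else (Z b).pt n) =
    (if b ∈ T then (x.1 t).1 b else (Z b).pt n)
  by_cases hb : b = i
  · subst hb
    rw [if_neg (not_not.2 rfl), if_neg hi]
  · rw [if_pos hb]
    by_cases hT : b ∈ T
    · rw [if_pos (Finset.mem_insert_of_mem hT), if_pos hT]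
    · rw [if_neg hT, if_neg]
      rw [Finset.mem_insert, not_or]
      exact ⟨hb, hT⟩

/-- the second part of a loop with coordinates in `insert i T` -/
private theorem SubH_v [DecidableEq κ] (S : Sp Z) {a n : ℕ} (x : Lp (subM S).seq a n) (i : κ)
    (T : Finset κ) :
    (splC S (fun b => b = i)).v.lp ((keep S (fun b => b ∈ insert i T)).sh.lp x) =
      (inj S i).sh.lp ((prj S i).sh.lp x) := by
  refine SubH_ext fun t => Subtype.ext (funext fun b => ?_)
  change (if b = i then (if b ∈ insert i T then (x.1 t).1 b else (Z b).pt n) else (Z b).pt n) =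
    ((inj S i).f n ((x.1 t).1 i)).1 b
  by_cases hb : b = i
  · subst hb
    rw [if_pos rfl, if_pos (Finset.mem_insert_self _ _)]
    exact (prj_inj_self S b n ((x.1 t).1 b)).symm
  · rw [if_neg hb]
    exact (prj_inj_ne S hb n ((x.1 t).1 i)).symm

private theorem SubH_empty [DecidableEq κ] (S : Sp Z) {a n : ℕ} (x y : Lp (subM S).seq a n) :
    (keep S (fun b => b ∈ (∅ : Finset κ))).sh.lp x =
      (keep S (fun b => b ∈ (∅ : Finset κ))).sh.lp y := by
  refine SubH_ext fun t => Subtype.ext (funext fun b => ?_)
  change (if b ∈ (∅ : Finset κ) then (x.1 t).1 b else (Z b).pt n) =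
    (if b ∈ (∅ : Finset κ) then (y.1 t).1 b else (Z b).pt n)
  rw [if_neg (Finset.notMem_empty b), if_neg (Finset.notMem_empty b)]

private theorem SubH_univ [Fintype κ] [DecidableEq κ] (S : Sp Z) {a n : ℕ}
    (x : Lp (subM S).seq a n) :
    (keep S (fun b => b ∈ (Finset.univ : Finset κ))).sh.lp x = x := by
  refine SubH_ext fun t => Subtype.ext (funext fun b => ?_)
  change (if b ∈ (Finset.univ : Finset κ) then (x.1 t).1 b else (Z b).pt n) = (x.1 t).1 b
  rw [if_pos (Finset.mem_univ b)]

/-- The homotopy class of the suspension of a loop in a submodule of a product is determined by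
the homotopy classes of its coordinates.  Proof: show by induction on a finite set `T` that
`st ((keep S (· ∈ T)).sh.lp x) ~ st ((keep S (· ∈ T)).sh.lp y)`: for `T = ∅` both loops are
constant and equal; for `insert a T` apply `Splt.st_split (splC S (· = a))` to
`(keep S (· ∈ insert a T)).sh.lp x` and to the same for `y`: the `u`-parts are
`(keep S (· ∈ T)).sh.lp x`, `.. y` (induction hypothesis) and the `v`-parts are
`(inj S a).sh.lp ((prj S a).sh.lp x)`, `.. y`, homotopic by `lp_homotopic`; use
`transAt_homotopic`, `st_homotopic`.  For `T = univ` the map `keep` is the identity. -/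
theorem st_sub_coord [Fintype κ] (S : Sp Z) {a n : ℕ} (x y : Lp (subM S).seq a n)
    (h : ∀ i, GenLoop.Homotopic ((prj S i).sh.lp x) ((prj S i).sh.lp y)) :
    GenLoop.Homotopic (st x) (st y) := by
  classical
  have key : ∀ T : Finset κ, GenLoop.Homotopic (st ((keep S (fun b => b ∈ T)).sh.lp x))
      (st ((keep S (fun b => b ∈ T)).sh.lp y)) := by
    intro T
    induction T using Finset.induction_on with
    | empty =>
      rw [SubH_empty S x y]
    | insert i T hi ih =>
      have h1 := (splC S (fun b => b = i)).st_split ((keep S (fun b => b ∈ insert i T)).sh.lp x)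
      have h2 := (splC S (fun b => b = i)).st_split ((keep S (fun b => b ∈ insert i T)).sh.lp y)
      rw [SubH_u S x i T hi, SubH_v S x i T] at h1
      rw [SubH_u S y i T hi, SubH_v S y i T] at h2
      exact (h1.trans (transAt_homotopic ih
        (st_homotopic (lp_homotopic (inj S i).sh (h i))))).trans h2.symm
  have h3 := key Finset.univ
  rw [SubH_univ S x, SubH_univ S y] at h3
  exact h3

/-- Every family of loops is, up to homotopy and after one suspension, the family of coordinates
of a loop in the submodule.  Proof: by induction on a finite set `T` find `y` with coordinates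
`~ st (x b)` for `b ∈ T` and `~ cstLp` for `b ∉ T`: start with the constant loop; for `insert c T`
take `transAt 0 y ((inj S c).sh.lp (st (x c)))`; its coordinates are
`transAt 0 ((prj S b).sh.lp y) (prj b (inj c (st (x c))))` (`lp_transAt`), where the second loop is
`st (x c)` for `b = c` and constant for `b ≠ c` (`prj_inj_self`, `prj_inj_ne`); use `transAt_cst`,
`cst_transAt`, `transAt_homotopic`. -/
theorem exists_sub [Fintype κ] (S : Sp Z) {a n : ℕ} (x : ∀ i, Lp (Z i).seq a n) :
    ∃ y : Lp (subM S).seq (a + 1) (n + 1), ∀ i,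
      GenLoop.Homotopic ((prj S i).sh.lp y) (st (x i)) := by
  classical
  have key : ∀ T : Finset κ, ∃ y : Lp (subM S).seq (a + 1) (n + 1),
      (∀ b ∈ T, GenLoop.Homotopic ((prj S b).sh.lp y) (st (x b))) ∧
      ∀ b ∉ T, GenLoop.Homotopic ((prj S b).sh.lp y) (cstLp (Z b).seq (a + 1) (n + 1)) := by
    intro T
    induction T using Finset.induction_on with
    | empty =>
      refine ⟨cstLp (subM S).seq (a + 1) (n + 1), fun b hb => absurd hb (Finset.notMem_empty b),
        fun b _ => ?_⟩
      have h1 : (prj S b).sh.lp (cstLp (subM S).seq (a + 1) (n + 1)) =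
          cstLp (Z b).seq (a + 1) (n + 1) := SubH_ext fun t => rfl
      rw [h1]
    | insert c T hc ih =>
      obtain ⟨y, hy1, hy2⟩ := ih
      refine ⟨GenLoop.transAt 0 y ((inj S c).sh.lp (st (x c))), fun b hb => ?_, fun b hb => ?_⟩
      · rw [lp_transAt]
        by_cases hbc : b = c
        · subst hbc
          have h1 : (prj S b).sh.lp ((inj S b).sh.lp (st (x b))) = st (x b) :=
            SubH_ext fun t => prj_inj_self S b (n + 1) ((st (x b)).1 t)
          rw [h1]
          exact (transAt_homotopic (hy2 b hc) (GenLoop.Homotopic.refl _)).trans (cst_transAt _)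
        · have h1 : (prj S b).sh.lp ((inj S c).sh.lp (st (x c))) =
              cstLp (Z b).seq (a + 1) (n + 1) :=
            SubH_ext fun t => prj_inj_ne S hbc (n + 1) ((st (x c)).1 t)
          rw [h1]
          exact (transAt_cst _).trans (hy1 b ((Finset.mem_insert.1 hb).resolve_left hbc))
      · rw [lp_transAt]
        rw [Finset.mem_insert, not_or] at hb
        have h1 : (prj S b).sh.lp ((inj S c).sh.lp (st (x c))) =
            cstLp (Z b).seq (a + 1) (n + 1) :=
          SubH_ext fun t => prj_inj_ne S hb.1 (n + 1) ((st (x c)).1 t)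
        rw [h1]
        exact (transAt_cst _).trans (hy2 b hb.2)
  obtain ⟨y, hy, -⟩ := key Finset.univ
  exact ⟨y, fun i => hy i (Finset.mem_univ i)⟩

end Pool.Agent.MP_d175a7_gt
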