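import Pool.Agent.Lib.MP_d175a7_gt.PrcN

/-! # Suspensions of cycles -/

set_option autoImplicit false
set_option linter.unusedVariables false

namespace Pool.Agent.MP_d175a7_gt

universe u v

/-- the pointed simplicial set `(Δ^1)^b × X` -/
private def SusA_Y (b : ℕ) (X : PS.{u}) : PS.{u} where
  X n := (Fin b → Mon n) × X.X n
  map α q := (fun a => (q.1 a).comp α, X.map α q.2)
  map_id q := Prod.ext rfl (X.map_id _)
  map_comp α β q := Prod.ext rfl (X.map_comp α β _)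
  pt n := (fun _ => cst n false, X.pt n)
  map_pt α := Prod.ext rfl (X.map_pt α)

/-- the cochain on the cylinder -/
private def SusA_Ψ {p b : ℕ} {X : PS.{u}} (Ψ : CuC p (b + 1) X) : CoCh p (Cyl (SusA_Y b X)) :=
  fun n q => Ψ n (Fin.cons (α := fun _ => Mon n) q.1 q.2.1) q.2.2

private theorem SusA_cons {b m n : ℕ} (α : Fin (m + 1) →o Fin (n + 1)) (ρ : Mon n)
    (τ : Fin b → Mon n) :
    (fun a => (Fin.cons (α := fun _ => Mon n) ρ τ a : Mon n).comp α) =
      Fin.cons (α := fun _ => Mon m) (ρ.comp α) (fun a => (τ a).comp α) := by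
  funext a
  refine Fin.cases ?_ (fun a => ?_) a
  · rfl
  · rfl

private def SusA_mk {b : ℕ} {X : PS.{u}} {n : ℕ} (τ : Fin b → Mon n) (x : X.X n) :
    (SusA_Y b X).X n := (τ, x)

private theorem SusA_prc {p b : ℕ} {X : PS.{u}} (Ψ : CuC p (b + 1) X) (n : ℕ)
    (τ : Fin b → Mon n) (x : X.X n) :
    prc (SusA_Ψ Ψ) n (SusA_mk τ x) = Pool.Agent.MP_d175a7_gt.pr1 Ψ n τ x := rfl

/-- normalised and trivial on the boundary -/
private structure SusA_G {p b : ℕ} {X : PS.{u}} (Ψ : CuC p b X) : Prop where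
  nrm : ∀ (n i : ℕ) (τ : Fin b → Mon n) (x : X.X n),
    Ψ (n + 1) (fun a => (τ a).comp (sig n i)) (X.map (sig n i) x) = 0
  bad : ∀ (n : ℕ) (τ : Fin b → Mon n) (x : X.X n), Bad b X n (τ, x) → Ψ n τ x = 0

private theorem SusA_pr1 {p b : ℕ} {X : PS.{u}} {Ψ : CuC p (b + 1) X} (h : SusA_G Ψ) :
    SusA_G (Pool.Agent.MP_d175a7_gt.pr1 Ψ) := by
  constructor
  · have h1 : Nrm (prc (SusA_Ψ Ψ)) := by
      refine prc_nrm (SusA_Ψ Ψ) (fun n i q => ?_) (fun n τ => ?_)
      · have h2 := h.nrm n i (Fin.cons (α := fun _ => Mon n) q.1 q.2.1) q.2.2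
        rw [SusA_cons] at h2
        exact h2
      · exact h.bad n _ _ (Or.inr rfl)
    intro n i τ x
    exact h1.2 n i (τ, x)
  · intro n τ x hb
    refine Finset.sum_eq_zero fun i _ => ?_
    have h1 : Ψ (n + 1) (Fin.cons (α := fun _ => Mon (n + 1)) (rho (n + 1) i)
        (fun a => (τ a).comp (sig n i))) (X.map (sig n i) x) = 0 := by
      refine h.bad _ _ _ ?_
      rcases hb with ⟨a, ha⟩ | hb
      · exact Or.inl ⟨a.succ, fun l l' => ha _ _⟩
      · refine Or.inr ?_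
        change X.map (sig n i) x = X.pt (n + 1)
        have hx : x = X.pt n := hb
        rw [hx, X.map_pt]
    rw [h1, mul_zero]

/-- the coboundary -/
private def SusA_cob {p b : ℕ} {X : PS.{u}} (Ψ : CuC p b X) : CuC p b X
  | 0, _, _ => 0
  | n + 1, τ, x => ∑ i ∈ Finset.range (n + 2), (-1) ^ i *
      Ψ n (fun a => (τ a).comp (del n i)) (X.map (del n i) x)

private theorem SusA_cobΨ {p b : ℕ} {X : PS.{u}} (Ψ : CuC p (b + 1) X) :
    cob (SusA_Ψ Ψ) = SusA_Ψ (SusA_cob Ψ) := by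
  funext n q
  cases n with
  | zero => rfl
  | succ n =>
    refine Finset.sum_congr rfl fun i _ => ?_
    have h1 := SusA_cons (del n i) q.1 q.2.1
    refine congrArg (fun z => (-1) ^ i * z) ?_
    exact (congrArg (fun z => Ψ n z (X.map (del n i) q.2.2)) h1).symm

private theorem SusA_zero {p b : ℕ} {X : PS.{u}} {Ψ : CuC p (b + 1) X} (h : SusA_G Ψ) (n : ℕ)
    (c : Bool) (τ : Fin b → Mon n) (x : X.X n) :
    SusA_Ψ Ψ n ((cst n c, SusA_mk τ x) : (Cyl (SusA_Y b X)).X n) = 0 :=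
  h.bad _ _ _ (Or.inl ⟨0, fun _ _ => rfl⟩)

private theorem SusA_pr1_cob {p b : ℕ} {X : PS.{u}} {Ψ : CuC p (b + 1) X} (h : SusA_G Ψ) :
    Pool.Agent.MP_d175a7_gt.pr1 (SusA_cob Ψ) =
      SusA_cob (fun n τ x => - Pool.Agent.MP_d175a7_gt.pr1 Ψ n τ x) := by
  funext n τ x
  rw [← SusA_prc, ← SusA_cobΨ]
  cases n with
  | zero =>
    rw [prism_zero, SusA_zero h, SusA_zero h, sub_zero]
    rfl
  | succ n =>
    rw [prism, SusA_zero h, SusA_zero h, sub_zero, zero_sub]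
    have h1 : cob (prc (SusA_Ψ Ψ)) (n + 1) (SusA_mk τ x) =
      ∑ i ∈ Finset.range (n + 2), (-1) ^ i * Pool.Agent.MP_d175a7_gt.pr1 Ψ n
        (fun a => (τ a).comp (del n i)) (X.map (del n i) x) := rfl
    rw [h1, ← Finset.sum_neg_distrib]
    exact Finset.sum_congr rfl fun i _ => (mul_neg _ _).symm

private theorem SusA_neg {p b : ℕ} {X : PS.{u}} {Ψ : CuC p b X} (h : SusA_G Ψ) :
    SusA_G (fun n τ x => - Ψ n τ x) := by
  constructor
  · intro n i τ x
    rw [h.nrm, neg_zero]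
  · intro n τ x hb
    rw [h.bad n τ x hb, neg_zero]

private theorem SusA_0 {p : ℕ} {X : PS.{u}} {Ψ : CuC p 0 X} (h : SusA_G Ψ) :
    Nrm (pr 0 Ψ) := by
  constructor
  · intro n
    exact h.bad n _ _ (Or.inr rfl)
  · intro n i y
    have h1 := h.nrm n i (fun i => i.elim0) y
    have h2 : (fun a : Fin 0 => ((fun i : Fin 0 => i.elim0 : Fin 0 → Mon n) a).comp (sig n i)) =
      (fun i => i.elim0 : Fin 0 → Mon (n + 1)) := funext fun a => a.elim0
    rw [h2] at h1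
    exact h1

private theorem SusA_0c {p : ℕ} {X : PS.{u}} (Ψ : CuC p 0 X) (n : ℕ) (x : X.X n) :
    pr 0 (SusA_cob Ψ) n x = cob (pr 0 Ψ) n x := by
  cases n with
  | zero => rfl
  | succ n =>
    have h1 : ∀ i, (-1) ^ i * Ψ n (fun a : Fin 0 =>
        ((fun i : Fin 0 => i.elim0 : Fin 0 → Mon (n + 1)) a).comp (del n i))
          (X.map (del n i) x) =
        (-1) ^ i * Ψ n (fun i => i.elim0 : Fin 0 → Mon n) (X.map (del n i) x) := fun i => by
      have h2 : (fun a : Fin 0 => ((fun i : Fin 0 => i.elim0 : Fin 0 → Mon (n + 1)) a).comp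
        (del n i)) = (fun i => i.elim0 : Fin 0 → Mon n) := funext fun a => a.elim0
      rw [h2]
    have h3 : pr 0 (SusA_cob Ψ) (n + 1) x = ∑ i ∈ Finset.range (n + 2),
      (-1) ^ i * Ψ n (fun a : Fin 0 =>
        ((fun i : Fin 0 => i.elim0 : Fin 0 → Mon (n + 1)) a).comp (del n i))
          (X.map (del n i) x) := rfl
    have h4 : cob (pr 0 Ψ) (n + 1) x = ∑ i ∈ Finset.range (n + 2),
      (-1) ^ i * Ψ n (fun i => i.elim0 : Fin 0 → Mon n) (X.map (del n i) x) := rfl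
    rw [h3, h4]
    exact Finset.sum_congr rfl fun i _ => h1 i

private theorem SusA_main {p : ℕ} {X : PS.{u}} : ∀ (b : ℕ) (Ψ : CuC p b X), SusA_G Ψ →
    ∃ χ : CoCh p X, Nrm χ ∧ ∀ n x, pr b (SusA_cob Ψ) n x = cob χ n x
  | 0, Ψ, h => ⟨pr 0 Ψ, SusA_0 h, fun n x => SusA_0c Ψ n x⟩
  | b + 1, Ψ, h => by
    obtain ⟨χ, h1, h2⟩ := SusA_main b _ (SusA_neg (SusA_pr1 h))
    refine ⟨χ, h1, fun n x => ?_⟩
    rw [← h2 n x]
    change pr b (Pool.Agent.MP_d175a7_gt.pr1 (SusA_cob Ψ)) n x = _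
    rw [SusA_pr1_cob h]

private theorem SusA_susp {p b : ℕ} {X : PS.{u}} (ψ : CoCh p (Susp b X)) (hn : Nrm ψ) :
    SusA_G (fun n τ x => ψ n (Susp.mk τ x) : CuC p b X) := by
  constructor
  · intro n i τ x
    exact hn.2 n i (Susp.mk τ x)
  · intro n τ x hb
    rw [Susp.mk_bad hb]
    exact hn.1 n

/-- Cochains on `(Δ^1)^b × X` which are cocycles, normalised and trivial on the boundary. -/
structure GCu {p b : ℕ} {X : PS.{u}} (Ψ : CuC p b X) : Prop where
  coc : ∀ (n : ℕ) (τ : Fin b → Mon (n + 1)) (x : X.X (n + 1)),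
    ∑ i ∈ Finset.range (n + 2), (-1) ^ i *
      Ψ n (fun a => (τ a).comp (del n i)) (X.map (del n i) x) = 0
  nrm : ∀ (n i : ℕ) (τ : Fin b → Mon n) (x : X.X n),
    Ψ (n + 1) (fun a => (τ a).comp (sig n i)) (X.map (sig n i) x) = 0
  bad : ∀ (n : ℕ) (τ : Fin b → Mon n) (x : X.X n), Bad b X n (τ, x) → Ψ n τ x = 0

/-- One prism operator preserves these cochains.  Proof: apply `prism`, `prism_zero`, `prc_nrm` to
the pointed simplicial set `(Δ^1)^b × X` (base points arbitrary, e.g. `(cst, pt)`) and the cochain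
`(ρ, (τ, x)) ↦ Ψ (Fin.cons ρ τ) x`: it is a cocycle, so `0 = Ψ(true, .) - Ψ(false, .) -
δ(prc Ψ)` and the first two terms vanish by `bad`. -/
theorem GCu.pr1 {p b : ℕ} {X : PS.{u}} {Ψ : CuC p (b + 1) X} (h : GCu Ψ) :
    GCu (Pool.Agent.MP_d175a7_gt.pr1 Ψ) := by
  have hG : SusA_G Ψ := ⟨h.nrm, h.bad⟩
  have h1 := SusA_pr1 hG
  refine ⟨fun n τ x => ?_, h1.nrm, h1.bad⟩
  have h2 : SusA_cob Ψ = fun _ _ _ => 0 := by
    funext n τ x
    cases n with
    | zero => rfl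
    | succ n => exact h.coc n τ x
  have h3 := congrFun (congrFun (congrFun (SusA_pr1_cob hG) (n + 1)) τ) x
  rw [h2] at h3
  have h4 : Pool.Agent.MP_d175a7_gt.pr1 (fun _ _ _ => 0 : CuC p (b + 1) X) (n + 1) τ x = 0 :=
    Finset.sum_eq_zero fun i _ => mul_zero _
  rw [h4] at h3
  have h5 : SusA_cob (fun n τ x => - Pool.Agent.MP_d175a7_gt.pr1 Ψ n τ x) (n + 1) τ x =
      - ∑ i ∈ Finset.range (n + 2), (-1) ^ i * Pool.Agent.MP_d175a7_gt.pr1 Ψ n
        (fun a => (τ a).comp (del n i)) (X.map (del n i) x) := by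
    rw [← Finset.sum_neg_distrib]
    exact Finset.sum_congr rfl fun i _ => mul_neg _ _
  rw [h5] at h3
  exact neg_eq_zero.1 h3.symm

/-- The iterated prism operator applied to a normalised cocycle of the suspension is a normalised
cocycle.  Proof: `fun n τ x => ψ n (Susp.mk τ x)` is a `GCu`; induction on `b` with `GCu.pr1`. -/
theorem pr_coc {p b : ℕ} {X : PS.{u}} (ψ : CoCh p (Susp b X)) (hn : Nrm ψ) (hc : IsCoc ψ) :
    Nrm (pr b fun n τ x => ψ n (Susp.mk τ x)) ∧ IsCoc (pr b fun n τ x => ψ n (Susp.mk τ x)) := by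
  have key : ∀ (b : ℕ) (Ψ : CuC p b X), GCu Ψ → Nrm (pr b Ψ) ∧ IsCoc (pr b Ψ) := by
    intro b
    induction b with
    | zero =>
      intro Ψ h
      refine ⟨SusA_0 ⟨h.nrm, h.bad⟩, fun n x => ?_⟩
      rw [← SusA_0c]
      cases n with
      | zero => rfl
      | succ n => exact h.coc n _ x
    | succ b ih =>
      intro Ψ h
      exact ih _ h.pr1
  have h1 := SusA_susp ψ hn
  refine key b _ ⟨fun n τ x => ?_, h1.nrm, h1.bad⟩
  exact hc (n + 1) (Susp.mk τ x)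

/-- Without the cocycle condition: `pr b` of the coboundary of a normalised cochain is plus or
minus the coboundary of a normalised cochain. (Same proof: `pr1 (cob Ψ) = - cob (pr1 Ψ)` for
cochains on `(Δ^1)^(b+1) × X` vanishing on the boundary.) -/
theorem pr_cob {p b : ℕ} {X : PS.{u}} (ψ : CoCh p (Susp b X)) (hn : Nrm ψ) :
    ∃ χ : CoCh p X, Nrm χ ∧ ∀ n x, pr b (fun n τ x => cob ψ n (Susp.mk τ x)) n x = cob χ n x := by
  obtain ⟨χ, h1, h2⟩ := SusA_main b _ (SusA_susp ψ hn)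
  refine ⟨χ, h1, fun n x => ?_⟩
  rw [← h2 n x]
  have h3 : (fun n τ x => cob ψ n (Susp.mk τ x) : CuC p b X) =
      SusA_cob (fun n τ x => ψ n (Susp.mk τ x) : CuC p b X) := by
    funext n τ x
    cases n with
    | zero => rfl
    | succ n => rfl
  rw [h3]

end Pool.Agent.MP_d175a7_gt
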