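import Pool.Agent.Lib.MP_d175a7_gt.Bk
import Pool.Agent.Lib.MP_d175a7_gt.Lam

/-! # Topology: currying, block sums, smash product of spheres -/

set_option autoImplicit false
set_option linter.unusedVariables false

namespace Pool.Agent.MP_d175a7_gt

open scoped Topology unitInterval

theorem curry_cont {T X Y : Type} [TopologicalSpace T] [TopologicalSpace X] [TopologicalSpace Y]
    (f : T → C(X, Y)) (h : Continuous fun q : T × X => f q.1 q.2) : Continuous f :=
  ContinuousMap.continuous_of_continuous_uncurry f h

theorem uncurry_cont {T X Y : Type} [TopologicalSpace T] [TopologicalSpace X]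
    [LocallyCompactSpace X] [TopologicalSpace Y]
    (f : T → C(X, Y)) (h : Continuous f) : Continuous fun q : T × X => f q.1 q.2 :=
  ContinuousMap.continuous_uncurry_of_continuous ⟨f, h⟩

theorem blk_cont {m n k : ℕ} (h : m + n = k) :
    Continuous fun q : Ort m × Ort n => blk h q.1 q.2 := by
  refine Continuous.subtype_mk ?_ _
  refine Continuous.matrix_reindex ?_ _ _
  refine Continuous.matrix_fromBlocks ?_ continuous_const continuous_const ?_
  · exact continuous_subtype_val.comp continuous_fst
  · exact continuous_subtype_val.comp continuous_snd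

/-- Maps to a one point compactification. -/
theorem cont_onePoint {X Y : Type} [TopologicalSpace X] [TopologicalSpace Y] [T2Space Y]
    (f : X → OnePoint Y) (h1 : ∀ U : Set Y, IsOpen U → IsOpen (f ⁻¹' (OnePoint.some '' U)))
    (h2 : ∀ K : Set Y, IsCompact K → IsClosed (f ⁻¹' (OnePoint.some '' K))) : Continuous f := by
  refine continuous_def.2 fun s hs => ?_
  by_cases hi : (OnePoint.infty : OnePoint Y) ∈ s
  · have h3 := OnePoint.isOpen_iff_of_mem hi |>.1 hs
    have h4 : f ⁻¹' s = (f ⁻¹' (OnePoint.some '' ((↑) ⁻¹' s : Set Y)ᶜ))ᶜ := by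
      ext x
      simp only [Set.mem_preimage, Set.mem_compl_iff, Set.mem_image, not_exists, not_and]
      constructor
      · intro hx y hy he
        exact hy (by rw [he]; exact hx)
      · intro hx
        by_contra hc
        rcases hfx : f x with _ | y
        · rw [hfx] at hc; exact hc hi
        · rw [hfx] at hc
          exact hx y hc hfx.symm
    rw [h4]
    exact (h2 _ h3.2).isOpen_compl
  · have h4 : f ⁻¹' s = f ⁻¹' (OnePoint.some '' ((↑) ⁻¹' s : Set Y)) := by
      ext x
      simp only [Set.mem_preimage, Set.mem_image]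
      constructor
      · intro hx
        rcases hfx : f x with _ | y
        · rw [hfx] at hx; exact absurd hx hi
        · rw [hfx] at hx
          exact ⟨y, hx, rfl⟩
      · rintro ⟨y, hy, he⟩
        rw [← he]; exact hy
    rw [h4]
    exact h1 _ (OnePoint.isOpen_iff_of_notMem hi |>.1 hs)

theorem jv_cont {m n k : ℕ} (h : m + n = k) :
    Continuous fun q : (Fin m → ℝ) × (Fin n → ℝ) => jv h q.1 q.2 := by
  refine continuous_pi fun i => ?_
  obtain ⟨x, rfl⟩ := (sumFin h).surjective i
  rcases x with x | x
  · simp only [jv_inl]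
    exact (continuous_apply x).comp continuous_fst
  · simp only [jv_inr]
    exact (continuous_apply x).comp continuous_snd

theorem jl_cont {m n k : ℕ} (h : m + n = k) : Continuous (jl h) :=
  continuous_pi fun i => continuous_apply _

theorem jr_cont {m n k : ℕ} (h : m + n = k) : Continuous (jr h) :=
  continuous_pi fun i => continuous_apply _

theorem sm_eq_some {m n k : ℕ} (h : m + n = k) (v : Sph m) (w : Sph n) (z : Fin k → ℝ)
    (hz : sm h v w = OnePoint.some z) :
    v = OnePoint.some (jl h z) ∧ w = OnePoint.some (jr h z) := by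
  induction v using OnePoint.rec with
  | infty => exact absurd hz (OnePoint.infty_ne_coe z)
  | coe x =>
    induction w using OnePoint.rec with
    | infty => rw [sm_infty] at hz; exact absurd hz (OnePoint.infty_ne_coe z)
    | coe y =>
      rw [sm_some] at hz
      have h1 := OnePoint.coe_injective hz
      rw [← h1, jl_jv, jr_jv]
      exact ⟨rfl, rfl⟩

/-- `S^m ∧ S^n → S^k` is continuous. -/
theorem sm_cont {m n k : ℕ} (h : m + n = k) : Continuous fun q : Sph m × Sph n => sm h q.1 q.2 := by
  refine cont_onePoint _ (fun U hU => ?_) (fun K hK => ?_)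
  · have h1 : (fun q : Sph m × Sph n => sm h q.1 q.2) ⁻¹' (OnePoint.some '' U) =
        Prod.map OnePoint.some OnePoint.some '' {q : (Fin m → ℝ) × (Fin n → ℝ) |
          jv h q.1 q.2 ∈ U} := by
      ext ⟨v, w⟩
      constructor
      · rintro ⟨z, hz, he⟩
        obtain ⟨h2, h3⟩ := sm_eq_some h v w z he.symm
        refine ⟨(jl h z, jr h z), ?_, ?_⟩
        · change jv h (jl h z) (jr h z) ∈ U
          rw [jv_jl_jr]; exact hz
        · rw [h2, h3]; rfl
      · rintro ⟨⟨x, y⟩, hxy, he⟩
        obtain ⟨rfl, rfl⟩ := Prod.ext_iff.1 he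
        exact ⟨jv h x y, hxy, rfl⟩
    rw [h1]
    exact (OnePoint.isOpenEmbedding_coe.prodMap OnePoint.isOpenEmbedding_coe).isOpenMap _
      (hU.preimage (jv_cont h))
  · have h1 : (fun q : Sph m × Sph n => sm h q.1 q.2) ⁻¹' (OnePoint.some '' K) =
        (fun z : Fin k → ℝ => ((OnePoint.some (jl h z) : Sph m),
          (OnePoint.some (jr h z) : Sph n))) '' K := by
      ext ⟨v, w⟩
      constructor
      · rintro ⟨z, hz, he⟩
        obtain ⟨h2, h3⟩ := sm_eq_some h v w z he.symm
        exact ⟨z, hz, by rw [h2, h3]⟩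
      · rintro ⟨z, hz, he⟩
        obtain ⟨rfl, rfl⟩ := Prod.ext_iff.1 he
        refine ⟨z, hz, ?_⟩
        change _ = sm h (OnePoint.some (jl h z)) (OnePoint.some (jr h z))
        rw [sm_some, jv_jl_jr]
    rw [h1]
    refine (hK.image ?_).isClosed
    exact (OnePoint.continuous_coe.comp (jl_cont h)).prodMk
      (OnePoint.continuous_coe.comp (jr_cont h))

theorem sm_surj {m n k : ℕ} (h : m + n = k) (z : Sph k) :
    ∃ q : Sph m × Sph n, sm h q.1 q.2 = z := by
  induction z using OnePoint.rec with
  | infty => exact ⟨(OnePoint.infty, OnePoint.infty), rfl⟩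
  | coe z => exact ⟨(OnePoint.some (jl h z), OnePoint.some (jr h z)), by
      change sm h (OnePoint.some (jl h z)) (OnePoint.some (jr h z)) = _
      rw [sm_some, jv_jl_jr]⟩

theorem ort_mulVec_cont {T : Type} [TopologicalSpace T] {n : ℕ} (A : T → Ort n)
    (hA : Continuous A) :
    Continuous fun q : T × (Fin n → ℝ) => (A q.1).1.mulVec q.2 :=
  Continuous.matrix_mulVec (continuous_subtype_val.comp (hA.comp continuous_fst)) continuous_snd

/-- A family of orthogonal matrices acts continuously on the sphere. -/
theorem sact_cont {T : Type} [TopologicalSpace T] [CompactSpace T] [T2Space T] {n : ℕ}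
    (A : T → Ort n) (hA : Continuous A) :
    Continuous fun q : T × Sph n => sact (A q.1) q.2 := by
  refine cont_onePoint _ (fun U hU => ?_) (fun K hK => ?_)
  · have h1 : (fun q : T × Sph n => sact (A q.1) q.2) ⁻¹' (OnePoint.some '' U) =
        Prod.map id OnePoint.some '' {q : T × (Fin n → ℝ) | (A q.1).1.mulVec q.2 ∈ U} := by
      ext ⟨t, w⟩
      constructor
      · rintro ⟨z, hz, he⟩
        induction w using OnePoint.rec with
        | infty => exact absurd he (OnePoint.coe_ne_infty z)
        | coe w =>
          refine ⟨(t, w), ?_, rfl⟩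
          have h2 : z = (A t).1.mulVec w := OnePoint.coe_injective he
          change (A t).1.mulVec w ∈ U
          rw [← h2]; exact hz
      · rintro ⟨⟨s, y⟩, hxy, he⟩
        obtain ⟨rfl, rfl⟩ := Prod.ext_iff.1 he
        exact ⟨_, hxy, rfl⟩
    rw [h1]
    exact ((Topology.IsOpenEmbedding.id).prodMap OnePoint.isOpenEmbedding_coe).isOpenMap _
      (hU.preimage (ort_mulVec_cont A hA))
  · have h1 : (fun q : T × Sph n => sact (A q.1) q.2) ⁻¹' (OnePoint.some '' K) =
        (fun q : T × (Fin n → ℝ) => (q.1, (OnePoint.some ((A q.1)⁻¹.1.mulVec q.2) : Sph n))) ''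
          (Set.univ ×ˢ K) := by
      ext ⟨t, w⟩
      constructor
      · rintro ⟨z, hz, he⟩
        induction w using OnePoint.rec with
        | infty => exact absurd he (OnePoint.coe_ne_infty z)
        | coe w =>
          have h2 : z = (A t).1.mulVec w := OnePoint.coe_injective he
          refine ⟨(t, z), ⟨Set.mem_univ _, hz⟩, ?_⟩
          change (t, (OnePoint.some ((A t)⁻¹.1.mulVec z) : Sph n)) = _
          rw [h2, ← ort_mul_mulVec, inv_mul_cancel, ort_one_mulVec]
      · rintro ⟨⟨s, z⟩, ⟨_, hz⟩, he⟩
        obtain ⟨rfl, rfl⟩ := Prod.ext_iff.1 he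
        refine ⟨z, hz, ?_⟩
        change _ = sact (A s) (OnePoint.some ((A s)⁻¹.1.mulVec z))
        rw [sact_some, ← ort_mul_mulVec, mul_inv_cancel, ort_one_mulVec]
    rw [h1]
    refine ((isCompact_univ.prod hK).image ?_).isClosed
    exact continuous_fst.prodMk (OnePoint.continuous_coe.comp
      (ort_mulVec_cont (fun t => (A t)⁻¹) hA.inv))

end Pool.Agent.MP_d175a7_gt
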