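import Pool.Agent.Lib.MP_d175a7_gt.BfD
import Pool.Agent.Lib.MP_d175a7_gt.BfCol

/-!
# Weighted differences of families congruent modulo `p`

For weights `c_s` with `∑ c_s = 0` and a family `x_s`, all `x_s` congruent modulo `p`, the element
`x + ε (∑ c_s x_s) / p` of `(Λ/p)[ε]`.
-/

set_option autoImplicit false
set_option linter.unusedVariables false

namespace Pool.Agent.MP_d175a7_gt

section Psi

variable {Λ : Type} [CommRing Λ] (p : ℕ) {f : ℕ} (c : Fin f → Λ) (o : Fin f)

/-- `(x_s) ↦ x_o + ε (∑ c_s x_s) / p`. -/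
noncomputable def psiC (x : Fin f → Λ) : DualNumber (ResP p Λ) :=
  (Ideal.Quotient.mk _ (x o), lamQ p Λ (∑ s, c s * x s))

variable {p} {c}

theorem psiC_fst (x : Fin f → Λ) : (psiC p c o x).fst = Ideal.Quotient.mk _ (x o) := rfl

theorem psiC_snd (x : Fin f → Λ) : (psiC p c o x).snd = lamQ p Λ (∑ s, c s * x s) := rfl

/-- For `x_s = x_o + p y_s` one has `∑ c_s x_s = p ∑ c_s y_s`. -/
theorem sum_cong (hc : ∑ s, c s = 0) {x y : Fin f → Λ} (hx : ∀ s, x s - x o = p * y s) :
    ∑ s, c s * x s = p * ∑ s, c s * y s := by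
  have h1 : ∀ s, c s * x s = c s * x o + p * (c s * y s) := fun s => by
    have h2 : x s = x o + p * y s := by rw [← hx]; ring
    rw [h2]; ring
  rw [Finset.sum_congr rfl fun s _ => h1 s, Finset.sum_add_distrib, ← Finset.sum_mul, hc,
    zero_mul, zero_add, Finset.mul_sum]

/-- The value on a family `x_s = x_o + p y_s`. -/
theorem psiC_eq (hf : ∀ x : Λ, (p : Λ) * x = 0 → ∃ y, x = p * y) (hc : ∑ s, c s = 0)
    {x y : Fin f → Λ} (hx : ∀ s, x s - x o = p * y s) :
    psiC p c o x = (Ideal.Quotient.mk _ (x o), Ideal.Quotient.mk _ (∑ s, c s * y s)) := by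
  refine Prod.ext rfl ?_
  change lamQ p Λ (∑ s, c s * x s) = _
  rw [sum_cong o hc hx, lamQ_mul hf]

theorem psiC_add (hf : ∀ x : Λ, (p : Λ) * x = 0 → ∃ y, x = p * y) (hc : ∑ s, c s = 0)
    (x x' : Fin f → Λ) (hx : ∀ i, ∃ y, x i - x o = p * y) (hx' : ∀ i, ∃ y, x' i - x' o = p * y) :
    psiC p c o (fun i => x i + x' i) = psiC p c o x + psiC p c o x' := by
  choose y hy using hx
  choose y' hy' using hx'
  have h1 : ∀ s, (x s + x' s) - (x o + x' o) = p * (y s + y' s) := fun s => by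
    rw [mul_add, ← hy, ← hy']; ring
  rw [psiC_eq o hf hc hy, psiC_eq o hf hc hy', psiC_eq (x := fun i => x i + x' i) o hf hc h1]
  refine Prod.ext (map_add _ _ _) ?_
  change Ideal.Quotient.mk _ (∑ s, c s * (y s + y' s)) =
    Ideal.Quotient.mk _ (∑ s, c s * y s) + Ideal.Quotient.mk _ (∑ s, c s * y' s)
  rw [← map_add, ← Finset.sum_add_distrib]
  congr 1
  exact Finset.sum_congr rfl fun s _ => mul_add _ _ _

theorem psiC_mul (hf : ∀ x : Λ, (p : Λ) * x = 0 → ∃ y, x = p * y) (hp : (p : Λ) ^ 2 = 0)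
    (hc : ∑ s, c s = 0)
    (x x' : Fin f → Λ) (hx : ∀ i, ∃ y, x i - x o = p * y) (hx' : ∀ i, ∃ y, x' i - x' o = p * y) :
    psiC p c o (fun i => x i * x' i) = psiC p c o x * psiC p c o x' := by
  choose y hy using hx
  choose y' hy' using hx'
  have h1 : ∀ s, (x s * x' s) - (x o * x' o) = p * (x o * y' s + y s * x' o) := fun s => by
    have h2 : x s = x o + p * y s := by rw [← hy]; ring
    have h3 : x' s = x' o + p * y' s := by rw [← hy']; ring
    rw [h2, h3]
    linear_combination (y s * y' s) * hp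
  rw [psiC_eq o hf hc hy, psiC_eq o hf hc hy', psiC_eq (x := fun i => x i * x' i) o hf hc h1]
  refine Prod.ext (map_mul _ _ _) ?_
  change Ideal.Quotient.mk _ (∑ s, c s * (x o * y' s + y s * x' o)) =
    Ideal.Quotient.mk _ (x o) * Ideal.Quotient.mk _ (∑ s, c s * y' s) +
      Ideal.Quotient.mk _ (∑ s, c s * y s) * Ideal.Quotient.mk _ (x' o)
  rw [← map_mul, ← map_mul, ← map_add, Finset.mul_sum, Finset.sum_mul,
    ← Finset.sum_add_distrib]
  congr 1
  exact Finset.sum_congr rfl fun s _ => by ring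

/-- The value on a constant family. -/
theorem psiC_const (hf : ∀ x : Λ, (p : Λ) * x = 0 → ∃ y, x = p * y) (hc : ∑ s, c s = 0)
    (x : Λ) : psiC p c o (fun _ => x) = (Ideal.Quotient.mk _ x, 0) := by
  rw [psiC_eq (x := fun _ : Fin f => x) (y := fun _ => 0) o hf hc (fun s => by
    rw [sub_self, mul_zero])]
  refine Prod.ext rfl ?_
  change Ideal.Quotient.mk _ (∑ s, c s * 0) = 0
  simp

theorem psiC_one (hf : ∀ x : Λ, (p : Λ) * x = 0 → ∃ y, x = p * y) (hc : ∑ s, c s = 0) :
    psiC p c o (fun _ => (1 : Λ)) = 1 := by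
  rw [psiC_const o hf hc]
  exact Prod.ext (map_one _) rfl

theorem psiC_zero (hf : ∀ x : Λ, (p : Λ) * x = 0 → ∃ y, x = p * y) (hc : ∑ s, c s = 0) :
    psiC p c o (fun _ => (0 : Λ)) = 0 := by
  rw [psiC_const o hf hc]
  exact Prod.ext (map_zero _) rfl

/-- The value on a family which is a multiple of `p`. -/
theorem psiC_p (hf : ∀ x : Λ, (p : Λ) * x = 0 → ∃ y, x = p * y) (hc : ∑ s, c s = 0)
    (y : Fin f → Λ) :
    psiC p c o (fun i => (p : Λ) * y i) = (0, Ideal.Quotient.mk _ (∑ s, c s * y s)) := by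
  have h1 : ∀ s, (p : Λ) * y s - p * y o = p * (y s - y o) := fun s => by ring
  rw [psiC_eq (x := fun i => (p : Λ) * y i) o hf hc h1]
  refine Prod.ext ?_ ?_
  · change Ideal.Quotient.mk _ ((p : Λ) * y o) = 0
    rw [Ideal.Quotient.eq_zero_iff_mem]
    exact Ideal.mul_mem_right _ _ (Ideal.subset_span rfl)
  · change Ideal.Quotient.mk _ (∑ s, c s * (y s - y o)) = Ideal.Quotient.mk _ (∑ s, c s * y s)
    congr 1
    rw [Finset.sum_congr rfl fun s _ => mul_sub (c s) (y s) (y o), Finset.sum_sub_distrib,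
      ← Finset.sum_mul, hc, zero_mul, sub_zero]

/-- The value on the family with `p y` in the slot `a` and zero in the other slots. -/
theorem psiC_single (hf : ∀ x : Λ, (p : Λ) * x = 0 → ∃ y, x = p * y) (hc : ∑ s, c s = 0)
    (a : Fin f) (y : Λ) :
    psiC p c o (fun i => open scoped Classical in if i = a then (p : Λ) * y else 0) =
      (0, Ideal.Quotient.mk _ (c a * y)) := by
  classical
  have h1 : (fun i => if i = a then (p : Λ) * y else 0) =
      fun i => (p : Λ) * (if i = a then y else 0) := by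
    funext i
    split_ifs
    · rfl
    · rw [mul_zero]
  rw [h1, psiC_p o hf hc]
  refine Prod.ext rfl ?_
  change Ideal.Quotient.mk _ (∑ s, c s * (if s = a then y else 0)) = _
  congr 1
  rw [Finset.sum_eq_single a]
  · rw [if_pos rfl]
  · intro b _ hb
    rw [if_neg hb, mul_zero]
  · intro h
    exact absurd (Finset.mem_univ a) h

end Psi

/-! ### The weights `1, 1, 1, 0, -3, 0, …` -/

/-- The weights `1, 1, 1, 0, -3, 0, …`. -/
def wts (Λ : Type) [CommRing Λ] (f : ℕ) (s : Fin f) : Λ :=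
  if s.1 ≤ 2 then 1 else if s.1 = 4 then -3 else 0

theorem wts_sum (Λ : Type) [CommRing Λ] {f : ℕ} (hf : 6 ≤ f) : ∑ s, wts Λ f s = 0 := by
  have h1 : ∀ n, 5 ≤ n → ∑ s ∈ Finset.range n,
      (if s ≤ 2 then (1 : Λ) else if s = 4 then -3 else 0) = 0 := by
    intro n hn
    induction n, hn using Nat.le_induction with
    | base =>
      rw [Finset.sum_range_succ, Finset.sum_range_succ, Finset.sum_range_succ,
        Finset.sum_range_succ, Finset.sum_range_succ, Finset.sum_range_zero]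
      norm_num
    | succ n hn ih =>
      rw [Finset.sum_range_succ, ih, if_neg (by omega), if_neg (by omega), zero_add]
  have h2 := h1 f (by omega)
  rw [← Fin.sum_univ_eq_sum_range (fun s => if s ≤ 2 then (1 : Λ) else if s = 4 then -3 else 0)]
    at h2
  exact h2

/-- Addition of residues. -/
def fadd {f : ℕ} (a j : Fin f) : Fin f :=
  ⟨(a.1 + j.1) % f, Nat.mod_lt _ (Nat.lt_of_le_of_lt (Nat.zero_le _) a.2)⟩

theorem wts_map {Λ Λ' : Type} [CommRing Λ] [CommRing Λ'] (φ : Λ →+* Λ') {f : ℕ} (s : Fin f) :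
    φ (wts Λ f s) = wts Λ' f s := by
  unfold wts
  split_ifs
  · exact map_one φ
  · rw [map_neg, map_ofNat]
  · exact map_zero φ

/-- `∑_j ∏_i c_(β_i + j) = 1` if `β` takes the values `0`, `1`, `2` and only these. -/
theorem wts_cyc (k : Type) [CommRing k] {f : ℕ} (hf : 6 ≤ f) {m : ℕ} (β : Fin m → Fin f)
    (h012 : ∀ i, (β i).1 ≤ 2) (h0 : ∃ i, (β i).1 = 0) (h1 : ∃ i, (β i).1 = 1)
    (h2 : ∃ i, (β i).1 = 2) : ∑ j : Fin f, ∏ i, wts k f (fadd (β i) j) = 1 := by
  rw [Finset.sum_eq_single (⟨0, by omega⟩ : Fin f)]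
  · refine Finset.prod_eq_one fun i _ => ?_
    have h3 := h012 i
    have h4 : (fadd (β i) ⟨0, by omega⟩).1 = (β i).1 := by
      change ((β i).1 + 0) % f = (β i).1
      rw [Nat.add_zero, Nat.mod_eq_of_lt (β i).2]
    unfold wts
    rw [h4, if_pos h3]
  · intro j _ hj
    have hj0 : j.1 ≠ 0 := fun h => hj (Fin.ext h)
    have hjf := j.2
    have key : ∃ i, wts k f (fadd (β i) j) = 0 := by
      have hz : ∀ i, ∀ r, (fadd (β i) j).1 = r → ¬ r ≤ 2 → r ≠ 4 →
          wts k f (fadd (β i) j) = 0 := by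
        intro i r hr h5 h6
        unfold wts
        rw [hr, if_neg h5, if_neg h6]
      obtain ⟨i0, hi0⟩ := h0
      obtain ⟨i1, hi1⟩ := h1
      obtain ⟨i2, hi2⟩ := h2
      have e0 : (fadd (β i0) j).1 = j.1 := by
        change ((β i0).1 + j.1) % f = j.1
        rw [hi0, Nat.zero_add, Nat.mod_eq_of_lt hjf]
      have e1 : (fadd (β i1) j).1 = if j.1 + 1 = f then 0 else j.1 + 1 := by
        change ((β i1).1 + j.1) % f = _
        rw [hi1]
        split_ifs with h
        · rw [Nat.add_comm, h, Nat.mod_self]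
        · rw [Nat.add_comm, Nat.mod_eq_of_lt (by omega)]
      have e2 : (fadd (β i2) j).1 = if j.1 + 2 = f then 0 else if j.1 + 1 = f then 1
          else j.1 + 2 := by
        change ((β i2).1 + j.1) % f = _
        rw [hi2]
        split_ifs with h h'
        · rw [Nat.add_comm, h, Nat.mod_self]
        · have h5 : 2 + j.1 = f + 1 := by omega
          rw [h5, Nat.add_mod_left, Nat.mod_eq_of_lt (by omega)]
        · rw [Nat.add_comm, Nat.mod_eq_of_lt (by omega)]
      by_cases c3 : j.1 = 3 ∨ 5 ≤ j.1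
      · exact ⟨i0, hz i0 _ e0 (by omega) (by omega)⟩
      · by_cases c4 : j.1 = 4 ∨ j.1 = 2
        · refine ⟨i1, hz i1 _ e1 ?_ ?_⟩
          · rw [if_neg (by omega)]; omega
          · rw [if_neg (by omega)]; omega
        · have c5 : j.1 = 1 := by omega
          refine ⟨i2, hz i2 _ e2 ?_ ?_⟩
          · rw [if_neg (by omega), if_neg (by omega)]; omega
          · rw [if_neg (by omega), if_neg (by omega)]; omega
    obtain ⟨i, hi⟩ := key
    exact Finset.prod_eq_zero (Finset.mem_univ i) hi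
  · intro h
    exact absurd (Finset.mem_univ _) h

end Pool.Agent.MP_d175a7_gt
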