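import Pool.Agent.Lib.MP_d175a7_gt.VdF

/-! # Coordinates of `VV` of a list of free objects -/

set_option autoImplicit false
set_option linter.unusedVariables false

namespace Pool.Agent.MP_d175a7_gt

open scoped Topology unitInterval

variable {R : RSp} {k : Type} [CommRing k]

/-- The index set of the coordinates of a list of free objects. -/
def JL : List (FreeObj R) → Type
  | [] => Empty
  | a :: L => Fin a.r ⊕ JL L

instance JL.fintype : ∀ L : List (FreeObj R), Fintype (JL L)
  | [] => inferInstanceAs (Fintype Empty)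
  | a :: L => by
    haveI := JL.fintype L
    exact inferInstanceAs (Fintype (Fin a.r ⊕ JL L))

instance JL.decEq : ∀ L : List (FreeObj R), DecidableEq (JL L)
  | [] => inferInstanceAs (DecidableEq Empty)
  | a :: L => by
    haveI := JL.decEq L
    exact inferInstanceAs (DecidableEq (Fin a.r ⊕ JL L))

/-- The coordinates `VV D (∏ L) ≃ k[ε]^(JL L)`. -/
noncomputable def crdL (D : Det R k) : ∀ L : List (FreeObj R),
    VV D (PiL L) ≃ₗ[DualNumber k] (JL L → DualNumber k)
  | [] =>
    { toFun := fun _ j => Empty.elim j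
      map_add' := fun _ _ => funext fun j => Empty.elim j
      map_smul' := fun _ _ => funext fun j => Empty.elim j
      invFun := fun _ => 0
      left_inv := fun f => (VVzero D f).symm
      right_inv := fun g => funext fun j => Empty.elim j }
  | a :: L =>
    ((VVprod D a.P (PiL L)).trans ((crd D a).prodCongr (crdL D L))).trans
      (LinearEquiv.sumArrowLequivProdArrow (Fin a.r) (JL L) (DualNumber k) (DualNumber k)).symm

theorem crdL_inl (D : Det R k) (a : FreeObj R) (L : List (FreeObj R))
    (f : VV D (PiL (a :: L))) (i : Fin a.r) :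
    crdL D (a :: L) f (Sum.inl i) = crd D a (vmap D (inM1 a.P (PiL L)) f) i := rfl

theorem crdL_inr (D : Det R k) (a : FreeObj R) (L : List (FreeObj R))
    (f : VV D (PiL (a :: L))) (i : JL L) :
    crdL D (a :: L) f (Sum.inr i) = crdL D L (vmap D (inM2 a.P (PiL L)) f) i := rfl

/-- The index set of a concatenation. -/
def jlE : ∀ L M : List (FreeObj R), JL (L ++ M) ≃ JL L ⊕ JL M
  | [], M => (Equiv.emptySum Empty (JL M)).symm
  | a :: L, M => ((Equiv.refl (Fin a.r)).sumCongr (jlE L M)).trans
      (Equiv.sumAssoc (Fin a.r) (JL L) (JL M)).symm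

/-- The inclusion of the first factor. -/
noncomputable def jin1 (L M : List (FreeObj R)) : MHom (PiL L) (PiL (L ++ M)) :=
  (inM1 (PiL L) (PiL M)).comp (jn L M)

/-- The inclusion of the second factor. -/
noncomputable def jin2 (L M : List (FreeObj R)) : MHom (PiL M) (PiL (L ++ M)) :=
  (inM2 (PiL L) (PiL M)).comp (jn L M)

private theorem VdL_1a (a : FreeObj R) (L M : List (FreeObj R)) :
    (inM1 a.P (PiL L)).comp (jin1 (a :: L) M) = inM1 a.P (PiL (L ++ M)) := by
  apply MHom.ext
  intro n x
  exact Prod.ext rfl ((jn L M).pt n)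

private theorem VdL_1b (a : FreeObj R) (L M : List (FreeObj R)) :
    (inM2 a.P (PiL L)).comp (jin1 (a :: L) M) = (jin1 L M).comp (inM2 a.P (PiL (L ++ M))) := by
  apply MHom.ext
  intro n x
  rfl

private theorem VdL_2a (M : List (FreeObj R)) : jin2 [] M = MHom.id (PiL M) := by
  apply MHom.ext
  intro n x
  rfl

private theorem VdL_2b (a : FreeObj R) (L M : List (FreeObj R)) :
    jin2 (a :: L) M = (jin2 L M).comp (inM2 a.P (PiL (L ++ M))) := by
  apply MHom.ext
  intro n x
  rfl

/-- The coordinates of a concatenation, first part.  Proof: induction on `L`; for `a :: L` and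
`i = Sum.inl i'` both sides are `crd D a (..) i'` of the restriction to the first factor: the
homomorphisms `(inM1 a.P _).comp (jin1 (a :: L) M)` and `inM1 a.P (PiL (L ++ M))` are equal
(`MHom.ext`, `rfl` up to `(jn L M).f n (pt, pt) = pt`, which follows from
`(jn L M).pt`); for `i = Sum.inr i'` use the induction hypothesis for
`vmap D (inM2 a.P _) f` and `(inM2 a.P (PiL L)).comp (jin1 (a :: L) M) =
(jin1 L M).comp (inM2 a.P (PiL (L ++ M)))`. -/
theorem crdL_jin1 (D : Det R k) (L M : List (FreeObj R)) (f : VV D (PiL (L ++ M))) (i : JL L) :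
    crdL D (L ++ M) f ((jlE L M).symm (Sum.inl i)) = crdL D L (vmap D (jin1 L M) f) i := by
  induction L with
  | nil => exact Empty.elim i
  | cons a L ih =>
    rcases i with i | i
    · change crd D a (vmap D (inM1 a.P (PiL (L ++ M))) f) i =
        crd D a (vmap D (inM1 a.P (PiL L)) (vmap D (jin1 (a :: L) M) f)) i
      rw [← VdL_1a a L M]
      rfl
    · change crdL D (L ++ M) (vmap D (inM2 a.P (PiL (L ++ M))) f) ((jlE L M).symm (Sum.inl i)) =
        crdL D L (vmap D (inM2 a.P (PiL L)) (vmap D (jin1 (a :: L) M) f)) i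
      refine (ih (vmap D (inM2 a.P (PiL (L ++ M))) f) i).trans ?_
      change crdL D L (vmap D ((jin1 L M).comp (inM2 a.P (PiL (L ++ M)))) f) i =
        crdL D L (vmap D ((inM2 a.P (PiL L)).comp (jin1 (a :: L) M)) f) i
      rw [← VdL_1b a L M]
      rfl

/-- The coordinates of a concatenation, second part.  Proof: induction on `L` as for
`crdL_jin1`. -/
theorem crdL_jin2 (D : Det R k) (L M : List (FreeObj R)) (f : VV D (PiL (L ++ M))) (i : JL M) :
    crdL D (L ++ M) f ((jlE L M).symm (Sum.inr i)) = crdL D M (vmap D (jin2 L M) f) i := by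
  induction L with
  | nil =>
    rw [VdL_2a]
    rfl
  | cons a L ih =>
    change crdL D (L ++ M) (vmap D (inM2 a.P (PiL (L ++ M))) f) ((jlE L M).symm (Sum.inr i)) =
      crdL D M (vmap D (jin2 (a :: L) M) f) i
    refine (ih (vmap D (inM2 a.P (PiL (L ++ M))) f)).trans ?_
    rw [VdL_2b a L M]
    rfl

/-- Inclusion and product of homomorphisms.  Proof: `MHom.ext`; the point is
`(jn ..).f n (f.f n (sp1 (jn (x, pt))), g.f n (sp2 (jn (x, pt))))`; use `sp1_jn`, `sp2_jn`, `g.pt`. -/
theorem jin1_tmap {L L' M M' : List (FreeObj R)} (f : MHom (PiL L) (PiL L'))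
    (g : MHom (PiL M) (PiL M')) :
    (jin1 L M).comp (tmap f g) = f.comp (jin1 L' M') := by
  apply MHom.ext
  intro n x
  change (jn L' M').f n (f.f n ((sp1 L M).f n ((jn L M).f n (x, (PiL M).pt n))),
    g.f n ((sp2 L M).f n ((jn L M).f n (x, (PiL M).pt n)))) =
    (jn L' M').f n (f.f n x, (PiL M').pt n)
  rw [sp1_jn, sp2_jn, g.pt]

theorem jin2_tmap {L L' M M' : List (FreeObj R)} (f : MHom (PiL L) (PiL L'))
    (g : MHom (PiL M) (PiL M')) :
    (jin2 L M).comp (tmap f g) = g.comp (jin2 L' M') := by
  apply MHom.ext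
  intro n x
  change (jn L' M').f n (f.f n ((sp1 L M).f n ((jn L M).f n ((PiL L).pt n, x))),
    g.f n ((sp2 L M).f n ((jn L M).f n ((PiL L).pt n, x)))) =
    (jn L' M').f n ((PiL L').pt n, g.f n x)
  rw [sp1_jn, sp2_jn, f.pt]

end Pool.Agent.MP_d175a7_gt
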