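import Pool.Agent.Lib.MP_d175a7_gt.LamV
import Pool.Agent.Lib.MP_d175a7_gt.Cat

/-!
# Pullbacks of modules, and the modules `C ×_(Ω^v N) Ω^v M`

For module homomorphisms `κ : C → N`, `ρ : M → N`: the pullback `Pb κ ρ`, and
`Zb v κ ρ = {(c, y) : y : S^v → M_(n+v), κ(c) u = ρ (y u)}`, with the homomorphism
`Pb κ ρ → Zb v κ ρ`, `(c, m) ↦ (c, u ↦ m u)`.
-/

set_option autoImplicit false
set_option linter.unusedVariables false

namespace Pool.Agent.MP_d175a7_gt

open scoped Topology unitInterval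

variable {R : RSp} {C M N : MSp R}

/-- The pullback `C ×_N M`. -/
def Pb (κ : MHom C N) (ρ : MHom M N) : MSp R where
  X n := {x : C.X n × M.X n // κ.f n x.1 = ρ.f n x.2}
  pt n := ⟨(C.pt n, M.pt n), by rw [κ.pt, ρ.pt]⟩
  closed n := by
    have h : ({⟨(C.pt n, M.pt n), by rw [κ.pt, ρ.pt]⟩} :
        Set {x : C.X n × M.X n // κ.f n x.1 = ρ.f n x.2}) =
        Subtype.val ⁻¹' (({C.pt n} : Set (C.X n)) ×ˢ ({M.pt n} : Set (M.X n))) := by
      ext z
      simp [Subtype.ext_iff, Prod.ext_iff]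
    rw [h]
    exact ((C.closed n).prod (M.closed n)).preimage continuous_subtype_val
  act n A x := ⟨(C.act n A x.1.1, M.act n A x.1.2), by
    change κ.f n (C.act n A x.1.1) = ρ.f n (M.act n A x.1.2)
    rw [κ.act, ρ.act, x.2]⟩
  act_cont n T _ _ _ g h hg hh := Continuous.subtype_mk
    ((C.act_cont n T g (fun t => (h t).1.1) hg
        (continuous_fst.comp (continuous_subtype_val.comp hh))).prodMk
      (M.act_cont n T g (fun t => (h t).1.2) hg
        (continuous_snd.comp (continuous_subtype_val.comp hh)))) _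
  act_one n x := Subtype.ext (Prod.ext (C.act_one n _) (M.act_one n _))
  act_mul n A B x := Subtype.ext (Prod.ext (C.act_mul n _ _ _) (M.act_mul n _ _ _))
  act_pt n A := Subtype.ext (Prod.ext (C.act_pt n _) (M.act_pt n _))
  smul {m n k} h r x := ⟨(C.smul h r x.1.1, M.smul h r x.1.2), by
    change κ.f k (C.smul h r x.1.1) = ρ.f k (M.smul h r x.1.2)
    rw [κ.smul, ρ.smul, x.2]⟩
  smul_cont h T _ _ _ g f hg hf := Continuous.subtype_mk
    ((C.smul_cont h T g (fun t => (f t).1.1) hg
        (continuous_fst.comp (continuous_subtype_val.comp hf))).prodMk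
      (M.smul_cont h T g (fun t => (f t).1.2) hg
        (continuous_snd.comp (continuous_subtype_val.comp hf)))) _
  smul_pt h r := Subtype.ext (Prod.ext (C.smul_pt h _) (M.smul_pt h _))
  pt_smul h y := Subtype.ext (Prod.ext (C.pt_smul h _) (M.pt_smul h _))
  smul_assoc h₁ h₂ h₃ h₄ x y z := Subtype.ext
    (Prod.ext (C.smul_assoc h₁ h₂ h₃ h₄ _ _ _) (M.smul_assoc h₁ h₂ h₃ h₄ _ _ _))
  smul_act h A B x y := Subtype.ext (Prod.ext (C.smul_act h _ _ _ _) (M.smul_act h _ _ _ _))
  one_smul h x := Subtype.ext (Prod.ext (C.one_smul h _) (M.one_smul h _))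

theorem addv {m n k : ℕ} (h : m + n = k) (v : ℕ) : m + (n + v) = k + v := by omega

/-- `C ×_(Ω^v N) Ω^v M`. -/
def Zb (v : ℕ) (κ : MHom C N) (ρ : MHom M N) : MSp R where
  X n := {x : C.X n × C(Sph v, M.X (n + v)) // x.2 OnePoint.infty = M.pt (n + v) ∧
    ∀ u, rm N rfl (κ.f n x.1) u = ρ.f (n + v) (x.2 u)}
  pt n := ⟨(C.pt n, ContinuousMap.const _ (M.pt (n + v))), rfl, fun u => by
    change rm N rfl (κ.f n (C.pt n)) u = ρ.f (n + v) (M.pt (n + v))
    rw [κ.pt, ρ.pt, rm_pt]⟩
  closed n := by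
    have h1 : IsClosed ({ContinuousMap.const _ (M.pt (n + v))} : Set C(Sph v, M.X (n + v))) := by
      have h2 : ({ContinuousMap.const _ (M.pt (n + v))} : Set C(Sph v, M.X (n + v))) =
          ⋂ u, {w | w u = M.pt (n + v)} := by
        ext w
        simp [ContinuousMap.ext_iff]
      rw [h2]
      exact isClosed_iInter fun u =>
        IsClosed.preimage (f := fun w : C(Sph v, M.X (n + v)) => w u)
          (continuous_eval_const u) (M.closed (n + v))
    have h : ({⟨(C.pt n, ContinuousMap.const _ (M.pt (n + v))), rfl, fun u => by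
        change rm N rfl (κ.f n (C.pt n)) u = ρ.f (n + v) (M.pt (n + v))
        rw [κ.pt, ρ.pt, rm_pt]⟩} :
        Set {x : C.X n × C(Sph v, M.X (n + v)) // x.2 OnePoint.infty = M.pt (n + v) ∧
          ∀ u, rm N rfl (κ.f n x.1) u = ρ.f (n + v) (x.2 u)}) =
        Subtype.val ⁻¹' (({C.pt n} : Set (C.X n)) ×ˢ
          ({ContinuousMap.const _ (M.pt (n + v))} : Set C(Sph v, M.X (n + v)))) := by
      ext z
      simp [Subtype.ext_iff, Prod.ext_iff]
    rw [h]
    exact ((C.closed n).prod h1).preimage continuous_subtype_val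
  act n A x := ⟨(C.act n A x.1.1, ⟨fun u => M.act (n + v) (blk rfl A 1) (x.1.2 u),
      M.act_cont (n + v) (Sph v) (fun _ => blk rfl A 1) (fun u => x.1.2 u) continuous_const
        x.1.2.continuous⟩), by
    change M.act (n + v) (blk rfl A 1) (x.1.2 OnePoint.infty) = M.pt (n + v)
    rw [x.2.1, M.act_pt], fun u => by
    change rm N rfl (κ.f n (C.act n A x.1.1)) u =
      ρ.f (n + v) (M.act (n + v) (blk rfl A 1) (x.1.2 u))
    rw [κ.act, ρ.act, ← x.2.2, rm_act_left]⟩
  act_cont n T _ _ _ g h hg hh := by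
    refine Continuous.subtype_mk (((C.act_cont n T g (fun t => (h t).1.1) hg
        (continuous_fst.comp (continuous_subtype_val.comp hh)))).prodMk ?_) _
    refine curry_cont _ ?_
    exact M.act_cont (n + v) (T × Sph v) (fun q => blk rfl (g q.1) 1)
      (fun q => (h q.1).1.2 q.2)
      ((blk_cont rfl).comp ((hg.comp continuous_fst).prodMk continuous_const))
      (uncurry_cont (fun t => (h t).1.2)
        (continuous_snd.comp (continuous_subtype_val.comp hh)))
  act_one n x := Subtype.ext (Prod.ext (C.act_one n _) (ContinuousMap.ext fun u => by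
    change M.act (n + v) (blk rfl 1 1) (x.1.2 u) = x.1.2 u
    rw [blk_one, M.act_one]))
  act_mul n A B x := Subtype.ext (Prod.ext (C.act_mul n _ _ _) (ContinuousMap.ext fun u => by
    change M.act (n + v) (blk rfl (A * B) 1) (x.1.2 u) =
      M.act (n + v) (blk rfl A 1) (M.act (n + v) (blk rfl B 1) (x.1.2 u))
    rw [← M.act_mul, ← blk_mul, mul_one]))
  act_pt n A := Subtype.ext (Prod.ext (C.act_pt n _) (ContinuousMap.ext fun u => M.act_pt _ _))
  smul {m n k} h r x := ⟨(C.smul h r x.1.1, ⟨fun u => M.smul (addv h v) r (x.1.2 u),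
      M.smul_cont (addv h v) (Sph v) (fun _ => r) (fun u => x.1.2 u) continuous_const
        x.1.2.continuous⟩), by
    change M.smul (addv h v) r (x.1.2 OnePoint.infty) = M.pt (k + v)
    rw [x.2.1, M.smul_pt], fun u => by
    change rm N rfl (κ.f k (C.smul h r x.1.1)) u = ρ.f (k + v) (M.smul (addv h v) r (x.1.2 u))
    rw [κ.smul, ρ.smul, ← x.2.2, smul_rm]⟩
  smul_cont {m n k} h T _ _ _ g f hg hf := by
    refine Continuous.subtype_mk (((C.smul_cont h T g (fun t => (f t).1.1) hg
        (continuous_fst.comp (continuous_subtype_val.comp hf)))).prodMk ?_) _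
    refine curry_cont _ ?_
    exact M.smul_cont (addv h v) (T × Sph v) (fun q => g q.1) (fun q => (f q.1).1.2 q.2)
      (hg.comp continuous_fst)
      (uncurry_cont (fun t => (f t).1.2)
        (continuous_snd.comp (continuous_subtype_val.comp hf)))
  smul_pt h r := Subtype.ext (Prod.ext (C.smul_pt h _) (ContinuousMap.ext fun u =>
    M.smul_pt _ _))
  pt_smul h y := Subtype.ext (Prod.ext (C.pt_smul h _) (ContinuousMap.ext fun u =>
    M.pt_smul _ _))
  smul_assoc {a b c ab bc abc} h₁ h₂ h₃ h₄ x y z := Subtype.ext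
    (Prod.ext (C.smul_assoc h₁ h₂ h₃ h₄ _ _ _) (ContinuousMap.ext fun u =>
      M.smul_assoc h₁ (addv h₂ v) (addv h₃ v) (addv h₄ v) _ _ _))
  smul_act {m n k} h A B x y := Subtype.ext (Prod.ext (C.smul_act h _ _ _ _)
    (ContinuousMap.ext fun u => by
      change M.smul (addv h v) (R.act m A x) (M.act (n + v) (blk rfl B 1) (y.1.2 u)) =
        M.act (k + v) (blk rfl (blk h A B) 1) (M.smul (addv h v) x (y.1.2 u))
      rw [M.smul_act, blk_assoc h rfl rfl (addv h v)]))
  one_smul {n} h x := Subtype.ext (Prod.ext (C.one_smul h _) (ContinuousMap.ext fun u =>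
    M.one_smul _ _))

/-- `(c, m) ↦ (c, u ↦ m u)`. -/
def ziota (v : ℕ) (κ : MHom C N) (ρ : MHom M N) : MHom (Pb κ ρ) (Zb v κ ρ) where
  f n x := ⟨(x.1.1, ⟨fun u => rm M rfl x.1.2 u,
      rm_cont M rfl (Sph v) (fun _ => x.1.2) (fun u => u) continuous_const continuous_id⟩),
    rm_infty M rfl x.1.2, fun u => by
      change rm N rfl (κ.f n x.1.1) u = ρ.f (n + v) (rm M rfl x.1.2 u)
      rw [map_rm, x.2]⟩
  cont n T _ _ _ g hg := by
    refine Continuous.subtype_mk ((continuous_fst.comp
      (continuous_subtype_val.comp hg)).prodMk ?_) _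
    refine curry_cont _ ?_
    exact rm_cont M rfl (T × Sph v) (fun q => (g q.1).1.2) (fun q => q.2)
      (continuous_snd.comp (continuous_subtype_val.comp (hg.comp continuous_fst)))
      continuous_snd
  pt n := Subtype.ext (Prod.ext rfl (ContinuousMap.ext fun u => rm_pt M rfl u))
  act n A x := Subtype.ext (Prod.ext rfl (ContinuousMap.ext fun u =>
    rm_act_left M rfl A x.1.2 u))
  smul {m n k} h r x := Subtype.ext (Prod.ext rfl (ContinuousMap.ext fun u =>
    (smul_rm M h rfl rfl (addv h v) r x.1.2 u).symm))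

end Pool.Agent.MP_d175a7_gt
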